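import Pool.Agent.Work.MP_bc8e1e_an.D.Defs

/-!
# C1: the band limited criterion for absolute continuity
-/

set_option autoImplicit false

open MeasureTheory ProbabilityTheory Polynomial
open scoped RealInnerProductSpace ContDiff FourierTransform

namespace Pool.Agent.BCD

/-- A smooth even cut-off, `1` on `[-1,1]`, `0` outside `[-2,2]`. -/
noncomputable def cutC (u : ℝ) : ℝ := Real.smoothTransition (2 - u) * Real.smoothTransition (2 + u)

lemma cutC_contDiff : ContDiff ℝ ∞ cutC := by
  unfold cutC
  exact (Real.smoothTransition.contDiff.comp (contDiff_const.sub contDiff_id)).mul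
    (Real.smoothTransition.contDiff.comp (contDiff_const.add contDiff_id))

lemma cutC_continuous : Continuous cutC := cutC_contDiff.continuous

lemma cutC_zero : cutC 0 = 1 := by
  unfold cutC
  rw [Real.smoothTransition.one_of_one_le (by norm_num), Real.smoothTransition.one_of_one_le (by norm_num)]
  norm_num

lemma cutC_neg (u : ℝ) : cutC (-u) = cutC u := by
  unfold cutC
  rw [sub_neg_eq_add, ← sub_eq_add_neg, mul_comm]

lemma cutC_of_two_le {u : ℝ} (hu : 2 ≤ |u|) : cutC u = 0 := by
  unfold cutC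
  rcases le_abs.1 hu with h | h
  · rw [Real.smoothTransition.zero_of_nonpos (by linarith), zero_mul]
  · rw [Real.smoothTransition.zero_of_nonpos (x := 2 + u) (by linarith), mul_zero]

lemma cutC_support : HasCompactSupport cutC := by
  refine HasCompactSupport.intro (isCompact_Icc (a := (-2 : ℝ)) (b := 2)) fun x hx => ?_
  apply cutC_of_two_le
  by_contra h
  apply hx
  rw [not_le, abs_lt] at h
  exact ⟨h.1.le, h.2.le⟩

lemma psi_eq (u : ℝ) : psi u + psi (-u) = cutC (u / 2) - cutC u := by
  unfold psi cutC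
  rcases le_total 0 u with h | h
  · rw [Real.smoothTransition.one_of_one_le (x := 2 - -u / 2) (by linarith),
      Real.smoothTransition.one_of_one_le (x := 2 - -u) (by linarith),
      Real.smoothTransition.one_of_one_le (x := 2 + u / 2) (by linarith),
      Real.smoothTransition.one_of_one_le (x := 2 + u) (by linarith)]
    ring
  · rw [Real.smoothTransition.one_of_one_le (x := 2 - u / 2) (by linarith),
      Real.smoothTransition.one_of_one_le (x := 2 - u) (by linarith)]
    have h1 : 2 - -u / 2 = 2 + u / 2 := by ring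
    have h2 : 2 - -u = 2 + u := by ring
    rw [h1, h2]
    ring

lemma psi_continuous : Continuous psi := by
  unfold psi
  exact (Real.smoothTransition.continuous.comp (by fun_prop)).sub
    (Real.smoothTransition.continuous.comp (by fun_prop))

lemma psi_of_le_one {u : ℝ} (hu : u ≤ 1) : psi u = 0 := by
  unfold psi
  rw [Real.smoothTransition.one_of_one_le (by linarith), Real.smoothTransition.one_of_one_le (by linarith)]
  norm_num

lemma psi_of_four_le {u : ℝ} (hu : 4 ≤ u) : psi u = 0 := by
  unfold psi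
  rw [Real.smoothTransition.zero_of_nonpos (by linarith), Real.smoothTransition.zero_of_nonpos (by linarith)]
  norm_num

lemma psi_support : HasCompactSupport psi := by
  refine HasCompactSupport.intro (isCompact_Icc (a := (1 : ℝ)) (b := 4)) fun x hx => ?_
  rcases lt_or_ge x 1 with h | h
  · exact psi_of_le_one h.le
  · apply psi_of_four_le
    by_contra h4
    exact hx ⟨h, (not_le.1 h4).le⟩

/-- the cut-off as a Schwartz function -/
noncomputable def cutS : SchwartzMap ℝ ℂ :=
  HasCompactSupport.toSchwartzMap (f := fun v : ℝ => (cutC (2 * Real.pi * v) : ℂ))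
    (by
      have h1 : HasCompactSupport fun v : ℝ => cutC (2 * Real.pi * v) := by
        have := cutC_support.comp_homeomorph (Homeomorph.mulLeft₀ (2 * Real.pi) (by positivity))
        exact this
      exact h1.comp_left (g := fun x : ℝ => (x : ℂ)) (by simp))
    (Complex.ofRealCLM.contDiff.comp (cutC_contDiff.comp (contDiff_const.mul contDiff_id)))

lemma cutS_apply (v : ℝ) : cutS v = (cutC (2 * Real.pi * v) : ℂ) := rfl

/-- the inverse Fourier transform of the cut-off -/
noncomputable def gS : SchwartzMap ℝ ℂ := 𝓕⁻ cutS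

/-- its real part -/
noncomputable def g1 (x : ℝ) : ℝ := (gS x).re

lemma g1_continuous : Continuous g1 := Complex.continuous_re.comp gS.continuous

lemma g1_integrable : Integrable g1 := gS.integrable.re

lemma g1_eq (x : ℝ) : g1 x = ∫ v : ℝ, Real.cos (2 * Real.pi * v * x) * cutC (2 * Real.pi * v) := by
  have h1 : gS x = ∫ v : ℝ, Complex.exp ((↑(2 * Real.pi * ⟪v, x⟫) * Complex.I)) • cutS v := by
    unfold gS
    rw [SchwartzMap.fourierInv_coe, Real.fourierInv_eq']
  have hint : Integrable fun v : ℝ => Complex.exp ((↑(2 * Real.pi * ⟪v, x⟫) * Complex.I)) • cutS v := by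
    have := (VectorFourier.fourierIntegral_convergent_iff (f := (cutS : ℝ → ℂ)) (μ := volume)
      Real.continuous_fourierChar (L := innerₗ ℝ) continuous_inner (-x)).2 cutS.integrable
    refine this.congr (Filter.Eventually.of_forall fun v => ?_)
    simp only [Circle.smul_def, Real.fourierChar_apply, innerₗ_apply_apply, inner_neg_right, neg_neg]
  unfold g1
  rw [h1, ← RCLike.re_eq_complex_re, ← integral_re hint]
  refine integral_congr_ae (Filter.Eventually.of_forall fun v => ?_)
  simp only [RCLike.re_eq_complex_re, smul_eq_mul, cutS_apply]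
  have h2 : (2 * Real.pi * ⟪v, x⟫ : ℝ) = 2 * Real.pi * v * x := by
    simp only [RCLike.inner_apply, conj_trivial]; ring
  rw [h2, Complex.re_mul_ofReal, Complex.exp_ofReal_mul_I_re]

lemma integral_g1 : ∫ x, g1 x = 1 := by
  have h1 : ∫ x, gS x = 1 := by
    have h2 : (𝓕 gS : SchwartzMap ℝ ℂ) 0 = 1 := by
      unfold gS
      rw [FourierTransform.fourier_fourierInv_eq, cutS_apply, mul_zero, cutC_zero]
      norm_num
    rw [SchwartzMap.fourier_coe, Real.fourier_real_eq] at h2
    rw [← h2]
    refine integral_congr_ae (Filter.Eventually.of_forall fun v => ?_)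
    simp
  have h3 := integral_re (𝕜 := ℂ) (μ := (volume : Measure ℝ)) gS.integrable
  simp only [RCLike.re_eq_complex_re] at h3
  unfold g1
  rw [h3, h1]
  simp

/-- the kernel at scale `R`. -/
noncomputable def gK (R x : ℝ) : ℝ := R * g1 (R * x)

lemma gK_eq {ρ : ℝ} (hρ : 0 < ρ) (x : ℝ) :
    gK ρ x = (2 * Real.pi)⁻¹ * ∫ ξ : ℝ, cutC (ξ / ρ) * Real.cos (x * ξ) := by
  unfold gK
  rw [g1_eq]
  have h1 := Measure.integral_comp_mul_left (fun ξ : ℝ => cutC (ξ / ρ) * Real.cos (x * ξ)) (2 * Real.pi * ρ)
  have h2 : 0 < 2 * Real.pi * ρ := by positivity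
  rw [abs_of_pos (inv_pos.2 h2), smul_eq_mul] at h1
  have h3 : ∫ ξ : ℝ, cutC (ξ / ρ) * Real.cos (x * ξ) = (2 * Real.pi * ρ) *
      ∫ v : ℝ, cutC (2 * Real.pi * ρ * v / ρ) * Real.cos (x * (2 * Real.pi * ρ * v)) := by
    rw [h1, ← mul_assoc, mul_inv_cancel₀ h2.ne', one_mul]
  rw [h3, ← mul_assoc, ← mul_assoc]
  have h4 : (2 * Real.pi)⁻¹ * (2 * Real.pi) * ρ = ρ := by
    rw [inv_mul_cancel₀ (by positivity), one_mul]
  rw [h4]
  congr 1
  refine integral_congr_ae (Filter.Eventually.of_forall fun v => ?_)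
  have h5 : 2 * Real.pi * ρ * v / ρ = 2 * Real.pi * v := by field_simp
  have h6 : x * (2 * Real.pi * ρ * v) = 2 * Real.pi * v * (ρ * x) := by ring
  simp only [h5, h6]
  ring

lemma integrable_cut_cos {ρ : ℝ} (hρ : 0 < ρ) (x : ℝ) :
    Integrable fun ξ : ℝ => cutC (ξ / ρ) * Real.cos (x * ξ) := by
  apply Continuous.integrable_of_hasCompactSupport
  · exact (cutC_continuous.comp (by fun_prop)).mul (by fun_prop)
  · have h1 : HasCompactSupport fun ξ : ℝ => cutC (ξ / ρ) := by
      have := cutC_support.comp_homeomorph (Homeomorph.mulRight₀ (ρ⁻¹) (by positivity))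
      exact this
    exact h1.mul_right

lemma integrable_psi_cos {ρ : ℝ} (hρ : ρ ≠ 0) (x : ℝ) :
    Integrable fun ξ : ℝ => psi (ξ / ρ) * Real.cos (x * ξ) := by
  apply Continuous.integrable_of_hasCompactSupport
  · exact (psi_continuous.comp (by fun_prop)).mul (by fun_prop)
  · have h1 : HasCompactSupport fun ξ : ℝ => psi (ξ / ρ) := by
      have := psi_support.comp_homeomorph (Homeomorph.mulRight₀ (ρ⁻¹) (inv_ne_zero hρ))
      exact this
    exact h1.mul_right

lemma fK_eq {R : ℝ} (hR : 0 < R) (x : ℝ) : fK R x = gK (2 * R) x - gK R x := by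
  rw [gK_eq (by positivity), gK_eq hR, ← mul_sub,
    ← integral_sub (integrable_cut_cos (by positivity) x) (integrable_cut_cos hR x)]
  have h1 : ∀ ξ : ℝ, cutC (ξ / (2 * R)) * Real.cos (x * ξ) - cutC (ξ / R) * Real.cos (x * ξ) =
      psi (ξ / R) * Real.cos (x * ξ) + psi (ξ / -R) * Real.cos (x * ξ) := by
    intro ξ
    have h2 := psi_eq (ξ / R)
    have h3 : ξ / R / 2 = ξ / (2 * R) := by field_simp
    have h4 : ξ / -R = -(ξ / R) := by rw [div_neg]
    rw [h3] at h2
    rw [h4]
    linear_combination (-Real.cos (x * ξ)) * h2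
  simp only [h1]
  rw [integral_add (integrable_psi_cos hR.ne' x) (integrable_psi_cos (neg_ne_zero.2 hR.ne') x)]
  have h5 : ∫ ξ : ℝ, psi (ξ / -R) * Real.cos (x * ξ) = ∫ ξ : ℝ, psi (ξ / R) * Real.cos (x * ξ) := by
    rw [← integral_neg_eq_self (fun ξ : ℝ => psi (ξ / R) * Real.cos (x * ξ))]
    refine integral_congr_ae (Filter.Eventually.of_forall fun ξ => ?_)
    simp only [neg_div, div_neg, mul_neg, Real.cos_neg]
  rw [h5]
  unfold fK
  have h6 : (2 * Real.pi)⁻¹ = Real.pi⁻¹ / 2 := by
    rw [mul_inv]; ring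
  rw [h6]
  ring

lemma gK_continuous (R : ℝ) : Continuous (gK R) := by
  unfold gK
  exact continuous_const.mul (g1_continuous.comp (by fun_prop))

lemma gK_integrable {R : ℝ} (hR : 0 < R) : Integrable (gK R) := by
  unfold gK
  exact (g1_integrable.comp_mul_left' hR.ne').const_mul R

lemma integral_abs_gK {R : ℝ} (hR : 0 < R) : ∫ x, |gK R x| = ∫ x, |g1 x| := by
  unfold gK
  have h1 := Measure.integral_comp_mul_left (fun x : ℝ => |g1 x|) R
  rw [abs_of_pos (inv_pos.2 hR), smul_eq_mul] at h1
  simp only [abs_mul, abs_of_pos hR]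
  rw [integral_const_mul, h1, ← mul_assoc, mul_inv_cancel₀ hR.ne', one_mul]

theorem fK_integrable {R : ℝ} (hR : 0 < R) : Integrable (fK R) := by
  have h1 : fK R = fun x => gK (2 * R) x - gK R x := funext (fK_eq hR)
  rw [h1]
  exact (gK_integrable (by positivity)).sub (gK_integrable hR)

theorem fK_continuous {R : ℝ} (hR : 0 < R) : Continuous (fK R) := by
  have h1 : fK R = fun x => gK (2 * R) x - gK R x := funext (fK_eq hR)
  rw [h1]
  exact (gK_continuous _).sub (gK_continuous _)

/-- the integrand of a convolution with a probability measure is integrable -/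
lemma integrable_conv {f : ℝ → ℝ} (hf : Integrable f) (hc : Continuous f) (ν : Measure ℝ)
    [IsProbabilityMeasure ν] :
    Integrable (fun p : ℝ × ℝ => f (p.1 - p.2)) ((volume : Measure ℝ).prod ν) := by
  have hm : AEStronglyMeasurable (fun p : ℝ × ℝ => f (p.1 - p.2)) ((volume : Measure ℝ).prod ν) :=
    (hc.comp (by fun_prop)).aestronglyMeasurable
  rw [integrable_prod_iff' hm]
  refine ⟨Filter.Eventually.of_forall fun y => hf.comp_sub_right y, ?_⟩
  have h1 : ∀ y : ℝ, ∫ x, ‖f (x - y)‖ = ∫ x, ‖f x‖ := fun y =>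
    integral_sub_right_eq_self (fun x => ‖f x‖) y
  simp only [h1]
  exact integrable_const _

lemma integral_abs_conv_le {f : ℝ → ℝ} (hf : Integrable f) (hc : Continuous f) (ν : Measure ℝ)
    [IsProbabilityMeasure ν] : ∫ x, |∫ y, f (x - y) ∂ν| ≤ ∫ x, |f x| := by
  have h0 := integrable_conv hf hc ν
  have h1 : ∫ x, |∫ y, f (x - y) ∂ν| ≤ ∫ x, ∫ y, |f (x - y)| ∂ν := by
    refine integral_mono h0.integral_prod_left.norm ?_ fun x => ?_
    · exact h0.norm.integral_prod_left
    · exact norm_integral_le_integral_norm (fun y => f (x - y))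
  have h2 : ∫ x, (∫ y, |f (x - y)| ∂ν) = ∫ y, (∫ x, |f (x - y)|) ∂ν :=
    integral_integral_swap (f := fun x y => |f (x - y)|) h0.norm
  rw [h2] at h1
  refine h1.trans_eq ?_
  have h3 : ∀ y : ℝ, ∫ x, |f (x - y)| = ∫ x, |f x| := fun y =>
    integral_sub_right_eq_self (fun x => |f x|) y
  simp [h3]

/-- uniform bound -/
theorem conv_fK_le : ∃ C : ℝ, ∀ R : ℝ, 0 < R → ∀ ν : Measure ℝ, IsProbabilityMeasure ν →
    ∫ x, |∫ y, fK R (x - y) ∂ν| ≤ C := by
  refine ⟨2 * ∫ x, |g1 x|, fun R hR ν hν => ?_⟩
  refine (integral_abs_conv_le (fK_integrable hR) (fK_continuous hR) ν).trans ?_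
  have h1 : ∫ x, |fK R x| ≤ ∫ x, (|gK (2 * R) x| + |gK R x|) := by
    refine integral_mono (fK_integrable hR).norm
      ((gK_integrable (by positivity)).norm.add (gK_integrable hR).norm) fun x => ?_
    simp only [fK_eq hR]
    exact abs_sub _ _
  refine h1.trans_eq ?_
  have h2 := integral_add (gK_integrable (R := 2 * R) (by positivity)).norm (gK_integrable hR).norm
  simp only [Real.norm_eq_abs] at h2
  rw [h2, integral_abs_gK (by positivity), integral_abs_gK hR]
  ring

/-- the smoothed measure -/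
noncomputable def smo (ν : Measure ℝ) (R x : ℝ) : ℝ := ∫ y, gK R (x - y) ∂ν

lemma integrable_gK_sub {R : ℝ} (ν : Measure ℝ) [IsProbabilityMeasure ν] (x : ℝ) :
    Integrable (fun y => gK R (x - y)) ν := by
  obtain ⟨B, hB⟩ : ∃ B : ℝ, ∀ x, ‖gS x‖ ≤ B := by
    obtain ⟨C, hC⟩ := gS.decay 0 0
    exact ⟨C, fun x => by simpa using hC.2 x⟩
  refine Integrable.of_bound (C := |R| * B)
    (((gK_continuous R).comp (by fun_prop)).aestronglyMeasurable) (Filter.Eventually.of_forall fun y => ?_)
  unfold gK g1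
  rw [norm_mul, Real.norm_eq_abs, Real.norm_eq_abs]
  exact mul_le_mul_of_nonneg_left ((Complex.abs_re_le_norm _).trans (hB _)) (abs_nonneg _)

lemma smo_succ (ν : Measure ℝ) [IsProbabilityMeasure ν] {R : ℝ} (hR : 0 < R) (x : ℝ) :
    smo ν (2 * R) x = smo ν R x + ∫ y, fK R (x - y) ∂ν := by
  unfold smo
  simp only [fK_eq hR]
  rw [integral_sub (integrable_gK_sub ν x) (integrable_gK_sub ν x)]
  ring

lemma abs_smo_le (ν : Measure ℝ) [IsProbabilityMeasure ν] (K : ℕ) (x : ℝ) :
    |smo ν (2 ^ K) x| ≤ |smo ν 1 x| + ∑ k ∈ Finset.range K, |∫ y, fK (2 ^ k) (x - y) ∂ν| := by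
  induction K with
  | zero => simp
  | succ K ih =>
    rw [pow_succ, mul_comm, smo_succ ν (by positivity), Finset.sum_range_succ]
    exact (abs_add_le _ _).trans (by linarith)

/-- the smoothed measures converge weakly -/
lemma tendsto_smo (ν : Measure ℝ) [IsProbabilityMeasure ν] {φ : ℝ → ℝ} (hφ : Continuous φ) {B : ℝ}
    (hB : ∀ x, |φ x| ≤ B) :
    Filter.Tendsto (fun K : ℕ => ∫ x, φ x * smo ν (2 ^ K) x) Filter.atTop (nhds (∫ x, φ x ∂ν)) := by
  have h1 : ∀ K : ℕ, ∫ x, φ x * smo ν (2 ^ K) x =
      ∫ y, (∫ t, φ (y + t / 2 ^ K) * g1 t) ∂ν := by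
    intro K
    have hR : (0 : ℝ) < 2 ^ K := by positivity
    have h0 := integrable_conv (gK_integrable hR) (gK_continuous (2 ^ K)) ν
    have h2 : Integrable (fun p : ℝ × ℝ => φ p.1 * gK (2 ^ K) (p.1 - p.2))
        ((volume : Measure ℝ).prod ν) := by
      refine h0.bdd_mul (c := B) ((hφ.comp continuous_fst).aestronglyMeasurable)
        (Filter.Eventually.of_forall fun p => hB p.1)
    have h3 := integral_integral_swap (f := fun x y => φ x * gK (2 ^ K) (x - y)) h2
    unfold smo
    simp only [integral_const_mul] at h3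
    rw [h3]
    refine integral_congr_ae (Filter.Eventually.of_forall fun y => ?_)
    show ∫ x, φ x * gK (2 ^ K) (x - y) = ∫ t, φ (y + t / 2 ^ K) * g1 t
    have h4 : ∫ x, φ x * gK (2 ^ K) (x - y) = ∫ x, φ (x + y) * gK (2 ^ K) x := by
      rw [← integral_sub_right_eq_self (fun x => φ (x + y) * gK (2 ^ K) x) y]
      simp only [sub_add_cancel]
    rw [h4]
    have h5 := Measure.integral_comp_mul_left (fun t : ℝ => φ (y + t / 2 ^ K) * g1 t) (2 ^ K)
    rw [abs_of_pos (inv_pos.2 hR), smul_eq_mul] at h5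
    have h6 : ∫ t, φ (y + t / 2 ^ K) * g1 t =
        2 ^ K * ∫ x, φ (y + 2 ^ K * x / 2 ^ K) * g1 (2 ^ K * x) := by
      rw [h5, ← mul_assoc, mul_inv_cancel₀ hR.ne', one_mul]
    rw [h6, ← integral_const_mul]
    refine integral_congr_ae (Filter.Eventually.of_forall fun x => ?_)
    have h7 : y + 2 ^ K * x / 2 ^ K = x + y := by field_simp; ring
    simp only [h7, gK]
    ring
  simp only [h1]
  have h8 : ∀ y : ℝ, Filter.Tendsto (fun K : ℕ => ∫ t, φ (y + t / 2 ^ K) * g1 t) Filter.atTop
      (nhds (φ y)) := by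
    intro y
    have h9 : φ y = ∫ t, φ y * g1 t := by rw [integral_const_mul, integral_g1, mul_one]
    rw [h9]
    refine tendsto_integral_of_dominated_convergence (fun t => B * |g1 t|) (fun K => ?_)
      (g1_integrable.norm.const_mul B) (fun K => Filter.Eventually.of_forall fun t => ?_)
      (Filter.Eventually.of_forall fun t => ?_)
    · exact ((hφ.comp (by fun_prop)).mul g1_continuous).aestronglyMeasurable
    · rw [norm_mul, Real.norm_eq_abs, Real.norm_eq_abs]
      exact mul_le_mul_of_nonneg_right (hB _) (abs_nonneg _)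
    · refine Filter.Tendsto.mul_const _ ?_
      have h10 : Filter.Tendsto (fun K : ℕ => y + t / 2 ^ K) Filter.atTop (nhds (y + 0)) := by
        refine tendsto_const_nhds.add ?_
        have h11 := (tendsto_pow_atTop_nhds_zero_of_lt_one (r := (1 / 2 : ℝ)) (by norm_num)
          (by norm_num)).const_mul t
        rw [mul_zero] at h11
        refine h11.congr fun K => ?_
        rw [one_div, inv_pow]; rfl
      rw [add_zero] at h10
      exact (hφ.tendsto y).comp h10
  have hB0 : 0 ≤ B := (abs_nonneg _).trans (hB 0)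
  refine tendsto_integral_of_dominated_convergence (fun _ => B * ∫ t, |g1 t|) (fun K => ?_)
    (integrable_const _) (fun K => Filter.Eventually.of_forall fun y => ?_)
    (Filter.Eventually.of_forall h8)
  · refine Continuous.aestronglyMeasurable ?_
    refine continuous_of_dominated (fun y => ?_) (bound := fun t => B * |g1 t|)
      (fun y => Filter.Eventually.of_forall fun t => ?_) (g1_integrable.norm.const_mul B)
      (Filter.Eventually.of_forall fun t => ?_)
    · exact ((hφ.comp (by fun_prop)).mul g1_continuous).aestronglyMeasurable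
    · rw [norm_mul, Real.norm_eq_abs, Real.norm_eq_abs]
      exact mul_le_mul_of_nonneg_right (hB _) (abs_nonneg _)
    · exact (hφ.comp (by fun_prop)).mul continuous_const
  · refine (norm_integral_le_integral_norm _).trans ?_
    rw [← integral_const_mul]
    refine integral_mono_of_nonneg (Filter.Eventually.of_forall fun t => norm_nonneg _)
      (g1_integrable.norm.const_mul B) (Filter.Eventually.of_forall fun t => ?_)
    simp only [norm_mul, Real.norm_eq_abs]
    exact mul_le_mul_of_nonneg_right (hB _) (abs_nonneg _)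

lemma enorm_smo_le (ν : Measure ℝ) [IsProbabilityMeasure ν] (K : ℕ) (x : ℝ) :
    ‖smo ν (2 ^ K) x‖ₑ ≤
      ‖smo ν 1 x‖ₑ + ∑ k ∈ Finset.range K, ‖∫ y, fK (2 ^ k) (x - y) ∂ν‖ₑ := by
  induction K with
  | zero => simp
  | succ K ih =>
    rw [pow_succ, mul_comm, smo_succ ν (by positivity), Finset.sum_range_succ, ← add_assoc]
    exact (enorm_add_le _ _).trans (by gcongr)

theorem ac_criterion (ν : Measure ℝ) [IsProbabilityMeasure ν] (b : ℕ → ℝ) (hb : Summable b)
    (h : ∀ k, ∫ x, |∫ y, fK (2 ^ k) (x - y) ∂ν| ≤ b k) : ν ≪ (volume : Measure ℝ) := by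
  set H : ℕ → ℝ → ℝ := fun k x => ∫ y, fK (2 ^ k) (x - y) ∂ν with hH
  have hHi : ∀ k, Integrable (H k) := fun k =>
    (integrable_conv (fK_integrable (by positivity)) (fK_continuous (by positivity))
      ν).integral_prod_left
  have hS : Integrable (smo ν 1) :=
    (integrable_conv (gK_integrable one_pos) (gK_continuous 1) ν).integral_prod_left
  set v : ℝ → ENNReal := fun x => ‖smo ν 1 x‖ₑ + ∑' k, ‖H k x‖ₑ with hv
  have hvfin : ∫⁻ x, v x ≠ ⊤ := by
    rw [hv, lintegral_add_left' hS.aestronglyMeasurable.enorm,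
      lintegral_tsum fun k => (hHi k).aestronglyMeasurable.enorm]
    refine ENNReal.add_ne_top.2 ⟨hS.2.ne, ?_⟩
    have h1 : ∀ k, ∫⁻ x, ‖H k x‖ₑ ≤ ENNReal.ofReal (b k) := by
      intro k
      rw [← ofReal_integral_norm_eq_lintegral_enorm (hHi k)]
      exact ENNReal.ofReal_le_ofReal (h k)
    refine ne_top_of_le_ne_top ?_ (ENNReal.tsum_le_tsum h1)
    have hb0 : ∀ k, 0 ≤ b k := fun k =>
      (integral_nonneg fun x => abs_nonneg _).trans (h k)
    rw [← ENNReal.ofReal_tsum_of_nonneg hb0 hb]
    exact ENNReal.ofReal_ne_top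
  set μv := (volume : Measure ℝ).withDensity v with hμv
  have hfin : IsFiniteMeasure μv := isFiniteMeasure_withDensity hvfin
  have key : ∀ U : Set ℝ, IsOpen U → ν U ≤ μv U := by
    intro U hU
    rw [hU.measure_eq_iSup_isCompact]
    refine iSup_le fun K => iSup_le fun hKU => iSup_le fun hK => ?_
    obtain ⟨f, hf0, hf1, hf⟩ := exists_continuous_zero_one_of_isClosed (s := Uᶜ) (t := K)
      hU.isClosed_compl hK.isClosed (Set.disjoint_left.2 fun x hx hxK => hx (hKU hxK))
    have hfb : ∀ x, |f x| ≤ 1 := fun x => by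
      rw [abs_of_nonneg (hf x).1]; exact (hf x).2
    have hlim := tendsto_smo ν f.continuous hfb
    have h2 : ∀ n : ℕ, ∫ x, f x * smo ν (2 ^ n) x ≤ (μv U).toReal := by
      intro n
      have h3 : ‖∫ x, f x * smo ν (2 ^ n) x‖ₑ ≤ μv U := by
        refine (enorm_integral_le_lintegral_enorm _).trans ?_
        rw [hμv, withDensity_apply _ hU.measurableSet, ← lintegral_indicator hU.measurableSet]
        refine lintegral_mono fun x => ?_
        by_cases hx : x ∈ U
        · rw [Set.indicator_of_mem hx, enorm_mul]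
          have h4 : ‖f x‖ₑ ≤ 1 := by
            rw [← ofReal_norm, Real.norm_eq_abs, ← ENNReal.ofReal_one]
            exact ENNReal.ofReal_le_ofReal (hfb x)
          refine (mul_le_mul' h4 (enorm_smo_le ν n x)).trans ?_
          rw [one_mul, hv]
          refine add_le_add_right (ENNReal.sum_le_tsum _) _
        · have : f x = 0 := hf0 hx
          simp [this]
      have h5 := ENNReal.toReal_mono (measure_ne_top μv U) h3
      rw [toReal_enorm] at h5
      exact (le_abs_self _).trans h5
    have h6 : ∫ x, f x ∂ν ≤ (μv U).toReal := le_of_tendsto' hlim h2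
    have h7 : (ν K).toReal ≤ ∫ x, f x ∂ν := by
      have h8 : (ν K).toReal = ∫ x, K.indicator (fun _ => (1 : ℝ)) x ∂ν := by
        rw [integral_indicator hK.measurableSet]
        simp [Measure.real]
      rw [h8]
      refine integral_mono ((integrable_const (1 : ℝ)).indicator hK.measurableSet) ?_ fun x => ?_
      · exact Integrable.of_bound (C := 1) f.continuous.aestronglyMeasurable
          (Filter.Eventually.of_forall hfb)
      · by_cases hx : x ∈ K
        · rw [Set.indicator_of_mem hx, hf1 hx]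
          rfl
        · rw [Set.indicator_of_notMem hx]
          exact (hf x).1
    exact (ENNReal.toReal_le_toReal (measure_ne_top ν K) (measure_ne_top μv U)).1 (h7.trans h6)
  intro A hA
  have hA0 : μv A = 0 := withDensity_absolutelyContinuous _ _ hA
  by_contra hne
  have hpos : μv A < ν A := by rw [hA0]; exact pos_iff_ne_zero.2 hne
  obtain ⟨U, hAU, hU, hlt⟩ := A.exists_isOpen_lt_of_lt (μ := μv) (ν A) hpos
  exact absurd ((measure_mono hAU).trans (key U hU)) (not_le.2 hlt)

end Pool.Agent.BCD
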