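import Pool.Agent.Work.MP_bc8e1e_an.D.C1

/-!
# C2: damping by independent signs
-/

set_option autoImplicit false

open MeasureTheory ProbabilityTheory Polynomial
open scoped RealInnerProductSpace

namespace Pool.Agent.BCD

namespace C2

/-! ### the profile -/

open scoped ContDiff in
lemma psi_contDiff : ContDiff ℝ ∞ psi := by
  unfold psi
  exact (Real.smoothTransition.contDiff.comp (contDiff_const.sub (contDiff_id.div_const 2))).sub
    (Real.smoothTransition.contDiff.comp (contDiff_const.sub contDiff_id))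

/-- first derivative of the profile -/
noncomputable def psi1 : ℝ → ℝ := deriv psi

/-- second derivative of the profile -/
noncomputable def psi2 : ℝ → ℝ := deriv psi1

lemma hasDerivAt_psi (u : ℝ) : HasDerivAt psi (psi1 u) u :=
  (psi_contDiff.differentiable (by simp) u).hasDerivAt

open scoped ContDiff in
lemma psi1_contDiff : ContDiff ℝ ∞ psi1 := (contDiff_infty_iff_deriv.1 psi_contDiff).2

lemma hasDerivAt_psi1 (u : ℝ) : HasDerivAt psi1 (psi2 u) u :=
  (psi1_contDiff.differentiable (by simp) u).hasDerivAt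

lemma psi2_continuous : Continuous psi2 := (contDiff_infty_iff_deriv.1 psi1_contDiff).2.continuous

lemma psi_nonneg (u : ℝ) : 0 ≤ psi u := by
  unfold psi
  rcases le_total u 2 with h | h
  · rw [Real.smoothTransition.one_of_one_le (x := 2 - u / 2) (by linarith)]
    linarith [Real.smoothTransition.le_one (2 - u)]
  · rw [Real.smoothTransition.zero_of_nonpos (x := 2 - u) (by linarith), sub_zero]
    exact Real.smoothTransition.nonneg _

lemma psi_le_one (u : ℝ) : psi u ≤ 1 := by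
  unfold psi
  linarith [Real.smoothTransition.le_one (2 - u / 2), Real.smoothTransition.nonneg (2 - u)]

lemma psi1_eq_zero {u : ℝ} (h : psi u = 0) : psi1 u = 0 := by
  apply IsLocalMin.deriv_eq_zero
  exact Filter.Eventually.of_forall fun v => by rw [h]; exact psi_nonneg v

/-- a common bound of the derivatives on `[1,4]` -/
lemma psi_bd : ∃ B : ℝ, 0 ≤ B ∧ ∀ u ∈ Set.Icc (1 : ℝ) 4, |psi1 u| ≤ B ∧ |psi2 u| ≤ B := by
  obtain ⟨B1, h1⟩ := isCompact_Icc.exists_bound_of_continuousOn (s := Set.Icc (1 : ℝ) 4)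
    psi1_contDiff.continuous.continuousOn
  obtain ⟨B2, h2⟩ := isCompact_Icc.exists_bound_of_continuousOn (s := Set.Icc (1 : ℝ) 4)
    psi2_continuous.continuousOn
  refine ⟨max B1 B2, ?_, fun u hu => ⟨(h1 u hu).trans (le_max_left _ _),
    (h2 u hu).trans (le_max_right _ _)⟩⟩
  exact (norm_nonneg _).trans ((h1 1 (by norm_num)).trans (le_max_left _ _))

/-! ### the product of cosines -/

section prod

variable {ι : Type} [Fintype ι] (δ : ι → ℝ)

/-- the product of cosines -/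
noncomputable def Pp (u : ℝ) : ℝ := ∏ b, Real.cos (u * δ b / 2)

/-- its logarithmic derivative -/
noncomputable def Lp (u : ℝ) : ℝ := ∑ b, -(δ b / 2 * Real.tan (u * δ b / 2))

/-- the derivative of the logarithmic derivative -/
noncomputable def Mp (u : ℝ) : ℝ := ∑ b, -(δ b / 2 * (1 / Real.cos (u * δ b / 2) ^ 2 * (δ b / 2)))

variable {δ}

lemma arg_le (hδ : ∀ b, |δ b| ≤ 1 / 8) {u : ℝ} (hu : u ∈ Set.Icc (1 : ℝ) 4) (b : ι) :
    |u * δ b / 2| ≤ 1 / 4 := by
  rw [abs_div, abs_mul, abs_two, abs_of_pos (by linarith [hu.1])]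
  have := hδ b
  have h2 := hu.2
  have h3 : u * |δ b| ≤ 4 * (1 / 8) := mul_le_mul h2 this (abs_nonneg _) (by norm_num)
  linarith

lemma cos_ge (hδ : ∀ b, |δ b| ≤ 1 / 8) {u : ℝ} (hu : u ∈ Set.Icc (1 : ℝ) 4) (b : ι) :
    31 / 32 ≤ Real.cos (u * δ b / 2) := by
  have h1 := Real.one_sub_sq_div_two_le_cos (x := u * δ b / 2)
  have h2 := arg_le hδ hu b
  have h3 : (u * δ b / 2) ^ 2 ≤ (1 / 4) ^ 2 := by
    rw [← sq_abs]
    exact pow_le_pow_left₀ (abs_nonneg _) h2 2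
  linarith

lemma hasDerivAt_arg (b : ι) (u : ℝ) : HasDerivAt (fun u : ℝ => u * δ b / 2) (δ b / 2) u := by
  have := ((hasDerivAt_id u).mul_const (δ b)).div_const 2
  simpa using this

lemma hasDerivAt_Pp (hδ : ∀ b, |δ b| ≤ 1 / 8) {u : ℝ} (hu : u ∈ Set.Icc (1 : ℝ) 4) :
    HasDerivAt (Pp δ) (Pp δ u * Lp δ u) u := by
  classical
  have h := HasDerivAt.fun_finset_prod (u := Finset.univ) (x := u)
    (f := fun (b : ι) (u : ℝ) => Real.cos (u * δ b / 2))
    (f' := fun b => -Real.sin (u * δ b / 2) * (δ b / 2))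
    (fun b _ => (hasDerivAt_arg b u).cos)
  refine h.congr_deriv ?_
  unfold Pp Lp
  rw [Finset.mul_sum]
  refine Finset.sum_congr rfl fun b _ => ?_
  have hc : Real.cos (u * δ b / 2) ≠ 0 := by
    have := cos_ge hδ hu b
    linarith
  rw [← Finset.mul_prod_erase Finset.univ _ (Finset.mem_univ b), Real.tan_eq_sin_div_cos,
    smul_eq_mul]
  field_simp

lemma hasDerivAt_Lp (hδ : ∀ b, |δ b| ≤ 1 / 8) {u : ℝ} (hu : u ∈ Set.Icc (1 : ℝ) 4) :
    HasDerivAt (Lp δ) (Mp δ u) u := by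
  unfold Lp Mp
  refine HasDerivAt.fun_sum fun b _ => ?_
  have hc : Real.cos (u * δ b / 2) ≠ 0 := by
    have := cos_ge hδ hu b
    linarith
  exact (((Real.hasDerivAt_tan hc).comp u (hasDerivAt_arg b u)).const_mul (δ b / 2)).neg

lemma Pp_nonneg (hδ : ∀ b, |δ b| ≤ 1 / 8) {u : ℝ} (hu : u ∈ Set.Icc (1 : ℝ) 4) : 0 ≤ Pp δ u :=
  Finset.prod_nonneg fun b _ => by linarith [cos_ge hδ hu b]

lemma cos_le {y : ℝ} (hy : |y| ≤ 1 / 4) : Real.cos y ≤ Real.exp (-(3 / 8 * y ^ 2)) := by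
  have h1 := Real.cos_bound (x := y) (hy.trans (by norm_num))
  have h2 := (abs_le.1 h1).2
  have h3 : |y| ^ 4 ≤ y ^ 2 * (1 / 16) := by
    have h4 : |y| ^ 2 ≤ (1 / 4) ^ 2 := pow_le_pow_left₀ (abs_nonneg _) hy 2
    have h5 : |y| ^ 4 = y ^ 2 * |y| ^ 2 := by rw [← sq_abs y]; ring
    rw [h5]
    exact mul_le_mul_of_nonneg_left (by linarith) (sq_nonneg _)
  have h6 := Real.add_one_le_exp (-(3 / 8 * y ^ 2))
  nlinarith [sq_nonneg y]

lemma Pp_le (hδ : ∀ b, |δ b| ≤ 1 / 8) {u : ℝ} (hu : u ∈ Set.Icc (1 : ℝ) 4) :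
    Pp δ u ≤ Real.exp (-(3 / 32 * ∑ b, δ b ^ 2)) := by
  unfold Pp
  have h1 : ∏ b, Real.cos (u * δ b / 2) ≤ ∏ b, Real.exp (-(3 / 32 * δ b ^ 2)) := by
    refine Finset.prod_le_prod (fun b _ => by linarith [cos_ge hδ hu b]) fun b _ => ?_
    refine (cos_le (arg_le hδ hu b)).trans (Real.exp_le_exp.2 ?_)
    have h2 : 1 ≤ u ^ 2 := by nlinarith [hu.1]
    have h3 : (u * δ b / 2) ^ 2 = u ^ 2 * δ b ^ 2 / 4 := by ring
    rw [h3]
    nlinarith [mul_le_mul_of_nonneg_right h2 (sq_nonneg (δ b))]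
  refine h1.trans (le_of_eq ?_)
  rw [← Real.exp_sum, Finset.sum_neg_distrib, Finset.mul_sum]

lemma Lp_le (hδ : ∀ b, |δ b| ≤ 1 / 8) {u : ℝ} (hu : u ∈ Set.Icc (1 : ℝ) 4) :
    |Lp δ u| ≤ 2 * ∑ b, δ b ^ 2 := by
  unfold Lp
  refine (Finset.abs_sum_le_sum_abs _ _).trans ?_
  rw [Finset.mul_sum]
  refine Finset.sum_le_sum fun b _ => ?_
  have hc := cos_ge hδ hu b
  rw [abs_neg, abs_mul, Real.tan_eq_sin_div_cos, abs_div, abs_div, abs_two,
    abs_of_pos (a := Real.cos _) (by linarith)]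
  have h1 : |Real.sin (u * δ b / 2)| ≤ u * |δ b| / 2 := by
    refine (Real.abs_sin_le_abs).trans (le_of_eq ?_)
    rw [abs_div, abs_mul, abs_two, abs_of_pos (by linarith [hu.1])]
  have h2 : |Real.sin (u * δ b / 2)| / Real.cos (u * δ b / 2) ≤ 4 * |δ b| := by
    rw [div_le_iff₀ (by linarith)]
    have h3 : u * |δ b| ≤ 4 * |δ b| := mul_le_mul_of_nonneg_right hu.2 (abs_nonneg _)
    nlinarith [abs_nonneg (δ b), mul_le_mul_of_nonneg_left hc (abs_nonneg (δ b))]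
  calc |δ b| / 2 * (|Real.sin (u * δ b / 2)| / Real.cos (u * δ b / 2))
      ≤ |δ b| / 2 * (4 * |δ b|) := mul_le_mul_of_nonneg_left h2 (by positivity)
    _ = 2 * δ b ^ 2 := by rw [← sq_abs (δ b)]; ring

lemma Mp_le (hδ : ∀ b, |δ b| ≤ 1 / 8) {u : ℝ} (hu : u ∈ Set.Icc (1 : ℝ) 4) :
    |Mp δ u| ≤ ∑ b, δ b ^ 2 := by
  unfold Mp
  refine (Finset.abs_sum_le_sum_abs _ _).trans ?_
  refine Finset.sum_le_sum fun b _ => ?_
  have hc := cos_ge hδ hu b
  have h1 : 1 / Real.cos (u * δ b / 2) ^ 2 ≤ 2 := by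
    rw [div_le_iff₀ (by positivity)]
    nlinarith
  have h0 : 0 ≤ 1 / Real.cos (u * δ b / 2) ^ 2 := by positivity
  have h2 : δ b / 2 * (1 / Real.cos (u * δ b / 2) ^ 2 * (δ b / 2)) =
      δ b ^ 2 / 4 * (1 / Real.cos (u * δ b / 2) ^ 2) := by ring
  rw [abs_neg, h2, abs_of_nonneg (by positivity)]
  nlinarith [sq_nonneg (δ b)]

end prod

/-! ### one Fourier integral -/

section four

variable {ι : Type} [Fintype ι] (δ : ι → ℝ)

/-- the amplitude -/
noncomputable def G0 (u : ℝ) : ℝ := psi u * Pp δ u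

noncomputable def G1 (u : ℝ) : ℝ := psi1 u * Pp δ u + psi u * (Pp δ u * Lp δ u)

noncomputable def G2 (u : ℝ) : ℝ :=
  (psi2 u * Pp δ u + psi1 u * (Pp δ u * Lp δ u)) +
    (psi1 u * (Pp δ u * Lp δ u) +
      psi u * ((Pp δ u * Lp δ u) * Lp δ u + Pp δ u * Mp δ u))

variable {δ}

lemma hasDerivAt_G0 (hδ : ∀ b, |δ b| ≤ 1 / 8) {u : ℝ} (hu : u ∈ Set.Icc (1 : ℝ) 4) :
    HasDerivAt (G0 δ) (G1 δ u) u :=
  (hasDerivAt_psi u).mul (hasDerivAt_Pp hδ hu)

lemma hasDerivAt_G1 (hδ : ∀ b, |δ b| ≤ 1 / 8) {u : ℝ} (hu : u ∈ Set.Icc (1 : ℝ) 4) :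
    HasDerivAt (G1 δ) (G2 δ u) u :=
  ((hasDerivAt_psi1 u).mul (hasDerivAt_Pp hδ hu)).add
    ((hasDerivAt_psi u).mul ((hasDerivAt_Pp hδ hu).mul (hasDerivAt_Lp hδ hu)))

lemma continuousOn_Mp (hδ : ∀ b, |δ b| ≤ 1 / 8) : ContinuousOn (Mp δ) (Set.Icc 1 4) := by
  unfold Mp
  refine continuousOn_finset_sum _ fun b _ => ContinuousOn.neg ?_
  refine ContinuousOn.mul continuousOn_const (ContinuousOn.mul ?_ continuousOn_const)
  refine ContinuousOn.div continuousOn_const (by fun_prop) fun u hu => ?_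
  have := cos_ge hδ hu b
  positivity

lemma continuousOn_G2 (hδ : ∀ b, |δ b| ≤ 1 / 8) : ContinuousOn (G2 δ) (Set.Icc 1 4) := by
  have hP : ContinuousOn (Pp δ) (Set.Icc 1 4) := fun u hu =>
    (hasDerivAt_Pp hδ hu).continuousAt.continuousWithinAt
  have hL : ContinuousOn (Lp δ) (Set.Icc 1 4) := fun u hu =>
    (hasDerivAt_Lp hδ hu).continuousAt.continuousWithinAt
  have hM := continuousOn_Mp hδ
  have h0 : ContinuousOn psi (Set.Icc 1 4) := psi_continuous.continuousOn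
  have h1 : ContinuousOn psi1 (Set.Icc 1 4) := psi1_contDiff.continuous.continuousOn
  have h2 : ContinuousOn psi2 (Set.Icc 1 4) := psi2_continuous.continuousOn
  exact ((h2.mul hP).add (h1.mul (hP.mul hL))).add
    ((h1.mul (hP.mul hL)).add (h0.mul (((hP.mul hL).mul hL).add (hP.mul hM))))

/-- integration by parts, twice -/
lemma parts (hδ : ∀ b, |δ b| ≤ 1 / 8) (x : ℝ) :
    x ^ 2 * ∫ u in (1 : ℝ)..4, G0 δ u * Real.cos (x * u) =
      -∫ u in (1 : ℝ)..4, G2 δ u * Real.cos (x * u) := by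
  have hI : Set.uIcc (1 : ℝ) 4 = Set.Icc 1 4 := Set.uIcc_of_le (by norm_num)
  have hc0 : ContinuousOn (fun u => G0 δ u * Real.cos (x * u)) (Set.uIcc (1 : ℝ) 4) := by
    rw [hI]
    refine ContinuousOn.mul (fun u hu => ?_) (by fun_prop)
    exact (hasDerivAt_G0 hδ hu).continuousAt.continuousWithinAt
  have hc2 : ContinuousOn (fun u => G2 δ u * Real.cos (x * u)) (Set.uIcc (1 : ℝ) 4) := by
    rw [hI]
    exact (continuousOn_G2 hδ).mul (by fun_prop)
  have hd : ∀ u ∈ Set.uIcc (1 : ℝ) 4,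
      HasDerivAt (fun u => x * G0 δ u * Real.sin (x * u) + G1 δ u * Real.cos (x * u))
        (x ^ 2 * (G0 δ u * Real.cos (x * u)) + G2 δ u * Real.cos (x * u)) u := by
    intro u hu
    rw [hI] at hu
    have hx : HasDerivAt (fun u : ℝ => x * u) x u := by
      simpa using (hasDerivAt_id u).const_mul x
    have h1 := ((hasDerivAt_G0 hδ hu).const_mul x).mul hx.sin
    have h2 := (hasDerivAt_G1 hδ hu).mul hx.cos
    refine (h1.add h2).congr_deriv ?_
    ring
  have hF := intervalIntegral.integral_eq_sub_of_hasDerivAt hd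
    ((hc0.const_mul (x ^ 2) |>.intervalIntegrable).add hc2.intervalIntegrable)
  rw [intervalIntegral.integral_add (hc0.const_mul (x ^ 2) |>.intervalIntegrable)
    hc2.intervalIntegrable, intervalIntegral.integral_const_mul] at hF
  have e1 : psi 1 = 0 := psi_of_le_one le_rfl
  have e4 : psi 4 = 0 := psi_of_four_le le_rfl
  have z : ∀ v : ℝ, psi v = 0 → x * G0 δ v * Real.sin (x * v) + G1 δ v * Real.cos (x * v) = 0 := by
    intro v hv
    unfold G0 G1
    rw [hv, psi1_eq_zero hv]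
    ring
  rw [z 1 e1, z 4 e4] at hF
  linarith

lemma exp_poly {V : ℝ} (hV : 0 ≤ V) {B : ℝ} (hB : 0 ≤ B) :
    Real.exp (-(3 / 32 * V)) * (1 + B + 4 * B * V + (4 * V ^ 2 + V)) ≤
      (8192 * (1 + B)) * Real.exp (-(V / 16)) := by
  have h1 : 1 + V / 32 + (V / 32) ^ 2 / 2 ≤ Real.exp (V / 32) :=
    Real.quadratic_le_exp_of_nonneg (by positivity)
  have h2 : (1 + B + 4 * B * V + (4 * V ^ 2 + V)) ≤
      (8192 * (1 + B)) * (1 + V / 32 + (V / 32) ^ 2 / 2) := by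
    nlinarith [mul_nonneg hB hV, mul_nonneg hB (sq_nonneg V), sq_nonneg V]
  have h3 : Real.exp (-(V / 16)) = Real.exp (-(3 / 32 * V)) * Real.exp (V / 32) := by
    rw [← Real.exp_add]
    congr 1
    ring
  rw [h3]
  have h4 : (8192 * (1 + B)) * (1 + V / 32 + (V / 32) ^ 2 / 2) ≤
      (8192 * (1 + B)) * Real.exp (V / 32) := mul_le_mul_of_nonneg_left h1 (by positivity)
  calc Real.exp (-(3 / 32 * V)) * (1 + B + 4 * B * V + (4 * V ^ 2 + V))
      ≤ Real.exp (-(3 / 32 * V)) * ((8192 * (1 + B)) * Real.exp (V / 32)) :=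
        mul_le_mul_of_nonneg_left (h2.trans h4) (Real.exp_pos _).le
    _ = _ := by ring

/-- the pointwise bound of the Fourier integral -/
lemma four_le : ∃ C : ℝ, 0 < C ∧ ∀ (ι : Type) [Fintype ι] (δ : ι → ℝ), (∀ b, |δ b| ≤ 1 / 8) →
    ∀ x : ℝ, (1 + x ^ 2) * |∫ u in (1 : ℝ)..4, G0 δ u * Real.cos (x * u)| ≤
      C * Real.exp (-((∑ b, δ b ^ 2) / 16)) := by
  obtain ⟨B, hB, hBd⟩ := psi_bd
  refine ⟨3 * (8192 * (1 + B)), by positivity, fun ι _ δ hδ x => ?_⟩
  set V := ∑ b, δ b ^ 2 with hV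
  have hV0 : 0 ≤ V := Finset.sum_nonneg fun b _ => sq_nonneg _
  have hE := Real.exp_pos (-(3 / 32 * V))
  have hsub : ∀ u ∈ Set.uIoc (1 : ℝ) 4, u ∈ Set.Icc (1 : ℝ) 4 := by
    intro u hu
    rw [Set.uIoc_of_le (by norm_num)] at hu
    exact ⟨hu.1.le, hu.2⟩
  have hcos : ∀ y : ℝ, |Real.cos y| ≤ 1 := Real.abs_cos_le_one
  have b0 : |∫ u in (1 : ℝ)..4, G0 δ u * Real.cos (x * u)| ≤ Real.exp (-(3 / 32 * V)) * 1 * 3 := by
    have := intervalIntegral.norm_integral_le_of_norm_le_const (a := (1 : ℝ)) (b := 4)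
      (f := fun u => G0 δ u * Real.cos (x * u)) (C := Real.exp (-(3 / 32 * V)) * 1) ?_
    · rw [Real.norm_eq_abs] at this
      refine this.trans (le_of_eq ?_)
      norm_num
    · intro u hu
      have hu' := hsub u hu
      rw [Real.norm_eq_abs, abs_mul]
      refine mul_le_mul ?_ (hcos _) (abs_nonneg _) hE.le
      unfold G0
      rw [abs_mul, abs_of_nonneg (psi_nonneg u), abs_of_nonneg (Pp_nonneg hδ hu')]
      calc psi u * Pp δ u ≤ 1 * Pp δ u :=
            mul_le_mul_of_nonneg_right (psi_le_one u) (Pp_nonneg hδ hu')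
        _ ≤ _ := by rw [one_mul]; exact Pp_le hδ hu'
  have b2 : |∫ u in (1 : ℝ)..4, G2 δ u * Real.cos (x * u)| ≤
      Real.exp (-(3 / 32 * V)) * (B + 4 * B * V + (4 * V ^ 2 + V)) * 3 := by
    have := intervalIntegral.norm_integral_le_of_norm_le_const (a := (1 : ℝ)) (b := 4)
      (f := fun u => G2 δ u * Real.cos (x * u))
      (C := Real.exp (-(3 / 32 * V)) * (B + 4 * B * V + (4 * V ^ 2 + V))) ?_
    · rw [Real.norm_eq_abs] at this
      refine this.trans (le_of_eq ?_)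
      norm_num
    · intro u hu
      have hu' := hsub u hu
      rw [Real.norm_eq_abs, abs_mul]
      have hb := hBd u hu'
      have hL := Lp_le hδ hu'
      have hM := Mp_le hδ hu'
      rw [← hV] at hL hM
      have hP := Pp_nonneg hδ hu'
      have hP2 := Pp_le hδ hu'
      rw [← hV] at hP2
      have e : G2 δ u = Pp δ u * (psi2 u + 2 * (psi1 u * Lp δ u) +
          psi u * (Lp δ u ^ 2 + Mp δ u)) := by
        unfold G2
        ring
      have hL2 : |Lp δ u ^ 2| ≤ 4 * V ^ 2 := by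
        rw [abs_pow]
        calc |Lp δ u| ^ 2 ≤ (2 * V) ^ 2 := pow_le_pow_left₀ (abs_nonneg _) hL 2
          _ = _ := by ring
      have f1 : |psi2 u + 2 * (psi1 u * Lp δ u) + psi u * (Lp δ u ^ 2 + Mp δ u)| ≤
          B + 4 * B * V + (4 * V ^ 2 + V) := by
        have g1 : |2 * (psi1 u * Lp δ u)| ≤ 4 * B * V := by
          rw [abs_mul, abs_mul, abs_two]
          have := mul_le_mul hb.1 hL (abs_nonneg _) hB
          linarith
        have g2 : |psi u * (Lp δ u ^ 2 + Mp δ u)| ≤ 4 * V ^ 2 + V := by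
          rw [abs_mul, abs_of_nonneg (psi_nonneg u)]
          have h1 : |Lp δ u ^ 2 + Mp δ u| ≤ 4 * V ^ 2 + V := (abs_add_le _ _).trans (by linarith)
          calc psi u * |Lp δ u ^ 2 + Mp δ u| ≤ 1 * |Lp δ u ^ 2 + Mp δ u| :=
                mul_le_mul_of_nonneg_right (psi_le_one u) (abs_nonneg _)
            _ ≤ _ := by rw [one_mul]; exact h1
        have h3 := abs_add_le (psi2 u + 2 * (psi1 u * Lp δ u)) (psi u * (Lp δ u ^ 2 + Mp δ u))
        have h4 := abs_add_le (psi2 u) (2 * (psi1 u * Lp δ u))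
        linarith [hb.2]
      rw [e, abs_mul, abs_of_nonneg hP]
      calc Pp δ u * |psi2 u + 2 * (psi1 u * Lp δ u) + psi u * (Lp δ u ^ 2 + Mp δ u)| *
            |Real.cos (x * u)| ≤
            Pp δ u * |psi2 u + 2 * (psi1 u * Lp δ u) + psi u * (Lp δ u ^ 2 + Mp δ u)| * 1 :=
            mul_le_mul_of_nonneg_left (hcos _) (mul_nonneg hP (abs_nonneg _))
        _ = Pp δ u * |psi2 u + 2 * (psi1 u * Lp δ u) + psi u * (Lp δ u ^ 2 + Mp δ u)| := mul_one _
        _ ≤ _ := mul_le_mul hP2 f1 (abs_nonneg _) hE.le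
  have hparts := parts hδ x
  have hx : |x ^ 2 * ∫ u in (1 : ℝ)..4, G0 δ u * Real.cos (x * u)| =
      |∫ u in (1 : ℝ)..4, G2 δ u * Real.cos (x * u)| := by rw [hparts, abs_neg]
  rw [abs_mul, abs_of_nonneg (sq_nonneg x)] at hx
  have hfin := exp_poly hV0 hB
  calc (1 + x ^ 2) * |∫ u in (1 : ℝ)..4, G0 δ u * Real.cos (x * u)|
      = |∫ u in (1 : ℝ)..4, G0 δ u * Real.cos (x * u)| +
        |∫ u in (1 : ℝ)..4, G2 δ u * Real.cos (x * u)| := by rw [add_mul, one_mul, hx]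
    _ ≤ Real.exp (-(3 / 32 * V)) * 1 * 3 +
        Real.exp (-(3 / 32 * V)) * (B + 4 * B * V + (4 * V ^ 2 + V)) * 3 := add_le_add b0 b2
    _ = 3 * (Real.exp (-(3 / 32 * V)) * (1 + B + 4 * B * V + (4 * V ^ 2 + V))) := by ring
    _ ≤ 3 * ((8192 * (1 + B)) * Real.exp (-(V / 16))) :=
        mul_le_mul_of_nonneg_left hfin (by norm_num)
    _ = _ := by ring

end four

/-! ### the average over the signs -/

section avg

variable {ι : Type} [Fintype ι] [DecidableEq ι]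

lemma sum_cos (θ : ι → ℝ) (α : ℝ) :
    ∑ σ : ι → Bool, Real.cos (α - ∑ b, (if σ b then (1 : ℝ) else -1) * θ b) =
      2 ^ Fintype.card ι * ((∏ b, Real.cos (θ b)) * Real.cos α) := by
  have h1 : ∀ σ : ι → Bool,
      Complex.exp ((α - ∑ b, (if σ b then (1 : ℝ) else -1) * θ b : ℝ) * Complex.I) =
      Complex.exp (α * Complex.I) *
        ∏ b, Complex.exp (-(((if σ b then (1 : ℝ) else -1) * θ b : ℝ) * Complex.I)) := by
    intro σ
    rw [← Complex.exp_sum, ← Complex.exp_add, Finset.sum_neg_distrib, ← Finset.sum_mul]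
    congr 1
    push_cast
    ring
  have h2 : ∑ σ : ι → Bool, ∏ b, Complex.exp (-(((if σ b then (1 : ℝ) else -1) * θ b : ℝ) *
      Complex.I)) = ∏ b, (2 * (Real.cos (θ b) : ℂ)) := by
    have h3 := Finset.prod_univ_sum (t := fun _ : ι => (Finset.univ : Finset Bool))
      (f := fun b (ε : Bool) => Complex.exp (-(((if ε then (1 : ℝ) else -1) * θ b : ℝ) * Complex.I)))
    rw [Fintype.piFinset_univ] at h3
    rw [← h3]
    refine Finset.prod_congr rfl fun b _ => ?_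
    rw [Fintype.sum_bool, Complex.ofReal_cos, Complex.two_cos]
    simp only [if_true, Bool.false_eq_true, if_false]
    push_cast
    rw [add_comm]
    congr 1
    · congr 1
      ring
    · congr 1
      ring
  have h4 : ∑ σ : ι → Bool,
      Complex.exp ((α - ∑ b, (if σ b then (1 : ℝ) else -1) * θ b : ℝ) * Complex.I) =
      ((2 ^ Fintype.card ι * ∏ b, Real.cos (θ b) : ℝ) : ℂ) * Complex.exp (α * Complex.I) := by
    rw [Finset.sum_congr rfl fun σ _ => h1 σ, ← Finset.mul_sum, h2, Finset.prod_mul_distrib,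
      Finset.prod_const, Finset.card_univ]
    push_cast
    ring
  have h5 := congrArg Complex.re h4
  rw [Complex.re_sum, Complex.re_ofReal_mul, Complex.exp_ofReal_mul_I_re] at h5
  rw [Finset.sum_congr rfl fun σ _ => (Complex.exp_ofReal_mul_I_re _)] at h5
  rw [h5]
  ring

lemma fK_eq_int {R : ℝ} (hR : 0 < R) (x : ℝ) :
    fK R x = R * (Real.pi⁻¹ * ∫ u in (1 : ℝ)..4, psi u * Real.cos (R * x * u)) := by
  unfold fK
  have h1 := Measure.integral_comp_mul_left (fun ξ : ℝ => psi (ξ / R) * Real.cos (x * ξ)) R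
  have h2 : (fun u : ℝ => psi (R * u / R) * Real.cos (x * (R * u))) =
      fun u => psi u * Real.cos (R * x * u) := by
    funext u
    rw [mul_div_cancel_left₀ _ hR.ne']
    congr 2
    ring
  rw [h2, abs_of_pos (inv_pos.2 hR), smul_eq_mul] at h1
  have h3 : ∫ u : ℝ, psi u * Real.cos (R * x * u) =
      ∫ u in (1 : ℝ)..4, psi u * Real.cos (R * x * u) := by
    rw [intervalIntegral.integral_of_le (by norm_num), ← integral_Icc_eq_integral_Ioc]
    symm
    refine setIntegral_eq_integral_of_forall_compl_eq_zero fun u hu => ?_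
    have : psi u = 0 := by
      rcases lt_or_ge u 1 with h | h
      · exact psi_of_le_one h.le
      · apply psi_of_four_le
        by_contra h4
        exact hu ⟨h, (not_le.1 h4).le⟩
    rw [this, zero_mul]
  rw [← h3, h1, mul_left_comm, ← mul_assoc R, mul_inv_cancel₀ hR.ne', one_mul]

lemma avg_eq {R : ℝ} (hR : 0 < R) (Δ : ι → ℝ) (x : ℝ) :
    (∑ σ : ι → Bool, fK R (x - ∑ b, (if σ b then (1 : ℝ) else -1) * Δ b / 2)) /
      2 ^ Fintype.card ι =
    R * (Real.pi⁻¹ * ∫ u in (1 : ℝ)..4, G0 (fun b => R * Δ b) u * Real.cos (R * x * u)) := by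
  have h1 : ∀ σ : ι → Bool, fK R (x - ∑ b, (if σ b then (1 : ℝ) else -1) * Δ b / 2) =
      R * (Real.pi⁻¹ * ∫ u in (1 : ℝ)..4, psi u * Real.cos (R * x * u -
        ∑ b, (if σ b then (1 : ℝ) else -1) * (u * (R * Δ b) / 2))) := by
    intro σ
    rw [fK_eq_int hR]
    congr 2
    refine intervalIntegral.integral_congr fun u _ => ?_
    congr 2
    rw [mul_sub, sub_mul, Finset.mul_sum, Finset.sum_mul]
    congr 1
    refine Finset.sum_congr rfl fun b _ => ?_
    ring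
  rw [Finset.sum_congr rfl fun σ _ => h1 σ, ← Finset.mul_sum, ← Finset.mul_sum,
    ← intervalIntegral.integral_finset_sum]
  · have h2 : ∫ u in (1 : ℝ)..4, ∑ σ : ι → Bool, psi u * Real.cos (R * x * u -
        ∑ b, (if σ b then (1 : ℝ) else -1) * (u * (R * Δ b) / 2)) =
        2 ^ Fintype.card ι * ∫ u in (1 : ℝ)..4, G0 (fun b => R * Δ b) u * Real.cos (R * x * u) := by
      rw [← intervalIntegral.integral_const_mul]
      refine intervalIntegral.integral_congr fun u _ => ?_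
      rw [← Finset.mul_sum, sum_cos (fun b => u * (R * Δ b) / 2) (R * x * u)]
      unfold G0 Pp
      ring
    rw [h2]
    field_simp
  · intro σ _
    apply Continuous.intervalIntegrable
    have := psi_continuous
    fun_prop

/-- the pointwise bound -/
theorem key : ∃ C : ℝ, 0 < C ∧ ∀ R : ℝ, 0 < R → ∀ (ι : Type) [Fintype ι] [DecidableEq ι]
    (Δ : ι → ℝ), (∀ b, |Δ b| ≤ 1 / (8 * R)) → ∀ x : ℝ,
    |(∑ σ : ι → Bool, fK R (x - ∑ b, (if σ b then (1 : ℝ) else -1) * Δ b / 2)) /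
      2 ^ Fintype.card ι| ≤
      C * Real.exp (-(R ^ 2 * ∑ b, Δ b ^ 2 / 16)) * (R * (1 + (R * x) ^ 2)⁻¹) := by
  obtain ⟨C, hC, h⟩ := four_le
  refine ⟨C, hC, fun R hR ι _ _ Δ hΔ x => ?_⟩
  have hδ : ∀ b, |R * Δ b| ≤ 1 / 8 := by
    intro b
    rw [abs_mul, abs_of_pos hR]
    have := mul_le_mul_of_nonneg_left (hΔ b) hR.le
    refine this.trans (le_of_eq ?_)
    field_simp
  have h1 := h ι (fun b => R * Δ b) hδ (R * x)
  rw [avg_eq hR]
  have h2 : (∑ b, (R * Δ b) ^ 2) / 16 = R ^ 2 * ∑ b, Δ b ^ 2 / 16 := by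
    rw [Finset.mul_sum, Finset.sum_div]
    refine Finset.sum_congr rfl fun b _ => ?_
    ring
  rw [h2] at h1
  set J := ∫ u in (1 : ℝ)..4, G0 (fun b => R * Δ b) u * Real.cos (R * x * u)
  set E := Real.exp (-(R ^ 2 * ∑ b, Δ b ^ 2 / 16))
  have hp : 0 < 1 + (R * x) ^ 2 := by positivity
  have h3 : |J| ≤ C * E * (1 + (R * x) ^ 2)⁻¹ := by
    rw [← div_eq_mul_inv, le_div_iff₀ hp, mul_comm]
    exact h1
  have hpi : Real.pi⁻¹ ≤ 1 := inv_le_one_of_one_le₀ (by linarith [Real.pi_gt_three])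
  have hpi0 : 0 < Real.pi⁻¹ := by positivity
  rw [abs_mul, abs_mul, abs_of_pos hR, abs_of_pos hpi0]
  calc R * (Real.pi⁻¹ * |J|) ≤ R * (1 * |J|) :=
        mul_le_mul_of_nonneg_left (mul_le_mul_of_nonneg_right hpi (abs_nonneg _)) hR.le
    _ ≤ R * (1 * (C * E * (1 + (R * x) ^ 2)⁻¹)) :=
        mul_le_mul_of_nonneg_left (mul_le_mul_of_nonneg_left h3 zero_le_one) hR.le
    _ = _ := by ring

lemma integrable_bump {R : ℝ} (hR : 0 < R) (m : ℝ) :
    Integrable fun x : ℝ => R * (1 + (R * (x - m)) ^ 2)⁻¹ := by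
  have h := (integrable_inv_one_add_sq.comp_mul_left' hR.ne').const_mul R
  exact h.comp_sub_right m

lemma integral_bump {R : ℝ} (hR : 0 < R) (m : ℝ) :
    ∫ x : ℝ, R * (1 + (R * (x - m)) ^ 2)⁻¹ = Real.pi := by
  rw [integral_sub_right_eq_self (fun x : ℝ => R * (1 + (R * x) ^ 2)⁻¹) m, integral_const_mul,
    Measure.integral_comp_mul_left (fun y : ℝ => (1 + y ^ 2)⁻¹) R, integral_univ_inv_one_add_sq,
    abs_of_pos (inv_pos.2 hR), smul_eq_mul]
  field_simp

end avg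

end C2

theorem damp : ∃ C : ℝ, 0 < C ∧ ∀ R : ℝ, 0 < R → ∀ (ι : Type) [Fintype ι] [DecidableEq ι] (Δ : ι → ℝ),
    (∀ b, |Δ b| ≤ 1 / (8 * R)) →
    ∫ x, |(∑ σ : ι → Bool, fK R (x - ∑ b, (if σ b then (1 : ℝ) else -1) * Δ b / 2)) /
      2 ^ Fintype.card ι| ≤ C * Real.exp (-(R ^ 2 * ∑ b, Δ b ^ 2 / 16)) := by
  obtain ⟨C, hC, h⟩ := C2.key
  refine ⟨C * Real.pi, by positivity, fun R hR ι _ _ Δ hΔ => ?_⟩
  have hi := (C2.integrable_bump hR 0).const_mul (C * Real.exp (-(R ^ 2 * ∑ b, Δ b ^ 2 / 16)))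
  have h1 := integral_mono_of_nonneg (μ := volume) (Filter.Eventually.of_forall fun x =>
    abs_nonneg ((∑ σ : ι → Bool, fK R (x - ∑ b, (if σ b then (1 : ℝ) else -1) * Δ b / 2)) /
      2 ^ Fintype.card ι)) hi (Filter.Eventually.of_forall fun x => by
        have := h R hR ι Δ hΔ x
        simp only [sub_zero]
        exact this)
  refine h1.trans (le_of_eq ?_)
  rw [integral_const_mul, C2.integral_bump hR 0]
  ring

namespace C2

section coup

variable {ι : Type} [Fintype ι] [DecidableEq ι] {Ω : ι → Type} [∀ b, Fintype (Ω b)]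

lemma prod_one (q : ∀ b, Ω b → Ω b → ℝ) (ω : ∀ b, Ω b) :
    ∏ b, ∑ w', q b (ω b) w' = ∑ ω' : (∀ b, Ω b), ∏ b, q b (ω b) (ω' b) := by
  have h := Finset.prod_univ_sum (t := fun b : ι => (Finset.univ : Finset (Ω b)))
    (f := fun b w' => q b (ω b) w')
  rw [Fintype.piFinset_univ] at h
  exact h

lemma prod_two (q : ∀ b, Ω b → Ω b → ℝ) :
    ∏ b, ∑ w, ∑ w', q b w w' =
      ∑ ω : (∀ b, Ω b), ∑ ω' : (∀ b, Ω b), ∏ b, q b (ω b) (ω' b) := by
  have h := Finset.prod_univ_sum (t := fun b : ι => (Finset.univ : Finset (Ω b)))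
    (f := fun b w => ∑ w', q b w w')
  rw [Fintype.piFinset_univ] at h
  rw [h]
  exact Finset.sum_congr rfl fun ω _ => prod_one q ω

/-- swap the coordinates where `σ` is false -/
def swp (σ : ι → Bool) (p : (∀ b, Ω b) × (∀ b, Ω b)) : (∀ b, Ω b) × (∀ b, Ω b) :=
  (fun b => if σ b then p.1 b else p.2 b, fun b => if σ b then p.2 b else p.1 b)

omit [Fintype ι] [DecidableEq ι] [∀ b, Fintype (Ω b)] in
lemma swp_invol (σ : ι → Bool) : Function.Involutive (swp (Ω := Ω) σ) := by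
  intro p
  unfold swp
  refine Prod.ext ?_ ?_
  · funext b
    by_cases h : σ b = true <;> simp [h]
  · funext b
    by_cases h : σ b = true <;> simp [h]

lemma symm_sum (q : ∀ b, Ω b → Ω b → ℝ) (hs : ∀ b w w', q b w w' = q b w' w)
    (F : (∀ b, Ω b) → ℝ) :
    ∑ ω : (∀ b, Ω b), (∏ b, ∑ w', q b (ω b) w') * F ω =
      ∑ p : (∀ b, Ω b) × (∀ b, Ω b), (∏ b, q b (p.1 b) (p.2 b)) *
        ((∑ σ : ι → Bool, F (swp σ p).1) / 2 ^ Fintype.card ι) := by
  have h1 : ∑ ω : (∀ b, Ω b), (∏ b, ∑ w', q b (ω b) w') * F ω =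
      ∑ p : (∀ b, Ω b) × (∀ b, Ω b), (∏ b, q b (p.1 b) (p.2 b)) * F p.1 := by
    rw [Fintype.sum_prod_type]
    refine Finset.sum_congr rfl fun ω _ => ?_
    rw [prod_one, Finset.sum_mul]
  have h2 : ∀ σ : ι → Bool, ∑ p : (∀ b, Ω b) × (∀ b, Ω b), (∏ b, q b (p.1 b) (p.2 b)) * F p.1 =
      ∑ p : (∀ b, Ω b) × (∀ b, Ω b), (∏ b, q b (p.1 b) (p.2 b)) * F (swp σ p).1 := by
    intro σ
    rw [← Equiv.sum_comp (swp_invol (Ω := Ω) σ).toPerm]
    refine Finset.sum_congr rfl fun p _ => ?_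
    rw [Function.Involutive.coe_toPerm]
    congr 1
    refine Finset.prod_congr rfl fun b _ => ?_
    unfold swp
    by_cases h : σ b = true
    · simp [h]
    · simp only [h, Bool.false_eq_true, if_false]
      exact hs b _ _
  rw [h1]
  have h3 : (2 : ℝ) ^ Fintype.card ι *
      ∑ p : (∀ b, Ω b) × (∀ b, Ω b), (∏ b, q b (p.1 b) (p.2 b)) * F p.1 =
      ∑ σ : ι → Bool, ∑ p : (∀ b, Ω b) × (∀ b, Ω b),
        (∏ b, q b (p.1 b) (p.2 b)) * F (swp σ p).1 := by
    rw [← Finset.sum_congr rfl fun σ _ => h2 σ, Finset.sum_const, Finset.card_univ,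
      Fintype.card_pi, nsmul_eq_mul]
    congr 1
    simp
  have h4 : (2 : ℝ) ^ Fintype.card ι ≠ 0 := by positivity
  have h5 : ∑ p : (∀ b, Ω b) × (∀ b, Ω b), (∏ b, q b (p.1 b) (p.2 b)) *
        ((∑ σ : ι → Bool, F (swp σ p).1) / 2 ^ Fintype.card ι) =
      (∑ σ : ι → Bool, ∑ p : (∀ b, Ω b) × (∀ b, Ω b),
        (∏ b, q b (p.1 b) (p.2 b)) * F (swp σ p).1) / 2 ^ Fintype.card ι := by
    rw [Finset.sum_comm, Finset.sum_div]
    refine Finset.sum_congr rfl fun p _ => ?_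
    rw [← Finset.mul_sum]
    ring
  rw [h5, ← h3]
  field_simp

end coup

end C2

theorem coupling_L1 : ∃ C : ℝ, 0 < C ∧ ∀ R : ℝ, 0 < R → ∀ (ι : Type) [Fintype ι] [DecidableEq ι]
    (Ω : ι → Type) [∀ b, Fintype (Ω b)] (X : ∀ b, Ω b → ℝ) (q : ∀ b, Ω b → Ω b → ℝ),
    (∀ b w w', 0 ≤ q b w w') → (∀ b w w', q b w w' = q b w' w) →
    (∀ b w w', q b w w' ≠ 0 → |X b w - X b w'| ≤ 1 / (8 * R)) →
    ∫ x, |∑ ω : (∀ b, Ω b), (∏ b, ∑ w', q b (ω b) w') * fK R (x - ∑ b, X b (ω b))| ≤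
      C * ∏ b, ∑ w, ∑ w', q b w w' * Real.exp (-(R ^ 2 * (X b w - X b w') ^ 2 / 16)) := by
  obtain ⟨C, hC, h⟩ := C2.key
  refine ⟨C * Real.pi, by positivity, fun R hR ι _ _ Ω _ X q hq hs hX => ?_⟩
  set m : (∀ b, Ω b) × (∀ b, Ω b) → ℝ := fun p => ∑ b, (X b (p.1 b) + X b (p.2 b)) / 2 with hm
  set w : (∀ b, Ω b) × (∀ b, Ω b) → ℝ := fun p => (∏ b, q b (p.1 b) (p.2 b)) *
    (C * Real.exp (-(R ^ 2 * ∑ b, (X b (p.1 b) - X b (p.2 b)) ^ 2 / 16))) with hw
  have hQ : ∀ p : (∀ b, Ω b) × (∀ b, Ω b), 0 ≤ ∏ b, q b (p.1 b) (p.2 b) := fun p =>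
    Finset.prod_nonneg fun b _ => hq b _ _
  have hpt : ∀ x, |∑ ω : (∀ b, Ω b), (∏ b, ∑ w', q b (ω b) w') * fK R (x - ∑ b, X b (ω b))| ≤
      ∑ p : (∀ b, Ω b) × (∀ b, Ω b), w p * (R * (1 + (R * (x - m p)) ^ 2)⁻¹) := by
    intro x
    rw [C2.symm_sum q hs fun ω => fK R (x - ∑ b, X b (ω b))]
    refine (Finset.abs_sum_le_sum_abs _ _).trans (Finset.sum_le_sum fun p _ => ?_)
    rw [abs_mul, abs_of_nonneg (hQ p)]
    rcases (hQ p).eq_or_lt with h0 | h0
    · rw [hw]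
      simp only
      rw [← h0]
      simp
    · have hΔ : ∀ b, |X b (p.1 b) - X b (p.2 b)| ≤ 1 / (8 * R) := by
        intro b
        apply hX
        intro hb
        exact h0.ne' (Finset.prod_eq_zero (Finset.mem_univ b) hb)
      have hk := h R hR ι (fun b => X b (p.1 b) - X b (p.2 b)) hΔ (x - m p)
      have e : ∀ σ : ι → Bool, x - ∑ b, X b ((C2.swp σ p).1 b) =
          x - m p - ∑ b, (if σ b then (1 : ℝ) else -1) * (X b (p.1 b) - X b (p.2 b)) / 2 := by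
        intro σ
        rw [hm]
        simp only
        rw [sub_sub, ← Finset.sum_add_distrib]
        congr 1
        refine Finset.sum_congr rfl fun b _ => ?_
        unfold C2.swp
        by_cases hb : σ b = true
        · simp only [hb, if_true]
          ring
        · simp only [hb, Bool.false_eq_true, if_false]
          ring
      rw [Finset.sum_congr rfl fun σ _ => congrArg (fK R) (e σ)]
      calc (∏ b, q b (p.1 b) (p.2 b)) * |(∑ σ : ι → Bool, fK R (x - m p - ∑ b,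
            (if σ b then (1 : ℝ) else -1) * (X b (p.1 b) - X b (p.2 b)) / 2)) /
              2 ^ Fintype.card ι| ≤ (∏ b, q b (p.1 b) (p.2 b)) *
            (C * Real.exp (-(R ^ 2 * ∑ b, (X b (p.1 b) - X b (p.2 b)) ^ 2 / 16)) *
              (R * (1 + (R * (x - m p)) ^ 2)⁻¹)) := mul_le_mul_of_nonneg_left hk (hQ p)
        _ = _ := by rw [hw]; ring
  have hi : Integrable fun x => ∑ p : (∀ b, Ω b) × (∀ b, Ω b),
      w p * (R * (1 + (R * (x - m p)) ^ 2)⁻¹) :=
    integrable_finset_sum _ fun p _ => (C2.integrable_bump hR (m p)).const_mul _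
  have h1 := integral_mono_of_nonneg (μ := volume)
    (Filter.Eventually.of_forall fun x => abs_nonneg
      (∑ ω : (∀ b, Ω b), (∏ b, ∑ w', q b (ω b) w') * fK R (x - ∑ b, X b (ω b)))) hi
    (Filter.Eventually.of_forall hpt)
  refine h1.trans (le_of_eq ?_)
  rw [integral_finset_sum _ fun p _ => (C2.integrable_bump hR (m p)).const_mul _]
  have h2 : ∀ p : (∀ b, Ω b) × (∀ b, Ω b),
      ∫ x, w p * (R * (1 + (R * (x - m p)) ^ 2)⁻¹) = C * Real.pi *
        ∏ b, (q b (p.1 b) (p.2 b) * Real.exp (-(R ^ 2 * (X b (p.1 b) - X b (p.2 b)) ^ 2 / 16))) := by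
    intro p
    rw [integral_const_mul, C2.integral_bump hR, Finset.prod_mul_distrib, ← Real.exp_sum, hw]
    simp only
    have e : ∑ b, -(R ^ 2 * (X b (p.1 b) - X b (p.2 b)) ^ 2 / 16) =
        -(R ^ 2 * ∑ b, (X b (p.1 b) - X b (p.2 b)) ^ 2 / 16) := by
      rw [Finset.sum_neg_distrib, Finset.mul_sum]
      congr 1
      refine Finset.sum_congr rfl fun b _ => ?_
      ring
    rw [e]
    ring
  rw [Finset.sum_congr rfl fun p _ => h2 p, ← Finset.mul_sum, C2.prod_two, Fintype.sum_prod_type]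

end Pool.Agent.BCD
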