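import Pool.Agent.Work.MP_bc8e1e_an.D.C3c

/-!
# Bernoulli convolutions near 1: module C3

`exists_coupling` (C3a), `entropy_sum` (C3b), `Jc_eq`, `Jc_le_Ic` (C3c).
-/
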