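import Pool.Agent.Work.MP_bc8e1e_an.D.Defs

/-!
# Bernoulli convolutions near 1: couplings (module C3, first part)
-/

set_option autoImplicit false

open MeasureTheory ProbabilityTheory Polynomial

namespace Pool.Agent.BCD

namespace C3

variable {Ω : Type} [Fintype Ω]

lemma one_le_nb (X : Ω → ℝ) {s : ℝ} (hs : 0 ≤ s) (w : Ω) : 1 ≤ nb X s w := by
  unfold nb
  have h := Finset.single_le_sum (f := fun w' => if |X w - X w'| ≤ s then (1 : ℝ) else 0)
    (fun i _ => by positivity) (Finset.mem_univ w)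
  simpa [hs] using h

lemma nb_mono (X : Ω → ℝ) {s s' : ℝ} (h : s ≤ s') (w : Ω) : nb X s w ≤ nb X s' w := by
  unfold nb
  refine Finset.sum_le_sum fun w' _ => ?_
  by_cases h1 : |X w - X w'| ≤ s
  · rw [if_pos h1, if_pos (h1.trans h)]
  · rw [if_neg h1]
    positivity

/-- the size of the cell of `w`. -/
noncomputable def cellN (c : Ω → ℤ) (w : Ω) : ℝ := ∑ w' : Ω, if c w = c w' then (1 : ℝ) else 0

lemma one_le_cellN (c : Ω → ℤ) (w : Ω) : 1 ≤ cellN c w := by
  unfold cellN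
  have h := Finset.single_le_sum (f := fun w' => if c w = c w' then (1 : ℝ) else 0)
    (fun i _ => by positivity) (Finset.mem_univ w)
  simpa using h

/-- the coupling of a partition. -/
noncomputable def Qc (c : Ω → ℤ) (w w' : Ω) : ℝ :=
  if c w = c w' then (Fintype.card Ω : ℝ)⁻¹ * (cellN c w)⁻¹ else 0

lemma Qc_nonneg (c : Ω → ℤ) (w w' : Ω) : 0 ≤ Qc c w w' := by
  unfold Qc
  have := one_le_cellN c w
  split_ifs <;> positivity

lemma Qc_symm (c : Ω → ℤ) (w w' : Ω) : Qc c w w' = Qc c w' w := by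
  unfold Qc cellN
  by_cases h : c w = c w'
  · rw [if_pos h, if_pos h.symm, h]
  · rw [if_neg h, if_neg fun h' => h h'.symm]

lemma Qc_sum (c : Ω → ℤ) (w : Ω) : ∑ w', Qc c w w' = (Fintype.card Ω : ℝ)⁻¹ := by
  have h1 : ∑ w', Qc c w w' = (Fintype.card Ω : ℝ)⁻¹ * (cellN c w)⁻¹ * cellN c w := by
    conv_rhs => arg 2; unfold cellN
    rw [Finset.mul_sum]
    refine Finset.sum_congr rfl fun w' _ => ?_
    unfold Qc
    by_cases h : c w = c w'
    · rw [if_pos h, if_pos h, mul_one]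
    · rw [if_neg h, if_neg h, mul_zero]
  have h2 := one_le_cellN c w
  rw [h1, mul_assoc, inv_mul_cancel₀ (by positivity), mul_one]

lemma Qc_good (X : Ω → ℝ) (c : Ω → ℤ) (w : Ω) {s t : ℝ} (hs : 0 ≤ s) (hst : s ≤ t)
    (hc : ∀ w', |X w - X w'| ≤ t → c w = c w') :
    (Fintype.card Ω : ℝ)⁻¹ * (1 - nb X s w / nb X t w) ≤
      ∑ w', if s < |X w - X w'| then Qc c w w' else 0 := by
  have h1 : ∑ w', (if s < |X w - X w'| then Qc c w w' else 0) +
      ∑ w', (if |X w - X w'| ≤ s then Qc c w w' else 0) = (Fintype.card Ω : ℝ)⁻¹ := by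
    rw [← Qc_sum c w, ← Finset.sum_add_distrib]
    refine Finset.sum_congr rfl fun w' _ => ?_
    by_cases h : |X w - X w'| ≤ s
    · rw [if_neg (not_lt.2 h), if_pos h, zero_add]
    · rw [if_pos (not_le.1 h), if_neg h, add_zero]
  have h2 : ∑ w', (if |X w - X w'| ≤ s then Qc c w w' else 0) =
      (Fintype.card Ω : ℝ)⁻¹ * (cellN c w)⁻¹ * nb X s w := by
    rw [nb, Finset.mul_sum]
    refine Finset.sum_congr rfl fun w' _ => ?_
    by_cases h : |X w - X w'| ≤ s
    · rw [if_pos h, if_pos h, Qc, if_pos (hc w' (h.trans hst)), mul_one]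
    · rw [if_neg h, if_neg h, mul_zero]
  have h3 : nb X t w ≤ cellN c w := by
    unfold nb cellN
    refine Finset.sum_le_sum fun w' _ => ?_
    by_cases h : |X w - X w'| ≤ t
    · rw [if_pos h, if_pos (hc w' h)]
    · rw [if_neg h]
      positivity
  have h4 := one_le_nb X (hs.trans hst) w
  have h5 := one_le_nb X hs w
  have h6 : nb X s w / cellN c w ≤ nb X s w / nb X t w := by
    gcongr
  have h7 : 0 ≤ (Fintype.card Ω : ℝ)⁻¹ := by positivity
  have h8 : ∑ w', (if s < |X w - X w'| then Qc c w w' else 0) =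
      (Fintype.card Ω : ℝ)⁻¹ * (1 - nb X s w / cellN c w) := by
    rw [eq_sub_of_add_eq h1, h2, div_eq_mul_inv]
    ring
  rw [h8]
  gcongr

lemma floor_case (u v : ℝ) : |u - v| ≤ 1 / 4 →
    1 / 4 ≤ Int.fract u → Int.fract u < 3 / 4 → ⌊u⌋ = ⌊v⌋ := by
  intro h h1 h2
  have h3 := abs_le.1 h
  have h4 : Int.fract u = u - ⌊u⌋ := rfl
  symm
  rw [Int.floor_eq_iff]
  constructor <;> linarith

lemma floor_case' (u v : ℝ) : |u - v| ≤ 1 / 4 →
    ¬ (1 / 4 ≤ Int.fract u ∧ Int.fract u < 3 / 4) → ⌊u + 1 / 2⌋ = ⌊v + 1 / 2⌋ := by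
  intro h h1
  have h3 := abs_le.1 h
  have h4 : Int.fract u = u - ⌊u⌋ := rfl
  have h5 := Int.fract_nonneg u
  have h6 := Int.fract_lt_one u
  by_cases h7 : 1 / 4 ≤ Int.fract u
  · have h8 : 3 / 4 ≤ Int.fract u := by
      by_contra h9
      exact h1 ⟨h7, not_le.1 h9⟩
    have e1 : ⌊u + 1 / 2⌋ = ⌊u⌋ + 1 := by
      rw [Int.floor_eq_iff]
      push_cast
      constructor <;> linarith
    have e2 : ⌊v + 1 / 2⌋ = ⌊u⌋ + 1 := by
      rw [Int.floor_eq_iff]
      push_cast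
      constructor <;> linarith
    rw [e1, e2]
  · have h8 := not_le.1 h7
    have e1 : ⌊u + 1 / 2⌋ = ⌊u⌋ := by
      rw [Int.floor_eq_iff]
      constructor <;> linarith
    have e2 : ⌊v + 1 / 2⌋ = ⌊u⌋ := by
      rw [Int.floor_eq_iff]
      constructor <;> linarith
    rw [e1, e2]

lemma abs_sub_le_of_floor {x y l d : ℝ} (hl : 0 < l) (h : ⌊x / l + d⌋ = ⌊y / l + d⌋) :
    |x - y| ≤ l := by
  have h1 := Int.abs_sub_lt_one_of_floor_eq_floor h
  have h2 : x / l + d - (y / l + d) = (x - y) / l := by ring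
  rw [h2, abs_div, abs_of_pos hl, div_lt_one hl] at h1
  exact h1.le

end C3

open C3

theorem exists_coupling {Ω : Type} [Fintype Ω] [Nonempty Ω] (X : Ω → ℝ) {s ϱ : ℝ}
    (hs : 0 < s) (h1 : 1 ≤ ϱ) (h3 : ϱ ≤ 3) :
    ∃ q : Ω → Ω → ℝ, (∀ w w', 0 ≤ q w w') ∧ (∀ w w', q w w' = q w' w) ∧
      (∀ w w', q w w' ≠ 0 → |X w - X w'| ≤ 12 * s) ∧
      (∀ w, ∑ w', q w w' = (Fintype.card Ω : ℝ)⁻¹) ∧
      Gs X ϱ s / 2 ≤ ∑ w, ∑ w', if s < |X w - X w'| then q w w' else 0 := by
  have hl : 0 < 4 * ϱ * s := by positivity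
  set c1 : Ω → ℤ := fun w => ⌊X w / (4 * ϱ * s) + 0⌋ with hc1
  set c2 : Ω → ℤ := fun w => ⌊X w / (4 * ϱ * s) + 1 / 2⌋ with hc2
  have hsupp : 4 * ϱ * s ≤ 12 * s := by nlinarith
  refine ⟨fun w w' => 1 / 2 * (Qc c1 w w' + Qc c2 w w'), ?_, ?_, ?_, ?_, ?_⟩
  · intro w w'
    have := Qc_nonneg c1 w w'
    have := Qc_nonneg c2 w w'
    positivity
  · intro w w'
    simp only [Qc_symm c1 w w', Qc_symm c2 w w']
  · intro w w' h
    by_cases e1 : c1 w = c1 w'
    · exact (abs_sub_le_of_floor hl e1).trans hsupp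
    · by_cases e2 : c2 w = c2 w'
      · exact (abs_sub_le_of_floor hl e2).trans hsupp
      · exfalso
        apply h
        simp only [Qc, if_neg e1, if_neg e2, add_zero, mul_zero]
  · intro w
    rw [← Finset.mul_sum, Finset.sum_add_distrib, Qc_sum, Qc_sum]
    ring
  · have key : ∀ w, (Fintype.card Ω : ℝ)⁻¹ * (1 - nb X s w / nb X (ϱ * s) w) / 2 ≤
        ∑ w', if s < |X w - X w'| then 1 / 2 * (Qc c1 w w' + Qc c2 w w') else 0 := by
      intro w
      have hst : s ≤ ϱ * s := by nlinarith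
      have hdist : ∀ w', |X w - X w'| ≤ ϱ * s →
          |X w / (4 * ϱ * s) - X w' / (4 * ϱ * s)| ≤ 1 / 4 := by
        intro w' h
        rw [← sub_div, abs_div, abs_of_pos hl, div_le_iff₀ hl]
        linarith
      have hsplit : ∑ w', (if s < |X w - X w'| then 1 / 2 * (Qc c1 w w' + Qc c2 w w') else 0) =
          1 / 2 * ∑ w', (if s < |X w - X w'| then Qc c1 w w' else 0) +
          1 / 2 * ∑ w', (if s < |X w - X w'| then Qc c2 w w' else 0) := by
        rw [Finset.mul_sum, Finset.mul_sum, ← Finset.sum_add_distrib]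
        refine Finset.sum_congr rfl fun w' _ => ?_
        split_ifs <;> ring
      have n1 : 0 ≤ ∑ w', (if s < |X w - X w'| then Qc c1 w w' else 0) :=
        Finset.sum_nonneg fun w' _ => by
          have := Qc_nonneg c1 w w'
          split_ifs <;> simp [this]
      have n2 : 0 ≤ ∑ w', (if s < |X w - X w'| then Qc c2 w w' else 0) :=
        Finset.sum_nonneg fun w' _ => by
          have := Qc_nonneg c2 w w'
          split_ifs <;> simp [this]
      rw [hsplit]
      by_cases hf : 1 / 4 ≤ Int.fract (X w / (4 * ϱ * s)) ∧ Int.fract (X w / (4 * ϱ * s)) < 3 / 4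
      · have := Qc_good X c1 w hs.le hst fun w' h => by
          simp only [hc1, add_zero]
          exact floor_case _ _ (hdist w' h) hf.1 hf.2
        linarith
      · have := Qc_good X c2 w hs.le hst fun w' h => floor_case' _ _ (hdist w' h) hf
        linarith
    calc Gs X ϱ s / 2 = ∑ w, (Fintype.card Ω : ℝ)⁻¹ * (1 - nb X s w / nb X (ϱ * s) w) / 2 := by
          rw [Gs, ← Finset.sum_div, ← Finset.mul_sum]
          ring
      _ ≤ _ := Finset.sum_le_sum fun w _ => key w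

end Pool.Agent.BCD
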