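import Pool.Agent.Work.MP_bc8e1e_an.D.C3a

/-!
# Bernoulli convolutions near 1: entropy sums (module C3, second part)
-/

set_option autoImplicit false

open MeasureTheory ProbabilityTheory Polynomial

namespace Pool.Agent.BCD

namespace C3

variable {Ω : Type} [Fintype Ω]

lemma sum_inv_cell (c : Ω → ℤ) (k : ℤ) :
    ∑ w : Ω, (if c w = k then (cellN c w)⁻¹ else 0) ≤ 1 := by
  by_cases h : ∃ w₀, c w₀ = k
  · obtain ⟨w₀, h₀⟩ := h
    have h1 : ∑ w : Ω, (if c w = k then (cellN c w)⁻¹ else 0) =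
        (cellN c w₀)⁻¹ * cellN c w₀ := by
      conv_rhs => arg 2; unfold cellN
      rw [Finset.mul_sum]
      refine Finset.sum_congr rfl fun w _ => ?_
      by_cases h2 : c w = k
      · rw [if_pos h2, if_pos (h₀.trans h2.symm), mul_one]
        unfold cellN
        rw [h2, h₀]
      · rw [if_neg h2, if_neg fun h3 => h2 (h3.symm.trans h₀), mul_zero]
    have h2 := one_le_cellN c w₀
    rw [h1, inv_mul_cancel₀ (by positivity)]
  · push Not at h
    rw [Finset.sum_eq_zero fun w _ => if_neg (h w)]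
    exact zero_le_one

lemma cellN_le_nb (X : Ω → ℝ) {s : ℝ} (hs : 0 < s) (w : Ω) :
    cellN (fun w => ⌊X w / s⌋) w ≤ nb X s w := by
  unfold cellN nb
  refine Finset.sum_le_sum fun w' _ => ?_
  by_cases h : ⌊X w / s⌋ = ⌊X w' / s⌋
  · rw [if_pos h, if_pos]
    have := abs_sub_le_of_floor (x := X w) (y := X w') (d := 0) hs (by simpa using h)
    exact this
  · rw [if_neg h]
    positivity

lemma sum_inv_cellN_le (X : Ω → ℝ) {N s : ℝ} (hN : 0 ≤ N) (hs : 0 < s) (hX : ∀ w, |X w| ≤ N) :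
    ∑ w : Ω, (cellN (fun w => ⌊X w / s⌋) w)⁻¹ ≤ 2 * N / s + 2 := by
  set c : Ω → ℤ := fun w => ⌊X w / s⌋ with hc
  have hmem : ∀ w, c w ∈ Finset.Icc ⌊-(N / s)⌋ ⌊N / s⌋ := by
    intro w
    have h1 := abs_le.1 (hX w)
    rw [Finset.mem_Icc]
    constructor
    · apply Int.floor_le_floor
      rw [← neg_div]
      exact div_le_div_of_nonneg_right h1.1 hs.le
    · apply Int.floor_le_floor
      exact div_le_div_of_nonneg_right h1.2 hs.le
  calc ∑ w : Ω, (cellN c w)⁻¹
      = ∑ w : Ω, ∑ k ∈ Finset.Icc ⌊-(N / s)⌋ ⌊N / s⌋, (if c w = k then (cellN c w)⁻¹ else 0) := by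
        refine Finset.sum_congr rfl fun w _ => ?_
        rw [Finset.sum_ite_eq, if_pos (hmem w)]
    _ = ∑ k ∈ Finset.Icc ⌊-(N / s)⌋ ⌊N / s⌋, ∑ w : Ω, (if c w = k then (cellN c w)⁻¹ else 0) :=
        Finset.sum_comm
    _ ≤ ∑ k ∈ Finset.Icc ⌊-(N / s)⌋ ⌊N / s⌋, (1 : ℝ) :=
        Finset.sum_le_sum fun k _ => sum_inv_cell c k
    _ = ((Finset.Icc ⌊-(N / s)⌋ ⌊N / s⌋).card : ℝ) := by simp
    _ ≤ 2 * N / s + 2 := by
        have h3 : ⌊-(N / s)⌋ ≤ ⌊N / s⌋ + 1 := by
          have h4 : 0 ≤ N / s := by positivity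
          have h5 : ⌊-(N / s)⌋ ≤ ⌊N / s⌋ := Int.floor_le_floor (by linarith)
          omega
        have h4 := Int.card_Icc_of_le _ _ h3
        have h5 : (((Finset.Icc ⌊-(N / s)⌋ ⌊N / s⌋).card : ℤ) : ℝ) =
            (⌊N / s⌋ : ℝ) + 1 - ⌊-(N / s)⌋ := by
          rw [h4]
          push_cast
          ring
        have h6 := Int.floor_le (N / s)
        have h7 := Int.lt_floor_add_one (-(N / s))
        have h8 : 2 * N / s = N / s + N / s := by ring
        rw [Int.cast_natCast] at h5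
        rw [h5, h8]
        linarith

lemma nb_le_cells (X : Ω → ℝ) {s t : ℝ} (hs : 0 < s) (ht : t ≤ 3 * s) (w : Ω) :
    nb X t w ≤ ∑ j ∈ Finset.Icc (-3 : ℤ) 3, ∑ w' : Ω,
      if ⌊X w / s⌋ = ⌊X w' / s⌋ + j then (1 : ℝ) else 0 := by
  rw [Finset.sum_comm]
  unfold nb
  refine Finset.sum_le_sum fun w' _ => ?_
  by_cases h : |X w - X w'| ≤ t
  · rw [if_pos h]
    have h1 : |X w / s - X w' / s| ≤ 3 := by
      rw [← sub_div, abs_div, abs_of_pos hs, div_le_iff₀ hs]
      linarith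
    have h2 := abs_le.1 h1
    have h3 : ⌊X w / s⌋ - ⌊X w' / s⌋ ∈ Finset.Icc (-3 : ℤ) 3 := by
      rw [Finset.mem_Icc]
      have a1 := Int.floor_le (X w / s)
      have a2 := Int.lt_floor_add_one (X w / s)
      have a3 := Int.floor_le (X w' / s)
      have a4 := Int.lt_floor_add_one (X w' / s)
      constructor
      · have : (-4 : ℝ) < ((⌊X w / s⌋ - ⌊X w' / s⌋ : ℤ) : ℝ) := by
          push_cast
          linarith
        have : (-4 : ℤ) < ⌊X w / s⌋ - ⌊X w' / s⌋ := by exact_mod_cast this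
        omega
      · have : ((⌊X w / s⌋ - ⌊X w' / s⌋ : ℤ) : ℝ) < (4 : ℝ) := by
          push_cast
          linarith
        have : ⌊X w / s⌋ - ⌊X w' / s⌋ < (4 : ℤ) := by exact_mod_cast this
        omega
    have h4 := Finset.single_le_sum
      (f := fun j : ℤ => if ⌊X w / s⌋ = ⌊X w' / s⌋ + j then (1 : ℝ) else 0)
      (fun i _ => by positivity) h3
    have h5 : ⌊X w / s⌋ = ⌊X w' / s⌋ + (⌊X w / s⌋ - ⌊X w' / s⌋) := by ring
    rwa [if_pos h5] at h4
  · rw [if_neg h]
    positivity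

lemma sum_ratio_le (X : Ω → ℝ) {s t : ℝ} (hs : 0 < s) (ht : t ≤ 3 * s) :
    ∑ w : Ω, nb X t w / nb X s w ≤ 7 * Fintype.card Ω := by
  set c : Ω → ℤ := fun w => ⌊X w / s⌋ with hc
  calc ∑ w : Ω, nb X t w / nb X s w
      ≤ ∑ w : Ω, (∑ j ∈ Finset.Icc (-3 : ℤ) 3, ∑ w' : Ω,
          if c w = c w' + j then (1 : ℝ) else 0) * (cellN c w)⁻¹ := by
        refine Finset.sum_le_sum fun w _ => ?_
        have h1 := nb_le_cells X hs ht w
        have h2 := cellN_le_nb X hs w
        have h3 := one_le_cellN c w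
        rw [div_eq_mul_inv]
        have h4 : 0 ≤ nb X t w := by
          unfold nb
          positivity
        have h5 : 0 < nb X s w := by linarith
        have h6 : 0 ≤ (nb X s w)⁻¹ := by positivity
        gcongr
    _ = ∑ j ∈ Finset.Icc (-3 : ℤ) 3, ∑ w' : Ω, ∑ w : Ω,
          (if c w = c w' + j then (cellN c w)⁻¹ else 0) := by
        simp only [Finset.sum_mul, ite_mul, one_mul, zero_mul]
        rw [Finset.sum_comm]
        refine Finset.sum_congr rfl fun j _ => ?_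
        rw [Finset.sum_comm]
    _ ≤ ∑ j ∈ Finset.Icc (-3 : ℤ) 3, ∑ w' : Ω, (1 : ℝ) :=
        Finset.sum_le_sum fun j _ => Finset.sum_le_sum fun w' _ => sum_inv_cell c _
    _ = 7 * Fintype.card Ω := by
        rw [Finset.sum_const, Finset.sum_const, Int.card_Icc]
        simp

lemma sum_log_le [Nonempty Ω] (y : Ω → ℝ) (hy : ∀ w, 0 < y w) :
    ∑ w : Ω, Real.log (y w) ≤ Fintype.card Ω * Real.log ((∑ w, y w) / Fintype.card Ω) := by
  have hc : (0 : ℝ) < Fintype.card Ω := by exact_mod_cast Fintype.card_pos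
  set A : ℝ := (∑ w, y w) / Fintype.card Ω with hA
  have hApos : 0 < A := div_pos (Finset.sum_pos (fun w _ => hy w) Finset.univ_nonempty) hc
  have h1 : ∀ w, Real.log (y w) ≤ y w / A - 1 + Real.log A := by
    intro w
    have h2 := Real.log_le_sub_one_of_pos (div_pos (hy w) hApos)
    rw [Real.log_div (hy w).ne' hApos.ne'] at h2
    linarith
  calc ∑ w : Ω, Real.log (y w) ≤ ∑ w : Ω, (y w / A - 1 + Real.log A) :=
        Finset.sum_le_sum fun w _ => h1 w
    _ = (∑ w, y w) / A - Fintype.card Ω + Fintype.card Ω * Real.log A := by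
        rw [Finset.sum_add_distrib, Finset.sum_sub_distrib, ← Finset.sum_div]
        simp
    _ = Fintype.card Ω * Real.log A := by
        have h3 : (∑ w, y w) / A = Fintype.card Ω := by
          rw [div_eq_iff hApos.ne', hA]
          field_simp
        rw [h3]
        ring

lemma log_ineq {x κ : ℝ} (hx : 0 < x) (hx1 : x ≤ 1) (hκ : 0 < κ) (hκ1 : κ ≤ 1 / 4) :
    Real.log x⁻¹ ≤ 2 * Real.log (1 / κ) * (1 - x) + 2 * κ * Real.log (1 / κ) * x⁻¹ := by
  have hL : 0 ≤ Real.log (1 / κ) := by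
    apply Real.log_nonneg
    rw [le_div_iff₀ hκ]
    linarith
  by_cases h : κ ≤ x
  · -- concavity
    have h1 : 0 < 1 - κ := by linarith
    have h2 := strictConcaveOn_log_Ioi.concaveOn.2 (Set.mem_Ioi.2 hκ)
      (Set.mem_Ioi.2 (zero_lt_one (α := ℝ)))
      (div_nonneg (by linarith) h1.le : 0 ≤ (1 - x) / (1 - κ))
      (div_nonneg (by linarith) h1.le : 0 ≤ (x - κ) / (1 - κ))
      (by field_simp; ring)
    have h3 : ((1 - x) / (1 - κ)) • κ + ((x - κ) / (1 - κ)) • (1 : ℝ) = x := by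
      simp only [smul_eq_mul]
      field_simp
      ring
    rw [h3, Real.log_one, smul_zero, add_zero, smul_eq_mul] at h2
    have h4 : (1 - x) / (1 - κ) ≤ 2 * (1 - x) := by
      rw [div_le_iff₀ h1]
      nlinarith
    have h5 : Real.log x⁻¹ ≤ (1 - x) / (1 - κ) * Real.log (1 / κ) := by
      rw [one_div, Real.log_inv, Real.log_inv]
      linarith
    have h6 : (1 - x) / (1 - κ) * Real.log (1 / κ) ≤ 2 * (1 - x) * Real.log (1 / κ) :=
      mul_le_mul_of_nonneg_right h4 hL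
    have h7 : 0 ≤ 2 * κ * Real.log (1 / κ) * x⁻¹ := by positivity
    nlinarith
  · have hlt := not_le.1 h
    have h1 : Real.exp 1 ≤ 1 / κ := by
      have := Real.exp_one_lt_d9
      rw [le_div_iff₀ hκ]
      nlinarith [Real.exp_pos 1]
    have h2 : 1 / κ ≤ x⁻¹ := by
      rw [one_div]
      gcongr
    have h3 := Real.log_div_self_antitoneOn (h1 : (1 / κ) ∈ {x | Real.exp 1 ≤ x})
      (h1.trans h2 : x⁻¹ ∈ {x | Real.exp 1 ≤ x}) h2
    simp only at h3
    have hxi : 0 < x⁻¹ := by positivity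
    rw [div_le_iff₀ hxi] at h3
    have h4 : Real.log (1 / κ) / (1 / κ) * x⁻¹ = κ * Real.log (1 / κ) * x⁻¹ := by
      field_simp
    have h5 : 0 ≤ κ * Real.log (1 / κ) * x⁻¹ := by positivity
    have h6 : 0 ≤ 2 * Real.log (1 / κ) * (1 - x) := by
      apply mul_nonneg (by positivity)
      linarith
    linarith

lemma sum_log_ratio_le [Nonempty Ω] (X : Ω → ℝ) {s ϱ κ : ℝ} (hs : 0 < s) (h1 : 1 ≤ ϱ)
    (h3 : ϱ ≤ 3) (hκ : 0 < κ) (hκ1 : κ ≤ 1 / 4) :
    ∑ w : Ω, (Real.log (nb X (ϱ * s) w) - Real.log (nb X s w)) ≤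
      Fintype.card Ω * (2 * Real.log (1 / κ) * Gs X ϱ s + 14 * κ * Real.log (1 / κ)) := by
  have hc : (0 : ℝ) < Fintype.card Ω := by exact_mod_cast Fintype.card_pos
  have hL : 0 ≤ Real.log (1 / κ) := by
    apply Real.log_nonneg
    rw [le_div_iff₀ hκ]
    linarith
  have hst : s ≤ ϱ * s := by nlinarith
  have hpt : ∀ w, Real.log (nb X (ϱ * s) w) - Real.log (nb X s w) ≤
      2 * Real.log (1 / κ) * (1 - nb X s w / nb X (ϱ * s) w) +
        2 * κ * Real.log (1 / κ) * (nb X (ϱ * s) w / nb X s w) := by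
    intro w
    have a1 := one_le_nb X hs.le w
    have a2 := one_le_nb X (hs.le.trans hst) w
    have a3 := nb_mono X hst w
    have a4 : 0 < nb X s w / nb X (ϱ * s) w := by positivity
    have a5 : nb X s w / nb X (ϱ * s) w ≤ 1 := by
      rw [div_le_one (by positivity)]
      exact a3
    have a6 := log_ineq a4 a5 hκ hκ1
    rw [inv_div, Real.log_div (by positivity) (by positivity)] at a6
    exact a6
  calc ∑ w : Ω, (Real.log (nb X (ϱ * s) w) - Real.log (nb X s w))
      ≤ ∑ w : Ω, (2 * Real.log (1 / κ) * (1 - nb X s w / nb X (ϱ * s) w) +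
        2 * κ * Real.log (1 / κ) * (nb X (ϱ * s) w / nb X s w)) :=
        Finset.sum_le_sum fun w _ => hpt w
    _ = 2 * Real.log (1 / κ) * (Fintype.card Ω * Gs X ϱ s) +
        2 * κ * Real.log (1 / κ) * ∑ w : Ω, (nb X (ϱ * s) w / nb X s w) := by
        rw [Finset.sum_add_distrib, ← Finset.mul_sum, ← Finset.mul_sum]
        congr 2
        rw [Gs]
        field_simp
    _ ≤ 2 * Real.log (1 / κ) * (Fintype.card Ω * Gs X ϱ s) +
        2 * κ * Real.log (1 / κ) * (7 * Fintype.card Ω) := by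
        have := sum_ratio_le X hs (t := ϱ * s) (by nlinarith)
        gcongr
    _ = _ := by ring

lemma telescope (f : ℕ → ℝ) (hf : Monotone f) (r a b : ℕ) (hab : a + r ≤ b) :
    r * (f b - f (a + r)) ≤ ∑ p ∈ Finset.Ico a b, (f (p + r) - f p) := by
  have h1 : ∑ p ∈ Finset.Ico a b, f (p + r) = ∑ p ∈ Finset.Ico (a + r) (b + r), f p :=
    Finset.sum_Ico_add' f a b r
  have h2 : ∑ p ∈ Finset.Ico a b, f p = ∑ p ∈ Finset.Ico a (a + r), f p +
      ∑ p ∈ Finset.Ico (a + r) b, f p :=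
    (Finset.sum_Ico_consecutive f (Nat.le_add_right a r) hab).symm
  have h3 : ∑ p ∈ Finset.Ico (a + r) (b + r), f p = ∑ p ∈ Finset.Ico (a + r) b, f p +
      ∑ p ∈ Finset.Ico b (b + r), f p :=
    (Finset.sum_Ico_consecutive f hab (Nat.le_add_right b r)).symm
  have h4 : ∑ p ∈ Finset.Ico a (a + r), f p ≤ r * f (a + r) := by
    calc ∑ p ∈ Finset.Ico a (a + r), f p ≤ ∑ p ∈ Finset.Ico a (a + r), f (a + r) :=
          Finset.sum_le_sum fun p hp => hf (Finset.mem_Ico.1 hp).2.le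
      _ = r * f (a + r) := by simp
  have h5 : r * f b ≤ ∑ p ∈ Finset.Ico b (b + r), f p := by
    calc r * f b = ∑ p ∈ Finset.Ico b (b + r), f b := by simp
      _ ≤ _ := Finset.sum_le_sum fun p hp => hf (Finset.mem_Ico.1 hp).1
  rw [Finset.sum_sub_distrib, h1, h2, h3]
  linarith

end C3

open C3

/-- sum over scales `s_p = σ lam^{-p}`, `a ≤ p < b`; `ϱ = lam^{-r} ∈ [1,3]`. -/
theorem entropy_sum {Ω : Type} [Fintype Ω] [Nonempty Ω] (X : Ω → ℝ) {N : ℝ} (hN : 1 ≤ N)
    (hX : ∀ w, |X w| ≤ N) {lam σ δ h κ : ℝ} (h0 : 0 < lam) (h1 : lam < 1) (r a b : ℕ)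
    (hr : lam⁻¹ ^ r ≤ 3) (hσ : 0 < σ) (hab : a + r ≤ b)
    (hδ : σ * lam⁻¹ ^ (a + r) ≤ δ)
    (hJ : (∑ w : Ω, nb X δ w) / (Fintype.card Ω : ℝ) ^ 2 ≤ Real.exp (-h))
    (hκ : 0 < κ) (hκ1 : κ ≤ 1 / 4) :
    r * (h - Real.log (2 * N / (σ * lam⁻¹ ^ b) + 2)) -
        (b - a : ℝ) * (14 * κ * Real.log (1 / κ)) ≤
      2 * Real.log (1 / κ) * ∑ p ∈ Finset.Ico a b, Gs X (lam⁻¹ ^ r) (σ * lam⁻¹ ^ p) := by
  have hc : (0 : ℝ) < Fintype.card Ω := by exact_mod_cast Fintype.card_pos
  have hl : 1 ≤ lam⁻¹ := (one_le_inv₀ h0).2 h1.le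
  have hsp : ∀ p : ℕ, 0 < σ * lam⁻¹ ^ p := fun p => by positivity
  set f : ℕ → ℝ := fun p => ∑ w, Real.log (nb X (σ * lam⁻¹ ^ p) w) with hf
  have hfm : Monotone f := by
    intro p q hpq
    refine Finset.sum_le_sum fun w _ => ?_
    have a1 := one_le_nb X (hsp p).le w
    apply Real.log_le_log (by positivity)
    apply nb_mono
    gcongr
  -- upper bound at `a + r`
  have hup : f (a + r) ≤ Fintype.card Ω * (Real.log (Fintype.card Ω) - h) := by
    calc f (a + r) ≤ ∑ w, Real.log (nb X δ w) := by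
          refine Finset.sum_le_sum fun w _ => ?_
          have a1 := one_le_nb X (hsp (a + r)).le w
          exact Real.log_le_log (by positivity) (nb_mono X hδ w)
      _ ≤ Fintype.card Ω * Real.log ((∑ w, nb X δ w) / Fintype.card Ω) := by
          refine sum_log_le _ fun w => ?_
          have a1 := one_le_nb X ((hsp (a + r)).le.trans hδ) w
          positivity
      _ ≤ Fintype.card Ω * Real.log (Fintype.card Ω * Real.exp (-h)) := by
          have a2 : 0 < ∑ w, nb X δ w := by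
            refine Finset.sum_pos (fun w _ => ?_) Finset.univ_nonempty
            have a1 := one_le_nb X ((hsp (a + r)).le.trans hδ) w
            positivity
          have a3 : (∑ w, nb X δ w) / Fintype.card Ω ≤ Fintype.card Ω * Real.exp (-h) := by
            have a4 : (∑ w, nb X δ w) / Fintype.card Ω =
                Fintype.card Ω * ((∑ w : Ω, nb X δ w) / (Fintype.card Ω : ℝ) ^ 2) := by
              field_simp
            rw [a4]
            gcongr
          have a5 := Real.log_le_log (by positivity) a3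
          gcongr
      _ = Fintype.card Ω * (Real.log (Fintype.card Ω) - h) := by
          rw [Real.log_mul hc.ne' (Real.exp_pos _).ne', Real.log_exp]
          ring
  -- lower bound at `b`
  have hlow : Fintype.card Ω * (Real.log (Fintype.card Ω) -
      Real.log (2 * N / (σ * lam⁻¹ ^ b) + 2)) ≤ f b := by
    have b1 : ∑ w : Ω, Real.log (Fintype.card Ω * (nb X (σ * lam⁻¹ ^ b) w)⁻¹) ≤
        Fintype.card Ω * Real.log (2 * N / (σ * lam⁻¹ ^ b) + 2) := by
      refine (sum_log_le _ fun w => ?_).trans ?_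
      · have a1 := one_le_nb X (hsp b).le w
        positivity
      · have a2 : (∑ w : Ω, (Fintype.card Ω : ℝ) * (nb X (σ * lam⁻¹ ^ b) w)⁻¹) / Fintype.card Ω ≤
            2 * N / (σ * lam⁻¹ ^ b) + 2 := by
          rw [← Finset.mul_sum, mul_div_cancel_left₀ _ hc.ne']
          refine le_trans (Finset.sum_le_sum fun w _ => ?_)
            (sum_inv_cellN_le X (by linarith) (hsp b) hX)
          have a3 := one_le_cellN (fun w => ⌊X w / (σ * lam⁻¹ ^ b)⌋) w
          have a4 := cellN_le_nb X (hsp b) w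
          gcongr
        have a5 : 0 < (∑ w : Ω, (Fintype.card Ω : ℝ) * (nb X (σ * lam⁻¹ ^ b) w)⁻¹) /
            Fintype.card Ω := by
          refine div_pos (Finset.sum_pos (fun w _ => ?_) Finset.univ_nonempty) hc
          have a1 := one_le_nb X (hsp b).le w
          positivity
        have a6 := Real.log_le_log a5 a2
        gcongr
    have b2 : ∑ w : Ω, Real.log (Fintype.card Ω * (nb X (σ * lam⁻¹ ^ b) w)⁻¹) =
        Fintype.card Ω * Real.log (Fintype.card Ω) - f b := by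
      have : ∀ w : Ω, Real.log (Fintype.card Ω * (nb X (σ * lam⁻¹ ^ b) w)⁻¹) =
          Real.log (Fintype.card Ω) - Real.log (nb X (σ * lam⁻¹ ^ b) w) := by
        intro w
        have a1 := one_le_nb X (hsp b).le w
        rw [Real.log_mul hc.ne' (by positivity), Real.log_inv]
        ring
      simp only [this]
      rw [Finset.sum_sub_distrib]
      simp [hf]
    rw [b2] at b1
    linarith
  have htel := telescope f hfm r a b hab
  have hupp : ∑ p ∈ Finset.Ico a b, (f (p + r) - f p) ≤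
      ∑ p ∈ Finset.Ico a b, Fintype.card Ω * (2 * Real.log (1 / κ) *
        Gs X (lam⁻¹ ^ r) (σ * lam⁻¹ ^ p) + 14 * κ * Real.log (1 / κ)) := by
    refine Finset.sum_le_sum fun p _ => ?_
    have := sum_log_ratio_le X (hsp p) (one_le_pow₀ hl) hr hκ hκ1
    rw [Finset.sum_sub_distrib] at this
    have e : lam⁻¹ ^ r * (σ * lam⁻¹ ^ p) = σ * lam⁻¹ ^ (p + r) := by
      rw [pow_add]
      ring
    rw [e] at this
    exact this
  rw [← Finset.mul_sum, Finset.sum_add_distrib, ← Finset.mul_sum, Finset.sum_const,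
    Nat.card_Ico, nsmul_eq_mul, Nat.cast_sub (by omega : a ≤ b)] at hupp
  have hr0 : (0 : ℝ) ≤ r := Nat.cast_nonneg r
  have e1 : (r : ℝ) * (Fintype.card Ω * (h - Real.log (2 * N / (σ * lam⁻¹ ^ b) + 2))) ≤
      r * (f b - f (a + r)) := by
    apply mul_le_mul_of_nonneg_left _ hr0
    linarith
  have e2 : (Fintype.card Ω : ℝ) * (r * (h - Real.log (2 * N / (σ * lam⁻¹ ^ b) + 2))) ≤
      Fintype.card Ω * (2 * Real.log (1 / κ) *
        ∑ p ∈ Finset.Ico a b, Gs X (lam⁻¹ ^ r) (σ * lam⁻¹ ^ p) +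
        ((b : ℝ) - a) * (14 * κ * Real.log (1 / κ))) := by
    linarith
  have e3 := le_of_mul_le_mul_left e2 hc
  linarith

end Pool.Agent.BCD
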