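import Pool.Agent.Work.MP_bc8e1e_an.D.C3b

/-!
# Bernoulli convolutions near 1: collision probabilities and cosine products (module C3)
-/

set_option autoImplicit false

open MeasureTheory ProbabilityTheory Polynomial

namespace Pool.Agent.BCD

namespace C3

lemma sum_cexp (lam θ : ℝ) (m : ℕ) :
    ∑ w : Fin m → Bool, Complex.exp ((θ * Xs lam m w : ℝ) * Complex.I) =
      ((∏ j ∈ Finset.range m, (2 * Real.cos (θ * lam ^ j)) : ℝ) : ℂ) := by
  have h1 : ∀ w : Fin m → Bool, Complex.exp ((θ * Xs lam m w : ℝ) * Complex.I) =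
      ∏ j : Fin m, Complex.exp ((θ * ((if w j then (1 : ℝ) else -1) * lam ^ (j : ℕ)) : ℝ) *
        Complex.I) := by
    intro w
    rw [← Complex.exp_sum, Xs, Finset.mul_sum, Complex.ofReal_sum, Finset.sum_mul]
  simp only [h1]
  have h2 := Finset.prod_univ_sum (fun _ : Fin m => (Finset.univ : Finset Bool))
    (fun (j : Fin m) (b : Bool) =>
      Complex.exp ((θ * ((if b then (1 : ℝ) else -1) * lam ^ (j : ℕ)) : ℝ) * Complex.I))
  rw [Fintype.piFinset_univ] at h2
  rw [← h2, Finset.prod_range, Complex.ofReal_prod]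
  refine Finset.prod_congr rfl fun j _ => ?_
  rw [Fintype.sum_bool]
  simp only [if_true, Bool.false_eq_true, if_false]
  rw [Complex.ofReal_mul 2, Complex.ofReal_cos, Complex.ofReal_ofNat, Complex.two_cos]
  congr 2
  · push_cast
    ring
  · push_cast
    ring

lemma sum_sum_cos (lam θ : ℝ) (m : ℕ) :
    ∑ w : Fin m → Bool, ∑ w' : Fin m → Bool, Real.cos (θ * (Xs lam m w - Xs lam m w')) =
      4 ^ m * ∏ j ∈ Finset.range m, Real.cos (θ * lam ^ j) ^ 2 := by
  have h := sum_cexp lam θ m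
  have hre : ∑ w : Fin m → Bool, Real.cos (θ * Xs lam m w) =
      ∏ j ∈ Finset.range m, (2 * Real.cos (θ * lam ^ j)) := by
    have h1 := congrArg Complex.re h
    rw [Complex.re_sum, Complex.ofReal_re] at h1
    rw [← h1]
    exact Finset.sum_congr rfl fun w _ => (Complex.exp_ofReal_mul_I_re _).symm
  have him : ∑ w : Fin m → Bool, Real.sin (θ * Xs lam m w) = 0 := by
    have h1 := congrArg Complex.im h
    rw [Complex.im_sum, Complex.ofReal_im] at h1
    rw [← h1]
    exact Finset.sum_congr rfl fun w _ => (Complex.exp_ofReal_mul_I_im _).symm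
  have h2 : ∑ w : Fin m → Bool, ∑ w' : Fin m → Bool,
      Real.cos (θ * (Xs lam m w - Xs lam m w')) =
      (∑ w : Fin m → Bool, Real.cos (θ * Xs lam m w)) ^ 2 +
      (∑ w : Fin m → Bool, Real.sin (θ * Xs lam m w)) ^ 2 := by
    rw [sq, sq, Finset.sum_mul_sum, Finset.sum_mul_sum, ← Finset.sum_add_distrib]
    refine Finset.sum_congr rfl fun w _ => ?_
    rw [← Finset.sum_add_distrib]
    refine Finset.sum_congr rfl fun w' _ => ?_
    rw [mul_sub, Real.cos_sub]
  rw [h2, hre, him, Finset.prod_mul_distrib, Finset.prod_const, Finset.card_range, mul_pow,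
    ← Finset.prod_pow, ← pow_mul, mul_comm m 2, pow_mul]
  norm_num

lemma gauss_cos {a : ℝ} (ha : 0 < a) (D : ℝ) :
    Integrable (fun t : ℝ => a * Real.exp (-(Real.pi * a ^ 2 * t ^ 2)) *
      Real.cos (Real.pi * t * D)) ∧
    ∫ t : ℝ, a * Real.exp (-(Real.pi * a ^ 2 * t ^ 2)) * Real.cos (Real.pi * t * D) =
      Real.exp (-(Real.pi * D ^ 2 / (4 * a ^ 2))) := by
  have hb : 0 < Real.pi * a ^ 2 := by positivity
  have hb' : 0 < ((Real.pi * a ^ 2 : ℝ) : ℂ).re := by
    rw [Complex.ofReal_re]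
    exact hb
  have hfour := fourierIntegral_gaussian hb' ((Real.pi * D : ℝ) : ℂ)
  have hint : Integrable (fun t : ℝ => Real.exp (-(Real.pi * a ^ 2) * t ^ 2)) :=
    integrable_exp_neg_mul_sq hb
  have hcint : Integrable (fun x : ℝ => Complex.exp (Complex.I * ((Real.pi * D : ℝ) : ℂ) * x) *
      Complex.exp (-((Real.pi * a ^ 2 : ℝ) : ℂ) * x ^ 2)) := by
    refine ((hint.ofReal (𝕜 := ℂ)).bdd_mul (c := 1)
      (f := fun x : ℝ => Complex.exp (Complex.I * ((Real.pi * D : ℝ) : ℂ) * x)) ?_ ?_).congr ?_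
    · exact Continuous.aestronglyMeasurable (by fun_prop)
    · refine Filter.Eventually.of_forall fun x => ?_
      have : Complex.I * ((Real.pi * D : ℝ) : ℂ) * x = ((Real.pi * D * x : ℝ) : ℂ) * Complex.I := by
        push_cast
        ring
      rw [this, Complex.norm_exp_ofReal_mul_I]
    · refine Filter.Eventually.of_forall fun x => ?_
      have e : Complex.exp (-((Real.pi * a ^ 2 : ℝ) : ℂ) * x ^ 2) =
          ((Real.exp (-(Real.pi * a ^ 2) * x ^ 2) : ℝ) : ℂ) := by
        rw [Complex.ofReal_exp]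
        push_cast
        ring_nf
      simp only [e]
      rfl
  have hre : ∀ x : ℝ, (Complex.exp (Complex.I * ((Real.pi * D : ℝ) : ℂ) * x) *
      Complex.exp (-((Real.pi * a ^ 2 : ℝ) : ℂ) * x ^ 2)).re =
      Real.exp (-(Real.pi * a ^ 2 * x ^ 2)) * Real.cos (Real.pi * x * D) := by
    intro x
    have e1 : Complex.I * ((Real.pi * D : ℝ) : ℂ) * x =
        ((Real.pi * x * D : ℝ) : ℂ) * Complex.I := by
      push_cast
      ring
    have e2 : -((Real.pi * a ^ 2 : ℝ) : ℂ) * x ^ 2 = ((-(Real.pi * a ^ 2 * x ^ 2) : ℝ) : ℂ) := by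
      push_cast
      ring
    rw [e1, e2, ← Complex.ofReal_exp, Complex.re_mul_ofReal, Complex.exp_ofReal_mul_I_re, mul_comm]
  have hint2 : Integrable (fun x : ℝ =>
      Real.exp (-(Real.pi * a ^ 2 * x ^ 2)) * Real.cos (Real.pi * x * D)) := by
    have := hcint.re
    refine this.congr (Filter.Eventually.of_forall fun x => ?_)
    exact hre x
  have hval : ∫ x : ℝ, Real.exp (-(Real.pi * a ^ 2 * x ^ 2)) * Real.cos (Real.pi * x * D) =
      a⁻¹ * Real.exp (-(Real.pi * D ^ 2 / (4 * a ^ 2))) := by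
    have h1 := integral_re hcint
    rw [hfour] at h1
    have h2 : ((Real.pi : ℂ) / ((Real.pi * a ^ 2 : ℝ) : ℂ)) ^ (1 / 2 : ℂ) = ((a⁻¹ : ℝ) : ℂ) := by
      have e1 : ((Real.pi : ℂ) / ((Real.pi * a ^ 2 : ℝ) : ℂ)) = ((a⁻¹ ^ 2 : ℝ) : ℂ) := by
        rw [← Complex.ofReal_div]
        congr 1
        field_simp
      have e2 : (1 / 2 : ℂ) = ((1 / 2 : ℝ) : ℂ) := by push_cast; rfl
      rw [e1, e2, ← Complex.ofReal_cpow (by positivity), ← Real.sqrt_eq_rpow,
        Real.sqrt_sq (by positivity)]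
    have h3 : (-((Real.pi * D : ℝ) : ℂ) ^ 2 / (4 * ((Real.pi * a ^ 2 : ℝ) : ℂ))) =
        ((-(Real.pi * D ^ 2 / (4 * a ^ 2)) : ℝ) : ℂ) := by
      have : -(Real.pi * D ^ 2 / (4 * a ^ 2)) = -(Real.pi * D) ^ 2 / (4 * (Real.pi * a ^ 2)) := by
        have := Real.pi_pos
        field_simp
      rw [this]
      push_cast
      rfl
    rw [h2, h3, ← Complex.ofReal_exp, ← Complex.ofReal_mul] at h1
    have h4 : ∫ x : ℝ, Real.exp (-(Real.pi * a ^ 2 * x ^ 2)) * Real.cos (Real.pi * x * D) =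
        ∫ x : ℝ, RCLike.re (Complex.exp (Complex.I * ((Real.pi * D : ℝ) : ℂ) * x) *
      Complex.exp (-((Real.pi * a ^ 2 : ℝ) : ℂ) * x ^ 2)) :=
      integral_congr_ae (Filter.Eventually.of_forall fun x => (hre x).symm)
    rw [h4, h1]
    exact Complex.ofReal_re _
  constructor
  · refine (hint2.const_mul a).congr (Filter.Eventually.of_forall fun x => ?_)
    simp only
    ring
  · have : ∀ t : ℝ, a * Real.exp (-(Real.pi * a ^ 2 * t ^ 2)) * Real.cos (Real.pi * t * D) =
        a * (Real.exp (-(Real.pi * a ^ 2 * t ^ 2)) * Real.cos (Real.pi * t * D)) :=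
      fun t => by ring
    simp only [this]
    rw [integral_const_mul, hval, ← mul_assoc, mul_inv_cancel₀ ha.ne', one_mul]

lemma Ic_eq (lam : ℝ) (m : ℕ) {a : ℝ} (ha : 0 < a) :
    Ic lam m a = (∑ w : Fin m → Bool, ∑ w' : Fin m → Bool,
      Real.exp (-(Real.pi * (Xs lam m w - Xs lam m w') ^ 2 / (4 * a ^ 2)))) / 4 ^ m := by
  unfold Ic
  have h1 : ∀ t : ℝ, a * Real.exp (-(Real.pi * a ^ 2 * t ^ 2)) *
      ∏ j ∈ Finset.range m, Real.cos (Real.pi * lam ^ j * t) ^ 2 =
      (∑ w : Fin m → Bool, ∑ w' : Fin m → Bool, a * Real.exp (-(Real.pi * a ^ 2 * t ^ 2)) *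
        Real.cos (Real.pi * t * (Xs lam m w - Xs lam m w'))) / 4 ^ m := by
    intro t
    have h2 := sum_sum_cos lam (Real.pi * t) m
    simp only [← Finset.mul_sum]
    rw [h2]
    have h3 : ∀ j ∈ Finset.range m, Real.cos (Real.pi * lam ^ j * t) ^ 2 =
        Real.cos (Real.pi * t * lam ^ j) ^ 2 := fun j _ => by
      rw [show Real.pi * lam ^ j * t = Real.pi * t * lam ^ j by ring]
    rw [Finset.prod_congr rfl h3]
    field_simp
  simp only [h1]
  rw [integral_div, integral_finsetSum]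
  · congr 1
    refine Finset.sum_congr rfl fun w _ => ?_
    rw [integral_finsetSum]
    · exact Finset.sum_congr rfl fun w' _ => (gauss_cos ha _).2
    · exact fun w' _ => (gauss_cos ha _).1
  · exact fun w _ => integrable_finsetSum _ fun w' _ => (gauss_cos ha _).1

end C3

open C3

theorem Jc_eq (lam : ℝ) (m : ℕ) (δ : ℝ) :
    Jc lam m δ = (∑ w, nb (Xs lam m) δ w) / (Fintype.card (Fin m → Bool) : ℝ) ^ 2 := by
  unfold Jc nb
  congr 1
  rw [Fintype.card_fun, Fintype.card_bool, Fintype.card_fin]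
  push_cast
  rw [← pow_mul, mul_comm m 2, pow_mul]
  norm_num

theorem Jc_le_Ic {lam : ℝ} (m : ℕ) {a : ℝ} (ha : 0 < a) :
    Jc lam m a ≤ Real.exp (Real.pi / 4) * Ic lam m a := by
  rw [Ic_eq lam m ha, Jc, ← mul_div_assoc]
  refine div_le_div_of_nonneg_right ?_ (by positivity)
  rw [Finset.mul_sum]
  refine Finset.sum_le_sum fun w _ => ?_
  rw [Finset.mul_sum]
  refine Finset.sum_le_sum fun w' _ => ?_
  rw [← Real.exp_add]
  by_cases h : |Xs lam m w - Xs lam m w'| ≤ a
  · rw [if_pos h]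
    apply Real.one_le_exp
    have h1 : (Xs lam m w - Xs lam m w') ^ 2 ≤ a ^ 2 := by
      rw [← sq_abs]
      gcongr
    have h2 : Real.pi * (Xs lam m w - Xs lam m w') ^ 2 / (4 * a ^ 2) ≤ Real.pi / 4 := by
      rw [div_le_div_iff₀ (by positivity) (by norm_num)]
      have := mul_le_mul_of_nonneg_left h1 Real.pi_pos.le
      linarith
    linarith
  · rw [if_neg h]
    positivity

end Pool.Agent.BCD
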