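import Pool.Agent.Work.MP_bc8e1e_an.D.Defs

/-!
# Module C4a: the block decomposition of a Bernoulli convolution
-/

set_option autoImplicit false

open MeasureTheory ProbabilityTheory Polynomial
open scoped RealInnerProductSpace

namespace Pool.Agent.BCD

namespace C4a

/-- sign of a Boolean -/
noncomputable def sg (e : Bool) : ℝ := if e then 1 else -1

lemma Xs_eq (lam : ℝ) (m : ℕ) (w : Fin m → Bool) :
    Xs lam m w = ∑ j : Fin m, sg (w j) * lam ^ (j : ℕ) := rfl

lemma integrable_bc (μ : Measure ℝ) [IsFiniteMeasure μ] {g : ℝ → ℝ} (hg : Continuous g) {B : ℝ}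
    (hB : ∀ x, |g x| ≤ B) : Integrable g μ := by
  refine (integrable_const B).mono' hg.aestronglyMeasurable ?_
  exact Filter.Eventually.of_forall fun x => by simpa using hB x

lemma one_step {lam : ℝ} (μ : Measure ℝ) [IsProbabilityMeasure μ]
    (hμ : μ = (1/2 : ENNReal) • μ.map (fun x : ℝ => lam * x + 1)
            + (1/2 : ENNReal) • μ.map (fun x : ℝ => lam * x - 1))
    {g : ℝ → ℝ} (hg : Continuous g) {B : ℝ} (hB : ∀ x, |g x| ≤ B) :
    ∫ y, g y ∂μ = (2 : ℝ)⁻¹ * ∑ e : Bool, ∫ y, g (lam * y + sg e) ∂μ := by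
  have hc1 : Continuous fun x : ℝ => lam * x + 1 := by fun_prop
  have hc2 : Continuous fun x : ℝ => lam * x - 1 := by fun_prop
  have hp1 : IsProbabilityMeasure (μ.map fun x : ℝ => lam * x + 1) :=
    Measure.isProbabilityMeasure_map hc1.aemeasurable
  have hp2 : IsProbabilityMeasure (μ.map fun x : ℝ => lam * x - 1) :=
    Measure.isProbabilityMeasure_map hc2.aemeasurable
  have h1 : ∫ y, g y ∂μ = ∫ y, g y ∂((1/2 : ENNReal) • μ.map (fun x : ℝ => lam * x + 1)
            + (1/2 : ENNReal) • μ.map (fun x : ℝ => lam * x - 1)) := by rw [← hμ]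
  rw [h1, integral_add_measure, integral_smul_measure, integral_smul_measure,
    integral_map hc1.aemeasurable hg.aestronglyMeasurable,
    integral_map hc2.aemeasurable hg.aestronglyMeasurable]
  · simp [sg, sub_eq_add_neg]
    ring
  · exact (integrable_bc _ hg hB).smul_measure (by simp)
  · exact (integrable_bc _ hg hB).smul_measure (by simp)

lemma iter {lam : ℝ} (μ : Measure ℝ) [IsProbabilityMeasure μ]
    (hμ : μ = (1/2 : ENNReal) • μ.map (fun x : ℝ => lam * x + 1)
            + (1/2 : ENNReal) • μ.map (fun x : ℝ => lam * x - 1))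
    {g : ℝ → ℝ} (hg : Continuous g) {B : ℝ} (hB : ∀ x, |g x| ≤ B) (K : ℕ) :
    ∫ y, g y ∂μ = ((2 : ℝ) ^ K)⁻¹ * ∑ w : Fin K → Bool, ∫ y, g (Xs lam K w + lam ^ K * y) ∂μ := by
  induction K with
  | zero => simp [Xs]
  | succ K ih =>
    rw [ih]
    have h1 : ∀ w : Fin K → Bool, ∫ y, g (Xs lam K w + lam ^ K * y) ∂μ
        = (2 : ℝ)⁻¹ * ∑ e : Bool, ∫ y, g (Xs lam K w + lam ^ K * (lam * y + sg e)) ∂μ := by
      intro w
      exact one_step μ hμ (g := fun y => g (Xs lam K w + lam ^ K * y))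
        (hg.comp (by fun_prop)) (fun x => hB _)
    simp only [h1]
    rw [← Finset.mul_sum, ← mul_assoc]
    congr 1
    · rw [pow_succ, mul_inv]
    · rw [← (Fin.snocEquiv (fun _ : Fin (K + 1) => Bool)).sum_comp, Fintype.sum_prod_type,
        Finset.sum_comm]
      refine Finset.sum_congr rfl fun e _ => Finset.sum_congr rfl fun w _ => ?_
      have h2 : Xs lam (K + 1) ((Fin.snocEquiv fun _ : Fin (K + 1) => Bool) (e, w))
          = Xs lam K w + sg e * lam ^ K := by
        simp only [Xs_eq, Fin.sum_univ_castSucc, Fin.snocEquiv]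
        simp
      rw [h2]
      congr 1
      funext y
      congr 1
      ring

section Ov

variable {ι : Type} [Fintype ι] {pos len : ι → ℕ} {K : ℕ}

open Classical in
/-- overwrite the coordinates of `w` in the blocks by `ω` -/
noncomputable def ov (pos len : ι → ℕ) (w : Fin K → Bool) (ω : ∀ b, Fin (len b) → Bool) :
    Fin K → Bool := fun j =>
  if h : ∃ b, pos b ≤ (j : ℕ) ∧ (j : ℕ) < pos b + len b then
    ω h.choose ⟨(j : ℕ) - pos h.choose, by have := h.choose_spec; omega⟩
  else w j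

/-- restriction to the blocks -/
def rs (hK : ∀ b, pos b + len b ≤ K) (w : Fin K → Bool) : ∀ b, Fin (len b) → Bool :=
  fun b i => w ⟨pos b + i, by have := hK b; omega⟩

lemma ov_mem (hdisj : ∀ b b', b ≠ b' → Disjoint (Finset.Ico (pos b) (pos b + len b))
      (Finset.Ico (pos b') (pos b' + len b'))) (w : Fin K → Bool)
    (ω : ∀ b, Fin (len b) → Bool) (b : ι) (i : Fin (len b)) (h : pos b + i < K) :
    ov pos len w ω ⟨pos b + i, h⟩ = ω b i := by
  have hex : ∃ b', pos b' ≤ pos b + (i : ℕ) ∧ pos b + (i : ℕ) < pos b' + len b' :=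
    ⟨b, by omega, by omega⟩
  have key : ∀ (b' : ι) (h1 : pos b' ≤ pos b + (i : ℕ)) (h2 : pos b + (i : ℕ) < pos b' + len b'),
      ω b' ⟨pos b + (i : ℕ) - pos b', by omega⟩ = ω b i := by
    intro b' h1 h2
    have hb : b' = b := by
      by_contra hne
      exact Finset.disjoint_left.1 (hdisj b' b hne) (Finset.mem_Ico.2 ⟨h1, h2⟩)
        (Finset.mem_Ico.2 ⟨by omega, by omega⟩)
    subst hb
    congr 1
    ext
    simp
  unfold ov
  rw [dif_pos hex]
  exact key _ hex.choose_spec.1 hex.choose_spec.2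

lemma ov_not_mem (w : Fin K → Bool) (ω : ∀ b, Fin (len b) → Bool) (j : Fin K)
    (h : ¬ ∃ b, pos b ≤ (j : ℕ) ∧ (j : ℕ) < pos b + len b) :
    ov pos len w ω j = w j := by
  unfold ov
  rw [dif_neg h]

lemma rs_ov (hdisj : ∀ b b', b ≠ b' → Disjoint (Finset.Ico (pos b) (pos b + len b))
      (Finset.Ico (pos b') (pos b' + len b'))) (hK : ∀ b, pos b + len b ≤ K)
    (w : Fin K → Bool) (ω : ∀ b, Fin (len b) → Bool) :
    rs hK (ov pos len w ω) = ω := by
  funext b i
  exact ov_mem hdisj w ω b i _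

lemma ov_ov (hdisj : ∀ b b', b ≠ b' → Disjoint (Finset.Ico (pos b) (pos b + len b))
      (Finset.Ico (pos b') (pos b' + len b'))) (hK : ∀ b, pos b + len b ≤ K)
    (w : Fin K → Bool) (ω : ∀ b, Fin (len b) → Bool) :
    ov pos len (ov pos len w ω) (rs hK w) = w := by
  funext j
  by_cases h : ∃ b, pos b ≤ (j : ℕ) ∧ (j : ℕ) < pos b + len b
  · obtain ⟨b, h1, h2⟩ := h
    have hj : j = ⟨pos b + ((⟨(j : ℕ) - pos b, by omega⟩ : Fin (len b)) : ℕ), by
        have := j.2; simp only; omega⟩ := by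
      ext; simp only; omega
    rw [hj, ov_mem hdisj]
    rfl
  · rw [ov_not_mem _ _ _ h, ov_not_mem _ _ _ h]

/-- the swap -/
noncomputable def sw (pos len : ι → ℕ) (hK : ∀ b, pos b + len b ≤ K)
    (p : (Fin K → Bool) × (∀ b, Fin (len b) → Bool)) :
    (Fin K → Bool) × (∀ b, Fin (len b) → Bool) := (ov pos len p.1 p.2, rs hK p.1)

lemma sw_inv (hdisj : ∀ b b', b ≠ b' → Disjoint (Finset.Ico (pos b) (pos b + len b))
      (Finset.Ico (pos b') (pos b' + len b'))) (hK : ∀ b, pos b + len b ≤ K) :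
    Function.Involutive (sw pos len hK) := by
  rintro ⟨w, ω⟩
  simp only [sw]
  rw [ov_ov hdisj hK, rs_ov hdisj hK]

open Classical in
/-- the part of the sum outside of the blocks -/
noncomputable def rest (pos len : ι → ℕ) (lam : ℝ) (w : Fin K → Bool) : ℝ :=
  ∑ j ∈ Finset.univ.filter (fun j : Fin K => ¬ ∃ b, pos b ≤ (j : ℕ) ∧ (j : ℕ) < pos b + len b),
    sg (w j) * lam ^ (j : ℕ)

lemma Xs_ov (hdisj : ∀ b b', b ≠ b' → Disjoint (Finset.Ico (pos b) (pos b + len b))
      (Finset.Ico (pos b') (pos b' + len b'))) (hK : ∀ b, pos b + len b ≤ K) (lam : ℝ)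
    (w : Fin K → Bool) (ω : ∀ b, Fin (len b) → Bool) :
    Xs lam K (ov pos len w ω) = rest pos len lam w + ∑ b, lam ^ pos b * Xs lam (len b) (ω b) := by
  classical
  rw [Xs_eq, ← Finset.sum_filter_not_add_sum_filter Finset.univ
    (fun j : Fin K => ∃ b, pos b ≤ (j : ℕ) ∧ (j : ℕ) < pos b + len b)]
  congr 1
  · unfold rest
    refine Finset.sum_congr (by congr) fun j hj => ?_
    rw [ov_not_mem]
    exact (Finset.mem_filter.1 hj).2
  · let e : (Σ b, Fin (len b)) → Fin K := fun p => ⟨pos p.1 + p.2, by have := hK p.1; omega⟩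
    have he : Function.Injective e := by
      rintro ⟨b, i⟩ ⟨b', i'⟩ h
      have h1 : pos b + (i : ℕ) = pos b' + (i' : ℕ) := congrArg Fin.val h
      have hb : b = b' := by
        by_contra hne
        have h3 : pos b + (i : ℕ) ∈ Finset.Ico (pos b) (pos b + len b) :=
          Finset.mem_Ico.2 ⟨by omega, by omega⟩
        exact Finset.disjoint_left.1 (hdisj b b' hne) h3
          (Finset.mem_Ico.2 ⟨by omega, by omega⟩)
      subst hb
      have : i = i' := by ext; omega
      rw [this]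
    have h1 : Finset.univ.filter (fun j : Fin K => ∃ b, pos b ≤ (j : ℕ) ∧ (j : ℕ) < pos b + len b)
        = Finset.univ.image e := by
      ext j
      simp only [Finset.mem_filter, Finset.mem_univ, true_and, Finset.mem_image]
      constructor
      · rintro ⟨b, h1, h2⟩
        exact ⟨⟨b, ⟨(j : ℕ) - pos b, by omega⟩⟩, by ext; simp [e]; omega⟩
      · rintro ⟨⟨b, i⟩, rfl⟩
        exact ⟨b, by simp [e], by simp [e]⟩
    rw [h1, Finset.sum_image he.injOn, Fintype.sum_sigma]
    refine Finset.sum_congr rfl fun b _ => ?_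
    rw [Xs_eq, Finset.mul_sum]
    refine Finset.sum_congr rfl fun i _ => ?_
    have h2 : ov pos len w ω (e ⟨b, i⟩) = ω b i := ov_mem hdisj w ω b i _
    rw [h2]
    simp only [e]
    rw [pow_add]
    ring

lemma sum_ov [DecidableEq ι]
    (hdisj : ∀ b b', b ≠ b' → Disjoint (Finset.Ico (pos b) (pos b + len b))
      (Finset.Ico (pos b') (pos b' + len b'))) (hK : ∀ b, pos b + len b ≤ K)
    (G : (Fin K → Bool) → ℝ) :
    ∑ w : Fin K → Bool, ∑ ω : (∀ b, Fin (len b) → Bool), G (ov pos len w ω) =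
      (∏ b, (2 : ℝ) ^ len b) * ∑ w : Fin K → Bool, G w := by
  rw [← Fintype.sum_prod_type' (f := fun w ω => G (ov pos len w ω))]
  have h1 := Equiv.sum_comp ((sw_inv hdisj hK).toPerm _)
    (fun p : (Fin K → Bool) × (∀ b, Fin (len b) → Bool) => G p.1)
  simp only [Function.Involutive.coe_toPerm, sw] at h1
  rw [h1, Fintype.sum_prod_type]
  simp [Finset.mul_sum, Fintype.card_pi]

end Ov

end C4a

open C4a in
theorem decomp {lam : ℝ} (h0 : 0 < lam) (h1 : lam < 1) (μ : Measure ℝ)
    [IsProbabilityMeasure μ]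
    (hμ : μ = (1/2 : ENNReal) • μ.map (fun x : ℝ => lam * x + 1)
            + (1/2 : ENNReal) • μ.map (fun x : ℝ => lam * x - 1))
    (ι : Type) [Fintype ι] [DecidableEq ι] (pos len : ι → ℕ)
    (hdisj : ∀ b b', b ≠ b' → Disjoint (Finset.Ico (pos b) (pos b + len b))
      (Finset.Ico (pos b') (pos b' + len b'))) :
    ∃ β : Measure ℝ, IsProbabilityMeasure β ∧ ∀ g : ℝ → ℝ, Continuous g →
      (∃ B, ∀ x, |g x| ≤ B) → ∀ x, ∫ y, g (x - y) ∂μ =
        ∫ y, (∑ ω : (∀ b, Fin (len b) → Bool), (∏ b, ((2 : ℝ) ^ len b)⁻¹) *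
          g (x - y - ∑ b, lam ^ pos b * Xs lam (len b) (ω b))) ∂β := by
  set K : ℕ := ∑ b, (pos b + len b) with hKdef
  have hK : ∀ b, pos b + len b ≤ K := fun b =>
    Finset.single_le_sum (f := fun b => pos b + len b) (fun _ _ => Nat.zero_le _)
      (Finset.mem_univ b)
  let φ : (Fin K → Bool) → ℝ → ℝ := fun w y => rest pos len lam w + lam ^ K * y
  have hφ : ∀ w, Continuous (φ w) := fun w => by fun_prop
  have hφp : ∀ w, IsProbabilityMeasure (μ.map (φ w)) := fun w =>
    Measure.isProbabilityMeasure_map (hφ w).aemeasurable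
  let β : Measure ℝ := ∑ w : Fin K → Bool, ((2 : ENNReal) ^ K)⁻¹ • μ.map (φ w)
  have hβ : ∀ h : ℝ → ℝ, Continuous h → (∃ B, ∀ x, |h x| ≤ B) →
      ∫ y, h y ∂β = ((2 : ℝ) ^ K)⁻¹ * ∑ w : Fin K → Bool, ∫ y, h (φ w y) ∂μ := by
    intro h hc ⟨B, hB⟩
    have h3 : ∫ y, h y ∂β = ∑ w : Fin K → Bool, ∫ y, h y ∂(((2 : ENNReal) ^ K)⁻¹ • μ.map (φ w)) := by
      refine integral_finsetSum_measure fun w _ => ?_
      exact (integrable_bc _ hc hB).smul_measure (by simp)
    rw [h3, Finset.mul_sum]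
    refine Finset.sum_congr rfl fun w _ => ?_
    rw [integral_smul_measure, integral_map (hφ w).aemeasurable hc.aestronglyMeasurable]
    simp
  refine ⟨β, ⟨?_⟩, ?_⟩
  · simp only [β, Measure.coe_finsetSum, Finset.sum_apply, Measure.smul_apply, smul_eq_mul]
    have h3 : ∀ w, (μ.map (φ w)) Set.univ = 1 := fun w => (hφp w).measure_univ
    simp only [h3, mul_one, Finset.sum_const, Finset.card_univ, Fintype.card_fun,
      Fintype.card_bool, Fintype.card_fin, nsmul_eq_mul, Nat.cast_pow, Nat.cast_ofNat]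
    exact ENNReal.mul_inv_cancel (by positivity) (by finiteness)
  · intro g hg ⟨B, hB⟩ x
    have h3 : ∫ y, g (x - y) ∂μ = ((2 : ℝ) ^ K)⁻¹ * ∑ w : Fin K → Bool,
        ∫ y, g (x - (Xs lam K w + lam ^ K * y)) ∂μ :=
      iter μ hμ (g := fun y => g (x - y)) (hg.comp (by fun_prop)) (fun y => hB _) K
    rw [h3, hβ]
    · congr 1
      have h4 : ∀ w : Fin K → Bool, ∫ y, (∑ ω : (∀ b, Fin (len b) → Bool),
          (∏ b, ((2 : ℝ) ^ len b)⁻¹) *
          g (x - φ w y - ∑ b, lam ^ pos b * Xs lam (len b) (ω b))) ∂μ =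
          (∏ b, ((2 : ℝ) ^ len b)⁻¹) * ∑ ω : (∀ b, Fin (len b) → Bool),
            ∫ y, g (x - (Xs lam K (ov pos len w ω) + lam ^ K * y)) ∂μ := by
        intro w
        rw [integral_finsetSum]
        · rw [Finset.mul_sum]
          refine Finset.sum_congr rfl fun ω _ => ?_
          rw [integral_const_mul]
          congr 1
          refine integral_congr_ae (Filter.Eventually.of_forall fun y => ?_)
          simp only [φ]
          rw [Xs_ov hdisj hK]
          congr 1
          ring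
        · intro ω _
          refine (integrable_bc μ (g := fun y => g (x - φ w y - ∑ b, lam ^ pos b * Xs lam (len b) (ω b)))
            (hg.comp ?_) (fun y => hB _)).const_mul _
          exact (continuous_const.sub (hφ w)).sub continuous_const
      simp only [h4]
      rw [← Finset.mul_sum, sum_ov hdisj hK
        (G := fun w => ∫ y, g (x - (Xs lam K w + lam ^ K * y)) ∂μ), ← mul_assoc,
        ← Finset.prod_mul_distrib]
      simp
    · refine continuous_finsetSum _ fun ω _ => continuous_const.mul (hg.comp ?_)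
      fun_prop
    · refine ⟨∑ ω : (∀ b, Fin (len b) → Bool), |∏ b, ((2 : ℝ) ^ len b)⁻¹| * B, fun y => ?_⟩
      refine (Finset.abs_sum_le_sum_abs _ _).trans (Finset.sum_le_sum fun ω _ => ?_)
      rw [abs_mul]
      exact mul_le_mul_of_nonneg_left (hB _) (abs_nonneg _)

end Pool.Agent.BCD
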