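import Pool.Agent.Work.MP_bc8e1e_an.D.C3

set_option autoImplicit false

open MeasureTheory Filter

namespace Pool.Agent.BCD

namespace C4b

lemma Xs_abs_le {lam : ℝ} (h0 : 0 < lam) (h1 : lam < 1) (m : ℕ) (w : Fin m → Bool) :
    |Xs lam m w| ≤ 1 / (1 - lam) := by
  unfold Xs
  calc |∑ j : Fin m, (if w j then (1 : ℝ) else -1) * lam ^ (j : ℕ)|
      ≤ ∑ j : Fin m, |(if w j then (1 : ℝ) else -1) * lam ^ (j : ℕ)| :=
        Finset.abs_sum_le_sum_abs _ _
    _ = ∑ j : Fin m, lam ^ (j : ℕ) := by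
        refine Finset.sum_congr rfl fun j _ => ?_
        rw [abs_mul, abs_of_pos (pow_pos h0 _)]
        split_ifs <;> simp
    _ = ∑ j ∈ Finset.range m, lam ^ j := Fin.sum_univ_eq_sum_range (fun j => lam ^ j) m
    _ ≤ 1 / (1 - lam) := by
        rw [geom_sum_eq h1.ne, ← neg_div_neg_eq, neg_sub, neg_sub]
        apply div_le_div_of_nonneg_right _ (by linarith)
        linarith [pow_pos h0 m]

/-- `x log (1/x) ≤ √x`. -/
lemma mul_log_le {x : ℝ} (hx : 0 < x) : x ^ 2 * Real.log (1 / x ^ 2) ≤ x := by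
  have h1 : Real.log (1 / x ^ 2) = 2 * Real.log (1 / x) := by
    rw [show (1 : ℝ) / x ^ 2 = (1 / x) ^ 2 by rw [div_pow, one_pow], Real.log_pow]
    push_cast; ring
  have h2 : Real.log (1 / x) ≤ (1 / x) / Real.exp 1 := by
    have := Real.add_one_le_exp (Real.log (1 / x) - 1)
    rw [sub_add_cancel, Real.exp_sub, Real.exp_log (by positivity)] at this
    exact this
  have h3 : (2 : ℝ) ≤ Real.exp 1 := by
    have := Real.add_one_le_exp (1 : ℝ)
    linarith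
  rw [h1]
  have h4 : Real.log (1 / x) ≤ 1 / x / 2 := h2.trans (by
    apply div_le_div_of_nonneg_left (by positivity) (by norm_num) h3)
  calc x ^ 2 * (2 * Real.log (1 / x)) ≤ x ^ 2 * (2 * (1 / x / 2)) := by
        apply mul_le_mul_of_nonneg_left _ (by positivity)
        linarith
    _ = x := by field_simp

/-- the entropy sum at one scale. -/
lemma per_scale {lam ε θ : ℝ} {C₁ q r K m m' : ℕ} (hlam : 2 / 3 < lam) (hlam1 : lam < 1)
    (hε : 0 < ε) (hε1 : ε ≤ 1) (hθ : θ = Real.log (1 / lam)) (hθε : θ ≤ ε * Real.log 2 / 16)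
    (hC : 1 ≤ C₁) (hq : 64 * C₁ / ε ≤ q) (hr : Real.log 2 / θ ≤ r)
    (hr' : lam⁻¹ ^ r ≤ 3) (hm : m = q * m')
    (hmK : C₁ * m ≤ K) (hm4 : 4 ≤ m) (hN6 : 6 ≤ Real.log 2 / θ)
    (hrN : (r : ℝ) ≤ Real.log 2 / θ + 1)
    (hm0 : Real.log (194 / (1 - lam)) ≤ ε / 8 * m * Real.log 2)
    (hJ : Jc lam m ((2 : ℝ) ^ (-((C₁ : ℝ) * m))) ≤ (2 : ℝ) ^ (-(ε * m))) :
    3 / 10 * (r * ε * m) ≤ 4 * Real.log (800 * C₁ / ε) *
      ∑ p ∈ Finset.Ico ⌊Real.log 2 / θ * (K - C₁ * m)⌋₊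
          (⌊Real.log 2 / θ * (K - C₁ * m')⌋₊ - m),
        Gs (Xs lam m) (lam⁻¹ ^ r) (lam⁻¹ ^ p / (96 * 2 ^ K)) := by
  have hlam0 : 0 < lam := by linarith
  have hl2 : 0.6931471803 < Real.log 2 := Real.log_two_gt_d9
  have hl2' : Real.log 2 < 0.6931471808 := Real.log_two_lt_d9
  have hl20 : 0 < Real.log 2 := by linarith
  have hθ0 : 0 < θ := by
    rw [hθ]; exact Real.log_pos (by rw [lt_div_iff₀ hlam0]; linarith)
  set Np : ℝ := Real.log 2 / θ with hNp
  have hNpθ : Np * θ = Real.log 2 := by rw [hNp]; field_simp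
  have hC' : (1 : ℝ) ≤ C₁ := by exact_mod_cast hC
  have hm4' : (4 : ℝ) ≤ m := by exact_mod_cast hm4
  have hm' : (m : ℝ) = q * m' := by rw [hm]; push_cast; ring
  have hK' : (C₁ : ℝ) * m ≤ K := by exact_mod_cast hmK
  have hm'0 : (0 : ℝ) ≤ m' := Nat.cast_nonneg _
  have hCm' : (C₁ : ℝ) * m' ≤ ε * m / 64 := by
    have h1 : 64 * (C₁ : ℝ) ≤ q * ε := by
      rwa [div_le_iff₀ hε] at hq
    have h2 : 64 * (C₁ : ℝ) * m' ≤ q * ε * m' := mul_le_mul_of_nonneg_right h1 hm'0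
    rw [hm']
    linarith
  have hCm'2 : (C₁ : ℝ) * m' ≤ C₁ * m / 64 := by
    have : ε * m ≤ C₁ * m := mul_le_mul_of_nonneg_right (hε1.trans hC') (by linarith)
    linarith
  have hpos1 : 0 ≤ Np * (K - C₁ * m) := mul_nonneg (by linarith) (by linarith)
  have hpos2 : 0 ≤ Np * (K - C₁ * m') := mul_nonneg (by linarith)
    (by linarith [mul_nonneg (by linarith : (0:ℝ) ≤ C₁) (by linarith : (0:ℝ) ≤ m)])
  set a := ⌊Np * (K - C₁ * m)⌋₊ with ha
  set a' := ⌊Np * (K - C₁ * m')⌋₊ with ha'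
  have a1 : (a : ℝ) ≤ Np * (K - C₁ * m) := Nat.floor_le hpos1
  have a2 : Np * (K - C₁ * m) < a + 1 := Nat.lt_floor_add_one _
  have a3 : (a' : ℝ) ≤ Np * (K - C₁ * m') := Nat.floor_le hpos2
  have a4 : Np * (K - C₁ * m') < a' + 1 := Nat.lt_floor_add_one _
  have hdiff : Np * (K - C₁ * m') - Np * (K - C₁ * m) = Np * (C₁ * m - C₁ * m') := by ring
  have hgap : (a : ℝ) + r + m ≤ a' := by
    have h1 : Np * (C₁ * m * (63 / 64)) ≤ Np * (C₁ * m - C₁ * m') :=
      mul_le_mul_of_nonneg_left (by linarith) (by linarith)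
    have h2 : (m : ℝ) ≤ C₁ * m := by nlinarith
    have h3 : Np * (m * (63 / 64)) ≤ Np * (C₁ * m * (63 / 64)) :=
      mul_le_mul_of_nonneg_left (by linarith) (by linarith)
    have h4 : 0 ≤ (Np - 6) * (m - 4) := mul_nonneg (by linarith) (by linarith)
    have h5 : Np * (m * (63 / 64)) = 63 / 64 * (Np * m) := by ring
    have h6 : (Np - 6) * (m - 4) = Np * m - 4 * Np - 6 * m + 24 := by ring
    linarith
  have hgap' : a + r + m ≤ a' := by exact_mod_cast hgap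
  set b := a' - m with hb
  have hbR : (b : ℝ) = a' - m := by
    rw [hb, Nat.cast_sub (by omega)]
  have hab : a + r ≤ b := by omega
  -- exponentials
  have hexp : ∀ p : ℕ, lam⁻¹ ^ p = Real.exp (θ * p) := by
    intro p
    rw [hθ, one_div, mul_comm, ← Real.log_pow, Real.exp_log (by positivity)]
  have h2K : (2 : ℝ) ^ K = Real.exp (Real.log 2 * K) := by
    rw [mul_comm, ← Real.log_pow, Real.exp_log (by positivity)]
  set σ : ℝ := 1 / (96 * 2 ^ K) with hσ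
  have hσ0 : 0 < σ := by positivity
  have hδ : σ * lam⁻¹ ^ (a + r) ≤ (2 : ℝ) ^ (-((C₁ : ℝ) * m)) := by
    rw [pow_add, Real.rpow_def_of_pos (by norm_num), hexp a]
    have h1 : Real.exp (θ * a) ≤ Real.exp (Real.log 2 * K) *
        Real.exp (Real.log 2 * -((C₁ : ℝ) * m)) := by
      rw [← Real.exp_add]
      apply Real.exp_le_exp.2
      calc θ * a ≤ θ * (Np * (K - C₁ * m)) := mul_le_mul_of_nonneg_left a1 hθ0.le
        _ = (Np * θ) * (K - C₁ * m) := by ring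
        _ = _ := by rw [hNpθ]; ring
    rw [hσ, h2K]
    have hE := Real.exp_pos (Real.log 2 * K)
    have hE2 := Real.exp_pos (Real.log 2 * -((C₁ : ℝ) * m))
    have h3 : Real.exp (θ * a) * lam⁻¹ ^ r ≤
        Real.exp (Real.log 2 * K) * Real.exp (Real.log 2 * -((C₁ : ℝ) * m)) * 3 :=
      mul_le_mul h1 hr' (by positivity) (by positivity)
    calc 1 / (96 * Real.exp (Real.log 2 * K)) * (Real.exp (θ * a) * lam⁻¹ ^ r)
        ≤ 1 / (96 * Real.exp (Real.log 2 * K)) * (Real.exp (Real.log 2 * K) *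
          Real.exp (Real.log 2 * -((C₁ : ℝ) * m)) * 3) :=
          mul_le_mul_of_nonneg_left h3 (by positivity)
      _ = Real.exp (Real.log 2 * -((C₁ : ℝ) * m)) / 32 := by field_simp; norm_num
      _ ≤ Real.exp (Real.log 2 * -((C₁ : ℝ) * m)) := by linarith
  set x : ℝ := ε / (800 * C₁) with hx
  have hx0 : 0 < x := by positivity
  have hx1 : x ≤ 1 / 800 := by
    rw [hx, div_le_div_iff₀ (by positivity) (by norm_num)]
    nlinarith
  have hκlog : Real.log (1 / x ^ 2) = 2 * Real.log (800 * C₁ / ε) := by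
    have : (1 : ℝ) / x ^ 2 = (800 * C₁ / ε) ^ 2 := by
      rw [hx]; field_simp
    rw [this, Real.log_pow]; push_cast; ring
  have hJ2 : (∑ w, nb (Xs lam m) ((2 : ℝ) ^ (-((C₁ : ℝ) * m))) w) /
      (Fintype.card (Fin m → Bool) : ℝ) ^ 2 ≤ Real.exp (-(ε * m * Real.log 2)) := by
    rw [← Jc_eq]
    refine hJ.trans (le_of_eq ?_)
    rw [Real.rpow_def_of_pos (by norm_num)]
    congr 1; ring
  have hmain := entropy_sum (Xs lam m) (N := 1 / (1 - lam))
    (by rw [le_div_iff₀ (by linarith)]; linarith) (Xs_abs_le hlam0 hlam1 m)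
    hlam0 hlam1 r a b hr' hσ0 hab hδ hJ2 (κ := x ^ 2) (by positivity) (by nlinarith)
  rw [hκlog] at hmain
  -- the logarithm
  have hN0 : 1 ≤ 1 / (1 - lam) := by rw [le_div_iff₀ (by linarith)]; linarith
  have hlogle : Real.log (2 * (1 / (1 - lam)) / (σ * lam⁻¹ ^ b) + 2) ≤
      3 / 10 * (ε * m * Real.log 2) := by
    have h1 : Real.exp (Real.log 2 * K) * Real.exp (-(Real.log 2 * (C₁ * m') + θ * (1 + m))) ≤
        Real.exp (θ * b) := by
      rw [← Real.exp_add]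
      apply Real.exp_le_exp.2
      have h2 : θ * (Np * (K - C₁ * m') - 1 - m) ≤ θ * b := by
        apply mul_le_mul_of_nonneg_left _ hθ0.le
        rw [hbR]; linarith
      have h3 : θ * (Np * (K - C₁ * m') - 1 - m) =
          (Np * θ) * (K - C₁ * m') - θ * (1 + m) := by ring
      rw [h3, hNpθ] at h2
      linarith
    set y := Real.log 2 * (C₁ * m') + θ * (1 + m) with hy
    have hy0 : 0 ≤ y := by positivity
    have h4 : Real.exp (-y) / 96 ≤ σ * lam⁻¹ ^ b := by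
      rw [hσ, hexp b, h2K]
      calc Real.exp (-y) / 96 = 1 / (96 * Real.exp (Real.log 2 * K)) *
            (Real.exp (Real.log 2 * K) * Real.exp (-y)) := by field_simp
        _ ≤ _ := mul_le_mul_of_nonneg_left h1 (by positivity)
    have h5 : 2 * (1 / (1 - lam)) / (σ * lam⁻¹ ^ b) ≤ 192 * (1 / (1 - lam)) * Real.exp y := by
      calc 2 * (1 / (1 - lam)) / (σ * lam⁻¹ ^ b) ≤ 2 * (1 / (1 - lam)) / (Real.exp (-y) / 96) :=
            div_le_div_of_nonneg_left (by linarith) (by positivity) h4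
        _ = _ := by rw [Real.exp_neg]; field_simp; norm_num
    have h6 : 2 * (1 / (1 - lam)) / (σ * lam⁻¹ ^ b) + 2 ≤ 194 / (1 - lam) * Real.exp y := by
      have h7 : 1 ≤ Real.exp y := Real.one_le_exp hy0
      have h8 : (1 : ℝ) ≤ 1 / (1 - lam) * Real.exp y := by nlinarith
      have h9 : 194 / (1 - lam) * Real.exp y = 192 * (1 / (1 - lam)) * Real.exp y +
        2 * (1 / (1 - lam) * Real.exp y) := by ring
      rw [h9]; linarith
    have h10 : Real.log (2 * (1 / (1 - lam)) / (σ * lam⁻¹ ^ b) + 2) ≤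
        Real.log (194 / (1 - lam)) + y := by
      have h11 := Real.log_le_log (by positivity) h6
      rw [Real.log_mul (by
        have : 0 < 1 - lam := by linarith
        positivity) (Real.exp_pos _).ne', Real.log_exp] at h11
      exact h11
    refine h10.trans ?_
    have h12 : θ * (1 + m) ≤ ε * Real.log 2 / 16 * (2 * m) := by
      apply mul_le_mul hθε (by linarith) (by linarith) (by positivity)
    have h13 : Real.log 2 * (C₁ * m') ≤ Real.log 2 * (ε * m / 64) :=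
      mul_le_mul_of_nonneg_left hCm' hl20.le
    have h14 : 0 ≤ ε * m * Real.log 2 := by positivity
    rw [hy]
    linarith
  have hba : ((b : ℝ) - a) ≤ 2 * (r * (C₁ * m)) := by
    have h1 : (b : ℝ) - a ≤ Np * (C₁ * m - C₁ * m') + 1 := by
      rw [hbR]; linarith
    have h2 : Np * (C₁ * m - C₁ * m') ≤ r * (C₁ * m) := by
      apply mul_le_mul hr _ _ (by linarith)
      · have : 0 ≤ (C₁ : ℝ) * m' := by positivity
        linarith
      · have : (C₁ : ℝ) * m' ≤ C₁ * m / 64 := hCm'2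
        have : 0 ≤ (C₁ : ℝ) * m := by positivity
        linarith
    have h3 : (1 : ℝ) ≤ r * (C₁ * m) := by
      have h4 : (6 : ℝ) ≤ r := by linarith
      have h5 : (4 : ℝ) ≤ C₁ * m := by nlinarith
      nlinarith
    linarith
  have hkl : 14 * x ^ 2 * (2 * Real.log (800 * C₁ / ε)) ≤ 14 * x := by
    have := mul_log_le hx0
    rw [hκlog] at this
    linarith
  have herr : ((b : ℝ) - a) * (14 * x ^ 2 * (2 * Real.log (800 * C₁ / ε))) ≤
      35 / 1000 * (r * ε * m) := by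
    have h0 : 0 ≤ (b : ℝ) - a := by
      have : (a : ℝ) ≤ b := by exact_mod_cast (by omega : a ≤ b)
      linarith
    calc ((b : ℝ) - a) * (14 * x ^ 2 * (2 * Real.log (800 * C₁ / ε)))
        ≤ ((b : ℝ) - a) * (14 * x) := mul_le_mul_of_nonneg_left hkl h0
      _ ≤ 2 * (r * (C₁ * m)) * (14 * x) := mul_le_mul_of_nonneg_right hba (by positivity)
      _ = 35 / 1000 * (r * ε * m) := by rw [hx]; field_simp; ring
  have hfirst : 48 / 100 * (r * ε * m) ≤ r * (ε * m * Real.log 2 -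
      Real.log (2 * (1 / (1 - lam)) / (σ * lam⁻¹ ^ b) + 2)) := by
    have h1 : 48 / 100 * (ε * m) ≤ ε * m * Real.log 2 -
      Real.log (2 * (1 / (1 - lam)) / (σ * lam⁻¹ ^ b) + 2) := by
      have : 0 ≤ ε * m := by positivity
      have h3 : 0.6931471803 * (ε * m) ≤ Real.log 2 * (ε * m) :=
        mul_le_mul_of_nonneg_right hl2.le this
      linarith
    have h2 := mul_le_mul_of_nonneg_left h1 (Nat.cast_nonneg (α := ℝ) r)
    linarith
  have hcongr : ∑ p ∈ Finset.Ico a b, Gs (Xs lam m) (lam⁻¹ ^ r) (lam⁻¹ ^ p / (96 * 2 ^ K)) =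
      ∑ p ∈ Finset.Ico a b, Gs (Xs lam m) (lam⁻¹ ^ r) (σ * lam⁻¹ ^ p) := by
    refine Finset.sum_congr rfl fun p _ => ?_
    congr 1
    rw [hσ]; ring
  rw [hcongr]
  have h0 : 0 ≤ (r : ℝ) * ε * m := by positivity
  linarith

/-- some residue class carries at least the average. -/
lemma residue (f : ℕ → ℝ) (S : Finset ℕ) {m : ℕ} (hm : 0 < m) :
    ∃ ρ : ℕ, ∑ p ∈ S, f p ≤ m * ∑ p ∈ S.filter (fun p => p % m = ρ), f p := by
  by_contra hcon
  push Not at hcon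
  have h1 : ∑ ρ ∈ Finset.range m, ∑ p ∈ S.filter (fun p => p % m = ρ), f p = ∑ p ∈ S, f p :=
    Finset.sum_fiberwise_of_maps_to (fun p _ => Finset.mem_range.2 (Nat.mod_lt p hm)) f
  have h2 : ∑ ρ ∈ Finset.range m, (m : ℝ) * ∑ p ∈ S.filter (fun p => p % m = ρ), f p <
      ∑ _ρ ∈ Finset.range m, ∑ p ∈ S, f p := by
    apply Finset.sum_lt_sum_of_nonempty
    · exact ⟨0, Finset.mem_range.2 hm⟩
    · intro ρ _; exact hcon ρ
  rw [← Finset.mul_sum, h1, Finset.sum_const, Finset.card_range, nsmul_eq_mul] at h2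
  exact lt_irrefl _ h2

end C4b

open C4b in
theorem count (c₄ : ℝ) (hc₄ : 0 < c₄) (ε : ℝ) (hε : 0 < ε) (hε1 : ε ≤ 1) :
    ∃ c : ℝ, 0 < c ∧ ∃ l0 : ℝ, 1 / 2 ≤ l0 ∧ l0 < 1 ∧ ∀ lam : ℝ, l0 < lam → lam < 1 →
      ∀ C₁ : ℕ, 1 ≤ C₁ → (C₁ : ℝ) ≤ Real.exp (c / √(1 - lam)) →
      ∃ q : ℕ, 2 ≤ q ∧ ((∃ n₀ : ℕ, ∀ n : ℕ, n₀ ≤ n →
        Jc lam (q ^ n) ((2 : ℝ) ^ (-((C₁ : ℝ) * (q ^ n : ℕ)))) ≤
          (2 : ℝ) ^ (-(ε * (q ^ n : ℕ)))) →
        ∃ r : ℕ, lam⁻¹ ^ r ≤ 3 ∧ ∃ K₀ : ℕ, ∀ K : ℕ, K₀ ≤ K →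
          ∃ (ι : Type) (_ : Fintype ι) (_ : DecidableEq ι) (pos len : ι → ℕ),
            (∀ b b', b ≠ b' → Disjoint (Finset.Ico (pos b) (pos b + len b))
              (Finset.Ico (pos b') (pos b' + len b'))) ∧
            2 * Real.log K ≤ c₄ * ∑ b, Gs (Xs lam (len b)) (lam⁻¹ ^ r)
              (lam⁻¹ ^ pos b / (96 * 2 ^ K))) := by
  have hl2 : 0.6931471803 < Real.log 2 := Real.log_two_gt_d9
  have hl2' : Real.log 2 < 0.6931471808 := Real.log_two_lt_d9
  set c : ℝ := √(c₄ * ε / 1000) with hc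
  have hc0 : 0 < c := Real.sqrt_pos.2 (by positivity)
  have hcsq : c ^ 2 = c₄ * ε / 1000 := Real.sq_sqrt (by positivity)
  have hlog800 : 0 < Real.log (800 / ε) := by
    apply Real.log_pos
    rw [lt_div_iff₀ hε]; linarith
  set u0 : ℝ := min (ε / 50) ((c / Real.log (800 / ε)) ^ 2) with hu0
  have hu0pos : 0 < u0 := lt_min (by positivity) (by positivity)
  have hu0a : u0 ≤ ε / 50 := min_le_left _ _
  have hu0b : u0 ≤ (c / Real.log (800 / ε)) ^ 2 := min_le_right _ _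
  refine ⟨c, hc0, 1 - u0, by linarith, by linarith, ?_⟩
  intro lam hlam hlam1 C₁ hC hCle
  set u := 1 - lam with hu
  have hupos : 0 < u := by linarith
  have huu0 : u < u0 := by linarith
  have huε : u ≤ ε / 50 := by linarith
  have hlam23 : 2 / 3 < lam := by linarith
  have hlam0 : 0 < lam := by linarith
  set θ := Real.log (1 / lam) with hθ
  have hθ0 : 0 < θ := Real.log_pos (by rw [lt_div_iff₀ hlam0]; linarith)
  have hθu : θ ≤ 2 * u := by
    have h1 : Real.log (1 / lam) ≤ 1 / lam - 1 := Real.log_le_sub_one_of_pos (by positivity)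
    have h2 : 1 / lam - 1 ≤ 2 * u := by
      rw [div_sub_one hlam0.ne', div_le_iff₀ hlam0]
      nlinarith
    exact h1.trans h2
  have hθε : θ ≤ ε * Real.log 2 / 16 := by nlinarith
  set Np : ℝ := Real.log 2 / θ with hNp
  have hNpθ : θ * Np = Real.log 2 := by rw [hNp]; field_simp
  have hNpu : 3465 / 10000 / u ≤ Np := by
    rw [hNp, div_le_div_iff₀ hupos hθ0]
    nlinarith
  have hNp6 : 6 ≤ Np := by
    rw [hNp, le_div_iff₀ hθ0]
    nlinarith
  have hC' : (1 : ℝ) ≤ C₁ := by exact_mod_cast hC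
  set q : ℕ := ⌈64 * (C₁ : ℝ) / ε⌉₊ with hq
  have hq1 : 64 * (C₁ : ℝ) / ε ≤ q := Nat.le_ceil _
  have hq2 : (q : ℝ) < 64 * (C₁ : ℝ) / ε + 1 := Nat.ceil_lt_add_one (by positivity)
  have hCε : 1 ≤ (C₁ : ℝ) / ε := by rw [le_div_iff₀ hε]; linarith
  have hq64 : (64 : ℝ) ≤ q := by
    refine le_trans ?_ hq1
    rw [mul_div_assoc]; linarith
  have hq800 : (q : ℝ) ≤ 800 * C₁ / ε := by
    rw [mul_div_assoc] at hq2 ⊢
    linarith
  have hqn : 64 ≤ q := by exact_mod_cast hq64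
  refine ⟨q, by omega, ?_⟩
  rintro ⟨n₀, hn₀⟩
  set Λ := Real.log (800 * C₁ / ε) with hΛ
  have hΛpos : 0 < Λ := by
    apply Real.log_pos
    rw [mul_div_assoc]; linarith
  have hlogq : Real.log q ≤ Λ := Real.log_le_log (by linarith) hq800
  have hlogqpos : 0 < Real.log q := Real.log_pos (by linarith)
  have hsu : 0 < √u := Real.sqrt_pos.2 hupos
  have hΛle : Λ ≤ 2 * (c / √u) := by
    have h1 : Λ = Real.log C₁ + Real.log (800 / ε) := by
      rw [hΛ, ← Real.log_mul (by linarith) (by positivity)]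
      congr 1; ring
    have h2 : Real.log C₁ ≤ c / √u := by
      have := Real.log_le_log (by linarith) hCle
      rwa [Real.log_exp] at this
    have h3 : Real.log (800 / ε) ≤ c / √u := by
      rw [le_div_iff₀ hsu]
      have h4 : √u ≤ c / Real.log (800 / ε) := by
        have h5 : √u ≤ √((c / Real.log (800 / ε)) ^ 2) := Real.sqrt_le_sqrt (by linarith)
        rwa [Real.sqrt_sq (by positivity)] at h5
      rw [le_div_iff₀ hlog800] at h4
      linarith
    rw [h1]; linarith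
  have hΛsq : Λ ^ 2 ≤ 4 * (c₄ * ε / 1000) / u := by
    calc Λ ^ 2 ≤ (2 * (c / √u)) ^ 2 := pow_le_pow_left₀ hΛpos.le hΛle 2
      _ = 4 * c ^ 2 / (√u) ^ 2 := by ring
      _ = 4 * (c₄ * ε / 1000) / u := by rw [hcsq, Real.sq_sqrt hupos.le]
  set r : ℕ := ⌈Np⌉₊ with hr
  have hr1 : Np ≤ r := Nat.le_ceil _
  have hr2 : (r : ℝ) < Np + 1 := Nat.ceil_lt_add_one (by linarith)
  have hexp : ∀ p : ℕ, lam⁻¹ ^ p = Real.exp (θ * p) := by
    intro p
    rw [hθ, one_div, mul_comm, ← Real.log_pow, Real.exp_log (by positivity)]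
  have hr3 : lam⁻¹ ^ r ≤ 3 := by
    rw [hexp]
    have h1 : θ * r ≤ Real.log 2 + Real.log (1 / lam) := by
      rw [← hNpθ, ← hθ]; nlinarith
    calc Real.exp (θ * r) ≤ Real.exp (Real.log 2 + Real.log (1 / lam)) := Real.exp_le_exp.2 h1
      _ = 2 * (1 / lam) := by
          rw [Real.exp_add, Real.exp_log (by norm_num), Real.exp_log (by positivity)]
      _ ≤ 3 := by
          rw [mul_one_div, div_le_iff₀ hlam0]; linarith
  refine ⟨r, hr3, ?_⟩
  -- the first scale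
  obtain ⟨n₁, hn₁⟩ : ∃ n₁ : ℕ, ∀ n, n₁ ≤ n → n₀ ≤ n ∧ 1 ≤ n ∧ 4 ≤ q ^ n ∧
      Real.log (194 / (1 - lam)) ≤ ε / 8 * (q ^ n : ℕ) * Real.log 2 := by
    have ht : Tendsto (fun n : ℕ => q ^ n) atTop atTop :=
      tendsto_pow_atTop_atTop_of_one_lt (by omega)
    have ht' : Tendsto (fun n : ℕ => ε / 8 * Real.log 2 * (q ^ n : ℕ)) atTop atTop := by
      apply Tendsto.const_mul_atTop (by positivity)
      exact tendsto_natCast_atTop_atTop.comp ht
    obtain ⟨n₁, h⟩ := ((eventually_ge_atTop n₀).and ((eventually_ge_atTop 1).and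
      ((ht.eventually (eventually_ge_atTop 4)).and
        (ht'.eventually (eventually_ge_atTop _))))).exists_forall_of_atTop
    refine ⟨n₁, fun n hn => ?_⟩
    obtain ⟨h1, h2, h3, h4⟩ := h n hn
    refine ⟨h1, h2, h3, h4.trans (le_of_eq (by ring))⟩
  obtain ⟨K₀, hK₀⟩ : ∃ K₀ : ℕ, ∀ K : ℕ, K₀ ≤ K → C₁ ≤ K ∧
      3 * (Real.log C₁ + n₁ * Real.log q) ≤ Real.log K := by
    have ht : Tendsto (fun K : ℕ => Real.log K) atTop atTop :=
      Real.tendsto_log_atTop.comp tendsto_natCast_atTop_atTop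
    obtain ⟨K₀, h⟩ := ((eventually_ge_atTop C₁).and
      (ht.eventually (eventually_ge_atTop
        (3 * (Real.log C₁ + n₁ * Real.log q))))).exists_forall_of_atTop
    exact ⟨K₀, fun K hK => h K hK⟩
  refine ⟨K₀, fun K hK => ?_⟩
  obtain ⟨hCK, hKlog⟩ := hK₀ K hK
  set n₂ := Nat.log q (K / C₁) with hn₂
  have hdivpos : K / C₁ ≠ 0 := by
    rw [Nat.div_ne_zero_iff]; omega
  have hpow : ∀ n, n ≤ n₂ → C₁ * q ^ n ≤ K := by
    intro n hn
    have h1 : q ^ n ≤ K / C₁ :=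
      (Nat.pow_le_pow_right (by omega) hn).trans (Nat.pow_log_le_self q hdivpos)
    calc C₁ * q ^ n ≤ C₁ * (K / C₁) := Nat.mul_le_mul_left _ h1
      _ ≤ K := Nat.mul_div_le K C₁
  have hKup : Real.log K ≤ Real.log C₁ + (n₂ + 1) * Real.log q := by
    have h1 : K / C₁ < q ^ (n₂ + 1) := Nat.lt_pow_succ_log_self (by omega) _
    have h2 : K < C₁ * q ^ (n₂ + 1) := by
      have h3 := Nat.lt_mul_div_succ K (by omega : 0 < C₁)
      calc K < C₁ * (K / C₁ + 1) := h3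
        _ ≤ C₁ * q ^ (n₂ + 1) := Nat.mul_le_mul_left _ h1
    have h4 : (K : ℝ) ≤ C₁ * (q : ℝ) ^ (n₂ + 1) := by exact_mod_cast h2.le
    have hKpos : (0 : ℝ) < K := by
      have : (C₁ : ℝ) ≤ K := by exact_mod_cast hCK
      linarith
    have h5 := Real.log_le_log hKpos h4
    rw [Real.log_mul (by linarith) (by positivity), Real.log_pow] at h5
    push_cast at h5
    exact h5
  -- the regions
  set A : ℕ → ℕ := fun n => ⌊Np * (K - C₁ * (q ^ n : ℕ))⌋₊ with hA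
  have hAanti : ∀ n n', n ≤ n' → A n' ≤ A n := by
    intro n n' hnn
    apply Nat.floor_le_floor
    apply mul_le_mul_of_nonneg_left _ (by linarith)
    have : (C₁ : ℝ) * (q ^ n : ℕ) ≤ C₁ * (q ^ n' : ℕ) := by
      apply mul_le_mul_of_nonneg_left _ (by linarith)
      exact_mod_cast Nat.pow_le_pow_right (by omega) hnn
    linarith
  have hres : ∀ n : ℕ, ∃ ρ : ℕ, n₁ ≤ n → n ≤ n₂ →
      3 / 10 * (r * ε) ≤ 4 * Λ * ∑ p ∈ (Finset.Ico (A n) (A (n - 1) - q ^ n)).filter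
        (fun p => p % q ^ n = ρ), Gs (Xs lam (q ^ n)) (lam⁻¹ ^ r) (lam⁻¹ ^ p / (96 * 2 ^ K)) := by
    intro n
    obtain ⟨ρ, hρ⟩ := residue
      (fun p => Gs (Xs lam (q ^ n)) (lam⁻¹ ^ r) (lam⁻¹ ^ p / (96 * 2 ^ K)))
      (Finset.Ico (A n) (A (n - 1) - q ^ n)) (m := q ^ n) (by positivity)
    refine ⟨ρ, fun h1 h2 => ?_⟩
    obtain ⟨e1, e2, e3, e4⟩ := hn₁ n h1
    have hps := per_scale (m := q ^ n) (m' := q ^ (n - 1)) hlam23 hlam1 hε hε1 hθ hθε hC hq1 hr1
      hr3 (by rw [← pow_succ']; congr 1; omega) (hpow n h2) e3 hNp6 hr2.le e4 (hn₀ n e1)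
    have hm0 : (0 : ℝ) < (q ^ n : ℕ) := by positivity
    have h3 : 3 / 10 * (r * ε * (q ^ n : ℕ)) ≤ 4 * Λ * ((q ^ n : ℕ) *
        ∑ p ∈ (Finset.Ico (A n) (A (n - 1) - q ^ n)).filter
        (fun p => p % q ^ n = ρ), Gs (Xs lam (q ^ n)) (lam⁻¹ ^ r) (lam⁻¹ ^ p / (96 * 2 ^ K))) :=
      hps.trans (mul_le_mul_of_nonneg_left hρ (by positivity))
    have h4 : (3 / 10 * (r * ε)) * (q ^ n : ℕ) ≤ (4 * Λ *
        ∑ p ∈ (Finset.Ico (A n) (A (n - 1) - q ^ n)).filter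
        (fun p => p % q ^ n = ρ), Gs (Xs lam (q ^ n)) (lam⁻¹ ^ r)
          (lam⁻¹ ^ p / (96 * 2 ^ K))) * (q ^ n : ℕ) := by
      calc _ = 3 / 10 * (r * ε * (q ^ n : ℕ)) := by ring
        _ ≤ _ := h3
        _ = _ := by ring
    exact le_of_mul_le_mul_right h4 hm0
  choose ρ hρ using hres
  set S : Finset (Σ _ : ℕ, ℕ) := (Finset.Icc n₁ n₂).sigma fun n =>
    (Finset.Ico (A n) (A (n - 1) - q ^ n)).filter (fun p => p % q ^ n = ρ n) with hS
  refine ⟨↥S, inferInstance, Classical.decEq _, fun x => x.1.2, fun x => q ^ x.1.1, ?_, ?_⟩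
  · rintro ⟨⟨n, p⟩, hx⟩ ⟨⟨n', p'⟩, hx'⟩ hne
    simp only [hS, Finset.mem_sigma, Finset.mem_Icc, Finset.mem_filter, Finset.mem_Ico] at hx hx'
    rw [Finset.disjoint_left]
    intro t ht ht'
    simp only [Finset.mem_Ico] at ht ht'
    obtain ⟨⟨g1, g2⟩, ⟨g3, g4⟩, g5⟩ := hx
    obtain ⟨⟨g1', g2'⟩, ⟨g3', g4'⟩, g5'⟩ := hx'
    rcases lt_trichotomy n n' with hlt | heq | hgt
    · have h1 : A (n' - 1) ≤ A n := hAanti n (n' - 1) (by omega)
      have h2 : p' + q ^ n' < A (n' - 1) := by omega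
      omega
    · subst heq
      apply hne
      have h1 : p = p' := by
        have h2 : p % q ^ n = p' % q ^ n := by rw [g5, g5']
        rcases le_total p p' with hle | hle
        · have h3 := (Nat.modEq_iff_dvd' hle).1 h2
          obtain ⟨k, hk⟩ := h3
          rcases Nat.eq_zero_or_pos k with h0 | h0
          · subst h0; omega
          · have : q ^ n ≤ q ^ n * k := Nat.le_mul_of_pos_right _ h0
            omega
        · have h3 := (Nat.modEq_iff_dvd' hle).1 h2.symm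
          obtain ⟨k, hk⟩ := h3
          rcases Nat.eq_zero_or_pos k with h0 | h0
          · subst h0; omega
          · have : q ^ n ≤ q ^ n * k := Nat.le_mul_of_pos_right _ h0
            omega
      subst h1
      rfl
    · have h1 : A (n - 1) ≤ A n' := hAanti n' (n - 1) (by omega)
      have h2 : p + q ^ n < A (n - 1) := by omega
      omega
  · have hsum : (∑ b : ↥S, Gs (Xs lam (q ^ b.1.1)) (lam⁻¹ ^ r) (lam⁻¹ ^ b.1.2 / (96 * 2 ^ K))) =
        ∑ n ∈ Finset.Icc n₁ n₂, ∑ p ∈ (Finset.Ico (A n) (A (n - 1) - q ^ n)).filter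
          (fun p => p % q ^ n = ρ n), Gs (Xs lam (q ^ n)) (lam⁻¹ ^ r)
            (lam⁻¹ ^ p / (96 * 2 ^ K)) := by
      rw [← Finset.sum_sigma (Finset.Icc n₁ n₂) (fun n =>
        (Finset.Ico (A n) (A (n - 1) - q ^ n)).filter (fun p => p % q ^ n = ρ n))
        (fun x : (Σ _ : ℕ, ℕ) => Gs (Xs lam (q ^ x.1)) (lam⁻¹ ^ r)
          (lam⁻¹ ^ x.2 / (96 * 2 ^ K)))]
      exact Finset.sum_coe_sort S (fun x : (Σ _ : ℕ, ℕ) => Gs (Xs lam (q ^ x.1)) (lam⁻¹ ^ r)
          (lam⁻¹ ^ x.2 / (96 * 2 ^ K)))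
    have hgoal : 2 * Real.log K ≤ c₄ * ∑ n ∈ Finset.Icc n₁ n₂,
        ∑ p ∈ (Finset.Ico (A n) (A (n - 1) - q ^ n)).filter
          (fun p => p % q ^ n = ρ n), Gs (Xs lam (q ^ n)) (lam⁻¹ ^ r)
            (lam⁻¹ ^ p / (96 * 2 ^ K)) := by
      have hn12 : (n₁ : ℝ) ≤ n₂ + 1 := by
        have h0 : 0 ≤ Real.log C₁ := Real.log_nonneg hC'
        have h1 : 0 ≤ n₁ * Real.log q := by positivity
        have h2 : n₁ * Real.log q ≤ (n₂ + 1) * Real.log q := by linarith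
        exact le_of_mul_le_mul_right h2 hlogqpos
      have hn12' : n₁ ≤ n₂ + 1 := by exact_mod_cast hn12
      set g : ℝ := 3 / 10 * (r * ε) / (4 * Λ) with hg
      have hlow : ((n₂ : ℝ) + 1 - n₁) * g ≤ ∑ n ∈ Finset.Icc n₁ n₂,
        ∑ p ∈ (Finset.Ico (A n) (A (n - 1) - q ^ n)).filter
          (fun p => p % q ^ n = ρ n), Gs (Xs lam (q ^ n)) (lam⁻¹ ^ r)
            (lam⁻¹ ^ p / (96 * 2 ^ K)) := by
        have h1 : ∑ _n ∈ Finset.Icc n₁ n₂, g = ((n₂ : ℝ) + 1 - n₁) * g := by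
          rw [Finset.sum_const, Nat.card_Icc, nsmul_eq_mul, Nat.cast_sub hn12']
          push_cast; ring
        rw [← h1]
        refine Finset.sum_le_sum fun n hn => ?_
        rw [Finset.mem_Icc] at hn
        have := hρ n hn.1 hn.2
        rw [hg, div_le_iff₀ (by positivity)]
        linarith
      have hcg : 3 * Real.log q ≤ c₄ * g := by
        have h1 : 3 * Λ * Λ ≤ c₄ * (3 / 10 * (r * ε) / 4) := by
          have h2 : 3 * Λ * Λ ≤ 3 * (4 * (c₄ * ε / 1000) / u) := by nlinarith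
          have h3 : 3 * (4 * (c₄ * ε / 1000) / u) ≤ c₄ * (3 / 10 * (3465 / 10000 / u * ε) / 4) := by
            have : c₄ * (3 / 10 * (3465 / 10000 / u * ε) / 4) -
              3 * (4 * (c₄ * ε / 1000) / u) = (c₄ * ε / u) * (3 / 40 * (3465 / 10000) - 12 / 1000) := by
              ring
            have h4 : 0 ≤ c₄ * ε / u := by positivity
            nlinarith
          have h5 : c₄ * (3 / 10 * (3465 / 10000 / u * ε) / 4) ≤ c₄ * (3 / 10 * (r * ε) / 4) := by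
            apply mul_le_mul_of_nonneg_left _ hc₄.le
            have : 3465 / 10000 / u * ε ≤ r * ε :=
              mul_le_mul_of_nonneg_right (hNpu.trans hr1) hε.le
            linarith
          linarith
        have h6 : c₄ * g = c₄ * (3 / 10 * (r * ε) / 4) / Λ := by
          rw [hg]; field_simp
        rw [h6, le_div_iff₀ hΛpos]
        have h7 : 3 * Real.log q * Λ ≤ 3 * Λ * Λ := by nlinarith
        linarith
      have hfin : 3 * Real.log q * ((n₂ : ℝ) + 1 - n₁) ≤ c₄ * g * ((n₂ : ℝ) + 1 - n₁) :=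
        mul_le_mul_of_nonneg_right hcg (by linarith)
      have h8 : c₄ * (((n₂ : ℝ) + 1 - n₁) * g) ≤ c₄ * ∑ n ∈ Finset.Icc n₁ n₂,
        ∑ p ∈ (Finset.Ico (A n) (A (n - 1) - q ^ n)).filter
          (fun p => p % q ^ n = ρ n), Gs (Xs lam (q ^ n)) (lam⁻¹ ^ r)
            (lam⁻¹ ^ p / (96 * 2 ^ K)) := mul_le_mul_of_nonneg_left hlow hc₄.le
      linarith
    refine hgoal.trans (le_of_eq ?_)
    rw [← hsum]

end Pool.Agent.BCD
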