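import Pool.Agent.Work.MP_bc8e1e_an.D.C1
import Pool.Agent.Work.MP_bc8e1e_an.D.C2
import Pool.Agent.Work.MP_bc8e1e_an.D.C3
import Pool.Agent.Work.MP_bc8e1e_an.D.C4a
import Pool.Agent.Work.MP_bc8e1e_an.D.Count

/-!
# Module C4c: the one-scale bound, and absolute continuity
-/

set_option autoImplicit false

open MeasureTheory ProbabilityTheory Polynomial
open scoped RealInnerProductSpace

namespace Pool.Agent.BCD

namespace C4c

lemma psi_continuous : Continuous psi := by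
  unfold psi
  exact (Real.smoothTransition.continuous.comp (by fun_prop)).sub
    (Real.smoothTransition.continuous.comp (by fun_prop))

lemma psi_integrable : Integrable psi := by
  refine psi_continuous.integrable_of_hasCompactSupport ?_
  refine HasCompactSupport.intro (isCompact_Icc (a := (1 : ℝ)) (b := 4)) fun x hx => ?_
  unfold psi
  rw [Set.mem_Icc, not_and_or, not_le, not_le] at hx
  rcases hx with hx | hx
  · rw [Real.smoothTransition.one_of_one_le (by linarith),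
      Real.smoothTransition.one_of_one_le (by linarith), sub_self]
  · rw [Real.smoothTransition.zero_of_nonpos (by linarith),
      Real.smoothTransition.zero_of_nonpos (by linarith), sub_self]

lemma fK_bdd {R : ℝ} (hR : 0 < R) : ∃ B, ∀ x, |fK R x| ≤ B := by
  refine ⟨|Real.pi⁻¹| * ∫ ξ : ℝ, ‖psi (ξ / R)‖, fun x => ?_⟩
  unfold fK
  rw [abs_mul]
  refine mul_le_mul_of_nonneg_left ?_ (abs_nonneg _)
  have h1 : Integrable fun ξ : ℝ => ‖psi (ξ / R)‖ := (psi_integrable.comp_div hR.ne').norm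
  rw [← Real.norm_eq_abs]
  refine norm_integral_le_of_norm_le h1 (Filter.Eventually.of_forall fun ξ => ?_)
  rw [norm_mul]
  have h2 : ‖Real.cos (x * ξ)‖ ≤ 1 := Real.abs_cos_le_one _
  nlinarith [norm_nonneg (psi (ξ / R))]

lemma conv_L1_le {h : ℝ → ℝ} (hi : Integrable h) (hc : Continuous h) (β : Measure ℝ)
    [IsProbabilityMeasure β] :
    ∫ x, |∫ y, h (x - y) ∂β| ≤ ∫ x, |h x| := by
  have h1 : ∫ x, |∫ y, h (x - y) ∂β| = (∫⁻ x, ‖∫ y, h (x - y) ∂β‖ₑ).toReal := by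
    have : AEStronglyMeasurable (fun x => ∫ y, h (x - y) ∂β) volume := by
      have h2 : StronglyMeasurable (Function.uncurry fun x y : ℝ => h (x - y)) := by
        apply Continuous.stronglyMeasurable
        exact hc.comp (by fun_prop)
      exact h2.integral_prod_right'.aestronglyMeasurable
    exact integral_norm_eq_lintegral_enorm this
  have h2 : ∫ x, |h x| = (∫⁻ x, ‖h x‖ₑ).toReal :=
    integral_norm_eq_lintegral_enorm hi.aestronglyMeasurable
  rw [h1, h2]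
  refine ENNReal.toReal_mono hi.hasFiniteIntegral.ne ?_
  calc ∫⁻ x, ‖∫ y, h (x - y) ∂β‖ₑ ≤ ∫⁻ x, ∫⁻ y, ‖h (x - y)‖ₑ ∂β :=
        lintegral_mono fun x => enorm_integral_le_lintegral_enorm _
    _ = ∫⁻ y, ∫⁻ x, ‖h (x - y)‖ₑ ∂volume ∂β := by
        rw [lintegral_lintegral_swap]
        refine Measurable.aemeasurable ?_
        have : Continuous fun p : ℝ × ℝ => ‖h (p.1 - p.2)‖ₑ :=
          (hc.comp (by fun_prop : Continuous fun p : ℝ × ℝ => p.1 - p.2)).enorm
        exact this.measurable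
    _ = ∫⁻ y, ∫⁻ x, ‖h x‖ₑ ∂volume ∂β := by
        refine lintegral_congr fun y => ?_
        exact lintegral_sub_right_eq_self (fun x => ‖h x‖ₑ) y
    _ = ∫⁻ x, ‖h x‖ₑ := by simp

/-- one block -/
lemma block_factor {Ω : Type} [Fintype Ω] [Nonempty Ω] (X : Ω → ℝ) {s ϱ x₀ A : ℝ}
    (hs : 0 < s) (q : Ω → Ω → ℝ) (hq : ∀ w w', 0 ≤ q w w')
    (hm : ∀ w, ∑ w', q w w' = (Fintype.card Ω : ℝ)⁻¹)
    (hG : Gs X ϱ s / 2 ≤ ∑ w, ∑ w', if s < |X w - X w'| then q w w' else 0)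
    (hx₀ : 0 < x₀) (hA : 0 ≤ A) (hAs : A * s ^ 2 = x₀) :
    ∑ w, ∑ w', q w w' * Real.exp (-(A * (X w - X w') ^ 2)) ≤
      Real.exp (-((1 - Real.exp (-x₀)) / 2 * Gs X ϱ s)) := by
  have h1 : ∀ w w', q w w' * Real.exp (-(A * (X w - X w') ^ 2)) ≤
      q w w' - (1 - Real.exp (-x₀)) * (if s < |X w - X w'| then q w w' else 0) := by
    intro w w'
    split_ifs with h
    · have h2 : x₀ ≤ A * (X w - X w') ^ 2 := by
        rw [← hAs, ← sq_abs (X w - X w')]
        gcongr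
      have h3 : Real.exp (-(A * (X w - X w') ^ 2)) ≤ Real.exp (-x₀) :=
        Real.exp_le_exp.2 (by linarith)
      nlinarith [hq w w']
    · have h3 : Real.exp (-(A * (X w - X w') ^ 2)) ≤ 1 :=
        Real.exp_le_one_iff.2 (by have := sq_nonneg (X w - X w'); nlinarith)
      nlinarith [hq w w']
  have h2 : ∑ w, ∑ w', q w w' * Real.exp (-(A * (X w - X w') ^ 2)) ≤
      1 - (1 - Real.exp (-x₀)) * ∑ w, ∑ w', (if s < |X w - X w'| then q w w' else 0) := by
    calc ∑ w, ∑ w', q w w' * Real.exp (-(A * (X w - X w') ^ 2))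
        ≤ ∑ w, ∑ w', (q w w' - (1 - Real.exp (-x₀)) *
          (if s < |X w - X w'| then q w w' else 0)) :=
          Finset.sum_le_sum fun w _ => Finset.sum_le_sum fun w' _ => h1 w w'
      _ = 1 - (1 - Real.exp (-x₀)) * ∑ w, ∑ w', (if s < |X w - X w'| then q w w' else 0) := by
          simp only [Finset.sum_sub_distrib, ← Finset.mul_sum, hm]
          congr 1
          simp
  have h3 : Real.exp (-x₀) < 1 :=
    (Real.exp_lt_exp.2 (by linarith : -x₀ < 0)).trans_eq Real.exp_zero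
  have h4 := Real.add_one_le_exp (-((1 - Real.exp (-x₀)) / 2 * Gs X ϱ s))
  nlinarith

end C4c

open C4c in
/-- the `L¹` norm at one scale is damped by every disjoint family of blocks. -/
theorem block_bound : ∃ C : ℝ, 0 < C ∧ ∃ c₄ : ℝ, 0 < c₄ ∧ ∀ lam : ℝ, 0 < lam → lam < 1 →
    ∀ μ : Measure ℝ, IsProbabilityMeasure μ →
      μ = (1/2 : ENNReal) • μ.map (fun x : ℝ => lam * x + 1)
        + (1/2 : ENNReal) • μ.map (fun x : ℝ => lam * x - 1) →
    ∀ (R ϱ : ℝ), 0 < R → 1 ≤ ϱ → ϱ ≤ 3 →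
    ∀ (ι : Type) [Fintype ι] [DecidableEq ι] (pos len : ι → ℕ),
      (∀ b b', b ≠ b' → Disjoint (Finset.Ico (pos b) (pos b + len b))
        (Finset.Ico (pos b') (pos b' + len b'))) →
      ∫ x, |∫ y, fK R (x - y) ∂μ| ≤
        C * Real.exp (-(c₄ * ∑ b, Gs (Xs lam (len b)) ϱ (lam⁻¹ ^ pos b / (96 * R)))) := by
  obtain ⟨C, hC, hcoup⟩ := coupling_L1
  set x₀ : ℝ := 1 / (16 * 96 ^ 2) with hx₀
  have hx₀p : 0 < x₀ := by positivity
  refine ⟨C, hC, (1 - Real.exp (-x₀)) / 2, ?_, ?_⟩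
  · have : Real.exp (-x₀) < 1 :=
      (Real.exp_lt_exp.2 (neg_lt_zero.2 hx₀p)).trans_eq Real.exp_zero
    exact half_pos (sub_pos.2 this)
  intro lam h0 h1 μ hμp hμ R ϱ hR hϱ1 hϱ3 ι _ _ pos len hdisj
  obtain ⟨β, hβp, hβ⟩ := decomp h0 h1 μ hμ ι pos len hdisj
  set s : ι → ℝ := fun b => lam⁻¹ ^ pos b / (96 * R) with hs
  have hsp : ∀ b, 0 < s b := fun b => by simp only [hs]; positivity
  choose q hq0 hqs hq12 hqm hqG using fun b => exists_coupling (Xs lam (len b)) (hsp b) hϱ1 hϱ3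
  have hlam : ∀ n : ℕ, lam ^ n * lam⁻¹ ^ n = 1 := fun n => by
    rw [← mul_pow, mul_inv_cancel₀ h0.ne', one_pow]
  have hX := hcoup R hR ι (fun b => Fin (len b) → Bool)
    (fun b w => lam ^ pos b * Xs lam (len b) w) q hq0 hqs (by
      intro b w w' h
      rw [← mul_sub, abs_mul, abs_of_pos (pow_pos h0 _)]
      calc lam ^ pos b * |Xs lam (len b) w - Xs lam (len b) w'|
          ≤ lam ^ pos b * (12 * s b) := by
            gcongr
            exact hq12 b w w' h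
        _ = (lam ^ pos b * lam⁻¹ ^ pos b) * (12 / (96 * R)) := by simp only [hs]; ring
        _ = 1 / (8 * R) := by rw [hlam, one_mul]; field_simp; norm_num)
  set H : ℝ → ℝ := fun x => ∑ ω : (∀ b, Fin (len b) → Bool),
    (∏ b, ∑ w', q b (ω b) w') * fK R (x - ∑ b, lam ^ pos b * Xs lam (len b) (ω b)) with hH
  have hHi : Integrable H := by
    refine integrable_finsetSum _ fun ω _ => ?_
    exact ((fK_integrable hR).comp_sub_right _).const_mul _
  have hHc : Continuous H := by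
    refine continuous_finsetSum _ fun ω _ => continuous_const.mul ?_
    exact (fK_continuous hR).comp (by fun_prop)
  have hconv : ∀ x, ∫ y, fK R (x - y) ∂μ = ∫ y, H (x - y) ∂β := by
    intro x
    rw [hβ (fK R) (fK_continuous hR) (fK_bdd hR) x]
    congr 1
    funext y
    simp only [hH]
    refine Finset.sum_congr rfl fun ω _ => ?_
    congr 1
    refine Finset.prod_congr rfl fun b _ => ?_
    rw [hqm b]
    simp
  calc ∫ x, |∫ y, fK R (x - y) ∂μ| = ∫ x, |∫ y, H (x - y) ∂β| := by simp only [hconv]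
    _ ≤ ∫ x, |H x| := conv_L1_le hHi hHc β
    _ ≤ C * ∏ b, ∑ w, ∑ w', q b w w' * Real.exp (-(R ^ 2 *
          (lam ^ pos b * Xs lam (len b) w - lam ^ pos b * Xs lam (len b) w') ^ 2 / 16)) := hX
    _ ≤ C * ∏ b, Real.exp (-((1 - Real.exp (-x₀)) / 2 * Gs (Xs lam (len b)) ϱ (s b))) := by
        refine mul_le_mul_of_nonneg_left ?_ hC.le
        refine Finset.prod_le_prod (fun b _ => Finset.sum_nonneg fun w _ =>
          Finset.sum_nonneg fun w' _ => mul_nonneg (hq0 b w w') (Real.exp_nonneg _)) fun b _ => ?_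
        have hA : R ^ 2 * (lam ^ pos b) ^ 2 / 16 * s b ^ 2 = x₀ := by
          have h3 : R ^ 2 * (lam ^ pos b) ^ 2 / 16 * s b ^ 2 =
              (lam ^ pos b * lam⁻¹ ^ pos b) ^ 2 * (R ^ 2 / (96 * R) ^ 2 / 16) := by
            simp only [hs]; ring
          rw [h3, hlam, hx₀]
          field_simp
        have h4 := block_factor (Xs lam (len b)) (ϱ := ϱ) (hsp b) (q b) (hq0 b) (hqm b) (hqG b)
          hx₀p (A := R ^ 2 * (lam ^ pos b) ^ 2 / 16) (by positivity) hA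
        refine le_trans (le_of_eq ?_) h4
        refine Finset.sum_congr rfl fun w _ => Finset.sum_congr rfl fun w' _ => ?_
        congr 2
        ring
    _ = C * Real.exp (-((1 - Real.exp (-x₀)) / 2 *
          ∑ b, Gs (Xs lam (len b)) ϱ (lam⁻¹ ^ pos b / (96 * R)))) := by
        rw [← Real.exp_sum, Finset.sum_neg_distrib, ← Finset.mul_sum]

theorem ac_of_good (ε : ℝ) (hε : 0 < ε) (hε1 : ε ≤ 1) : ∃ c : ℝ, 0 < c ∧ ∃ l0 : ℝ, l0 < 1 ∧
    ∀ lam : ℝ, l0 < lam → lam < 1 → ∀ C₁ : ℕ, 1 ≤ C₁ →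
      (C₁ : ℝ) ≤ Real.exp (c / √(1 - lam)) → ∃ q : ℕ, 2 ≤ q ∧
        ((∃ n₀ : ℕ, ∀ n : ℕ, n₀ ≤ n →
          Jc lam (q ^ n) ((2 : ℝ) ^ (-((C₁ : ℝ) * (q ^ n : ℕ)))) ≤
            (2 : ℝ) ^ (-(ε * (q ^ n : ℕ)))) →
          ∀ μ : Measure ℝ, IsProbabilityMeasure μ →
            μ = (1/2 : ENNReal) • μ.map (fun x : ℝ => lam * x + 1)
              + (1/2 : ENNReal) • μ.map (fun x : ℝ => lam * x - 1) →
            μ ≪ (volume : Measure ℝ)) := by
  obtain ⟨C, hC, c₄, hc₄, hbb⟩ := block_bound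
  obtain ⟨C', hC'⟩ := conv_fK_le
  obtain ⟨c, hc, l0, hl0, hl1, hcount⟩ := count c₄ hc₄ ε hε hε1
  refine ⟨c, hc, l0, hl1, fun lam hlam0 hlam1 C₁ hC₁ hC₁le => ?_⟩
  obtain ⟨q, hq, hgood⟩ := hcount lam hlam0 hlam1 C₁ hC₁ hC₁le
  refine ⟨q, hq, fun hn μ hμp hμ => ?_⟩
  obtain ⟨r, hr, K₀, hK⟩ := hgood hn
  have h0 : 0 < lam := by linarith
  have hr1 : 1 ≤ lam⁻¹ ^ r := one_le_pow₀ ((one_le_inv₀ h0).2 hlam1.le)
  set b : ℕ → ℝ := fun K => if K < max K₀ 1 then C' else C * ((K : ℝ) ^ 2)⁻¹ with hb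
  refine ac_criterion μ b ?_ ?_
  · have h2 : Summable fun K : ℕ => C * ((K : ℝ) ^ 2)⁻¹ :=
      (Real.summable_nat_pow_inv.2 one_lt_two).mul_left C
    have h3 : Summable fun K : ℕ => b K - C * ((K : ℝ) ^ 2)⁻¹ := by
      refine summable_of_ne_finset_zero (s := Finset.range (max K₀ 1)) fun K hK => ?_
      rw [Finset.mem_range, not_lt] at hK
      simp only [hb]
      rw [if_neg (by omega), sub_self]
    simpa using h3.add h2
  · intro K
    by_cases hKK : K < max K₀ 1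
    · simp only [hb]
      rw [if_pos hKK]
      exact hC' _ (by positivity) μ hμp
    · simp only [hb]
      rw [if_neg hKK]
      obtain ⟨ι, i1, i2, pos, len, hdisj, hsum⟩ := hK K (by omega)
      refine (hbb lam h0 hlam1 μ hμp hμ (2 ^ K) (lam⁻¹ ^ r) (by positivity) hr1 hr ι pos len
        hdisj).trans ?_
      refine mul_le_mul_of_nonneg_left ?_ hC.le
      have hKp : (0 : ℝ) < K := by
        have : 1 ≤ K := by omega
        exact_mod_cast this
      calc Real.exp (-(c₄ * ∑ b, Gs (Xs lam (len b)) (lam⁻¹ ^ r) (lam⁻¹ ^ pos b / (96 * 2 ^ K))))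
          ≤ Real.exp (-(2 * Real.log K)) := Real.exp_le_exp.2 (by linarith)
        _ = ((K : ℝ) ^ 2)⁻¹ := by
          rw [Real.exp_neg, mul_comm, Real.exp_mul, Real.exp_log hKp]
          norm_num

end Pool.Agent.BCD
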