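import Mathlib

/-!
# Bernoulli convolutions near 1: the dichotomy theorem, definitions
-/

set_option autoImplicit false

open MeasureTheory ProbabilityTheory Polynomial
open scoped RealInnerProductSpace

namespace Pool.Agent.BCD

/-! ## Part R: Gaussian sums over lattices -/

section Gauss

variable {E : Type*} [NormedAddCommGroup E] [InnerProductSpace ℝ E]

/-- The shifted Gaussian sum `∑_{y ∈ L} exp (-‖s y - z‖² / 2)`. -/
noncomputable def Th (L : AddSubgroup E) (s : ℝ) (z : E) : ℝ :=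
  ∑' y : L, Real.exp (-(‖s • (y : E) - z‖ ^ 2 / 2))

/-- The mean of `f (s y)` for `y ∈ L` with weights `exp (-‖s y - z‖² / 2)`. -/
noncomputable def Ex (L : AddSubgroup E) (s : ℝ) (z : E) (f : E → ℝ) : ℝ :=
  (∑' y : L, f (s • (y : E)) * Real.exp (-(‖s • (y : E) - z‖ ^ 2 / 2))) / Th L s z

/-- The mean of `s y` for `y ∈ L` with weights `exp (-‖s y - z‖² / 2)`. -/
noncomputable def Mv (L : AddSubgroup E) (s : ℝ) (z : E) : E :=
  (Th L s z)⁻¹ • ∑' y : L, Real.exp (-(‖s • (y : E) - z‖ ^ 2 / 2)) • (s • (y : E))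

/-- What the analysis needs to know about a lattice: Gaussian sums converge, and `L` is
relatively dense. -/
structure Lat (L : AddSubgroup E) : Prop where
  summ : ∀ c : ℝ, 0 < c → Summable fun y : L => Real.exp (-(c * ‖(y : E)‖ ^ 2))
  cov : ∃ R : ℝ, ∀ z : E, ∃ y ∈ L, ‖z - y‖ ≤ R

/-- All sublattices of `L` have covolume at least `t ^ rank`. -/
def Sp (t : ℝ) (L : AddSubgroup E) : Prop :=
  ∀ (j : ℕ) (v : Fin j → E), (∀ i, v i ∈ L) → LinearIndependent ℝ v →
    t ^ (2 * j) ≤ (Matrix.gram ℝ v).det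

variable [FiniteDimensional ℝ E] [MeasurableSpace E] [BorelSpace E]

/-- `P(a,b) = E ⟪M(z),a⟫⟪M(z),b⟫`, `z` standard Gaussian. -/
noncomputable def Pm (L : AddSubgroup E) (s : ℝ) (a b : E) : ℝ :=
  ∫ z, ⟪Mv L s z, a⟫ * ⟪Mv L s z, b⟫ ∂stdGaussian E

/-- the trace of `P`. -/
noncomputable def tP (L : AddSubgroup E) (s : ℝ) : ℝ :=
  ∫ z, ‖Mv L s z‖ ^ 2 ∂stdGaussian E

/-- `A(s) = E log Θ(s,z)`. -/
noncomputable def Af (L : AddSubgroup E) (s : ℝ) : ℝ :=
  ∫ z, Real.log (Th L s z) ∂stdGaussian E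

end Gauss

/-! ## Part H: polynomials with the norm `‖P‖² + W² P(λ)²` -/

/-- Real polynomials with the inner product `∑ P_j Q_j + W² P(λ) Q(λ)`. -/
def PW (_lam _W : ℝ) : Type := ℝ[X]

namespace PW

variable (lam W : ℝ)

noncomputable instance : AddCommGroup (PW lam W) := inferInstanceAs (AddCommGroup ℝ[X])
noncomputable instance : Module ℝ (PW lam W) := inferInstanceAs (Module ℝ ℝ[X])

/-- the identity map from polynomials. -/
noncomputable def of : ℝ[X] ≃ₗ[ℝ] PW lam W := LinearEquiv.refl ℝ ℝ[X]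

/-- The inner product. -/
noncomputable def ip (P Q : ℝ[X]) : ℝ :=
  (P.sum fun j a => a * Q.coeff j) + W ^ 2 * (P.eval lam * Q.eval lam)

lemma ip_eq (P Q : ℝ[X]) (n : ℕ) (hP : P.natDegree < n) :
    ip lam W P Q = ∑ j ∈ Finset.range n, P.coeff j * Q.coeff j
      + W ^ 2 * (P.eval lam * Q.eval lam) := by
  unfold ip
  rw [Polynomial.sum_over_range' P (fun j => by simp) n hP]

lemma ip_comm (P Q : ℝ[X]) : ip lam W P Q = ip lam W Q P := by
  set n := max P.natDegree Q.natDegree + 1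
  rw [ip_eq lam W P Q n (by omega), ip_eq lam W Q P n (by omega)]
  congr 1
  · exact Finset.sum_congr rfl fun j _ => mul_comm _ _
  · ring

lemma ip_add (P Q R : ℝ[X]) : ip lam W (P + Q) R = ip lam W P R + ip lam W Q R := by
  have h1 := Polynomial.natDegree_add_le P Q
  set n := max P.natDegree Q.natDegree + 1
  rw [ip_eq lam W P R n (by omega), ip_eq lam W Q R n (by omega),
    ip_eq lam W (P + Q) R n (by omega)]
  simp only [coeff_add, eval_add, add_mul, Finset.sum_add_distrib]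
  ring

lemma ip_smul (r : ℝ) (P Q : ℝ[X]) : ip lam W (r • P) Q = r * ip lam W P Q := by
  have h1 := Polynomial.natDegree_smul_le r P
  rw [ip_eq lam W P Q (P.natDegree + 1) (by omega),
    ip_eq lam W (r • P) Q (P.natDegree + 1) (by omega)]
  simp only [coeff_smul, eval_smul, smul_eq_mul, mul_add, Finset.mul_sum]
  congr 1
  · exact Finset.sum_congr rfl fun j _ => by ring
  · ring

lemma ip_self (P : ℝ[X]) (n : ℕ) (hP : P.natDegree < n) :
    ip lam W P P = ∑ j ∈ Finset.range n, P.coeff j ^ 2 + W ^ 2 * (P.eval lam) ^ 2 := by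
  rw [ip_eq lam W P P n hP]
  simp only [sq]

lemma eq_zero_of_ip (P : ℝ[X]) (h2 : ip lam W P P = 0) : P = 0 := by
  rw [ip_self lam W P _ (Nat.lt_succ_self _)] at h2
  have h3 : ∑ j ∈ Finset.range (Polynomial.natDegree P).succ, (Polynomial.coeff P j) ^ 2 = 0 := by
    have h4 : 0 ≤ W ^ 2 * (Polynomial.eval lam P) ^ 2 := by positivity
    have h5 : 0 ≤ ∑ j ∈ Finset.range (Polynomial.natDegree P).succ,
      (Polynomial.coeff P j) ^ 2 := by positivity
    linarith
  apply Polynomial.ext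
  intro j
  by_cases hj : j < (Polynomial.natDegree P).succ
  · have := (Finset.sum_eq_zero_iff_of_nonneg (fun i _ => by positivity)).1 h3 j
      (Finset.mem_range.2 hj)
    simpa using this
  · rw [Polynomial.coeff_eq_zero_of_natDegree_lt (by omega)]
    simp

lemma ip_nonneg (P : ℝ[X]) : 0 ≤ ip lam W P P := by
  rw [ip_self lam W P _ (Nat.lt_succ_self _)]
  positivity

/-- The inner product structure. -/
@[reducible] noncomputable def core : InnerProductSpace.Core ℝ (PW lam W) where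
  inner P Q := ip lam W P Q
  conj_inner_symm P Q := ip_comm lam W Q P
  re_inner_nonneg P := ip_nonneg lam W P
  add_left P Q R := ip_add lam W P Q R
  smul_left P Q r := ip_smul lam W r P Q
  definite P h := eq_zero_of_ip lam W P h

noncomputable instance : NormedAddCommGroup (PW lam W) :=
  @InnerProductSpace.Core.toNormedAddCommGroup ℝ (PW lam W) _ _ _ (core lam W)

noncomputable instance : InnerProductSpace ℝ (PW lam W) :=
  InnerProductSpace.ofCore (core lam W).toCore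

lemma inner_def (P Q : ℝ[X]) : ⟪of lam W P, of lam W Q⟫ = ip lam W P Q := rfl

end PW

/-- An integer polynomial as a point of `PW lam W`. -/
noncomputable def io (lam W : ℝ) (P : ℤ[X]) : PW lam W :=
  PW.of lam W (P.map (Int.castRingHom ℝ))

/-- The integer polynomials in a `ℚ`-subspace `U` of `ℚ[X]`. -/
noncomputable def MU (U : Submodule ℚ ℚ[X]) : AddSubgroup ℤ[X] :=
  U.toAddSubgroup.comap (Polynomial.mapRingHom (Int.castRingHom ℚ)).toAddMonoidHom

lemma mem_MU {U : Submodule ℚ ℚ[X]} {P : ℤ[X]} :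
    P ∈ MU U ↔ P.map (Int.castRingHom ℚ) ∈ U := Iff.rfl

/-- `b` is a `ℤ`-basis of the integer polynomials in `U`. -/
structure IsBas (U : Submodule ℚ ℚ[X]) {n : ℕ} (b : Fin n → ℤ[X]) : Prop where
  mem : ∀ i, b i ∈ MU U
  li : LinearIndependent ℤ b
  span : ∀ P ∈ MU U, ∃ c : Fin n → ℤ, P = ∑ i, c i • b i

/-- Squared covolume of the lattice of integer polynomials in `U`. -/
noncomputable def cov (lam W : ℝ) (U : Submodule ℚ ℚ[X]) : ℝ :=
  sInf {g : ℝ | ∃ v : Fin (Module.finrank ℚ U) → ℤ[X], (∀ i, v i ∈ MU U) ∧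
    LinearIndependent ℤ v ∧ g = (Matrix.gram ℝ fun i => io lam W (v i)).det}

/-- The function `g(U) = 2 (log T) dim U - log cov U`. -/
noncomputable def gT (lam W T : ℝ) (U : Submodule ℚ ℚ[X]) : ℝ :=
  2 * Real.log T * Module.finrank ℚ U - Real.log (cov lam W U)

/-- `U` is a maximum point of `g` among its subspaces. -/
def Cl (lam W T : ℝ) (U : Submodule ℚ ℚ[X]) : Prop :=
  ∀ V : Submodule ℚ ℚ[X], V ≤ U → gT lam W T V ≤ gT lam W T U

/-- Gaussian mass of the integer polynomials in `U`. -/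
noncomputable def rhoU (lam W T : ℝ) (U : Submodule ℚ ℚ[X]) : ℝ :=
  ∑' P : MU U, Real.exp (-(Real.pi * ‖io lam W (P : ℤ[X])‖ ^ 2 / T ^ 2))

/-- Multiplication by `X`. -/
noncomputable def shU (U : Submodule ℚ ℚ[X]) : Submodule ℚ ℚ[X] :=
  U.map (LinearMap.mulLeft ℚ (X : ℚ[X]))

/-- The space of polynomials `f Q`, `deg Q < n`. -/
noncomputable def idU (f : ℤ[X]) (n : ℕ) : Submodule ℚ ℚ[X] :=
  (Polynomial.degreeLT ℚ n).map (LinearMap.mulLeft ℚ (f.map (Int.castRingHom ℚ)))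

/-! ## Part C: sign sums -/

/-- The sum `∑_{j<m} ± λ^j`. -/
noncomputable def Xs (lam : ℝ) (m : ℕ) (w : Fin m → Bool) : ℝ :=
  ∑ j : Fin m, (if w j then (1 : ℝ) else -1) * lam ^ (j : ℕ)

/-- Probability that two independent sign sums are `δ`-close. -/
noncomputable def Jc (lam : ℝ) (m : ℕ) (δ : ℝ) : ℝ :=
  (∑ w : Fin m → Bool, ∑ w' : Fin m → Bool,
    if |Xs lam m w - Xs lam m w'| ≤ δ then (1 : ℝ) else 0) / 4 ^ m

/-- `E exp (-π P(λ)²/a²)`, `P` a random polynomial of degree `< m` with coefficients `-1,0,1`. -/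
noncomputable def Ic (lam : ℝ) (m : ℕ) (a : ℝ) : ℝ :=
  ∫ t : ℝ, a * Real.exp (-(Real.pi * a ^ 2 * t ^ 2)) *
    ∏ j ∈ Finset.range m, Real.cos (Real.pi * lam ^ j * t) ^ 2

/-- A smooth profile supported in `[1,4]`. -/
noncomputable def psi (ξ : ℝ) : ℝ :=
  Real.smoothTransition (2 - ξ / 2) - Real.smoothTransition (2 - ξ)

/-- The band limited kernel at frequency `R`. -/
noncomputable def fK (R x : ℝ) : ℝ :=
  Real.pi⁻¹ * ∫ ξ : ℝ, psi (ξ / R) * Real.cos (x * ξ)

/-- `#{w' : |X w - X w'| ≤ s}`. -/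
noncomputable def nb {Ω : Type} [Fintype Ω] (X : Ω → ℝ) (s : ℝ) (w : Ω) : ℝ :=
  ∑ w' : Ω, if |X w - X w'| ≤ s then (1 : ℝ) else 0

/-- Mean of `1 - n_s / n_{ϱ s}`. -/
noncomputable def Gs {Ω : Type} [Fintype Ω] (X : Ω → ℝ) (ϱ s : ℝ) : ℝ :=
  (∑ w : Ω, (1 - nb X s w / nb X (ϱ * s) w)) / Fintype.card Ω

end Pool.Agent.BCD
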