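import Pool.Agent.Work.MP_bc8e1e_an.D.Mah

/-!
# Module H4, part 2: a root near `λ`
-/

set_option autoImplicit false

open Polynomial

namespace Pool.Agent.BCD

namespace H4

theorem norm_prod_map {ι : Type*} (s : Multiset ι) (g : ι → ℂ) :
    ‖(s.map g).prod‖ = (s.map fun a => ‖g a‖).prod := by
  induction s using Multiset.induction with
  | empty => simp
  | cons a s ih => rw [Multiset.map_cons, Multiset.prod_cons, norm_mul, ih, Multiset.map_cons,
      Multiset.prod_cons]

theorem prod_ite {ι : Type*} (s : Multiset ι) (P : ι → Prop) [DecidablePred P] (c : ℝ) :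
    (s.map fun a => if P a then c else 1).prod = c ^ s.countP P := by
  induction s using Multiset.induction with
  | empty => simp
  | cons a s ih =>
    rw [Multiset.map_cons, Multiset.prod_cons, ih]
    by_cases h : P a
    · rw [if_pos h, Multiset.countP_cons_of_pos _ h, pow_succ']
    · rw [if_neg h, Multiset.countP_cons_of_neg _ h, one_mul]

theorem eval_eq (p : ℂ[X]) (z : ℂ) :
    p.eval z = p.leadingCoeff * (p.roots.map fun a => z - a).prod := by
  conv_lhs => rw [← C_leadingCoeff_mul_prod_multiset_X_sub_C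
    (IsAlgClosed.card_roots_eq_natDegree (p := p))]
  rw [eval_mul, eval_C, eval_multiset_prod, Multiset.map_map]
  congr 2
  apply Multiset.map_congr rfl
  intro a _
  simp

theorem norm_eval (p : ℂ[X]) (z : ℂ) :
    ‖p.eval z‖ = ‖p.leadingCoeff‖ * (p.roots.map fun a => ‖z - a‖).prod := by
  rw [eval_eq, norm_mul, norm_prod_map]

/-- `|a| ∏_{η ≠ 0} |η| ≥ 1` for an integer polynomial. -/
theorem one_le_prod_roots (n : ℕ) : ∀ f : ℤ[X], f ≠ 0 → f.natDegree ≤ n →
    1 ≤ ‖(f.map (Int.castRingHom ℂ)).leadingCoeff‖ *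
      ((f.map (Int.castRingHom ℂ)).roots.map fun η => if η = 0 then (1 : ℝ) else ‖η‖).prod := by
  induction n with
  | zero =>
    intro f hf hdeg
    have h0 : f.natDegree = 0 := by omega
    obtain ⟨c, rfl⟩ := natDegree_eq_zero.1 h0
    have hc : c ≠ 0 := by
      rintro rfl
      exact hf (map_zero _)
    rw [Polynomial.map_C, roots_C, leadingCoeff_C]
    simp only [Multiset.map_zero, Multiset.prod_zero, mul_one, eq_intCast]
    rw [Complex.norm_intCast]
    exact_mod_cast Int.one_le_abs hc
  | succ n ih =>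
    intro f hf hdeg
    set p := f.map (Int.castRingHom ℂ) with hp
    have hp0 : p ≠ 0 := by
      rw [hp, Ne, Polynomial.map_eq_zero_iff (RingHom.injective_int _)]
      exact hf
    by_cases hc : f.coeff 0 = 0
    · -- divide by `X`
      obtain ⟨g, rfl⟩ := X_dvd_iff.2 hc
      have hg : g ≠ 0 := by
        rintro rfl
        exact hf (mul_zero _)
      have hgd : g.natDegree ≤ n := by
        rw [natDegree_X_mul hg] at hdeg
        omega
      have h1 := ih g hg hgd
      have hpm : p = X * g.map (Int.castRingHom ℂ) := by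
        rw [hp, Polynomial.map_mul, Polynomial.map_X]
      rw [hpm] at hp0 ⊢
      rw [roots_mul hp0, roots_X, leadingCoeff_mul, leadingCoeff_X, one_mul]
      simpa using h1
    · have h1 : p.eval 0 = (f.coeff 0 : ℂ) := by
        rw [← coeff_zero_eq_eval_zero, hp, coeff_map]
        simp
      have h2 : ‖p.eval 0‖ = ‖p.leadingCoeff‖ *
          (p.roots.map fun η => if η = 0 then (1 : ℝ) else ‖η‖).prod := by
        rw [norm_eval]
        congr 2
        apply Multiset.map_congr rfl
        intro a ha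
        have ha0 : a ≠ 0 := by
          rintro rfl
          have := (mem_roots hp0).1 ha
          rw [IsRoot.def, h1] at this
          exact hc (by exact_mod_cast this)
        rw [if_neg ha0]
        simp
      rw [← h2, h1, Complex.norm_intCast]
      exact_mod_cast Int.one_le_abs hc

theorem eval_cast (lam : ℝ) (f : ℤ[X]) :
    (f.map (Int.castRingHom ℂ)).eval (lam : ℂ) = ((aeval lam f : ℝ) : ℂ) := by
  rw [eval_map, aeval_def]
  have := Polynomial.hom_eval₂ f (algebraMap ℤ ℝ) Complex.ofRealHom lam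
  rw [Complex.ofRealHom_eq_coe, Complex.ofRealHom_eq_coe] at this
  rw [this]
  congr 1

end H4

open H4 in
theorem near_root {lam : ℝ} (h0 : 1 / 2 < lam) (h1 : lam < 1) {f : ℤ[X]} (hf : f ≠ 0) {m : ℕ}
    (hm : 0 < m) (hdeg : f.natDegree ≤ m) (hM : Mah f ≤ 2) {C₁ : ℝ}
    (hC : 8 * Real.log (4 / (1 - lam)) ≤ C₁)
    (hval : |Polynomial.aeval lam f| ≤ (2 : ℝ) ^ (-(C₁ * m / 2))) :
    ∃ η : ℂ, (f.map (Int.castRingHom ℂ)).eval η = 0 ∧
      ‖(lam : ℂ) - η‖ ≤ Real.exp (-(C₁ * (1 - lam) / 16 * m)) := by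
  classical
  by_contra hcon
  push Not at hcon
  set p := f.map (Int.castRingHom ℂ) with hp
  have hp0 : p ≠ 0 := by
    rw [hp, Ne, Polynomial.map_eq_zero_iff (RingHom.injective_int _)]
    exact hf
  set ρ : ℝ := (1 - lam) / 4 with hρ
  have hρ0 : 0 < ρ := by rw [hρ]; linarith
  have hρ1 : ρ ≤ 1 / 8 := by rw [hρ]; linarith
  set q : ℝ := (1 + 3 * lam) / 4 with hq
  have hq0 : 0 < q := by rw [hq]; linarith
  have hq1 : q < 1 := by rw [hq]; linarith
  set K := p.roots.countP (fun η => ‖(lam : ℂ) - η‖ ≤ ρ) with hK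
  have hlc : 1 ≤ ‖p.leadingCoeff‖ := by
    rw [hp, leadingCoeff_map_of_injective (RingHom.injective_int _), eq_intCast,
      Complex.norm_intCast]
    exact_mod_cast Int.one_le_abs (leadingCoeff_ne_zero.2 hf)
  -- the number of near roots
  have hM1 : q⁻¹ ^ K ≤ Mah f := by
    have e1 : Mah f = ‖p.leadingCoeff‖ * (p.roots.map fun a => max 1 ‖a‖).prod :=
      mahlerMeasure_eq_leadingCoeff_mul_prod_roots p
    have e2 : (p.roots.map fun η => (if η = 0 then (1 : ℝ) else ‖η‖) *
        (if ‖(lam : ℂ) - η‖ ≤ ρ then q⁻¹ else 1)).prod ≤ (p.roots.map fun a => max 1 ‖a‖).prod := by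
      apply Multiset.prod_map_le_prod_map₀
      · intro η _
        apply mul_nonneg
        · split_ifs <;> positivity
        · split_ifs <;> positivity
      · intro η _
        by_cases hη : η = 0
        · subst hη
          rw [if_pos rfl, if_neg]
          · simp
          · rw [sub_zero, Complex.norm_real, Real.norm_of_nonneg (by linarith)]
            linarith
        · rw [if_neg hη]
          by_cases hn : ‖(lam : ℂ) - η‖ ≤ ρ
          · rw [if_pos hn]
            refine le_max_of_le_left ?_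
            rw [← div_eq_mul_inv, div_le_one hq0]
            have h2 : ‖η‖ ≤ ‖(lam : ℂ)‖ + ‖(lam : ℂ) - η‖ := by
              have : η = (lam : ℂ) - ((lam : ℂ) - η) := by ring
              conv_lhs => rw [this]
              exact norm_sub_le _ _
            rw [Complex.norm_real, Real.norm_of_nonneg (by linarith : (0 : ℝ) ≤ lam)] at h2
            rw [hq]
            rw [hρ] at hn
            linarith
          · rw [if_neg hn, mul_one]
            exact le_max_right _ _
    rw [Multiset.prod_map_mul, prod_ite] at e2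
    have e3 := one_le_prod_roots f.natDegree f hf le_rfl
    rw [← hp] at e3
    rw [e1]
    have e4 : (0 : ℝ) ≤ q⁻¹ ^ K := by positivity
    calc q⁻¹ ^ K = 1 * q⁻¹ ^ K := (one_mul _).symm
      _ ≤ (‖p.leadingCoeff‖ * (p.roots.map fun η => if η = 0 then (1 : ℝ) else ‖η‖).prod) *
          q⁻¹ ^ K := mul_le_mul_of_nonneg_right e3 e4
      _ = ‖p.leadingCoeff‖ * ((p.roots.map fun η => if η = 0 then (1 : ℝ) else ‖η‖).prod *
          q⁻¹ ^ K) := by ring
      _ ≤ _ := mul_le_mul_of_nonneg_left e2 (norm_nonneg _)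
  have hKl : (K : ℝ) * (1 - lam) ≤ 1 := by
    have e1 : q⁻¹ ^ K ≤ 2 := hM1.trans hM
    have e2 : (K : ℝ) * Real.log q⁻¹ ≤ Real.log 2 := by
      rw [← Real.log_pow]
      exact Real.log_le_log (by positivity) e1
    have e3 : 1 - q ≤ Real.log q⁻¹ := by
      rw [Real.log_inv]
      have := Real.log_le_sub_one_of_pos hq0
      linarith
    have e4 : (K : ℝ) * (1 - q) ≤ Real.log 2 :=
      (mul_le_mul_of_nonneg_left e3 (Nat.cast_nonneg K)).trans e2
    have e5 := Real.log_two_lt_d9
    have e6 : 1 - q = 3 / 4 * (1 - lam) := by rw [hq]; ring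
    rw [e6] at e4
    nlinarith
  -- lower bound for the value
  set δ : ℝ := Real.exp (-(C₁ * (1 - lam) / 16 * m)) with hδ
  have hlog : 0 < Real.log (4 / (1 - lam)) := by
    apply Real.log_pos
    rw [lt_div_iff₀ (by linarith)]
    linarith
  have hC0 : 0 < C₁ := by linarith
  have hm0 : (0 : ℝ) < m := by exact_mod_cast hm
  have hδ0 : 0 < δ := Real.exp_pos _
  have hδ1 : δ ≤ 1 := by
    rw [hδ, Real.exp_le_one_iff]
    have : 0 ≤ C₁ * (1 - lam) / 16 * m := by
      have : 0 < 1 - lam := by linarith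
      positivity
    linarith
  have hlow : ρ ^ m * δ ^ K ≤ ‖p.eval (lam : ℂ)‖ := by
    rw [norm_eval]
    have e2 : (p.roots.map fun η => ρ * (if ‖(lam : ℂ) - η‖ ≤ ρ then δ else 1)).prod ≤
        (p.roots.map fun a => ‖(lam : ℂ) - a‖).prod := by
      apply Multiset.prod_map_le_prod_map₀
      · intro η _
        apply mul_nonneg hρ0.le
        split_ifs <;> positivity
      · intro η hη
        have hη' : δ < ‖(lam : ℂ) - η‖ := hcon η ((mem_roots hp0).1 hη)
        by_cases hn : ‖(lam : ℂ) - η‖ ≤ ρ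
        · rw [if_pos hn]
          nlinarith
        · rw [if_neg hn, mul_one]
          exact (not_le.1 hn).le
    rw [Multiset.prod_map_mul, prod_ite, Multiset.map_const', Multiset.prod_replicate] at e2
    have e3 : p.roots.card ≤ m := by
      rw [IsAlgClosed.card_roots_eq_natDegree, hp,
        natDegree_map_eq_of_injective (RingHom.injective_int _)]
      exact hdeg
    have e4 : ρ ^ m ≤ ρ ^ p.roots.card :=
      pow_le_pow_of_le_one hρ0.le (by linarith) e3
    have e5 : (0 : ℝ) ≤ (p.roots.map fun a => ‖(lam : ℂ) - a‖).prod := by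
      apply Multiset.prod_nonneg
      intro a ha
      obtain ⟨b, -, rfl⟩ := Multiset.mem_map.1 ha
      exact norm_nonneg _
    calc ρ ^ m * δ ^ K ≤ ρ ^ p.roots.card * δ ^ K :=
          mul_le_mul_of_nonneg_right e4 (by positivity)
      _ ≤ (p.roots.map fun a => ‖(lam : ℂ) - a‖).prod := e2
      _ = 1 * (p.roots.map fun a => ‖(lam : ℂ) - a‖).prod := (one_mul _).symm
      _ ≤ _ := mul_le_mul_of_nonneg_right hlc e5
  rw [hp, eval_cast, Complex.norm_real, Real.norm_eq_abs] at hlow
  have hfin : ρ ^ m * δ ^ K ≤ (2 : ℝ) ^ (-(C₁ * m / 2)) := hlow.trans hval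
  have hfin2 := Real.log_le_log (by positivity) hfin
  rw [Real.log_mul (by positivity) (by positivity), Real.log_pow, Real.log_pow, hδ, Real.log_exp,
    Real.log_rpow (by norm_num)] at hfin2
  have hlρ : Real.log ρ = -Real.log (4 / (1 - lam)) := by
    rw [hρ, ← Real.log_inv, inv_div]
  rw [hlρ] at hfin2
  have g1 : -(C₁ / 8 * m) ≤ (m : ℝ) * -Real.log (4 / (1 - lam)) := by
    nlinarith
  have g2 : -(C₁ / 16 * m) ≤ (K : ℝ) * -(C₁ * (1 - lam) / 16 * m) := by
    have : (K : ℝ) * -(C₁ * (1 - lam) / 16 * m) = -((K * (1 - lam)) * (C₁ / 16 * m)) := by ring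
    rw [this]
    have h3 : 0 ≤ C₁ / 16 * m := by positivity
    nlinarith
  have g3 := Real.log_two_gt_d9
  have g4 : 0 < C₁ * m := by positivity
  nlinarith

end Pool.Agent.BCD
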