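import Pool.Agent.Work.MP_bc8e1e_an.D.H4
import Pool.Agent.Work.MP_bc8e1e_an.D.H4Root
import Pool.Agent.Work.MP_bc8e1e_an.D.C4c

/-!
# Bernoulli convolutions near 1: final assembly
-/

set_option autoImplicit false

open MeasureTheory ProbabilityTheory Polynomial Filter

namespace Pool.Agent.BCD

lemma large_x (c C₀ : ℝ) (hc : 0 < c) : ∃ X₀ : ℝ, 2 ≤ X₀ ∧ ∀ x : ℝ, X₀ ≤ x →
    2 ≤ Real.exp (c * x) ∧ C₀ ≤ Real.exp (c * x) / 2 ∧
    8 * Real.log (4 * x ^ 2) ≤ Real.exp (c * x) / 2 ∧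
    32 * x ^ 2 ≤ Real.exp (c * x / 2) := by
  have t1 : Tendsto (fun x : ℝ => c * x) atTop atTop := tendsto_id.const_mul_atTop hc
  have t2 : Tendsto (fun x : ℝ => Real.exp (c * x)) atTop atTop :=
    Real.tendsto_exp_atTop.comp t1
  have t3 : Tendsto (fun x : ℝ => c / 2 * x) atTop atTop :=
    tendsto_id.const_mul_atTop (by positivity)
  -- `x ^ 2 / exp (c x / 2) → 0`
  have t4 : Tendsto (fun x : ℝ => x ^ 2 * Real.exp (-(c / 2) * x)) atTop (nhds 0) := by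
    have := tendsto_rpow_mul_exp_neg_mul_atTop_nhds_zero 2 (c / 2) (by positivity)
    refine this.congr fun x => ?_
    norm_num
  have e1 : ∀ᶠ x : ℝ in atTop, x ^ 2 * Real.exp (-(c / 2) * x) < 1 / 64 :=
    t4.eventually (gt_mem_nhds (by norm_num))
  have e2 : ∀ᶠ x : ℝ in atTop, (2 : ℝ) ≤ Real.exp (c * x) := t2.eventually (eventually_ge_atTop 2)
  have e3 : ∀ᶠ x : ℝ in atTop, 2 * C₀ ≤ Real.exp (c * x) := t2.eventually (eventually_ge_atTop _)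
  have e4 : ∀ᶠ x : ℝ in atTop, (64 : ℝ) ≤ Real.exp (c / 2 * x) :=
    (Real.tendsto_exp_atTop.comp t3).eventually (eventually_ge_atTop _)
  obtain ⟨X, hX⟩ := (e1.and (e2.and (e3.and e4))).exists_forall_of_atTop
  refine ⟨max X 2, le_max_right _ _, fun x hx => ?_⟩
  obtain ⟨a1, a2, a3, a4⟩ := hX x (le_trans (le_max_left _ _) hx)
  have hx2 : 2 ≤ x := le_trans (le_max_right _ _) hx
  have hexp : Real.exp (c * x / 2) * Real.exp (-(c / 2) * x) = 1 := by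
    rw [← Real.exp_add]; ring_nf; simp
  have hpos : 0 < Real.exp (c * x / 2) := Real.exp_pos _
  have h64 : 64 * x ^ 2 ≤ Real.exp (c * x / 2) := by
    have : x ^ 2 = x ^ 2 * (Real.exp (c * x / 2) * Real.exp (-(c / 2) * x)) := by
      rw [hexp, mul_one]
    nlinarith [hpos, a1, this]
  refine ⟨a2, by linarith, ?_, by linarith [sq_nonneg x]⟩
  have hsq : Real.exp (c * x) = Real.exp (c * x / 2) ^ 2 := by
    rw [← Real.exp_nat_mul]; ring_nf
  have hlog : Real.log (4 * x ^ 2) ≤ 4 * x ^ 2 :=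
    (Real.log_le_sub_one_of_pos (by positivity)).trans (by linarith)
  have a4' : (64 : ℝ) ≤ Real.exp (c * x / 2) := by
    have : c / 2 * x = c * x / 2 := by ring
    rwa [this] at a4
  rw [hsq]
  nlinarith [hlog, h64, a4', sq_nonneg x]

/-- The dichotomy theorem. -/
theorem dichotomy (ε₁ : ℝ) (h0 : 0 < ε₁) (h1 : ε₁ ≤ 1) :
    ∃ c : ℝ, 0 < c ∧ ∃ l0 : ℝ, l0 < 1 ∧ ∀ l : ℝ, l0 < l → l < 1 →
      ∀ μ : Measure ℝ, IsProbabilityMeasure μ →
        μ = (1/2 : ENNReal) • μ.map (fun x : ℝ => l * x + 1)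
            + (1/2 : ENNReal) • μ.map (fun x : ℝ => l * x - 1) →
        μ ≪ (volume : Measure ℝ) ∨
        ∀ D₀ : ℕ, ∃ D : ℕ, D₀ ≤ D ∧ ∃ f : ℤ[X], f ≠ 0 ∧ f.natDegree ≤ D ∧
          (f.map (Int.castRingHom ℂ)).mahlerMeasure ≤ 1 + ε₁ ∧
          ∃ η : ℂ, (f.map (Int.castRingHom ℂ)).eval η = 0 ∧
            ‖(l : ℂ) - η‖ ≤ Real.exp (-(D * Real.exp (c / √(1 - l)))) := by
  obtain ⟨ε, hε, hε1, C₀, hinv⟩ := inverse ε₁ h0 h1
  obtain ⟨c₁, hc₁, l₁, hl₁, hac⟩ := ac_of_good ε hε hε1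
  obtain ⟨X₀, hX2, hX⟩ := large_x c₁ C₀ hc₁
  refine ⟨c₁ / 2, by positivity, max l₁ (1 - 1 / X₀ ^ 2), ?_, ?_⟩
  · refine max_lt hl₁ ?_
    have : 0 < 1 / X₀ ^ 2 := by positivity
    linarith
  intro l hl hl1 μ hμ hself
  have hla : l₁ < l := lt_of_le_of_lt (le_max_left _ _) hl
  have hlb : 1 - 1 / X₀ ^ 2 < l := lt_of_le_of_lt (le_max_right _ _) hl
  set u := 1 - l with hu
  have hu0 : 0 < u := by linarith
  have huX : u < 1 / X₀ ^ 2 := by linarith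
  set x := 1 / √u with hx
  have hsu : 0 < √u := Real.sqrt_pos.2 hu0
  have hxX : X₀ ≤ x := by
    rw [hx, le_div_iff₀ hsu]
    have h2 : √u ≤ √(1 / X₀ ^ 2) := Real.sqrt_le_sqrt huX.le
    have h3 : √(1 / X₀ ^ 2) = 1 / X₀ := by
      rw [Real.sqrt_div zero_le_one, Real.sqrt_one, Real.sqrt_sq (by linarith)]
    rw [h3] at h2
    calc X₀ * √u ≤ X₀ * (1 / X₀) := by
          apply mul_le_mul_of_nonneg_left h2 (by linarith)
      _ = 1 := by field_simp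
  have hxsq : x ^ 2 = 1 / u := by
    rw [hx, div_pow, one_pow, Real.sq_sqrt hu0.le]
  obtain ⟨b1, b2, b3, b4⟩ := hX x hxX
  have hcx : c₁ / √(1 - l) = c₁ * x := by rw [hx, ← hu]; ring
  have hcx2 : c₁ / 2 / √(1 - l) = c₁ * x / 2 := by rw [hx, ← hu]; ring
  set C₁ : ℕ := ⌊Real.exp (c₁ * x)⌋₊ with hC₁
  have hC₁le : (C₁ : ℝ) ≤ Real.exp (c₁ * x) := Nat.floor_le (Real.exp_pos _).le
  have hC₁ge : Real.exp (c₁ * x) / 2 ≤ C₁ := by
    have := Nat.lt_floor_add_one (Real.exp (c₁ * x))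
    rw [← hC₁] at this
    linarith
  have hC₁1 : 1 ≤ C₁ := by
    have : (1 : ℝ) ≤ C₁ := by linarith
    exact_mod_cast this
  obtain ⟨q, hq2, hq⟩ := hac l hla hl1 C₁ hC₁1 (by rw [hcx]; exact hC₁le)
  by_cases hgood : ∃ n₀ : ℕ, ∀ n : ℕ, n₀ ≤ n →
          Jc l (q ^ n) ((2 : ℝ) ^ (-((C₁ : ℝ) * (q ^ n : ℕ)))) ≤
            (2 : ℝ) ^ (-(ε * (q ^ n : ℕ)))
  · exact Or.inl (hq hgood μ hμ hself)
  right
  push Not at hgood
  have hlhalf : 1 / 2 < l := by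
    have : 1 / X₀ ^ 2 ≤ 1 / 2 ^ 2 := by
      apply one_div_le_one_div_of_le (by norm_num)
      nlinarith
    linarith
  obtain ⟨m₀, hm₀⟩ := hinv l hlhalf hl1 C₁ (by linarith)
  intro D₀
  -- choose `n` large
  obtain ⟨n₁, hn₁⟩ : ∃ n₁ : ℕ, ∀ n, n₁ ≤ n → m₀ ≤ q ^ n ∧ D₀ ≤ q ^ n ∧
      Real.pi / 4 ≤ ε * Real.log 2 * (q ^ n : ℕ) ∧ 0 < q ^ n := by
    have ht : Tendsto (fun n : ℕ => q ^ n) atTop atTop :=
      tendsto_pow_atTop_atTop_of_one_lt (by omega)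
    have hlog2 : 0 < Real.log 2 := Real.log_pos (by norm_num)
    have ht' : Tendsto (fun n : ℕ => ε * Real.log 2 * (q ^ n : ℕ)) atTop atTop := by
      apply Tendsto.const_mul_atTop (by positivity)
      exact tendsto_natCast_atTop_atTop.comp ht
    obtain ⟨n₁, h⟩ := ((ht.eventually (eventually_ge_atTop m₀)).and
      ((ht.eventually (eventually_ge_atTop D₀)).and
        (ht'.eventually (eventually_ge_atTop (Real.pi / 4))))).exists_forall_of_atTop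
    exact ⟨n₁, fun n hn => ⟨(h n hn).1, (h n hn).2.1, (h n hn).2.2, by positivity⟩⟩
  obtain ⟨n, hn, hbad⟩ := hgood n₁
  obtain ⟨c1, c2, c3, c4⟩ := hn₁ n hn
  set m := q ^ n with hm
  have hIc : (2 : ℝ) ^ (-(2 * ε * m)) ≤ Ic l m ((2 : ℝ) ^ (-((C₁ : ℝ) * m))) := by
    have h1 := Jc_le_Ic (lam := l) m (a := (2 : ℝ) ^ (-((C₁ : ℝ) * m))) (by positivity)
    have h2 : (2 : ℝ) ^ (-(ε * m)) ≤ Real.exp (Real.pi / 4) *
        Ic l m ((2 : ℝ) ^ (-((C₁ : ℝ) * m))) := le_trans hbad.le h1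
    have h3 : (2 : ℝ) ^ (-(2 * ε * m)) * Real.exp (Real.pi / 4) ≤ (2 : ℝ) ^ (-(ε * m)) := by
      rw [Real.rpow_def_of_pos (by norm_num), Real.rpow_def_of_pos (by norm_num), ← Real.exp_add]
      apply Real.exp_le_exp.2
      nlinarith [c3]
    have hE : 0 < Real.exp (Real.pi / 4) := Real.exp_pos _
    have h4 := le_trans h3 h2
    rw [mul_comm] at h4
    exact le_of_mul_le_mul_left h4 hE
  obtain ⟨f, hf0, hfdeg, hfM, hfv⟩ := hm₀ m c1 hIc
  have hlog4 : 8 * Real.log (4 / (1 - l)) ≤ C₁ := by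
    have : 4 / (1 - l) = 4 * x ^ 2 := by rw [hxsq, ← hu]; ring
    rw [this]; linarith
  obtain ⟨η, hη, hdist⟩ := near_root hlhalf hl1 hf0 c4 hfdeg (by linarith : Mah f ≤ 2) hlog4 hfv
  refine ⟨m, c2, f, hf0, hfdeg, hfM, η, hη, hdist.trans ?_⟩
  apply Real.exp_le_exp.2
  rw [hcx2, neg_le_neg_iff]
  have h5 : Real.exp (c₁ * x / 2) ≤ C₁ * (1 - l) / 16 := by
    have hsq : Real.exp (c₁ * x) = Real.exp (c₁ * x / 2) ^ 2 := by
      rw [← Real.exp_nat_mul]; ring_nf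
    have h6 : u * x ^ 2 = 1 := by rw [hxsq]; field_simp
    have hE := Real.exp_pos (c₁ * x / 2)
    rw [← hu]
    rw [hsq] at hC₁ge
    have h7 : 32 ≤ Real.exp (c₁ * x / 2) * u := by
      calc (32 : ℝ) = 32 * x ^ 2 * u := by rw [mul_assoc, mul_comm (x ^ 2) u, h6]; ring
        _ ≤ Real.exp (c₁ * x / 2) * u := mul_le_mul_of_nonneg_right b4 hu0.le
    have h8 : Real.exp (c₁ * x / 2) ^ 2 / 2 * u ≤ C₁ * u :=
      mul_le_mul_of_nonneg_right hC₁ge hu0.le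
    have h9 : Real.exp (c₁ * x / 2) * 32 ≤
        Real.exp (c₁ * x / 2) * (Real.exp (c₁ * x / 2) * u) :=
      mul_le_mul_of_nonneg_left h7 hE.le
    rw [le_div_iff₀ (by norm_num)]
    calc Real.exp (c₁ * x / 2) * 16 = Real.exp (c₁ * x / 2) * 32 / 2 := by ring
      _ ≤ Real.exp (c₁ * x / 2) * (Real.exp (c₁ * x / 2) * u) / 2 := by linarith
      _ = Real.exp (c₁ * x / 2) ^ 2 / 2 * u := by ring
      _ ≤ C₁ * u := h8
  calc (m : ℝ) * Real.exp (c₁ * x / 2) ≤ m * (C₁ * (1 - l) / 16) := by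
        apply mul_le_mul_of_nonneg_left h5; positivity
    _ = C₁ * (1 - l) / 16 * m := by ring

/-- Lehmer's conjecture implies absolute continuity for all parameters near `1`. -/
theorem lehmer_imp (θ : ℝ) (hθ : 0 < θ)
    (hL : ∀ f : ℤ[X], f ≠ 0 → (f.map (Int.castRingHom ℂ)).mahlerMeasure ≤ 1 + θ →
      (f.map (Int.castRingHom ℂ)).mahlerMeasure = 1) :
    ∃ l0 : ℝ, l0 < 1 ∧ ∀ l : ℝ, l0 < l → l < 1 →
      ∀ μ : Measure ℝ, IsProbabilityMeasure μ →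
        μ = (1/2 : ENNReal) • μ.map (fun x : ℝ => l * x + 1)
            + (1/2 : ENNReal) • μ.map (fun x : ℝ => l * x - 1) →
        μ ≪ (volume : Measure ℝ) := by
  obtain ⟨c, hc, l0, hl0, h⟩ := dichotomy (min θ 1) (by positivity) (min_le_right _ _)
  refine ⟨max l0 (1 / 2), max_lt hl0 (by norm_num), ?_⟩
  intro l hl hl1 μ hμ hself
  have hla : l0 < l := lt_of_le_of_lt (le_max_left _ _) hl
  have hlb : 1 / 2 < l := lt_of_le_of_lt (le_max_right _ _) hl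
  rcases h l hla hl1 μ hμ hself with h1 | h2
  · exact h1
  exfalso
  -- choose `D₀` with `exp (-D₀) < 1 - l`
  obtain ⟨D₀, hD₀⟩ := exists_nat_gt (Real.log (1 / (1 - l)))
  obtain ⟨D, hD, f, hf0, hdeg, hM, η, hη, hdist⟩ := h2 (D₀ + 1)
  have hM1 := hL f hf0 (hM.trans (by linarith [min_le_left θ 1]))
  have hlt : ‖(l : ℂ) - η‖ < 1 - l := by
    have hu : 0 < 1 - l := by linarith
    refine hdist.trans_lt ?_
    have h3 : Real.log (1 / (1 - l)) < D * Real.exp (c / √(1 - l)) := by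
      have : (D₀ : ℝ) ≤ D := by exact_mod_cast (by omega : D₀ ≤ D)
      have h4 : (1 : ℝ) ≤ Real.exp (c / √(1 - l)) := Real.one_le_exp (by positivity)
      have hD0 : (0 : ℝ) ≤ D := Nat.cast_nonneg _
      nlinarith
    have h5 : -(D * Real.exp (c / √(1 - l))) < Real.log (1 - l) := by
      rw [Real.log_div one_ne_zero hu.ne', Real.log_one] at h3
      linarith
    calc Real.exp (-(D * Real.exp (c / √(1 - l)))) < Real.exp (Real.log (1 - l)) :=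
          Real.exp_lt_exp.2 h5
      _ = 1 - l := Real.exp_log hu
  by_cases hz : η = 0
  · rw [hz, sub_zero, Complex.norm_real, Real.norm_eq_abs, abs_of_pos (by linarith)] at hlt
    linarith
  have hroot : η ∈ f.aroots ℂ := by
    rw [mem_aroots]
    refine ⟨hf0, ?_⟩
    rw [aeval_def, eval₂_eq_eval_map]
    exact hη
  obtain ⟨n, hn, hpow⟩ := pow_eq_one_of_mahlerMeasure_eq_one hM1 hz hroot
  have hnorm : ‖η‖ = 1 := by
    have : ‖η‖ ^ n = 1 := by rw [← norm_pow, hpow, norm_one]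
    exact (pow_eq_one_iff_of_nonneg (norm_nonneg _) hn.ne').1 this
  have h6 : ‖η‖ - ‖(l : ℂ)‖ ≤ ‖(l : ℂ) - η‖ := by
    rw [norm_sub_rev]; exact norm_sub_norm_le _ _
  rw [hnorm, Complex.norm_real, Real.norm_eq_abs, abs_of_pos (by linarith)] at h6
  linarith

end Pool.Agent.BCD
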