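import Pool.Agent.Work.MP_bc8e1e_an.D.Defs

/-!
# Bernoulli convolutions near 1: Gram determinants
-/

set_option autoImplicit false

open MeasureTheory ProbabilityTheory Polynomial
open scoped RealInnerProductSpace

namespace Pool.Agent.BCD

namespace R7g

variable {E : Type*} [NormedAddCommGroup E] [InnerProductSpace ℝ E]
  {F : Type*} [NormedAddCommGroup F] [InnerProductSpace ℝ F]

lemma gram_change {ι κ : Type*} [Fintype ι] [Fintype κ]
    (x : κ → E) (A : Matrix ι κ ℝ) :
    (Matrix.gram ℝ fun i => ∑ j, A i j • x j) = A * Matrix.gram ℝ x * A.transpose := by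
  ext i k
  simp only [Matrix.gram_apply, Matrix.mul_apply, Matrix.transpose_apply]
  rw [sum_inner]
  simp only [inner_sum, inner_smul_left, inner_smul_right, Finset.sum_mul]
  rw [Finset.sum_comm]
  refine Finset.sum_congr rfl fun j _ => Finset.sum_congr rfl fun l _ => ?_
  simp
  ring

lemma det_change {ι : Type*} [Fintype ι] [DecidableEq ι]
    (x : ι → E) (A : Matrix ι ι ℝ) :
    (Matrix.gram ℝ fun i => ∑ j, A i j • x j).det = A.det ^ 2 * (Matrix.gram ℝ x).det := by
  rw [gram_change, Matrix.det_mul, Matrix.det_mul, Matrix.det_transpose]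
  ring

lemma det_nonneg {ι : Type*} [Fintype ι] [DecidableEq ι] (x : ι → E) :
    0 ≤ (Matrix.gram ℝ x).det :=
  (Matrix.posSemidef_gram ℝ x).det_nonneg

lemma det_append_sum {m n : ℕ} (v : Fin m → E) (w : Fin n → E) :
    (Matrix.gram ℝ (Fin.append v w)).det = (Matrix.gram ℝ (Sum.elim v w)).det := by
  have h1 : Matrix.gram ℝ (Fin.append v w) =
      (Matrix.gram ℝ (Sum.elim v w)).submatrix finSumFinEquiv.symm finSumFinEquiv.symm := by
    ext i j
    rw [Matrix.submatrix_apply, Matrix.gram_apply, Matrix.gram_apply]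
    have h2 : ∀ i, Fin.append v w i = Sum.elim v w (finSumFinEquiv.symm i) := by
      intro i
      refine Fin.addCases (fun k => ?_) (fun k => ?_) i
      · rw [Fin.append_left]; simp
      · rw [Fin.append_right]; simp
    rw [h2, h2]
  rw [h1, Matrix.det_submatrix_equiv_self]

end R7g

section

variable {E : Type*} [NormedAddCommGroup E] [InnerProductSpace ℝ E]
  {F : Type*} [NormedAddCommGroup F] [InnerProductSpace ℝ F]

open R7g

/-- block formula; the projection is onto the orthogonal complement of `span v`. -/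
theorem gram_append {m n : ℕ} (v : Fin m → E) (w : Fin n → E) (U : Submodule ℝ E)
    [U.HasOrthogonalProjection] (hU : U = Submodule.span ℝ (Set.range v)) :
    (Matrix.gram ℝ (Fin.append v w)).det =
      (Matrix.gram ℝ v).det * (Matrix.gram ℝ fun i => w i - U.starProjection (w i)).det := by
  classical
  set w' : Fin n → E := fun i => w i - U.starProjection (w i) with hw'
  have h1 : ∀ i, ∃ c : Fin m → ℝ, ∑ j, c j • v j = U.starProjection (w i) := by
    intro i
    have : U.starProjection (w i) ∈ Submodule.span ℝ (Set.range v) := by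
      rw [← hU]
      exact Submodule.starProjection_apply_mem _ _
    exact (Submodule.mem_span_range_iff_exists_fun ℝ).1 this
  choose B hB using h1
  rw [det_append_sum]
  let A : Matrix (Fin m ⊕ Fin n) (Fin m ⊕ Fin n) ℝ := Matrix.fromBlocks 1 0 (Matrix.of B) 1
  have h2 : Sum.elim v w = fun i => ∑ j, A i j • Sum.elim v w' j := by
    funext i
    rw [Fintype.sum_sum_type]
    rcases i with i | i
    · simp [A, Matrix.one_apply]
    · simp [A, Matrix.one_apply, hB, hw']
  have h3 : A.det = 1 := by
    simp [A]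
  rw [h2, det_change, h3, one_pow, one_mul]
  have h4 : Matrix.gram ℝ (Sum.elim v w') =
      Matrix.fromBlocks (Matrix.gram ℝ v) 0 0 (Matrix.gram ℝ w') := by
    have horth : ∀ i j, ⟪v i, w' j⟫ = 0 := by
      intro i j
      have hv : v i ∈ U := by
        rw [hU]
        exact Submodule.subset_span ⟨i, rfl⟩
      exact Submodule.inner_right_of_mem_orthogonal hv
        (Submodule.sub_starProjection_mem_orthogonal (w j))
    ext i j
    rcases i with i | i <;> rcases j with j | j
    · simp [Matrix.gram_apply]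
    · simp [Matrix.gram_apply, horth]
    · simp [Matrix.gram_apply, real_inner_comm, horth]
    · simp [Matrix.gram_apply]
  rw [h4, Matrix.det_fromBlocks_zero₁₂]

/-- adding one vector -/
lemma R7g.gram_snoc {n : ℕ} (v : Fin (n + 1) → E) (U : Submodule ℝ E)
    [U.HasOrthogonalProjection]
    (hU : U = Submodule.span ℝ (Set.range fun i : Fin n => v i.castSucc)) :
    (Matrix.gram ℝ v).det = (Matrix.gram ℝ fun i : Fin n => v i.castSucc).det *
      ‖v (Fin.last n) - U.starProjection (v (Fin.last n))‖ ^ 2 := by
  have h1 : v = Fin.append (fun i : Fin n => v i.castSucc) (fun _ : Fin 1 => v (Fin.last n)) := by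
    funext i
    refine Fin.addCases (fun k => ?_) (fun k => ?_) i
    · rw [Fin.append_left]
      rfl
    · rw [Fin.append_right]
      congr 1
      ext
      simp
  conv_lhs => rw [h1]
  rw [gram_append _ _ U hU]
  congr 1
  rw [Matrix.det_unique, Matrix.gram_apply, real_inner_self_eq_norm_sq]

/-- contraction -/
theorem gram_det_contract {n : ℕ} (v : Fin n → E) (T : E →ₗ[ℝ] F) (hT : ∀ x, ‖T x‖ ≤ ‖x‖) :
    (Matrix.gram ℝ fun i => T (v i)).det ≤ (Matrix.gram ℝ v).det := by
  induction n with
  | zero => simp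
  | succ n ih =>
    set v' : Fin n → E := fun i => v i.castSucc with hv'
    have f0 : FiniteDimensional ℝ (Submodule.span ℝ (Set.range v')) :=
      FiniteDimensional.span_of_finite ℝ (Set.finite_range _)
    have f1 : FiniteDimensional ℝ (Submodule.span ℝ (Set.range fun i => T (v' i))) :=
      FiniteDimensional.span_of_finite ℝ (Set.finite_range _)
    set U0 := Submodule.span ℝ (Set.range v') with hU0
    set U1 := Submodule.span ℝ (Set.range fun i => T (v' i)) with hU1
    rw [R7g.gram_snoc v U0 hU0, R7g.gram_snoc (fun i => T (v i)) U1 hU1]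
    have hle : ∀ x ∈ U0, T x ∈ U1 := by
      intro x hx
      have h1 : U0.map T ≤ U1 := by
        rw [hU0, Submodule.map_span, Submodule.span_le]
        rintro _ ⟨_, ⟨i, rfl⟩, rfl⟩
        exact Submodule.subset_span ⟨i, rfl⟩
      exact h1 (Submodule.mem_map_of_mem hx)
    set x := v (Fin.last n) with hx
    have h1 : ‖T x - U1.starProjection (T x)‖ ≤ ‖x - U0.starProjection x‖ := by
      have h2 : ‖T x - U1.starProjection (T x)‖ ≤ ‖T x - T (U0.starProjection x)‖ := by
        rw [Submodule.starProjection_minimal]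
        exact ciInf_le ⟨0, by rintro _ ⟨y, rfl⟩; exact norm_nonneg _⟩
          (⟨T (U0.starProjection x), hle _ (Submodule.starProjection_apply_mem _ _)⟩ : U1)
      rw [← map_sub] at h2
      exact h2.trans (hT _)
    have h3 := ih v'
    exact mul_le_mul h3 (pow_le_pow_left₀ (norm_nonneg _) h1 2) (by positivity)
      (R7g.det_nonneg _)

/-- if `c ‖x‖ ≤ ‖T x‖` -/
theorem gram_det_expand {n : ℕ} (v : Fin n → E) (T : E →ₗ[ℝ] F) {c : ℝ} (hc : 0 < c)
    (hT : ∀ x, c * ‖x‖ ≤ ‖T x‖) :
    c ^ (2 * n) * (Matrix.gram ℝ v).det ≤ (Matrix.gram ℝ fun i => T (v i)).det := by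
  induction n with
  | zero => simp
  | succ n ih =>
    set v' : Fin n → E := fun i => v i.castSucc with hv'
    have f0 : FiniteDimensional ℝ (Submodule.span ℝ (Set.range v')) :=
      FiniteDimensional.span_of_finite ℝ (Set.finite_range _)
    have f1 : FiniteDimensional ℝ (Submodule.span ℝ (Set.range fun i => T (v' i))) :=
      FiniteDimensional.span_of_finite ℝ (Set.finite_range _)
    set U0 := Submodule.span ℝ (Set.range v') with hU0
    set U1 := Submodule.span ℝ (Set.range fun i => T (v' i)) with hU1
    rw [R7g.gram_snoc v U0 hU0, R7g.gram_snoc (fun i => T (v i)) U1 hU1]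
    have hsurj : ∀ y ∈ U1, ∃ x ∈ U0, T x = y := by
      intro y hy
      have h1 : U1 ≤ U0.map T := by
        rw [hU1, Submodule.span_le]
        rintro _ ⟨i, rfl⟩
        exact Submodule.mem_map_of_mem (Submodule.subset_span ⟨i, rfl⟩)
      exact h1 hy
    set x := v (Fin.last n) with hx
    have h1 : c * ‖x - U0.starProjection x‖ ≤ ‖T x - U1.starProjection (T x)‖ := by
      obtain ⟨y, hy, hTy⟩ := hsurj _ (Submodule.starProjection_apply_mem U1 (T x))
      rw [← hTy, ← map_sub]
      refine le_trans ?_ (hT _)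
      refine mul_le_mul_of_nonneg_left ?_ hc.le
      rw [Submodule.starProjection_minimal]
      exact ciInf_le ⟨0, by rintro _ ⟨y, rfl⟩; exact norm_nonneg _⟩ (⟨y, hy⟩ : U0)
    have h3 := ih v'
    have h4 : (c * ‖x - U0.starProjection x‖) ^ 2 ≤ ‖T x - U1.starProjection (T x)‖ ^ 2 :=
      pow_le_pow_left₀ (by positivity) h1 2
    calc c ^ (2 * (n + 1)) * ((Matrix.gram ℝ v').det * ‖x - U0.starProjection x‖ ^ 2)
        = (c ^ (2 * n) * (Matrix.gram ℝ v').det) * (c * ‖x - U0.starProjection x‖) ^ 2 := by
          ring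
      _ ≤ _ := mul_le_mul h3 h4 (by positivity) (R7g.det_nonneg _)

/-- determinant one maps preserve the Gram determinant of a basis. -/
theorem gram_det_map [FiniteDimensional ℝ E] (v : Fin (Module.finrank ℝ E) → E)
    (T : E →ₗ[ℝ] E) :
    (Matrix.gram ℝ fun i => T (v i)).det = T.det ^ 2 * (Matrix.gram ℝ v).det := by
  classical
  let e := stdOrthonormalBasis ℝ E
  let A : Matrix (Fin (Module.finrank ℝ E)) (Fin (Module.finrank ℝ E)) ℝ :=
    Matrix.of fun i j => e.repr (v i) j
  let M := LinearMap.toMatrix e.toBasis e.toBasis T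
  have hv : v = fun i => ∑ j, A i j • e j := by
    funext i
    exact (e.sum_repr (v i)).symm
  have hTe : ∀ j, T (e j) = ∑ k, M k j • e k := by
    intro j
    have := (e.sum_repr (T (e j))).symm
    rw [this]
    refine Finset.sum_congr rfl fun k _ => ?_
    simp [M, LinearMap.toMatrix_apply]
  have hTv : (fun i => T (v i)) = fun i => ∑ k, (A * M.transpose) i k • e k := by
    funext i
    conv_lhs => rw [hv]
    simp only [map_sum, map_smul, hTe, Finset.smul_sum, smul_smul, Matrix.mul_apply,
      Matrix.transpose_apply, Finset.sum_smul]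
    rw [Finset.sum_comm]
  have hg : (Matrix.gram ℝ e).det = 1 := by
    rw [Matrix.gram_eq_one_iff_orthonormal.2 e.orthonormal, Matrix.det_one]
  have h1 : (Matrix.gram ℝ fun i => T (v i)).det = (A * M.transpose).det ^ 2 := by
    rw [hTv, det_change, hg, mul_one]
  have h2 : (Matrix.gram ℝ v).det = A.det ^ 2 := by
    conv_lhs => rw [hv]
    rw [det_change, hg, mul_one]
  have h3 : M.det = T.det := LinearMap.det_toMatrix _ T
  rw [h1, h2, Matrix.det_mul, Matrix.det_transpose, h3]
  ring

end

end Pool.Agent.BCD
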