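import Pool.Agent.Work.MP_bc8e1e_an.D.H1a
import Pool.Agent.Work.MP_bc8e1e_an.D.R7g

/-!
# Bernoulli convolutions near 1: covolumes of lattices of integer polynomials
-/

set_option autoImplicit false

open MeasureTheory ProbabilityTheory Polynomial
open scoped RealInnerProductSpace

namespace Pool.Agent.BCD

namespace H1

section Gen

variable {E : Type*} [NormedAddCommGroup E] [InnerProductSpace ℝ E]
  {F : Type*} [NormedAddCommGroup F] [InnerProductSpace ℝ F]

lemma norm_sub_starProjection_le (U : Submodule ℝ E) [U.HasOrthogonalProjection] (x : E) :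
    ‖x - U.starProjection x‖ ≤ ‖x‖ := by
  have h := Submodule.norm_starProjection_apply_le Uᗮ x
  rw [Submodule.starProjection_orthogonal'] at h
  simpa using h

/-- Fischer's inequality for a middle block. -/
lemma fischer {n k l : ℕ} (u : Fin n → E) (v : Fin k → E) (w : Fin l → E) :
    (Matrix.gram ℝ (Fin.append (Fin.append u v) w)).det * (Matrix.gram ℝ u).det ≤
      (Matrix.gram ℝ (Fin.append u v)).det * (Matrix.gram ℝ (Fin.append u w)).det := by
  have f0 : FiniteDimensional ℝ (Submodule.span ℝ (Set.range u)) :=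
    FiniteDimensional.span_of_finite ℝ (Set.finite_range _)
  have f1 : FiniteDimensional ℝ (Submodule.span ℝ (Set.range (Fin.append u v))) :=
    FiniteDimensional.span_of_finite ℝ (Set.finite_range _)
  set U0 := Submodule.span ℝ (Set.range u) with hU0
  set U1 := Submodule.span ℝ (Set.range (Fin.append u v)) with hU1
  have hle : U0 ≤ U1 := by
    rw [hU0, hU1]
    apply Submodule.span_mono
    rintro _ ⟨i, rfl⟩
    exact ⟨Fin.castAdd k i, Fin.append_left _ _ _⟩
  rw [gram_append (Fin.append u v) w U1 hU1, gram_append u w U0 hU0]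
  have h1 : (Matrix.gram ℝ fun i => w i - U1.starProjection (w i)).det ≤
      (Matrix.gram ℝ fun i => w i - U0.starProjection (w i)).det := by
    have h2 := gram_det_contract (fun i => w i - U0.starProjection (w i))
      (LinearMap.id - (U1.starProjection : E →ₗ[ℝ] E)) (fun x => by
        simpa using norm_sub_starProjection_le U1 x)
    have h3 : (fun i => (LinearMap.id - (U1.starProjection : E →ₗ[ℝ] E) : E →ₗ[ℝ] E)
        (w i - U0.starProjection (w i))) = fun i => w i - U1.starProjection (w i) := by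
      funext i
      have h4 : U1.starProjection (U0.starProjection (w i)) = U0.starProjection (w i) :=
        Submodule.starProjection_eq_self_iff.2 (hle (Submodule.starProjection_apply_mem _ _))
      simp only [LinearMap.sub_apply, LinearMap.id_apply, ContinuousLinearMap.coe_coe, map_sub]
      rw [h4]
      abel
    rwa [h3] at h2
  have hu := gram_det_nonneg u
  have huv := gram_det_nonneg (Fin.append u v)
  calc (Matrix.gram ℝ (Fin.append u v)).det *
        (Matrix.gram ℝ fun i => w i - U1.starProjection (w i)).det * (Matrix.gram ℝ u).det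
      ≤ (Matrix.gram ℝ (Fin.append u v)).det *
        (Matrix.gram ℝ fun i => w i - U0.starProjection (w i)).det * (Matrix.gram ℝ u).det := by
        gcongr
    _ = _ := by ring

/-- a contraction decreases the relative Gram determinant. -/
lemma shift_ineq {n k : ℕ} (u : Fin n → E) (v : Fin k → E) (T : E →ₗ[ℝ] F)
    (hT : ∀ x, ‖T x‖ ≤ ‖x‖) :
    (Matrix.gram ℝ (Fin.append (fun i => T (u i)) (fun i => T (v i)))).det *
        (Matrix.gram ℝ u).det ≤
      (Matrix.gram ℝ (fun i => T (u i))).det * (Matrix.gram ℝ (Fin.append u v)).det := by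
  have f0 : FiniteDimensional ℝ (Submodule.span ℝ (Set.range u)) :=
    FiniteDimensional.span_of_finite ℝ (Set.finite_range _)
  have f1 : FiniteDimensional ℝ (Submodule.span ℝ (Set.range (fun i => T (u i)))) :=
    FiniteDimensional.span_of_finite ℝ (Set.finite_range _)
  set U0 := Submodule.span ℝ (Set.range u) with hU0
  set U1 := Submodule.span ℝ (Set.range (fun i => T (u i))) with hU1
  have hle : ∀ x ∈ U0, T x ∈ U1 := by
    intro x hx
    have h1 : U0.map T ≤ U1 := by
      rw [hU0, Submodule.map_span, Submodule.span_le]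
      rintro _ ⟨_, ⟨i, rfl⟩, rfl⟩
      exact Submodule.subset_span ⟨i, rfl⟩
    exact h1 (Submodule.mem_map_of_mem hx)
  rw [gram_append (fun i => T (u i)) (fun i => T (v i)) U1 hU1, gram_append u v U0 hU0]
  have h1 : (Matrix.gram ℝ fun i => T (v i) - U1.starProjection (T (v i))).det ≤
      (Matrix.gram ℝ fun i => v i - U0.starProjection (v i)).det := by
    have h2 := gram_det_contract (fun i => v i - U0.starProjection (v i))
      ((LinearMap.id - (U1.starProjection : F →ₗ[ℝ] F)) ∘ₗ T) (fun x => by
        refine le_trans ?_ (hT x)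
        simpa using norm_sub_starProjection_le U1 (T x))
    have h3 : (fun i => ((LinearMap.id - (U1.starProjection : F →ₗ[ℝ] F) : F →ₗ[ℝ] F) ∘ₗ T)
        (v i - U0.starProjection (v i))) = fun i => T (v i) - U1.starProjection (T (v i)) := by
      funext i
      have h4 : U1.starProjection (T (U0.starProjection (v i))) = T (U0.starProjection (v i)) :=
        Submodule.starProjection_eq_self_iff.2 (hle _ (Submodule.starProjection_apply_mem _ _))
      simp only [LinearMap.comp_apply, LinearMap.sub_apply, LinearMap.id_apply,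
        ContinuousLinearMap.coe_coe, map_sub]
      rw [h4]
      abel
    rwa [h3] at h2
  have hu := gram_det_nonneg u
  have huT := gram_det_nonneg (fun i => T (u i))
  calc (Matrix.gram ℝ (fun i => T (u i))).det *
        (Matrix.gram ℝ fun i => T (v i) - U1.starProjection (T (v i))).det *
          (Matrix.gram ℝ u).det
      ≤ (Matrix.gram ℝ (fun i => T (u i))).det *
        (Matrix.gram ℝ fun i => v i - U0.starProjection (v i)).det *
          (Matrix.gram ℝ u).det := by
        gcongr
    _ = _ := by ring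

end Gen

variable {lam W T : ℝ}

lemma norm_of_sq (lam W : ℝ) (P : ℝ[X]) : ‖PW.of lam W P‖ ^ 2 = PW.ip lam W P P := by
  rw [← real_inner_self_eq_norm_sq, PW.inner_def]

lemma inner_io0 (lam : ℝ) (P Q : ℤ[X]) : ∃ d : ℤ, ⟪io lam 0 P, io lam 0 Q⟫ = (d : ℝ) := by
  refine ⟨∑ j ∈ Finset.range (P.natDegree + 1), P.coeff j * Q.coeff j, ?_⟩
  unfold io
  rw [PW.inner_def, PW.ip_eq lam 0 _ _ (P.natDegree + 1)
    (Nat.lt_succ_of_le natDegree_map_le)]
  simp

lemma io_append {m n : ℕ} (u : Fin m → ℤ[X]) (v : Fin n → ℤ[X]) :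
    (fun i => io lam W (Fin.append u v i)) =
      Fin.append (fun i => io lam W (u i)) (fun i => io lam W (v i)) := by
  funext i
  refine Fin.addCases (fun j => ?_) (fun j => ?_) i
  · rw [Fin.append_left, Fin.append_left]
  · rw [Fin.append_right, Fin.append_right]

lemma cov_le' {U : Submodule ℚ ℚ[X]} [Module.Finite ℚ U] {m : ℕ}
    (hm : m = Module.finrank ℚ U) (v : Fin m → ℤ[X]) (hv : ∀ i, v i ∈ MU U)
    (hli : LinearIndependent ℤ v) :
    cov lam W U ≤ (Matrix.gram ℝ fun i => io lam W (v i)).det := by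
  subst hm
  exact cov_le v hv hli

/-- multiplication by `X` -/
noncomputable def mX (lam W : ℝ) : PW lam W →ₗ[ℝ] PW lam W :=
  (PW.of lam W).toLinearMap ∘ₗ (LinearMap.mulLeft ℝ (X : ℝ[X])) ∘ₗ
    (PW.of lam W).symm.toLinearMap

lemma mX_io (P : ℤ[X]) : mX lam W (io lam W P) = io lam W (X * P) := by
  simp [mX, io]

lemma norm_mX_le (h0 : 0 < lam) (h1 : lam < 1) (x : PW lam W) : ‖mX lam W x‖ ≤ ‖x‖ := by
  obtain ⟨P, rfl⟩ := (PW.of lam W).surjective x
  have h2 : mX lam W (PW.of lam W P) = PW.of lam W (X * P) := by simp [mX]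
  rw [h2]
  refine le_of_sq_le_sq ?_ (norm_nonneg _)
  have h3 : (X * P).natDegree < P.natDegree + 1 + 1 := by
    have := natDegree_mul_le (p := (X : ℝ[X])) (q := P)
    rw [natDegree_X] at this
    omega
  rw [norm_of_sq, norm_of_sq, PW.ip_self _ _ _ _ h3, PW.ip_self _ _ P _ (Nat.lt_succ_self _),
    Finset.sum_range_succ', eval_mul, eval_X]
  simp only [coeff_X_mul, coeff_X_mul_zero]
  have h4 : W ^ 2 * (lam * P.eval lam) ^ 2 ≤ W ^ 2 * (P.eval lam) ^ 2 := by
    have h5 : (lam * P.eval lam) ^ 2 ≤ (P.eval lam) ^ 2 := by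
      rw [mul_pow]
      have h6 : lam ^ 2 ≤ 1 := by nlinarith
      exact mul_le_of_le_one_left (sq_nonneg _) h6
    exact mul_le_mul_of_nonneg_left h5 (sq_nonneg _)
  simp only [ne_eq, OfNat.ofNat_ne_zero, not_false_eq_true, zero_pow, add_zero]
  linarith

end H1

section H1

variable {lam W T : ℝ}

open H1

theorem one_le_cov (U : Submodule ℚ ℚ[X]) [Module.Finite ℚ U] : 1 ≤ cov lam W U := by
  obtain ⟨b, hb⟩ := exists_bas U
  rw [hb.cov_eq]
  have h1 := gram_det_contract (fun i => io lam W (b i))
    ((PW.of lam 0).toLinearMap ∘ₗ (PW.of lam W).symm.toLinearMap) (fun x => by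
      obtain ⟨P, rfl⟩ := (PW.of lam W).surjective x
      simp only [LinearMap.comp_apply, LinearEquiv.coe_coe, LinearEquiv.symm_apply_apply]
      refine le_of_sq_le_sq ?_ (norm_nonneg _)
      rw [norm_of_sq, norm_of_sq, PW.ip_self _ _ _ _ (Nat.lt_succ_self _),
        PW.ip_self _ _ _ _ (Nat.lt_succ_self _)]
      have : 0 ≤ W ^ 2 * (P.eval lam) ^ 2 := by positivity
      linarith)
  refine le_trans ?_ h1
  have h2 : (fun i => ((PW.of lam 0).toLinearMap ∘ₗ (PW.of lam W).symm.toLinearMap)
      (io lam W (b i))) = fun i => io lam 0 (b i) := by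
    funext i
    simp [io]
  rw [h2]
  have h3 := H1.gram_det_pos (li_io (lam := lam) (W := 0) hb.li)
  choose d hd using fun i j => inner_io0 lam (b i) (b j)
  have h4 : (Matrix.gram ℝ fun i => io lam 0 (b i)) =
      (Matrix.of d).map (Int.castRingHom ℝ) := by
    ext i j
    rw [Matrix.gram_apply, hd]
    rfl
  have h5 : (Matrix.gram ℝ fun i => io lam 0 (b i)).det = ((Matrix.of d).det : ℝ) := by
    rw [h4]
    exact (RingHom.map_det (Int.castRingHom ℝ) (Matrix.of d)).symm
  rw [h5] at h3 ⊢
  have h6 : 0 < (Matrix.of d).det := by exact_mod_cast h3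
  exact_mod_cast h6

theorem cov_sup_inf (U V : Submodule ℚ ℚ[X]) [Module.Finite ℚ U] [Module.Finite ℚ V] :
    cov lam W (U ⊔ V) * cov lam W (U ⊓ V) ≤ cov lam W U * cov lam W V := by
  have : Module.Finite ℚ (U ⊓ V : Submodule ℚ ℚ[X]) := H2.finite_of_le inf_le_left
  obtain ⟨n, u, hu⟩ := H1.exists_bas' (U ⊓ V)
  obtain ⟨k, v, hv⟩ := hu.extend (U := U) inf_le_left
  obtain ⟨l, w, hw⟩ := hu.extend (U := V) inf_le_right
  have hmem : ∀ i, Fin.append (Fin.append u v) w i ∈ MU (U ⊔ V) := by
    intro i
    refine Fin.addCases (fun j => ?_) (fun j => ?_) i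
    · rw [Fin.append_left]
      exact (le_sup_left : U ≤ U ⊔ V) (hv.mem j)
    · rw [Fin.append_right]
      have := hw.mem (Fin.natAdd n j)
      rw [Fin.append_right] at this
      exact (le_sup_right : V ≤ U ⊔ V) this
  have hli : LinearIndependent ℤ (Fin.append (Fin.append u v) w) := by
    have h1 := hv.li
    have h2 := hw.li
    rw [Fintype.linearIndependent_iff] at h1 h2 ⊢
    intro c hc
    rw [Fin.sum_univ_add] at hc
    simp only [Fin.append_left, Fin.append_right] at hc
    -- the last block lies in the intersection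
    have h3 : (∑ i, c (Fin.natAdd (n + k) i) • w i) ∈ MU (U ⊓ V) := by
      have a1 : (∑ i, c (Fin.natAdd (n + k) i) • w i) ∈ MU V := by
        refine AddSubgroup.sum_mem _ fun i _ => AddSubgroup.zsmul_mem _ ?_ _
        have := hw.mem (Fin.natAdd n i)
        rwa [Fin.append_right] at this
      have a2 : (∑ i, c (Fin.natAdd (n + k) i) • w i) ∈ MU U := by
        rw [← neg_eq_iff_add_eq_zero.2 hc]
        refine AddSubgroup.neg_mem _ (AddSubgroup.sum_mem _ fun i _ => ?_)
        exact AddSubgroup.zsmul_mem _ (hv.mem i) _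
      exact ⟨a2, a1⟩
    obtain ⟨a, ha⟩ := hu.span _ h3
    have h4 := h2 (Fin.append (-a) (fun i => c (Fin.natAdd (n + k) i))) (by
      rw [Fin.sum_univ_add]
      simp only [Fin.append_left, Fin.append_right, Pi.neg_apply, neg_smul,
        Finset.sum_neg_distrib]
      rw [← ha]
      abel)
    have h5 : ∀ i, c (Fin.natAdd (n + k) i) = 0 := by
      intro i
      have := h4 (Fin.natAdd n i)
      rwa [Fin.append_right] at this
    have h6 := h1 (fun i => c (Fin.castAdd l i)) (by
      rw [← hc]
      simp [h5])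
    intro i
    refine Fin.addCases (fun j => ?_) (fun j => ?_) i
    · exact h6 j
    · exact h5 j
  have hcard : n + k + l = Module.finrank ℚ (U ⊔ V : Submodule ℚ ℚ[X]) := by
    have h1 := Submodule.finrank_sup_add_finrank_inf_eq U V
    have h2 := hu.card
    have h3 := hv.card
    have h4 := hw.card
    omega
  have h1 := cov_le' (lam := lam) (W := W) hcard _ hmem hli
  rw [io_append, io_append] at h1
  have h2 := fischer (fun i => io lam W (u i)) (fun i => io lam W (v i))
    (fun i => io lam W (w i))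
  rw [hu.cov_eq, hv.cov_eq, hw.cov_eq, io_append, io_append]
  refine le_trans ?_ h2
  exact mul_le_mul_of_nonneg_right h1 (gram_det_nonneg _)

theorem H1.IsBas_shift {U : Submodule ℚ ℚ[X]} {n : ℕ} {b : Fin n → ℤ[X]} (hb : IsBas U b) :
    IsBas (shU U) (fun i => X * b i) := by
  refine ⟨?_, ?_, ?_⟩
  · intro i
    rw [mem_MU, Polynomial.map_mul, map_X, H2.X_mul_mem_shU]
    exact hb.mem i
  · have h1 := hb.li
    rw [Fintype.linearIndependent_iff] at h1 ⊢
    intro c hc
    apply h1 c
    have h2 : X * ∑ i, c i • b i = 0 := by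
      rw [← hc, Finset.mul_sum]
      refine Finset.sum_congr rfl fun i _ => ?_
      rw [mul_smul_comm]
    exact (mul_eq_zero.1 h2).resolve_left X_ne_zero
  · intro P hP
    rw [mem_MU, H2.mem_shU] at hP
    obtain ⟨q, hq, hqP⟩ := hP
    have h1 : P.coeff 0 = 0 := by
      have := congrArg (fun p : ℚ[X] => p.coeff 0) hqP
      simpa using this.symm
    have h2 : P = X * P.divX := by
      conv_lhs => rw [← divX_mul_X_add P, h1]
      rw [map_zero, add_zero, X_mul]
    have h3 : P.divX ∈ MU U := by
      rw [mem_MU, ← H2.X_mul_mem_shU, ← map_X (Int.castRingHom ℚ), ← Polynomial.map_mul, ← h2,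
        H2.mem_shU]
      exact ⟨q, hq, hqP⟩
    obtain ⟨c, hc⟩ := hb.span _ h3
    refine ⟨c, ?_⟩
    rw [h2, hc, Finset.mul_sum]
    refine Finset.sum_congr rfl fun i _ => ?_
    rw [mul_smul_comm]

theorem cov_shift (h0 : 0 < lam) (h1 : lam < 1) {V U : Submodule ℚ ℚ[X]} [Module.Finite ℚ U]
    (hVU : V ≤ U) :
    cov lam W (shU U) * cov lam W V ≤ cov lam W (shU V) * cov lam W U := by
  have : Module.Finite ℚ V := H2.finite_of_le hVU
  obtain ⟨n, u, hu⟩ := H1.exists_bas' V
  obtain ⟨k, v, hv⟩ := hu.extend hVU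
  have h2 := shift_ineq (fun i => io lam W (u i)) (fun i => io lam W (v i)) (mX lam W)
    (norm_mX_le h0 h1)
  have h3 := H1.IsBas_shift hu
  have h4 := H1.IsBas_shift hv
  have e1 : (fun i => X * Fin.append u v i) =
      Fin.append (fun i => X * u i) (fun i => X * v i) := by
    funext i
    refine Fin.addCases (fun j => ?_) (fun j => ?_) i
    · rw [Fin.append_left, Fin.append_left]
    · rw [Fin.append_right, Fin.append_right]
  rw [e1] at h4
  rw [hu.cov_eq, hv.cov_eq, h3.cov_eq, h4.cov_eq, io_append, io_append]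
  simpa only [mX_io] using h2

end H1

end Pool.Agent.BCD
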