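import Pool.Agent.Work.MP_bc8e1e_an.D.H2a

/-!
# Bernoulli convolutions near 1: lattices of integer polynomials
-/

set_option autoImplicit false

open MeasureTheory ProbabilityTheory Polynomial
open scoped RealInnerProductSpace

namespace Pool.Agent.BCD

namespace H1

lemma li_map (K : Type*) [Field K] [CharZero K] {n : ℕ} {v : Fin n → ℤ[X]}
    (hv : LinearIndependent ℤ v) :
    LinearIndependent K fun i => (v i).map (Int.castRingHom K) := by
  classical
  obtain ⟨N, hN⟩ : ∃ N, ∀ i, (v i).natDegree < N :=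
    ⟨Finset.univ.sup (fun i => (v i).natDegree) + 1, fun i =>
      Nat.lt_succ_of_le (Finset.le_sup (f := fun i => (v i).natDegree) (Finset.mem_univ i))⟩
  have h1 : LinearIndependent ℤ (fun i => fun j : Fin N => (v i).coeff (j : ℕ)) := by
    rw [Fintype.linearIndependent_iff] at hv ⊢
    intro c hc
    apply hv c
    ext j
    by_cases hj : j < N
    · have := congrFun hc ⟨j, hj⟩
      simpa [finsetSum_coeff] using this
    · simp only [finsetSum_coeff, coeff_smul, coeff_zero]
      refine Finset.sum_eq_zero fun i _ => ?_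
      rw [coeff_eq_zero_of_natDegree_lt (lt_of_lt_of_le (hN i) (not_lt.1 hj)), smul_zero]
  have h2 := (linearIndependent_algebraMap_comp_iff (S := K)).2 h1
  rw [Fintype.linearIndependent_iff] at h2 ⊢
  intro c hc
  apply h2 c
  ext j
  have := congrArg (fun p : K[X] => p.coeff (j : ℕ)) hc
  simpa [finsetSum_coeff] using this

lemma clear_denom (p : ℚ[X]) : ∃ d : ℤ, d ≠ 0 ∧ ∃ P : ℤ[X],
    P.map (Int.castRingHom ℚ) = (d : ℚ) • p := by
  obtain ⟨b, hbM, hb⟩ := IsLocalization.integerNormalization_spec (nonZeroDivisors ℤ) p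
  refine ⟨b, nonZeroDivisors.ne_zero hbM,
    IsLocalization.integerNormalization (nonZeroDivisors ℤ) p, ?_⟩
  have h2 : (algebraMap ℤ ℚ) = Int.castRingHom ℚ := rfl
  rw [← h2, hb, zsmul_eq_mul, smul_eq_C_mul]
  simp

end H1

section H1

variable {lam W T : ℝ}

theorem li_io {n : ℕ} {v : Fin n → ℤ[X]} (hv : LinearIndependent ℤ v) :
    LinearIndependent ℝ fun i => io lam W (v i) :=
  (H1.li_map ℝ hv).map' (PW.of lam W).toLinearMap (LinearEquiv.ker _)

lemma H1.mem_of_smul {U : Submodule ℚ ℚ[X]} {d : ℤ} (hd : d ≠ 0) {P : ℤ[X]}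
    (h : d • P ∈ MU U) : P ∈ MU U := by
  rw [mem_MU] at h ⊢
  have h1 : (d • P).map (Int.castRingHom ℚ) = (d : ℚ) • P.map (Int.castRingHom ℚ) := by
    rw [Polynomial.map_smul, Int.coe_castRingHom]
  rw [h1] at h
  have hd' : (d : ℚ) ≠ 0 := by exact_mod_cast hd
  exact (U.smul_mem_iff hd').1 h

theorem IsBas.card {U : Submodule ℚ ℚ[X]} {n : ℕ} {b : Fin n → ℤ[X]} (hb : IsBas U b) :
    n = Module.finrank ℚ U := by
  have h1 : LinearIndependent ℚ (fun i => (⟨(b i).map (Int.castRingHom ℚ), hb.mem i⟩ : U)) := by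
    refine LinearIndependent.of_comp U.subtype ?_
    exact H1.li_map ℚ hb.li
  have h2 : ⊤ ≤ Submodule.span ℚ
      (Set.range (fun i => (⟨(b i).map (Int.castRingHom ℚ), hb.mem i⟩ : U))) := by
    rintro ⟨p, hp⟩ -
    obtain ⟨d, hd, P, hP⟩ := H1.clear_denom p
    have hd' : (d : ℚ) ≠ 0 := by exact_mod_cast hd
    have hPU : P ∈ MU U := by
      rw [mem_MU, hP]
      exact U.smul_mem _ hp
    obtain ⟨c, hc⟩ := hb.span P hPU
    have h3 : (⟨p, hp⟩ : U) = ∑ i, ((c i : ℚ) / d) •
        (⟨(b i).map (Int.castRingHom ℚ), hb.mem i⟩ : U) := by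
      apply Subtype.ext
      rw [Submodule.coe_sum]
      simp only [Submodule.coe_smul]
      have h4 : (d : ℚ) • p = (d : ℚ) • ∑ i, ((c i : ℚ) / d) •
          (b i).map (Int.castRingHom ℚ) := by
        rw [← hP, hc, Polynomial.map_sum, Finset.smul_sum]
        refine Finset.sum_congr rfl fun i _ => ?_
        rw [smul_smul, mul_div_cancel₀ _ hd', Polynomial.map_smul, Int.coe_castRingHom]
      exact smul_right_injective _ hd' h4
    rw [h3]
    exact Submodule.sum_mem _ fun i _ => Submodule.smul_mem _ _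
      (Submodule.subset_span ⟨i, rfl⟩)
  have h3 := Module.finrank_eq_card_basis (Module.Basis.mk h1 h2)
  rw [h3, Fintype.card_fin]

/-- the lattice as a `ℤ`-submodule. -/
noncomputable def H1.MZ (U : Submodule ℚ ℚ[X]) : Submodule ℤ ℤ[X] :=
  AddSubgroup.toIntSubmodule (MU U)

lemma H1.mem_MZ {U : Submodule ℚ ℚ[X]} {P : ℤ[X]} : P ∈ H1.MZ U ↔ P ∈ MU U := Iff.rfl

lemma H1.noeth (U : Submodule ℚ ℚ[X]) [Module.Finite ℚ U] : IsNoetherian ℤ (H1.MZ U) := by
  obtain ⟨N, hN⟩ := H2.exists_degreeLT U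
  have h1 : H1.MZ U ≤ degreeLT ℤ N := by
    intro P hP
    have h2 := mem_degreeLT.1 (hN (mem_MU.1 hP))
    rw [degree_map_eq_of_injective (RingHom.injective_int _)] at h2
    exact mem_degreeLT.2 h2
  have : IsNoetherian ℤ (degreeLT ℤ N) := isNoetherian_of_isNoetherianRing_of_finite ℤ _
  exact isNoetherian_of_le h1

theorem H1.exists_bas' (U : Submodule ℚ ℚ[X]) [Module.Finite ℚ U] :
    ∃ (n : ℕ) (b : Fin n → ℤ[X]), IsBas U b := by
  have := H1.noeth U
  have h1 : Module.Free ℤ (H1.MZ U) := inferInstance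
  let B := Module.finBasis ℤ (H1.MZ U)
  refine ⟨_, fun i => (B i : ℤ[X]), ?_, ?_, ?_⟩
  · intro i
    exact (B i).2
  · exact B.linearIndependent.map' (H1.MZ U).subtype (Submodule.ker_subtype _)
  · intro P hP
    refine ⟨fun i => B.repr ⟨P, hP⟩ i, ?_⟩
    have h2 := congrArg (fun x : H1.MZ U => (x : ℤ[X])) (B.sum_repr ⟨P, hP⟩)
    simp only [Submodule.coe_sum, Submodule.coe_smul] at h2
    exact h2.symm

theorem exists_bas (U : Submodule ℚ ℚ[X]) [Module.Finite ℚ U] :
    ∃ b : Fin (Module.finrank ℚ U) → ℤ[X], IsBas U b := by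
  obtain ⟨n, b, hb⟩ := H1.exists_bas' U
  obtain rfl := hb.card
  exact ⟨b, hb⟩

/-- a basis of a (primitive) sublattice extends to a basis. -/
theorem IsBas.extend {V U : Submodule ℚ ℚ[X]} [Module.Finite ℚ U] (hVU : V ≤ U) {n : ℕ}
    {b : Fin n → ℤ[X]} (hb : IsBas V b) :
    ∃ (k : ℕ) (c : Fin k → ℤ[X]), IsBas U (Fin.append b c) := by
  have hN := H1.noeth U
  let M := H1.MZ U
  let K : Submodule ℤ M := (H1.MZ V).comap M.subtype
  have hVU' : ∀ P ∈ MU V, P ∈ MU U := fun P hP => hVU hP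
  have htf : Module.IsTorsionFree ℤ (M ⧸ K) := by
    refine Module.IsTorsionFree.mk ?_
    intro d hd x y hxy
    obtain ⟨x, rfl⟩ := Submodule.Quotient.mk_surjective K x
    obtain ⟨y, rfl⟩ := Submodule.Quotient.mk_surjective K y
    simp only [← Submodule.Quotient.mk_smul] at hxy
    rw [Submodule.Quotient.eq] at hxy ⊢
    rw [← smul_sub] at hxy
    exact H1.mem_of_smul hd.ne_zero hxy
  have hfin : Module.Finite ℤ (M ⧸ K) := inferInstance
  have hfree : Module.Free ℤ (M ⧸ K) := inferInstance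
  let B := Module.finBasis ℤ (M ⧸ K)
  choose g hg using fun i => Submodule.Quotient.mk_surjective K (B i)
  let b' : Fin n → K := fun i => ⟨⟨b i, hVU' _ (hb.mem i)⟩, hb.mem i⟩
  have hb' : LinearIndependent ℤ b' := by
    refine LinearIndependent.of_comp (M.subtype.comp K.subtype) ?_
    exact hb.li
  have hg' : LinearIndependent ℤ (Submodule.Quotient.mk (p := K) ∘ g) := by
    have : (Submodule.Quotient.mk (p := K) ∘ g) = B := funext hg
    rw [this]
    exact B.linearIndependent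
  have hli := (LinearIndependent.sumElim_of_quotient hb' g hg').map' M.subtype
    (Submodule.ker_subtype _)
  refine ⟨_, fun i => (g i : ℤ[X]), ?_, ?_, ?_⟩
  · intro i
    refine Fin.addCases (fun j => ?_) (fun j => ?_) i
    · rw [Fin.append_left]
      exact hVU' _ (hb.mem j)
    · rw [Fin.append_right]
      exact (g j).2
  · have e1 : (Fin.append b fun i => (g i : ℤ[X])) =
        (M.subtype ∘ Sum.elim (fun i => ((b' i : K) : M)) g) ∘ finSumFinEquiv.symm := by
      funext i
      refine Fin.addCases (fun j => ?_) (fun j => ?_) i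
      · rw [Fin.append_left]
        simp [b']
      · rw [Fin.append_right]
        simp
    rw [e1]
    exact hli.comp _ finSumFinEquiv.symm.injective
  · intro P hP
    have h1 := B.sum_repr (Submodule.Quotient.mk (p := K) ⟨P, hP⟩)
    set r := B.repr (Submodule.Quotient.mk (p := K) ⟨P, hP⟩) with hr
    have h2 : Submodule.Quotient.mk (p := K) (∑ i, r i • g i) =
        Submodule.Quotient.mk (p := K) ⟨P, hP⟩ := by
      rw [← h1, ← Submodule.mkQ_apply, map_sum]
      refine Finset.sum_congr rfl fun i _ => ?_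
      rw [map_smul, Submodule.mkQ_apply, hg]
    rw [Submodule.Quotient.eq] at h2
    have h3 : (∑ i, r i • (g i : ℤ[X])) - P ∈ H1.MZ V := by
      have : ((∑ i, r i • g i - ⟨P, hP⟩ : M) : ℤ[X]) ∈ H1.MZ V := h2
      simpa using this
    obtain ⟨c, hc⟩ := hb.span _ h3
    refine ⟨Fin.append (-c) (fun i => r i), ?_⟩
    rw [Fin.sum_univ_add]
    simp only [Fin.append_left, Fin.append_right, Pi.neg_apply, neg_smul, Finset.sum_neg_distrib]
    rw [← hc]
    abel

/-! ### Gram determinants -/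

lemma H1.gram_det_change {E : Type*} [NormedAddCommGroup E] [InnerProductSpace ℝ E] {n : ℕ}
    (x : Fin n → E) (A : Matrix (Fin n) (Fin n) ℝ) :
    (Matrix.gram ℝ fun i => ∑ j, A i j • x j).det = A.det ^ 2 * (Matrix.gram ℝ x).det := by
  have h1 : (Matrix.gram ℝ fun i => ∑ j, A i j • x j) = A * Matrix.gram ℝ x * A.transpose := by
    ext i k
    simp only [Matrix.gram_apply, Matrix.mul_apply, Matrix.transpose_apply]
    rw [sum_inner]
    simp only [inner_sum, inner_smul_left, inner_smul_right, Finset.sum_mul]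
    rw [Finset.sum_comm]
    refine Finset.sum_congr rfl fun j _ => Finset.sum_congr rfl fun l _ => ?_
    simp
    ring
  rw [h1, Matrix.det_mul, Matrix.det_mul, Matrix.det_transpose]
  ring

lemma H1.gram_det_nonneg {E : Type*} [NormedAddCommGroup E] [InnerProductSpace ℝ E] {n : ℕ}
    (x : Fin n → E) : 0 ≤ (Matrix.gram ℝ x).det :=
  (Matrix.posSemidef_gram ℝ x).det_nonneg

lemma H1.gram_det_pos {E : Type*} [NormedAddCommGroup E] [InnerProductSpace ℝ E] {n : ℕ}
    {x : Fin n → E} (hx : LinearIndependent ℝ x) : 0 < (Matrix.gram ℝ x).det :=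
  (Matrix.posDef_gram_of_linearIndependent hx).det_pos

lemma H1.io_sum {n : ℕ} (c : Fin n → ℤ) (b : Fin n → ℤ[X]) :
    io lam W (∑ j, c j • b j) = ∑ j, (c j : ℝ) • io lam W (b j) := by
  unfold io
  rw [Polynomial.map_sum, map_sum]
  refine Finset.sum_congr rfl fun j _ => ?_
  rw [Polynomial.map_smul, map_smul, Int.coe_castRingHom]

lemma H1.exists_matrix {U : Submodule ℚ ℚ[X]} {n : ℕ} {b : Fin n → ℤ[X]} (hb : IsBas U b)
    {v : Fin n → ℤ[X]} (hv : ∀ i, v i ∈ MU U) (hli : LinearIndependent ℤ v) :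
    ∃ d : ℤ, d ≠ 0 ∧ (Matrix.gram ℝ fun i => io lam W (v i)).det =
      (d : ℝ) ^ 2 * (Matrix.gram ℝ fun i => io lam W (b i)).det := by
  choose c hc using fun i => hb.span (v i) (hv i)
  let A : Matrix (Fin n) (Fin n) ℤ := Matrix.of c
  refine ⟨A.det, ?_, ?_⟩
  · intro h0
    obtain ⟨w, hw0, hw⟩ := Matrix.exists_vecMul_eq_zero_iff.2 h0
    apply hw0
    rw [Fintype.linearIndependent_iff] at hli
    refine funext (hli w ?_)
    have h1 : ∑ i, w i • v i = ∑ j, (Matrix.vecMul w A) j • b j := by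
      simp only [Matrix.vecMul, dotProduct, Finset.sum_smul]
      rw [Finset.sum_comm]
      refine Finset.sum_congr rfl fun i _ => ?_
      rw [hc i, Finset.smul_sum]
      refine Finset.sum_congr rfl fun j _ => ?_
      rw [smul_smul]
      rfl
    rw [h1, hw]
    simp
  · have h1 : (fun i => io lam W (v i)) =
        fun i => ∑ j, (A.map (Int.castRingHom ℝ)) i j • io lam W (b j) := by
      funext i
      rw [hc i, H1.io_sum]
      rfl
    rw [h1, H1.gram_det_change]
    congr 2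
    exact (RingHom.map_det (Int.castRingHom ℝ) A).symm

theorem IsBas.cov_eq {U : Submodule ℚ ℚ[X]} {n : ℕ} {b : Fin n → ℤ[X]} (hb : IsBas U b) :
    cov lam W U = (Matrix.gram ℝ fun i => io lam W (b i)).det := by
  obtain rfl := hb.card
  unfold cov
  apply IsLeast.csInf_eq
  constructor
  · exact ⟨b, hb.mem, hb.li, rfl⟩
  · rintro g ⟨v, hv, hli, rfl⟩
    obtain ⟨d, hd, hdet⟩ := H1.exists_matrix (lam := lam) (W := W) hb hv hli
    rw [hdet]
    have h1 : (1 : ℝ) ≤ (d : ℝ) ^ 2 := by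
      have : (1 : ℤ) ≤ d ^ 2 := by
        have := sq_nonneg d
        have h2 : d ^ 2 ≠ 0 := pow_ne_zero 2 hd
        omega
      exact_mod_cast this
    exact le_mul_of_one_le_left (H1.gram_det_nonneg _) h1

theorem cov_le {U : Submodule ℚ ℚ[X]} [Module.Finite ℚ U]
    (v : Fin (Module.finrank ℚ U) → ℤ[X]) (hv : ∀ i, v i ∈ MU U)
    (hli : LinearIndependent ℤ v) :
    cov lam W U ≤ (Matrix.gram ℝ fun i => io lam W (v i)).det := by
  refine csInf_le ⟨0, ?_⟩ ⟨v, hv, hli, rfl⟩
  rintro g ⟨w, -, -, rfl⟩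
  exact H1.gram_det_nonneg _

theorem cov_bot : cov lam W ⊥ = 1 := by
  have hb : IsBas (⊥ : Submodule ℚ ℚ[X]) (Fin.elim0 : Fin 0 → ℤ[X]) := by
    refine ⟨fun i => i.elim0, linearIndependent_empty_type, ?_⟩
    intro P hP
    rw [mem_MU, Submodule.mem_bot, Polynomial.map_eq_zero_iff (RingHom.injective_int _)] at hP
    exact ⟨Fin.elim0, by simp [hP]⟩
  rw [hb.cov_eq]
  simp

theorem finrank_shU (U : Submodule ℚ ℚ[X]) :
    Module.finrank ℚ (shU U) = Module.finrank ℚ U := H2.finrank_shU' U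

end H1

end Pool.Agent.BCD
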