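import Pool.Agent.Work.MP_bc8e1e_an.D.H2a
import Pool.Agent.Work.MP_bc8e1e_an.D.H1

/-!
# Bernoulli convolutions near 1: the canonical subspace
-/

set_option autoImplicit false

open MeasureTheory ProbabilityTheory Polynomial

namespace Pool.Agent.BCD

section H2

open H2

variable {lam W T : ℝ}

lemma H2.supermod (U V : Submodule ℚ ℚ[X]) [Module.Finite ℚ U] [Module.Finite ℚ V] :
    gT lam W T U + gT lam W T V ≤ gT lam W T (U ⊔ V) + gT lam W T (U ⊓ V) := by
  have : Module.Finite ℚ (U ⊓ V : Submodule ℚ ℚ[X]) := H2.finite_of_le (inf_le_left)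
  have hU := one_le_cov (lam := lam) (W := W) U
  have hV := one_le_cov (lam := lam) (W := W) V
  have hs := one_le_cov (lam := lam) (W := W) (U ⊔ V)
  have hi := one_le_cov (lam := lam) (W := W) (U ⊓ V)
  have h1 := cov_sup_inf (lam := lam) (W := W) U V
  have h2 := Real.log_le_log (by positivity) h1
  rw [Real.log_mul (by positivity) (by positivity), Real.log_mul (by positivity) (by positivity)]
    at h2
  have h3 : (Module.finrank ℚ (U ⊔ V : Submodule ℚ ℚ[X]) : ℝ) +
      Module.finrank ℚ (U ⊓ V : Submodule ℚ ℚ[X]) =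
      Module.finrank ℚ U + Module.finrank ℚ V := by
    exact_mod_cast Submodule.finrank_sup_add_finrank_inf_eq U V
  have h4 : 2 * Real.log T * ((Module.finrank ℚ (U ⊔ V : Submodule ℚ ℚ[X]) : ℝ) +
      Module.finrank ℚ (U ⊓ V : Submodule ℚ ℚ[X])) =
      2 * Real.log T * (Module.finrank ℚ U + Module.finrank ℚ V) := by rw [h3]
  rw [mul_add, mul_add] at h4
  unfold gT
  linarith

lemma H2.Cl_sup {U V : Submodule ℚ ℚ[X]} [Module.Finite ℚ U] [Module.Finite ℚ V]
    (hU : Cl lam W T U) (hV : Cl lam W T V) : Cl lam W T (U ⊔ V) := by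
  intro N hN
  have : Module.Finite ℚ N := H2.finite_of_le hN
  have h1 := H2.supermod (lam := lam) (W := W) (T := T) N U
  have h2 := hU (N ⊓ U) inf_le_right
  have h3 := H2.supermod (lam := lam) (W := W) (T := T) (N ⊔ U) V
  have h4 := hV ((N ⊔ U) ⊓ V) inf_le_right
  have h5 : N ⊔ U ⊔ V = U ⊔ V := by
    rw [sup_assoc]
    exact sup_eq_right.2 hN
  rw [h5] at h3
  linarith

lemma H2.Cl_bot : Cl lam W T ⊥ := by
  intro V hV
  rw [le_bot_iff.1 hV]

theorem exists_max (lam W T : ℝ) (n : ℕ) : ∃ D : Submodule ℚ ℚ[X],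
    D ≤ degreeLT ℚ n ∧ Cl lam W T D ∧
    (∀ U : Submodule ℚ ℚ[X], U ≤ degreeLT ℚ n → Cl lam W T U → U ≤ D) ∧
    (∀ U : Submodule ℚ ℚ[X], D ≤ U → U ≤ degreeLT ℚ n → gT lam W T U ≤ gT lam W T D) := by
  classical
  -- a `Cl` subspace of maximal dimension
  let S : Set ℕ := {k | ∃ D : Submodule ℚ ℚ[X], D ≤ degreeLT ℚ n ∧ Cl lam W T D ∧
    Module.finrank ℚ D = k}
  have hS0 : S.Nonempty := ⟨Module.finrank ℚ (⊥ : Submodule ℚ ℚ[X]), ⊥, bot_le, H2.Cl_bot, rfl⟩
  have hSb : BddAbove S := by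
    refine ⟨Module.finrank ℚ (degreeLT ℚ n), ?_⟩
    rintro k ⟨D, hD, -, rfl⟩
    exact Submodule.finrank_mono hD
  obtain ⟨D, hDn, hDC, hDk⟩ := Nat.sSup_mem hS0 hSb
  have hDf : Module.Finite ℚ D := H2.finite_of_le hDn
  have hmax : ∀ U : Submodule ℚ ℚ[X], U ≤ degreeLT ℚ n → Cl lam W T U → U ≤ D := by
    intro U hU hUC
    have : Module.Finite ℚ U := H2.finite_of_le hU
    have h1 : Module.finrank ℚ (D ⊔ U : Submodule ℚ ℚ[X]) ≤ Module.finrank ℚ D := by
      rw [hDk]
      exact le_csSup hSb ⟨D ⊔ U, sup_le hDn hU, H2.Cl_sup hDC hUC, rfl⟩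
    have h2 : D = D ⊔ U := by
      apply Submodule.eq_of_le_of_finrank_eq le_sup_left
      exact le_antisymm (Submodule.finrank_mono le_sup_left) h1
    rw [h2]
    exact le_sup_right
  refine ⟨D, hDn, hDC, hmax, ?_⟩
  intro U₀ hDU₀ hU₀n
  by_contra hlt
  push Not at hlt
  -- a counterexample of minimal dimension
  let Q : ℕ → Prop := fun k => ∃ U : Submodule ℚ ℚ[X], D ≤ U ∧ U ≤ degreeLT ℚ n ∧
    gT lam W T D < gT lam W T U ∧ Module.finrank ℚ U = k
  have hQ : ∃ k, Q k := ⟨_, U₀, hDU₀, hU₀n, hlt, rfl⟩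
  obtain ⟨U, hDU, hUn, hgU, hUk⟩ := Nat.find_spec hQ
  have : Module.Finite ℚ U := H2.finite_of_le hUn
  have hUC : Cl lam W T U := by
    intro U' hU'
    by_contra hgt
    push Not at hgt
    have : Module.Finite ℚ U' := H2.finite_of_le hU'
    have h1 := H2.supermod (lam := lam) (W := W) (T := T) U' D
    have h2 := hDC (U' ⊓ D) inf_le_right
    have h3 : U' ⊔ D ≤ U := sup_le hU' hDU
    have h4 : Q (Module.finrank ℚ (U' ⊔ D : Submodule ℚ ℚ[X])) :=
      ⟨U' ⊔ D, le_sup_right, h3.trans hUn, by linarith, rfl⟩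
    have h5 := Nat.find_min' hQ h4
    rw [← hUk] at h5
    have h6 : U' ⊔ D = U := Submodule.eq_of_le_of_finrank_eq h3
      (le_antisymm (Submodule.finrank_mono h3) h5)
    rw [h6] at h1
    linarith
  have h7 : U = D := le_antisymm (hmax U hUn hUC) hDU
  rw [h7] at hgU
  exact lt_irrefl _ hgU

theorem Cl_shift (h0 : 0 < lam) (h1 : lam < 1) {U : Submodule ℚ ℚ[X]} [Module.Finite ℚ U]
    (hU : Cl lam W T U) : Cl lam W T (shU U) := by
  intro V' hV'
  set V : Submodule ℚ ℚ[X] := V'.comap (LinearMap.mulLeft ℚ (X : ℚ[X])) with hVdef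
  have hVU : V ≤ U := by
    intro p hp
    have : X * p ∈ V' := by simpa [hVdef] using hp
    exact H2.X_mul_mem_shU.1 (hV' this)
  have hVV' : shU V = V' := by
    ext p
    rw [H2.mem_shU]
    constructor
    · rintro ⟨q, hq, rfl⟩
      simpa [hVdef] using hq
    · intro hp
      obtain ⟨q, -, rfl⟩ := H2.mem_shU.1 (hV' hp)
      exact ⟨q, by simpa [hVdef] using hp, rfl⟩
  have : Module.Finite ℚ V := H2.finite_of_le hVU
  have a1 := one_le_cov (lam := lam) (W := W) U
  have a2 := one_le_cov (lam := lam) (W := W) V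
  have a3 := one_le_cov (lam := lam) (W := W) (shU U)
  have a4 := one_le_cov (lam := lam) (W := W) (shU V)
  have b1 := cov_shift (lam := lam) (W := W) h0 h1 hVU
  have b2 := Real.log_le_log (by positivity) b1
  rw [Real.log_mul (by positivity) (by positivity), Real.log_mul (by positivity) (by positivity)]
    at b2
  have c1 := hU V hVU
  rw [← hVV']
  unfold gT at c1 ⊢
  rw [H2.finrank_shU', H2.finrank_shU']
  linarith

/-- the canonical subspace is an ideal piece at some scale in `[i₀, m)`. -/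
theorem exists_ideal (h0 : 0 < lam) (h1 : lam < 1) (hT : 1 < T) (m i₀ : ℕ)
    (D : ℕ → Submodule ℚ ℚ[X])
    (hD : ∀ n, D n ≤ degreeLT ℚ n ∧ Cl lam W T (D n) ∧
      (∀ U : Submodule ℚ ℚ[X], U ≤ degreeLT ℚ n → Cl lam W T U → U ≤ D n))
    (hne : ∀ n, 0 < n → n ≤ m → D n ≠ degreeLT ℚ n)
    (hr : Module.finrank ℚ (D i₀) ≠ 0 ∧ 2 * i₀ ≤ m + Module.finrank ℚ (D i₀)) :
    ∃ i, i₀ ≤ i ∧ i < m ∧ D i ≠ ⊥ ∧ ∃ f : ℤ[X], f.IsPrimitive ∧
      D i = idU f (Module.finrank ℚ (D i)) := by
  have hfin : ∀ n, Module.Finite ℚ (D n) := fun n => H2.finite_of_le (hD n).1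
  have hrk : ∀ n, Module.finrank ℚ (degreeLT ℚ n) = n := by
    intro n
    rw [LinearEquiv.finrank_eq (degreeLTEquiv ℚ n)]
    simp
  have hle : ∀ n, Module.finrank ℚ (D n) ≤ n := by
    intro n
    have := Submodule.finrank_mono (hD n).1
    rwa [hrk] at this
  have hlt : ∀ n, 0 < n → n ≤ m → Module.finrank ℚ (D n) < n := by
    intro n hn hnm
    refine lt_of_le_of_ne (hle n) ?_
    intro h
    exact hne n hn hnm (Submodule.eq_of_le_of_finrank_eq (hD n).1 (by rw [h, hrk]))
  have hstep : ∀ n, D n ⊔ shU (D n) ≤ D (n + 1) := by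
    intro n
    have := hfin n
    have hd := hD n
    refine sup_le ?_ ?_
    · exact (hD (n + 1)).2.2 _ (hd.1.trans (degreeLT_mono (Nat.le_succ n))) hd.2.1
    · refine (hD (n + 1)).2.2 _ ?_ (Cl_shift h0 h1 hd.2.1)
      intro p hp
      obtain ⟨q, hq, rfl⟩ := H2.mem_shU.1 hp
      have hq' := mem_degreeLT.1 (hd.1 hq)
      rw [mem_degreeLT]
      by_cases hq0 : q = 0
      · simp [hq0]
      · rw [degree_mul, degree_X]
        rw [degree_eq_natDegree hq0] at hq' ⊢
        have h2 : q.natDegree < n := by exact_mod_cast hq'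
        have h3 : 1 + q.natDegree < n + 1 := by omega
        exact_mod_cast h3
  have hi₀m : i₀ < m := by
    have h2 := hle i₀
    by_contra hcon
    have h3 : i₀ = m := by omega
    subst h3
    rcases Nat.eq_zero_or_pos i₀ with h4 | h4
    · omega
    · have := hlt i₀ h4 le_rfl
      omega
  by_contra hall
  push Not at hall
  -- dimension grows by at least two at each step
  have hgrow : ∀ k, i₀ + k ≤ m →
      D (i₀ + k) ≠ ⊥ ∧ Module.finrank ℚ (D i₀) + 2 * k ≤ Module.finrank ℚ (D (i₀ + k)) := by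
    intro k
    induction k with
    | zero =>
      intro _
      refine ⟨?_, by simp⟩
      intro h
      rw [add_zero] at h
      exact hr.1 (by rw [h, finrank_bot])
    | succ k ih =>
      intro hk
      obtain ⟨ih1, ih2⟩ := ih (by omega)
      have := hfin (i₀ + k)
      have := hfin (i₀ + k + 1)
      have e1 := finrank_sup_shU ih1
      have e2 := Submodule.finrank_mono (hstep (i₀ + k))
      have e3 : Module.finrank ℚ (D (i₀ + k) ⊔ shU (D (i₀ + k)) : Submodule ℚ ℚ[X]) ≠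
          Module.finrank ℚ (D (i₀ + k)) + 1 := by
        intro h
        obtain ⟨f, hf, hfD⟩ := structure_lemma ih1 h
        exact hall (i₀ + k) (by omega) (by omega) ih1 f hf hfD
      have e4 : i₀ + (k + 1) = i₀ + k + 1 := by omega
      rw [e4]
      constructor
      · intro h
        rw [h, finrank_bot] at e2
        omega
      · omega
  obtain ⟨-, h5⟩ := hgrow (m - i₀) (by omega)
  have h6 : i₀ + (m - i₀) = m := by omega
  rw [h6] at h5
  have h7 := hlt m (by omega) le_rfl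
  omega

end H2

end Pool.Agent.BCD
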