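import Pool.Agent.Work.MP_bc8e1e_an.D.Defs

/-!
# Bernoulli convolutions near 1: subspaces of polynomials and multiplication by `X`
-/

set_option autoImplicit false

open MeasureTheory ProbabilityTheory Polynomial

namespace Pool.Agent.BCD

namespace H2

lemma mulX_inj : Function.Injective (LinearMap.mulLeft ℚ (X : ℚ[X])) := by
  intro p q h
  simpa [LinearMap.mulLeft_apply] using h

lemma mul_inj {f : ℚ[X]} (hf : f ≠ 0) : Function.Injective (LinearMap.mulLeft ℚ f) := by
  intro p q h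
  simp only [LinearMap.mulLeft_apply] at h
  exact mul_left_cancel₀ hf h

lemma mem_shU {U : Submodule ℚ ℚ[X]} {p : ℚ[X]} : p ∈ shU U ↔ ∃ q ∈ U, X * q = p := by
  simp [shU, Submodule.mem_map]

lemma X_mul_mem_shU {U : Submodule ℚ ℚ[X]} {p : ℚ[X]} : X * p ∈ shU U ↔ p ∈ U := by
  rw [mem_shU]
  constructor
  · rintro ⟨q, hq, h⟩
    have : q = p := mulX_inj (by simpa [LinearMap.mulLeft_apply] using h)
    exact this ▸ hq
  · intro h
    exact ⟨p, h, rfl⟩

lemma shU_mono {U V : Submodule ℚ ℚ[X]} (h : U ≤ V) : shU U ≤ shU V :=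
  Submodule.map_mono h

instance finite_shU (U : Submodule ℚ ℚ[X]) [Module.Finite ℚ U] : Module.Finite ℚ (shU U) := by
  unfold shU
  infer_instance

lemma finrank_shU' (U : Submodule ℚ ℚ[X]) :
    Module.finrank ℚ (shU U) = Module.finrank ℚ U :=
  (LinearEquiv.finrank_eq (Submodule.equivMapOfInjective _ mulX_inj U)).symm

lemma finite_of_le {U V : Submodule ℚ ℚ[X]} [Module.Finite ℚ V] (h : U ≤ V) :
    Module.Finite ℚ U :=
  Submodule.finiteDimensional_of_le h

lemma exists_degreeLT (V : Submodule ℚ ℚ[X]) [Module.Finite ℚ V] :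
    ∃ N : ℕ, V ≤ degreeLT ℚ N := by
  classical
  obtain ⟨s, hs⟩ := (Submodule.fg_iff_finiteDimensional V).2 ‹_›
  refine ⟨s.sup (fun p => p.natDegree) + 1, ?_⟩
  rw [← hs, Submodule.span_le]
  intro p hp
  rw [SetLike.mem_coe, mem_degreeLT]
  have h1 : p.natDegree ≤ s.sup (fun p => p.natDegree) :=
    Finset.le_sup (f := fun p : ℚ[X] => p.natDegree) hp
  calc p.degree ≤ (p.natDegree : WithBot ℕ) := degree_le_natDegree
    _ < ((s.sup (fun p => p.natDegree) + 1 : ℕ) : WithBot ℕ) := by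
        exact_mod_cast Nat.lt_succ_of_le h1

lemma not_shU_le {V : Submodule ℚ ℚ[X]} [Module.Finite ℚ V] (hV : V ≠ ⊥) : ¬ shU V ≤ V := by
  intro h
  obtain ⟨p, hp, hp0⟩ := (Submodule.ne_bot_iff V).1 hV
  obtain ⟨N, hN⟩ := exists_degreeLT V
  have key : ∀ k : ℕ, X ^ k * p ∈ V := by
    intro k
    induction k with
    | zero => simpa using hp
    | succ k ih =>
      have : X * (X ^ k * p) ∈ V := h (X_mul_mem_shU.2 ih)
      rwa [← mul_assoc, ← pow_succ'] at this
  have h1 := mem_degreeLT.1 (hN (key N))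
  rw [degree_mul, degree_X_pow] at h1
  have h2 : (0 : WithBot ℕ) ≤ p.degree := zero_le_degree_iff.2 hp0
  have h3 : (N : WithBot ℕ) ≤ (N : WithBot ℕ) + p.degree := by
    calc (N : WithBot ℕ) = (N : WithBot ℕ) + 0 := by simp
      _ ≤ _ := by gcongr
  exact absurd h1 (not_lt.2 h3)

end H2

open H2

theorem finrank_sup_shU {V : Submodule ℚ ℚ[X]} [Module.Finite ℚ V] (hV : V ≠ ⊥) :
    Module.finrank ℚ V + 1 ≤ Module.finrank ℚ (V ⊔ shU V : Submodule ℚ ℚ[X]) := by
  have h1 : V < V ⊔ shU V := by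
    refine lt_of_le_of_ne le_sup_left ?_
    intro h
    exact not_shU_le hV (sup_eq_left.1 h.symm)
  exact Submodule.finrank_lt_finrank_of_lt h1

namespace H2

/-- the space of `v ∈ V` with `X v ∈ V`. -/
noncomputable def inner1 (V : Submodule ℚ ℚ[X]) : Submodule ℚ ℚ[X] :=
  V ⊓ V.comap (LinearMap.mulLeft ℚ (X : ℚ[X]))

lemma mem_inner1 {V : Submodule ℚ ℚ[X]} {p : ℚ[X]} :
    p ∈ inner1 V ↔ p ∈ V ∧ X * p ∈ V := by
  simp [inner1]

lemma shU_inner1 (V : Submodule ℚ ℚ[X]) : shU (inner1 V) = V ⊓ shU V := by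
  ext p
  rw [mem_shU, Submodule.mem_inf, mem_shU]
  constructor
  · rintro ⟨q, hq, rfl⟩
    rw [mem_inner1] at hq
    exact ⟨hq.2, q, hq.1, rfl⟩
  · rintro ⟨h1, q, hq, rfl⟩
    exact ⟨q, mem_inner1.2 ⟨hq, h1⟩, rfl⟩

lemma mem_idU {f : ℤ[X]} {n : ℕ} {p : ℚ[X]} :
    p ∈ idU f n ↔ ∃ q ∈ degreeLT ℚ n, f.map (Int.castRingHom ℚ) * q = p := by
  simp [idU, Submodule.mem_map]

lemma exists_primitive (p : ℚ[X]) (hp : p ≠ 0) :
    ∃ f : ℤ[X], f.IsPrimitive ∧ ∃ c : ℚ, c ≠ 0 ∧ p = C c * f.map (Int.castRingHom ℚ) := by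
  obtain ⟨b, hbM, hb⟩ := IsLocalization.integerNormalization_spec (nonZeroDivisors ℤ) p
  set g := IsLocalization.integerNormalization (nonZeroDivisors ℤ) p with hg
  have hb0 : ((b : ℤ) : ℚ) ≠ 0 := by
    have := nonZeroDivisors.ne_zero hbM
    exact_mod_cast this
  have hmap : g.map (Int.castRingHom ℚ) = C ((b : ℤ) : ℚ) * p := by
    have h1 : g.map (algebraMap ℤ ℚ) = b • p := hb
    have h2 : (algebraMap ℤ ℚ) = Int.castRingHom ℚ := rfl
    rw [← h2, h1]
    rw [zsmul_eq_mul]
    simp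
  have hg0 : g ≠ 0 := by
    intro h
    rw [h, Polynomial.map_zero] at hmap
    have := mul_ne_zero (C_ne_zero.2 hb0) hp
    exact this hmap.symm
  refine ⟨g.primPart, g.isPrimitive_primPart, (g.content : ℚ) / (b : ℤ), ?_, ?_⟩
  · have : g.content ≠ 0 := by
      rwa [Ne, content_eq_zero_iff]
    exact div_ne_zero (by exact_mod_cast this) hb0
  · have h1 : g.map (Int.castRingHom ℚ) = C (g.content : ℚ) * g.primPart.map (Int.castRingHom ℚ) := by
      conv_lhs => rw [g.eq_C_content_mul_primPart]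
      rw [Polynomial.map_mul, map_C]
      rfl
    have h2 : C ((b : ℤ) : ℚ) * p = C ((b : ℤ) : ℚ) * (C ((g.content : ℚ) / (b : ℤ)) *
        g.primPart.map (Int.castRingHom ℚ)) := by
      rw [← hmap, h1, ← mul_assoc, ← C_mul, mul_div_cancel₀ _ hb0]
    exact mul_left_cancel₀ (C_ne_zero.2 hb0) h2

lemma idU_one (f : ℤ[X]) (p : ℚ[X]) :
    p ∈ idU f 1 ↔ ∃ c : ℚ, p = C c * f.map (Int.castRingHom ℚ) := by
  rw [mem_idU]
  constructor
  · rintro ⟨q, hq, rfl⟩
    rw [mem_degreeLT] at hq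
    have h1 : q.degree ≤ 0 := by
      by_cases h0 : q = 0
      · simp [h0]
      · rw [degree_eq_natDegree h0] at hq ⊢
        have : q.natDegree < 1 := by exact_mod_cast hq
        have h2 : q.natDegree ≤ 0 := by omega
        exact_mod_cast h2
    rw [eq_C_of_degree_le_zero h1]
    exact ⟨q.coeff 0, mul_comm _ _⟩
  · rintro ⟨c, rfl⟩
    refine ⟨C c, ?_, mul_comm _ _⟩
    rw [mem_degreeLT]
    exact lt_of_le_of_lt degree_C_le (by simp)

lemma idU_succ (f : ℤ[X]) {n : ℕ} (hn : 0 < n) : idU f n ⊔ shU (idU f n) = idU f (n + 1) := by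
  apply le_antisymm
  · refine sup_le ?_ ?_
    · exact Submodule.map_mono (degreeLT_mono (Nat.le_succ n))
    · intro p hp
      obtain ⟨q, hq, rfl⟩ := mem_shU.1 hp
      obtain ⟨r, hr, rfl⟩ := mem_idU.1 hq
      refine mem_idU.2 ⟨X * r, ?_, by ring⟩
      rw [mem_degreeLT] at hr ⊢
      by_cases h0 : r = 0
      · simp [h0]
      · rw [degree_mul, degree_X, degree_eq_natDegree h0] at *
        have : r.natDegree < n := by exact_mod_cast hr
        have h2 : 1 + r.natDegree < n + 1 := by omega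
        exact_mod_cast h2
  · intro p hp
    obtain ⟨q, hq, rfl⟩ := mem_idU.1 hp
    rw [mem_degreeLT] at hq
    have h1 : q = X * q.divX + C (q.coeff 0) := by
      rw [X_mul]
      exact (divX_mul_X_add q).symm
    rw [h1, mul_add]
    refine Submodule.add_mem _ ?_ ?_
    · refine Submodule.mem_sup_right ?_
      refine mem_shU.2 ⟨f.map (Int.castRingHom ℚ) * q.divX, mem_idU.2 ⟨q.divX, ?_, rfl⟩, by ring⟩
      rw [mem_degreeLT]
      by_cases h0 : q.divX = 0
      · simp [h0]
      · have hq0 : q ≠ 0 := by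
          rintro rfl
          simp at h0
        rw [degree_eq_natDegree h0]
        rw [degree_eq_natDegree hq0] at hq
        have h2 : q.natDegree < n + 1 := by exact_mod_cast hq
        have h3 : q.divX.natDegree = q.natDegree - 1 := natDegree_divX_eq_natDegree_tsub_one
        have h4 : q.divX.natDegree < n := by omega
        exact_mod_cast h4
    · refine Submodule.mem_sup_left ?_
      refine mem_idU.2 ⟨C (q.coeff 0), ?_, rfl⟩
      rw [mem_degreeLT]
      exact lt_of_le_of_lt degree_C_le (by exact_mod_cast hn)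

end H2

theorem structure_lemma {V : Submodule ℚ ℚ[X]} [Module.Finite ℚ V] (hV : V ≠ ⊥)
    (hdim : Module.finrank ℚ (V ⊔ shU V : Submodule ℚ ℚ[X]) = Module.finrank ℚ V + 1) :
    ∃ f : ℤ[X], f.IsPrimitive ∧ V = idU f (Module.finrank ℚ V) := by
  generalize hn : Module.finrank ℚ V = n at hdim
  induction n generalizing V with
  | zero =>
    exact absurd (Submodule.finrank_eq_zero.1 hn) hV
  | succ n ih =>
    have hfin1 : Module.Finite ℚ (inner1 V) := finite_of_le (inf_le_left)
    have hd1 : Module.finrank ℚ (inner1 V) = n := by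
      have h1 := Submodule.finrank_sup_add_finrank_inf_eq V (shU V)
      rw [hdim, ← shU_inner1, finrank_shU', finrank_shU', hn] at h1
      omega
    rcases Nat.eq_zero_or_pos n with h0 | h0
    · subst h0
      obtain ⟨p, hp0, hp⟩ := finrank_eq_one_iff'.1 hn
      have hp0' : (p : ℚ[X]) ≠ 0 := by simpa using hp0
      obtain ⟨f, hf, c, hc, hpf⟩ := exists_primitive (p : ℚ[X]) hp0'
      refine ⟨f, hf, ?_⟩
      ext q
      rw [zero_add, idU_one]
      constructor
      · intro hq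
        obtain ⟨d, hd⟩ := hp ⟨q, hq⟩
        refine ⟨d * c, ?_⟩
        have : q = d • (p : ℚ[X]) := by
          have := congrArg Subtype.val hd
          simpa using this.symm
        rw [this, hpf, smul_eq_C_mul, C_mul, mul_assoc]
      · rintro ⟨d, rfl⟩
        have : C d * f.map (Int.castRingHom ℚ) = (d / c) • (p : ℚ[X]) := by
          rw [hpf, smul_eq_C_mul, ← mul_assoc, ← C_mul, div_mul_cancel₀ _ hc]
        rw [this]
        exact V.smul_mem _ p.2
    · have hne : inner1 V ≠ ⊥ := by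
        intro h
        rw [h, finrank_bot] at hd1
        omega
      have hle : inner1 V ⊔ shU (inner1 V) ≤ V := by
        refine sup_le inf_le_left ?_
        rw [shU_inner1]
        exact inf_le_left
      have h1 := finrank_sup_shU hne
      have h2 := Submodule.finrank_mono hle
      rw [hn] at h2
      rw [hd1] at h1
      have h3 : Module.finrank ℚ (inner1 V ⊔ shU (inner1 V) : Submodule ℚ ℚ[X]) = n + 1 := by
        omega
      obtain ⟨f, hf, hfV⟩ := ih hne hd1 h3
      refine ⟨f, hf, ?_⟩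
      have h4 : inner1 V ⊔ shU (inner1 V) = V :=
        Submodule.eq_of_le_of_finrank_eq hle (by rw [h3, hn])
      rw [← h4, hfV, idU_succ f h0]

theorem bas_idU {f : ℤ[X]} (hf : f.IsPrimitive) (n : ℕ) :
    IsBas (idU f n) fun j : Fin n => f * X ^ (j : ℕ) := by
  have hf0 : f ≠ 0 := hf.ne_zero
  refine ⟨?_, ?_, ?_⟩
  · intro i
    rw [mem_MU, mem_idU]
    refine ⟨X ^ (i : ℕ), ?_, by simp⟩
    rw [mem_degreeLT, degree_X_pow]
    exact_mod_cast i.2
  · rw [Fintype.linearIndependent_iff]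
    intro c hc i
    have h1 : f * ∑ j : Fin n, c j • (X : ℤ[X]) ^ (j : ℕ) = 0 := by
      rw [Finset.mul_sum, ← hc]
      refine Finset.sum_congr rfl fun j _ => ?_
      rw [mul_smul_comm]
    have h2 : ∑ j : Fin n, c j • (X : ℤ[X]) ^ (j : ℕ) = 0 :=
      (mul_eq_zero.1 h1).resolve_left hf0
    have h3 := congrArg (fun p : ℤ[X] => p.coeff (i : ℕ)) h2
    simp only [finsetSum_coeff, coeff_smul, coeff_X_pow, coeff_zero] at h3
    rw [Finset.sum_eq_single i] at h3
    · simpa using h3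
    · intro j _ hj
      rw [if_neg (fun h => hj (Fin.ext h.symm))]
      simp
    · simp
  · intro P hP
    rw [mem_MU, mem_idU] at hP
    obtain ⟨q, hq, hqP⟩ := hP
    have h1 : f ∣ P := (IsPrimitive.Int.dvd_iff_map_cast_dvd_map_cast f P hf).2 ⟨q, hqP.symm⟩
    obtain ⟨Q, rfl⟩ := h1
    have h2 : Q.map (Int.castRingHom ℚ) = q := by
      rw [Polynomial.map_mul] at hqP
      have h3 : f.map (Int.castRingHom ℚ) ≠ 0 :=
        (Polynomial.map_ne_zero_iff (RingHom.injective_int _)).2 hf0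
      exact (mul_left_cancel₀ h3 hqP).symm
    refine ⟨fun j => Q.coeff j, ?_⟩
    have h4 : Q ∈ degreeLT ℤ n := by
      rw [mem_degreeLT] at hq ⊢
      rw [← h2, degree_map_eq_of_injective (RingHom.injective_int _)] at hq
      exact hq
    have h5 : Q = ∑ j : Fin n, Q.coeff j • (X : ℤ[X]) ^ (j : ℕ) := by
      have h6 := Q.sum_fin (fun i a => monomial i a) (by simp) (mem_degreeLT.1 h4)
      rw [sum_monomial_eq] at h6
      conv_lhs => rw [← h6]
      refine Finset.sum_congr rfl fun j _ => ?_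
      rw [smul_X_eq_monomial]
    conv_lhs => rw [h5, Finset.mul_sum]
    refine Finset.sum_congr rfl fun j _ => ?_
    rw [mul_smul_comm]

end Pool.Agent.BCD
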