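import Pool.Agent.Work.MP_bc8e1e_an.D.H3cI

/-!
# Module H3: covolume of the full space, theta sum, upper bound for the mass
-/

set_option autoImplicit false

open MeasureTheory Polynomial
open scoped RealInnerProductSpace

namespace Pool.Agent.BCD

open H3c

variable {lam W T : ℝ}

theorem cov_degreeLT {n : ℕ} (hn : 0 < n) : W ^ 2 ≤ cov lam W (degreeLT ℚ n) := by
  have h := cov_ideal' (lam := lam) (W := W) (f := 1) Polynomial.isPrimitive_one hn
  have h1 : idU 1 n = degreeLT ℚ n := by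
    unfold idU
    rw [Polynomial.map_one]
    have : LinearMap.mulLeft ℚ (1 : ℚ[X]) = LinearMap.id := by ext; simp
    rw [this, Submodule.map_id]
  rw [h1] at h
  simpa using h

theorem theta_le (hT : 1 ≤ T) :
    ∑' j : ℤ, Real.exp (-(Real.pi * (j : ℝ) ^ 2 / T ^ 2)) ≤
      T * (1 + 3 * Real.exp (-(Real.pi * T ^ 2))) := by
  have hT0 : 0 < T := by linarith
  have h1 := Real.tsum_exp_neg_mul_int_sq (a := 1 / T ^ 2) (by positivity)
  have e1 : ∀ j : ℤ, Real.exp (-Real.pi * (1 / T ^ 2) * (j : ℝ) ^ 2) =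
      Real.exp (-(Real.pi * (j : ℝ) ^ 2 / T ^ 2)) := fun j => by congr 1; ring
  have e2 : ∀ j : ℤ, Real.exp (-Real.pi / (1 / T ^ 2) * (j : ℝ) ^ 2) =
      Real.exp (-(Real.pi * T ^ 2 * (j : ℝ) ^ 2)) := fun j => by congr 1; field_simp
  simp only [e1, e2] at h1
  rw [h1]
  have e3 : 1 / (1 / T ^ 2) ^ (1 / 2 : ℝ) = T := by
    rw [one_div, ← Real.rpow_neg (by positivity), one_div, ← Real.rpow_natCast, ← Real.rpow_neg hT0.le,
      ← Real.rpow_mul hT0.le]
    norm_num
  rw [e3]
  refine mul_le_mul_of_nonneg_left ?_ hT0.le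
  set q := Real.exp (-(Real.pi * T ^ 2)) with hq
  have hq0 : 0 < q := Real.exp_pos _
  have hpi := Real.pi_gt_three
  have hT2 : 1 ≤ T ^ 2 := one_le_pow₀ hT
  have h3 : Real.exp (-2) ≤ 1 / 3 := by
    rw [Real.exp_neg, one_div]
    apply inv_anti₀ (by norm_num)
    have := Real.add_one_le_exp (2 : ℝ)
    linarith
  have hb : ∀ n : ℕ, Real.exp (-(Real.pi * T ^ 2 * ((n : ℝ) + 1) ^ 2)) ≤ q * (1 / 3) ^ n := by
    intro n
    have h4 : -(Real.pi * T ^ 2 * ((n : ℝ) + 1) ^ 2) ≤ -(Real.pi * T ^ 2) + n * (-2) := by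
      have hn : (0 : ℝ) ≤ n := n.cast_nonneg
      have : (1 : ℝ) * 1 ≤ Real.pi * T ^ 2 := mul_le_mul (by linarith) hT2 (by norm_num) (by linarith)
      nlinarith [mul_nonneg hn hn]
    calc Real.exp (-(Real.pi * T ^ 2 * ((n : ℝ) + 1) ^ 2))
        ≤ Real.exp (-(Real.pi * T ^ 2) + n * (-2)) := Real.exp_le_exp.2 h4
      _ = q * Real.exp (-2) ^ n := by rw [Real.exp_add, Real.exp_nat_mul]
      _ ≤ _ := mul_le_mul_of_nonneg_left (pow_le_pow_left₀ (Real.exp_pos _).le h3 n) hq0.le
  have hg : Summable fun n : ℕ => q * (1 / 3 : ℝ) ^ n :=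
    (summable_geometric_of_lt_one (by norm_num) (by norm_num)).mul_left _
  have hs : Summable fun n : ℕ => Real.exp (-(Real.pi * T ^ 2 * ((n : ℝ) + 1) ^ 2)) :=
    Summable.of_nonneg_of_le (fun _ => (Real.exp_pos _).le) hb hg
  have h5 : ∑' n : ℕ, Real.exp (-(Real.pi * T ^ 2 * ((n : ℝ) + 1) ^ 2)) ≤ q * (3 / 2) := by
    refine (hs.tsum_le_tsum hb hg).trans (le_of_eq ?_)
    rw [tsum_mul_left, tsum_geometric_of_lt_one (by norm_num) (by norm_num)]
    norm_num
  have h6 : ∑' j : ℤ, Real.exp (-(Real.pi * T ^ 2 * (j : ℝ) ^ 2)) =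
      ∑' n : ℕ, Real.exp (-(Real.pi * T ^ 2 * ((n : ℝ) + 1) ^ 2)) + 1 +
      ∑' n : ℕ, Real.exp (-(Real.pi * T ^ 2 * ((n : ℝ) + 1) ^ 2)) := by
    have h7 := tsum_of_add_one_of_neg_add_one
      (f := fun j : ℤ => Real.exp (-(Real.pi * T ^ 2 * (j : ℝ) ^ 2)))
      (by simpa using hs) (by
        refine hs.congr fun n => ?_
        congr 1
        push_cast
        ring)
    rw [h7]
    congr 1
    · congr 1
      · exact tsum_congr fun n => by push_cast; rfl
      · simp
    · refine tsum_congr fun n => ?_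
      congr 1
      push_cast
      ring
  rw [h6]
  linarith

/-- Sum over `ℤ^n` of a product. -/
theorem H3x.prod_sum {n : ℕ} (f : Fin n → ℤ → ℝ) (hf : ∀ i, Summable (fun z => ‖f i z‖)) :
    Summable (fun c : Fin n → ℤ => ‖∏ i, f i (c i)‖) ∧
      ∑' c : Fin n → ℤ, ∏ i, f i (c i) = ∏ i, ∑' z, f i z := by
  induction n with
  | zero =>
    constructor
    · exact (hasSum_fintype _).summable
    · rw [tsum_fintype]
      simp
  | succ n ih =>
    obtain ⟨h1, h2⟩ := ih (fun i => f i.succ) (fun i => hf i.succ)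
    have e : ∀ p : ℤ × (Fin n → ℤ), ∏ i, f i ((Fin.consEquiv fun _ : Fin (n + 1) => ℤ) p i) =
        f 0 p.1 * ∏ i : Fin n, f i.succ (p.2 i) := by
      intro p
      rw [Fin.prod_univ_succ]
      simp [Fin.consEquiv]
    constructor
    · rw [← (Fin.consEquiv fun _ : Fin (n + 1) => ℤ).summable_iff]
      refine ((hf 0).mul_norm h1).congr fun p => ?_
      simp only [Function.comp]
      rw [e p]
    · rw [← (Fin.consEquiv fun _ : Fin (n + 1) => ℤ).tsum_eq]
      simp only [e]
      rw [← tsum_mul_tsum_of_summable_norm (hf 0) h1, h2, Fin.prod_univ_succ]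

theorem H3x.card_deg {U : Submodule ℚ ℚ[X]} [Module.Finite ℚ U] (J : Finset ℕ)
    (hJ : ∀ j ∈ J, ∃ P ∈ U, P ≠ 0 ∧ P.natDegree = j) : J.card ≤ Module.finrank ℚ U := by
  classical
  choose! P hPU hP0 hPd using hJ
  have hli : LinearIndependent ℚ (fun j : J => (⟨P j, hPU j j.2⟩ : U)) := by
    rw [← LinearMap.linearIndependent_iff U.subtype (Submodule.ker_subtype U)]
    rw [linearIndependent_iff']
    intro s g hg
    by_contra hcon
    push Not at hcon
    have hne : (s.filter fun j => g j ≠ 0).Nonempty := by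
      obtain ⟨i, hi, h⟩ := hcon
      exact ⟨i, Finset.mem_filter.2 ⟨hi, h⟩⟩
    obtain ⟨i, hi, hmax⟩ := Finset.exists_max_image _ (fun j : J => (j : ℕ)) hne
    rw [Finset.mem_filter] at hi
    have h1 := congrArg (fun Q : ℚ[X] => Q.coeff i) hg
    simp only [Function.comp, Submodule.coe_subtype, finsetSum_coeff, coeff_smul, smul_eq_mul,
      coeff_zero] at h1
    rw [Finset.sum_eq_single i] at h1
    · rcases mul_eq_zero.1 h1 with h | h
      · exact hi.2 h
      · have h3 := hPd i i.2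
        have h4 : (P i).coeff (P i).natDegree ≠ 0 := by
          rw [← leadingCoeff]
          exact leadingCoeff_ne_zero.2 (hP0 i i.2)
        rw [h3] at h4
        exact h4 h
    · intro j hj hji
      by_cases hgj : g j = 0
      · rw [hgj, zero_mul]
      · have h5 := hmax j (Finset.mem_filter.2 ⟨hj, hgj⟩)
        have h6 : (j : ℕ) ≠ i := fun h => hji (Subtype.ext h)
        rw [coeff_eq_zero_of_natDegree_lt, mul_zero]
        rw [hPd j j.2]
        omega
    · intro h
      exact absurd hi.1 h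
  have := hli.fintype_card_le_finrank
  simpa using this

theorem rho_upper (hT : 0 < T) (U : Submodule ℚ ℚ[X]) [Module.Finite ℚ U] :
    rhoU lam W T U ≤
      (∑' j : ℤ, Real.exp (-(Real.pi * (j : ℝ) ^ 2 / T ^ 2))) ^ (Module.finrank ℚ U) := by
  classical
  have hpi := Real.pi_pos
  obtain ⟨N, hN⟩ := H2.exists_degreeLT U
  set J := (Finset.range N).filter fun j => ∃ P ∈ U, P ≠ 0 ∧ P.natDegree = j with hJ
  have hcard : J.card ≤ Module.finrank ℚ U :=
    H3x.card_deg J fun j hj => (Finset.mem_filter.1 hj).2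
  have hs : Summable fun j : ℤ => Real.exp (-(Real.pi * (j : ℝ) ^ 2 / T ^ 2)) := by
    refine (summ_sq (c := Real.pi / T ^ 2) (by positivity)).congr fun j => ?_
    congr 1
    ring
  have h1 : 1 ≤ ∑' j : ℤ, Real.exp (-(Real.pi * (j : ℝ) ^ 2 / T ^ 2)) := by
    have := hs.le_tsum 0 (fun j _ => (Real.exp_pos _).le)
    simpa using this
  refine le_trans ?_ (pow_le_pow_right₀ h1 hcard)
  set e : Fin J.card ↪o ℕ := J.orderEmbOfFin rfl with he
  obtain ⟨h2, h3⟩ := H3x.prod_sum (n := J.card)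
    (fun _ j => Real.exp (-(Real.pi * (j : ℝ) ^ 2 / T ^ 2)))
    (fun _ => hs.norm)
  rw [Finset.prod_const, Finset.card_univ, Fintype.card_fin] at h3
  rw [← h3]
  set g : (Fin J.card → ℤ) → ℝ := fun c =>
    ∏ i, Real.exp (-(Real.pi * (c i : ℝ) ^ 2 / T ^ 2)) with hg
  have hgs : Summable g := h2.of_norm
  have hg0 : ∀ c, 0 ≤ g c := fun c => Finset.prod_nonneg fun i _ => (Real.exp_pos _).le
  set φ : MU U → (Fin J.card → ℤ) := fun P i => (P : ℤ[X]).coeff (e i) with hφ
  have hinj : Function.Injective φ := by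
    intro P Q h
    by_contra hne
    have h4 : (P : ℤ[X]) - Q ≠ 0 := fun h => hne (Subtype.ext (sub_eq_zero.1 h))
    set R : ℤ[X] := (P : ℤ[X]) - Q with hR
    have h5 : R.map (Int.castRingHom ℚ) ∈ U := by
      rw [hR, Polynomial.map_sub]
      exact U.sub_mem P.2 Q.2
    have h6 : R.map (Int.castRingHom ℚ) ≠ 0 := by
      rw [Ne, Polynomial.map_eq_zero_iff (RingHom.injective_int _)]
      exact h4
    have h7 : (R.map (Int.castRingHom ℚ)).natDegree = R.natDegree :=
      natDegree_map_eq_of_injective (RingHom.injective_int _) R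
    have h8 : R.natDegree ∈ J := by
      rw [hJ, Finset.mem_filter, Finset.mem_range]
      refine ⟨?_, _, h5, h6, h7⟩
      have := mem_degreeLT.1 (hN h5)
      rw [degree_eq_natDegree h6, h7] at this
      exact_mod_cast this
    have h9 : R.natDegree ∈ Set.range e := by
      rw [he, Finset.range_orderEmbOfFin]
      exact h8
    obtain ⟨i, hi⟩ := h9
    have h10 := congrFun h i
    simp only [hφ] at h10
    have h11 : R.coeff R.natDegree = 0 := by
      rw [← hi, hR, coeff_sub, h10, sub_self]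
    exact h4 (leadingCoeff_eq_zero.1 h11)
  have hle : ∀ P : MU U, Real.exp (-(Real.pi * ‖io lam W (P : ℤ[X])‖ ^ 2 / T ^ 2)) ≤ g (φ P) := by
    intro P
    simp only [hg]
    rw [← Real.exp_sum]
    apply Real.exp_le_exp.2
    rw [Finset.sum_neg_distrib, neg_le_neg_iff, ← Finset.sum_div, ← Finset.mul_sum]
    have h4 : ∑ i, ((φ P i : ℤ) : ℝ) ^ 2 ≤ ‖io lam W (P : ℤ[X])‖ ^ 2 := by
      unfold io
      rw [norm_of_sq, PW.ip_self lam W _ (max N (((P : ℤ[X]).map
        (Int.castRingHom ℝ)).natDegree + 1)) (by omega)]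
      have h5 : ∑ i, ((φ P i : ℤ) : ℝ) ^ 2 = ∑ j ∈ J, (((P : ℤ[X]).map
          (Int.castRingHom ℝ)).coeff j) ^ 2 := by
        have h6 : Finset.univ.map e.toEmbedding = J := by
          rw [he]
          exact Finset.map_orderEmbOfFin_univ J rfl
        have h61 : ∑ j ∈ J, (((P : ℤ[X]).map (Int.castRingHom ℝ)).coeff j) ^ 2 =
            ∑ j ∈ Finset.univ.map e.toEmbedding,
              (((P : ℤ[X]).map (Int.castRingHom ℝ)).coeff j) ^ 2 := by
          rw [h6]
        rw [h61, Finset.sum_map]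
        refine Finset.sum_congr rfl fun i _ => ?_
        simp [hφ]
      rw [h5]
      have h7 : ∑ j ∈ J, (((P : ℤ[X]).map (Int.castRingHom ℝ)).coeff j) ^ 2 ≤
          ∑ j ∈ Finset.range (max N (((P : ℤ[X]).map (Int.castRingHom ℝ)).natDegree + 1)),
            (((P : ℤ[X]).map (Int.castRingHom ℝ)).coeff j) ^ 2 := by
        apply Finset.sum_le_sum_of_subset_of_nonneg
        · intro j hj
          have := Finset.mem_range.1 (Finset.mem_filter.1 hj).1
          rw [Finset.mem_range]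
          omega
        · intros
          positivity
      have h8 : 0 ≤ W ^ 2 * (Polynomial.eval lam ((P : ℤ[X]).map (Int.castRingHom ℝ))) ^ 2 := by
        positivity
      linarith
    gcongr
  have hs2 : Summable fun P : MU U => g (φ P) := hgs.comp_injective hinj
  unfold rhoU
  refine (Summable.tsum_le_tsum hle (Summable.of_nonneg_of_le (fun _ => (Real.exp_pos _).le)
    hle hs2) hs2).trans ?_
  exact Summable.tsum_le_tsum_of_inj φ hinj (fun c _ => hg0 c) (fun _ => le_rfl) hs2 hgs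

end Pool.Agent.BCD
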