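import Pool.Agent.Work.MP_bc8e1e_an.D.R1
import Pool.Agent.Work.MP_bc8e1e_an.D.R7g

/-!
# Bernoulli convolutions near 1: mass of a lattice against a sublattice and its quotient
-/

set_option autoImplicit false

open MeasureTheory ProbabilityTheory Polynomial
open scoped RealInnerProductSpace

namespace Pool.Agent.BCD

section

variable {E : Type*} [NormedAddCommGroup E] [InnerProductSpace ℝ E]

/-- mass of a lattice against a sublattice and its quotient. -/
theorem mass_quot {L : AddSubgroup E} (hL : Lat L) {s : ℝ} (hs : 0 < s) (U : Submodule ℝ E)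
    [U.HasOrthogonalProjection] {LU : AddSubgroup U} {LQ : AddSubgroup Uᗮ}
    (hLU : ∀ u : U, u ∈ LU ↔ (u : E) ∈ L)
    (hLQ : ∀ q : Uᗮ, q ∈ LQ ↔ ∃ y ∈ L, (q : E) = y - U.starProjection y)
    (h1 : Lat LU) (h2 : Lat LQ) :
    Th L s 0 ≤ Th LU s 0 * Th LQ s 0 := by
  have hl : ∀ q : LQ, ∃ y : E, y ∈ L ∧ ((q : Uᗮ) : E) = y - U.starProjection y := by
    intro q
    obtain ⟨y, hy, h⟩ := (hLQ q).1 q.2
    exact ⟨y, hy, h⟩
  choose lift hlL hlq using hl
  have hP0 : ∀ u : U, U.starProjection (u : E) = u := fun u =>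
    Submodule.starProjection_eq_self_iff.2 u.2
  let e' : LQ × LU → L := fun p => ⟨((p.2 : U) : E) + lift p.1,
    L.add_mem ((hLU _).1 p.2.2) (hlL p.1)⟩
  have he' : Function.Bijective e' := by
    constructor
    · rintro ⟨q, u⟩ ⟨q', u'⟩ h
      have h3 : ((u : U) : E) + lift q = ((u' : U) : E) + lift q' := congrArg Subtype.val h
      have h4 : ((q : Uᗮ) : E) = ((q' : Uᗮ) : E) := by
        have h5 := congrArg (fun x : E => x - U.starProjection x) h3
        simp only [map_add, hP0] at h5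
        rw [hlq, hlq]
        have e1 : ∀ a b c : E, a + b - (a + c) = b - c := fun a b c => by abel
        rwa [e1, e1] at h5
      have h6 : q = q' := Subtype.ext (Subtype.ext h4)
      subst h6
      have h7 : ((u : U) : E) = ((u' : U) : E) := add_right_cancel h3
      have h8 : u = u' := Subtype.ext (Subtype.ext h7)
      rw [h8]
    · rintro ⟨y, hy⟩
      let q : Uᗮ := ⟨y - U.starProjection y, Submodule.sub_starProjection_mem_orthogonal y⟩
      have hq : q ∈ LQ := (hLQ q).2 ⟨y, hy, rfl⟩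
      have h3 := hlq ⟨q, hq⟩
      have h4 : y - lift ⟨q, hq⟩ ∈ U := by
        have h5 : y - lift ⟨q, hq⟩ =
            U.starProjection y - U.starProjection (lift ⟨q, hq⟩) := by
          have h6 : y - U.starProjection y =
              lift ⟨q, hq⟩ - U.starProjection (lift ⟨q, hq⟩) := h3
          have h7 : y = lift ⟨q, hq⟩ - U.starProjection (lift ⟨q, hq⟩) +
              U.starProjection y := by
            rw [← h6]; abel
          conv_lhs => rw [h7]
          abel
        rw [h5]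
        exact U.sub_mem (Submodule.starProjection_apply_mem _ _)
          (Submodule.starProjection_apply_mem _ _)
      have h5 : (⟨y - lift ⟨q, hq⟩, h4⟩ : U) ∈ LU := by
        rw [hLU]
        exact L.sub_mem hy (hlL _)
      refine ⟨(⟨q, hq⟩, ⟨⟨y - lift ⟨q, hq⟩, h4⟩, h5⟩), ?_⟩
      apply Subtype.ext
      simp [e']
  let e : LQ × LU ≃ L := Equiv.ofBijective e' he'
  let z : LQ → U := fun q => -(s • (⟨U.starProjection (lift q),
    Submodule.starProjection_apply_mem _ _⟩ : U))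
  have hf : ∀ (q : LQ) (u : LU),
      Real.exp (-(‖s • ((e (q, u) : L) : E) - 0‖ ^ 2 / 2)) =
        Real.exp (-(‖s • (u : U) - z q‖ ^ 2 / 2)) *
          Real.exp (-(‖s • (q : Uᗮ) - 0‖ ^ 2 / 2)) := by
    intro q u
    rw [← Real.exp_add]
    congr 1
    have h3 : s • ((e (q, u) : L) : E) - 0 =
        ((s • (u : U) - z q : U) : E) + ((s • (q : Uᗮ) - 0 : Uᗮ) : E) := by
      have h4 : ((e (q, u) : L) : E) = ((u : U) : E) + lift q := rfl
      have h5 : lift q = U.starProjection (lift q) + ((q : Uᗮ) : E) := by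
        rw [hlq q]; abel
      rw [h4]
      conv_lhs => rw [h5]
      simp only [z, sub_zero, sub_neg_eq_add, Submodule.coe_add, Submodule.coe_smul, smul_add]
      abel
    have h4 : ‖s • ((e (q, u) : L) : E) - 0‖ ^ 2 =
        ‖s • (u : U) - z q‖ ^ 2 + ‖s • (q : Uᗮ) - 0‖ ^ 2 := by
      rw [h3]
      have h5 : ⟪((s • (u : U) - z q : U) : E), ((s • (q : Uᗮ) - 0 : Uᗮ) : E)⟫ = 0 :=
        Submodule.inner_right_of_mem_orthogonal (Subtype.prop _) (Subtype.prop _)
      have h6 := norm_add_sq_eq_norm_sq_add_norm_sq_real h5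
      rw [← sq, ← sq, ← sq] at h6
      exact h6
    rw [h4]
    ring
  have hsum : Summable fun p : LQ × LU =>
      Real.exp (-(‖s • ((e p : L) : E) - 0‖ ^ 2 / 2)) :=
    (e.summable_iff (f := fun y : L => Real.exp (-(‖s • (y : E) - 0‖ ^ 2 / 2)))).2
      (Th_summable hL hs 0)
  have h3 : Th L s 0 = ∑' q : LQ, ∑' u : LU,
      Real.exp (-(‖s • ((e (q, u) : L) : E) - 0‖ ^ 2 / 2)) := by
    unfold Th
    rw [← e.tsum_eq]
    exact hsum.tsum_prod
  have h4 : ∀ q : LQ, ∑' u : LU, Real.exp (-(‖s • ((e (q, u) : L) : E) - 0‖ ^ 2 / 2)) =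
      Th LU s (z q) * Real.exp (-(‖s • (q : Uᗮ) - 0‖ ^ 2 / 2)) := by
    intro q
    simp only [hf]
    rw [tsum_mul_right]
    rfl
  have h5 : ∀ q : LQ, ∑' u : LU, Real.exp (-(‖s • ((e (q, u) : L) : E) - 0‖ ^ 2 / 2)) ≤
      Th LU s 0 * Real.exp (-(‖s • (q : Uᗮ) - 0‖ ^ 2 / 2)) := by
    intro q
    rw [h4]
    exact mul_le_mul_of_nonneg_right (Th_le_zero h1 hs _) (Real.exp_pos _).le
  rw [h3]
  calc _ ≤ ∑' q : LQ, Th LU s 0 * Real.exp (-(‖s • (q : Uᗮ) - 0‖ ^ 2 / 2)) :=
        Summable.tsum_le_tsum h5 hsum.prod ((Th_summable h2 hs 0).mul_left _)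
    _ = Th LU s 0 * Th LQ s 0 := by
        rw [tsum_mul_left]
        rfl

end

end Pool.Agent.BCD
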