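import Pool.Agent.Work.MP_bc8e1e_an.D.Defs

/-!
# R7b: separated subgroups are lattices; volume bounds
-/

set_option autoImplicit false

open MeasureTheory ProbabilityTheory Polynomial
open scoped RealInnerProductSpace

namespace Pool.Agent.BCD

namespace R7b

universe u

variable {E : Type u} [NormedAddCommGroup E] [InnerProductSpace ℝ E]

theorem sep_of_sp {L : AddSubgroup E} {t : ℝ} (ht : 0 < t) (hSp : Sp t L) {y : E} (hy : y ∈ L)
    (h0 : y ≠ 0) : t ≤ ‖y‖ := by
  have h := hSp 1 (fun _ => y) (fun _ => hy) (by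
    rw [linearIndependent_unique_iff]
    exact h0)
  rw [Matrix.det_unique] at h
  simp only [Matrix.gram, Matrix.of_apply, mul_one] at h
  rw [real_inner_self_eq_norm_sq] at h
  exact (pow_le_pow_iff_left₀ ht.le (norm_nonneg y) two_ne_zero).mp h

theorem sum_sep [FiniteDimensional ℝ E] {c : ℝ} (hc : 0 < c) :
    ∃ C : ℝ, 0 ≤ C ∧ ∀ (ι : Type u) (p : ι → E), (∀ i j, i ≠ j → 1 ≤ ‖p i - p j‖) →
      ∀ F : Finset ι, ∑ i ∈ F, Real.exp (-(c * ‖p i‖ ^ 2)) ≤ C := by
  classical
  letI : MeasurableSpace E := borel E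
  haveI : BorelSpace E := ⟨rfl⟩
  set v : ℝ := (volume (Metric.ball (0 : E) (1 / 2))).toReal with hv
  have hvb : ∀ x : E, (volume (Metric.ball x (1 / 2))).toReal = v := by
    intro x
    rw [hv, Measure.addHaar_ball_center]
  have hv0 : 0 < v := by
    rw [hv]
    exact ENNReal.toReal_pos (Metric.measure_ball_pos _ _ (by norm_num)).ne'
      measure_ball_lt_top.ne
  set g : E → ℝ := fun x => Real.exp (c / 4) * Real.exp (-(c / 2) * ‖x‖ ^ 2) with hg
  have hgi : Integrable g := by
    refine Integrable.const_mul ?_ _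
    have := GaussianFourier.integrable_cexp_neg_mul_sq_norm_add (V := E) (b := (c / 2 : ℝ))
      (by simpa using by linarith) 0 0
    have h2 := this.norm
    refine h2.congr (Filter.Eventually.of_forall fun x => ?_)
    simp only [zero_mul, add_zero]
    rw [Complex.norm_exp]
    congr 1
    simp [← Complex.ofReal_pow]
  refine ⟨(∫ x, g x) / v, div_nonneg (integral_nonneg fun x => by positivity) hv0.le, ?_⟩
  intro ι p hp F
  rw [le_div_iff₀ hv0, Finset.sum_mul]
  have h1 : ∀ i ∈ F, Real.exp (-(c * ‖p i‖ ^ 2)) * v ≤ ∫ x in Metric.ball (p i) (1 / 2), g x := by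
    intro i _
    have h2 : Real.exp (-(c * ‖p i‖ ^ 2)) * v =
        ∫ _x in Metric.ball (p i) (1 / 2), Real.exp (-(c * ‖p i‖ ^ 2)) := by
      rw [setIntegral_const, Measure.real, hvb, smul_eq_mul, mul_comm]
    rw [h2]
    refine setIntegral_mono_on ?_ hgi.integrableOn measurableSet_ball ?_
    · exact integrableOn_const (hs := measure_ball_lt_top.ne)
    · intro x hx
      rw [Metric.mem_ball, dist_eq_norm] at hx
      rw [hg]
      simp only
      rw [← Real.exp_add, Real.exp_le_exp]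
      have h3 : ‖x‖ ≤ ‖p i‖ + 1 / 2 := by
        have := norm_sub_norm_le x (p i)
        linarith
      have h4 : ‖x‖ ^ 2 ≤ 2 * ‖p i‖ ^ 2 + 1 / 2 := by
        have h5 : ‖x‖ ^ 2 ≤ (‖p i‖ + 1 / 2) ^ 2 := pow_le_pow_left₀ (norm_nonneg x) h3 2
        nlinarith [sq_nonneg (‖p i‖ - 1 / 2)]
      nlinarith
  refine (Finset.sum_le_sum h1).trans ?_
  rw [← integral_biUnion_finset F (fun i _ => measurableSet_ball) ?_
    (fun i _ => hgi.integrableOn)]
  · exact setIntegral_le_integral hgi (Filter.Eventually.of_forall fun x => by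
      simp only [hg]; positivity)
  · intro i _ j _ hij
    refine Set.disjoint_left.mpr fun x hx hx' => ?_
    rw [Metric.mem_ball, dist_eq_norm] at hx hx'
    have := hp i j hij
    have h2 : ‖p i - p j‖ ≤ ‖x - p i‖ + ‖x - p j‖ := by
      have : p i - p j = (x - p j) - (x - p i) := by abel
      rw [this, add_comm]
      exact norm_sub_le _ _
    linarith

theorem sum_sep_L [FiniteDimensional ℝ E] {L : AddSubgroup E} {t : ℝ} (ht : 0 < t)
    (hSp : Sp t L) (i j : L) (hij : i ≠ j) : 1 ≤ ‖t⁻¹ • (i : E) - t⁻¹ • (j : E)‖ := by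
  have h := sep_of_sp ht hSp (L.sub_mem i.2 j.2) (by
    rw [sub_ne_zero]
    exact fun h => hij (Subtype.ext h))
  rw [← smul_sub, norm_smul, norm_inv, Real.norm_of_nonneg ht.le]
  rw [inv_mul_eq_div, le_div_iff₀ ht, one_mul]
  exact h


theorem gram_det_basis [FiniteDimensional ℝ E] {k : ℕ} (o : OrthonormalBasis (Fin k) ℝ E)
    (v : Fin k → E) : (Matrix.gram ℝ v).det = (o.toBasis.det v) ^ 2 := by
  have h : Matrix.gram ℝ v = (o.toBasis.toMatrix v).transpose * o.toBasis.toMatrix v := by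
    ext i j
    rw [Matrix.mul_apply, Matrix.gram, Matrix.of_apply, ← o.sum_inner_mul_inner (v i) (v j)]
    refine Finset.sum_congr rfl fun l _ => ?_
    rw [Matrix.transpose_apply, Module.Basis.toMatrix_apply, Module.Basis.toMatrix_apply]
    simp only [OrthonormalBasis.coe_toBasis_repr_apply, OrthonormalBasis.repr_apply_apply]
    rw [real_inner_comm]
  rw [h, Matrix.det_mul, Matrix.det_transpose, Module.Basis.det_apply, sq]

open ZSpan in
/-- the comparison of a Gaussian sum with a Gaussian integral. -/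
theorem sum_le_integral [FiniteDimensional ℝ E] [MeasurableSpace E] [BorelSpace E]
    {ι : Type*} [Fintype ι] (b : Module.Basis ι ℝ E) {L : AddSubgroup E}
    (hL : ∀ x, x ∈ L ↔ x ∈ Submodule.span ℤ (Set.range b)) {c θ : ℝ} (hc : 0 < c) (hθ : 0 < θ)
    (F : Finset L) :
    (∑ y ∈ F, Real.exp (-(c * (1 + θ) * ‖(y : E)‖ ^ 2))) *
      (Real.exp (-(c * (1 + θ⁻¹) * (∑ i, ‖b i‖) ^ 2)) * volume.real (fundamentalDomain b)) ≤
      (Real.pi / c) ^ ((Module.finrank ℝ E : ℝ) / 2) := by
  classical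
  set R := ∑ i, ‖b i‖ with hR
  set V := fundamentalDomain b with hV
  have hR0 : 0 ≤ R := Finset.sum_nonneg fun i _ => norm_nonneg _
  have hVm : MeasurableSet V := fundamentalDomain_measurableSet b
  have hVb : Bornology.IsBounded V := fundamentalDomain_isBounded b
  have hVn : ∀ v ∈ V, ‖v‖ ≤ R := by
    intro v hv
    have := norm_fract_le b v
    rwa [fract_eq_self.mpr hv] at this
  have hgi : Integrable fun x : E => Real.exp (-c * ‖x‖ ^ 2) := by
    have := GaussianFourier.integrable_cexp_neg_mul_sq_norm_add (V := E) (b := (c : ℝ))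
      (by simpa using hc) 0 0
    have h2 := this.norm
    refine h2.congr (Filter.Eventually.of_forall fun x => ?_)
    simp only [zero_mul, add_zero]
    rw [Complex.norm_exp]
    congr 1
    simp [← Complex.ofReal_pow]
  have hint : ∫ x : E, Real.exp (-c * ‖x‖ ^ 2) = (Real.pi / c) ^ ((Module.finrank ℝ E : ℝ) / 2) :=
    GaussianFourier.integral_rexp_neg_mul_sq_norm hc
  rw [← hint, Finset.sum_mul]
  let S : L → Set E := fun y => (fun x : E => x + (-(y : E))) ⁻¹' V
  have hSm : ∀ y, MeasurableSet (S y) := fun y => (by fun_prop : Measurable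
    (fun x : E => x + (-(y : E)))) hVm
  have hSv : ∀ y, volume (S y) = volume V := fun y => measure_preimage_add_right volume _ V
  have hVfin : volume V ≠ ⊤ := hVb.measure_lt_top.ne
  have hSr : ∀ y, volume.real (S y) = volume.real V := fun y => by
    rw [measureReal_def, measureReal_def, hSv]
  have h1 : ∀ y ∈ F, Real.exp (-(c * (1 + θ) * ‖(y : E)‖ ^ 2)) *
      (Real.exp (-(c * (1 + θ⁻¹) * R ^ 2)) * volume.real V) ≤
      ∫ x in S y, Real.exp (-c * ‖x‖ ^ 2) := by
    intro y _
    have h2 : Real.exp (-(c * (1 + θ) * ‖(y : E)‖ ^ 2)) *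
      (Real.exp (-(c * (1 + θ⁻¹) * R ^ 2)) * volume.real V) =
        ∫ _x in S y, Real.exp (-(c * (1 + θ) * ‖(y : E)‖ ^ 2) + -(c * (1 + θ⁻¹) * R ^ 2)) := by
      rw [setIntegral_const, hSr, smul_eq_mul, Real.exp_add]
      ring
    rw [h2]
    refine setIntegral_mono_on ?_ hgi.integrableOn (hSm y) ?_
    · exact integrableOn_const (hs := by rw [hSv]; exact hVfin)
    · intro x hx
      rw [Real.exp_le_exp]
      have hx' : ‖x + (-(y : E))‖ ≤ R := hVn _ hx
      have h3 : ‖x‖ ≤ ‖(y : E)‖ + R := by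
        have h4 : x = (y : E) + (x + (-(y : E))) := by abel
        rw [h4]
        exact (norm_add_le _ _).trans (by linarith)
      have h5 : ‖x‖ ^ 2 ≤ (‖(y : E)‖ + R) ^ 2 := pow_le_pow_left₀ (norm_nonneg x) h3 2
      have h6 : 2 * ‖(y : E)‖ * R ≤ θ * ‖(y : E)‖ ^ 2 + θ⁻¹ * R ^ 2 := by
        have h7 : 0 ≤ θ⁻¹ * (θ * ‖(y : E)‖ - R) ^ 2 := by positivity
        have h8 : θ⁻¹ * (θ * ‖(y : E)‖ - R) ^ 2 =
            θ * ‖(y : E)‖ ^ 2 - 2 * ‖(y : E)‖ * R + θ⁻¹ * R ^ 2 := by
          field_simp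
          ring
        linarith
      nlinarith
  refine (Finset.sum_le_sum h1).trans ?_
  rw [← integral_biUnion_finset F (fun y _ => hSm y) ?_ (fun y _ => hgi.integrableOn)]
  · exact setIntegral_le_integral hgi (Filter.Eventually.of_forall fun x => by positivity)
  · intro y _ y' _ hij
    refine Set.disjoint_left.mpr fun x hx hx' => ?_
    have h2 : fract b (x + (-(y : E))) = fract b (x + (-(y' : E))) := by
      rw [fract_eq_fract]
      have h3 : -(x + -(y : E)) + (x + -(y' : E)) = (y : E) - y' := by abel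
      rw [h3, ← hL]
      exact L.sub_mem y.2 y'.2
    rw [fract_eq_self.mpr hx, fract_eq_self.mpr hx'] at h2
    apply hij
    have h4 : (y : E) = y' := by
      have := add_left_cancel h2
      exact neg_injective this
    exact Subtype.ext h4

/-- a basis of a separated spanning subgroup. -/
theorem exists_basis [FiniteDimensional ℝ E] {L : AddSubgroup E} {t : ℝ} (ht : 0 < t)
    (hspan : Submodule.span ℝ (L : Set E) = ⊤) (hSp : Sp t L) :
    ∃ b : Module.Basis (Fin (Module.finrank ℝ E)) ℝ E,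
      ∀ x, x ∈ L ↔ x ∈ Submodule.span ℤ (Set.range b) := by
  set M : Submodule ℤ E := AddSubgroup.toIntSubmodule L with hM
  haveI : DiscreteTopology M := by
    refine DiscreteTopology.of_forall_le_dist ht ?_
    intro x y hxy
    rw [Subtype.dist_eq, dist_eq_norm]
    exact sep_of_sp ht hSp (L.sub_mem x.2 y.2) (by
      rw [sub_ne_zero]
      exact fun h => hxy (Subtype.ext h))
  haveI : IsZLattice ℝ M := ⟨hspan⟩
  haveI : Module.Finite ℤ M := ZLattice.module_finite ℝ M
  haveI : Module.Free ℤ M := ZLattice.module_free ℝ M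
  let bZ := Module.Free.chooseBasis ℤ M
  let b := bZ.ofZLatticeBasis ℝ M
  let e := Fintype.equivFinOfCardEq (Module.finrank_eq_card_basis b).symm
  refine ⟨b.reindex e, fun x => ?_⟩
  rw [Module.Basis.range_reindex, bZ.ofZLatticeBasis_span ℝ]
  exact Iff.rfl

end R7b

open R7b

section R7b

universe u

variable {E : Type u} [NormedAddCommGroup E] [InnerProductSpace ℝ E]

/-- `1`-separated (or `t`-separated) spanning subgroups are lattices. -/
theorem lat_of_sp [FiniteDimensional ℝ E] {L : AddSubgroup E} {t : ℝ} (ht : 0 < t)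
    (hspan : Submodule.span ℝ (L : Set E) = ⊤) (hSp : Sp t L) : Lat L := by
  refine ⟨?_, ?_⟩
  · intro c hc
    obtain ⟨C, -, hC⟩ := sum_sep (E := E) (c := c * t ^ 2) (by positivity)
    refine summable_of_sum_le (c := C) (fun y => by positivity) fun F => ?_
    have h := hC L (fun y => t⁻¹ • (y : E)) (fun i j hij => sum_sep_L ht hSp i j hij) F
    refine le_trans (le_of_eq (Finset.sum_congr rfl fun y _ => ?_)) h
    rw [norm_smul, norm_inv, Real.norm_of_nonneg ht.le]
    congr 2
    field_simp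
  · obtain ⟨s, hsL, hs, hli⟩ := exists_linearIndependent ℝ (L : Set E)
    have hfin : Finite s := hli.finite
    haveI := Fintype.ofFinite s
    have hsp : ⊤ ≤ Submodule.span ℝ (Set.range ((↑) : s → E)) := by
      rw [Subtype.range_coe, hs, hspan]
    let b : Module.Basis s ℝ E := Module.Basis.mk hli hsp
    have hb : ∀ i, b i = (i : E) := fun i => Module.Basis.mk_apply hli hsp i
    refine ⟨∑ i, ‖b i‖, fun z => ?_⟩
    refine ⟨∑ i, (⌊b.repr z i⌋ : ℤ) • b i, ?_, ?_⟩
    · exact L.sum_mem fun i _ => L.zsmul_mem (by rw [hb]; exact hsL i.2) _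
    · have h1 : z - ∑ i, (⌊b.repr z i⌋ : ℤ) • b i = ∑ i, (Int.fract (b.repr z i)) • b i := by
        conv_lhs => rw [← b.sum_repr z]
        rw [← Finset.sum_sub_distrib]
        refine Finset.sum_congr rfl fun i _ => ?_
        rw [b.sum_repr z, ← Int.cast_smul_eq_zsmul ℝ, ← sub_smul]
        rfl
      rw [h1]
      refine (norm_sum_le _ _).trans (Finset.sum_le_sum fun i _ => ?_)
      rw [norm_smul, Real.norm_of_nonneg (Int.fract_nonneg _)]
      exact mul_le_of_le_one_left (norm_nonneg _) (Int.fract_lt_one _).le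

/-- a bound for the mass depending only on the space. -/
theorem mass_bdd [FiniteDimensional ℝ E] :
    ∃ C : ℝ, ∀ (L : AddSubgroup E) (t : ℝ), 0 < t → Sp t L →
      Th L (√(2 * Real.pi) / t) 0 ≤ C := by
  obtain ⟨C, hC0, hC⟩ := sum_sep (E := E) (c := Real.pi) Real.pi_pos
  refine ⟨C, fun L t ht hSp => ?_⟩
  unfold Th
  refine Real.tsum_le_of_sum_le (fun y => by positivity) fun F => ?_
  have h := hC L (fun y => t⁻¹ • (y : E)) (fun i j hij => sum_sep_L ht hSp i j hij) F
  refine le_trans (le_of_eq (Finset.sum_congr rfl fun y _ => ?_)) h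
  rw [sub_zero, norm_smul, norm_smul, norm_inv, Real.norm_of_nonneg ht.le,
    Real.norm_of_nonneg (by positivity)]
  congr 2
  rw [mul_pow, div_pow, Real.sq_sqrt (by positivity)]
  field_simp

/-- small scale: Gaussian sums against the covolume. -/
theorem vol_bound [FiniteDimensional ℝ E] [MeasurableSpace E] [BorelSpace E]
    {L : AddSubgroup E} {t : ℝ} (ht : 0 < t)
    (hspan : Submodule.span ℝ (L : Set E) = ⊤) (hSp : Sp t L) (δ : ℝ) (hδ : 0 < δ) (s₀ : ℝ)
    (hs₀ : 0 < s₀) :
    ∃ σ, 0 < σ ∧ σ ≤ s₀ ∧ σ ^ (Module.finrank ℝ E) * Th L σ 0 ≤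
      Real.exp δ * (√(2 * Real.pi) / t) ^ (Module.finrank ℝ E) := by
  set k := Module.finrank ℝ E with hk
  obtain ⟨b, hb⟩ : ∃ b : Module.Basis (Fin k) ℝ E,
    ∀ x, x ∈ L ↔ x ∈ Submodule.span ℤ (Set.range b) := exists_basis ht hspan hSp
  set R := ∑ i, ‖b i‖ with hR
  have hR0 : 0 ≤ R := Finset.sum_nonneg fun i _ => norm_nonneg _
  -- volume
  have hvol : t ^ k ≤ volume.real (ZSpan.fundamentalDomain b) := by
    let o := stdOrthonormalBasis ℝ E
    have h1 := ZSpan.measureReal_fundamentalDomain b volume o.toBasis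
    have h2 : volume.real (ZSpan.fundamentalDomain o.toBasis) = 1 := by
      rw [measureReal_def, measure_congr (ZSpan.fundamentalDomain_ae_parallelepiped o.toBasis
        volume), OrthonormalBasis.coe_toBasis, o.volume_parallelepiped]
      rfl
    rw [h1, h2, mul_one]
    have h3 := hSp k b (fun i => (hb _).mpr (Submodule.subset_span ⟨i, rfl⟩)) b.linearIndependent
    rw [gram_det_basis o b, ← sq_abs] at h3
    rw [mul_comm 2 k, pow_mul] at h3
    exact (pow_le_pow_iff_left₀ (by positivity) (abs_nonneg _) two_ne_zero).mp h3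
  -- parameters
  set θ : ℝ := δ / (k + 1) with hθd
  have hθ : 0 < θ := by positivity
  have hθk : (1 + θ) ^ k ≤ Real.exp δ := by
    have h1 : (1 + θ) ≤ Real.exp θ := by
      have := Real.add_one_le_exp θ
      linarith
    refine (pow_le_pow_left₀ (by positivity) h1 k).trans ?_
    rw [← Real.exp_nat_mul, Real.exp_le_exp, hθd]
    rw [mul_div_assoc', div_le_iff₀ (by positivity)]
    nlinarith
  set τ : ℝ := min (s₀ / √(1 + θ)) (√(δ / ((1 + θ⁻¹) * (R ^ 2 + 1)))) with hτd
  have hq : 0 < √(1 + θ) := Real.sqrt_pos.mpr (by positivity)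
  have hτ : 0 < τ := by
    rw [hτd]
    exact lt_min (by positivity) (Real.sqrt_pos.mpr (by positivity))
  have hτ2 : τ ^ 2 * ((1 + θ⁻¹) * (R ^ 2 + 1)) ≤ δ := by
    have h1 : τ ≤ √(δ / ((1 + θ⁻¹) * (R ^ 2 + 1))) := min_le_right _ _
    have h2 : τ ^ 2 ≤ δ / ((1 + θ⁻¹) * (R ^ 2 + 1)) := by
      have := pow_le_pow_left₀ hτ.le h1 2
      rwa [Real.sq_sqrt (by positivity)] at this
    rwa [le_div_iff₀ (by positivity)] at h2
  refine ⟨τ * √(1 + θ), by positivity, ?_, ?_⟩
  · have h1 : τ ≤ s₀ / √(1 + θ) := min_le_left _ _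
    rwa [le_div_iff₀ hq] at h1
  set c : ℝ := τ ^ 2 / 2 with hcd
  have hc : 0 < c := by positivity
  set W : ℝ := Real.exp (-(c * (1 + θ⁻¹) * R ^ 2)) * volume.real (ZSpan.fundamentalDomain b)
    with hW
  have hv0 : 0 < volume.real (ZSpan.fundamentalDomain b) := lt_of_lt_of_le (by positivity) hvol
  have hW0 : 0 < W := by positivity
  have hTh : Th L (τ * √(1 + θ)) 0 * W ≤ (Real.pi / c) ^ ((k : ℝ) / 2) := by
    rw [← le_div_iff₀ hW0]
    unfold Th
    refine Real.tsum_le_of_sum_le (fun y => by positivity) fun F => ?_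
    rw [le_div_iff₀ hW0]
    refine le_trans (le_of_eq ?_) (sum_le_integral b hb hc hθ F)
    congr 1
    refine Finset.sum_congr rfl fun y _ => ?_
    rw [sub_zero, norm_smul, Real.norm_of_nonneg (by positivity), mul_pow, mul_pow,
      Real.sq_sqrt (by positivity), hcd]
    congr 1
    ring
  have hrp : (Real.pi / c) ^ ((k : ℝ) / 2) = (√(2 * Real.pi) / τ) ^ k := by
    have h1 : Real.pi / c = (√(2 * Real.pi) / τ) ^ 2 := by
      rw [div_pow, Real.sq_sqrt (by positivity), hcd]
      field_simp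
    rw [h1, ← Real.rpow_natCast (√(2 * Real.pi) / τ) 2, ← Real.rpow_mul (by positivity),
      ← Real.rpow_natCast (√(2 * Real.pi) / τ) k]
    congr 1
    push_cast
    ring
  rw [hrp] at hTh
  have hq2 : √(1 + θ) ^ k ≤ Real.exp (δ / 2) := by
    have h1 : (√(1 + θ) ^ k) ^ 2 ≤ (Real.exp (δ / 2)) ^ 2 := by
      rw [← pow_mul, mul_comm k 2, pow_mul, Real.sq_sqrt (by positivity), ← Real.exp_nat_mul]
      push_cast
      rw [mul_div_cancel₀ δ (two_ne_zero)]
      exact hθk
    exact (pow_le_pow_iff_left₀ (by positivity) (by positivity) two_ne_zero).mp h1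
  have hexp : Real.exp (-(δ / 2)) ≤ Real.exp (-(c * (1 + θ⁻¹) * R ^ 2)) := by
    rw [Real.exp_le_exp]
    have h1 : 0 ≤ (1 + θ⁻¹) * τ ^ 2 := by positivity
    rw [hcd]
    nlinarith
  -- conclusion
  have hWt : Real.exp (-(δ / 2)) * t ^ k ≤ W :=
    mul_le_mul hexp hvol (by positivity) (by positivity)
  have hThn : 0 ≤ Th L (τ * √(1 + θ)) 0 := tsum_nonneg fun y => by positivity
  have h1 : Th L (τ * √(1 + θ)) 0 * (Real.exp (-(δ / 2)) * t ^ k) ≤ (√(2 * Real.pi) / τ) ^ k :=
    (mul_le_mul_of_nonneg_left hWt hThn).trans hTh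
  have h2 : Real.exp (-(δ / 2)) * Real.exp (δ / 2) = 1 := by
    rw [← Real.exp_add]; simp
  have h3 : Real.exp δ = Real.exp (δ / 2) * Real.exp (δ / 2) := by
    rw [← Real.exp_add]; congr 1; ring
  have htk : 0 < t ^ k := by positivity
  have hτk : 0 < τ ^ k := by positivity
  rw [mul_pow, div_pow]
  rw [div_pow] at h1
  rw [le_div_iff₀ hτk] at h1
  rw [mul_div_assoc', le_div_iff₀ htk]
  calc τ ^ k * √(1 + θ) ^ k * Th L (τ * √(1 + θ)) 0 * t ^ k
      = (Th L (τ * √(1 + θ)) 0 * (Real.exp (-(δ / 2)) * t ^ k) * τ ^ k) *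
        (√(1 + θ) ^ k * Real.exp (δ / 2)) := by
        linear_combination (-(τ ^ k * √(1 + θ) ^ k * Th L (τ * √(1 + θ)) 0 * t ^ k)) * h2
    _ ≤ √(2 * Real.pi) ^ k * (Real.exp (δ / 2) * Real.exp (δ / 2)) := by
        refine mul_le_mul h1 ?_ (by positivity) (by positivity)
        exact mul_le_mul_of_nonneg_right hq2 (by positivity)
    _ = Real.exp δ * √(2 * Real.pi) ^ k := by rw [h3]; ring

end R7b

end Pool.Agent.BCD
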