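import Pool.Agent.Work.MP_bc8e1e_an.D.H3cB
import Pool.Agent.Work.MP_bc8e1e_an.D.H1
import Pool.Agent.Work.MP_bc8e1e_an.D.R7a
import Pool.Agent.Work.MP_bc8e1e_an.D.R7b

/-!
# Mass of a quotient lattice
-/

set_option autoImplicit false

open MeasureTheory Polynomial
open scoped RealInnerProductSpace

namespace Pool.Agent.BCD

namespace H3c

variable {lam W T : ℝ}

lemma io_inj : Function.Injective (io lam W) := by
  intro P Q h
  have h1 : P.map (Int.castRingHom ℝ) = Q.map (Int.castRingHom ℝ) := (PW.of lam W).injective h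
  exact Polynomial.map_injective _ (RingHom.injective_int _) h1

lemma toQ_li {n : ℕ} {v : Fin n → ℤ[X]} (hv : LinearIndependent ℤ v) :
    LinearIndependent ℚ fun i => (v i).map (Int.castRingHom ℚ) := by
  have h1 : LinearIndependent ℤ (fun i => (v i).map (Int.castRingHom ℚ)) := by
    refine hv.map' ((Polynomial.mapRingHom
      (Int.castRingHom ℚ)).toAddMonoidHom.toIntLinearMap) ?_
    rw [LinearMap.ker_eq_bot]
    exact Polynomial.map_injective _ (RingHom.injective_int _)
  exact (LinearIndependent.iff_fractionRing ℤ ℚ).1 h1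

lemma li_of_io {n : ℕ} {v : Fin n → ℤ[X]}
    (h : LinearIndependent ℝ fun i => io lam W (v i)) : LinearIndependent ℤ v := by
  refine Fintype.linearIndependent_iff.2 fun g hg i => ?_
  have h1 : ∑ i, (g i : ℝ) • io lam W (v i) = 0 := by
    rw [← io_sum, hg, ← ioHom_apply, map_zero]
  have := Fintype.linearIndependent_iff.1 h (fun i => (g i : ℝ)) h1 i
  exact_mod_cast this

lemma cov_le' {U : Submodule ℚ ℚ[X]} [Module.Finite ℚ U] {n : ℕ}
    (hn : n = Module.finrank ℚ U) (v : Fin n → ℤ[X]) (hv : ∀ i, v i ∈ MU U)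
    (hli : LinearIndependent ℤ v) :
    cov lam W U ≤ (Matrix.gram ℝ fun i => io lam W (v i)).det := by
  subst hn
  exact cov_le v hv hli

/-- the `ℚ`-span of a family of integer polynomials -/
noncomputable def sp {n : ℕ} (v : Fin n → ℤ[X]) : Submodule ℚ ℚ[X] :=
  Submodule.span ℚ (Set.range fun i => (v i).map (Int.castRingHom ℚ))

instance {n : ℕ} (v : Fin n → ℤ[X]) : Module.Finite ℚ (sp v) :=
  FiniteDimensional.span_of_finite ℚ (Set.finite_range _)

lemma finrank_sp {n : ℕ} {v : Fin n → ℤ[X]} (hv : LinearIndependent ℤ v) :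
    Module.finrank ℚ (sp v) = n := by
  unfold sp
  rw [finrank_span_eq_card (toQ_li hv), Fintype.card_fin]

lemma mem_sp {n : ℕ} (v : Fin n → ℤ[X]) (i : Fin n) : v i ∈ MU (sp v) :=
  Submodule.subset_span ⟨i, rfl⟩

lemma cov_sp_le {n : ℕ} {v : Fin n → ℤ[X]} (hv : LinearIndependent ℤ v) :
    cov lam W (sp v) ≤ (Matrix.gram ℝ fun i => io lam W (v i)).det :=
  cov_le' (finrank_sp hv).symm v (mem_sp v) hv

lemma sp_le {n : ℕ} {v : Fin n → ℤ[X]} {U : Submodule ℚ ℚ[X]} (hv : ∀ i, v i ∈ MU U) :
    sp v ≤ U := by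
  unfold sp
  rw [Submodule.span_le]
  rintro _ ⟨i, rfl⟩
  exact hv i

/-- A basis of the integer polynomials spans the space. -/
lemma IsBas.le_sp {U : Submodule ℚ ℚ[X]} {n : ℕ} {b : Fin n → ℤ[X]} (hb : IsBas U b) :
    U ≤ sp b := by
  intro p hp
  obtain ⟨N, hNm, hN⟩ := IsLocalization.integerNormalization_spec (nonZeroDivisors ℤ) p
  set P := IsLocalization.integerNormalization (nonZeroDivisors ℤ) p with hP
  have hN' : P.map (Int.castRingHom ℚ) = (N : ℚ) • p := by
    have : (algebraMap ℤ ℚ) = Int.castRingHom ℚ := rfl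
    rw [← this, hN]
    rw [Int.cast_smul_eq_zsmul]
  have hN0 : (N : ℚ) ≠ 0 := by
    exact_mod_cast nonZeroDivisors.ne_zero hNm
  have h1 : P ∈ MU U := by
    rw [mem_MU, hN']
    exact U.smul_mem _ hp
  obtain ⟨c, hc⟩ := hb.span P h1
  have h2 : P.map (Int.castRingHom ℚ) ∈ sp b := by
    rw [hc, ← Polynomial.coe_mapRingHom, map_sum]
    refine Submodule.sum_mem _ fun i _ => ?_
    rw [map_zsmul, ← Int.cast_smul_eq_zsmul ℚ]
    exact Submodule.smul_mem _ _ (mem_sp b i)
  have h3 : p = (N : ℚ)⁻¹ • P.map (Int.castRingHom ℚ) := by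
    rw [hN', smul_smul, inv_mul_cancel₀ hN0, one_smul]
  rw [h3]
  exact Submodule.smul_mem _ _ h2

/-! ### Lattices of integer polynomials in Euclidean spaces -/

section LRep

variable {E : Type*} [NormedAddCommGroup E] [InnerProductSpace ℝ E]

/-- `L` is the lattice of integer polynomials of `V`. -/
structure LRep (V : Submodule ℚ ℚ[X]) (ι : E →ₗᵢ[ℝ] PW lam W) (L : AddSubgroup E) : Prop where
  mem : ∀ y, y ∈ L ↔ ∃ P ∈ MU V, io lam W P = ι y
  ex : ∀ P ∈ MU V, ∃ y, ι y = io lam W P

variable {V : Submodule ℚ ℚ[X]} {ι : E →ₗᵢ[ℝ] PW lam W} {L : AddSubgroup E}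

lemma scale_sq : (√(2 * Real.pi) / T) ^ 2 = 2 * (Real.pi / T ^ 2) := by
  rw [div_pow, Real.sq_sqrt (by positivity)]
  ring

lemma LRep.Th_eq (h : LRep V ι L) :
    Th L (√(2 * Real.pi) / T) 0 = rhoU lam W T V := by
  choose f hf using fun P : MU V => h.ex P P.2
  have hfL : ∀ P, f P ∈ L := fun P => (h.mem _).2 ⟨P, P.2, (hf P).symm⟩
  have hbij : Function.Bijective fun P : MU V => (⟨f P, hfL P⟩ : L) := by
    constructor
    · intro P Q hPQ
      have h1 : f P = f Q := congrArg Subtype.val hPQ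
      apply Subtype.ext
      apply io_inj (lam := lam) (W := W)
      rw [← hf, ← hf, h1]
    · rintro ⟨y, hy⟩
      obtain ⟨P, hP, hPy⟩ := (h.mem y).1 hy
      refine ⟨⟨P, hP⟩, Subtype.ext ?_⟩
      apply ι.injective
      rw [hf ⟨P, hP⟩]
      exact hPy
  unfold Th rhoU
  rw [← (Equiv.ofBijective _ hbij).tsum_eq]
  refine tsum_congr fun P => ?_
  have h1 : ‖f P‖ = ‖io lam W (P : ℤ[X])‖ := by rw [← hf P, ι.norm_map]
  simp only [Equiv.ofBijective_apply]
  congr 1
  rw [sub_zero, norm_smul, mul_pow, h1, Real.norm_eq_abs, sq_abs, scale_sq]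
  ring

lemma LRep.sp (h : LRep V ι L) : Sp 1 L := by
  intro j v hv hli
  choose P hP hP' using fun i => (h.mem (v i)).1 (hv i)
  have hgram : Matrix.gram ℝ v = Matrix.gram ℝ fun i => io lam W (P i) := by
    ext a b
    simp only [Matrix.gram_apply, hP', ι.inner_map_map]
  have hliR : LinearIndependent ℝ fun i => io lam W (P i) := by
    simp_rw [hP']
    exact hli.map' ι.toLinearMap (LinearMap.ker_eq_bot.2 ι.injective)
  have hliZ := li_of_io hliR
  rw [one_pow, hgram]
  exact (one_le_cov (lam := lam) (W := W) (H3c.sp P)).trans (cov_sp_le hliZ)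

end LRep

/-- The statement of the reverse Minkowski theorem. -/
def RevMink : Prop :=
  ∀ (E : Type) [NormedAddCommGroup E] [InnerProductSpace ℝ E] [FiniteDimensional ℝ E]
    (L : AddSubgroup E) (t : ℝ), 0 < t → Submodule.span ℝ (L : Set E) = ⊤ → Sp t L →
    Th L (√(2 * Real.pi) / t) 0 ≤ Real.exp (8 * Module.finrank ℝ E)

theorem quot_core (hrev : RevMink) {E : Type} [NormedAddCommGroup E] [InnerProductSpace ℝ E]
    [FiniteDimensional ℝ E] {D U : Submodule ℚ ℚ[X]} [Module.Finite ℚ U]
    {ι : E →ₗᵢ[ℝ] PW lam W} {L : AddSubgroup E} (hRU : LRep U ι L)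
    (hspan0 : Submodule.span ℝ (L : Set E) = ⊤)
    (hfrE : Module.finrank ℝ E = Module.finrank ℚ U) (hT0 : 0 < T) (hDU : D ≤ U)
    (hmax : ∀ V : Submodule ℚ ℚ[X], D ≤ V → V ≤ U → gT lam W T V ≤ gT lam W T D) :
    rhoU lam W T U ≤ rhoU lam W T D *
      Real.exp (8 * ((Module.finrank ℚ U : ℝ) - Module.finrank ℚ D)) := by
  classical
  have : Module.Finite ℚ D := Submodule.finiteDimensional_of_le hDU
  obtain ⟨m, hm, d, hd⟩ : ∃ m : ℕ, m = Module.finrank ℚ D ∧ ∃ d : Fin m → ℤ[X], IsBas D d :=
    ⟨_, rfl, exists_bas D⟩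
  obtain ⟨k, c, hbc⟩ := hd.extend hDU
  have hmk : m + k = Module.finrank ℚ U := hbc.card
  have hliR : LinearIndependent ℝ fun i => io lam W (Fin.append d c i) := li_io hbc.li
  have hdU : ∀ i, d i ∈ MU U := fun i => hDU (hd.mem i)
  -- the subspace of `D`
  choose dE hdE using fun i => hRU.ex (d i) (hdU i)
  set S : Submodule ℝ E := Submodule.span ℝ (Set.range dE) with hS
  set LU : AddSubgroup S := L.comap S.subtype.toAddMonoidHom with hLU
  have memLU : ∀ u : S, u ∈ LU ↔ (u : E) ∈ L := fun u => Iff.rfl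
  have hdli : LinearIndependent ℝ dE := by
    have h1 : LinearIndependent ℝ fun i => io lam W (d i) := li_io hd.li
    refine LinearIndependent.of_comp ι.toLinearMap ?_
    have h2 : (⇑ι.toLinearMap ∘ dE) = fun i => io lam W (d i) := funext fun i => hdE i
    rw [h2]
    exact h1
  have hmemS : ∀ P ∈ MU D, ∃ u : S, ι (u : E) = io lam W P := by
    intro P hP
    obtain ⟨a, rfl⟩ := hd.span P hP
    refine ⟨⟨∑ i, (a i : ℝ) • dE i, Submodule.sum_mem _ fun i _ => Submodule.smul_mem _ _
      (Submodule.subset_span ⟨i, rfl⟩)⟩, ?_⟩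
    simp only [map_sum, map_smul, hdE, io_sum]
  have hsat : ∀ P ∈ MU U, ∀ u : S, io lam W P = ι (u : E) → P ∈ MU D := by
    intro P hP u hu
    obtain ⟨a, ha⟩ := hbc.span P hP
    obtain ⟨r, hr⟩ := (Submodule.mem_span_range_iff_exists_fun ℝ).1 u.2
    have h1 : ∑ i, r i • io lam W (d i) = io lam W P := by
      rw [hu, ← hr]
      simp only [map_sum, map_smul, hdE]
    have h2 : ∑ i, ((a i : ℝ) - Fin.append r (fun _ : Fin k => 0) i) •
        io lam W (Fin.append d c i) = 0 := by
      simp only [sub_smul, Finset.sum_sub_distrib]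
      rw [← io_sum, ← ha, sub_eq_zero, Fin.sum_univ_add]
      simp only [Fin.append_left, Fin.append_right, zero_smul, Finset.sum_const_zero,
        add_zero]
      exact h1.symm
    have h3 := Fintype.linearIndependent_iff.1 hliR _ h2
    have h4 : ∀ i : Fin k, a (Fin.natAdd m i) = 0 := by
      intro i
      have := h3 (Fin.natAdd m i)
      simp only [Fin.append_right, sub_zero] at this
      exact_mod_cast this
    rw [ha, Fin.sum_univ_add]
    simp only [Fin.append_left, Fin.append_right, h4, zero_smul, Finset.sum_const_zero,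
        add_zero]
    exact AddSubgroup.sum_mem _ fun i _ => AddSubgroup.zsmul_mem _ (hd.mem i) _
  have hRD : LRep D (ι.comp S.subtypeₗᵢ) LU := by
    refine ⟨fun y => ⟨fun hy => ?_, ?_⟩, fun P hP => ?_⟩
    · obtain ⟨P, hP, hPy⟩ := (hRU.mem _).1 ((memLU y).1 hy)
      exact ⟨P, hsat P hP y hPy, hPy⟩
    · rintro ⟨P, hP, hPy⟩
      exact (memLU y).2 ((hRU.mem _).2 ⟨P, hDU hP, hPy⟩)
    · obtain ⟨u, hu⟩ := hmemS P hP
      exact ⟨u, hu⟩
  -- the quotient
  set pr : E →ₗ[ℝ] Sᗮ := (Sᗮ.orthogonalProjectionOnto).toLinearMap with hpr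
  have hpr_coe : ∀ y, ((pr y : Sᗮ) : E) = y - S.starProjection y := by
    intro y
    have h1 : ((pr y : Sᗮ) : E) = Sᗮ.starProjection y := rfl
    rw [h1]
    exact Submodule.starProjection_orthogonal_val y
  set LQ : AddSubgroup Sᗮ := L.map pr.toAddMonoidHom with hLQ
  have memLQ : ∀ q : Sᗮ, q ∈ LQ ↔ ∃ y ∈ L, (q : E) = y - S.starProjection y := by
    intro q
    rw [hLQ, AddSubgroup.mem_map]
    constructor
    · rintro ⟨y, hy, rfl⟩
      exact ⟨y, hy, hpr_coe y⟩
    · rintro ⟨y, hy, h⟩
      exact ⟨y, hy, Subtype.ext ((hpr_coe y).trans h.symm)⟩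
  -- spanning
  have hspanS : Submodule.span ℝ (LU : Set S) = ⊤ := by
    rw [eq_top_iff, ← Submodule.span_span_coe_preimage (R := ℝ) (s := Set.range dE)]
    refine Submodule.span_mono ?_
    rintro y ⟨i, hi⟩
    refine (memLU y).2 ((hRU.mem _).2 ⟨d i, hdU i, ?_⟩)
    rw [← hi, hdE]
  have hspanQ : Submodule.span ℝ (LQ : Set Sᗮ) = ⊤ := by
    have h1 : (LQ : Set Sᗮ) = pr '' (L : Set E) := rfl
    rw [h1, Submodule.span_image, hspan0, Submodule.map_top, LinearMap.range_eq_top]
    intro q
    refine ⟨(q : E), ?_⟩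
    exact Submodule.orthogonalProjectionOnto_mem_subspace_eq_self q
  -- separation of the quotient
  have hcovD : cov lam W D = (Matrix.gram ℝ dE).det := by
    rw [hd.cov_eq]
    congr 1
    ext a b
    simp only [Matrix.gram_apply, ← hdE, ι.inner_map_map]
  have hcD : 1 ≤ cov lam W D := one_le_cov D
  have hSpQ : Sp T LQ := by
    intro j v hv hli
    choose y hy hyv using fun i => (memLQ (v i)).1 (hv i)
    choose w hw hwy using fun i => (hRU.mem (y i)).1 (hy i)
    have hga := gram_append dE y S rfl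
    have h1 : (Matrix.gram ℝ fun i => y i - S.starProjection (y i)) = Matrix.gram ℝ v := by
      ext a b
      simp only [Matrix.gram_apply, ← hyv]
      rfl
    have h2 : (Matrix.gram ℝ fun i => io lam W (Fin.append d w i)) =
        Matrix.gram ℝ (Fin.append dE y) := by
      have h3 : ∀ i, io lam W (Fin.append d w i) = ι (Fin.append dE y i) := by
        intro i
        refine Fin.addCases (fun i => ?_) (fun i => ?_) i
        · simp only [Fin.append_left, hdE]
        · simp only [Fin.append_right, hwy]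
      ext a b
      simp only [Matrix.gram_apply, h3, ι.inner_map_map]
    have hliZ : LinearIndependent ℤ (Fin.append d w) := by
      refine Fintype.linearIndependent_iff.2 fun g hg => ?_
      have h3 : ∑ i, (g (Fin.castAdd j i) : ℝ) • dE i +
          ∑ i, (g (Fin.natAdd m i) : ℝ) • y i = 0 := by
        apply ι.injective
        have h4 := congrArg (io lam W) hg
        rw [io_sum, Fin.sum_univ_add] at h4
        simp only [Fin.append_left, Fin.append_right] at h4
        rw [← ioHom_apply 0, map_zero] at h4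
        simpa only [map_add, map_sum, map_smul, hdE, ← hwy, map_zero] using h4
      have h5 : ∑ i, (g (Fin.natAdd m i) : ℝ) • v i = 0 := by
        have h6 := congrArg pr h3
        rw [map_add, map_sum, map_sum, map_zero] at h6
        simp only [map_smul] at h6
        have h7 : ∀ i, pr (dE i) = 0 := by
          intro i
          apply Subtype.ext
          have h9 : dE i ∈ S := Submodule.subset_span ⟨i, rfl⟩
          rw [hpr_coe, Submodule.starProjection_eq_self_iff.2 h9, sub_self]
          rfl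
        have h8 : ∀ i, pr (y i) = v i := fun i => Subtype.ext ((hpr_coe _).trans (hyv i).symm)
        simpa only [h7, h8, smul_zero, Finset.sum_const_zero, zero_add] using h6
      have h6 : ∀ i : Fin j, g (Fin.natAdd m i) = 0 := by
        intro i
        have := Fintype.linearIndependent_iff.1 hli _ h5 i
        exact_mod_cast this
      rw [Fin.sum_univ_add] at hg
      simp only [Fin.append_left, Fin.append_right, h6, zero_smul, Finset.sum_const_zero,
        add_zero] at hg
      have h7 := Fintype.linearIndependent_iff.1 hd.li _ hg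
      intro i
      exact Fin.addCases h7 h6 i
    have hDV : D ≤ sp (Fin.append d w) := by
      refine (IsBas.le_sp hd).trans (sp_le fun i => ?_)
      have := mem_sp (Fin.append d w) (Fin.castAdd j i)
      rwa [Fin.append_left] at this
    have hVU : sp (Fin.append d w) ≤ U := by
      refine sp_le fun i => ?_
      refine Fin.addCases (fun i => ?_) (fun i => ?_) i
      · rw [Fin.append_left]; exact hdU i
      · rw [Fin.append_right]; exact hw i
    have hg := hmax _ hDV hVU
    unfold gT at hg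
    rw [finrank_sp hliZ, ← hm] at hg
    have hcV := one_le_cov (lam := lam) (W := W) (sp (Fin.append d w))
    have hcV' := cov_sp_le (lam := lam) (W := W) hliZ
    rw [h2, hga, h1, ← hcovD] at hcV'
    have hpos : 0 < (Matrix.gram ℝ v).det := by
      by_contra hneg
      push Not at hneg
      have : cov lam W D * (Matrix.gram ℝ v).det ≤ 0 :=
        mul_nonpos_of_nonneg_of_nonpos (by linarith) hneg
      linarith
    have hlog : Real.log (cov lam W (sp (Fin.append d w))) ≤
        Real.log (cov lam W D) + Real.log (Matrix.gram ℝ v).det := by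
      rw [← Real.log_mul (by linarith) hpos.ne']
      exact Real.log_le_log (by linarith) hcV'
    push_cast at hg
    have hfin : Real.log (T ^ (2 * j)) ≤ Real.log (Matrix.gram ℝ v).det := by
      rw [Real.log_pow]
      push_cast
      nlinarith
    exact (Real.log_le_log_iff (by positivity) hpos).1 hfin
  -- conclusion
  have hLatL : Lat L := lat_of_sp one_pos hspan0 hRU.sp
  have hLatU : Lat LU := lat_of_sp one_pos hspanS hRD.sp
  have hLatQ : Lat LQ := lat_of_sp hT0 hspanQ hSpQ
  have hs : 0 < √(2 * Real.pi) / T := by have := Real.pi_pos; positivity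
  have hq := mass_quot hLatL hs S memLU memLQ hLatU hLatQ
  rw [hRU.Th_eq, hRD.Th_eq] at hq
  have hrm := hrev Sᗮ LQ T hT0 hspanQ hSpQ
  have hfr : (Module.finrank ℝ Sᗮ : ℝ) = (Module.finrank ℚ U : ℝ) - Module.finrank ℚ D := by
    have h1 := S.finrank_add_finrank_orthogonal
    have h3 : Module.finrank ℝ S = m := by
      rw [hS, finrank_span_eq_card hdli, Fintype.card_fin]
    have h4 : Module.finrank ℝ Sᗮ = k := by omega
    rw [h4, ← hm, ← hmk]
    push_cast
    ring
  rw [hfr] at hrm
  refine hq.trans (mul_le_mul_of_nonneg_left hrm ?_)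
  exact tsum_nonneg fun P => (Real.exp_pos _).le

/-- `rho_quot` from the reverse Minkowski theorem. -/
theorem rho_quot_of (hrev : RevMink) (hT : 1 ≤ T) {D U : Submodule ℚ ℚ[X]} [Module.Finite ℚ U] (hDU : D ≤ U)
    (hmax : ∀ V : Submodule ℚ ℚ[X], D ≤ V → V ≤ U → gT lam W T V ≤ gT lam W T D) :
    rhoU lam W T U ≤ rhoU lam W T D *
      Real.exp (8 * ((Module.finrank ℚ U : ℝ) - Module.finrank ℚ D)) := by
  obtain ⟨n, hn, b, hb⟩ : ∃ n : ℕ, n = Module.finrank ℚ U ∧ ∃ b : Fin n → ℤ[X], IsBas U b :=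
    ⟨_, rfl, exists_bas U⟩
  have hliR : LinearIndependent ℝ fun i => io lam W (b i) := li_io hb.li
  set S₀ : Submodule ℝ (PW lam W) := Submodule.span ℝ (Set.range fun i => io lam W (b i))
    with hS₀
  have : FiniteDimensional ℝ S₀ := FiniteDimensional.span_of_finite ℝ (Set.finite_range _)
  have hmem : ∀ P ∈ MU U, io lam W P ∈ S₀ := by
    intro P hP
    obtain ⟨a, rfl⟩ := hb.span P hP
    rw [io_sum]
    exact Submodule.sum_mem _ fun i _ => Submodule.smul_mem _ _
      (Submodule.subset_span ⟨i, rfl⟩)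
  set L : AddSubgroup S₀ := ((MU U).map (ioHom lam W)).comap S₀.subtype.toAddMonoidHom with hL
  have memL : ∀ y : S₀, y ∈ L ↔ ∃ P ∈ MU U, io lam W P = (y : PW lam W) := fun y => Iff.rfl
  have hRU : LRep U S₀.subtypeₗᵢ L := ⟨memL, fun P hP => ⟨⟨_, hmem P hP⟩, rfl⟩⟩
  have hspan0 : Submodule.span ℝ (L : Set S₀) = ⊤ := by
    rw [eq_top_iff, ← Submodule.span_span_coe_preimage (R := ℝ)
      (s := Set.range fun i => io lam W (b i))]
    refine Submodule.span_mono ?_
    rintro y ⟨i, hi⟩
    exact (memL y).2 ⟨_, hb.mem i, hi⟩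
  have hfr : Module.finrank ℝ S₀ = Module.finrank ℚ U := by
    rw [hS₀, finrank_span_eq_card hliR, Fintype.card_fin, hn]
  exact quot_core hrev hRU hspan0 hfr (zero_lt_one.trans_le hT) hDU hmax

end H3c

end Pool.Agent.BCD
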