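import Pool.Agent.Work.MP_bc8e1e_an.D.R6
import Pool.Agent.Work.MP_bc8e1e_an.D.R7a
import Pool.Agent.Work.MP_bc8e1e_an.D.R7b

/-!
# R8: the reverse Minkowski theorem
-/

set_option autoImplicit false

open MeasureTheory ProbabilityTheory
open scoped RealInnerProductSpace

namespace Pool.Agent.BCD

namespace R8

section stretch

variable {E : Type*} [NormedAddCommGroup E] [InnerProductSpace ℝ E]

/-- the map `x ↦ x + s ⟪a,x⟫ a + ((1+s)⁻¹ - 1) ⟪b,x⟫ b` for `a ⟂ b`. -/
noncomputable def stretch (a b : E) (s : ℝ) : E →ₗ[ℝ] E :=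
  (LinearMap.transvection (s • (innerₛₗ ℝ a)) a) ∘ₗ
    (LinearMap.transvection (((1 + s)⁻¹ - 1) • (innerₛₗ ℝ b)) b)

theorem stretch_apply {a b : E} (hab : ⟪a, b⟫ = 0) (s : ℝ) (x : E) :
    stretch a b s x = x + (s * ⟪x, a⟫) • a + (((1 + s)⁻¹ - 1) * ⟪x, b⟫) • b := by
  simp only [stretch, LinearMap.comp_apply, LinearMap.transvection.apply, LinearMap.smul_apply,
    innerₛₗ_apply_apply, inner_add_right, inner_smul_right, hab, smul_eq_mul, mul_zero, add_zero]
  rw [real_inner_comm a x, real_inner_comm b x]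
  abel

theorem norm_stretch_sq {a b : E} (ha : ‖a‖ = 1) (hb : ‖b‖ = 1) (hab : ⟪a, b⟫ = 0) (s : ℝ)
    (x : E) : ‖stretch a b s x‖ ^ 2 = ‖x‖ ^ 2 + ((1 + s) ^ 2 - 1) * ⟪x, a⟫ ^ 2 -
      (1 - ((1 + s)⁻¹) ^ 2) * ⟪x, b⟫ ^ 2 := by
  have haa : ⟪a, a⟫ = 1 := by rw [real_inner_self_eq_norm_sq, ha]; norm_num
  have hbb : ⟪b, b⟫ = 1 := by rw [real_inner_self_eq_norm_sq, hb]; norm_num
  have hba : ⟪b, a⟫ = 0 := by rw [real_inner_comm, hab]
  rw [stretch_apply hab, ← real_inner_self_eq_norm_sq, ← real_inner_self_eq_norm_sq]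
  simp only [inner_add_left, inner_add_right, inner_smul_left, inner_smul_right, haa, hbb, hab,
    hba, real_inner_comm x a, real_inner_comm x b, RCLike.conj_to_real]
  rw [real_inner_comm a x, real_inner_comm b x]
  ring

theorem le_norm_stretch {a b : E} (ha : ‖a‖ = 1) (hb : ‖b‖ = 1) (hab : ⟪a, b⟫ = 0) {s : ℝ}
    (hs : 0 < s) (x : E) : (1 + s)⁻¹ * ‖x‖ ≤ ‖stretch a b s x‖ := by
  have h1 : (0 : ℝ) < (1 + s)⁻¹ := by positivity
  have h2 : (1 + s)⁻¹ ≤ 1 := inv_le_one_of_one_le₀ (by linarith)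
  have h3 : ⟪x, b⟫ ^ 2 ≤ ‖x‖ ^ 2 := by
    have := abs_real_inner_le_norm x b
    rw [hb, mul_one] at this
    rw [← sq_abs ⟪x, b⟫]
    exact pow_le_pow_left₀ (abs_nonneg _) this 2
  refine le_of_sq_le_sq ?_ (norm_nonneg _)
  rw [mul_pow, norm_stretch_sq ha hb hab]
  have h4 : 0 ≤ ((1 + s) ^ 2 - 1) * ⟪x, a⟫ ^ 2 := by
    apply mul_nonneg _ (sq_nonneg _)
    nlinarith
  have h5 : 0 ≤ 1 - ((1 + s)⁻¹) ^ 2 := by nlinarith
  nlinarith [mul_le_mul_of_nonneg_left h3 h5]

theorem det_stretch [FiniteDimensional ℝ E] {a b : E} (ha : ‖a‖ = 1) (hb : ‖b‖ = 1) {s : ℝ}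
    (hs : 0 < s) : (stretch a b s).det = 1 := by
  have haa : ⟪a, a⟫ = 1 := by rw [real_inner_self_eq_norm_sq, ha]; norm_num
  have hbb : ⟪b, b⟫ = 1 := by rw [real_inner_self_eq_norm_sq, hb]; norm_num
  have h : (1 + s) ≠ 0 := by positivity
  rw [stretch, LinearMap.det_comp, LinearMap.transvection.det, LinearMap.transvection.det]
  simp only [LinearMap.smul_apply, innerₛₗ_apply_apply, haa, hbb, smul_eq_mul, mul_one]
  field_simp
  ring

theorem stretch_injective {a b : E} (ha : ‖a‖ = 1) (hb : ‖b‖ = 1) (hab : ⟪a, b⟫ = 0) {s : ℝ}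
    (hs : 0 < s) : Function.Injective (stretch a b s) := by
  rw [← LinearMap.ker_eq_bot, LinearMap.ker_eq_bot']
  intro x hx
  have h := le_norm_stretch ha hb hab hs x
  rw [hx, norm_zero] at h
  have h1 : (0 : ℝ) < (1 + s)⁻¹ := by positivity
  have : ‖x‖ ≤ 0 := by
    by_contra h2
    push Not at h2
    have := mul_pos h1 h2
    linarith
  exact norm_le_zero_iff.1 this

end stretch

section moments

variable {E : Type*} [NormedAddCommGroup E] [InnerProductSpace ℝ E] {L : AddSubgroup E} {s : ℝ}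

theorem summable_sq (hL : Lat L) (hs : 0 < s) (a : E) :
    Summable fun y : L => ⟪s • (y : E), a⟫ ^ 2 * Real.exp (-(‖s • (y : E) - 0‖ ^ 2 / 2)) := by
  have h := (Th_summable_pow hL hs 0 2).mul_left (s ^ 2 * ‖a‖ ^ 2)
  refine Summable.of_nonneg_of_le (fun y => by positivity) (fun y => ?_) h
  rw [← mul_assoc]
  apply mul_le_mul_of_nonneg_right _ (Real.exp_pos _).le
  have h1 := abs_real_inner_le_norm (s • (y : E)) a
  rw [norm_smul, Real.norm_eq_abs, abs_of_pos hs] at h1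
  rw [← sq_abs]
  calc |⟪s • (y : E), a⟫| ^ 2 ≤ (s * ‖(y : E)‖ * ‖a‖) ^ 2 :=
        pow_le_pow_left₀ (abs_nonneg _) h1 2
    _ = s ^ 2 * ‖a‖ ^ 2 * ‖(y : E)‖ ^ 2 := by ring

/-- second moments -/
noncomputable def S2 (L : AddSubgroup E) (s : ℝ) (a : E) : ℝ := Ex L s 0 (fun y => ⟪y, a⟫ ^ 2)

theorem S2_mul (hL : Lat L) (hs : 0 < s) (a : E) : S2 L s a * Th L s 0 =
    ∑' y : L, ⟪s • (y : E), a⟫ ^ 2 * Real.exp (-(‖s • (y : E) - 0‖ ^ 2 / 2)) :=
  div_mul_cancel₀ _ (Th_pos hL hs 0).ne'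

theorem S2_smul (r : ℝ) (a : E) : S2 L s (r • a) = r ^ 2 * S2 L s a := by
  unfold S2 Ex
  rw [← mul_div_assoc, ← tsum_mul_left]
  congr 1
  refine tsum_congr fun y => ?_
  beta_reduce
  rw [inner_smul_right]
  ring

theorem S2_add (hL : Lat L) (hs : 0 < s) {a b c d : E}
    (h : ∀ y : E, ⟪y, b⟫ ^ 2 + ⟪y, d⟫ ^ 2 = ⟪y, a⟫ ^ 2 + ⟪y, c⟫ ^ 2) :
    S2 L s b + S2 L s d = S2 L s a + S2 L s c := by
  have hT := (Th_pos hL hs 0).ne'
  apply mul_right_cancel₀ hT
  rw [add_mul, add_mul, S2_mul hL hs, S2_mul hL hs, S2_mul hL hs, S2_mul hL hs,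
    ← (summable_sq hL hs b).tsum_add (summable_sq hL hs d),
    ← (summable_sq hL hs a).tsum_add (summable_sq hL hs c)]
  refine tsum_congr fun y => ?_
  rw [← add_mul, ← add_mul, h]

theorem S2_nonneg (a : E) : 0 ≤ S2 L s a := by
  unfold S2 Ex Th
  positivity

/-- Jensen's inequality for the stretched lattice -/
theorem Th_map_ge (hL : Lat L) (hs : 0 < s) (T : E →ₗ[ℝ] E) (hT : Function.Injective T)
    (hL' : Lat (L.map T.toAddMonoidHom)) {a b : E} {A B : ℝ}
    (hnorm : ∀ x, ‖T x‖ ^ 2 = ‖x‖ ^ 2 + A * ⟪x, a⟫ ^ 2 - B * ⟪x, b⟫ ^ 2) :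
    Real.exp (-((A * S2 L s a - B * S2 L s b) / 2)) * Th L s 0 ≤
      Th (L.map T.toAddMonoidHom) s 0 := by
  set m := (A * S2 L s a - B * S2 L s b) / 2 with hm
  set w : L → ℝ := fun y => Real.exp (-(‖s • (y : E) - 0‖ ^ 2 / 2)) with hw
  set x : L → ℝ := fun y => (A * ⟪s • (y : E), a⟫ ^ 2 - B * ⟪s • (y : E), b⟫ ^ 2) / 2 with hx
  let e : L ≃ L.map T.toAddMonoidHom :=
    (L.equivMapOfInjective T.toAddMonoidHom hT).toEquiv
  have he : ∀ y : L, ((e y : L.map T.toAddMonoidHom) : E) = T y := fun y => rfl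
  have hterm : ∀ y : L, Real.exp (-(‖s • ((e y : L.map T.toAddMonoidHom) : E) - 0‖ ^ 2 / 2)) =
      w y * Real.exp (-(x y)) := by
    intro y
    rw [he, hw, hx, ← Real.exp_add]
    congr 1
    rw [sub_zero, sub_zero, ← map_smul, hnorm]
    ring
  have hTh' : Th (L.map T.toAddMonoidHom) s 0 = ∑' y : L, w y * Real.exp (-(x y)) := by
    unfold Th
    rw [← e.tsum_eq]
    exact tsum_congr hterm
  have hsw : Summable w := Th_summable hL hs 0
  have hsx : Summable fun y => w y * x y := by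
    have h1 := ((summable_sq hL hs a).mul_left (A / 2)).sub
      ((summable_sq hL hs b).mul_left (B / 2))
    refine h1.congr fun y => ?_
    rw [hw, hx]
    ring
  have hse : Summable fun y => w y * Real.exp (-(x y)) := by
    have h1 : Summable fun y : L.map T.toAddMonoidHom =>
        Real.exp (-(‖s • (y : E) - 0‖ ^ 2 / 2)) := Th_summable hL' hs 0
    have h2 := (e.summable_iff).2 h1
    refine h2.congr fun y => ?_
    exact hterm y
  have hxsum : ∑' y, w y * x y = m * Th L s 0 := by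
    have h1 : ∑' y, w y * x y = A / 2 * (S2 L s a * Th L s 0) - B / 2 * (S2 L s b * Th L s 0) := by
      rw [S2_mul hL hs, S2_mul hL hs, ← tsum_mul_left, ← tsum_mul_left,
        ← ((summable_sq hL hs a).mul_left (A / 2)).tsum_sub
          ((summable_sq hL hs b).mul_left (B / 2))]
      refine tsum_congr fun y => ?_
      rw [hw, hx]
      ring
    rw [h1, hm]
    ring
  rw [hTh']
  have h2 : Real.exp (-m) * Th L s 0 = ∑' y, Real.exp (-m) * ((1 + m) * w y - w y * x y) := by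
    rw [tsum_mul_left, (hsw.mul_left (1 + m)).tsum_sub hsx, tsum_mul_left, hxsum]
    change _ = Real.exp (-m) * ((1 + m) * Th L s 0 - m * Th L s 0)
    ring
  rw [h2]
  refine Summable.tsum_le_tsum (fun y => ?_) (((hsw.mul_left (1 + m)).sub hsx).mul_left _) hse
  have h3 : -(x y) + m + 1 ≤ Real.exp (-(x y) + m) := Real.add_one_le_exp _
  have h4 : Real.exp (-(x y)) = Real.exp (-m) * Real.exp (-(x y) + m) := by
    rw [← Real.exp_add]
    congr 1
    ring
  rw [h4]
  have hw0 : 0 < w y := Real.exp_pos _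
  have h5 := mul_le_mul_of_nonneg_left h3 (mul_pos (Real.exp_pos (-m)) hw0).le
  calc Real.exp (-m) * ((1 + m) * w y - w y * x y) =
      Real.exp (-m) * w y * (-(x y) + m + 1) := by ring
    _ ≤ _ := h5
    _ = _ := by ring

/-- consequence for a near maximiser -/
theorem S2_near (hL : Lat L) (hs : 0 < s) {a b : E} (ha : ‖a‖ = 1) (hb : ‖b‖ = 1)
    (hab : ⟪a, b⟫ = 0) {r η : ℝ} (hr : 0 < r) (hr1 : r ≤ 1 / 1000) (hη : η ≤ r / 1000)
    (hη0 : 0 ≤ η) (ha1 : S2 L s a ≤ 1)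
    (hL' : Lat (L.map (stretch a b r).toAddMonoidHom))
    (hmax : Th (L.map (stretch a b r).toAddMonoidHom) s 0 ≤ Real.exp η * Th L s 0) :
    S2 L s b ≤ S2 L s a + 1 / 100 := by
  have h1 := Th_map_ge hL hs (stretch a b r) (stretch_injective ha hb hab hr) hL'
    (norm_stretch_sq ha hb hab r)
  have h2 := le_of_mul_le_mul_right (h1.trans hmax) (Th_pos hL hs 0)
  rw [Real.exp_le_exp] at h2
  have ha0 : 0 ≤ S2 L s a := S2_nonneg a
  set x := S2 L s a
  set y := S2 L s b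
  have h3 : (1 - ((1 + r)⁻¹) ^ 2) * y ≤ ((1 + r) ^ 2 - 1) * x + 2 * η := by linarith
  have h4 : (1 - ((1 + r)⁻¹) ^ 2) * (1 + r) ^ 2 = (2 + r) * r := by
    have : (1 + r) ≠ 0 := by positivity
    field_simp
    ring
  have h5 : (2 + r) * r * y ≤ (((2 + r) * r) * x + 2 * η) * (1 + r) ^ 2 := by
    have h6 := mul_le_mul_of_nonneg_right h3 (sq_nonneg (1 + r))
    have h7 : (1 - ((1 + r)⁻¹) ^ 2) * y * (1 + r) ^ 2 = (2 + r) * r * y := by
      rw [← h4]
      ring
    rw [h7] at h6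
    calc (2 + r) * r * y ≤ _ := h6
      _ = _ := by ring
  have h6 : 2 * η ≤ (2 + r) * r * (1 / 1000) := by nlinarith
  have h7 : (2 + r) * r * y ≤ (2 + r) * r * ((x + 1 / 1000) * (1 + r) ^ 2) := by
    have h8 : ((2 + r) * r) * x + 2 * η ≤ (2 + r) * r * (x + 1 / 1000) := by nlinarith
    calc (2 + r) * r * y ≤ _ := h5
      _ ≤ (2 + r) * r * (x + 1 / 1000) * (1 + r) ^ 2 :=
        mul_le_mul_of_nonneg_right h8 (sq_nonneg _)
      _ = _ := by ring
  have h8 : y ≤ (x + 1 / 1000) * (1 + r) ^ 2 := le_of_mul_le_mul_left h7 (by positivity)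
  have h9 : (1 + r) ^ 2 ≤ 1 + 3 / 1000 := by nlinarith
  nlinarith

/-- the plane trick -/
theorem S2_all (hL : Lat L) (hs : 0 < s) {ω : ℝ} (hω : 0 ≤ ω)
    (h : ∀ a b : E, ‖a‖ = 1 → ‖b‖ = 1 → ⟪a, b⟫ = 0 → S2 L s b ≤ S2 L s a + ω)
    {a b : E} (ha : ‖a‖ = 1) (hb : ‖b‖ = 1) : S2 L s a ≤ S2 L s b + ω := by
  have haa : ⟪a, a⟫ = 1 := by rw [real_inner_self_eq_norm_sq, ha]; norm_num
  have hbb : ⟪b, b⟫ = 1 := by rw [real_inner_self_eq_norm_sq, hb]; norm_num
  set x := ⟪a, b⟫ with hx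
  have hba : ⟪b, a⟫ = x := by rw [real_inner_comm]
  set v := b - x • a with hv
  have hvv : ⟪v, v⟫ = 1 - x ^ 2 := by
    rw [hv, inner_sub_left, inner_sub_right, inner_sub_right, inner_smul_left, inner_smul_right,
      inner_smul_left, inner_smul_right, haa, hbb, hba, ← hx]
    simp
    ring
  by_cases hv0 : v = 0
  · have h1 : 1 - x ^ 2 = 0 := by rw [← hvv, hv0, inner_zero_left]
    have h2 : b = x • a := by rw [hv] at hv0; exact sub_eq_zero.1 hv0
    rw [h2, S2_smul]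
    have : x ^ 2 = 1 := by linarith
    rw [this, one_mul]
    linarith
  · set y := ‖v‖ with hy
    have hy0 : 0 < y := norm_pos_iff.2 hv0
    have hy2 : y ^ 2 = 1 - x ^ 2 := by rw [hy, ← real_inner_self_eq_norm_sq, hvv]
    set c := y⁻¹ • v with hc
    have hac : ⟪a, c⟫ = 0 := by
      rw [hc, inner_smul_right, hv, inner_sub_right, inner_smul_right, haa, ← hx]
      simp
    have hcn : ‖c‖ = 1 := by
      rw [hc, norm_smul, norm_inv, norm_norm, ← hy]
      exact inv_mul_cancel₀ hy0.ne'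
    have hcc : ⟪c, c⟫ = 1 := by rw [real_inner_self_eq_norm_sq, hcn]; norm_num
    have hbe : b = x • a + y • c := by
      rw [hc, smul_smul, mul_inv_cancel₀ hy0.ne', one_smul, hv]
      abel
    set d := (-y) • a + x • c with hd
    have hca : ⟪c, a⟫ = 0 := by rw [real_inner_comm, hac]
    have hdd : ⟪d, d⟫ = 1 := by
      rw [hd]
      simp only [inner_add_left, inner_add_right, inner_smul_left, inner_smul_right, haa, hcc,
        hac, hca, RCLike.conj_to_real]
      nlinarith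
    have hdn : ‖d‖ = 1 := by
      have : ‖d‖ ^ 2 = 1 := by rw [← real_inner_self_eq_norm_sq, hdd]
      nlinarith [norm_nonneg d]
    have hbd : ⟪b, d⟫ = 0 := by
      rw [hbe, hd]
      simp only [inner_add_left, inner_add_right, inner_smul_left, inner_smul_right, haa, hcc,
        hac, hca, RCLike.conj_to_real]
      ring
    have hsum : S2 L s b + S2 L s d = S2 L s a + S2 L s c := by
      refine S2_add hL hs fun z => ?_
      rw [hbe, hd]
      simp only [inner_add_right, inner_smul_right]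
      have : y ^ 2 = 1 - x ^ 2 := hy2
      linear_combination (⟪z, c⟫ ^ 2 + ⟪z, a⟫ ^ 2) * this
    have h1 := h b d hb hdn hbd
    have h2 := h c a hcn ha hca
    linarith

end moments

section caseA

/-- a sublattice of almost minimal covolume -/
theorem case_A {E : Type} [NormedAddCommGroup E] [InnerProductSpace ℝ E] [FiniteDimensional ℝ E]
    {L : AddSubgroup E} {t : ℝ} (ht : 0 < t) (hspan : Submodule.span ℝ (L : Set E) = ⊤)
    (hSp : Sp t L) {j : ℕ} {v : Fin j → E} (hv : ∀ i, v i ∈ L) (hli : LinearIndependent ℝ v)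
    {δ : ℝ} (hδ : 0 < δ) (hdet : (Matrix.gram ℝ v).det ≤ (1 + δ) ^ 2 * t ^ (2 * j))
    (U : Submodule ℝ E) (hU : U = Submodule.span ℝ (Set.range v))
    (ihU : ∀ (L' : AddSubgroup U) (t' : ℝ), 0 < t' → Submodule.span ℝ (L' : Set U) = ⊤ →
      Sp t' L' → Th L' (√(2 * Real.pi) / t') 0 ≤ Real.exp (8 * Module.finrank ℝ U))
    (ihQ : ∀ (L' : AddSubgroup Uᗮ) (t' : ℝ), 0 < t' → Submodule.span ℝ (L' : Set Uᗮ) = ⊤ →
      Sp t' L' → Th L' (√(2 * Real.pi) / t') 0 ≤ Real.exp (8 * Module.finrank ℝ Uᗮ)) :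
    Th L (√(2 * Real.pi) / t) 0 ≤ (1 + δ) ^ Module.finrank ℝ E *
      Real.exp (8 * Module.finrank ℝ E) := by
  have hL : Lat L := lat_of_sp ht hspan hSp
  have hspos : 0 < √(2 * Real.pi) / t := div_pos (Real.sqrt_pos.2 (by positivity)) ht
  set s := √(2 * Real.pi) / t with hs
  -- the sublattice
  set LU : AddSubgroup U := L.comap U.subtype.toAddMonoidHom with hLU
  have hLUm : ∀ u : U, u ∈ LU ↔ (u : E) ∈ L := fun u => Iff.rfl
  have hLUspan : Submodule.span ℝ (LU : Set U) = ⊤ := by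
    rw [eq_top_iff]
    have h1 : (⊤ : Submodule ℝ U) = Submodule.comap U.subtype
        (Submodule.span ℝ (Set.range v)) := by
      rw [← hU]
      simp
    have h2 : Submodule.span ℝ (Set.range v) ≤
        Submodule.map U.subtype (Submodule.span ℝ (LU : Set U)) := by
      rw [Submodule.span_le]
      rintro _ ⟨i, rfl⟩
      have hvU : v i ∈ U := by
        rw [hU]
        exact Submodule.subset_span ⟨i, rfl⟩
      exact ⟨⟨v i, hvU⟩, Submodule.subset_span (hv i), rfl⟩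
    intro u _
    have h3 : (u : E) ∈ Submodule.map U.subtype (Submodule.span ℝ (LU : Set U)) := by
      apply h2
      rw [← hU]
      exact u.2
    obtain ⟨u', hu', he⟩ := h3
    have : u' = u := Subtype.ext he
    rw [← this]
    exact hu'
  have hLUSp : Sp t LU := by
    intro l w hw hwli
    have h1 : LinearIndependent ℝ fun i => (w i : E) :=
      hwli.map' U.subtype (Submodule.ker_subtype U)
    exact hSp l (fun i => (w i : E)) hw h1
  have hLU1 : Lat LU := lat_of_sp ht hLUspan hLUSp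
  have hU1 : Th LU s 0 ≤ Real.exp (8 * Module.finrank ℝ U) := ihU LU t ht hLUspan hLUSp
  -- the quotient lattice
  let π : E →ₗ[ℝ] Uᗮ := (Uᗮ.orthogonalProjectionOnto : E →L[ℝ] Uᗮ).toLinearMap
  have hπ : ∀ y : E, (π y : E) = y - U.starProjection y := fun y =>
    Submodule.starProjection_orthogonal_val y
  set LQ : AddSubgroup Uᗮ := L.map π.toAddMonoidHom with hLQ
  have hLQm : ∀ q : Uᗮ, q ∈ LQ ↔ ∃ y ∈ L, (q : E) = y - U.starProjection y := by
    intro q
    constructor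
    · rintro ⟨y, hy, rfl⟩
      exact ⟨y, hy, hπ y⟩
    · rintro ⟨y, hy, he⟩
      refine ⟨y, hy, Subtype.ext ?_⟩
      rw [he]
      exact hπ y
  have hLQspan : Submodule.span ℝ (LQ : Set Uᗮ) = ⊤ := by
    have h1 : (LQ : Set Uᗮ) = π '' (L : Set E) := rfl
    rw [h1, Submodule.span_image, hspan, Submodule.map_top, LinearMap.range_eq_top]
    intro q
    exact ⟨q, Subtype.ext (by rw [hπ]; simp [(Submodule.starProjection_apply_eq_zero_iff U).2 q.2])⟩
  have h1δ : (1 : ℝ) ≤ 1 + δ := by linarith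
  have htδ : 0 < t / (1 + δ) := by positivity
  have hLQSp : Sp (t / (1 + δ)) LQ := by
    intro l w hw hwli
    have hw' : ∀ i, ∃ y ∈ L, (w i : E) = y - U.starProjection y := fun i => (hLQm _).1 (hw i)
    choose y hyL hy using hw'
    have hg := gram_append v y U hU
    have hgw : (Matrix.gram ℝ fun i => y i - U.starProjection (y i)) = Matrix.gram ℝ w := by
      ext i k
      rw [Matrix.gram_apply, Matrix.gram_apply, ← hy, ← hy]
      rfl
    rw [hgw] at hg
    have hgv : 0 < (Matrix.gram ℝ v).det := (Matrix.posDef_gram_of_linearIndependent hli).det_pos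
    have hgw0 : 0 < (Matrix.gram ℝ w).det :=
      (Matrix.posDef_gram_of_linearIndependent hwli).det_pos
    have hli' : LinearIndependent ℝ (Fin.append v y) := by
      apply Matrix.linearIndependent_of_det_gram_ne_zero
      rw [hg]
      exact (mul_pos hgv hgw0).ne'
    have hmem : ∀ i, Fin.append v y i ∈ L := by
      intro i
      refine Fin.addCases (fun i => ?_) (fun i => ?_) i
      · rw [Fin.append_left]
        exact hv i
      · rw [Fin.append_right]
        exact hyL i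
    have h2 := hSp _ _ hmem hli'
    rw [hg] at h2
    have h3 : t ^ (2 * l) ≤ (1 + δ) ^ 2 * (Matrix.gram ℝ w).det := by
      have h4 : t ^ (2 * j) * t ^ (2 * l) ≤ t ^ (2 * j) * ((1 + δ) ^ 2 * (Matrix.gram ℝ w).det) := by
        calc t ^ (2 * j) * t ^ (2 * l) = t ^ (2 * (j + l)) := by rw [← pow_add, mul_add]
          _ ≤ _ := h2
          _ ≤ (1 + δ) ^ 2 * t ^ (2 * j) * (Matrix.gram ℝ w).det :=
            mul_le_mul_of_nonneg_right hdet hgw0.le
          _ = _ := by ring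
      exact le_of_mul_le_mul_left h4 (by positivity)
    rcases Nat.eq_zero_or_pos l with hl | hl
    · subst hl
      simp
    · rw [div_pow, div_le_iff₀ (by positivity)]
      have h5 : (1 + δ) ^ 2 ≤ (1 + δ) ^ (2 * l) := pow_le_pow_right₀ h1δ (by omega)
      calc t ^ (2 * l) ≤ (1 + δ) ^ 2 * (Matrix.gram ℝ w).det := h3
        _ ≤ (1 + δ) ^ (2 * l) * (Matrix.gram ℝ w).det := mul_le_mul_of_nonneg_right h5 hgw0.le
        _ = _ := mul_comm _ _
  have hLQ1 : Lat LQ := lat_of_sp htδ hLQspan hLQSp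
  have hQ1 : Th LQ (√(2 * Real.pi) / (t / (1 + δ))) 0 ≤ Real.exp (8 * Module.finrank ℝ Uᗮ) :=
    ihQ LQ _ htδ hLQspan hLQSp
  have hs' : √(2 * Real.pi) / (t / (1 + δ)) = (1 + δ) * s := by
    rw [hs]
    field_simp
  rw [hs'] at hQ1
  have hQ2 : Th LQ s 0 ≤ (1 + δ) ^ Module.finrank ℝ Uᗮ * Real.exp (8 * Module.finrank ℝ Uᗮ) := by
    let _ : MeasurableSpace Uᗮ := borel _
    have _ : BorelSpace Uᗮ := ⟨rfl⟩
    have h1 := F_mono hLQ1 (s := s) (s' := (1 + δ) * s) hspos (by nlinarith)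
    rw [mul_pow, mul_comm ((1 + δ) ^ _) (s ^ _), mul_assoc] at h1
    have h2 := le_of_mul_le_mul_left h1 (by positivity)
    exact h2.trans (mul_le_mul_of_nonneg_left hQ1 (by positivity))
  have hmain := mass_quot hL hspos U hLUm hLQm hLU1 hLQ1
  have hrank : Module.finrank ℝ U + Module.finrank ℝ Uᗮ = Module.finrank ℝ E :=
    Submodule.finrank_add_finrank_orthogonal U
  have hTQ : 0 ≤ Th LQ s 0 := (Th_pos hLQ1 hspos 0).le
  calc Th L s 0 ≤ Th LU s 0 * Th LQ s 0 := hmain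
    _ ≤ Real.exp (8 * Module.finrank ℝ U) *
        ((1 + δ) ^ Module.finrank ℝ Uᗮ * Real.exp (8 * Module.finrank ℝ Uᗮ)) :=
      mul_le_mul hU1 hQ2 hTQ (Real.exp_pos _).le
    _ = (1 + δ) ^ Module.finrank ℝ Uᗮ * Real.exp (8 * Module.finrank ℝ E) := by
      rw [← hrank]
      push_cast
      rw [mul_add, Real.exp_add]
      ring
    _ ≤ (1 + δ) ^ Module.finrank ℝ E * Real.exp (8 * Module.finrank ℝ E) := by
      apply mul_le_mul_of_nonneg_right _ (Real.exp_pos _).le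
      exact pow_le_pow_right₀ h1δ (by omega)

end caseA

section caseB

theorem span_map_top {E : Type*} [NormedAddCommGroup E] [InnerProductSpace ℝ E]
    [FiniteDimensional ℝ E] {L : AddSubgroup E} (hspan : Submodule.span ℝ (L : Set E) = ⊤)
    (T : E →ₗ[ℝ] E) (hT : Function.Injective T) :
    Submodule.span ℝ ((L.map T.toAddMonoidHom : AddSubgroup E) : Set E) = ⊤ := by
  have h1 : ((L.map T.toAddMonoidHom : AddSubgroup E) : Set E) = T '' (L : Set E) := rfl
  rw [h1, Submodule.span_image, hspan, Submodule.map_top, LinearMap.range_eq_top]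
  exact LinearMap.surjective_of_injective hT

theorem Sp_map {E : Type*} [NormedAddCommGroup E] [InnerProductSpace ℝ E]
    [FiniteDimensional ℝ E] {L : AddSubgroup E} {t : ℝ} (ht : 0 < t) (hSp : Sp t L) {δ r : ℝ}
    (hr : 0 < r) (_hδ : 0 < δ) (hrδ : (1 + r) ^ Module.finrank ℝ E ≤ 1 + δ)
    (hB : ∀ (j : ℕ) (v : Fin j → E), 0 < j → j < Module.finrank ℝ E → (∀ i, v i ∈ L) →
      LinearIndependent ℝ v → (1 + δ) ^ 2 * t ^ (2 * j) < (Matrix.gram ℝ v).det)
    {a b : E} (ha : ‖a‖ = 1) (hb : ‖b‖ = 1) (hab : ⟪a, b⟫ = 0) :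
    Sp t (L.map (stretch a b r).toAddMonoidHom) := by
  intro j v' hv' hli'
  have h1 : ∀ i, ∃ y ∈ L, stretch a b r y = v' i := fun i => hv' i
  choose v hv hvv using h1
  have hve : v' = fun i => stretch a b r (v i) := funext fun i => (hvv i).symm
  have hli : LinearIndependent ℝ v := by
    rw [hve] at hli'
    exact LinearIndependent.of_comp (stretch a b r) hli'
  have hj : j ≤ Module.finrank ℝ E := by
    have := hli.fintype_card_le_finrank
    simpa using this
  rcases Nat.eq_zero_or_pos j with hj0 | hj0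
  · subst hj0
    simp
  rcases lt_or_eq_of_le hj with hj1 | hj1
  · have h2 := hB j v hj0 hj1 hv hli
    have h3 := gram_det_expand v (stretch a b r) (c := (1 + r)⁻¹) (by positivity)
      (le_norm_stretch ha hb hab hr)
    rw [hve]
    refine le_trans ?_ h3
    have h4 : (1 + r) ^ (2 * j) ≤ (1 + δ) ^ 2 := by
      calc (1 + r) ^ (2 * j) = ((1 + r) ^ j) ^ 2 := by rw [← pow_mul, mul_comm]
        _ ≤ ((1 + r) ^ Module.finrank ℝ E) ^ 2 :=
          pow_le_pow_left₀ (by positivity) (pow_le_pow_right₀ (by linarith) hj) 2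
        _ ≤ (1 + δ) ^ 2 := pow_le_pow_left₀ (by positivity) hrδ 2
    rw [inv_pow, ← div_eq_inv_mul, le_div_iff₀ (by positivity)]
    calc t ^ (2 * j) * (1 + r) ^ (2 * j) ≤ t ^ (2 * j) * (1 + δ) ^ 2 :=
          mul_le_mul_of_nonneg_left h4 (by positivity)
      _ ≤ _ := by rw [mul_comm]; exact h2.le
  · subst hj1
    rw [hve, gram_det_map, det_stretch ha hb hr, one_pow, one_mul]
    exact hSp _ v hv hli

end caseB

end R8

/-- **Reverse Minkowski theorem**, exponential form. -/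
theorem rev_mink_aux (n : ℕ) : ∀ (E : Type) [NormedAddCommGroup E] [InnerProductSpace ℝ E]
    [FiniteDimensional ℝ E], Module.finrank ℝ E = n → ∀ (L : AddSubgroup E) (t : ℝ), 0 < t →
    Submodule.span ℝ (L : Set E) = ⊤ → Sp t L →
    Th L (√(2 * Real.pi) / t) 0 ≤ Real.exp (8 * Module.finrank ℝ E) := by
  induction n using Nat.strong_induction_on with
  | _ n ih =>
  intro E _ _ _ hn L₀ t₀ ht₀ hspan₀ hSp₀
  by_contra hcon
  push Not at hcon
  let _ : MeasurableSpace E := borel E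
  have _ : BorelSpace E := ⟨rfl⟩
  set Q : Set ℝ := {x | ∃ (L : AddSubgroup E) (t : ℝ), 0 < t ∧
    Submodule.span ℝ (L : Set E) = ⊤ ∧ Sp t L ∧ x = Th L (√(2 * Real.pi) / t) 0} with hQ
  obtain ⟨C, hC⟩ := mass_bdd (E := E)
  have hbdd : BddAbove Q := by
    refine ⟨C, ?_⟩
    rintro x ⟨L, t, ht, _, hSp, rfl⟩
    exact hC L t ht hSp
  set μ := sSup Q with hμ
  have hμ1 : Real.exp (8 * Module.finrank ℝ E) < μ :=
    hcon.trans_le (le_csSup hbdd ⟨L₀, t₀, ht₀, hspan₀, hSp₀, rfl⟩)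
  have hμ0 : 0 < μ := (Real.exp_pos _).trans hμ1
  have hle : ∀ (L : AddSubgroup E) (t : ℝ), 0 < t → Submodule.span ℝ (L : Set E) = ⊤ → Sp t L →
      Th L (√(2 * Real.pi) / t) 0 ≤ μ := fun L t ht hspan hSp =>
    le_csSup hbdd ⟨L, t, ht, hspan, hSp, rfl⟩
  set k := Module.finrank ℝ E with hk
  -- small parameters
  obtain ⟨δ, hδ0, hδ⟩ : ∃ δ : ℝ, 0 < δ ∧ (1 + δ) ^ k * Real.exp (8 * k) < μ := by
    have h1 : Filter.Tendsto (fun δ : ℝ => (1 + δ) ^ k * Real.exp (8 * k)) (nhdsWithin 0 (Set.Ioi 0))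
        (nhds ((1 + 0) ^ k * Real.exp (8 * k))) := by
      apply Filter.Tendsto.mono_left _ nhdsWithin_le_nhds
      exact (Continuous.tendsto (by fun_prop) 0)
    rw [add_zero, one_pow, one_mul] at h1
    obtain ⟨δ, h2, h3⟩ := ((h1.eventually (gt_mem_nhds hμ1)).and self_mem_nhdsWithin).exists
    exact ⟨δ, h3, h2⟩
  obtain ⟨r, hr0, hr1, hr⟩ : ∃ r : ℝ, 0 < r ∧ r ≤ 1 / 1000 ∧ (1 + r) ^ k ≤ 1 + δ := by
    have h1 : Filter.Tendsto (fun r : ℝ => (1 + r) ^ k) (nhdsWithin 0 (Set.Ioi 0))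
        (nhds ((1 + 0) ^ k)) := by
      apply Filter.Tendsto.mono_left _ nhdsWithin_le_nhds
      exact (Continuous.tendsto (by fun_prop) 0)
    rw [add_zero, one_pow] at h1
    have h2 : (1 : ℝ) < 1 + δ := by linarith
    have h4 : ∀ᶠ r : ℝ in nhdsWithin 0 (Set.Ioi 0), r < 1 / 1000 :=
      nhdsWithin_le_nhds (gt_mem_nhds (by norm_num))
    obtain ⟨r, h5, h6, h7⟩ := ((h1.eventually (gt_mem_nhds h2)).and
      (h4.and self_mem_nhdsWithin)).exists
    exact ⟨r, h7, h6.le, h5.le⟩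
  obtain ⟨η, hη0, hη1, hη2, hη3⟩ : ∃ η : ℝ, 0 < η ∧ η ≤ r / 1000 ∧
      (1 + δ) ^ k * Real.exp (8 * k) < Real.exp (-η) * μ ∧ Real.exp (8 * k) < Real.exp (-η) * μ := by
    have h1 : Filter.Tendsto (fun η : ℝ => Real.exp (-η) * μ) (nhdsWithin 0 (Set.Ioi 0))
        (nhds (Real.exp (-0) * μ)) := by
      apply Filter.Tendsto.mono_left _ nhdsWithin_le_nhds
      exact (Continuous.tendsto (by fun_prop) 0)
    rw [neg_zero, Real.exp_zero, one_mul] at h1
    have h4 : ∀ᶠ η : ℝ in nhdsWithin 0 (Set.Ioi 0), η < r / 1000 :=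
      nhdsWithin_le_nhds (gt_mem_nhds (by positivity))
    obtain ⟨η, h5, h6, h7, h8⟩ := ((h1.eventually (lt_mem_nhds hδ)).and
      ((h1.eventually (lt_mem_nhds hμ1)).and (h4.and self_mem_nhdsWithin))).exists
    exact ⟨η, h8, h7.le, h5, h6⟩
  -- a near maximiser
  have hημ : Real.exp (-η) * μ < μ := by
    have : Real.exp (-η) < 1 := by
      rw [Real.exp_lt_one_iff]
      linarith
    nlinarith
  have hne : Q.Nonempty := ⟨_, L₀, t₀, ht₀, hspan₀, hSp₀, rfl⟩
  obtain ⟨x, ⟨L, t, ht, hspan, hSp, rfl⟩, hx⟩ := exists_lt_of_lt_csSup hne hημ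
  have hL : Lat L := lat_of_sp ht hspan hSp
  have hspos : 0 < √(2 * Real.pi) / t := div_pos (Real.sqrt_pos.2 (by positivity)) ht
  by_cases hA : ∃ (j : ℕ) (v : Fin j → E), 0 < j ∧ j < k ∧ (∀ i, v i ∈ L) ∧
      LinearIndependent ℝ v ∧ (Matrix.gram ℝ v).det ≤ (1 + δ) ^ 2 * t ^ (2 * j)
  · obtain ⟨j, v, hj0, hjk, hv, hli, hdet⟩ := hA
    set U := Submodule.span ℝ (Set.range v) with hU
    have hUr : Module.finrank ℝ U = j := by
      rw [hU, finrank_span_eq_card hli]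
      simp
    have hQr : Module.finrank ℝ U + Module.finrank ℝ Uᗮ = Module.finrank ℝ E :=
      Submodule.finrank_add_finrank_orthogonal U
    have h1 := R8.case_A ht hspan hSp hv hli hδ0 hdet U hU
      (ih (Module.finrank ℝ U) (by omega) U rfl) (ih (Module.finrank ℝ Uᗮ) (by omega) Uᗮ rfl)
    linarith
  · push Not at hA
    have hB : ∀ (j : ℕ) (v : Fin j → E), 0 < j → j < k → (∀ i, v i ∈ L) →
        LinearIndependent ℝ v → (1 + δ) ^ 2 * t ^ (2 * j) < (Matrix.gram ℝ v).det :=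
      fun j v h1 h2 h3 h4 => hA j v h1 h2 h3 h4
    have hone : ∀ a : E, ‖a‖ = 1 → R8.S2 L (√(2 * Real.pi) / t) a ≤ 1 := by
      intro a ha
      have h1 := (sig_le_P hL hspos a).trans (P_le hL hspos a)
      rw [ha, one_pow] at h1
      exact h1
    have hnear : ∀ a b : E, ‖a‖ = 1 → ‖b‖ = 1 → ⟪a, b⟫ = 0 →
        R8.S2 L (√(2 * Real.pi) / t) b ≤ R8.S2 L (√(2 * Real.pi) / t) a + 1 / 100 := by
      intro a b ha hb hab
      have hinj := R8.stretch_injective ha hb hab hr0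
      have hSp' := R8.Sp_map ht hSp hr0 hδ0 hr hB ha hb hab
      have hspan' := R8.span_map_top hspan _ hinj
      have hL' := lat_of_sp ht hspan' hSp'
      refine R8.S2_near hL hspos ha hb hab hr0 hr1 hη1 hη0.le (hone a ha) hL' ?_
      have h1 := hle _ t ht hspan' hSp'
      refine h1.trans ?_
      have h2 : Real.exp η * (Real.exp (-η) * μ) = μ := by
        rw [← mul_assoc, ← Real.exp_add]
        simp
      rw [← h2]
      exact mul_le_mul_of_nonneg_left hx.le (Real.exp_pos _).le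
    have hall : ∀ a b : E, ‖a‖ = 1 → ‖b‖ = 1 →
        R8.S2 L (√(2 * Real.pi) / t) a ≤ R8.S2 L (√(2 * Real.pi) / t) b + 1 / 100 :=
      fun a b ha hb => R8.S2_all hL hspos (by norm_num) hnear ha hb
    have hscale : ∀ a : E, a ≠ 0 → R8.S2 L (√(2 * Real.pi) / t) a =
        ‖a‖ ^ 2 * R8.S2 L (√(2 * Real.pi) / t) (‖a‖⁻¹ • a) := by
      intro a ha
      have h0 : ‖a‖ ≠ 0 := norm_ne_zero_iff.2 ha
      rw [← R8.S2_smul, smul_smul, mul_inv_cancel₀ h0, one_smul]
    have hunit : ∀ a : E, a ≠ 0 → ‖‖a‖⁻¹ • a‖ = 1 := by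
      intro a ha
      have h0 : ‖a‖ ≠ 0 := norm_ne_zero_iff.2 ha
      rw [norm_smul, norm_inv, norm_norm, inv_mul_cancel₀ h0]
    have hzero : R8.S2 L (√(2 * Real.pi) / t) (0 : E) = 0 := by
      have := R8.S2_smul (L := L) (s := √(2 * Real.pi) / t) 0 (0 : E)
      simpa using this
    by_cases hsm : ∀ a : E, R8.S2 L (√(2 * Real.pi) / t) a ≤ 51 / 100 * ‖a‖ ^ 2
    · have h1 := small_side hL hspos hsm
      linarith
    · push Not at hsm
      obtain ⟨a₀, ha₀⟩ := hsm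
      have ha0 : a₀ ≠ 0 := by
        rintro rfl
        rw [hzero, norm_zero] at ha₀
        norm_num at ha₀
      have hn2 : 0 < ‖a₀‖ ^ 2 := by positivity
      have h1 : 51 / 100 < R8.S2 L (√(2 * Real.pi) / t) (‖a₀‖⁻¹ • a₀) := by
        rw [hscale a₀ ha0, mul_comm] at ha₀
        exact lt_of_mul_lt_mul_left ha₀ hn2.le
      have h2 : ∀ a : E, 49 / 100 * ‖a‖ ^ 2 ≤ R8.S2 L (√(2 * Real.pi) / t) a := by
        intro a
        by_cases ha : a = 0
        · rw [ha, hzero, norm_zero]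
          norm_num
        · rw [hscale a ha, mul_comm]
          apply mul_le_mul_of_nonneg_left _ (sq_nonneg _)
          have := hall _ _ (hunit a₀ ha0) (hunit a ha)
          linarith
      have h3 := large_side hL hspos h2 (fun δ' hδ' =>
        vol_bound ht hspan hSp δ' hδ' _ hspos)
      linarith

/-- **Reverse Minkowski theorem**, exponential form. -/
theorem rev_mink (E : Type) [NormedAddCommGroup E] [InnerProductSpace ℝ E]
    [FiniteDimensional ℝ E] (L : AddSubgroup E) (t : ℝ) (ht : 0 < t)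
    (hspan : Submodule.span ℝ (L : Set E) = ⊤) (hSp : Sp t L) :
    Th L (√(2 * Real.pi) / t) 0 ≤ Real.exp (8 * Module.finrank ℝ E) :=
  rev_mink_aux _ E rfl L t ht hspan hSp

end Pool.Agent.BCD
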