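import Pool.Agent.Work.MP_bc8e1e_an.D.H3cI
import Pool.Agent.Work.MP_bc8e1e_an.D.H3cQ
import Pool.Agent.Work.MP_bc8e1e_an.D.R8

/-!
# Mass of a lattice against its canonical sublattice
-/

set_option autoImplicit false

open MeasureTheory Polynomial
open scoped RealInnerProductSpace

namespace Pool.Agent.BCD

variable {lam W T : ℝ}

theorem rho_quot (hT : 1 ≤ T) {D U : Submodule ℚ ℚ[X]} [Module.Finite ℚ U] (hDU : D ≤ U)
    (hmax : ∀ V : Submodule ℚ ℚ[X], D ≤ V → V ≤ U → gT lam W T V ≤ gT lam W T D) :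
    rhoU lam W T U ≤ rhoU lam W T D *
      Real.exp (8 * ((Module.finrank ℚ U : ℝ) - Module.finrank ℚ D)) :=
  H3c.rho_quot_of (fun E _ _ _ L t ht hspan hSp => rev_mink E L t ht hspan hSp) hT hDU hmax

end Pool.Agent.BCD
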