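import Pool.Agent.Work.MP_bc8e1e_an.D.Mah

/-!
# Gram-Schmidt lengths: mass and covolume of an ideal piece
-/

set_option autoImplicit false

open MeasureTheory Polynomial
open scoped RealInnerProductSpace

namespace Pool.Agent.BCD

namespace H3c

/-! ### One-dimensional theta sums -/

lemma summ_sq {c : ℝ} (hc : 0 < c) : Summable fun n : ℤ => Real.exp (-(c * (n : ℝ) ^ 2)) := by
  have h := summable_pow_mul_jacobiTheta₂_term_bound 0 (div_pos hc Real.pi_pos) 0
  refine h.congr fun n => ?_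
  rw [pow_zero, one_mul]
  congr 1
  have := Real.pi_pos.ne'
  field_simp
  ring

lemma summ_sq_add {c : ℝ} (hc : 0 < c) (x : ℝ) :
    Summable fun n : ℤ => Real.exp (-(c * ((n : ℝ) + x) ^ 2)) := by
  refine Summable.of_nonneg_of_le (fun n => (Real.exp_pos _).le) (fun n => ?_)
    ((summ_sq (half_pos hc)).mul_left (Real.exp (c * x ^ 2)))
  rw [← Real.exp_add]
  apply Real.exp_le_exp.2
  nlinarith [mul_nonneg hc.le (sq_nonneg ((n : ℝ) + 2 * x))]

lemma th_shift {c : ℝ} (hc : 0 < c) (x : ℝ) :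
    ∑' n : ℤ, Real.exp (-(c * ((n : ℝ) + x) ^ 2)) ≤ ∑' n : ℤ, Real.exp (-(c * (n : ℝ) ^ 2)) := by
  have hpi := Real.pi_pos
  set a : ℝ := Real.pi / c with ha
  have ha0 : 0 < a := by positivity
  have hca : ∀ y : ℝ, -(c * y ^ 2) = -Real.pi / a * y ^ 2 := by
    intro y
    rw [ha]
    field_simp
  have h1 := Complex.tsum_exp_neg_quadratic (a := (a : ℂ)) (by simpa using ha0)
    (-(Complex.I * x))
  have h2 := Real.tsum_exp_neg_mul_int_sq ha0
  have h3 : (1 : ℝ) / a ^ (1 / 2 : ℝ) * ∑' n : ℤ, Real.exp (-(c * ((n : ℝ) + x) ^ 2)) ≤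
      (1 : ℝ) / a ^ (1 / 2 : ℝ) * ∑' n : ℤ, Real.exp (-(c * (n : ℝ) ^ 2)) := by
    simp_rw [hca]
    rw [← h2]
    have h4 : ((1 : ℝ) / a ^ (1 / 2 : ℝ) *
        ∑' n : ℤ, Real.exp (-Real.pi / a * ((n : ℝ) + x) ^ 2) : ℝ) =
        ‖∑' n : ℤ, Complex.exp (-Real.pi * (a : ℂ) * n ^ 2 +
          2 * Real.pi * (-(Complex.I * x)) * n)‖ := by
      rw [h1]
      have h5 : (1 / (a : ℂ) ^ (1 / 2 : ℂ) *
          ∑' n : ℤ, Complex.exp (-Real.pi / a * (n + Complex.I * (-(Complex.I * x))) ^ 2)) =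
          (((1 : ℝ) / a ^ (1 / 2 : ℝ) *
            ∑' n : ℤ, Real.exp (-Real.pi / a * ((n : ℝ) + x) ^ 2) : ℝ) : ℂ) := by
        push_cast
        rw [Complex.ofReal_cpow ha0.le]
        push_cast
        congr 1
        congr 1
        ext n
        congr 2
        have : Complex.I * (-(Complex.I * (x : ℂ))) = x := by
          rw [mul_neg, ← mul_assoc, Complex.I_mul_I]; ring
        rw [this]
      rw [h5, Complex.norm_real, Real.norm_of_nonneg]
      positivity
    rw [h4]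
    have h6 : ∀ n : ℤ, ‖Complex.exp (-Real.pi * (a : ℂ) * n ^ 2 +
          2 * Real.pi * (-(Complex.I * x)) * n)‖ = Real.exp (-Real.pi * a * (n : ℝ) ^ 2) := by
      intro n
      rw [Complex.norm_exp]
      congr 1
      have : (-Real.pi * (a : ℂ) * (n : ℂ) ^ 2 + 2 * Real.pi * (-(Complex.I * x)) * n) =
          ((-Real.pi * a * (n : ℝ) ^ 2 : ℝ) : ℂ) + ((-(2 * Real.pi * x * n) : ℝ) : ℂ) *
            Complex.I := by
        push_cast; ring
      rw [this, Complex.add_re, Complex.ofReal_re, Complex.re_ofReal_mul, Complex.I_re,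
        mul_zero, add_zero]
    have h7 : Summable fun n : ℤ => ‖Complex.exp (-Real.pi * (a : ℂ) * n ^ 2 +
          2 * Real.pi * (-(Complex.I * x)) * n)‖ := by
      simp_rw [h6]
      refine (summ_sq (mul_pos hpi ha0)).congr fun n => ?_
      congr 1; ring
    refine (norm_tsum_le_tsum_norm h7).trans ?_
    simp_rw [h6]
    exact le_rfl
  exact le_of_mul_le_mul_left h3 (by positivity)

/-- theta sum in `ℝ≥0∞`. -/
noncomputable def th (a d : ℝ) : ENNReal :=
  ∑' j : ℤ, ENNReal.ofReal (Real.exp (-(a * (d * (j : ℝ)) ^ 2)))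

lemma th_eq {a d : ℝ} (ha : 0 < a) (hd : 0 < d) :
    th a d = ENNReal.ofReal (∑' j : ℤ, Real.exp (-(a * (d * (j : ℝ)) ^ 2))) := by
  unfold th
  rw [ENNReal.ofReal_tsum_of_nonneg]
  · intro n; positivity
  · refine (summ_sq (mul_pos ha (pow_pos hd 2))).congr fun n => ?_
    congr 1; ring

lemma th_anti {a d d' : ℝ} (ha : 0 < a) (hd : 0 < d) (hdd : d ≤ d') : th a d' ≤ th a d := by
  unfold th
  refine ENNReal.tsum_le_tsum fun j => ENNReal.ofReal_le_ofReal (Real.exp_le_exp.2 ?_)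
  have h1 : (d * (j : ℝ)) ^ 2 ≤ (d' * (j : ℝ)) ^ 2 := by
    rw [mul_pow, mul_pow]
    gcongr
  nlinarith

lemma th_shift' {a d : ℝ} (ha : 0 < a) (hd : 0 < d) (x : ℝ) :
    ∑' j : ℤ, ENNReal.ofReal (Real.exp (-(a * (d * ((j : ℝ) + x)) ^ 2))) ≤ th a d := by
  rw [th_eq ha hd, ← ENNReal.ofReal_tsum_of_nonneg]
  · apply ENNReal.ofReal_le_ofReal
    have h := th_shift (mul_pos ha (pow_pos hd 2)) x
    have e1 : ∀ y : ℝ, a * d ^ 2 * y ^ 2 = a * (d * y) ^ 2 := fun y => by ring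
    simp_rw [e1] at h
    exact h
  · intro n; positivity
  · refine (summ_sq_add (mul_pos ha (pow_pos hd 2)) x).congr fun n => ?_
    congr 1; ring

/-! ### Reduction of a family of vectors -/

section GS

variable {E : Type*} [NormedAddCommGroup E] [InnerProductSpace ℝ E]

/-- Monic combinations have norm at least `d`. -/
def Mon {n : ℕ} (d : ℝ) (b : Fin n → E) : Prop :=
  ∀ (c : Fin n → ℝ) (i : Fin n), c i = 1 → (∀ j, i < j → c j = 0) → d ≤ ‖∑ j, c j • b j‖

/-- the coefficient of the projection to the first vector. -/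
noncomputable def tc {n : ℕ} (b : Fin (n + 1) → E) (i : Fin n) : ℝ :=
  ⟪b i.succ, b 0⟫ / ‖b 0‖ ^ 2

/-- The vectors reduced modulo the first one. -/
noncomputable def red {n : ℕ} (b : Fin (n + 1) → E) (i : Fin n) : E :=
  b i.succ - tc b i • b 0

lemma red_inner {n : ℕ} (b : Fin (n + 1) → E) (h0 : b 0 ≠ 0) (i : Fin n) :
    ⟪red b i, b 0⟫ = 0 := by
  unfold red tc
  rw [inner_sub_left, inner_smul_left, real_inner_self_eq_norm_sq]
  have : ‖b 0‖ ^ 2 ≠ 0 := by positivity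
  simp only [conj_trivial]
  field_simp
  ring

lemma sum_red {n : ℕ} (b : Fin (n + 1) → E) (c : Fin n → ℝ) :
    ∑ j, c j • red b j = (∑ j, c j • b j.succ) - (∑ j, c j * tc b j) • b 0 := by
  unfold red
  simp only [smul_sub, Finset.sum_sub_distrib, Finset.sum_smul, smul_smul]

lemma Mon.head {n : ℕ} {d : ℝ} {b : Fin (n + 1) → E} (hb : Mon d b) : d ≤ ‖b 0‖ := by
  have h := hb (fun j => if j = 0 then 1 else 0) 0 (by simp) (fun j hj => by
    simp only [ite_eq_right_iff, one_ne_zero, imp_false]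
    exact hj.ne')
  simpa using h

lemma Mon.red {n : ℕ} {d : ℝ} {b : Fin (n + 1) → E} (hb : Mon d b) : Mon d (red b) := by
  intro c i hi hj
  have h := hb (Fin.cons (-(∑ j, c j * tc b j)) c) i.succ (by simpa using hi) (by
    intro j hij
    rcases Fin.eq_zero_or_eq_succ j with rfl | ⟨k, rfl⟩
    · exact absurd hij (by simp)
    · simpa using hj k (by simpa using hij))
  rw [Fin.sum_univ_succ] at h
  simp only [Fin.cons_zero, Fin.cons_succ] at h
  rw [sum_red]
  convert h using 2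
  rw [neg_smul]
  abel

lemma norm_split {n : ℕ} (b : Fin (n + 1) → E) (h0 : b 0 ≠ 0) (r : ℝ) (c : Fin n → ℝ) :
    ‖r • b 0 + ∑ j, c j • b j.succ‖ ^ 2 =
      (‖b 0‖ * (r + ∑ j, c j * tc b j)) ^ 2 + ‖∑ j, c j • red b j‖ ^ 2 := by
  have h1 : r • b 0 + ∑ j, c j • b j.succ =
      (r + ∑ j, c j * tc b j) • b 0 + ∑ j, c j • red b j := by
    rw [sum_red, add_smul]
    abel
  have h2 : ⟪(r + ∑ j, c j * tc b j) • b 0, ∑ j, c j • red b j⟫ = 0 := by
    have h3 : ∑ j, ⟪b 0, c j • red b j⟫ = 0 := by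
      refine Finset.sum_eq_zero fun j _ => ?_
      rw [inner_smul_right, real_inner_comm, red_inner b h0, mul_zero]
    rw [inner_smul_left, inner_sum, h3, mul_zero]
  rw [h1, sq, norm_add_mul_self_real, h2, norm_smul, mul_zero, add_zero, ← sq, ← sq, mul_pow,
    Real.norm_eq_abs, sq_abs]
  ring

/-- Mass of the lattice generated by `b`. -/
theorem mass_le {a d : ℝ} (ha : 0 < a) (hd : 0 < d) : ∀ {n : ℕ} (b : Fin n → E), Mon d b →
    ∑' c : Fin n → ℤ, ENNReal.ofReal (Real.exp (-(a * ‖∑ j, (c j : ℝ) • b j‖ ^ 2))) ≤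
      th a d ^ n
  | 0, b, _ => by
    rw [tsum_fintype]
    simp
  | n + 1, b, hb => by
    have h0 : b 0 ≠ 0 := by
      intro h
      have := hb.head
      rw [h, norm_zero] at this
      linarith
    rw [← (Fin.consEquiv (fun _ : Fin (n + 1) => ℤ)).tsum_eq, ENNReal.tsum_prod', ENNReal.tsum_comm]
    have h1 : ∀ (c : Fin n → ℤ) (r : ℤ),
        ENNReal.ofReal (Real.exp (-(a * ‖∑ j, ((Fin.consEquiv (fun _ : Fin (n + 1) => ℤ)
          (r, c) j : ℤ) : ℝ) • b j‖ ^ 2))) =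
        ENNReal.ofReal (Real.exp (-(a * (‖b 0‖ * ((r : ℝ) + ∑ j, (c j : ℝ) * tc b j)) ^ 2))) *
        ENNReal.ofReal (Real.exp (-(a * ‖∑ j, (c j : ℝ) • red b j‖ ^ 2))) := by
      intro c r
      rw [← ENNReal.ofReal_mul (Real.exp_pos _).le, ← Real.exp_add]
      congr 2
      rw [Fin.sum_univ_succ]
      simp only [Fin.consEquiv, Equiv.coe_fn_mk, Fin.cons_zero, Fin.cons_succ]
      rw [norm_split b h0 (r : ℝ) (fun j => (c j : ℝ))]
      ring
    simp_rw [h1, ENNReal.tsum_mul_right]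
    calc ∑' c : Fin n → ℤ, (∑' r : ℤ, ENNReal.ofReal (Real.exp
            (-(a * (‖b 0‖ * ((r : ℝ) + ∑ j, (c j : ℝ) * tc b j)) ^ 2)))) *
          ENNReal.ofReal (Real.exp (-(a * ‖∑ j, (c j : ℝ) • red b j‖ ^ 2)))
        ≤ ∑' c : Fin n → ℤ, th a d *
          ENNReal.ofReal (Real.exp (-(a * ‖∑ j, (c j : ℝ) • red b j‖ ^ 2))) := by
          refine ENNReal.tsum_le_tsum fun c => mul_le_mul_left ?_ _
          exact (th_shift' ha (hd.trans_le hb.head) _).trans (th_anti ha hd hb.head)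
      _ = th a d * ∑' c : Fin n → ℤ,
          ENNReal.ofReal (Real.exp (-(a * ‖∑ j, (c j : ℝ) • red b j‖ ^ 2))) := by
          rw [ENNReal.tsum_mul_left]
      _ ≤ th a d * th a d ^ n := mul_le_mul_right (mass_le ha hd (red b) hb.red) _
      _ = th a d ^ (n + 1) := by rw [pow_succ, mul_comm]

lemma det_gram_succ {n : ℕ} (b : Fin (n + 1) → E) (h0 : b 0 ≠ 0) :
    (Matrix.gram ℝ b).det = ‖b 0‖ ^ 2 * (Matrix.gram ℝ (red b)).det := by
  set A : Matrix (Fin (n + 1)) (Fin (n + 1)) ℝ := fun i j =>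
    ⟪(Fin.cons (b 0) (red b) : Fin (n + 1) → E) i, b j⟫ with hA
  have h1 : A.det = (Matrix.gram ℝ b).det := by
    refine Matrix.det_eq_of_forall_row_eq_smul_add_const (Fin.cons 0 fun i => -tc b i) 0
      (by simp) ?_
    intro i j
    rw [hA]
    rcases Fin.eq_zero_or_eq_succ i with rfl | ⟨k, rfl⟩
    · simp [Matrix.gram_apply]
    · simp only [Fin.cons_succ, Matrix.gram_apply, red, inner_sub_left, inner_smul_left,
        conj_trivial]
      ring
  rw [← h1, Matrix.det_succ_column_zero, Finset.sum_eq_single 0]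
  · have h2 : A.submatrix (Fin.succAbove 0) Fin.succ = Matrix.gram ℝ (red b) := by
      ext i j
      change ⟪(Fin.cons (b 0) (red b) : Fin (n + 1) → E) i.succ, b j.succ⟫ = ⟪red b i, red b j⟫
      rw [Fin.cons_succ]
      have h3 : b j.succ = red b j + tc b j • b 0 := by rw [red]; abel
      rw [h3, inner_add_right, inner_smul_right, red_inner b h0, mul_zero, add_zero]
    rw [h2]
    simp [hA]
  · intro i _ hi
    obtain ⟨k, rfl⟩ := Fin.exists_succ_eq.2 hi
    simp [hA, red_inner b h0]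
  · simp

theorem det_ge {d : ℝ} (hd : 0 < d) : ∀ {n : ℕ} (b : Fin n → E), Mon d b →
    d ^ (2 * n) ≤ (Matrix.gram ℝ b).det
  | 0, b, _ => by simp
  | n + 1, b, hb => by
    have h0 : b 0 ≠ 0 := by
      intro h
      have := hb.head
      rw [h, norm_zero] at this
      linarith
    rw [det_gram_succ b h0, mul_add, mul_one, pow_add, mul_comm]
    have h1 := det_ge hd (red b) hb.red
    have h2 : d ^ 2 ≤ ‖b 0‖ ^ 2 := pow_le_pow_left₀ hd.le hb.head 2
    exact mul_le_mul h2 h1 (by positivity) (by positivity)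

end GS

end H3c

end Pool.Agent.BCD
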