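import Pool.Agent.Work.MP_bc8e1e_an.D.H3cA

/-!
# Mass and covolume of an ideal piece
-/

set_option autoImplicit false

open MeasureTheory Polynomial
open scoped RealInnerProductSpace

namespace Pool.Agent.BCD

namespace H3c

variable {lam W T : ℝ}

/-- `io` as an additive map. -/
noncomputable def ioHom (lam W : ℝ) : ℤ[X] →+ PW lam W :=
  (PW.of lam W).toLinearMap.toAddMonoidHom.comp
    (Polynomial.mapRingHom (Int.castRingHom ℝ)).toAddMonoidHom

lemma ioHom_apply (P : ℤ[X]) : ioHom lam W P = io lam W P := rfl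

lemma io_zsmul (c : ℤ) (P : ℤ[X]) : io lam W (c • P) = (c : ℝ) • io lam W P := by
  rw [← ioHom_apply, map_zsmul, ioHom_apply, Int.cast_smul_eq_zsmul]

lemma io_sum {n : ℕ} (c : Fin n → ℤ) (b : Fin n → ℤ[X]) :
    io lam W (∑ i, c i • b i) = ∑ i, (c i : ℝ) • io lam W (b i) := by
  rw [← ioHom_apply, map_sum]
  exact Finset.sum_congr rfl fun i _ => io_zsmul _ _

lemma norm_of_sq (P : ℝ[X]) : ‖PW.of lam W P‖ ^ 2 = PW.ip lam W P P := by
  rw [← real_inner_self_eq_norm_sq, PW.inner_def]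

lemma sum_sq_le_norm (P : ℝ[X]) :
    √(∑ i ∈ P.support, P.coeff i ^ 2) ≤ ‖PW.of lam W P‖ := by
  apply Real.sqrt_le_iff.2 ⟨norm_nonneg _, ?_⟩
  rw [norm_of_sq, PW.ip_self lam W P _ (Nat.lt_succ_self _)]
  have h1 : ∑ i ∈ P.support, P.coeff i ^ 2 ≤
      ∑ i ∈ Finset.range P.natDegree.succ, P.coeff i ^ 2 := by
    refine Finset.sum_le_sum_of_subset_of_nonneg (fun i hi => ?_) (fun i _ _ => sq_nonneg _)
    rw [Finset.mem_range]
    exact Nat.lt_succ_of_le (le_natDegree_of_mem_supp _ hi)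
  have h2 : 0 ≤ W ^ 2 * (Polynomial.eval lam P) ^ 2 := by positivity
  linarith

lemma mah_le (f : ℤ[X]) (q : ℝ[X]) (hq : q.Monic) :
    Mah f ≤ ‖PW.of lam W (f.map (Int.castRingHom ℝ) * q)‖ := by
  refine le_trans ?_ (sum_sq_le_norm _)
  set P := f.map (Int.castRingHom ℝ) * q with hP
  have h1 := mahlerMeasure_le_sqrt_sum_sq_norm_coeff (P.map Complex.ofRealHom)
  have h2 : (P.map Complex.ofRealHom).support = P.support :=
    Polynomial.support_map_of_injective _ Complex.ofReal_injective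
  rw [h2] at h1
  simp only [coeff_map, Complex.ofRealHom_eq_coe, Complex.norm_real, Real.norm_eq_abs,
    sq_abs] at h1
  refine le_trans ?_ h1
  rw [hP, Polynomial.map_mul, mahlerMeasure_mul, Polynomial.map_map]
  have h3 : (Complex.ofRealHom.comp (Int.castRingHom ℝ)) = Int.castRingHom ℂ :=
    RingHom.ext_int _ _
  rw [h3]
  have h4 : 1 ≤ (q.map Complex.ofRealHom).mahlerMeasure := by
    apply one_le_mahlerMeasure_of_one_le_norm_leadingCoeff
    rw [(hq.map Complex.ofRealHom).leadingCoeff, norm_one]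
  have h5 : 0 ≤ (f.map (Int.castRingHom ℂ)).mahlerMeasure := mahlerMeasure_nonneg _
  calc Mah f = (f.map (Int.castRingHom ℂ)).mahlerMeasure * 1 := by rw [mul_one]; rfl
    _ ≤ _ := mul_le_mul_of_nonneg_left h4 h5

lemma prim_ne {f : ℤ[X]} (hf : f.IsPrimitive) : f ≠ 0 := hf.ne_zero

lemma one_le_Mah {f : ℤ[X]} (hf : f ≠ 0) : 1 ≤ Mah f := by
  apply one_le_mahlerMeasure_of_one_le_norm_leadingCoeff
  have h1 : (f.map (Int.castRingHom ℂ)).leadingCoeff = (f.leadingCoeff : ℂ) := by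
    rw [Polynomial.leadingCoeff_map_of_injective (RingHom.injective_int _)]
    rfl
  rw [h1, Complex.norm_intCast]
  have := Polynomial.leadingCoeff_ne_zero.2 hf
  exact_mod_cast Int.one_le_abs this

lemma mon_ideal (f : ℤ[X]) (n : ℕ) :
    Mon (Mah f) (fun j : Fin n => io lam W (f * X ^ (j : ℕ))) := by
  intro c i hi hj
  set q : ℝ[X] := ∑ j : Fin n, C (c j) * X ^ (j : ℕ) with hq
  have h1 : ∑ j : Fin n, c j • io lam W (f * X ^ (j : ℕ)) =
      PW.of lam W (f.map (Int.castRingHom ℝ) * q) := by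
    rw [hq, Finset.mul_sum, map_sum]
    refine Finset.sum_congr rfl fun j _ => ?_
    unfold io
    rw [← map_smul]
    congr 1
    rw [Polynomial.map_mul, Polynomial.map_pow, Polynomial.map_X, Polynomial.smul_eq_C_mul]
    ring
  have hc : ∀ N : ℕ, q.coeff N = ∑ j : Fin n, if N = j then c j else 0 := by
    intro N
    rw [hq, finsetSum_coeff]
    refine Finset.sum_congr rfl fun j _ => ?_
    rw [coeff_C_mul_X_pow]
  have h2 : q.Monic := by
    refine monic_of_natDegree_le_of_coeff_eq_one (i : ℕ) ?_ ?_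
    · rw [natDegree_le_iff_coeff_eq_zero]
      intro N hN
      rw [hc]
      refine Finset.sum_eq_zero fun j _ => ?_
      split_ifs with h
      · exact hj j (by rw [Fin.lt_def]; omega)
      · rfl
    · rw [hc, Finset.sum_eq_single i]
      · simp [hi]
      · intro j _ hji
        rw [if_neg]
        intro h
        exact hji (Fin.ext h.symm)
      · simp
  rw [h1]
  exact mah_le f q h2

lemma isBas_inj {U : Submodule ℚ ℚ[X]} {n : ℕ} {b : Fin n → ℤ[X]} (hb : IsBas U b) :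
    Function.Bijective fun c : Fin n → ℤ =>
      (⟨∑ i, c i • b i, AddSubgroup.sum_mem _ fun i _ =>
        AddSubgroup.zsmul_mem _ (hb.mem i) _⟩ : MU U) := by
  constructor
  · intro c c' h
    have h1 : ∑ i, c i • b i = ∑ i, c' i • b i := congrArg Subtype.val h
    have h2 : ∑ i, (c i - c' i) • b i = 0 := by
      simp only [sub_smul, Finset.sum_sub_distrib, h1, sub_self]
    have h3 := Fintype.linearIndependent_iff.1 hb.li _ h2
    funext i
    have := h3 i
    omega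
  · rintro ⟨P, hP⟩
    obtain ⟨c, hc⟩ := hb.span P hP
    exact ⟨c, Subtype.ext hc.symm⟩

/-- Coordinates with respect to a basis. -/
noncomputable def bequiv {U : Submodule ℚ ℚ[X]} {n : ℕ} {b : Fin n → ℤ[X]} (hb : IsBas U b) :
    (Fin n → ℤ) ≃ MU U := Equiv.ofBijective _ (isBas_inj hb)

lemma bequiv_coe {U : Submodule ℚ ℚ[X]} {n : ℕ} {b : Fin n → ℤ[X]} (hb : IsBas U b)
    (c : Fin n → ℤ) : (bequiv hb c : ℤ[X]) = ∑ i, c i • b i := rfl

lemma rhoU_eq {U : Submodule ℚ ℚ[X]} {n : ℕ} {b : Fin n → ℤ[X]} (hb : IsBas U b) :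
    rhoU lam W T U = ∑' c : Fin n → ℤ,
      Real.exp (-(Real.pi / T ^ 2 * ‖∑ i, (c i : ℝ) • io lam W (b i)‖ ^ 2)) := by
  unfold rhoU
  rw [← (bequiv hb).tsum_eq]
  refine tsum_congr fun c => ?_
  rw [bequiv_coe, io_sum]
  congr 1
  ring

lemma tsum_le_toReal {ι : Type*} {g : ι → ℝ} (hg : ∀ i, 0 ≤ g i) {C : ENNReal} (hC : C ≠ ⊤)
    (h : ∑' i, ENNReal.ofReal (g i) ≤ C) : Summable g ∧ ∑' i, g i ≤ C.toReal := by
  have h1 : ∑' i, ENNReal.ofReal (g i) ≠ ⊤ := ne_top_of_le_ne_top hC h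
  have h2 : Summable g := by
    refine (ENNReal.summable_toReal h1).congr fun i => ?_
    rw [ENNReal.toReal_ofReal (hg i)]
  refine ⟨h2, ?_⟩
  rw [← ENNReal.ofReal_tsum_of_nonneg hg h2] at h
  exact (ENNReal.ofReal_le_iff_le_toReal hC).1 h

end H3c

end Pool.Agent.BCD
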