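import Pool.Agent.Work.MP_bc8e1e_an.D.H3cB
import Pool.Agent.Work.MP_bc8e1e_an.D.H2

/-!
# Mass and covolume of an ideal piece: the three statements
-/

set_option autoImplicit false

open MeasureTheory Polynomial
open scoped RealInnerProductSpace

namespace Pool.Agent.BCD

open H3c

variable {lam W T : ℝ}

theorem rho_ideal (hT : 0 < T) {f : ℤ[X]} (hf : f.IsPrimitive) (n : ℕ) :
    rhoU lam W T (idU f n) ≤
      (∑' j : ℤ, Real.exp (-(Real.pi * (Mah f * (j : ℝ)) ^ 2 / T ^ 2))) ^ n := by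
  have hM : 0 < Mah f := zero_lt_one.trans_le (one_le_Mah (prim_ne hf))
  have ha : 0 < Real.pi / T ^ 2 := by have := Real.pi_pos; positivity
  rw [rhoU_eq (bas_idU hf n)]
  have h1 := mass_le ha hM _ (mon_ideal (lam := lam) (W := W) f n)
  rw [th_eq ha hM] at h1
  have h2 := (tsum_le_toReal (fun c => (Real.exp_pos _).le)
    (ENNReal.pow_ne_top ENNReal.ofReal_ne_top) h1).2
  rw [ENNReal.toReal_pow, ENNReal.toReal_ofReal (tsum_nonneg fun j => (Real.exp_pos _).le)] at h2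
  refine h2.trans (le_of_eq ?_)
  congr 1
  refine tsum_congr fun j => ?_
  congr 1
  ring

theorem cov_ideal {f : ℤ[X]} (hf : f.IsPrimitive) (n : ℕ) :
    Mah f ^ (2 * n) ≤ cov lam W (idU f n) := by
  have hM : 0 < Mah f := zero_lt_one.trans_le (one_le_Mah (prim_ne hf))
  rw [(bas_idU hf n).cov_eq]
  exact det_ge hM _ (mon_ideal f n)

theorem cov_ideal' {f : ℤ[X]} (hf : f.IsPrimitive) {n : ℕ} (hn : 0 < n) :
    (W * Polynomial.aeval lam f) ^ 2 ≤ cov lam W (idU f n) := by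
  obtain ⟨m, rfl⟩ : ∃ m, n = m + 1 := ⟨n - 1, by omega⟩
  have hM1 := one_le_Mah (prim_ne hf)
  have hM : 0 < Mah f := zero_lt_one.trans_le hM1
  rw [(bas_idU hf (m + 1)).cov_eq]
  have hmon := mon_ideal (lam := lam) (W := W) f (m + 1)
  have h0 : io lam W (f * X ^ ((0 : Fin (m + 1)) : ℕ)) ≠ 0 := by
    intro h
    have := hmon.head
    simp only [h, norm_zero] at this
    linarith
  rw [det_gram_succ _ h0]
  have h1 := det_ge hM _ hmon.red
  have h2 : (1 : ℝ) ≤ Mah f ^ (2 * m) := one_le_pow₀ hM1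
  have h3 : (W * Polynomial.aeval lam f) ^ 2 ≤ ‖io lam W (f * X ^ ((0 : Fin (m + 1)) : ℕ))‖ ^ 2 := by
    unfold io
    rw [norm_of_sq, PW.ip_self lam W _ _ (Nat.lt_succ_self _)]
    have h4 : Polynomial.eval lam ((f * X ^ ((0 : Fin (m + 1)) : ℕ)).map (Int.castRingHom ℝ)) =
        Polynomial.aeval lam f := by
      simp only [Fin.val_zero, pow_zero, mul_one]
      rw [Polynomial.eval_map, Polynomial.aeval_def]
      rfl
    rw [h4]
    have h5 : 0 ≤ ∑ j ∈ Finset.range (Polynomial.natDegree ((f * X ^ ((0 : Fin (m + 1)) :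
      ℕ)).map (Int.castRingHom ℝ))).succ,
      ((f * X ^ ((0 : Fin (m + 1)) : ℕ)).map (Int.castRingHom ℝ)).coeff j ^ 2 := by positivity
    nlinarith
  calc (W * Polynomial.aeval lam f) ^ 2 = (W * Polynomial.aeval lam f) ^ 2 * 1 := by ring
    _ ≤ _ := mul_le_mul h3 (h2.trans h1) (by norm_num) (by positivity)

end Pool.Agent.BCD
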