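import Pool.Agent.Work.MP_bc8e1e_an.D.H3cB

/-!
# Module H3: lower bound for the theta series (Jacobi)
-/

set_option autoImplicit false

open MeasureTheory Polynomial
open scoped RealInnerProductSpace

namespace Pool.Agent.BCD

open H3c

namespace H3d

lemma cos_le_exp {x : ℝ} (h1 : |x| ≤ Real.pi / 2) : Real.cos x ≤ Real.exp (-(x ^ 2 / 2)) := by
  rw [← Real.cos_abs, ← sq_abs]
  set y := |x|
  have hy0 : 0 ≤ y := abs_nonneg x
  have hanti : AntitoneOn (fun t : ℝ => Real.exp (t ^ 2 / 2) * Real.cos t)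
      (Set.Icc 0 (Real.pi / 2)) := by
    apply antitoneOn_of_deriv_nonpos (convex_Icc _ _)
    · exact Continuous.continuousOn (by fun_prop)
    · intro t _
      exact DifferentiableAt.differentiableWithinAt (by fun_prop)
    · intro t ht
      rw [interior_Icc] at ht
      have hd : HasDerivAt (fun t : ℝ => Real.exp (t ^ 2 / 2) * Real.cos t)
          (Real.exp (t ^ 2 / 2) * (t * Real.cos t - Real.sin t)) t := by
        have e1 : HasDerivAt (fun t : ℝ => t ^ 2 / 2) t t := by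
          refine ((hasDerivAt_pow 2 t).div_const 2).congr_deriv ?_
          norm_num
        refine (e1.exp.mul (Real.hasDerivAt_cos t)).congr_deriv ?_
        ring
      rw [hd.deriv]
      have hle : t * Real.cos t ≤ Real.sin t := by
        have hc : 0 < Real.cos t := Real.cos_pos_of_mem_Ioo ⟨by linarith [ht.1], ht.2⟩
        have := Real.le_tan ht.1.le ht.2
        rw [Real.tan_eq_sin_div_cos, le_div_iff₀ hc] at this
        exact this
      have := Real.exp_pos (t ^ 2 / 2)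
      nlinarith
  have h2 := hanti (Set.left_mem_Icc.2 (by positivity)) ⟨hy0, h1⟩ hy0
  simp only [ne_eq, OfNat.ofNat_ne_zero, not_false_eq_true, zero_pow, zero_div, Real.exp_zero,
    Real.cos_zero, mul_one] at h2
  rw [Real.exp_neg, ← one_div, le_div_iff₀ (Real.exp_pos _), mul_comm]
  exact h2

/-- The theta series is positive: Jacobi's identity. -/
lemma jacobi {T : ℝ} (hT : 0 < T) (u : ℝ) :
    (Summable fun n : ℤ => Real.exp (-(Real.pi * T ^ 2 * ((n : ℝ) - u) ^ 2))) ∧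
    ∑' n : ℤ, Real.exp (-(Real.pi * (n : ℝ) ^ 2 / T ^ 2)) * Real.cos (2 * Real.pi * n * u) =
      T * ∑' n : ℤ, Real.exp (-(Real.pi * T ^ 2 * ((n : ℝ) - u) ^ 2)) := by
  have hpi := Real.pi_pos
  have hs1 : Summable fun n : ℤ => Real.exp (-(Real.pi * T ^ 2 * ((n : ℝ) - u) ^ 2)) :=
    (summ_sq_add (c := Real.pi * T ^ 2) (by positivity) (-u)).congr fun n => by
      rw [← sub_eq_add_neg]
  refine ⟨hs1, ?_⟩
  have ha : (0 : ℝ) < 1 / T ^ 2 := by positivity
  have h1 := Complex.tsum_exp_neg_quadratic (a := ((1 / T ^ 2 : ℝ) : ℂ))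
    (by rw [Complex.ofReal_re]; exact ha)
    (Complex.I * u)
  have e1 : ∀ n : ℤ, Complex.exp (-Real.pi * ((1 / T ^ 2 : ℝ) : ℂ) * n ^ 2 +
      2 * Real.pi * (Complex.I * u) * n) =
      ((Real.exp (-(Real.pi * (n : ℝ) ^ 2 / T ^ 2)) : ℝ) : ℂ) *
        Complex.exp (((2 * Real.pi * n * u : ℝ) : ℂ) * Complex.I) := by
    intro n
    rw [Complex.ofReal_exp, ← Complex.exp_add]
    congr 1
    push_cast
    ring
  have e2 : ∀ n : ℤ, Complex.exp (-Real.pi / ((1 / T ^ 2 : ℝ) : ℂ) *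
      (n + Complex.I * (Complex.I * u)) ^ 2) =
      ((Real.exp (-(Real.pi * T ^ 2 * ((n : ℝ) - u) ^ 2)) : ℝ) : ℂ) := by
    intro n
    rw [Complex.ofReal_exp]
    congr 1
    have : Complex.I * (Complex.I * (u : ℂ)) = -u := by
      rw [← mul_assoc, Complex.I_mul_I]; ring
    rw [this]
    have hTc : (T : ℂ) ≠ 0 := by exact_mod_cast hT.ne'
    push_cast
    field_simp
    ring
  have e3 : 1 / ((1 / T ^ 2 : ℝ) : ℂ) ^ (1 / 2 : ℂ) = (T : ℂ) := by
    have : (1 / 2 : ℂ) = ((1 / 2 : ℝ) : ℂ) := by push_cast; rfl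
    rw [this, ← Complex.ofReal_cpow ha.le]
    have h2 : (1 / T ^ 2 : ℝ) ^ (1 / 2 : ℝ) = T⁻¹ := by
      rw [← Real.sqrt_eq_rpow, one_div, ← inv_pow, Real.sqrt_sq (by positivity)]
    rw [h2]
    push_cast
    rw [one_div, inv_inv]
  simp only [e1, e2, e3] at h1
  have h3 := congrArg Complex.re h1
  rw [← Complex.ofReal_tsum, ← Complex.ofReal_mul, Complex.ofReal_re] at h3
  rw [← h3, Complex.re_tsum]
  · refine tsum_congr fun n => ?_
    rw [Complex.re_ofReal_mul, Complex.exp_ofReal_mul_I_re]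
  · refine Summable.of_norm ?_
    refine (summ_sq (c := Real.pi / T ^ 2) (by positivity)).congr fun n => ?_
    rw [norm_mul, Complex.norm_exp_ofReal_mul_I, mul_one, Complex.norm_real,
      Real.norm_of_nonneg (Real.exp_pos _).le]
    congr 1
    ring

lemma theta_ge {k : ℕ} (hk : 0 < k) (u : ℝ) :
    √(Real.pi * k) * (Real.cos (Real.pi * u) ^ 2) ^ k ≤
      ∑' n : ℤ, Real.exp (-(Real.pi * (n : ℝ) ^ 2 / √(Real.pi * k) ^ 2)) *
        Real.cos (2 * Real.pi * n * u) := by
  have hpi := Real.pi_pos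
  have hk' : (0 : ℝ) < k := by exact_mod_cast hk
  have hT : 0 < √(Real.pi * k) := Real.sqrt_pos.2 (by positivity)
  obtain ⟨h1, h2⟩ := jacobi hT u
  rw [h2]
  refine mul_le_mul_of_nonneg_left ?_ hT.le
  refine le_trans ?_ (h1.le_tsum (round u) fun j _ => (Real.exp_pos _).le)
  have h3 : |u - round u| ≤ 1 / 2 := abs_sub_round u
  set x := Real.pi * (u - round u) with hx
  have hxa : |x| ≤ Real.pi / 2 := by
    rw [hx, abs_mul, abs_of_pos hpi]
    nlinarith
  have h4 : Real.cos (Real.pi * u) ^ 2 = Real.cos x ^ 2 := by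
    have : Real.pi * u = x + round u * Real.pi := by rw [hx]; ring
    rw [this, Real.cos_add_int_mul_pi, mul_pow]
    have : ((-1 : ℝ) ^ (round u)) ^ 2 = 1 := by
      rw [← zpow_natCast, ← zpow_mul, mul_comm, zpow_mul]
      norm_num
    rw [this, one_mul]
  have hc0 : 0 ≤ Real.cos x := Real.cos_nonneg_of_mem_Icc (abs_le.1 hxa)
  have h5 : Real.cos x ^ 2 ≤ Real.exp (-x ^ 2) := by
    calc Real.cos x ^ 2 ≤ Real.exp (-(x ^ 2 / 2)) ^ 2 := pow_le_pow_left₀ hc0 (cos_le_exp hxa) 2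
      _ = Real.exp (-x ^ 2) := by
        rw [← Real.exp_nat_mul]
        congr 1
        push_cast
        ring
  rw [h4]
  calc (Real.cos x ^ 2) ^ k ≤ Real.exp (-x ^ 2) ^ k := pow_le_pow_left₀ (sq_nonneg _) h5 k
    _ = _ := by
      rw [← Real.exp_nat_mul, Real.sq_sqrt (by positivity), hx]
      congr 1
      ring

end H3d

end Pool.Agent.BCD
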