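import Pool.Agent.Work.MP_bc8e1e_an.D.H3b
import Pool.Agent.Work.MP_bc8e1e_an.D.H3d
import Pool.Agent.Work.MP_bc8e1e_an.D.C3c

/-!
# Module H3: lower bound for the Gaussian mass of all polynomials of bounded degree
-/

set_option autoImplicit false

open MeasureTheory Polynomial
open scoped RealInnerProductSpace

namespace Pool.Agent.BCD

open H3c

namespace H3e

variable {lam W T : ℝ}

/-- Sum over `ℤ^n` of a product, complex version. -/
theorem prod_sum {n : ℕ} (f : Fin n → ℤ → ℂ) (hf : ∀ i, Summable (fun z => ‖f i z‖)) :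
    Summable (fun c : Fin n → ℤ => ‖∏ i, f i (c i)‖) ∧
      ∑' c : Fin n → ℤ, ∏ i, f i (c i) = ∏ i, ∑' z, f i z := by
  induction n with
  | zero =>
    constructor
    · exact (hasSum_fintype _).summable
    · rw [tsum_fintype]
      simp
  | succ n ih =>
    obtain ⟨h1, h2⟩ := ih (fun i => f i.succ) (fun i => hf i.succ)
    have e : ∀ p : ℤ × (Fin n → ℤ), ∏ i, f i ((Fin.consEquiv fun _ : Fin (n + 1) => ℤ) p i) =
        f 0 p.1 * ∏ i : Fin n, f i.succ (p.2 i) := by
      intro p
      rw [Fin.prod_univ_succ]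
      simp [Fin.consEquiv]
    constructor
    · rw [← (Fin.consEquiv fun _ : Fin (n + 1) => ℤ).summable_iff]
      refine ((hf 0).mul_norm h1).congr fun p => ?_
      simp only [Function.comp]
      rw [e p]
    · rw [← (Fin.consEquiv fun _ : Fin (n + 1) => ℤ).tsum_eq]
      simp only [e]
      rw [← tsum_mul_tsum_of_summable_norm (hf 0) h1, h2, Fin.prod_univ_succ]

/-- the weight. -/
noncomputable def gw (T : ℝ) (z : ℤ) : ℝ := Real.exp (-(Real.pi * (z : ℝ) ^ 2 / T ^ 2))

lemma gw_pos (T : ℝ) (z : ℤ) : 0 < gw T z := Real.exp_pos _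

lemma gw_summ (hT : 0 < T) : Summable (gw T) := by
  have := Real.pi_pos
  refine (summ_sq (c := Real.pi / T ^ 2) (by positivity)).congr fun j => ?_
  unfold gw
  congr 1
  ring

/-- the theta function. -/
noncomputable def vt (T u : ℝ) : ℝ := ∑' z : ℤ, gw T z * Real.cos (2 * Real.pi * z * u)

lemma vt_cont (hT : 0 < T) : Continuous (vt T) := by
  unfold vt
  refine continuous_tsum (fun z => by fun_prop) (gw_summ hT) fun z u => ?_
  rw [norm_mul, Real.norm_of_nonneg (gw_pos T z).le]
  exact mul_le_of_le_one_right (gw_pos T z).le (Real.abs_cos_le_one _)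

lemma vt_bdd (hT : 0 < T) (u : ℝ) : |vt T u| ≤ ∑' z, gw T z := by
  unfold vt
  have h : ∀ z : ℤ, ‖gw T z * Real.cos (2 * Real.pi * z * u)‖ ≤ gw T z := by
    intro z
    rw [norm_mul, Real.norm_of_nonneg (gw_pos T z).le]
    exact mul_le_of_le_one_right (gw_pos T z).le (Real.abs_cos_le_one _)
  exact tsum_of_norm_bounded (gw_summ hT).hasSum h

/-- The complex theta series is real. -/
lemma vt_complex (hT : 0 < T) (u : ℝ) :
    ∑' z : ℤ, ((gw T z : ℝ) : ℂ) * Complex.exp (((2 * Real.pi * z * u : ℝ) : ℂ) * Complex.I) =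
      ((vt T u : ℝ) : ℂ) := by
  have hs : Summable fun z : ℤ => ((gw T z : ℝ) : ℂ) *
      Complex.exp (((2 * Real.pi * z * u : ℝ) : ℂ) * Complex.I) := by
    refine Summable.of_norm ((gw_summ hT).congr fun z => ?_)
    rw [norm_mul, Complex.norm_exp_ofReal_mul_I, mul_one, Complex.norm_real,
      Real.norm_of_nonneg (gw_pos T z).le]
  apply Complex.ext
  · rw [Complex.re_tsum hs, Complex.ofReal_re]
    unfold vt
    refine tsum_congr fun z => ?_
    rw [Complex.re_ofReal_mul, Complex.exp_ofReal_mul_I_re]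
  · rw [Complex.im_tsum hs, Complex.ofReal_im]
    have h1 : ∀ z : ℤ, (((gw T z : ℝ) : ℂ) * Complex.exp (((2 * Real.pi * z * u : ℝ) : ℂ) *
        Complex.I)).im = gw T z * Real.sin (2 * Real.pi * z * u) := by
      intro z
      rw [Complex.im_ofReal_mul, Complex.exp_ofReal_mul_I_im]
    simp only [h1]
    have h2 : ∑' z : ℤ, gw T z * Real.sin (2 * Real.pi * z * u) =
        ∑' z : ℤ, -(gw T z * Real.sin (2 * Real.pi * z * u)) := by
      rw [← (Equiv.neg ℤ).tsum_eq]
      refine tsum_congr fun z => ?_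
      simp only [Equiv.neg_apply]
      have e1 : gw T (-z) = gw T z := by
        unfold gw
        congr 1
        push_cast
        ring
      have e2 : Real.sin (2 * Real.pi * ((-z : ℤ) : ℝ) * u) = -Real.sin (2 * Real.pi * z * u) := by
        rw [← Real.sin_neg]
        congr 1
        push_cast
        ring
      rw [e1, e2]
      ring
    rw [tsum_neg] at h2
    linarith

/-- Product formula. -/
lemma sum_cos (hT : 0 < T) {n : ℕ} (u : Fin n → ℝ) :
    ∑' c : Fin n → ℤ, (∏ i, gw T (c i)) * Real.cos (2 * Real.pi * ∑ i, (c i : ℝ) * u i) =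
      ∏ i, vt T (u i) := by
  have hf : ∀ i, Summable fun z : ℤ => ‖((gw T z : ℝ) : ℂ) *
      Complex.exp (((2 * Real.pi * z * u i : ℝ) : ℂ) * Complex.I)‖ := by
    intro i
    refine (gw_summ hT).congr fun z => ?_
    rw [norm_mul, Complex.norm_exp_ofReal_mul_I, mul_one, Complex.norm_real,
      Real.norm_of_nonneg (gw_pos T z).le]
  obtain ⟨h1, h2⟩ := prod_sum (n := n) (fun i z => ((gw T z : ℝ) : ℂ) *
      Complex.exp (((2 * Real.pi * z * u i : ℝ) : ℂ) * Complex.I)) hf
  simp only [vt_complex hT] at h2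
  rw [← Complex.ofReal_prod] at h2
  have h3 := congrArg Complex.re h2
  rw [Complex.ofReal_re, Complex.re_tsum h1.of_norm] at h3
  rw [← h3]
  refine tsum_congr fun c => ?_
  rw [Finset.prod_mul_distrib, ← Complex.ofReal_prod, ← Complex.exp_sum, Complex.re_ofReal_mul,
    ← Finset.sum_mul, ← Complex.ofReal_sum, Complex.exp_ofReal_mul_I_re, Finset.mul_sum]
  congr 2
  exact Finset.sum_congr rfl fun i _ => by ring

/-- Jensen's inequality for powers. -/
lemma jensen {w F : ℝ → ℝ} (hw0 : ∀ t, 0 ≤ w t) (hw : Integrable w) (hw1 : ∫ t, w t = 1)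
    (hF0 : ∀ t, 0 ≤ F t) (hwF : Integrable fun t => w t * F t) {k : ℕ} (hk : 0 < k)
    (hwFk : Integrable fun t => w t * F t ^ k) :
    (∫ t, w t * F t) ^ k ≤ ∫ t, w t * F t ^ k := by
  set m := ∫ t, w t * F t with hm
  have hm0 : 0 ≤ m := integral_nonneg fun t => mul_nonneg (hw0 t) (hF0 t)
  rcases hm0.eq_or_lt with h | h
  · rw [← h, zero_pow hk.ne']
    exact integral_nonneg fun t => mul_nonneg (hw0 t) (pow_nonneg (hF0 t) _)
  · have h1 : ∀ x : ℝ, 0 ≤ x → m ^ k + k * (m ^ k / m) * (x - m) ≤ x ^ k := by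
      intro x hx
      have h2 := one_add_mul_le_pow (a := x / m - 1) (by
        have : 0 ≤ x / m := by positivity
        linarith) k
      have h3 : 1 + (x / m - 1) = x / m := by ring
      rw [h3, div_pow] at h2
      have h4 : 0 < m ^ k := by positivity
      have h5 : m ^ k * (1 + k * (x / m - 1)) ≤ x ^ k := by
        have := mul_le_mul_of_nonneg_left h2 h4.le
        rwa [mul_div_cancel₀ _ h4.ne'] at this
      refine le_trans (le_of_eq ?_) h5
      field_simp
    have h2 : ∫ t, (w t * m ^ k + (k * (m ^ k / m)) * (w t * F t - m * w t)) ≤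
        ∫ t, w t * F t ^ k := by
      refine integral_mono ?_ hwFk fun t => ?_
      · exact (hw.mul_const _).add ((hwF.sub (hw.const_mul _)).const_mul _)
      · have h3 := mul_le_mul_of_nonneg_left (h1 (F t) (hF0 t)) (hw0 t)
        refine le_trans (le_of_eq ?_) h3
        ring
    refine le_trans (le_of_eq ?_) h2
    have hi1 : Integrable fun t => w t * m ^ k := hw.mul_const _
    have hi2 : Integrable fun t => m * w t := hw.const_mul _
    have hi3 : Integrable fun t => w t * F t - m * w t := hwF.sub hi2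
    have hi4 : Integrable fun t => k * (m ^ k / m) * (w t * F t - m * w t) := hi3.const_mul _
    rw [integral_add hi1 hi4, integral_mul_const, hw1, integral_const_mul, integral_sub hwF hi2,
      integral_const_mul, hw1, ← hm]
    ring

end H3e

open H3e

variable {lam W T : ℝ}

/-- The norm of a combination of monomials. -/
lemma H3e.norm_sum {n : ℕ} (c : Fin n → ℤ) :
    ‖∑ i, (c i : ℝ) • io lam W (1 * X ^ (i : ℕ))‖ ^ 2 =
      ∑ i, (c i : ℝ) ^ 2 + W ^ 2 * (∑ i, (c i : ℝ) * lam ^ (i : ℕ)) ^ 2 := by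
  set q : ℝ[X] := ∑ j : Fin n, C (c j : ℝ) * X ^ (j : ℕ) with hq
  have h1 : ∑ i, (c i : ℝ) • io lam W (1 * X ^ (i : ℕ)) = PW.of lam W q := by
    rw [hq, map_sum]
    refine Finset.sum_congr rfl fun j _ => ?_
    unfold io
    rw [← map_smul]
    congr 1
    rw [one_mul, Polynomial.map_pow, Polynomial.map_X, Polynomial.smul_eq_C_mul]
  have hc : ∀ N : ℕ, q.coeff N = ∑ j : Fin n, if N = j then (c j : ℝ) else 0 := by
    intro N
    rw [hq, finsetSum_coeff]
    refine Finset.sum_congr rfl fun j _ => ?_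
    rw [coeff_C_mul_X_pow]
  have hd : q.natDegree < n + 1 := by
    rw [Nat.lt_succ_iff, natDegree_le_iff_coeff_eq_zero]
    intro N hN
    rw [hc]
    refine Finset.sum_eq_zero fun j _ => ?_
    rw [if_neg]
    have := j.2
    omega
  rw [h1, norm_of_sq, PW.ip_self lam W q (n + 1) hd]
  congr 1
  · rw [Finset.sum_range_succ, Finset.sum_range]
    have h2 : q.coeff n = 0 := by
      rw [hc]
      refine Finset.sum_eq_zero fun j _ => ?_
      rw [if_neg]
      have := j.2
      omega
    rw [h2, zero_pow two_ne_zero, add_zero]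
    refine Finset.sum_congr rfl fun i _ => ?_
    rw [hc, Finset.sum_eq_single i]
    · simp
    · intro j _ hji
      rw [if_neg]
      intro h
      exact hji (Fin.ext h.symm)
    · simp
  · congr 2
    rw [hq, eval_finsetSum]
    refine Finset.sum_congr rfl fun i _ => ?_
    simp

theorem rho_lower (h0 : 0 < lam) (h1 : lam < 1) (hW : 0 < W) (k n : ℕ) (hk : 0 < k) :
    √(Real.pi * k) ^ n * Ic lam n (√(Real.pi * k) / W) ^ k ≤
      rhoU lam W (√(Real.pi * k)) (degreeLT ℚ n) := by
  have hpi := Real.pi_pos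
  have hk' : (0 : ℝ) < k := by exact_mod_cast hk
  have hT : 0 < √(Real.pi * k) := Real.sqrt_pos.2 (by positivity)
  have hTge := fun u => H3d.theta_ge hk u
  set T := √(Real.pi * k) with hTdef
  set a := T / W with ha
  have ha0 : 0 < a := by positivity
  have hid : idU 1 n = degreeLT ℚ n := by
    unfold idU
    rw [Polynomial.map_one]
    have : LinearMap.mulLeft ℚ (1 : ℚ[X]) = LinearMap.id := by ext; simp
    rw [this, Submodule.map_id]
  set w : ℝ → ℝ := fun t => a * Real.exp (-(Real.pi * a ^ 2 * t ^ 2)) with hw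
  have hw0 : ∀ t, 0 ≤ w t := fun t => by simp only [hw]; positivity
  have hwi : Integrable w := by
    have := (C3.gauss_cos ha0 0).1
    simpa [hw] using this
  have hw1 : ∫ t, w t = 1 := by
    have := (C3.gauss_cos ha0 0).2
    simpa [hw] using this
  -- the sum over `ℤ^n`
  have hrho : rhoU lam W T (degreeLT ℚ n) = ∑' c : Fin n → ℤ,
      ∫ t, (∏ i, gw T (c i)) * (w t * Real.cos (2 * Real.pi * ∑ i, (c i : ℝ) * (lam ^ (i : ℕ) * t))) := by
    rw [← hid, rhoU_eq (bas_idU Polynomial.isPrimitive_one n)]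
    refine tsum_congr fun c => ?_
    rw [H3e.norm_sum, integral_const_mul]
    have h2 := (C3.gauss_cos ha0 (2 * ∑ i, (c i : ℝ) * lam ^ (i : ℕ))).2
    have h3 : ∀ t : ℝ, 2 * Real.pi * ∑ i, (c i : ℝ) * (lam ^ (i : ℕ) * t) =
        Real.pi * t * (2 * ∑ i, (c i : ℝ) * lam ^ (i : ℕ)) := by
      intro t
      rw [Finset.mul_sum, Finset.mul_sum, Finset.mul_sum]
      exact Finset.sum_congr rfl fun i _ => by ring
    simp only [h3, hw]
    rw [h2]
    have h4 : ∏ i, gw T (c i) = Real.exp (∑ i, -(Real.pi * (c i : ℝ) ^ 2 / T ^ 2)) := by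
      rw [Real.exp_sum]
      rfl
    rw [h4, ← Real.exp_add]
    congr 1
    rw [Finset.sum_neg_distrib, ← Finset.sum_div, ← Finset.mul_sum, ha]
    field_simp
    ring
  have hF0 : ∀ t : ℝ, 0 ≤ ∏ j ∈ Finset.range n, Real.cos (Real.pi * lam ^ j * t) ^ 2 :=
    fun t => Finset.prod_nonneg fun _ _ => sq_nonneg _
  have hF1 : ∀ t : ℝ, ∏ j ∈ Finset.range n, Real.cos (Real.pi * lam ^ j * t) ^ 2 ≤ 1 :=
    fun t => Finset.prod_le_one (fun _ _ => sq_nonneg _) fun _ _ => Real.cos_sq_le_one _
  have hFc : Continuous fun t : ℝ => ∏ j ∈ Finset.range n, Real.cos (Real.pi * lam ^ j * t) ^ 2 :=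
    continuous_finsetProd _ fun _ _ => by fun_prop
  set F : ℝ → ℝ := fun t => ∏ j ∈ Finset.range n, Real.cos (Real.pi * lam ^ j * t) ^ 2 with hF
  have hwF : ∀ j : ℕ, Integrable fun t => w t * F t ^ j := by
    intro j
    refine (hwi.bdd_mul (c := 1) (f := fun t => F t ^ j)
      (hFc.pow j).aestronglyMeasurable (Filter.Eventually.of_forall fun t => ?_)).congr
      (Filter.Eventually.of_forall fun t => mul_comm _ _)
    rw [norm_pow, Real.norm_of_nonneg (hF0 t)]
    exact pow_le_one₀ (hF0 t) (hF1 t)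
  -- interchange
  have hint : ∀ c : Fin n → ℤ, Integrable fun t => (∏ i, gw T (c i)) *
      (w t * Real.cos (2 * Real.pi * ∑ i, (c i : ℝ) * (lam ^ (i : ℕ) * t))) := by
    intro c
    refine Integrable.const_mul ?_ _
    refine (hwi.bdd_mul (c := 1) (f := fun t =>
      Real.cos (2 * Real.pi * ∑ i, (c i : ℝ) * (lam ^ (i : ℕ) * t)))
      (Continuous.aestronglyMeasurable ?_) (Filter.Eventually.of_forall fun t =>
        Real.abs_cos_le_one _)).congr (Filter.Eventually.of_forall fun t => mul_comm _ _)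
    fun_prop
  have hgs : Summable fun c : Fin n → ℤ => ∏ i, gw T (c i) :=
    (H3x.prod_sum (n := n) (fun _ => gw T) (fun _ => (gw_summ hT).norm)).1.of_norm
  have hsum : Summable fun c : Fin n → ℤ => ∫ t, ‖(∏ i, gw T (c i)) *
      (w t * Real.cos (2 * Real.pi * ∑ i, (c i : ℝ) * (lam ^ (i : ℕ) * t)))‖ := by
    refine Summable.of_nonneg_of_le (fun c => integral_nonneg fun t => norm_nonneg _)
      (fun c => ?_) hgs
    have hp : 0 ≤ ∏ i, gw T (c i) := Finset.prod_nonneg fun i _ => (gw_pos T _).le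
    calc ∫ t, ‖(∏ i, gw T (c i)) * (w t * Real.cos (2 * Real.pi * ∑ i, (c i : ℝ) *
          (lam ^ (i : ℕ) * t)))‖ ≤ ∫ t, (∏ i, gw T (c i)) * w t := by
          refine integral_mono (hint c).norm (hwi.const_mul _) fun t => ?_
          simp only
          rw [norm_mul, norm_mul, Real.norm_of_nonneg hp, Real.norm_of_nonneg (hw0 t)]
          exact mul_le_mul_of_nonneg_left (mul_le_of_le_one_right (hw0 t)
            (Real.abs_cos_le_one _)) hp
      _ = _ := by rw [integral_const_mul, hw1, mul_one]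
  have hswap := (hasSum_integral_of_summable_integral_norm hint hsum).tsum_eq
  have hinner : ∀ t : ℝ, ∑' c : Fin n → ℤ, (∏ i, gw T (c i)) *
      (w t * Real.cos (2 * Real.pi * ∑ i, (c i : ℝ) * (lam ^ (i : ℕ) * t))) =
      w t * ∏ i : Fin n, vt T (lam ^ (i : ℕ) * t) := by
    intro t
    rw [← sum_cos hT, ← tsum_mul_left]
    exact tsum_congr fun c => by ring
  simp only [hinner] at hswap
  rw [hrho, hswap]
  -- lower bound
  have hlow : ∀ t : ℝ, T ^ n * (w t * F t ^ k) ≤ w t * ∏ i : Fin n, vt T (lam ^ (i : ℕ) * t) := by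
    intro t
    have h2 : T ^ n * F t ^ k ≤ ∏ i : Fin n, vt T (lam ^ (i : ℕ) * t) := by
      have h3 : T ^ n * F t ^ k = ∏ i : Fin n,
          (T * (Real.cos (Real.pi * (lam ^ (i : ℕ) * t)) ^ 2) ^ k) := by
        rw [Finset.prod_mul_distrib, Finset.prod_const, Finset.card_univ, Fintype.card_fin,
          Finset.prod_pow, hF]
        simp only
        rw [Finset.prod_range]
        congr 2
        exact Finset.prod_congr rfl fun i _ => by rw [mul_assoc]
      rw [h3]
      exact Finset.prod_le_prod (fun i _ => by positivity) fun i _ => hTge _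
    calc T ^ n * (w t * F t ^ k) = w t * (T ^ n * F t ^ k) := by ring
      _ ≤ _ := mul_le_mul_of_nonneg_left h2 (hw0 t)
  have hrint : Integrable fun t => w t * ∏ i : Fin n, vt T (lam ^ (i : ℕ) * t) := by
    refine (hwi.bdd_mul (c := (∑' z, gw T z) ^ n)
      (f := fun t => ∏ i : Fin n, vt T (lam ^ (i : ℕ) * t)) ?_
      (Filter.Eventually.of_forall fun t => ?_)).congr
      (Filter.Eventually.of_forall fun t => mul_comm _ _)
    · exact (continuous_finsetProd _ fun i _ =>
        (vt_cont hT).comp (by fun_prop)).aestronglyMeasurable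
    · rw [norm_prod]
      calc ∏ i : Fin n, ‖vt T (lam ^ (i : ℕ) * t)‖ ≤ ∏ _i : Fin n, ∑' z, gw T z :=
            Finset.prod_le_prod (fun _ _ => norm_nonneg _) fun i _ => vt_bdd hT _
        _ = _ := by rw [Finset.prod_const, Finset.card_univ, Fintype.card_fin]
  calc T ^ n * Ic lam n a ^ k = T ^ n * (∫ t, w t * F t) ^ k := rfl
    _ ≤ T ^ n * ∫ t, w t * F t ^ k := by
        refine mul_le_mul_of_nonneg_left ?_ (by positivity)
        exact jensen hw0 hwi hw1 hF0 (by simpa using hwF 1) hk (hwF k)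
    _ = ∫ t, T ^ n * (w t * F t ^ k) := by rw [integral_const_mul]
    _ ≤ _ := integral_mono ((hwF k).const_mul _) hrint hlow

end Pool.Agent.BCD
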