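import Pool.Agent.Work.MP_bc8e1e_an.D.Mah

/-!
# Module H4, part 1: preparations for the inverse theorem
-/

set_option autoImplicit false

open MeasureTheory Polynomial

namespace Pool.Agent.BCD

namespace H4

theorem prod_cos_nonneg (lam : ℝ) (m : ℕ) (t : ℝ) :
    0 ≤ ∏ j ∈ Finset.range m, Real.cos (Real.pi * lam ^ j * t) ^ 2 :=
  Finset.prod_nonneg fun _ _ => sq_nonneg _

theorem prod_cos_anti (lam : ℝ) {i m : ℕ} (him : i ≤ m) (t : ℝ) :
    ∏ j ∈ Finset.range m, Real.cos (Real.pi * lam ^ j * t) ^ 2 ≤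
      ∏ j ∈ Finset.range i, Real.cos (Real.pi * lam ^ j * t) ^ 2 := by
  rw [← Finset.prod_range_mul_prod_Ico _ him]
  refine mul_le_of_le_one_right (prod_cos_nonneg lam i t) ?_
  apply Finset.prod_le_one
  · intro j _
    exact sq_nonneg _
  · intro j _
    exact Real.cos_sq_le_one _

theorem integrable_Ic (lam : ℝ) (m : ℕ) {a : ℝ} (ha : 0 < a) :
    Integrable fun t : ℝ => a * Real.exp (-(Real.pi * a ^ 2 * t ^ 2)) *
      ∏ j ∈ Finset.range m, Real.cos (Real.pi * lam ^ j * t) ^ 2 := by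
  have h1 : Integrable fun t : ℝ => a * Real.exp (-(Real.pi * a ^ 2) * t ^ 2) :=
    (integrable_exp_neg_mul_sq (by positivity)).const_mul a
  refine h1.mono' ?_ ?_
  · apply Continuous.aestronglyMeasurable
    fun_prop
  · refine Filter.Eventually.of_forall fun t => ?_
    rw [norm_mul, Real.norm_of_nonneg (by positivity), Real.norm_of_nonneg
      (prod_cos_nonneg lam m t)]
    have h2 : ∏ j ∈ Finset.range m, Real.cos (Real.pi * lam ^ j * t) ^ 2 ≤ 1 := by
      have := prod_cos_anti lam (Nat.zero_le m) t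
      simpa using this
    have h3 : -(Real.pi * a ^ 2 * t ^ 2) = -(Real.pi * a ^ 2) * t ^ 2 := by ring
    rw [h3]
    exact mul_le_of_le_one_right (by positivity) h2

theorem Ic_anti (lam : ℝ) {i m : ℕ} (him : i ≤ m) {a : ℝ} (ha : 0 < a) :
    Ic lam m a ≤ Ic lam i a := by
  unfold Ic
  refine integral_mono (integrable_Ic lam m ha) (integrable_Ic lam i ha) fun t => ?_
  exact mul_le_mul_of_nonneg_left (prod_cos_anti lam him t) (by positivity)

theorem finrank_degreeLT (n : ℕ) : Module.finrank ℚ (degreeLT ℚ n) = n := by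
  rw [(degreeLTEquiv ℚ n).finrank_eq, Module.finrank_fin_fun]

theorem finite_of_le {n : ℕ} {D : Submodule ℚ ℚ[X]} (h : D ≤ degreeLT ℚ n) :
    Module.Finite ℚ D := by
  have : Module.Finite ℚ (degreeLT ℚ n) := Module.Finite.equiv (degreeLTEquiv ℚ n).symm
  exact Submodule.finiteDimensional_of_le h

theorem finrank_le {n : ℕ} {D : Submodule ℚ ℚ[X]} (h : D ≤ degreeLT ℚ n) :
    Module.finrank ℚ D ≤ n := by
  have : Module.Finite ℚ (degreeLT ℚ n) := Module.Finite.equiv (degreeLTEquiv ℚ n).symm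
  conv_rhs => rw [← finrank_degreeLT n]
  exact Submodule.finrank_mono h

theorem natDegree_lt_of_idU {f : ℤ[X]} (hf : f ≠ 0) {n i : ℕ} (hn : 0 < n)
    (h : idU f n ≤ degreeLT ℚ i) : f.natDegree < i := by
  have h1 : f.map (Int.castRingHom ℚ) ∈ idU f n := by
    unfold idU
    refine Submodule.mem_map.2 ⟨1, ?_, ?_⟩
    · rw [mem_degreeLT, degree_one]
      exact_mod_cast hn
    · simp
  have h2 := h h1
  rw [mem_degreeLT] at h2
  have h3 : f.map (Int.castRingHom ℚ) ≠ 0 := by
    rw [Ne, Polynomial.map_eq_zero_iff (RingHom.injective_int _)]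
    exact hf
  rw [degree_eq_natDegree h3, natDegree_map_eq_of_injective (RingHom.injective_int _)] at h2
  exact_mod_cast h2

/-- a large integer `k` -/
theorem exists_k (ε₁ : ℝ) (h0 : 0 < ε₁) : ∃ k : ℕ, 0 < k ∧
    9 ≤ Real.log √(Real.pi * k) ∧
    3 * Real.exp (-(2 * √(Real.pi * k) ^ 2)) ≤ ε₁ / 8 := by
  obtain ⟨k, hk⟩ := exists_nat_ge (max (Real.exp 18) (4 / ε₁))
  have h1 : Real.exp 18 ≤ k := (le_max_left _ _).trans hk
  have h2 : 4 / ε₁ ≤ k := (le_max_right _ _).trans hk
  have hk0 : (0 : ℝ) < k := (Real.exp_pos _).trans_le h1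
  have hπ := Real.pi_gt_three
  have h3 : Real.exp 18 ≤ Real.pi * k := by nlinarith
  refine ⟨k, by exact_mod_cast hk0, ?_, ?_⟩
  · rw [Real.log_sqrt (by positivity)]
    have h4 : 18 ≤ Real.log (Real.pi * k) := by
      rw [Real.le_log_iff_exp_le (by positivity)]
      exact h3
    linarith
  · rw [Real.sq_sqrt (by positivity)]
    have h5 : 0 < 2 * (Real.pi * k) := by positivity
    have h6 : Real.exp (-(2 * (Real.pi * k))) ≤ (2 * (Real.pi * k))⁻¹ := by
      rw [Real.exp_neg]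
      apply inv_anti₀ h5
      have := Real.add_one_le_exp (2 * (Real.pi * k))
      linarith
    have h7 : (2 * (Real.pi * k))⁻¹ ≤ (6 * k : ℝ)⁻¹ := by
      apply inv_anti₀ (by positivity)
      nlinarith
    have h8 : (6 * k : ℝ)⁻¹ ≤ ε₁ / 24 := by
      rw [inv_le_comm₀ (by positivity) (by positivity), inv_div]
      rw [div_le_iff₀ h0] at h2 ⊢
      linarith
    linarith

end H4

end Pool.Agent.BCD
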