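import Pool.Agent.Work.MP_bc8e1e_an.D.H2
import Pool.Agent.Work.MP_bc8e1e_an.D.H3e
import Pool.Agent.Work.MP_bc8e1e_an.D.H3c
import Pool.Agent.Work.MP_bc8e1e_an.D.H4Root
import Pool.Agent.Work.MP_bc8e1e_an.D.H4a

/-!
# Module H4: the inverse theorem
-/

set_option autoImplicit false

open MeasureTheory Polynomial

namespace Pool.Agent.BCD

namespace H4

/-- The comparison of masses, in logarithmic form. -/
theorem core {ε₁ lam W : ℝ} (h0 : 0 < lam) (h1 : lam < 1) (hW : 0 < W) {k : ℕ} (hk : 0 < k)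
    (hT : 1 ≤ √(Real.pi * k)) {m i : ℕ} (hmi : m ≤ 2 * i) (him : i ≤ m) (hε₁ : 0 < ε₁)
    (hI : (2 : ℝ) ^ (-(2 * (ε₁ / (100 * k)) * m)) ≤ Ic lam m (√(Real.pi * k) / W))
    {D : Submodule ℚ ℚ[X]} (hD : D ≤ degreeLT ℚ i)
    (hmax : ∀ U : Submodule ℚ ℚ[X], D ≤ U → U ≤ degreeLT ℚ i →
      gT lam W √(Real.pi * k) U ≤ gT lam W √(Real.pi * k) D)
    {B : ℝ} (hB : 0 < B) (hrho : rhoU lam W √(Real.pi * k) D ≤ B ^ Module.finrank ℚ D) :
    (i : ℝ) * Real.log √(Real.pi * k) - ε₁ / 25 * Real.log 2 * i ≤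
      Module.finrank ℚ D * Real.log B + 8 * ((i : ℝ) - Module.finrank ℚ D) := by
  set T := √(Real.pi * k) with hTdef
  have hT0 : 0 < T := by linarith
  have hk' : (0 : ℝ) < k := by exact_mod_cast hk
  have ha : 0 < T / W := by positivity
  have hfin : Module.Finite ℚ (degreeLT ℚ i) := finite_of_le le_rfl
  have e1 := rho_lower h0 h1 hW k i hk
  rw [← hTdef] at e1
  have e2 := rho_quot (lam := lam) (W := W) (T := T) hT hD hmax
  rw [finrank_degreeLT] at e2
  have e3 : (2 : ℝ) ^ (-(2 * (ε₁ / (100 * k)) * m)) ≤ Ic lam i (T / W) :=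
    hI.trans (Ic_anti lam him ha)
  have e4 : T ^ i * ((2 : ℝ) ^ (-(2 * (ε₁ / (100 * k)) * m))) ^ k ≤
      B ^ Module.finrank ℚ D * Real.exp (8 * ((i : ℝ) - Module.finrank ℚ D)) := by
    calc T ^ i * ((2 : ℝ) ^ (-(2 * (ε₁ / (100 * k)) * m))) ^ k
        ≤ T ^ i * Ic lam i (T / W) ^ k := by
          apply mul_le_mul_of_nonneg_left _ (by positivity)
          exact pow_le_pow_left₀ (by positivity) e3 k
      _ ≤ rhoU lam W T (degreeLT ℚ i) := e1
      _ ≤ rhoU lam W T D * Real.exp (8 * ((i : ℝ) - Module.finrank ℚ D)) := e2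
      _ ≤ _ := mul_le_mul_of_nonneg_right hrho (Real.exp_pos _).le
  have e5 := Real.log_le_log (by positivity) e4
  rw [Real.log_mul (by positivity) (by positivity), Real.log_mul (by positivity)
    (Real.exp_pos _).ne', Real.log_pow, Real.log_pow, Real.log_pow, Real.log_exp,
    Real.log_rpow (by norm_num)] at e5
  have e6 : (k : ℝ) * (-(2 * (ε₁ / (100 * k)) * m) * Real.log 2) =
      -(ε₁ / 50 * Real.log 2 * m) := by
    field_simp
    ring
  rw [e6] at e5
  have e7 : (m : ℝ) ≤ 2 * i := by exact_mod_cast hmi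
  have e8 : ε₁ / 50 * Real.log 2 * m ≤ ε₁ / 25 * Real.log 2 * i := by
    have h2 : 0 < Real.log 2 := Real.log_pos (by norm_num)
    have h3 : 0 < ε₁ / 50 * Real.log 2 := by positivity
    nlinarith
  linarith

end H4

open H4 in
theorem inverse (ε₁ : ℝ) (h0 : 0 < ε₁) (h1 : ε₁ ≤ 1) : ∃ ε : ℝ, 0 < ε ∧ ε ≤ 1 ∧ ∃ C₀ : ℝ,
    ∀ lam : ℝ, 1 / 2 < lam → lam < 1 → ∀ C₁ : ℝ, C₀ ≤ C₁ → ∃ m₀ : ℕ, ∀ m : ℕ, m₀ ≤ m →
      (2 : ℝ) ^ (-(2 * ε * m)) ≤ Ic lam m ((2 : ℝ) ^ (-(C₁ * m))) →
      ∃ f : ℤ[X], f ≠ 0 ∧ f.natDegree ≤ m ∧ Mah f ≤ 1 + ε₁ ∧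
        |Polynomial.aeval lam f| ≤ (2 : ℝ) ^ (-(C₁ * m / 2)) := by
  obtain ⟨k, hk, hL9, hexp⟩ := exists_k ε₁ h0
  have hk' : (1 : ℝ) ≤ k := by exact_mod_cast hk
  set T := √(Real.pi * k) with hTdef
  have hlog2 := Real.log_two_gt_d9
  have hlog2' := Real.log_two_lt_d9
  have hT1 : 1 ≤ T := by
    by_contra hc
    push Not at hc
    have := Real.log_nonpos (Real.sqrt_nonneg _) hc.le
    linarith
  have hT1' : 1 < T := by
    by_contra hc
    push Not at hc
    have := Real.log_nonpos (Real.sqrt_nonneg _) hc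
    linarith
  have hT0 : 0 < T := by linarith
  set L := Real.log T with hLdef
  refine ⟨ε₁ / (100 * k), by positivity, ?_, 4 * L / Real.log 2 + 4, ?_⟩
  · rw [div_le_one (by positivity)]
    linarith
  intro lam hl0 hl1 C₁ hC₁
  refine ⟨1, fun m hm hI => ?_⟩
  have hlam0 : 0 < lam := by linarith
  have hm' : (1 : ℝ) ≤ m := by exact_mod_cast hm
  set W : ℝ := T * 2 ^ (C₁ * m) with hW
  have hW0 : 0 < W := by positivity
  have hTW : (2 : ℝ) ^ (-(C₁ * m)) = T / W := by
    rw [hW, Real.rpow_neg (by norm_num)]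
    field_simp
  rw [hTW] at hI
  have hlogW : Real.log W = L + C₁ * m * Real.log 2 := by
    rw [hW, Real.log_mul hT0.ne' (by positivity), Real.log_rpow (by norm_num)]
  have hC₁L : 4 * L + 4 * Real.log 2 ≤ C₁ * Real.log 2 := by
    have h2 : 0 < Real.log 2 := by linarith
    have h3 := mul_le_mul_of_nonneg_right hC₁ h2.le
    have h4 : (4 * L / Real.log 2 + 4) * Real.log 2 = 4 * L + 4 * Real.log 2 := by
      field_simp
    linarith
  have hCm : (4 * L + 4 * Real.log 2) * m ≤ C₁ * m * Real.log 2 := by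
    nlinarith
  -- the canonical subspaces
  choose D hD1 hD2 hD3 hD4 using fun n => exists_max lam W T n
  have hDfin : ∀ n, Module.Finite ℚ (D n) := fun n => finite_of_le (hD1 n)
  have hgbot : gT lam W T ⊥ = 0 := by
    unfold gT
    rw [cov_bot, finrank_bot]
    simp
  have hg0 : ∀ n, 0 ≤ gT lam W T (D n) := by
    intro n
    rw [← hgbot]
    exact hD2 n ⊥ bot_le
  -- they are proper
  have hne : ∀ n, 0 < n → n ≤ m → D n ≠ degreeLT ℚ n := by
    intro n hn hnm he
    have e1 := hg0 n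
    rw [he] at e1
    unfold gT at e1
    rw [finrank_degreeLT] at e1
    have e2 : Real.log (W ^ 2) ≤ Real.log (cov lam W (degreeLT ℚ n)) :=
      Real.log_le_log (by positivity) (cov_degreeLT hn)
    rw [Real.log_pow, hlogW] at e2
    have hnm' : (n : ℝ) ≤ m := by exact_mod_cast hnm
    push_cast at e2
    have e3 : 2 * L * n ≤ 2 * L * m := by nlinarith
    nlinarith
  -- the deficiency
  have hη : 3 * Real.exp (-(Real.pi * T ^ 2)) ≤ ε₁ / 8 := by
    refine le_trans ?_ hexp
    have : Real.exp (-(Real.pi * T ^ 2)) ≤ Real.exp (-(2 * T ^ 2)) := by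
      apply Real.exp_le_exp.2
      have := Real.pi_gt_three
      nlinarith [sq_nonneg T]
    linarith
  have hdef : ∀ i, m ≤ 2 * i → i ≤ m → (3 : ℝ) / 4 * i ≤ Module.finrank ℚ (D i) := by
    intro i hmi him
    have hfr : (Module.finrank ℚ (D i) : ℝ) ≤ i := by exact_mod_cast finrank_le (hD1 i)
    have hB : 0 < T * (1 + 3 * Real.exp (-(Real.pi * T ^ 2))) := by positivity
    have hrho : rhoU lam W T (D i) ≤ (T * (1 + 3 * Real.exp (-(Real.pi * T ^ 2)))) ^
        Module.finrank ℚ (D i) := by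
      have := hDfin i
      refine (rho_upper hT0 (D i)).trans ?_
      refine pow_le_pow_left₀ (tsum_nonneg fun _ => (Real.exp_pos _).le) (theta_le hT1) _
    have e1 := core hlam0 hl1 hW0 hk hT1 hmi him h0 hI (hD1 i) (hD4 i) hB hrho
    rw [Real.log_mul hT0.ne' (by positivity)] at e1
    have e2 : Real.log (1 + 3 * Real.exp (-(Real.pi * T ^ 2))) ≤ ε₁ / 8 := by
      have := Real.log_le_sub_one_of_pos
        (by positivity : (0 : ℝ) < 1 + 3 * Real.exp (-(Real.pi * T ^ 2)))
      linarith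
    rw [← hTdef, ← hLdef] at e1
    have hi0 : (0 : ℝ) ≤ i := Nat.cast_nonneg i
    have hn0 : (0 : ℝ) ≤ Module.finrank ℚ (D i) := Nat.cast_nonneg _
    have e3 : (Module.finrank ℚ (D i) : ℝ) * Real.log (1 + 3 * Real.exp (-(Real.pi * T ^ 2))) ≤
        i * (1 / 8) := by
      calc (Module.finrank ℚ (D i) : ℝ) * Real.log (1 + 3 * Real.exp (-(Real.pi * T ^ 2)))
          ≤ Module.finrank ℚ (D i) * (1 / 8) := by
            apply mul_le_mul_of_nonneg_left _ hn0
            linarith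
        _ ≤ i * (1 / 8) := by linarith
    have e4 : ε₁ / 25 * Real.log 2 * i ≤ i * (1 / 25) := by
      have : ε₁ / 25 * Real.log 2 ≤ 1 / 25 := by nlinarith
      nlinarith
    have e5 : ((i : ℝ) - Module.finrank ℚ (D i)) * (L - 8) ≤ i * (1 / 8) + i * (1 / 25) := by
      nlinarith
    have e6 : ((i : ℝ) - Module.finrank ℚ (D i)) ≤
        ((i : ℝ) - Module.finrank ℚ (D i)) * (L - 8) := by
      nlinarith
    linarith
  -- the scale with an ideal
  obtain ⟨i, hi0, him, hDbot, f, hf, hDf⟩ := exists_ideal hlam0 hl1 hT1' m ((m + 1) / 2) D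
    (fun n => ⟨hD1 n, hD2 n, hD3 n⟩) hne (by
      have e1 := hdef ((m + 1) / 2) (by omega) (by omega)
      have e2 : (0 : ℝ) < ((m + 1) / 2 : ℕ) := by
        have : 0 < (m + 1) / 2 := by omega
        exact_mod_cast this
      have e3 : (0 : ℝ) < Module.finrank ℚ (D ((m + 1) / 2)) := by linarith
      have e4 : 0 < Module.finrank ℚ (D ((m + 1) / 2)) := by exact_mod_cast e3
      exact ⟨e4.ne', by omega⟩)
  have hf0 : f ≠ 0 := hf.ne_zero
  set n := Module.finrank ℚ (D i) with hn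
  have hi1 : 0 < i := by omega
  have hi1' : (0 : ℝ) < i := by exact_mod_cast hi1
  have hni : (3 : ℝ) / 4 * i ≤ n := hdef i (by omega) him.le
  have hn0' : (0 : ℝ) < n := by linarith
  have hn0 : 0 < n := by exact_mod_cast hn0'
  have hnle : n ≤ i := finrank_le (hD1 i)
  have hnle' : (n : ℝ) ≤ i := by exact_mod_cast hnle
  set M := Mah f with hM
  have hM1 : 1 ≤ M := Polynomial.one_le_mahlerMeasure_of_ne_zero hf0
  have hM0 : 0 < M := by linarith
  have hlogM : 0 ≤ Real.log M := Real.log_nonneg hM1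
  have hcovpos : 0 < cov lam W (D i) := by
    rw [hDf]
    exact lt_of_lt_of_le (by positivity) (cov_ideal hf n)
  have hcov : Real.log (cov lam W (D i)) ≤ 2 * L * n := by
    have := hg0 i
    unfold gT at this
    linarith
  have hML : Real.log M ≤ L := by
    have e1 : Real.log (M ^ (2 * n)) ≤ Real.log (cov lam W (D i)) := by
      apply Real.log_le_log (by positivity)
      rw [hDf]
      exact cov_ideal hf n
    rw [Real.log_pow] at e1
    push_cast at e1
    have e2 : 2 * (n : ℝ) * Real.log M ≤ 2 * L * n := e1.trans hcov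
    nlinarith
  have hMT : M ≤ T := (Real.log_le_log_iff hM0 hT0).1 hML
  refine ⟨f, hf0, ?_, ?_, ?_⟩
  · have := natDegree_lt_of_idU hf0 hn0 (i := i) (by rw [← hDf]; exact hD1 i)
    omega
  · -- the Mahler measure
    have hTM : 1 ≤ T / M := by rwa [one_le_div hM0]
    have hB : 0 < T / M * (1 + 3 * Real.exp (-(Real.pi * (T / M) ^ 2))) := by positivity
    have hrho : rhoU lam W T (D i) ≤ (T / M * (1 + 3 * Real.exp (-(Real.pi * (T / M) ^ 2)))) ^
        Module.finrank ℚ (D i) := by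
      conv_lhs => rw [hDf]
      refine (rho_ideal hT0 hf n).trans ?_
      refine pow_le_pow_left₀ (tsum_nonneg fun _ => (Real.exp_pos _).le) ?_ _
      refine le_trans (le_of_eq ?_) (theta_le hTM)
      congr 1
      ext j
      congr 2
      rw [← hM]
      field_simp
    have e1 := core hlam0 hl1 hW0 hk hT1 (by omega) him.le h0 hI (hD1 i) (hD4 i) hB hrho
    rw [Real.log_mul (by positivity) (by positivity), Real.log_div hT0.ne' hM0.ne',
      ← hTdef, ← hLdef, ← hn] at e1
    have e2 : Real.log (1 + 3 * Real.exp (-(Real.pi * (T / M) ^ 2))) ≤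
        3 * Real.exp (-(Real.pi * (T / M) ^ 2)) := by
      have := Real.log_le_sub_one_of_pos
        (by positivity : (0 : ℝ) < 1 + 3 * Real.exp (-(Real.pi * (T / M) ^ 2)))
      linarith
    -- `log M ≤ η' + ε₁ / 25`
    have e3 : Real.log M ≤ 3 * Real.exp (-(Real.pi * (T / M) ^ 2)) + ε₁ / 25 := by
      have e4 : ε₁ / 25 * Real.log 2 * i ≤ ε₁ / 25 * n := by
        have h5 : Real.log 2 * i ≤ n := by nlinarith
        have h6 : 0 < ε₁ / 25 := by positivity
        nlinarith
      have e5 : 0 ≤ ((i : ℝ) - n) * (L - 8) := by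
        apply mul_nonneg <;> linarith
      have e6 : (n : ℝ) * Real.log (1 + 3 * Real.exp (-(Real.pi * (T / M) ^ 2))) ≤
          n * (3 * Real.exp (-(Real.pi * (T / M) ^ 2))) := mul_le_mul_of_nonneg_left e2 hn0'.le
      have e7 : (n : ℝ) * Real.log M ≤
          n * (3 * Real.exp (-(Real.pi * (T / M) ^ 2)) + ε₁ / 25) := by
        nlinarith
      exact le_of_mul_le_mul_left e7 hn0'
    have hπ := Real.pi_gt_d2
    have hexp3 : Real.exp (-3) ≤ 1 / 20 := by
      have h5 : (20 : ℝ) ≤ Real.exp 3 := by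
        have h6 := Real.exp_one_gt_d9
        have h7 : Real.exp 3 = Real.exp 1 ^ 3 := by
          rw [← Real.exp_nat_mul]
          norm_num
        rw [h7]
        calc (20 : ℝ) ≤ 2.7182818283 ^ 3 := by norm_num
          _ ≤ Real.exp 1 ^ 3 := pow_le_pow_left₀ (by norm_num) h6.le 3
      rw [Real.exp_neg, ← one_div]
      exact one_div_le_one_div_of_le (by norm_num) h5
    have e8 : Real.log M ≤ 19 / 100 := by
      have h5 : Real.exp (-(Real.pi * (T / M) ^ 2)) ≤ Real.exp (-3) := by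
        apply Real.exp_le_exp.2
        have : 1 ≤ (T / M) ^ 2 := one_le_pow₀ hTM
        nlinarith
      linarith
    have e9 : M ≤ 5 / 4 := by
      have h5 : 81 / 100 ≤ M⁻¹ := by
        have h6 : M⁻¹ = Real.exp (-Real.log M) := by
          rw [Real.exp_neg, Real.exp_log hM0]
        rw [h6]
        have := Real.add_one_le_exp (-Real.log M)
        linarith
      have h7 : M * M⁻¹ = 1 := mul_inv_cancel₀ hM0.ne'
      nlinarith
    have e10 : 3 * Real.exp (-(Real.pi * (T / M) ^ 2)) ≤ ε₁ / 8 := by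
      refine le_trans ?_ hexp
      have h5 : Real.exp (-(Real.pi * (T / M) ^ 2)) ≤ Real.exp (-(2 * T ^ 2)) := by
        apply Real.exp_le_exp.2
        have h6 : 2 * T ^ 2 ≤ Real.pi * (T / M) ^ 2 := by
          rw [div_pow, ← mul_div_assoc, le_div_iff₀ (by positivity)]
          have h7 : M ^ 2 ≤ 25 / 16 := by nlinarith
          have h8 : 2 * M ^ 2 ≤ Real.pi := by linarith
          nlinarith [sq_nonneg T]
        linarith
      linarith
    have e11 : Real.log M ≤ ε₁ / 4 := by linarith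
    have e12 : M ≤ Real.exp (ε₁ / 4) := by
      rw [← Real.log_le_iff_le_exp hM0]
      exact e11
    refine e12.trans ?_
    -- `exp x ≤ 1 / (1 - x)`
    have h5 : 1 - ε₁ / 4 ≤ Real.exp (-(ε₁ / 4)) := by
      have := Real.add_one_le_exp (-(ε₁ / 4))
      linarith
    have h6 : Real.exp (ε₁ / 4) * Real.exp (-(ε₁ / 4)) = 1 := by
      rw [← Real.exp_add]
      simp
    have h7 := Real.exp_pos (ε₁ / 4)
    nlinarith
  · -- the value
    have e1 : (W * |Polynomial.aeval lam f|) ^ 2 ≤ (T ^ n) ^ 2 := by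
      have h5 : (W * Polynomial.aeval lam f) ^ 2 ≤ cov lam W (D i) := by
        rw [hDf]
        exact cov_ideal' hf hn0
      have h6 : cov lam W (D i) ≤ (T ^ n) ^ 2 := by
        rw [← Real.log_le_log_iff hcovpos (by positivity), ← pow_mul, Real.log_pow]
        push_cast
        linarith
      calc (W * |Polynomial.aeval lam f|) ^ 2 = (W * Polynomial.aeval lam f) ^ 2 := by
            rw [mul_pow W, sq_abs, ← mul_pow W]
        _ ≤ _ := h5.trans h6
    have e2 : W * |Polynomial.aeval lam f| ≤ T ^ n :=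
      (pow_le_pow_iff_left₀ (by positivity) (by positivity) two_ne_zero).1 e1
    have e3 : T ^ n ≤ W * (2 : ℝ) ^ (-(C₁ * m / 2)) := by
      rw [← Real.log_le_log_iff (by positivity) (by positivity), Real.log_pow,
        Real.log_mul hW0.ne' (by positivity), Real.log_rpow (by norm_num), hlogW, ← hLdef]
      have him' : (i : ℝ) ≤ m := by exact_mod_cast him.le
      have h5 : (n : ℝ) * L ≤ m * L := by nlinarith
      nlinarith
    exact le_of_mul_le_mul_left (e2.trans e3) hW0

end Pool.Agent.BCD
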