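import Pool.Agent.Work.MP_bc8e1e_an.D.H3cB

/-!
# Liouville type bound: algebraic parameters are not too well approximable
-/

set_option autoImplicit false

open Polynomial

namespace Pool.Agent.BCD

namespace Liou

/-- the sum of the absolute values of the coefficients -/
lemma sum_coeff_le (f : ℂ[X]) :
    ∑ i ∈ Finset.range (f.natDegree + 1), ‖f.coeff i‖ ≤ 2 ^ f.natDegree * f.mahlerMeasure := by
  calc ∑ i ∈ Finset.range (f.natDegree + 1), ‖f.coeff i‖
      ≤ ∑ i ∈ Finset.range (f.natDegree + 1), (f.natDegree.choose i : ℝ) * f.mahlerMeasure :=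
        Finset.sum_le_sum fun i _ => norm_coeff_le_choose_mul_mahlerMeasure i f
    _ = 2 ^ f.natDegree * f.mahlerMeasure := by
        rw [← Finset.sum_mul]
        congr 1
        exact_mod_cast Nat.sum_range_choose f.natDegree

lemma eval_le (f : ℂ[X]) (z : ℂ) :
    ‖f.eval z‖ ≤ 2 ^ f.natDegree * f.mahlerMeasure * max 1 ‖z‖ ^ f.natDegree := by
  rw [eval_eq_sum_range]
  calc ‖∑ i ∈ Finset.range (f.natDegree + 1), f.coeff i * z ^ i‖
      ≤ ∑ i ∈ Finset.range (f.natDegree + 1), ‖f.coeff i‖ * max 1 ‖z‖ ^ f.natDegree := by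
        refine (norm_sum_le _ _).trans (Finset.sum_le_sum fun i hi => ?_)
        rw [norm_mul, norm_pow]
        refine mul_le_mul_of_nonneg_left ?_ (norm_nonneg _)
        calc ‖z‖ ^ i ≤ max 1 ‖z‖ ^ i := pow_le_pow_left₀ (norm_nonneg _) (le_max_right _ _) i
          _ ≤ max 1 ‖z‖ ^ f.natDegree :=
            pow_le_pow_right₀ (le_max_left _ _) (by rw [Finset.mem_range] at hi; omega)
    _ = (∑ i ∈ Finset.range (f.natDegree + 1), ‖f.coeff i‖) * max 1 ‖z‖ ^ f.natDegree := by
        rw [Finset.sum_mul]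
    _ ≤ _ := mul_le_mul_of_nonneg_right (sum_coeff_le f) (by positivity)

/-- The resultant of two integer polynomials without common root, in terms of Mahler measures. -/
theorem resultant_bound {g f : ℤ[X]} (hres : resultant g f ≠ 0) {x : ℝ} (hx : |x| ≤ 1)
    (hg0 : g ≠ 0) (hgx : Polynomial.aeval x g = 0) :
    1 ≤ |Polynomial.aeval x f| * (2 ^ f.natDegree * Mah f) ^ (g.natDegree - 1) *
      Mah g ^ f.natDegree := by
  set φ := Int.castRingHom ℂ with hφ
  have hinj : Function.Injective φ := RingHom.injective_int _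
  set G := g.map φ with hG
  set F := f.map φ with hF
  have hGdeg : G.natDegree = g.natDegree := natDegree_map_eq_of_injective hinj _
  have hFdeg : F.natDegree = f.natDegree := natDegree_map_eq_of_injective hinj _
  have hG0 : G ≠ 0 := (Polynomial.map_ne_zero_iff hinj).2 hg0
  have hev : ∀ p : ℤ[X], (p.map φ).eval (x : ℂ) = ((Polynomial.aeval x p : ℝ) : ℂ) := by
    intro p
    rw [eval_map, Polynomial.aeval_def, ← Complex.ofRealHom_eq_coe (eval₂ _ _ _),
      Polynomial.hom_eval₂]
    congr 1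
  have hroot : (x : ℂ) ∈ G.roots := by
    rw [mem_roots hG0, IsRoot.def, hG, hev, hgx, Complex.ofReal_zero]
  have h1 : (1 : ℝ) ≤ ‖resultant G F G.natDegree F.natDegree‖ := by
    rw [hG, hF, resultant_map_map, ← hG, ← hF, hGdeg, hFdeg]
    have h2 : φ (resultant g f g.natDegree f.natDegree) = ((resultant g f : ℤ) : ℂ) := rfl
    rw [h2, Complex.norm_intCast]
    exact_mod_cast Int.one_le_abs hres
  rw [resultant_eq_prod_eval G F F.natDegree le_rfl (IsAlgClosed.splits G)] at h1
  set B : ℝ := 2 ^ f.natDegree * Mah f with hB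
  have hMf : 0 ≤ Mah f := mahlerMeasure_nonneg _
  have hB0 : 0 ≤ B := by positivity
  have hbd : ∀ z : ℂ, ‖F.eval z‖ ≤ B * max 1 ‖z‖ ^ f.natDegree := by
    intro z
    have := eval_le F z
    rw [hFdeg] at this
    exact this
  obtain ⟨s, hs⟩ := Multiset.exists_cons_of_mem hroot
  have hcard : Multiset.card s = g.natDegree - 1 := by
    have h2 : Multiset.card G.roots = g.natDegree := by
      rw [← hGdeg]
      exact (IsAlgClosed.splits G).natDegree_eq_card_roots.symm
    rw [hs, Multiset.card_cons] at h2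
    omega
  have hprod : ∀ t : Multiset ℂ, ‖(t.map F.eval).prod‖ = (t.map fun z => ‖F.eval z‖).prod := by
    intro t
    induction t using Multiset.induction_on with
    | empty => simp
    | cons a t ih => rw [Multiset.map_cons, Multiset.prod_cons, norm_mul, ih, Multiset.map_cons,
        Multiset.prod_cons]
  have hpow : ∀ t : Multiset ℂ, (t.map fun z => B * max 1 ‖z‖ ^ f.natDegree).prod =
      B ^ Multiset.card t * (t.map fun z => max 1 ‖z‖).prod ^ f.natDegree := by
    intro t
    induction t using Multiset.induction_on with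
    | empty => simp
    | cons a t ih =>
      rw [Multiset.map_cons, Multiset.prod_cons, ih, Multiset.map_cons, Multiset.prod_cons,
        Multiset.card_cons, mul_pow, pow_succ]
      ring
  have hMg : Mah g = ‖G.leadingCoeff‖ * (s.map fun z => max 1 ‖z‖).prod := by
    have h2 := mahlerMeasure_eq_leadingCoeff_mul_prod_roots G
    rw [hs, Multiset.map_cons, Multiset.prod_cons] at h2
    have h3 : max 1 ‖(x : ℂ)‖ = 1 := by
      rw [Complex.norm_real, Real.norm_eq_abs]
      exact max_eq_left hx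
    rw [h3, one_mul] at h2
    exact h2
  rw [norm_mul, norm_pow, hs, Multiset.map_cons, Multiset.prod_cons, norm_mul, hprod, hFdeg] at h1
  have h4 : ‖F.eval (x : ℂ)‖ = |Polynomial.aeval x f| := by
    rw [hF, hev, Complex.norm_real, Real.norm_eq_abs]
  have h5 : (s.map fun z => ‖F.eval z‖).prod ≤
      (s.map fun z => B * max 1 ‖z‖ ^ f.natDegree).prod :=
    Multiset.prod_map_le_prod_map₀ _ _ (fun z _ => norm_nonneg _) (fun z _ => hbd z)
  rw [hpow, hcard] at h5
  rw [h4] at h1
  calc (1 : ℝ) ≤ ‖G.leadingCoeff‖ ^ f.natDegree *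
        (|Polynomial.aeval x f| * (s.map fun z => ‖F.eval z‖).prod) := h1
    _ ≤ ‖G.leadingCoeff‖ ^ f.natDegree *
        (|Polynomial.aeval x f| * (B ^ (g.natDegree - 1) *
          (s.map fun z => max 1 ‖z‖).prod ^ f.natDegree)) := by
        refine mul_le_mul_of_nonneg_left ?_ (by positivity)
        exact mul_le_mul_of_nonneg_left h5 (abs_nonneg _)
    _ = _ := by
        rw [hMg, mul_pow]
        ring

/-- Mahler measures of factors. -/
lemma Mah_dvd {g f : ℤ[X]} (hf : f ≠ 0) (h : g ∣ f) : Mah g ≤ Mah f := by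
  obtain ⟨q, rfl⟩ := h
  have hq : q ≠ 0 := right_ne_zero_of_mul hf
  have h1 : Mah (g * q) = Mah g * Mah q := by
    unfold Mah
    rw [Polynomial.map_mul, mahlerMeasure_mul]
  rw [h1]
  have h2 := H3c.one_le_Mah hq
  have h3 : 0 ≤ Mah g := mahlerMeasure_nonneg _
  nlinarith

lemma resultant_ne {g f : ℤ[X]} (hg : Irreducible g) (hdeg : 0 < g.natDegree) (hf : f ≠ 0)
    (h : ¬ g ∣ f) : resultant g f ≠ 0 := by
  have hprim : g.IsPrimitive := hg.isPrimitive hdeg.ne'
  set ψ := Int.castRingHom ℚ with hψ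
  have hinj : Function.Injective ψ := RingHom.injective_int _
  have h1 : Irreducible (g.map ψ) := (IsPrimitive.Int.irreducible_iff_irreducible_map_cast hprim).1 hg
  have h2 : ¬ g.map ψ ∣ f.map ψ := by
    intro hd
    exact h ((IsPrimitive.Int.dvd_iff_map_cast_dvd_map_cast g f hprim).2 hd)
  have h3 : IsCoprime (g.map ψ) (f.map ψ) := (h1.coprime_iff_not_dvd).2 h2
  intro h4
  have h5 : resultant (g.map ψ) (f.map ψ) = 0 := by
    rw [natDegree_map_eq_of_injective hinj, natDegree_map_eq_of_injective hinj,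
      resultant_map_map, h4, map_zero]
  rw [resultant_eq_zero_iff] at h5
  exact h5.2 h3

/-- value near a root -/
lemma val_le {f : ℤ[X]} {l : ℝ} (hl0 : 0 < l) {η : ℂ} (hη : (f.map (Int.castRingHom ℂ)).eval η = 0)
    {D : ℕ} (hD : f.natDegree ≤ D) (hclose : ‖(l : ℂ) - η‖ ≤ 1 - l) :
    |Polynomial.aeval l f| ≤ ‖(l : ℂ) - η‖ * D * (2 ^ D * Mah f) := by
  set φ := Int.castRingHom ℂ with hφ
  have hinj : Function.Injective φ := RingHom.injective_int _
  set F := f.map φ with hF
  have hFdeg : F.natDegree = f.natDegree := natDegree_map_eq_of_injective hinj _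
  have hl1 : ‖(l : ℂ)‖ ≤ 1 := by
    rw [Complex.norm_real, Real.norm_of_nonneg hl0.le]
    have := norm_nonneg ((l : ℂ) - η)
    linarith
  have hη1 : ‖η‖ ≤ 1 := by
    have h1 : η = (l : ℂ) - ((l : ℂ) - η) := by ring
    rw [h1]
    refine (norm_sub_le _ _).trans ?_
    rw [Complex.norm_real, Real.norm_of_nonneg hl0.le]
    linarith
  have hev : F.eval (l : ℂ) = ((Polynomial.aeval l f : ℝ) : ℂ) := by
    rw [hF, eval_map, Polynomial.aeval_def, ← Complex.ofRealHom_eq_coe (eval₂ _ _ _),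
      Polynomial.hom_eval₂]
    congr 1
  have hpow : ∀ i : ℕ, ‖(l : ℂ) ^ i - η ^ i‖ ≤ i * ‖(l : ℂ) - η‖ := by
    intro i
    induction i with
    | zero => simp
    | succ i ih =>
      have h1 : (l : ℂ) ^ (i + 1) - η ^ (i + 1) =
          (l : ℂ) * ((l : ℂ) ^ i - η ^ i) + ((l : ℂ) - η) * η ^ i := by ring
      rw [h1]
      refine (norm_add_le _ _).trans ?_
      rw [norm_mul, norm_mul, norm_pow]
      have h2 : ‖(l : ℂ)‖ * ‖(l : ℂ) ^ i - η ^ i‖ ≤ 1 * (i * ‖(l : ℂ) - η‖) :=
        mul_le_mul hl1 ih (norm_nonneg _) zero_le_one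
      have h3 : ‖(l : ℂ) - η‖ * ‖η‖ ^ i ≤ ‖(l : ℂ) - η‖ * 1 :=
        mul_le_mul_of_nonneg_left (pow_le_one₀ (norm_nonneg _) hη1) (norm_nonneg _)
      push_cast
      linarith
  have h1 : F.eval (l : ℂ) = ∑ i ∈ Finset.range (F.natDegree + 1),
      F.coeff i * ((l : ℂ) ^ i - η ^ i) := by
    have h2 : F.eval (l : ℂ) - F.eval η = ∑ i ∈ Finset.range (F.natDegree + 1),
        F.coeff i * ((l : ℂ) ^ i - η ^ i) := by
      rw [eval_eq_sum_range, eval_eq_sum_range, ← Finset.sum_sub_distrib]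
      exact Finset.sum_congr rfl fun i _ => by ring
    rw [← h2, hη, sub_zero]
  have hMf : 0 ≤ Mah f := mahlerMeasure_nonneg _
  have h2 : |Polynomial.aeval l f| = ‖F.eval (l : ℂ)‖ := by
    rw [hev, Complex.norm_real, Real.norm_eq_abs]
  rw [h2, h1]
  calc ‖∑ i ∈ Finset.range (F.natDegree + 1), F.coeff i * ((l : ℂ) ^ i - η ^ i)‖
      ≤ ∑ i ∈ Finset.range (F.natDegree + 1), ‖F.coeff i‖ * (D * ‖(l : ℂ) - η‖) := by
        refine (norm_sum_le _ _).trans (Finset.sum_le_sum fun i hi => ?_)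
        rw [norm_mul]
        refine mul_le_mul_of_nonneg_left ((hpow i).trans ?_) (norm_nonneg _)
        refine mul_le_mul_of_nonneg_right ?_ (norm_nonneg _)
        rw [Finset.mem_range] at hi
        exact_mod_cast (by omega : i ≤ D)
    _ = (∑ i ∈ Finset.range (F.natDegree + 1), ‖F.coeff i‖) * (D * ‖(l : ℂ) - η‖) := by
        rw [Finset.sum_mul]
    _ ≤ (2 ^ F.natDegree * F.mahlerMeasure) * (D * ‖(l : ℂ) - η‖) :=
        mul_le_mul_of_nonneg_right (sum_coeff_le F) (by positivity)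
    _ ≤ (2 ^ D * Mah f) * (D * ‖(l : ℂ) - η‖) := by
        refine mul_le_mul_of_nonneg_right ?_ (by positivity)
        refine mul_le_mul_of_nonneg_right ?_ hMf
        exact pow_le_pow_right₀ (by norm_num) (by rw [hFdeg]; exact hD)
    _ = _ := by ring

/-- **Algebraic parameters of Mahler measure above `1 + ε` are not approximable.** -/
theorem no_approx {l : ℝ} (h0 : 0 < l) (h1 : l < 1) {g : ℤ[X]} (hg : Irreducible g)
    (hgl : Polynomial.aeval l g = 0) {ε₁ : ℝ} (hε1 : ε₁ ≤ 1) (hM : 1 + ε₁ < Mah g) {K : ℝ}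
    (hK : (g.natDegree : ℝ) + Real.log (Mah g) ≤ K)
    (happ : ∀ D₀ : ℕ, ∃ D : ℕ, D₀ ≤ D ∧ ∃ f : ℤ[X], f ≠ 0 ∧ f.natDegree ≤ D ∧
      Mah f ≤ 1 + ε₁ ∧ ∃ η : ℂ, (f.map (Int.castRingHom ℂ)).eval η = 0 ∧
        ‖(l : ℂ) - η‖ ≤ Real.exp (-(D * K))) : False := by
  have hg0 : g ≠ 0 := hg.ne_zero
  have hdeg : 0 < g.natDegree := by
    rcases Nat.eq_zero_or_pos g.natDegree with h | h
    · exfalso
      rw [natDegree_eq_zero] at h
      obtain ⟨a, rfl⟩ := h
      rw [aeval_C] at hgl
      have : a = 0 := by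
        have h2 : ((a : ℤ) : ℝ) = 0 := hgl
        exact_mod_cast h2
      rw [this, C_0] at hg0
      exact hg0 rfl
    · exact h
  have hMg1 := H3c.one_le_Mah hg0
  have hd1 : (1 : ℝ) ≤ g.natDegree := by exact_mod_cast hdeg
  have hlogM : 0 ≤ Real.log (Mah g) := Real.log_nonneg hMg1
  have hK1 : 1 ≤ K := by linarith
  have hl2 : 0 < 1 - l := by linarith
  obtain ⟨N, hN⟩ := exists_nat_ge (Real.log (1 / (1 - l)))
  obtain ⟨D, hD, f, hf0, hfD, hfM, η, hη, hdist⟩ := happ (max N 30)
  have hDN : N ≤ D := (le_max_left _ _).trans hD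
  have hD30 : 30 ≤ D := (le_max_right _ _).trans hD
  have hDr : (30 : ℝ) ≤ D := by exact_mod_cast hD30
  have hDN' : (N : ℝ) ≤ D := by exact_mod_cast hDN
  have hclose : ‖(l : ℂ) - η‖ ≤ 1 - l := by
    refine hdist.trans ?_
    rw [← Real.exp_log hl2]
    apply Real.exp_le_exp.2
    have h3 : Real.log (1 / (1 - l)) = -Real.log (1 - l) := by
      rw [Real.log_div one_ne_zero hl2.ne', Real.log_one, zero_sub]
    have h4 : (D : ℝ) ≤ D * K := by nlinarith
    rw [h3] at hN
    linarith
  have hndvd : ¬ g ∣ f := fun h => by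
    have := Mah_dvd hf0 h
    linarith
  have hres := resultant_ne hg hdeg hf0 hndvd
  have hb := resultant_bound hres (x := l) (by rw [abs_of_pos h0]; exact h1.le) hg0 hgl
  have hv := val_le h0 hη hfD hclose
  have hMf : 0 ≤ Mah f := mahlerMeasure_nonneg _
  have hMf1 := H3c.one_le_Mah hf0
  set d := g.natDegree with hd
  set A : ℝ := 2 ^ D * Mah f with hA
  have hA1 : 1 ≤ A := by
    have : (1 : ℝ) ≤ 2 ^ D := one_le_pow₀ (by norm_num)
    nlinarith
  have e1 : (2 ^ f.natDegree * Mah f) ^ (d - 1) ≤ A ^ (d - 1) := by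
    refine pow_le_pow_left₀ (by positivity) ?_ _
    exact mul_le_mul_of_nonneg_right (pow_le_pow_right₀ (by norm_num) hfD) hMf
  have e2 : Mah g ^ f.natDegree ≤ Mah g ^ D := pow_le_pow_right₀ hMg1 hfD
  have hbig : (1 : ℝ) ≤ Real.exp (-(D * K)) * D * A ^ d * Mah g ^ D := by
    calc (1 : ℝ) ≤ |Polynomial.aeval l f| * (2 ^ f.natDegree * Mah f) ^ (d - 1) *
          Mah g ^ f.natDegree := hb
      _ ≤ (‖(l : ℂ) - η‖ * D * A) * A ^ (d - 1) * Mah g ^ D := by
          refine mul_le_mul (mul_le_mul hv e1 (by positivity) (by positivity)) e2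
            (by positivity) (by positivity)
      _ ≤ (Real.exp (-(D * K)) * D * A) * A ^ (d - 1) * Mah g ^ D := by
          gcongr
      _ = Real.exp (-(D * K)) * D * (A ^ (d - 1) * A) * Mah g ^ D := by ring
      _ = _ := by rw [← pow_succ, Nat.sub_add_cancel hdeg]
  have hlog := Real.log_le_log one_pos hbig
  have hDpos : (0 : ℝ) < D := by linarith
  have hApos : 0 < A := by linarith
  have hMgpos : 0 < Mah g := by linarith
  rw [Real.log_one, Real.log_mul (by positivity) (by positivity),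
    Real.log_mul (by positivity) (by positivity), Real.log_mul (by positivity) (by positivity),
    Real.log_exp, Real.log_pow, Real.log_pow] at hlog
  have hlogA : Real.log A ≤ D * Real.log 2 + Real.log 2 := by
    rw [hA, Real.log_mul (by positivity) (by positivity), Real.log_pow]
    have : Real.log (Mah f) ≤ Real.log 2 := Real.log_le_log (by linarith) (by linarith)
    linarith
  have hl2' : Real.log 2 < 0.6931471808 := Real.log_two_lt_d9
  have hlogD : Real.log D ≤ D / 10 + 1.31 := by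
    have h3 := Real.log_le_sub_one_of_pos (show (0 : ℝ) < D / 10 by positivity)
    rw [Real.log_div (by positivity) (by norm_num)] at h3
    have h4 : Real.log 10 ≤ 2.31 := by
      rw [Real.log_le_iff_le_exp (by norm_num)]
      have h5 : Real.exp 2.31 = Real.exp 1 ^ 2 * Real.exp 0.31 := by
        rw [← Real.exp_nat_mul, ← Real.exp_add]; norm_num
      have h6 := Real.exp_one_gt_d9
      have h7 := Real.add_one_le_exp (0.31 : ℝ)
      have h8 : (0.31 : ℝ) + 1 + 0.31 ^ 2 / 2 ≤ Real.exp 0.31 := by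
        have := Real.quadratic_le_exp_of_nonneg (show (0 : ℝ) ≤ 0.31 by norm_num)
        linarith
      rw [h5]
      nlinarith
    linarith
  have hd0 : (0 : ℝ) ≤ d := by linarith
  have hdA : (d : ℝ) * Real.log A ≤ d * (D * Real.log 2 + Real.log 2) :=
    mul_le_mul_of_nonneg_left hlogA hd0
  have hDK : (D : ℝ) * (d + Real.log (Mah g)) ≤ D * K :=
    mul_le_mul_of_nonneg_left hK hDpos.le
  have hkey : (d : ℝ) * D * (1 - Real.log 2) ≤ D / 10 + 1.31 + d * Real.log 2 := by
    nlinarith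
  have h9 : (D : ℝ) / 10 + 1.31 ≤ d * (D / 10 + 1.31) := by nlinarith
  have h10 : (d : ℝ) * (D * (1 - Real.log 2)) ≤ d * (D / 10 + 1.31 + Real.log 2) := by
    nlinarith
  have h11 : (D : ℝ) * (1 - Real.log 2) ≤ D / 10 + 1.31 + Real.log 2 :=
    le_of_mul_le_mul_left h10 (by linarith)
  nlinarith

end Liou

end Pool.Agent.BCD
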