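import Pool.Agent.Work.MP_bc8e1e_an.D.Defs

/-!
# Mahler measure of an integer polynomial
-/

set_option autoImplicit false

open Polynomial

namespace Pool.Agent.BCD

/-- `M(f)` for an integer polynomial. -/
noncomputable def Mah (f : ℤ[X]) : ℝ := (f.map (Int.castRingHom ℂ)).mahlerMeasure

end Pool.Agent.BCD
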