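import Pool.Agent.Work.MP_bc8e1e_an.D.R1a

/-!
# R1: the inequality of Regev and Stephens-Davidowitz
-/

set_option autoImplicit false

open MeasureTheory ProbabilityTheory Polynomial
open scoped RealInnerProductSpace

namespace Pool.Agent.BCD

variable {E : Type*} [NormedAddCommGroup E] [InnerProductSpace ℝ E]
  {L : AddSubgroup E} {s : ℝ}

namespace R1

/-- Cauchy-Schwarz for infinite sums -/
theorem tsum_mul_sq_le {ι : Type*} {f g : ι → ℝ} (hf0 : ∀ i, 0 ≤ f i) (hg0 : ∀ i, 0 ≤ g i)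
    (hf : Summable fun i => f i * f i) (hg : Summable fun i => g i * g i) :
    (∑' i, f i * g i) ^ 2 ≤ (∑' i, f i * f i) * ∑' i, g i * g i := by
  have hF : 0 ≤ ∑' i, f i * f i := tsum_nonneg fun i => mul_self_nonneg _
  have hG : 0 ≤ ∑' i, g i * g i := tsum_nonneg fun i => mul_self_nonneg _
  have h1 : ∀ S : Finset ι, ∑ i ∈ S, f i * g i ≤ √((∑' i, f i * f i) * ∑' i, g i * g i) := by
    intro S
    apply Real.le_sqrt_of_sq_le
    refine (Finset.sum_mul_sq_le_sq_mul_sq S f g).trans ?_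
    have e1 : ∑ i ∈ S, f i ^ 2 ≤ ∑' i, f i * f i := by
      simp only [sq]
      exact hf.sum_le_tsum S fun i _ => mul_self_nonneg _
    have e2 : ∑ i ∈ S, g i ^ 2 ≤ ∑' i, g i * g i := by
      simp only [sq]
      exact hg.sum_le_tsum S fun i _ => mul_self_nonneg _
    exact mul_le_mul e1 e2 (Finset.sum_nonneg fun i _ => sq_nonneg _) hF
  have h2 : ∑' i, f i * g i ≤ √((∑' i, f i * f i) * ∑' i, g i * g i) :=
    Real.tsum_le_of_sum_le (fun i => mul_nonneg (hf0 i) (hg0 i)) h1
  have h3 : 0 ≤ ∑' i, f i * g i := tsum_nonneg fun i => mul_nonneg (hf0 i) (hg0 i)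
  calc (∑' i, f i * g i) ^ 2 ≤ √((∑' i, f i * f i) * ∑' i, g i * g i) ^ 2 :=
        pow_le_pow_left₀ h3 h2 2
    _ = _ := Real.sq_sqrt (mul_nonneg hF hG)

/-- the subgroup `2 L` of `L` -/
def two (L : AddSubgroup E) : AddSubgroup L := (nsmulAddMonoidHom (α := L) 2).range

omit [InnerProductSpace ℝ E] in
theorem two_smul_mem (k : L) : k + k ∈ two L := ⟨k, by simp [two_nsmul]⟩

omit [InnerProductSpace ℝ E] in
theorem exists_of_mem {x : L} (h : x ∈ two L) : ∃ k : L, x = k + k := by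
  obtain ⟨k, hk⟩ := h
  exact ⟨k, by rw [← hk]; simp [two_nsmul]⟩

theorem add_self_inj {k k' : L} (h : k + k = k' + k') : k = k' := by
  have h1 : (k : E) + k = k' + k' := by exact_mod_cast congrArg (fun x : L => (x : E)) h
  have h2 : (2 : ℝ) • (k : E) = (2 : ℝ) • (k' : E) := by rw [two_smul, two_smul, h1]
  exact Subtype.ext (smul_right_injective E (two_ne_zero) h2)

/-- the sum and the difference of two lattice vectors are in the same class modulo `2 L` -/
noncomputable def eqv (L : AddSubgroup E) : (L ⧸ two L) × (L × L) ≃ L × L :=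
  Equiv.ofBijective (fun p => ((p.1.out : L) + p.2.1 + p.2.2, p.2.1 - p.2.2)) (by
    constructor
    · rintro ⟨c, k, l⟩ ⟨c', k', l'⟩ h
      simp only [Prod.mk.injEq] at h
      obtain ⟨h1, h2⟩ := h
      have h3 : (c.out : L) + (k + k) = c'.out + (k' + k') := by
        calc (c.out : L) + (k + k) = (c.out + k + l) + (k - l) := by abel
          _ = (c'.out + k' + l') + (k' - l') := by rw [h1, h2]
          _ = _ := by abel
      have h4 : c = c' := by
        have e1 : ((c.out : L) : L ⧸ two L) = c := Quotient.out_eq' c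
        have e2 : ((c'.out : L) : L ⧸ two L) = c' := Quotient.out_eq' c'
        rw [← e1, ← e2, QuotientAddGroup.eq]
        have e3 : -(c.out : L) + c'.out = (k - k') + (k - k') := by
          have : (c'.out : L) = c.out + (k + k) - (k' + k') := by rw [h3]; abel
          rw [this]
          abel
        rw [e3]
        exact two_smul_mem _
      subst h4
      have h5 : k = k' := add_self_inj (add_left_cancel h3)
      subst h5
      have h6 : l = l' := by
        have := sub_right_injective h2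
        exact this
      rw [h6]
    · rintro ⟨y, y'⟩
      set c : L ⧸ two L := ((y + y' : L) : L ⧸ two L) with hc
      have e1 : ((c.out : L) : L ⧸ two L) = ((y + y' : L) : L ⧸ two L) := Quotient.out_eq' c
      rw [QuotientAddGroup.eq] at e1
      obtain ⟨k, hk⟩ := exists_of_mem e1
      refine ⟨(c, (k, k - y')), ?_⟩
      have h2 : y = c.out + (k + k) - y' := by
        rw [← hk]
        abel
      simp only [Prod.mk.injEq]
      constructor
      · rw [h2]
        abel
      · abel)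

theorem eqv_apply (c : L ⧸ two L) (k l : L) :
    eqv L (c, (k, l)) = ((c.out : L) + k + l, k - l) := rfl

theorem exp_identity (s : ℝ) (r k l x x' : E) :
    Real.exp (-(‖s • (r + k + l) - x‖ ^ 2 / 2)) * Real.exp (-(‖s • (k - l) - x'‖ ^ 2 / 2)) =
      Real.exp (-(‖(√2 * s) • k - (√2)⁻¹ • (x + x' - s • r)‖ ^ 2 / 2)) *
        Real.exp (-(‖(√2 * s) • l - (√2)⁻¹ • (x - x' - s • r)‖ ^ 2 / 2)) := by
  rw [← Real.exp_add, ← Real.exp_add]
  congr 1
  set P := (√2 * s) • k - (√2)⁻¹ • (x + x' - s • r) with hP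
  set Q := (√2 * s) • l - (√2)⁻¹ • (x - x' - s • r) with hQ
  have h2 : √2 * √2 = 2 := Real.mul_self_sqrt (by norm_num)
  have h0 : √2 ≠ 0 := by positivity
  have hi : (√2)⁻¹ * √2 = 1 := inv_mul_cancel₀ h0
  have hii : (√2)⁻¹ * (√2)⁻¹ = 1 / 2 := by
    rw [← mul_inv, h2]
    norm_num
  have h3 : s • (r + k + l) - x = (√2)⁻¹ • (P + Q) := by
    have e : (√2)⁻¹ • (P + Q) = ((√2)⁻¹ * √2 * s) • k + ((√2)⁻¹ * √2 * s) • l -
        ((√2)⁻¹ * (√2)⁻¹) • (x + x' - s • r) - ((√2)⁻¹ * (√2)⁻¹) • (x - x' - s • r) := by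
      rw [hP, hQ]
      module
    rw [e, hi, hii]
    module
  have h4 : s • (k - l) - x' = (√2)⁻¹ • (P - Q) := by
    have e : (√2)⁻¹ • (P - Q) = ((√2)⁻¹ * √2 * s) • k - ((√2)⁻¹ * √2 * s) • l -
        ((√2)⁻¹ * (√2)⁻¹) • (x + x' - s • r) + ((√2)⁻¹ * (√2)⁻¹) • (x - x' - s • r) := by
      rw [hP, hQ]
      module
    rw [e, hi, hii]
    module
  have h5 := parallelogram_law_with_norm ℝ P Q
  rw [h3, h4, norm_smul, norm_smul, mul_pow, mul_pow, norm_inv, Real.norm_eq_abs,
    abs_of_pos (by positivity : (0 : ℝ) < √2), inv_pow, Real.sq_sqrt (by norm_num)]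
  nlinarith

/-- the sum over one class modulo `2 L` -/
noncomputable def th (L : AddSubgroup E) (s : ℝ) (c : L ⧸ two L) (u : E) : ℝ :=
  Th L (√2 * s) ((√2)⁻¹ • (u - s • ((c.out : L) : E)))

theorem key (hL : Lat L) (hs : 0 < s) (x x' : E) :
    (Summable fun c : L ⧸ two L => th L s c (x + x') * th L s c (x - x')) ∧
    ∑' c : L ⧸ two L, th L s c (x + x') * th L s c (x - x') = Th L s x * Th L s x' := by
  have hs2 : 0 < √2 * s := by positivity
  set f : L → ℝ := fun y => Real.exp (-(‖s • (y : E) - x‖ ^ 2 / 2)) with hf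
  set g : L → ℝ := fun y => Real.exp (-(‖s • (y : E) - x'‖ ^ 2 / 2)) with hg
  have hfs : Summable f := Th_summable hL hs x
  have hgs : Summable g := Th_summable hL hs x'
  have hfg : Summable fun p : L × L => f p.1 * g p.2 :=
    hfs.mul_of_nonneg hgs (fun _ => (Real.exp_pos _).le) (fun _ => (Real.exp_pos _).le)
  have h1 : Th L s x * Th L s x' = ∑' p : L × L, f p.1 * g p.2 :=
    hfs.tsum_mul_tsum hgs hfg
  -- the classes
  set F : (L ⧸ two L) → L → ℝ := fun c k =>
    Real.exp (-(‖(√2 * s) • (k : E) - (√2)⁻¹ • (x + x' - s • ((c.out : L) : E))‖ ^ 2 / 2)) with hF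
  set G : (L ⧸ two L) → L → ℝ := fun c k =>
    Real.exp (-(‖(√2 * s) • (k : E) - (√2)⁻¹ • (x - x' - s • ((c.out : L) : E))‖ ^ 2 / 2)) with hG
  have h2 : ∀ q : (L ⧸ two L) × (L × L),
      f (eqv L q).1 * g (eqv L q).2 = F q.1 q.2.1 * G q.1 q.2.2 := by
    rintro ⟨c, k, l⟩
    rw [eqv_apply]
    have := exp_identity s ((c.out : L) : E) (k : E) (l : E) x x'
    simpa [hf, hg, hF, hG] using this
  have h3 : Summable fun q : (L ⧸ two L) × (L × L) => F q.1 q.2.1 * G q.1 q.2.2 := by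
    have := (eqv L).summable_iff.2 hfg
    refine this.congr fun q => ?_
    exact h2 q
  have hFs : ∀ c, Summable (F c) := fun c => Th_summable hL hs2 _
  have hGs : ∀ c, Summable (G c) := fun c => Th_summable hL hs2 _
  have h4 : ∀ c : L ⧸ two L, ∑' p : L × L, F c p.1 * G c p.2 =
      th L s c (x + x') * th L s c (x - x') := by
    intro c
    have h5 : Summable fun p : L × L => F c p.1 * G c p.2 :=
      (hFs c).mul_of_nonneg (hGs c) (fun _ => (Real.exp_pos _).le) (fun _ => (Real.exp_pos _).le)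
    exact ((hFs c).tsum_mul_tsum (hGs c) h5).symm
  constructor
  · have := h3.prod
    refine this.congr fun c => ?_
    exact h4 c
  · rw [h1, ← (eqv L).tsum_eq fun p : L × L => f p.1 * g p.2]
    simp only [h2]
    rw [h3.tsum_prod]
    exact tsum_congr fun c => (h4 c).symm

theorem th_nonneg (hL : Lat L) (hs : 0 < s) (c : L ⧸ two L) (u : E) : 0 ≤ th L s c u :=
  (Th_pos hL (by positivity) _).le

theorem key_sq (hL : Lat L) (hs : 0 < s) (u : E) :
    (Summable fun c : L ⧸ two L => th L s c u * th L s c u) ∧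
    ∑' c : L ⧸ two L, th L s c u * th L s c u = Th L s u * Th L s 0 := by
  have := key hL hs u 0
  simpa using this

end R1

open R1

theorem rsd (hL : Lat L) (hs : 0 < s) (x y : E) :
    (Th L s x * Th L s y) ^ 2 ≤ Th L s 0 ^ 2 * (Th L s (x + y) * Th L s (x - y)) := by
  have h1 := (key hL hs x y).2
  obtain ⟨h2, h3⟩ := key_sq hL hs (x + y)
  obtain ⟨h4, h5⟩ := key_sq hL hs (x - y)
  have h6 := tsum_mul_sq_le (fun c => th_nonneg hL hs c (x + y))
    (fun c => th_nonneg hL hs c (x - y)) h2 h4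
  rw [h1, h3, h5] at h6
  calc _ ≤ _ := h6
    _ = _ := by ring

theorem Th_le_zero (hL : Lat L) (hs : 0 < s) (x : E) : Th L s x ≤ Th L s 0 := by
  have h0 : 0 < Th L s 0 := Th_pos hL hs 0
  -- boundedness
  obtain ⟨R, hR⟩ := hL.cov
  set B := Real.exp ((s * R) ^ 2 / 2) * ∑' y : L, Real.exp (-(s ^ 2 / 4 * ‖(y : E)‖ ^ 2)) with hB
  have hbd : ∀ z, Th L s z ≤ B := by
    intro z
    obtain ⟨y, hy, hzy⟩ := hR (s⁻¹ • z)
    have h1 : Th L s z = Th L s (z - s • y) := by
      have := Th_add (L := L) (s := s) (z - s • y) hy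
      rw [sub_add_cancel] at this
      exact this
    have h2 : ‖z - s • y‖ ≤ s * R := by
      have h3 : z - s • y = s • (s⁻¹ • z - y) := by
        rw [smul_sub, smul_smul, mul_inv_cancel₀ hs.ne', one_smul]
      rw [h3, norm_smul, Real.norm_eq_abs, abs_of_pos hs]
      exact mul_le_mul_of_nonneg_left hzy hs.le
    rw [h1]
    refine (Th_le_exp hL hs _).trans ?_
    refine mul_le_mul_of_nonneg_right ?_ (tsum_nonneg fun _ => (Real.exp_pos _).le)
    apply Real.exp_le_exp.2
    have := pow_le_pow_left₀ (norm_nonneg _) h2 2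
    linarith
  have hbdd : BddAbove (Set.range fun z => Th L s z / Th L s 0) := by
    refine ⟨B / Th L s 0, ?_⟩
    rintro _ ⟨z, rfl⟩
    exact div_le_div_of_nonneg_right (hbd z) h0.le
  set ρ := ⨆ z, Th L s z / Th L s 0 with hρ
  have h1 : ∀ z, (Th L s z / Th L s 0) ^ 4 ≤ ρ := by
    intro z
    have h2 := rsd hL hs z z
    rw [sub_self] at h2
    have h3 : (Th L s z / Th L s 0) ^ 4 ≤ Th L s (z + z) / Th L s 0 := by
      rw [div_pow, div_le_div_iff₀ (by positivity) h0]
      have h4 : Th L s z ^ 4 * Th L s 0 = (Th L s z * Th L s z) ^ 2 * Th L s 0 := by ring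
      rw [h4]
      calc _ ≤ (Th L s 0 ^ 2 * (Th L s (z + z) * Th L s 0)) * Th L s 0 :=
            mul_le_mul_of_nonneg_right h2 h0.le
        _ = _ := by ring
    exact h3.trans (le_ciSup hbdd (z + z))
  have hρ1 : 1 ≤ ρ := by
    have := le_ciSup hbdd 0
    simpa [div_self h0.ne'] using this
  have h2 : ρ ≤ 1 := by
    by_contra hcon
    push Not at hcon
    -- `ρ ≤ ρ^(1/4)`
    have h3 : ρ ≤ ρ ^ ((1 : ℝ) / 4) := by
      refine ciSup_le fun z => ?_
      have h4 : 0 ≤ Th L s z / Th L s 0 := (div_pos (Th_pos hL hs z) h0).le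
      have h5 := Real.rpow_le_rpow (by positivity) (h1 z) (by norm_num : (0 : ℝ) ≤ 1 / 4)
      rwa [← Real.rpow_natCast, ← Real.rpow_mul h4, show ((4 : ℕ) : ℝ) * (1 / 4) = 1 by norm_num,
        Real.rpow_one] at h5
    have h6 : ρ ^ ((1 : ℝ) / 4) < ρ ^ (1 : ℝ) :=
      Real.rpow_lt_rpow_of_exponent_lt hcon (by norm_num)
    rw [Real.rpow_one] at h6
    linarith
  have h3 := (le_ciSup hbdd x).trans h2
  rwa [div_le_one h0] at h3

theorem Th_ge (hL : Lat L) (hs : 0 < s) (x : E) :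
    Real.exp (-(‖x‖ ^ 2 / 2)) * Th L s 0 ≤ Th L s x := by
  have h1 : Th L s x = ∑' y : L, (Real.exp (-(‖s • (y : E) - x‖ ^ 2 / 2)) +
      Real.exp (-(‖s • (y : E) - -x‖ ^ 2 / 2))) / 2 := by
    rw [tsum_div_const, (Th_summable hL hs x).tsum_add (Th_summable hL hs (-x))]
    have : ∑' y : L, Real.exp (-(‖s • (y : E) - -x‖ ^ 2 / 2)) = Th L s x := Th_neg x
    rw [this]
    change Th L s x = (Th L s x + Th L s x) / 2
    ring
  rw [h1]
  unfold Th
  rw [← tsum_mul_left]
  refine ((Th_summable hL hs 0).mul_left _).tsum_le_tsum (fun y => ?_)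
    (((Th_summable hL hs x).add (Th_summable hL hs (-x))).div_const 2)
  set a := -(‖s • (y : E) - x‖ ^ 2 / 2) with ha
  set b := -(‖s • (y : E) - -x‖ ^ 2 / 2) with hb
  have h2 : -(‖x‖ ^ 2 / 2) + -(‖s • (y : E) - 0‖ ^ 2 / 2) = (a + b) / 2 := by
    have h3 := parallelogram_law_with_norm ℝ (s • (y : E)) x
    rw [ha, hb, sub_neg_eq_add, sub_zero]
    nlinarith
  rw [← Real.exp_add, h2]
  have h4 : Real.exp ((a + b) / 2) = Real.exp (a / 2) * Real.exp (b / 2) := by
    rw [← Real.exp_add]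
    congr 1
    ring
  have h5 : Real.exp a = Real.exp (a / 2) ^ 2 := by
    rw [← Real.exp_nat_mul]
    congr 1
    push_cast
    ring
  have h6 : Real.exp b = Real.exp (b / 2) ^ 2 := by
    rw [← Real.exp_nat_mul]
    congr 1
    push_cast
    ring
  rw [h4, h5, h6]
  nlinarith [sq_nonneg (Real.exp (a / 2) - Real.exp (b / 2))]

theorem rsd_two (hL : Lat L) (hs : 0 < s) (z : E) :
    Th L (√2 * s) (√2 • z) * Th L s 0 ^ 2 ≤ Th L s z ^ 2 * Th L (√2 * s) 0 := by
  have hs2 : 0 < √2 * s := by positivity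
  have h2 : √2 * √2 = 2 := Real.mul_self_sqrt (by norm_num)
  have h0 : √2 ≠ 0 := by positivity
  set T : E → ℝ := Th L (√2 * s) with hT
  have hT0 : 0 < T 0 := Th_pos hL hs2 0
  -- `th_c(0) T(u / √2) ≤ th_c(u) T(0)`
  have hstar : ∀ (c : L ⧸ two L) (u : E),
      th L s c 0 * T ((√2)⁻¹ • u) ≤ th L s c u * T 0 := by
    intro c u
    set X : E := (√2)⁻¹ • (s • ((c.out : L) : E)) with hX
    set U : E := (√2)⁻¹ • u with hU
    have e1 : th L s c u = T (U - X) := by
      rw [hU, hX, ← smul_sub]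
      rfl
    have e2 : th L s c 0 = T X := by
      have : th L s c 0 = T (-X) := by
        rw [hX, ← smul_neg, ← zero_sub]
        rfl
      rw [this]
      exact Th_neg X
    have e3 : T (X + U) = T (U - X) := by
      have h3 : X + U = (U - X) + (√2 * s) • ((c.out : L) : E) := by
        have h4 : (√2 * s) • ((c.out : L) : E) = X + X := by
          rw [hX, ← two_smul ℝ, smul_smul, smul_smul]
          congr 1
          field_simp
          rw [Real.sq_sqrt (by norm_num)]
        rw [h4]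
        abel
      rw [h3]
      exact Th_add _ (c.out : L).2
    have e4 : T (X - U) = T (U - X) := by
      have : X - U = -(U - X) := by abel
      rw [this]
      exact Th_neg _
    have h5 := rsd hL hs2 X U
    change (T X * T U) ^ 2 ≤ T 0 ^ 2 * (T (X + U) * T (X - U)) at h5
    rw [e3, e4] at h5
    rw [e1, e2]
    have h6 : (T X * T U) ^ 2 ≤ (T (U - X) * T 0) ^ 2 := by
      calc _ ≤ _ := h5
        _ = _ := by ring
    exact le_of_sq_le_sq h6 (mul_nonneg (Th_pos hL hs2 _).le hT0.le)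
  obtain ⟨hk1, hk2⟩ := key hL hs z z
  obtain ⟨hz1, hz2⟩ := key_sq hL hs (0 : E)
  rw [sub_self] at hk1 hk2
  have h3 : T (√2 • z) = T ((√2)⁻¹ • (z + z)) := by
    congr 1
    rw [← two_smul ℝ z, smul_smul]
    congr 1
    field_simp
    rw [Real.sq_sqrt (by norm_num)]
  have h4 : Th L s 0 ^ 2 = ∑' c : L ⧸ two L, th L s c 0 * th L s c 0 := by
    rw [hz2]
    ring
  have h5 : Th L s z ^ 2 = ∑' c : L ⧸ two L, th L s c (z + z) * th L s c 0 := by
    rw [hk2]
    ring
  rw [h3, h4, h5, ← tsum_mul_left, ← tsum_mul_right]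
  refine (hz1.mul_left _).tsum_le_tsum (fun c => ?_) (hk1.mul_right _)
  have h6 := hstar c (z + z)
  have h7 := th_nonneg hL hs c (0 : E)
  calc T ((√2)⁻¹ • (z + z)) * (th L s c 0 * th L s c 0)
      = (th L s c 0 * T ((√2)⁻¹ • (z + z))) * th L s c 0 := by ring
    _ ≤ (th L s c (z + z) * T 0) * th L s c 0 := mul_le_mul_of_nonneg_right h6 h7
    _ = th L s c (z + z) * th L s c 0 * T 0 := by ring

end Pool.Agent.BCD
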