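import Pool.Agent.Work.MP_bc8e1e_an.D.Defs

/-!
# R1, first part: Gaussian sums converge
-/

set_option autoImplicit false

open MeasureTheory ProbabilityTheory Polynomial
open scoped RealInnerProductSpace

namespace Pool.Agent.BCD

variable {E : Type*} [NormedAddCommGroup E] [InnerProductSpace ℝ E]
  {L : AddSubgroup E} {s : ℝ}

namespace R1

theorem norm_sq_le (a b : E) : ‖a‖ ^ 2 / 2 - ‖b‖ ^ 2 ≤ ‖a - b‖ ^ 2 := by
  have h := parallelogram_law_with_norm ℝ (a - b) b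
  have h1 : a - b + b = a := by abel
  rw [h1] at h
  nlinarith [norm_nonneg (a - b - b), sq_nonneg (‖a - b - b‖)]

/-- the exponent bound -/
theorem exp_le (s : ℝ) (z y : E) : Real.exp (-(‖s • y - z‖ ^ 2 / 2)) ≤
    Real.exp (‖z‖ ^ 2 / 2) * Real.exp (-(s ^ 2 / 4 * ‖y‖ ^ 2)) := by
  rw [← Real.exp_add]
  apply Real.exp_le_exp.2
  have h := norm_sq_le (s • y) z
  rw [norm_smul, mul_pow, Real.norm_eq_abs, sq_abs] at h
  linarith

theorem pow_le (n : ℕ) {c : ℝ} (hc : 0 < c) {x : ℝ} (hx : 0 ≤ x) :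
    x ^ n ≤ (1 + n.factorial / c ^ n) * Real.exp (c * x ^ 2) := by
  have h1 : x ^ n ≤ 1 + (x ^ 2) ^ n := by
    rcases le_total x 1 with h | h
    · have := pow_le_one₀ (n := n) hx h
      have h2 : 0 ≤ (x ^ 2) ^ n := by positivity
      linarith
    · have h2 : x ^ n ≤ (x ^ 2) ^ n := pow_le_pow_left₀ hx (by nlinarith) n
      linarith
  have h2 : (x ^ 2) ^ n ≤ n.factorial / c ^ n * Real.exp (c * x ^ 2) := by
    have h3 := Real.pow_div_factorial_le_exp (c * x ^ 2) (by positivity) n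
    rw [mul_pow, div_le_iff₀ (by positivity)] at h3
    have h4 : (x ^ 2) ^ n = (c ^ n * (x ^ 2) ^ n) / c ^ n := by
      field_simp
    rw [h4]
    calc c ^ n * (x ^ 2) ^ n / c ^ n ≤ (Real.exp (c * x ^ 2) * n.factorial) / c ^ n := by
          gcongr
      _ = n.factorial / c ^ n * Real.exp (c * x ^ 2) := by ring
  have h3 : 1 ≤ Real.exp (c * x ^ 2) := Real.one_le_exp (by positivity)
  calc x ^ n ≤ 1 + (x ^ 2) ^ n := h1
    _ ≤ Real.exp (c * x ^ 2) + n.factorial / c ^ n * Real.exp (c * x ^ 2) := by linarith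
    _ = _ := by ring

end R1

open R1

theorem Th_summable (hL : Lat L) (hs : 0 < s) (z : E) :
    Summable fun y : L => Real.exp (-(‖s • (y : E) - z‖ ^ 2 / 2)) := by
  refine Summable.of_nonneg_of_le (fun y => (Real.exp_pos _).le) (fun y => exp_le s z (y : E))
    ((hL.summ (s ^ 2 / 4) (by positivity)).mul_left _)

/-- any polynomial moment is summable too. -/
theorem Th_summable_pow (hL : Lat L) (hs : 0 < s) (z : E) (n : ℕ) :
    Summable fun y : L => ‖(y : E)‖ ^ n * Real.exp (-(‖s • (y : E) - z‖ ^ 2 / 2)) := by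
  refine Summable.of_nonneg_of_le (fun y => by positivity) (fun y => ?_)
    ((hL.summ (s ^ 2 / 8) (by positivity)).mul_left
      ((1 + n.factorial / (s ^ 2 / 8) ^ n) * Real.exp (‖z‖ ^ 2 / 2)))
  have h1 := pow_le n (c := s ^ 2 / 8) (by positivity) (norm_nonneg (y : E))
  have h2 := exp_le s z (y : E)
  have h3 : Real.exp (-(s ^ 2 / 8 * ‖(y : E)‖ ^ 2)) =
      Real.exp (s ^ 2 / 8 * ‖(y : E)‖ ^ 2) * Real.exp (-(s ^ 2 / 4 * ‖(y : E)‖ ^ 2)) := by
    rw [← Real.exp_add]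
    congr 1
    ring
  calc ‖(y : E)‖ ^ n * Real.exp (-(‖s • (y : E) - z‖ ^ 2 / 2))
      ≤ ((1 + n.factorial / (s ^ 2 / 8) ^ n) * Real.exp (s ^ 2 / 8 * ‖(y : E)‖ ^ 2)) *
        (Real.exp (‖z‖ ^ 2 / 2) * Real.exp (-(s ^ 2 / 4 * ‖(y : E)‖ ^ 2))) :=
        mul_le_mul h1 h2 (Real.exp_pos _).le (by positivity)
    _ = _ := by rw [h3]; ring

theorem Th_pos (hL : Lat L) (hs : 0 < s) (z : E) : 0 < Th L s z :=
  (Th_summable hL hs z).tsum_pos (fun _ => (Real.exp_pos _).le) 0 (Real.exp_pos _)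

theorem Th_neg (z : E) : Th L s (-z) = Th L s z := by
  unfold Th
  rw [← (Equiv.neg L).tsum_eq fun y : L => Real.exp (-(‖s • (y : E) - z‖ ^ 2 / 2))]
  refine tsum_congr fun y => ?_
  have : s • (((Equiv.neg L) y : L) : E) - z = -(s • (y : E) - -z) := by
    simp
    abel
  rw [this, norm_neg]

theorem Th_add (z : E) {y : E} (hy : y ∈ L) : Th L s (z + s • y) = Th L s z := by
  unfold Th
  rw [← (Equiv.subRight (⟨y, hy⟩ : L)).tsum_eq
    fun y : L => Real.exp (-(‖s • (y : E) - z‖ ^ 2 / 2))]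
  refine tsum_congr fun x => ?_
  have : s • (((Equiv.subRight (⟨y, hy⟩ : L)) x : L) : E) - z = s • (x : E) - (z + s • y) := by
    simp [smul_sub]
    abel
  rw [this]

/-- an explicit bound -/
theorem Th_le_exp (hL : Lat L) (hs : 0 < s) (z : E) :
    Th L s z ≤ Real.exp (‖z‖ ^ 2 / 2) * ∑' y : L, Real.exp (-(s ^ 2 / 4 * ‖(y : E)‖ ^ 2)) := by
  have h := hL.summ (s ^ 2 / 4) (by positivity)
  unfold Th
  rw [← tsum_mul_left]
  exact (Th_summable hL hs z).tsum_le_tsum (fun y => exp_le s z (y : E)) (h.mul_left _)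

end Pool.Agent.BCD
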