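import Pool.Agent.Work.MP_bc8e1e_an.D.R1

/-!
# Bernoulli convolutions near 1: second order consequences of the Regev - Stephens-Davidowitz
inequality (module R2)
-/

set_option autoImplicit false
set_option linter.unusedSectionVars false

open MeasureTheory ProbabilityTheory Polynomial Filter Topology
open scoped RealInnerProductSpace

namespace Pool.Agent.BCD

namespace R2aux

/-! ### the second derivative test -/

lemma snd_nonneg {f f1 : ℝ → ℝ} {f2 : ℝ} (h1 : ∀ t, HasDerivAt f (f1 t) t)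
    (h2 : HasDerivAt f1 f2 0) (hf1 : f1 0 = 0) (hf0 : f 0 = 0) (hpos : ∀ t, 0 ≤ f t) :
    0 ≤ f2 := by
  by_contra hneg
  push Not at hneg
  have e1 : deriv f = f1 := funext fun t => (h1 t).deriv
  have e2 : deriv (deriv f) 0 = f2 := by rw [e1]; exact h2.deriv
  have hmax : IsLocalMax f 0 :=
    isLocalMax_of_deriv_deriv_neg (by rw [e2]; exact hneg) (by rw [e1]; exact hf1)
      (h1 0).continuousAt
  have hz : f =ᶠ[𝓝 0] fun _ => (0 : ℝ) := by
    filter_upwards [hmax] with t ht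
    exact le_antisymm (ht.trans hf0.le) (hpos t)
  have hz1 : deriv f =ᶠ[𝓝 0] deriv fun _ => (0 : ℝ) := hz.deriv
  have hz2 : deriv (deriv f) 0 = deriv (deriv fun _ : ℝ => (0 : ℝ)) 0 := hz1.deriv_eq
  rw [e2] at hz2
  simp at hz2
  linarith

/-! ### exponential series -/

section Series

variable {ι : Type*} (w V : ι → ℝ)

/-- `∑ V^p w e^{tV}`. -/
noncomputable def Fp (p : ℕ) (t : ℝ) : ℝ := ∑' i, V i ^ p * (w i * Real.exp (t * V i))

variable {w V}

lemma abs_term_le (hw : ∀ i, 0 ≤ w i) (p : ℕ) {R t : ℝ} (ht : |t| ≤ R) (i : ι) :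
    ‖V i ^ p * (w i * Real.exp (t * V i))‖ ≤
      |V i| ^ p * (w i * Real.exp (R * V i)) + |V i| ^ p * (w i * Real.exp (-R * V i)) := by
  have hR : 0 ≤ R := (abs_nonneg t).trans ht
  rw [Real.norm_eq_abs, abs_mul, abs_pow, abs_of_nonneg (mul_nonneg (hw i) (Real.exp_pos _).le),
    ← mul_add, ← mul_add]
  refine mul_le_mul_of_nonneg_left (mul_le_mul_of_nonneg_left ?_ (hw i)) (by positivity)
  have h1 : t * V i ≤ |t| * |V i| := by rw [← abs_mul]; exact le_abs_self _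
  have h2 : |t| * |V i| ≤ R * |V i| := mul_le_mul_of_nonneg_right ht (abs_nonneg _)
  rcases abs_cases (V i) with ⟨h, -⟩ | ⟨h, -⟩
  · have : Real.exp (t * V i) ≤ Real.exp (R * V i) := by
      apply Real.exp_le_exp.2
      rw [h] at h1 h2; linarith
    linarith [Real.exp_pos (-R * V i)]
  · have : Real.exp (t * V i) ≤ Real.exp (-R * V i) := by
      apply Real.exp_le_exp.2
      rw [h] at h1 h2; linarith
    linarith [Real.exp_pos (R * V i)]

lemma hasDerivAt_Fp (hw : ∀ i, 0 ≤ w i)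
    (hs : ∀ (p : ℕ) (r : ℝ), Summable fun i => |V i| ^ p * (w i * Real.exp (r * V i)))
    (p : ℕ) (t : ℝ) : HasDerivAt (Fp w V p) (Fp w V (p + 1) t) t := by
  set R := |t| + 1
  have hR : |t| < R := by simp [R]
  have hR0 : 0 < R := by positivity
  have hmem : ∀ x ∈ Set.Ioo (-R) R, |x| ≤ R := fun x hx => abs_le.2 ⟨hx.1.le, hx.2.le⟩
  refine hasDerivAt_tsum_of_isPreconnected (F := ℝ) (𝕜 := ℝ)
    (g := fun i t => V i ^ p * (w i * Real.exp (t * V i)))
    (g' := fun i t => V i ^ (p + 1) * (w i * Real.exp (t * V i))) (u := fun i =>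
      |V i| ^ (p + 1) * (w i * Real.exp (R * V i)) + |V i| ^ (p + 1) * (w i * Real.exp (-R * V i)))
    (t := Set.Ioo (-R) R) (y₀ := 0) ((hs _ _).add (hs _ _)) isOpen_Ioo
    isPreconnected_Ioo ?_ ?_ ⟨by linarith, hR0⟩ ?_ (abs_lt.1 hR)
  · intro i x _
    have h1 : HasDerivAt (fun x : ℝ => x * V i) (V i) x := by
      simpa using (hasDerivAt_id x).mul_const (V i)
    have h2 := ((h1.exp.const_mul (w i)).const_mul (V i ^ p))
    refine h2.congr_deriv ?_
    rw [pow_succ]; ring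
  · intro i x hx
    exact abs_term_le hw (p + 1) (hmem x hx) i
  · refine Summable.of_norm_bounded ((hs p 0).add (hs p (-0))) fun i => ?_
    exact abs_term_le hw p (by simp) i

end Series

end R2aux

section R2

variable {E : Type*} [NormedAddCommGroup E] [InnerProductSpace ℝ E]
  {L : AddSubgroup E} {s : ℝ}

namespace R2aux

/-- the weight `exp (-‖s y - z‖² / 2)`. -/
noncomputable def wt (L : AddSubgroup E) (s : ℝ) (z : E) (y : L) : ℝ :=
  Real.exp (-(‖s • (y : E) - z‖ ^ 2 / 2))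

/-- `⟪s y, a⟫`. -/
noncomputable def vv (L : AddSubgroup E) (s : ℝ) (a : E) (y : L) : ℝ := ⟪s • (y : E), a⟫

lemma wt_nonneg (z : E) (y : L) : 0 ≤ wt L s z y := (Real.exp_pos _).le

lemma wt_exp (z a : E) (t : ℝ) (y : L) :
    wt L s z y * Real.exp (t * vv L s a y) =
      Real.exp (t * ⟪z, a⟫ + t ^ 2 * ‖a‖ ^ 2 / 2) * wt L s (z + t • a) y := by
  unfold wt vv
  rw [← Real.exp_add, ← Real.exp_add]
  congr 1
  have h : ‖s • (y : E) - (z + t • a)‖ ^ 2 = ‖s • (y : E) - z‖ ^ 2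
      - 2 * (t * (⟪s • (y : E), a⟫ - ⟪z, a⟫)) + t ^ 2 * ‖a‖ ^ 2 := by
    rw [← sub_sub, norm_sub_sq_real (s • (y : E) - z) (t • a), inner_smul_right, inner_sub_left,
      norm_smul, mul_pow, Real.norm_eq_abs, sq_abs]
  rw [h]; ring

lemma summable_fp (hL : Lat L) (hs : 0 < s) (z a : E) (p : ℕ) (r : ℝ) :
    Summable fun y : L => |vv L s a y| ^ p * (wt L s z y * Real.exp (r * vv L s a y)) := by
  have h := (Th_summable_pow hL hs (z + r • a) p).mul_left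
    ((s * ‖a‖) ^ p * Real.exp (r * ⟪z, a⟫ + r ^ 2 * ‖a‖ ^ 2 / 2))
  refine Summable.of_nonneg_of_le (fun y => ?_) (fun y => ?_) h
  · exact mul_nonneg (by positivity) (mul_nonneg (wt_nonneg _ _) (Real.exp_pos _).le)
  · rw [wt_exp]
    have h1 : |vv L s a y| ≤ s * ‖a‖ * ‖(y : E)‖ := by
      unfold vv
      refine (abs_real_inner_le_norm _ _).trans (le_of_eq ?_)
      rw [norm_smul, Real.norm_eq_abs, abs_of_pos hs]; ring
    have h2 : |vv L s a y| ^ p ≤ (s * ‖a‖) ^ p * ‖(y : E)‖ ^ p := by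
      rw [← mul_pow]; exact pow_le_pow_left₀ (abs_nonneg _) h1 p
    calc |vv L s a y| ^ p * (Real.exp (r * ⟪z, a⟫ + r ^ 2 * ‖a‖ ^ 2 / 2) * wt L s (z + r • a) y)
        ≤ ((s * ‖a‖) ^ p * ‖(y : E)‖ ^ p) *
          (Real.exp (r * ⟪z, a⟫ + r ^ 2 * ‖a‖ ^ 2 / 2) * wt L s (z + r • a) y) :=
          mul_le_mul_of_nonneg_right h2 (mul_nonneg (Real.exp_pos _).le (wt_nonneg _ _))
      _ = _ := by unfold wt; ring

/-- the moment generating function of `⟪Y, a⟫`. -/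
noncomputable def G (L : AddSubgroup E) (s : ℝ) (z a : E) (p : ℕ) (t : ℝ) : ℝ :=
  Fp (wt L s z) (vv L s a) p t

lemma hasDerivAt_G (hL : Lat L) (hs : 0 < s) (z a : E) (p : ℕ) (t : ℝ) :
    HasDerivAt (G L s z a p) (G L s z a (p + 1) t) t :=
  hasDerivAt_Fp (wt_nonneg z) (summable_fp hL hs z a) p t

lemma G_zero (z a : E) (t : ℝ) :
    G L s z a 0 t = Real.exp (t * ⟪z, a⟫ + t ^ 2 * ‖a‖ ^ 2 / 2) * Th L s (z + t • a) := by
  unfold G Fp Th
  rw [← tsum_mul_left]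
  refine tsum_congr fun y => ?_
  rw [pow_zero, one_mul, wt_exp]
  rfl

lemma G_zero_zero (z a : E) : G L s z a 0 0 = Th L s z := by
  rw [G_zero]; simp

lemma G_at_zero (z a : E) (p : ℕ) :
    G L s z a p 0 = ∑' y : L, ⟪s • (y : E), a⟫ ^ p * Real.exp (-(‖s • (y : E) - z‖ ^ 2 / 2)) := by
  unfold G Fp
  refine tsum_congr fun y => ?_
  simp [vv, wt]

lemma Ex_pow (z a : E) (p : ℕ) :
    Ex L s z (fun y => ⟪y, a⟫ ^ p) = G L s z a p 0 / Th L s z := by
  rw [G_at_zero]; rfl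

lemma Ex_one (z a : E) : Ex L s z (fun y => ⟪y, a⟫) = G L s z a 1 0 / Th L s z := by
  rw [← Ex_pow]; simp

lemma wt_neg (y : L) : wt L s (0 : E) (-y) = wt L s 0 y := by
  unfold wt
  simp [norm_neg]

lemma vv_neg (a : E) (y : L) : vv L s a (-y) = - vv L s a y := by
  unfold vv
  simp [inner_neg_left]

lemma G_one_zero (a : E) : G L s 0 a 1 0 = 0 := by
  have h : G L s 0 a 1 0 = - G L s 0 a 1 0 := by
    conv_lhs => unfold G Fp
    rw [← (Equiv.neg L).tsum_eq]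
    unfold G Fp
    rw [← tsum_neg]
    refine tsum_congr fun y => ?_
    simp only [Equiv.neg_apply, wt_neg, vv_neg]
    simp
  linarith

end R2aux

open R2aux

theorem sig_le_var (hL : Lat L) (hs : 0 < s) (z a : E) :
    Ex L s 0 (fun y => ⟪y, a⟫ ^ 2) ≤
      Ex L s z (fun y => ⟪y, a⟫ ^ 2) - (Ex L s z fun y => ⟪y, a⟫) ^ 2 := by
  rw [Ex_pow, Ex_pow, Ex_one]
  set T0 := Th L s (0 : E) with hT0
  set S0 := Th L s z with hS0
  have hT : 0 < T0 := Th_pos hL hs 0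
  have hS : 0 < S0 := Th_pos hL hs z
  set A := G L s z a with hA
  set B := G L s 0 a with hB
  have dA : ∀ p t, HasDerivAt (A p) (A (p + 1) t) t := hasDerivAt_G hL hs z a
  have dB : ∀ p t, HasDerivAt (B p) (B (p + 1) t) t := hasDerivAt_G hL hs 0 a
  have dN : ∀ p t, HasDerivAt (fun t => A p (-t)) (-(A (p + 1) (-t))) t := by
    intro p t
    have := (dA p (-t)).comp t (hasDerivAt_neg t)
    rw [mul_neg_one] at this
    exact this
  have hA0 : A 0 0 = S0 := G_zero_zero z a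
  have hB0 : B 0 0 = T0 := G_zero_zero 0 a
  have hB1 : B 1 0 = 0 := G_one_zero a
  -- the function
  have key : 0 ≤ T0 ^ 2 * ((A 2 0 * A 0 0 + A 1 0 * (-(A 1 0))) -
      (A 1 0 * A 1 0 + A 0 0 * (-(A 2 0)))) -
      S0 ^ 2 * (2 * (B 1 0 * B 1 0 + B 0 0 * B 2 0)) := by
    refine snd_nonneg
      (f := fun t => T0 ^ 2 * (A 0 t * A 0 (-t)) - S0 ^ 2 * (B 0 t * B 0 t))
      (f1 := fun t => T0 ^ 2 * (A 1 t * A 0 (-t) - A 0 t * A 1 (-t)) -
        S0 ^ 2 * (2 * (B 0 t * B 1 t))) ?_ ?_ ?_ ?_ ?_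
    · intro t
      have h1 := (((dA 0 t).mul (dN 0 t)).const_mul (T0 ^ 2)).sub
        (((dB 0 t).mul (dB 0 t)).const_mul (S0 ^ 2))
      refine h1.congr_deriv ?_
      simp only [zero_add]; ring
    · have h1 := ((((dA 1 0).mul (dN 0 0)).sub ((dA 0 0).mul (dN 1 0))).const_mul (T0 ^ 2)).sub
        ((((dB 0 0).mul (dB 1 0)).const_mul 2).const_mul (S0 ^ 2))
      refine h1.congr_deriv ?_
      simp only [zero_add, neg_zero]
    · simp only [neg_zero]; rw [hB1]; ring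
    · simp only [neg_zero]; rw [hA0, hB0]; ring
    · intro t
      have h := rsd hL hs z (t • a)
      have eA : A 0 t = Real.exp (t * ⟪z, a⟫ + t ^ 2 * ‖a‖ ^ 2 / 2) * Th L s (z + t • a) :=
        G_zero z a t
      have eA' : A 0 (-t) =
          Real.exp (-t * ⟪z, a⟫ + (-t) ^ 2 * ‖a‖ ^ 2 / 2) * Th L s (z + (-t) • a) :=
        G_zero z a (-t)
      have eB : B 0 t = Real.exp (t * ⟪(0 : E), a⟫ + t ^ 2 * ‖a‖ ^ 2 / 2) * Th L s (0 + t • a) :=
        G_zero 0 a t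
      rw [inner_zero_left, mul_zero, zero_add, zero_add] at eB
      rw [neg_smul, ← sub_eq_add_neg] at eA'
      rw [eA, eA', eB]
      have e1 : Real.exp (t * ⟪z, a⟫ + t ^ 2 * ‖a‖ ^ 2 / 2) *
          Real.exp (-t * ⟪z, a⟫ + (-t) ^ 2 * ‖a‖ ^ 2 / 2) =
          Real.exp (t ^ 2 * ‖a‖ ^ 2 / 2) ^ 2 := by
        rw [← Real.exp_add, ← Real.exp_nat_mul]; congr 1; push_cast; ring
      have e2 : T0 ^ 2 * (Real.exp (t * ⟪z, a⟫ + t ^ 2 * ‖a‖ ^ 2 / 2) * Th L s (z + t • a) *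
          (Real.exp (-t * ⟪z, a⟫ + (-t) ^ 2 * ‖a‖ ^ 2 / 2) * Th L s (z - t • a))) -
          S0 ^ 2 * (Real.exp (t ^ 2 * ‖a‖ ^ 2 / 2) * Th L s (t • a) *
          (Real.exp (t ^ 2 * ‖a‖ ^ 2 / 2) * Th L s (t • a))) =
          Real.exp (t ^ 2 * ‖a‖ ^ 2 / 2) ^ 2 *
          (T0 ^ 2 * (Th L s (z + t • a) * Th L s (z - t • a)) -
            (S0 * Th L s (t • a)) ^ 2) := by
        linear_combination (T0 ^ 2 * Th L s (z + t • a) * Th L s (z - t • a)) * e1
      rw [e2]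
      exact mul_nonneg (by positivity) (by linarith)
  rw [hB1, hA0, hB0] at key
  have hTS : 0 < T0 ^ 2 * S0 ^ 2 := by positivity
  have h3 : B 2 0 / T0 = (S0 ^ 2 * (T0 * B 2 0)) / (T0 ^ 2 * S0 ^ 2) := by
    field_simp
  have h4 : A 2 0 / S0 - (A 1 0 / S0) ^ 2 =
      (T0 ^ 2 * (S0 * A 2 0 - A 1 0 ^ 2)) / (T0 ^ 2 * S0 ^ 2) := by
    field_simp
  rw [h3, h4]
  apply div_le_div_of_nonneg_right _ hTS.le
  linarith

theorem sig_sqrt_two (hL : Lat L) (hs : 0 < s) (a : E) :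
    Ex L (√2 * s) 0 (fun y => ⟪y, a⟫ ^ 2) ≤ Ex L s 0 (fun y => ⟪y, a⟫ ^ 2) := by
  have h2 : (0 : ℝ) < √2 := by positivity
  have hs2 : 0 < √2 * s := by positivity
  have hsq : √2 * √2 = 2 := Real.mul_self_sqrt (by norm_num)
  rw [Ex_pow, Ex_pow]
  set T0 := Th L s (0 : E) with hT0
  set S0 := Th L (√2 * s) (0 : E) with hS0
  have hT : 0 < T0 := Th_pos hL hs 0
  have hS : 0 < S0 := Th_pos hL hs2 0
  set A := G L (√2 * s) 0 a with hA
  set B := G L s 0 a with hB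
  have dA : ∀ p t, HasDerivAt (A p) (A (p + 1) t) t := hasDerivAt_G hL hs2 0 a
  have dB : ∀ p t, HasDerivAt (B p) (B (p + 1) t) t := hasDerivAt_G hL hs 0 a
  have dN : ∀ p t, HasDerivAt (fun t => A p (√2 * t)) (A (p + 1) (√2 * t) * √2) t := by
    intro p t
    have h1 : HasDerivAt (fun t : ℝ => √2 * t) √2 t := by
      simpa using (hasDerivAt_id t).const_mul √2
    exact (dA p (√2 * t)).comp t h1
  have hA0 : A 0 0 = S0 := G_zero_zero 0 a
  have hB0 : B 0 0 = T0 := G_zero_zero 0 a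
  have hB1 : B 1 0 = 0 := G_one_zero a
  have hA1 : A 1 0 = 0 := G_one_zero a
  have key : 0 ≤ S0 * (2 * (B 1 0 * B 1 0 + B 0 0 * B 2 0)) - T0 ^ 2 * (2 * A 2 0) := by
    refine snd_nonneg
      (f := fun t => S0 * (B 0 t * B 0 t) - T0 ^ 2 * A 0 (√2 * t))
      (f1 := fun t => S0 * (2 * (B 0 t * B 1 t)) - T0 ^ 2 * (A 1 (√2 * t) * √2)) ?_ ?_ ?_ ?_ ?_
    · intro t
      have h1 := (((dB 0 t).mul (dB 0 t)).const_mul S0).sub ((dN 0 t).const_mul (T0 ^ 2))
      refine h1.congr_deriv ?_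
      simp only [zero_add]; ring
    · have h1 := ((((dB 0 0).mul (dB 1 0)).const_mul 2).const_mul S0).sub
        (((dN 1 0).mul_const √2).const_mul (T0 ^ 2))
      refine h1.congr_deriv ?_
      simp only [zero_add, mul_zero]; norm_num
      left
      rw [mul_assoc, hsq]; ring
    · simp only [mul_zero]; rw [hB1, hA1]; ring
    · simp only [mul_zero]; rw [hA0, hB0]; ring
    · intro t
      have h := rsd_two hL hs (t • a)
      have eA : A 0 (√2 * t) = Real.exp ((√2 * t) * ⟪(0 : E), a⟫ + (√2 * t) ^ 2 * ‖a‖ ^ 2 / 2) *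
          Th L (√2 * s) (0 + (√2 * t) • a) := G_zero 0 a _
      have eB : B 0 t = Real.exp (t * ⟪(0 : E), a⟫ + t ^ 2 * ‖a‖ ^ 2 / 2) * Th L s (0 + t • a) :=
        G_zero 0 a t
      rw [inner_zero_left, mul_zero, zero_add, zero_add] at eA eB
      have e1 : Real.exp ((√2 * t) ^ 2 * ‖a‖ ^ 2 / 2) = Real.exp (t ^ 2 * ‖a‖ ^ 2 / 2) ^ 2 := by
        rw [← Real.exp_nat_mul]; congr 1; rw [mul_pow, sq √2, hsq]; push_cast; ring
      rw [eA, eB, e1, mul_smul]
      have e2 : S0 * (Real.exp (t ^ 2 * ‖a‖ ^ 2 / 2) * Th L s (t • a) *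
          (Real.exp (t ^ 2 * ‖a‖ ^ 2 / 2) * Th L s (t • a))) -
          T0 ^ 2 * (Real.exp (t ^ 2 * ‖a‖ ^ 2 / 2) ^ 2 * Th L (√2 * s) (√2 • t • a)) =
          Real.exp (t ^ 2 * ‖a‖ ^ 2 / 2) ^ 2 *
            (Th L s (t • a) ^ 2 * S0 - Th L (√2 * s) (√2 • t • a) * T0 ^ 2) := by ring
      rw [e2]
      exact mul_nonneg (by positivity) (by linarith)
  rw [hB1, hB0] at key
  rw [div_le_div_iff₀ hS hT]
  have h5 : T0 * (A 2 0 * T0) ≤ T0 * (B 2 0 * S0) := by nlinarith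
  exact le_of_mul_le_mul_left h5 hT

namespace R2aux

/-! ### finite dimension -/

omit [InnerProductSpace ℝ E] in
lemma finite_ball (hL : Lat L) (r : ℝ) : {y : L | ‖(y : E)‖ ≤ r}.Finite := by
  have h := (hL.summ 1 one_pos).tendsto_cofinite_zero
  have h2 := h.eventually (gt_mem_nhds (Real.exp_pos (-(1 * (|r| ^ 2 + 1)))))
  rw [Filter.eventually_cofinite] at h2
  refine h2.subset fun y hy => ?_
  simp only [Set.mem_ofPred_eq, not_lt] at hy ⊢
  apply Real.exp_le_exp.2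
  have : ‖(y : E)‖ ^ 2 ≤ |r| ^ 2 :=
    pow_le_pow_left₀ (norm_nonneg _) (hy.trans (le_abs_self r)) 2
  linarith

lemma finiteDimensional_of_lat (hL : Lat L) : FiniteDimensional ℝ E := by
  by_contra hfd
  obtain ⟨R, hR⟩ := hL.cov
  obtain ⟨ρ, f, hρ, hf, hsep⟩ := exists_seq_norm_le_one_le_norm_sub hfd
  set c : ℝ := 2 * |R| + 1 with hc
  have hc0 : 0 < c := by positivity
  choose g hgL hg using hR
  set q : ℕ → L := fun n => ⟨g (c • f n), hgL _⟩ with hq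
  have hqn : ∀ n, ‖c • f n - (q n : E)‖ ≤ R := fun n => hg _
  have hinj : Function.Injective q := by
    intro m n hmn
    by_contra hne
    have h1 : 1 ≤ ‖f m - f n‖ := hsep hne
    have h2 : ‖c • f m - c • f n‖ = c * ‖f m - f n‖ := by
      rw [← smul_sub, norm_smul, Real.norm_eq_abs, abs_of_pos hc0]
    have h3 : ‖c • f m - c • f n‖ ≤ R + R := by
      calc ‖c • f m - c • f n‖ = ‖(c • f m - (q m : E)) - (c • f n - (q n : E))‖ := by
            rw [hmn]; congr 1; abel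
        _ ≤ _ := (norm_sub_le _ _).trans (add_le_add (hqn m) (hqn n))
    have h4 : R ≤ |R| := le_abs_self R
    nlinarith
  have hfin := finite_ball hL (c * ρ + R)
  have hsub : Set.range q ⊆ {y : L | ‖(y : E)‖ ≤ c * ρ + R} := by
    rintro _ ⟨n, rfl⟩
    have h1 : (q n : E) = c • f n - (c • f n - (q n : E)) := by abel
    have h2 : ‖c • f n‖ ≤ c * ρ := by
      rw [norm_smul, Real.norm_eq_abs, abs_of_pos hc0]
      exact mul_le_mul_of_nonneg_left (hf n) hc0.le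
    show ‖(q n : E)‖ ≤ _
    rw [h1]
    exact (norm_sub_le _ _).trans (add_le_add h2 (hqn n))
  exact (Set.infinite_range_of_injective hinj) (hfin.subset hsub)

/-! ### the mixture argument -/

/-- `exp (-s² ‖y‖² / 2)`. -/
noncomputable def Wt (L : AddSubgroup E) (s : ℝ) (y : L) : ℝ :=
  Real.exp (-(s ^ 2 * ‖(y : E)‖ ^ 2 / 2))

lemma Wt_eq (hs : 0 < s) (y : L) : Wt L s y = wt L s 0 y := by
  unfold Wt wt
  rw [sub_zero, norm_smul, mul_pow, Real.norm_eq_abs, sq_abs]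

omit [InnerProductSpace ℝ E] in
lemma Wt_nonneg (y : L) : 0 ≤ Wt L s y := (Real.exp_pos _).le

lemma tsum_Wt (hs : 0 < s) : ∑' y : L, Wt L s y = Th L s 0 :=
  tsum_congr fun y => Wt_eq hs y

/-- `∑ e^{-s²|y|²/2} cosh ⟪y, x⟫`. -/
noncomputable def Kc (L : AddSubgroup E) (s : ℝ) (x : E) : ℝ :=
  ∑' y : L, Wt L s y * Real.cosh ⟪(y : E), x⟫

lemma vv_scale (hs : 0 < s) (x : E) (y : L) : vv L s (s⁻¹ • x) y = ⟪(y : E), x⟫ := by
  unfold vv
  rw [inner_smul_left, inner_smul_right]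
  simp only [conj_trivial]
  rw [← mul_assoc, mul_inv_cancel₀ hs.ne', one_mul]

lemma summable_Wt_exp (hL : Lat L) (hs : 0 < s) (x : E) (r : ℝ) :
    Summable fun y : L => Wt L s y * Real.exp (r * ⟪(y : E), x⟫) := by
  have h := summable_fp hL hs 0 (s⁻¹ • x) 0 r
  refine h.congr fun y => ?_
  rw [pow_zero, one_mul, Wt_eq hs, vv_scale hs]

lemma summable_Kc (hL : Lat L) (hs : 0 < s) (x : E) :
    Summable fun y : L => Wt L s y * Real.cosh ⟪(y : E), x⟫ := by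
  have h := ((summable_Wt_exp hL hs x 1).add (summable_Wt_exp hL hs x (-1))).mul_left (1 / 2)
  refine h.congr fun y => ?_
  rw [Real.cosh_eq]; simp only [one_mul, neg_mul, one_mul]; ring

lemma tsum_Wt_exp (hs : 0 < s) (x : E) (r : ℝ) :
    ∑' y : L, Wt L s y * Real.exp (r * ⟪(y : E), x⟫) = G L s 0 (s⁻¹ • x) 0 r := by
  unfold G Fp
  refine tsum_congr fun y => ?_
  rw [pow_zero, one_mul, Wt_eq hs, vv_scale hs]

lemma Kc_eq (hL : Lat L) (hs : 0 < s) (x : E) :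
    Kc L s x = Real.exp (‖s⁻¹ • x‖ ^ 2 / 2) * Th L s (s⁻¹ • x) := by
  have h : Kc L s x = (1 / 2) * (G L s 0 (s⁻¹ • x) 0 1 + G L s 0 (s⁻¹ • x) 0 (-1)) := by
    rw [← tsum_Wt_exp hs, ← tsum_Wt_exp hs,
      ← (summable_Wt_exp hL hs x 1).tsum_add (summable_Wt_exp hL hs x (-1)), ← tsum_mul_left]
    unfold Kc
    refine tsum_congr fun y => ?_
    rw [Real.cosh_eq]; simp only [one_mul, neg_mul, one_mul]; ring
  rw [h, G_zero, G_zero, zero_add, zero_add, neg_smul, Th_neg]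
  simp only [one_smul, inner_zero_left, mul_zero, zero_add, one_pow, one_mul, even_two,
    Even.neg_pow]
  ring

lemma Kc_pos (hL : Lat L) (hs : 0 < s) (x : E) : 0 < Kc L s x := by
  rw [Kc_eq hL hs]; exact mul_pos (Real.exp_pos _) (Th_pos hL hs _)

lemma Kc_zero (hs : 0 < s) : Kc L s 0 = Th L s 0 := by
  unfold Kc
  rw [← tsum_Wt hs]
  exact tsum_congr fun y => by simp

/-- the correlation inequality. -/
lemma Kc_corr (hL : Lat L) (hs : 0 < s) (x v : E) :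
    2 * (Kc L s x * Kc L s v) ≤ Th L s 0 * (Kc L s (x + v) + Kc L s (x - v)) := by
  have hT := Th_pos hL hs (0 : E)
  have h1 := rsd hL hs (s⁻¹ • x) (s⁻¹ • v)
  have e : Real.exp (‖s⁻¹ • x + s⁻¹ • v‖ ^ 2 / 2) * Real.exp (‖s⁻¹ • x - s⁻¹ • v‖ ^ 2 / 2) =
      (Real.exp (‖s⁻¹ • x‖ ^ 2 / 2) * Real.exp (‖s⁻¹ • v‖ ^ 2 / 2)) ^ 2 := by
    rw [← Real.exp_add, ← Real.exp_add, ← Real.exp_nat_mul]
    congr 1
    have := parallelogram_law_with_norm ℝ (s⁻¹ • x) (s⁻¹ • v)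
    push_cast
    nlinarith
  have h2 : (Kc L s x * Kc L s v) ^ 2 ≤ Th L s 0 ^ 2 * (Kc L s (x + v) * Kc L s (x - v)) := by
    rw [Kc_eq hL hs, Kc_eq hL hs, Kc_eq hL hs, Kc_eq hL hs, smul_add, smul_sub]
    calc (Real.exp (‖s⁻¹ • x‖ ^ 2 / 2) * Th L s (s⁻¹ • x) *
          (Real.exp (‖s⁻¹ • v‖ ^ 2 / 2) * Th L s (s⁻¹ • v))) ^ 2
        = (Real.exp (‖s⁻¹ • x‖ ^ 2 / 2) * Real.exp (‖s⁻¹ • v‖ ^ 2 / 2)) ^ 2 *
          (Th L s (s⁻¹ • x) * Th L s (s⁻¹ • v)) ^ 2 := by ring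
      _ ≤ (Real.exp (‖s⁻¹ • x‖ ^ 2 / 2) * Real.exp (‖s⁻¹ • v‖ ^ 2 / 2)) ^ 2 *
          (Th L s 0 ^ 2 * (Th L s (s⁻¹ • x + s⁻¹ • v) * Th L s (s⁻¹ • x - s⁻¹ • v))) :=
          mul_le_mul_of_nonneg_left h1 (by positivity)
      _ = _ := by rw [← e]; ring
  have p1 := Kc_pos hL hs x
  have p2 := Kc_pos hL hs v
  have p3 := Kc_pos hL hs (x + v)
  have p4 := Kc_pos hL hs (x - v)
  refine abs_le_of_sq_le_sq' ?_ (by positivity) |>.2
  nlinarith [sq_nonneg (Kc L s (x + v) - Kc L s (x - v)), mul_pos p3 p4,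
    mul_nonneg (sq_nonneg (Th L s (0 : E))) (sq_nonneg (Kc L s (x + v) - Kc L s (x - v)))]

/-- finite mixtures of hyperbolic cosines. -/
def Mix (h : E → ℝ) : Prop :=
  ∃ (κ : Type) (_ : Fintype κ) (p : κ → ℝ) (u : κ → E), (∀ k, 0 ≤ p k) ∧
    ∀ y, h y = ∑ k, p k * Real.cosh ⟪y, u k⟫

lemma mix_one : Mix (fun _ : E => (1 : ℝ)) :=
  ⟨Unit, inferInstance, fun _ => 1, fun _ => 0, fun _ => zero_le_one, fun y => by simp⟩

lemma mix_mul_cosh {h : E → ℝ} (hh : Mix h) (v : E) :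
    Mix (fun y => h y * Real.cosh ⟪y, v⟫) := by
  obtain ⟨κ, _, p, u, hp, hu⟩ := hh
  refine ⟨κ × Bool, inferInstance, fun k => p k.1 / 2,
    fun k => if k.2 then u k.1 + v else u k.1 - v, fun k => by have := hp k.1; positivity, ?_⟩
  intro y
  simp only [hu y]
  rw [Fintype.sum_prod_type, Finset.sum_mul]
  refine Finset.sum_congr rfl fun k _ => ?_
  simp only [Fintype.sum_bool, if_true, Bool.false_eq_true, if_false, inner_add_right,
    inner_sub_right, Real.cosh_add, Real.cosh_sub]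
  ring

lemma mix_mul_cosh_pow {h : E → ℝ} (hh : Mix h) (v : E) (n : ℕ) :
    Mix (fun y => h y * Real.cosh ⟪y, v⟫ ^ n) := by
  induction n with
  | zero => simpa using hh
  | succ n ih =>
    have := mix_mul_cosh ih v
    simp only [pow_succ, ← mul_assoc]
    exact this

lemma mix_prod {ι : Type*} (t : Finset ι) (v : ι → E) (n : ℕ) :
    Mix (fun y : E => ∏ i ∈ t, Real.cosh ⟪y, v i⟫ ^ n) := by
  classical
  induction t using Finset.induction_on with
  | empty => simpa using mix_one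
  | insert i t hi ih =>
    have := mix_mul_cosh_pow ih (v i) n
    simp only [Finset.prod_insert hi]
    simpa [mul_comm] using this

lemma mix_corr (hL : Lat L) (hs : 0 < s) {h : E → ℝ} (hh : Mix h) (x : E) :
    Kc L s x * ∑' y : L, Wt L s y * h y ≤
      Th L s 0 * ∑' y : L, Wt L s y * (h y * Real.cosh ⟪(y : E), x⟫) := by
  obtain ⟨κ, _, p, u, hp, hu⟩ := hh
  have e1 : ∑' y : L, Wt L s y * h y = ∑ k, p k * Kc L s (u k) := by
    have : ∀ y : L, Wt L s y * h y = ∑ k, p k * (Wt L s y * Real.cosh ⟪(y : E), u k⟫) := by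
      intro y
      rw [hu, Finset.mul_sum]
      exact Finset.sum_congr rfl fun k _ => by ring
    simp_rw [this]
    rw [Summable.tsum_finsetSum fun k _ => (summable_Kc hL hs (u k)).mul_left _]
    exact Finset.sum_congr rfl fun k _ => by rw [tsum_mul_left]; rfl
  have e2 : ∑' y : L, Wt L s y * (h y * Real.cosh ⟪(y : E), x⟫) =
      ∑ k, p k * ((Kc L s (x + u k) + Kc L s (x - u k)) / 2) := by
    have : ∀ y : L, Wt L s y * (h y * Real.cosh ⟪(y : E), x⟫) =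
        ∑ k, p k / 2 * (Wt L s y * Real.cosh ⟪(y : E), x + u k⟫ +
          Wt L s y * Real.cosh ⟪(y : E), x - u k⟫) := by
      intro y
      rw [hu, Finset.sum_mul, Finset.mul_sum]
      refine Finset.sum_congr rfl fun k _ => ?_
      rw [inner_add_right, inner_sub_right, Real.cosh_add, Real.cosh_sub]
      ring
    simp_rw [this]
    rw [Summable.tsum_finsetSum fun k _ =>
      ((summable_Kc hL hs _).add (summable_Kc hL hs _)).mul_left _]
    refine Finset.sum_congr rfl fun k _ => ?_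
    rw [tsum_mul_left, (summable_Kc hL hs _).tsum_add (summable_Kc hL hs _)]
    unfold Kc; ring
  rw [e1, e2, Finset.mul_sum, Finset.mul_sum]
  refine Finset.sum_le_sum fun k _ => ?_
  have := Kc_corr hL hs x (u k)
  have := mul_le_mul_of_nonneg_left this (hp k)
  linarith

/-! ### the limit -/

lemma one_add_le_cosh (x : ℝ) : 1 + x ^ 2 / 2 ≤ Real.cosh x := by
  wlog hx : 0 ≤ x generalizing x with H
  · have := H (-x) (by linarith)
    rwa [Real.cosh_neg, neg_sq] at this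
  have h1 : Real.cosh x = 1 + 2 * Real.sinh (x / 2) ^ 2 := by
    have h3 := Real.cosh_two_mul (x / 2)
    have h2 := Real.cosh_sq (x / 2)
    rw [mul_div_cancel₀ _ (two_ne_zero)] at h3
    linarith
  have h2 : (x / 2) ^ 2 ≤ Real.sinh (x / 2) ^ 2 :=
    pow_le_pow_left₀ (by positivity) (Real.self_le_sinh_iff.2 (by positivity)) 2
  rw [h1]; linarith

lemma cosh_pow_le (c u : ℝ) (n : ℕ) : Real.cosh (c / √(n + 1) * u) ^ (n + 1) ≤
    Real.exp (c ^ 2 * u ^ 2 / 2) := by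
  have hn : (0 : ℝ) < n + 1 := by positivity
  have h1 := Real.cosh_le_exp_half_sq (c / √(n + 1) * u)
  calc Real.cosh (c / √(n + 1) * u) ^ (n + 1)
      ≤ Real.exp ((c / √(n + 1) * u) ^ 2 / 2) ^ (n + 1) :=
        pow_le_pow_left₀ (Real.cosh_pos _).le h1 _
    _ = _ := by
        rw [← Real.exp_nat_mul, mul_pow, div_pow, Real.sq_sqrt hn.le]
        congr 1
        push_cast
        field_simp

lemma cosh_pow_tendsto (c u : ℝ) :
    Tendsto (fun n : ℕ => Real.cosh (c / √(n + 1) * u) ^ (n + 1)) atTop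
      (𝓝 (Real.exp (c ^ 2 * u ^ 2 / 2))) := by
  have h1 : Tendsto (fun n : ℕ => (1 + (c ^ 2 * u ^ 2 / 2) / (n + 1 : ℕ)) ^ (n + 1)) atTop
      (𝓝 (Real.exp (c ^ 2 * u ^ 2 / 2))) :=
    (Real.tendsto_one_add_div_pow_exp (c ^ 2 * u ^ 2 / 2)).comp (tendsto_add_atTop_nat 1)
  refine tendsto_of_tendsto_of_tendsto_of_le_of_le h1 tendsto_const_nhds ?_ ?_
  · intro n
    have hn : (0 : ℝ) < n + 1 := by positivity
    have h2 := one_add_le_cosh (c / √(n + 1) * u)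
    refine pow_le_pow_left₀ (by positivity) ?_ _
    refine le_trans (le_of_eq ?_) h2
    rw [mul_pow, div_pow, Real.sq_sqrt hn.le]
    push_cast
    field_simp
  · intro n
    exact cosh_pow_le c u n

/-- the approximations of `exp (c² ‖y‖² / 2)`. -/
noncomputable def hn {ι : Type*} [Fintype ι] (b : OrthonormalBasis ι ℝ E) (c : ℝ) (n : ℕ)
    (y : E) : ℝ := ∏ i, Real.cosh ⟪y, (c / √(n + 1)) • b i⟫ ^ (n + 1)

lemma hn_mix {ι : Type*} [Fintype ι] (b : OrthonormalBasis ι ℝ E) (c : ℝ) (n : ℕ) :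
    Mix (hn b c n) := mix_prod Finset.univ (fun i => (c / √(n + 1)) • b i) (n + 1)

lemma exp_basis {ι : Type*} [Fintype ι] (b : OrthonormalBasis ι ℝ E) (c : ℝ) (y : E) :
    Real.exp (c ^ 2 * ‖y‖ ^ 2 / 2) = ∏ i, Real.exp (c ^ 2 * ⟪y, b i⟫ ^ 2 / 2) := by
  rw [← Real.exp_sum]
  congr 1
  have h : ‖y‖ ^ 2 = ∑ i, ⟪y, b i⟫ ^ 2 := by
    rw [← b.sum_sq_norm_inner_left y]
    exact Finset.sum_congr rfl fun i _ => by rw [Real.norm_eq_abs, sq_abs, real_inner_comm]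
  rw [h, Finset.mul_sum, Finset.sum_div]

lemma hn_le {ι : Type*} [Fintype ι] (b : OrthonormalBasis ι ℝ E) (c : ℝ) (n : ℕ) (y : E) :
    hn b c n y ≤ Real.exp (c ^ 2 * ‖y‖ ^ 2 / 2) := by
  rw [exp_basis b]
  unfold hn
  refine Finset.prod_le_prod (fun i _ => pow_nonneg (Real.cosh_pos _).le _) fun i _ => ?_
  rw [inner_smul_right]
  exact cosh_pow_le c ⟪y, b i⟫ n

lemma hn_nonneg {ι : Type*} [Fintype ι] (b : OrthonormalBasis ι ℝ E) (c : ℝ) (n : ℕ) (y : E) :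
    0 ≤ hn b c n y := Finset.prod_nonneg fun _ _ => pow_nonneg (Real.cosh_pos _).le _

lemma hn_tendsto {ι : Type*} [Fintype ι] (b : OrthonormalBasis ι ℝ E) (c : ℝ) (y : E) :
    Tendsto (fun n => hn b c n y) atTop (𝓝 (Real.exp (c ^ 2 * ‖y‖ ^ 2 / 2))) := by
  rw [exp_basis b]
  unfold hn
  refine tendsto_finsetProd _ fun i _ => ?_
  simp only [inner_smul_right]
  exact cosh_pow_tendsto c ⟪y, b i⟫

lemma Kc_scale (hL : Lat L) {s' : ℝ} (hs' : 0 < s') (hss : s' ≤ s) (x : E) :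
    Kc L s x * Th L s' 0 ≤ Th L s 0 * Kc L s' x := by
  have hs : 0 < s := hs'.trans_le hss
  have : FiniteDimensional ℝ E := finiteDimensional_of_lat hL
  set b := stdOrthonormalBasis ℝ E
  set c := √(s ^ 2 - s' ^ 2) with hc
  have hc2 : c ^ 2 = s ^ 2 - s' ^ 2 := Real.sq_sqrt (by nlinarith)
  have hW : ∀ y : L, Wt L s y * Real.exp (c ^ 2 * ‖(y : E)‖ ^ 2 / 2) = Wt L s' y := by
    intro y
    unfold Wt
    rw [← Real.exp_add, hc2]
    congr 1; ring
  have hsum : Summable fun y : L => Wt L s' y := by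
    refine (summable_Wt_exp hL hs' (0 : E) 1).congr fun y => by simp
  have t1 : Tendsto (fun n => ∑' y : L, Wt L s y * hn b c n y) atTop
      (𝓝 (∑' y : L, Wt L s' y)) := by
    refine tendsto_tsum_of_dominated_convergence hsum (fun y => ?_) (Eventually.of_forall
      fun n y => ?_)
    · rw [← hW y]
      exact (hn_tendsto b c (y : E)).const_mul _
    · rw [Real.norm_eq_abs, abs_of_nonneg (mul_nonneg (Wt_nonneg y) (hn_nonneg b c n y)), ← hW y]
      exact mul_le_mul_of_nonneg_left (hn_le b c n y) (Wt_nonneg y)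
  have t2 : Tendsto (fun n => ∑' y : L, Wt L s y * (hn b c n y * Real.cosh ⟪(y : E), x⟫)) atTop
      (𝓝 (Kc L s' x)) := by
    refine tendsto_tsum_of_dominated_convergence (summable_Kc hL hs' x) (fun y => ?_)
      (Eventually.of_forall fun n y => ?_)
    · rw [← hW y, mul_assoc]
      exact ((hn_tendsto b c (y : E)).mul_const _).const_mul _
    · rw [Real.norm_eq_abs, abs_of_nonneg (mul_nonneg (Wt_nonneg y)
        (mul_nonneg (hn_nonneg b c n y) (Real.cosh_pos _).le)), ← hW y, mul_assoc]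
      exact mul_le_mul_of_nonneg_left
        (mul_le_mul_of_nonneg_right (hn_le b c n y) (Real.cosh_pos _).le) (Wt_nonneg y)
  have t3 := t1.const_mul (Kc L s x)
  have t4 := t2.const_mul (Th L s 0)
  rw [tsum_Wt hs'] at t3
  exact le_of_tendsto_of_tendsto' t3 t4 fun n => mix_corr hL hs (hn_mix b c n) x

end R2aux

theorem sig_scale (hL : Lat L) {s' : ℝ} (hs' : 0 < s') (hss : s' ≤ s) (a : E) :
    s' ^ 2 * Ex L s 0 (fun y => ⟪y, a⟫ ^ 2) ≤ s ^ 2 * Ex L s' 0 (fun y => ⟪y, a⟫ ^ 2) := by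
  have hs : 0 < s := hs'.trans_le hss
  rw [Ex_pow, Ex_pow]
  set T0 := Th L s (0 : E) with hT0
  set S0 := Th L s' (0 : E) with hS0
  have hT : 0 < T0 := Th_pos hL hs 0
  have hS : 0 < S0 := Th_pos hL hs' 0
  set A := G L s' 0 a with hA
  set B := G L s 0 a with hB
  have dA : ∀ p t, HasDerivAt (fun t => A p (s'⁻¹ * t)) (A (p + 1) (s'⁻¹ * t) * s'⁻¹) t := by
    intro p t
    have h1 : HasDerivAt (fun t : ℝ => s'⁻¹ * t) s'⁻¹ t := by
      simpa using (hasDerivAt_id t).const_mul s'⁻¹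
    exact (hasDerivAt_G hL hs' 0 a p (s'⁻¹ * t)).comp t h1
  have dB : ∀ p t, HasDerivAt (fun t => B p (s⁻¹ * t)) (B (p + 1) (s⁻¹ * t) * s⁻¹) t := by
    intro p t
    have h1 : HasDerivAt (fun t : ℝ => s⁻¹ * t) s⁻¹ t := by
      simpa using (hasDerivAt_id t).const_mul s⁻¹
    exact (hasDerivAt_G hL hs 0 a p (s⁻¹ * t)).comp t h1
  have hA0 : A 0 0 = S0 := G_zero_zero 0 a
  have hB0 : B 0 0 = T0 := G_zero_zero 0 a
  have hB1 : B 1 0 = 0 := G_one_zero a
  have hA1 : A 1 0 = 0 := G_one_zero a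
  have hKA : ∀ t : ℝ, Kc L s' (t • a) = A 0 (s'⁻¹ * t) := by
    intro t
    rw [Kc_eq hL hs', hA, G_zero, inner_zero_left, mul_zero, zero_add, zero_add, smul_smul,
      norm_smul, mul_pow, Real.norm_eq_abs, sq_abs]
  have hKB : ∀ t : ℝ, Kc L s (t • a) = B 0 (s⁻¹ * t) := by
    intro t
    rw [Kc_eq hL hs, hB, G_zero, inner_zero_left, mul_zero, zero_add, zero_add, smul_smul,
      norm_smul, mul_pow, Real.norm_eq_abs, sq_abs]
  have key : 0 ≤ T0 * (A 2 0 * s'⁻¹ * s'⁻¹) - S0 * (B 2 0 * s⁻¹ * s⁻¹) := by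
    refine snd_nonneg
      (f := fun t => T0 * A 0 (s'⁻¹ * t) - S0 * B 0 (s⁻¹ * t))
      (f1 := fun t => T0 * (A 1 (s'⁻¹ * t) * s'⁻¹) - S0 * (B 1 (s⁻¹ * t) * s⁻¹)) ?_ ?_ ?_ ?_ ?_
    · intro t
      exact ((dA 0 t).const_mul T0).sub ((dB 0 t).const_mul S0)
    · have h1 := (((dA 1 0).mul_const s'⁻¹).const_mul T0).sub
        (((dB 1 0).mul_const s⁻¹).const_mul S0)
      simp only [mul_zero] at h1
      exact h1
    · simp only [mul_zero]; rw [hB1, hA1]; ring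
    · simp only [mul_zero]; rw [hA0, hB0]; ring
    · intro t
      have h := Kc_scale hL hs' hss (t • a)
      rw [hKA, hKB] at h
      linarith
  have h1 : s' ^ 2 * (B 2 0 / T0) = (s' ^ 2 * s ^ 2 / (T0 * S0)) * (S0 * (B 2 0 * s⁻¹ * s⁻¹)) := by
    field_simp
  have h2 : s ^ 2 * (A 2 0 / S0) = (s' ^ 2 * s ^ 2 / (T0 * S0)) *
      (T0 * (A 2 0 * s'⁻¹ * s'⁻¹)) := by
    field_simp
  rw [h1, h2]
  exact mul_le_mul_of_nonneg_left (by linarith) (by positivity)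

end R2

end Pool.Agent.BCD
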