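import Pool.Agent.Work.MP_bc8e1e_an.D.R3a

/-!
# The Ornstein-Uhlenbeck correlation inequality
-/

set_option autoImplicit false

open MeasureTheory ProbabilityTheory
open scoped RealInnerProductSpace

namespace Pool.Agent.BCD

section R3

variable {E : Type*} [NormedAddCommGroup E] [InnerProductSpace ℝ E] [FiniteDimensional ℝ E]
  [MeasurableSpace E] [BorelSpace E]

namespace R3

/-- The mean of `φ (c x + s z)`. -/
noncomputable def S (c s : ℝ) (φ : E → ℝ) (x : E) : ℝ := ∫ z, φ (c • x + s • z) ∂stdGaussian E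

theorem bint {α : Type*} [MeasurableSpace α] {μ : Measure α} [IsFiniteMeasure μ] {f : α → ℝ}
    (hf : Measurable f) {B : ℝ} (hB : ∀ z, |f z| ≤ B) : Integrable f μ :=
  Integrable.of_bound hf.aestronglyMeasurable B (Filter.Eventually.of_forall hB)

variable {φ ψ : E → ℝ} {B C c s : ℝ}

theorem S_measurable (hm : Measurable φ) : Measurable (S c s φ) := by
  unfold S
  have h : StronglyMeasurable (fun p : E × E => φ (c • p.1 + s • p.2)) := by
    apply Measurable.stronglyMeasurable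
    fun_prop
  exact (h.integral_prod_right (ν := stdGaussian E)).measurable

theorem S_bdd (hB : ∀ z, |φ z| ≤ B) (x : E) : |S c s φ x| ≤ B := by
  unfold S
  have h := norm_integral_le_of_norm_le_const (μ := stdGaussian E) (f := fun z => φ (c • x + s • z))
    (C := B) (Filter.Eventually.of_forall fun z => hB _)
  simpa using h

/-- The mean over both variables is invariant under rotations. -/
theorem rot_integral (h : c ^ 2 + s ^ 2 = 1) {F : E × E → ℝ} (hF : Measurable F) :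
    ∫ p, F (c • p.1 + s • p.2, s • p.1 - c • p.2) ∂(stdGaussian E).prod (stdGaussian E) =
      ∫ p, F p ∂(stdGaussian E).prod (stdGaussian E) := by
  have hmp := rot_mp_general (E := E) h
  conv_rhs => rw [← hmp.map_eq]
  rw [integral_map hmp.measurable.aemeasurable hF.aestronglyMeasurable]

/-- The integral of `φ (a z + b w)`. -/
theorem conv_eq (hm : Measurable φ) (hB : ∀ z, |φ z| ≤ B) {a b t : ℝ} (ht : 0 < t)
    (h : a ^ 2 + b ^ 2 = t ^ 2) (x : E) :
    ∫ z, ∫ w, φ (x + (a • z + b • w)) ∂stdGaussian E ∂stdGaussian E =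
      ∫ z, φ (x + t • z) ∂stdGaussian E := by
  have h1 : (a / t) ^ 2 + (b / t) ^ 2 = 1 := by
    field_simp
    exact h
  have hmeas : Measurable (fun p : E × E => φ (x + (a • p.1 + b • p.2))) := by fun_prop
  have hmeas2 : Measurable (fun p : E × E => φ (x + t • p.1)) := by fun_prop
  have e1 := integral_prod (μ := stdGaussian E) (ν := stdGaussian E)
    (fun p : E × E => φ (x + (a • p.1 + b • p.2))) (bint hmeas fun p => hB _)
  have e2 := integral_prod (μ := stdGaussian E) (ν := stdGaussian E)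
    (fun p : E × E => φ (x + t • p.1)) (bint hmeas2 fun p => hB _)
  simp only at e1 e2
  rw [← e1]
  have e3 := rot_integral h1 hmeas2
  rw [e2] at e3
  simp only [integral_const, probReal_univ, one_smul] at e3
  rw [← e3]
  congr 1
  ext p
  congr 2
  rw [smul_add, smul_smul, smul_smul, mul_div_cancel₀ _ ht.ne', mul_div_cancel₀ _ ht.ne']

/-- The operator is symmetric. -/
theorem S_symm (h : c ^ 2 + s ^ 2 = 1) (hφ : Measurable φ) (hψ : Measurable ψ)
    (hB : ∀ z, |φ z| ≤ B) (hC : ∀ z, |ψ z| ≤ C) :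
    ∫ x, ψ x * S c s φ x ∂stdGaussian E = ∫ x, φ x * S c s ψ x ∂stdGaussian E := by
  have hBC : ∀ x y, |φ x * ψ y| ≤ B * C := fun x y => by
    rw [abs_mul]
    exact mul_le_mul (hB _) (hC _) (abs_nonneg _) ((abs_nonneg _).trans (hB x))
  have hm1 : Measurable (fun p : E × E => ψ p.1 * φ (c • p.1 + s • p.2)) := by fun_prop
  have hm2 : Measurable (fun p : E × E => φ p.1 * ψ (c • p.1 + s • p.2)) := by fun_prop
  have e1 := integral_prod (μ := stdGaussian E) (ν := stdGaussian E) _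
    (bint hm1 fun p => by rw [mul_comm]; exact hBC _ _)
  have e2 := integral_prod (μ := stdGaussian E) (ν := stdGaussian E) _ (bint hm2 fun p => hBC _ _)
  simp only [integral_const_mul] at e1 e2
  unfold S
  rw [← e1, ← e2, ← rot_integral h hm1]
  congr 1
  ext p
  simp only
  rw [mul_comm]
  congr 2
  have e : c • (c • p.1 + s • p.2) + s • (s • p.1 - c • p.2) = (c ^ 2 + s ^ 2) • p.1 := by
    module
  rw [e, h, one_smul]

theorem bint_mul (hφ : Measurable φ) (hψ : Measurable ψ)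
    (hB : ∀ z, |φ z| ≤ B) (hC : ∀ z, |ψ z| ≤ C) :
    Integrable (fun z => φ z * ψ z) (stdGaussian E) :=
  bint (hφ.mul hψ) fun z => by
    show |φ z * ψ z| ≤ B * C
    rw [abs_mul]
    exact mul_le_mul (hB _) (hC _) (abs_nonneg _) ((abs_nonneg _).trans (hB z))

/-- `‖T_r φ‖² = ⟨φ, T_{r²} φ⟩`. -/
theorem S_sq {r : ℝ} (h0 : 0 ≤ r) (h1 : r < 1) (hφ : Measurable φ) (hB : ∀ z, |φ z| ≤ B) :
    ∫ x, S r (√(1 - r ^ 2)) φ x ^ 2 ∂stdGaussian E =
      ∫ x, φ x * S (r ^ 2) (√(1 - (r ^ 2) ^ 2)) φ x ∂stdGaussian E := by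
  have h2 : 0 < 1 - r ^ 2 := by nlinarith
  have hs : r ^ 2 + (√(1 - r ^ 2)) ^ 2 = 1 := by rw [Real.sq_sqrt h2.le]; ring
  have h3 : 0 < 1 - (r ^ 2) ^ 2 := by nlinarith [sq_nonneg r]
  have e := S_symm hs hφ (S_measurable (c := r) (s := √(1 - r ^ 2)) hφ) hB (S_bdd hB)
  simp only [← sq] at e
  rw [e]
  congr 1
  ext x
  congr 1
  unfold S
  have e2 := conv_eq hφ hB (a := r * √(1 - r ^ 2)) (b := √(1 - r ^ 2)) (t := √(1 - (r ^ 2) ^ 2))
    (Real.sqrt_pos.2 h3) (by rw [mul_pow, Real.sq_sqrt h2.le, Real.sq_sqrt h3.le]; ring) (r ^ 2 • x)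
  rw [← e2]
  refine integral_congr_ae (Filter.Eventually.of_forall fun z => ?_)
  simp only
  refine integral_congr_ae (Filter.Eventually.of_forall fun w => ?_)
  simp only
  congr 1
  module

/-- the linear part of `φ` -/
noncomputable def lin (φ : E → ℝ) : E := ∫ z, φ z • z ∂stdGaussian E

theorem integrable_norm_sq : Integrable (fun z : E => ‖z‖ ^ 2) (stdGaussian E) :=
  (IsGaussian.memLp_two_id (μ := stdGaussian E)).integrable_norm_pow (by norm_num)

theorem integrable_norm : Integrable (fun z : E => ‖z‖) (stdGaussian E) :=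
  IsGaussian.integrable_id.norm

theorem integrable_bdd_smul (hφ : Measurable φ) (hB : ∀ z, |φ z| ≤ B) :
    Integrable (fun z : E => φ z • z) (stdGaussian E) := by
  refine Integrable.mono (integrable_norm.const_mul B) (hφ.smul measurable_id).aestronglyMeasurable
    (Filter.Eventually.of_forall fun z => ?_)
  rw [norm_smul, norm_mul, Real.norm_eq_abs, Real.norm_eq_abs, norm_norm]
  exact mul_le_mul_of_nonneg_right ((hB z).trans (le_abs_self B)) (norm_nonneg _)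

theorem integrable_bdd_inner (hφ : Measurable φ) (hB : ∀ z, |φ z| ≤ B) (v : E) :
    Integrable (fun z : E => φ z * ⟪z, v⟫) (stdGaussian E) := by
  have h : Integrable (fun z : E => ⟪φ z • z, v⟫) (stdGaussian E) :=
    (integrable_bdd_smul hφ hB).inner_const v
  simpa only [real_inner_smul_left] using h

theorem inner_lin (hφ : Measurable φ) (hB : ∀ z, |φ z| ≤ B) (v : E) :
    ∫ z, φ z * ⟪z, v⟫ ∂stdGaussian E = ⟪lin φ, v⟫ := by
  unfold lin
  rw [real_inner_comm, ← integral_inner (integrable_bdd_smul hφ hB)]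
  congr 1
  ext z
  rw [real_inner_smul_right, real_inner_comm]

theorem integral_inner_zero (v : E) : ∫ z, ⟪z, v⟫ ∂stdGaussian E = 0 := by
  have h := integral_inner (𝕜 := ℝ) (μ := stdGaussian E) (f := fun z : E => z)
    IsGaussian.integrable_id v
  rw [integral_id_stdGaussian, inner_zero_right] at h
  rw [← h]
  congr 1
  ext z
  rw [real_inner_comm]

theorem integrable_inner_sq (v : E) : Integrable (fun z : E => ⟪z, v⟫ ^ 2) (stdGaussian E) := by
  refine Integrable.mono (integrable_norm_sq.const_mul (‖v‖ ^ 2)) (by fun_prop)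
    (Filter.Eventually.of_forall fun z => ?_)
  rw [Real.norm_eq_abs, Real.norm_eq_abs, abs_of_nonneg (sq_nonneg _), abs_of_nonneg (by positivity),
    ← mul_pow, mul_comm, ← sq_abs]
  exact pow_le_pow_left₀ (abs_nonneg _) (abs_real_inner_le_norm _ _) 2

theorem integral_inner_sq (v : E) : ∫ z, ⟪z, v⟫ ^ 2 ∂stdGaussian E = ‖v‖ ^ 2 := by
  have h := variance_dual_stdGaussian (E := E) (innerSL ℝ v)
  rw [variance_eq_integral (by fun_prop)] at h
  simp only [innerSL_apply_norm] at h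
  rw [← h]
  have h0 : ∫ x, (innerSL ℝ v) x ∂stdGaussian E = 0 := integral_strongDual_stdGaussian _
  rw [h0]
  congr 1
  ext z
  rw [sub_zero, innerSL_apply_apply, real_inner_comm]

/-- the linear part of `T_r φ` -/
theorem S_lin (h : c ^ 2 + s ^ 2 = 1) (hφ : Measurable φ) (hB : ∀ z, |φ z| ≤ B) (v : E) :
    ∫ x, S c s φ x * ⟪x, v⟫ ∂stdGaussian E = c * ∫ x, φ x * ⟪x, v⟫ ∂stdGaussian E := by
  have hm1 : Measurable (fun p : E × E => φ (c • p.1 + s • p.2) * ⟪p.1, v⟫) := by fun_prop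
  have hi : Integrable (fun p : E × E => φ (c • p.1 + s • p.2) * ⟪p.1, v⟫)
      ((stdGaussian E).prod (stdGaussian E)) := by
    have h1 : Integrable (fun p : E × E => B * (‖p.1‖ * ‖v‖))
        ((stdGaussian E).prod (stdGaussian E)) :=
      ((integrable_norm (E := E)).comp_fst (stdGaussian E)).mul_const _ |>.const_mul _
    refine h1.mono hm1.aestronglyMeasurable (Filter.Eventually.of_forall fun p => ?_)
    rw [norm_mul, norm_mul, Real.norm_eq_abs, Real.norm_eq_abs, Real.norm_eq_abs, Real.norm_eq_abs]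
    refine mul_le_mul ((hB _).trans (le_abs_self B)) ((abs_real_inner_le_norm _ _).trans
      (le_abs_self _)) (abs_nonneg _) (abs_nonneg _)
  have e1 := integral_prod (μ := stdGaussian E) (ν := stdGaussian E) _ hi
  simp only [integral_mul_const] at e1
  unfold S
  rw [← e1, ← rot_integral h hm1]
  have e2 : ∀ p : E × E, φ (c • (c • p.1 + s • p.2) + s • (s • p.1 - c • p.2)) *
      ⟪c • p.1 + s • p.2, v⟫ = c * (φ p.1 * ⟪p.1, v⟫) + s * (φ p.1 * ⟪p.2, v⟫) := by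
    intro p
    have e : c • (c • p.1 + s • p.2) + s • (s • p.1 - c • p.2) = (c ^ 2 + s ^ 2) • p.1 := by
      module
    rw [e, h, one_smul, inner_add_left, real_inner_smul_left, real_inner_smul_left]
    ring
  simp only [e2]
  have i1 : Integrable (fun p : E × E => φ p.1 * ⟪p.1, v⟫)
      ((stdGaussian E).prod (stdGaussian E)) :=
    (integrable_bdd_inner hφ hB v).comp_fst (stdGaussian E)
  have i2 : Integrable (fun p : E × E => φ p.1 * ⟪p.2, v⟫)
      ((stdGaussian E).prod (stdGaussian E)) := by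
    have h1 : Integrable φ (stdGaussian E) := bint hφ hB
    have h2 : Integrable (fun z : E => ⟪z, v⟫) (stdGaussian E) :=
      (IsGaussian.integrable_id (μ := stdGaussian E)).inner_const v
    exact h1.mul_prod h2
  rw [integral_add (i1.const_mul c) (i2.const_mul s), integral_const_mul, integral_const_mul,
    integral_prod_mul φ (fun z => ⟪z, v⟫), integral_inner_zero, mul_zero, mul_zero, add_zero]
  congr 1
  have e3 := integral_prod (μ := stdGaussian E) (ν := stdGaussian E) _ i1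
  simpa using e3

/-- The kernel of `T_r`. -/
noncomputable def K (r : ℝ) (x y : E) : ℝ :=
  (√(1 - r ^ 2) ^ Module.finrank ℝ E)⁻¹ *
    Real.exp ((2 * r * ⟪x, y⟫ - r ^ 2 * (‖x‖ ^ 2 + ‖y‖ ^ 2)) / (2 * (1 - r ^ 2)))

theorem S_kernel {r : ℝ} (h0 : 0 ≤ r) (h1 : r < 1) (φ : E → ℝ) (x : E) :
    S r (√(1 - r ^ 2)) φ x = ∫ y, K r x y * φ y ∂stdGaussian E := by
  have h2 : 0 < 1 - r ^ 2 := by nlinarith
  have hs : 0 < √(1 - r ^ 2) := Real.sqrt_pos.2 h2
  unfold S
  rw [integral_stdG, integral_stdG]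
  set s := √(1 - r ^ 2) with hsdef
  have hs2 : s ^ 2 = 1 - r ^ 2 := Real.sq_sqrt h2.le
  set A : ℝ := (2 * Real.pi) ^ (-(Module.finrank ℝ E : ℝ) / 2) with hA
  set g : E → ℝ := fun w : E => A * Real.exp (-(‖s⁻¹ • w‖ ^ 2 / 2)) * φ (r • x + w) with hg
  have e1 : ∫ z, A * Real.exp (-(‖z‖ ^ 2 / 2)) * φ (r • x + s • z) = ∫ z, g (s • z) := by
    congr 1
    ext z
    simp only [hg]
    rw [smul_smul, inv_mul_cancel₀ hs.ne', one_smul]
  rw [e1, Measure.integral_comp_smul_of_nonneg (μ := (volume : Measure E)) (hR := hs.le), smul_eq_mul,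
    ← integral_const_mul]
  rw [← integral_sub_right_eq_self (μ := (volume : Measure E)) _ (r • x)]
  refine integral_congr_ae (Filter.Eventually.of_forall fun y => ?_)
  simp only [hg, add_sub_cancel]
  unfold K
  have e2 : -(‖s⁻¹ • (y - r • x)‖ ^ 2 / 2) = -(‖y‖ ^ 2 / 2) +
      (2 * r * ⟪x, y⟫ - r ^ 2 * (‖x‖ ^ 2 + ‖y‖ ^ 2)) / (2 * (1 - r ^ 2)) := by
    rw [norm_smul, mul_pow, norm_sub_sq_real, real_inner_smul_right, norm_smul, Real.norm_eq_abs,
      Real.norm_eq_abs, sq_abs, inv_pow, mul_pow, sq_abs, hs2, real_inner_comm]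
    field_simp
    ring
  rw [e2, Real.exp_add]
  ring

theorem abs_exp_sub_le (u : ℝ) : |Real.exp u - 1 - u| ≤ u ^ 2 * Real.exp |u| := by
  have h := Complex.norm_exp_sub_sum_le_norm_mul_exp (u : ℂ) 2
  have e : Complex.exp (u : ℂ) - ∑ m ∈ Finset.range 2, (u : ℂ) ^ m / (m.factorial : ℂ) =
      ((Real.exp u - 1 - u : ℝ) : ℂ) := by
    rw [Finset.sum_range_succ, Finset.sum_range_one]
    push_cast
    simp
    ring
  rw [e, Complex.norm_real, Complex.norm_real, Real.norm_eq_abs, Real.norm_eq_abs, sq_abs] at h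
  exact h

omit [FiniteDimensional ℝ E] [MeasurableSpace E] [BorelSpace E] in
theorem K_bound {r : ℝ} (h0 : 0 ≤ r) (h1 : r ≤ 1 / 16) (x y : E) :
    |K r x y - 1 - r * ⟪x, y⟫| ≤ 256 * Real.exp (3 / 16 * (Module.finrank ℝ E + 1)) * r ^ 2 *
      (Real.exp (3 / 16 * ‖x‖ ^ 2) * Real.exp (3 / 16 * ‖y‖ ^ 2)) := by
  have h2 : (255 : ℝ) / 256 ≤ 1 - r ^ 2 := by nlinarith
  have h2' : 0 < 1 - r ^ 2 := by linarith
  set k : ℝ := (Module.finrank ℝ E : ℝ) with hk
  have hk0 : 0 ≤ k := by rw [hk]; positivity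
  set n2 : ℝ := ‖x‖ ^ 2 + ‖y‖ ^ 2 with hn2
  have hn0 : 0 ≤ n2 := by rw [hn2]; positivity
  have hin : |⟪x, y⟫| ≤ n2 / 2 := by
    have := abs_real_inner_le_norm x y
    nlinarith [sq_nonneg (‖x‖ - ‖y‖)]
  set a : ℝ := -(k / 2 * Real.log (1 - r ^ 2)) with ha
  set b : ℝ := (2 * r * ⟪x, y⟫ - r ^ 2 * n2) / (2 * (1 - r ^ 2)) with hb
  have hK : K r x y = Real.exp (a + b) := by
    rw [Real.exp_add, K, ha]
    congr 1
    rw [Real.exp_neg, show k / 2 * Real.log (1 - r ^ 2) = (Module.finrank ℝ E : ℝ) *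
      Real.log (√(1 - r ^ 2)) by rw [Real.log_sqrt h2'.le, hk]; ring, Real.exp_nat_mul,
      Real.exp_log (Real.sqrt_pos.2 h2')]
  have hlog1 : Real.log (1 - r ^ 2) ≤ 0 := Real.log_nonpos h2'.le (by nlinarith [sq_nonneg r])
  have hlog2 : -(2 * r ^ 2) ≤ Real.log (1 - r ^ 2) := by
    have := Real.one_sub_inv_le_log_of_pos h2'
    have h3 : (1 - r ^ 2)⁻¹ ≤ 1 + 2 * r ^ 2 := by
      rw [inv_le_iff_one_le_mul₀ h2']
      nlinarith [sq_nonneg r]
    linarith
  have ha0 : 0 ≤ a := by rw [ha]; nlinarith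
  have ha1 : a ≤ k * r ^ 2 := by rw [ha]; nlinarith
  have hr2 : 0 ≤ r ^ 2 := sq_nonneg r
  have hb1 : |b - r * ⟪x, y⟫| ≤ r ^ 2 * n2 := by
    have e : b - r * ⟪x, y⟫ = (r ^ 2 * (2 * r * ⟪x, y⟫ - n2)) / (2 * (1 - r ^ 2)) := by
      rw [hb]
      field_simp
      ring
    rw [e, abs_div, abs_mul, abs_of_nonneg hr2, abs_of_pos (by linarith : 0 < 2 * (1 - r ^ 2)),
      div_le_iff₀ (by linarith)]
    have h4 : |2 * r * ⟪x, y⟫ - n2| ≤ 17 / 16 * n2 := by
      have h5 : |2 * r * ⟪x, y⟫| ≤ n2 / 16 := by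
        rw [abs_mul, abs_of_nonneg (by linarith : 0 ≤ 2 * r)]
        have h6 := mul_le_mul (by linarith : 2 * r ≤ 1 / 8) hin (abs_nonneg _) (by norm_num)
        linarith
      rw [abs_le] at h5 ⊢
      constructor <;> linarith
    have h7 : r ^ 2 * |2 * r * ⟪x, y⟫ - n2| ≤ r ^ 2 * (17 / 16 * n2) :=
      mul_le_mul_of_nonneg_left h4 hr2
    have h8 : r ^ 2 * n2 * (2 * (255 / 256)) ≤ r ^ 2 * n2 * (2 * (1 - r ^ 2)) :=
      mul_le_mul_of_nonneg_left (by linarith) (by positivity)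
    have h9 : 0 ≤ r ^ 2 * n2 := by positivity
    nlinarith
  set Q : ℝ := k + 1 + n2 with hQ
  have hQ1 : 1 ≤ Q := by rw [hQ]; linarith
  have hu1 : |(a + b) - r * ⟪x, y⟫| ≤ r ^ 2 * Q := by
    have : (a + b) - r * ⟪x, y⟫ = a + (b - r * ⟪x, y⟫) := by ring
    rw [this]
    refine (abs_add_le _ _).trans ?_
    rw [abs_of_nonneg ha0, hQ]
    nlinarith
  have hu2 : |a + b| ≤ r * Q := by
    have h3 : |r * ⟪x, y⟫| ≤ r * (n2 / 2) := by
      rw [abs_mul, abs_of_nonneg h0]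
      exact mul_le_mul_of_nonneg_left hin h0
    have h4 : |a + b| ≤ |(a + b) - r * ⟪x, y⟫| + |r * ⟪x, y⟫| := by
      have := abs_add_le ((a + b) - r * ⟪x, y⟫) (r * ⟪x, y⟫)
      rwa [sub_add_cancel] at this
    have h5 : |(a + b) - r * ⟪x, y⟫| ≤ r ^ 2 * (k + n2) := by
      have : (a + b) - r * ⟪x, y⟫ = a + (b - r * ⟪x, y⟫) := by ring
      rw [this]
      refine (abs_add_le _ _).trans ?_
      rw [abs_of_nonneg ha0]
      nlinarith
    have h6 : r ^ 2 * (k + n2) ≤ r * ((k + n2) / 16) := by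
      have : r * r * (k + n2) ≤ r * (1 / 16) * (k + n2) := by gcongr
      nlinarith
    have h7 : r * ((k + n2) / 16) + r * (n2 / 2) ≤ r * Q := by
      rw [← mul_add]
      apply mul_le_mul_of_nonneg_left _ h0
      rw [hQ]
      linarith
    linarith
  have hQr : r * Q ≤ Q / 16 := by nlinarith
  have h3 : |Real.exp (a + b) - 1 - (a + b)| ≤ r ^ 2 * (Q ^ 2 * Real.exp (Q / 16)) := by
    refine (abs_exp_sub_le _).trans ?_
    have h4 : (a + b) ^ 2 ≤ (r * Q) ^ 2 := by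
      rw [← sq_abs]
      exact pow_le_pow_left₀ (abs_nonneg _) hu2 2
    have h5 : Real.exp |a + b| ≤ Real.exp (Q / 16) := Real.exp_le_exp.2 (hu2.trans hQr)
    calc (a + b) ^ 2 * Real.exp |a + b| ≤ (r * Q) ^ 2 * Real.exp (Q / 16) := by gcongr
      _ = r ^ 2 * (Q ^ 2 * Real.exp (Q / 16)) := by ring
  have h4 : Q ≤ Q ^ 2 * Real.exp (Q / 16) := by
    have h5 : 1 ≤ Real.exp (Q / 16) := Real.one_le_exp (by linarith)
    have h6 : Q ≤ Q ^ 2 := by nlinarith
    calc Q ≤ Q ^ 2 * 1 := by linarith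
      _ ≤ Q ^ 2 * Real.exp (Q / 16) := by gcongr
  have h5 : Q ^ 2 ≤ 128 * Real.exp (Q / 8) := by
    have := Real.quadratic_le_exp_of_nonneg (x := Q / 8) (by linarith)
    nlinarith
  have h6 : Q ^ 2 * Real.exp (Q / 16) ≤ 128 * Real.exp (3 / 16 * Q) := by
    calc Q ^ 2 * Real.exp (Q / 16) ≤ 128 * Real.exp (Q / 8) * Real.exp (Q / 16) := by gcongr
      _ = 128 * Real.exp (3 / 16 * Q) := by
        rw [mul_assoc, ← Real.exp_add]
        congr 2
        ring
  have h7 : Real.exp (3 / 16 * Q) = Real.exp (3 / 16 * (k + 1)) *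
      (Real.exp (3 / 16 * ‖x‖ ^ 2) * Real.exp (3 / 16 * ‖y‖ ^ 2)) := by
    rw [← Real.exp_add, ← Real.exp_add, hQ, hn2]
    congr 1
    ring
  rw [hK]
  have h8 : Real.exp (a + b) - 1 - r * ⟪x, y⟫ = (Real.exp (a + b) - 1 - (a + b)) +
      ((a + b) - r * ⟪x, y⟫) := by ring
  rw [h8]
  refine (abs_add_le _ _).trans ?_
  have h9 : r ^ 2 * Q ≤ r ^ 2 * (Q ^ 2 * Real.exp (Q / 16)) := mul_le_mul_of_nonneg_left h4 hr2
  have h10 : r ^ 2 * (Q ^ 2 * Real.exp (Q / 16)) ≤ r ^ 2 * (128 * Real.exp (3 / 16 * Q)) :=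
    mul_le_mul_of_nonneg_left h6 hr2
  rw [h7] at h10
  linarith

theorem integrable_exp_gauss : Integrable (fun z : E => Real.exp (3 / 16 * ‖z‖ ^ 2))
    (stdGaussian E) := by
  rw [integrable_stdG]
  have h := (integrable_exp_sq (E := E) (c := 5 / 16) (by norm_num)).const_mul
    ((2 * Real.pi) ^ (-(Module.finrank ℝ E : ℝ) / 2))
  refine h.congr (Filter.Eventually.of_forall fun z => ?_)
  simp only [den, smul_eq_mul]
  rw [mul_assoc, ← Real.exp_add]
  congr 2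
  ring

omit [FiniteDimensional ℝ E] [MeasurableSpace E] [BorelSpace E] in
theorem K_continuous (r : ℝ) (x : E) : Continuous (K r x) := by
  unfold K
  fun_prop

theorem S_sub_lin_le {r : ℝ} (h0 : 0 ≤ r) (h1 : r ≤ 1 / 16) (hφ : Measurable φ)
    (hB : ∀ z, |φ z| ≤ B) (hz : ∫ z, φ z ∂stdGaussian E = 0) (x : E) :
    |S r (√(1 - r ^ 2)) φ x - r * ⟪lin φ, x⟫| ≤
      256 * Real.exp (3 / 16 * (Module.finrank ℝ E + 1)) * r ^ 2 * Real.exp (3 / 16 * ‖x‖ ^ 2) * B *
        ∫ z, Real.exp (3 / 16 * ‖z‖ ^ 2) ∂stdGaussian E := by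
  have hB0 : 0 ≤ B := (abs_nonneg _).trans (hB 0)
  set C0 : ℝ := 256 * Real.exp (3 / 16 * (Module.finrank ℝ E + 1)) * r ^ 2 with hC0
  have hC0' : 0 ≤ C0 := by rw [hC0]; positivity
  have hbd : ∀ y : E, |(K r x y - 1 - r * ⟪x, y⟫) * φ y| ≤
      C0 * Real.exp (3 / 16 * ‖x‖ ^ 2) * B * Real.exp (3 / 16 * ‖y‖ ^ 2) := by
    intro y
    rw [abs_mul]
    have h := mul_le_mul (K_bound h0 h1 x y) (hB y) (abs_nonneg _) (by positivity)
    refine h.trans (le_of_eq ?_)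
    rw [hC0]
    ring
  have hm : AEStronglyMeasurable (fun y : E => (K r x y - 1 - r * ⟪x, y⟫) * φ y)
      (stdGaussian E) := by
    have := (K_continuous r x).measurable
    exact (Measurable.mul (by fun_prop) hφ).aestronglyMeasurable
  have hi : Integrable (fun y : E => (K r x y - 1 - r * ⟪x, y⟫) * φ y) (stdGaussian E) :=
    ((integrable_exp_gauss (E := E)).const_mul _).mono' hm (Filter.Eventually.of_forall hbd)
  have h2 := integrable_bdd_inner hφ hB x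
  have h3 : Integrable φ (stdGaussian E) := bint hφ hB
  have e : S r (√(1 - r ^ 2)) φ x - r * ⟪lin φ, x⟫ =
      ∫ y, (K r x y - 1 - r * ⟪x, y⟫) * φ y ∂stdGaussian E := by
    rw [S_kernel h0 (by linarith), ← inner_lin hφ hB x, ← integral_const_mul]
    have e4 : ∫ y, K r x y * φ y ∂stdGaussian E =
        ∫ y, ((K r x y - 1 - r * ⟪x, y⟫) * φ y + φ y) + r * (φ y * ⟪y, x⟫) ∂stdGaussian E := by
      congr 1
      ext y
      rw [real_inner_comm x y]
      ring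
    have hi3 : Integrable (fun y : E => (K r x y - 1 - r * ⟪x, y⟫) * φ y + φ y)
      (stdGaussian E) := hi.add h3
    rw [e4, integral_add hi3 (h2.const_mul r), integral_add hi h3, hz]
    ring
  rw [e]
  have h4 := norm_integral_le_of_norm_le ((integrable_exp_gauss (E := E)).const_mul
    (C0 * Real.exp (3 / 16 * ‖x‖ ^ 2) * B)) (Filter.Eventually.of_forall fun y => by
      rw [Real.norm_eq_abs]; exact hbd y)
  rw [integral_const_mul] at h4
  exact h4

/-- the corrected correlation -/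
noncomputable def ct (φ : E → ℝ) (r : ℝ) : ℝ :=
  ∫ x, φ x * S r (√(1 - r ^ 2)) φ x ∂stdGaussian E - r * ‖lin φ‖ ^ 2

theorem ct_small (hφ : Measurable φ) (hB : ∀ z, |φ z| ≤ B)
    (hz : ∫ z, φ z ∂stdGaussian E = 0) : ∃ D : ℝ, ∀ r : ℝ, 0 ≤ r → r ≤ 1 / 16 →
      ct φ r ≤ D * r ^ 2 := by
  have hB0 : 0 ≤ B := (abs_nonneg _).trans (hB 0)
  set I0 : ℝ := ∫ z, Real.exp (3 / 16 * ‖z‖ ^ 2) ∂stdGaussian E with hI0
  have hI0' : 0 ≤ I0 := integral_nonneg fun z => (Real.exp_pos _).le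
  refine ⟨256 * Real.exp (3 / 16 * (Module.finrank ℝ E + 1)) * B * B * I0 * I0, fun r h0 h1 => ?_⟩
  have hmS : Measurable (S r (√(1 - r ^ 2)) φ) := S_measurable hφ
  have hi1 : Integrable (fun x => φ x * S r (√(1 - r ^ 2)) φ x) (stdGaussian E) :=
    bint_mul hφ hmS hB (S_bdd hB)
  have hi2 := integrable_bdd_inner hφ hB (lin φ)
  have e : ct φ r = ∫ x, φ x * (S r (√(1 - r ^ 2)) φ x - r * ⟪lin φ, x⟫) ∂stdGaussian E := by
    have e1 : ∀ x, φ x * (S r (√(1 - r ^ 2)) φ x - r * ⟪lin φ, x⟫) =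
        φ x * S r (√(1 - r ^ 2)) φ x - r * (φ x * ⟪x, lin φ⟫) := by
      intro x
      rw [real_inner_comm (lin φ) x]
      ring
    simp only [e1]
    rw [integral_sub hi1 (hi2.const_mul r), integral_const_mul, inner_lin hφ hB,
      real_inner_self_eq_norm_sq, ct]
  rw [e]
  have hbd : ∀ x : E, ‖φ x * (S r (√(1 - r ^ 2)) φ x - r * ⟪lin φ, x⟫)‖ ≤
      (256 * Real.exp (3 / 16 * (Module.finrank ℝ E + 1)) * r ^ 2 * B * B * I0) *
        Real.exp (3 / 16 * ‖x‖ ^ 2) := by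
    intro x
    rw [norm_mul, Real.norm_eq_abs, Real.norm_eq_abs]
    have h := mul_le_mul (hB x) (S_sub_lin_le h0 h1 hφ hB hz x) (abs_nonneg _) hB0
    refine h.trans (le_of_eq ?_)
    ring
  have h4 := norm_integral_le_of_norm_le ((integrable_exp_gauss (E := E)).const_mul _)
    (Filter.Eventually.of_forall hbd)
  rw [integral_const_mul] at h4
  refine (le_abs_self _).trans (h4.trans (le_of_eq ?_))
  rw [← hI0]
  ring

theorem ct_cs {r : ℝ} (h0 : 0 ≤ r) (h1 : r < 1) (hφ : Measurable φ) (hB : ∀ z, |φ z| ≤ B) :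
    ct φ r ^ 2 ≤ ct φ (r ^ 2) * (∫ x, φ x ^ 2 ∂stdGaussian E - ‖lin φ‖ ^ 2) ∧
      0 ≤ ct φ (r ^ 2) ∧ 0 ≤ ∫ x, φ x ^ 2 ∂stdGaussian E - ‖lin φ‖ ^ 2 := by
  have h2 : 0 < 1 - r ^ 2 := by nlinarith
  have hs : r ^ 2 + (√(1 - r ^ 2)) ^ 2 = 1 := by rw [Real.sq_sqrt h2.le]; ring
  set T : E → ℝ := S r (√(1 - r ^ 2)) φ with hT
  have hmT : Measurable T := S_measurable hφ
  have hTB : ∀ x, |T x| ≤ B := S_bdd hB
  set v : E := lin φ with hv
  have i1 : Integrable (fun x => φ x ^ 2) (stdGaussian E) := by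
    have := bint_mul hφ hφ hB hB
    simpa only [← sq] using this
  have i2 : Integrable (fun x => φ x * T x) (stdGaussian E) := bint_mul hφ hmT hB hTB
  have i3 : Integrable (fun x => T x ^ 2) (stdGaussian E) := by
    have := bint_mul hmT hmT hTB hTB
    simpa only [← sq] using this
  have i4 : Integrable (fun x => φ x * ⟪x, v⟫) (stdGaussian E) := integrable_bdd_inner hφ hB v
  have i5 : Integrable (fun x => T x * ⟪x, v⟫) (stdGaussian E) := integrable_bdd_inner hmT hTB v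
  have i6 : Integrable (fun x => ⟪x, v⟫ ^ 2) (stdGaussian E) := integrable_inner_sq v
  have v1 : ∫ x, φ x * ⟪x, v⟫ ∂stdGaussian E = ‖v‖ ^ 2 := by
    rw [inner_lin hφ hB, real_inner_self_eq_norm_sq]
  have v2 : ∫ x, T x * ⟪x, v⟫ ∂stdGaussian E = r * ‖v‖ ^ 2 := by
    rw [hT, S_lin hs hφ hB, v1]
  have v3 : ∫ x, ⟪x, v⟫ ^ 2 ∂stdGaussian E = ‖v‖ ^ 2 := integral_inner_sq v
  have v4 : ∫ x, T x ^ 2 ∂stdGaussian E = ct φ (r ^ 2) + r ^ 2 * ‖v‖ ^ 2 := by
    rw [hT, S_sq h0 h1 hφ hB, ct]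
    ring
  have v5 : ∫ x, φ x * T x ∂stdGaussian E = ct φ r + r * ‖v‖ ^ 2 := by
    rw [ct]
    ring
  have key : ∀ t w : ℝ, 0 ≤ (∫ x, φ x ^ 2 ∂stdGaussian E - ‖v‖ ^ 2) * t ^ 2 +
      2 * ct φ r * (t * w) + ct φ (r ^ 2) * w ^ 2 := by
    intro t w
    have h3 : 0 ≤ ∫ x, (t * (φ x - ⟪x, v⟫) + w * (T x - r * ⟪x, v⟫)) ^ 2 ∂stdGaussian E :=
      integral_nonneg fun x => sq_nonneg _
    have e : ∀ x, (t * (φ x - ⟪x, v⟫) + w * (T x - r * ⟪x, v⟫)) ^ 2 =
        (((((t ^ 2 * φ x ^ 2) + (2 * t * w) * (φ x * T x)) + w ^ 2 * T x ^ 2) +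
          (-(2 * (t + w * r) * t)) * (φ x * ⟪x, v⟫)) + (-(2 * (t + w * r) * w)) * (T x * ⟪x, v⟫)) +
          (t + w * r) ^ 2 * ⟪x, v⟫ ^ 2 := by
      intro x
      ring
    simp only [e] at h3
    have j1 : Integrable (fun x => (t ^ 2 * φ x ^ 2) + (2 * t * w) * (φ x * T x))
      (stdGaussian E) := (i1.const_mul (t ^ 2)).add (i2.const_mul (2 * t * w))
    have j2 : Integrable (fun x => ((t ^ 2 * φ x ^ 2) + (2 * t * w) * (φ x * T x)) +
      w ^ 2 * T x ^ 2) (stdGaussian E) := j1.add (i3.const_mul (w ^ 2))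
    have j3 : Integrable (fun x => (((t ^ 2 * φ x ^ 2) + (2 * t * w) * (φ x * T x)) +
      w ^ 2 * T x ^ 2) + (-(2 * (t + w * r) * t)) * (φ x * ⟪x, v⟫)) (stdGaussian E) :=
      j2.add (i4.const_mul (-(2 * (t + w * r) * t)))
    have j4 : Integrable (fun x => ((((t ^ 2 * φ x ^ 2) + (2 * t * w) * (φ x * T x)) +
      w ^ 2 * T x ^ 2) + (-(2 * (t + w * r) * t)) * (φ x * ⟪x, v⟫)) +
      (-(2 * (t + w * r) * w)) * (T x * ⟪x, v⟫)) (stdGaussian E) :=
      j3.add (i5.const_mul (-(2 * (t + w * r) * w)))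
    rw [integral_add j4 (i6.const_mul _), integral_add j3 (i5.const_mul _),
      integral_add j2 (i4.const_mul _), integral_add j1 (i3.const_mul _),
      integral_add (i1.const_mul _) (i2.const_mul _), integral_const_mul, integral_const_mul,
      integral_const_mul, integral_const_mul, integral_const_mul, integral_const_mul,
      v1, v2, v3, v4, v5] at h3
    linarith
  refine ⟨?_, by simpa using key 0 1, by simpa using key 1 0⟩
  have h4 := discrim_le_zero (a := ∫ x, φ x ^ 2 ∂stdGaussian E - ‖v‖ ^ 2) (b := 2 * ct φ r)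
    (c := ct φ (r ^ 2)) fun t => by
      have := key t 1
      linarith
  rw [discrim] at h4
  linarith

theorem ct_half (hφ : Measurable φ) (hB : ∀ z, |φ z| ≤ B) (hz : ∫ z, φ z ∂stdGaussian E = 0) :
    ct φ (1 / 2) ≤ 1 / 4 * (∫ x, φ x ^ 2 ∂stdGaussian E - ‖lin φ‖ ^ 2) := by
  set A : ℝ := ∫ x, φ x ^ 2 ∂stdGaussian E - ‖lin φ‖ ^ 2 with hA
  obtain ⟨D, hD⟩ := ct_small hφ hB hz
  have hr0 : ∀ n : ℕ, 0 ≤ ((1 : ℝ) / 2) ^ 2 ^ n := fun n => by positivity
  have hr1 : ∀ n : ℕ, ((1 : ℝ) / 2) ^ 2 ^ n < 1 := fun n =>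
    pow_lt_one₀ (by norm_num) (by norm_num) (by positivity)
  have hstep : ∀ n : ℕ, ct φ ((1 / 2) ^ 2 ^ n) ^ 2 ≤ ct φ ((1 / 2) ^ 2 ^ (n + 1)) * A := by
    intro n
    have := (ct_cs (hr0 n) (hr1 n) hφ hB).1
    rwa [← pow_mul, ← pow_succ] at this
  have hA0 : 0 ≤ A := (ct_cs le_rfl one_pos hφ hB).2.2
  by_contra hcon
  rw [not_le] at hcon
  have h0 : 0 < ct φ (1 / 2) := lt_of_le_of_lt (by positivity) hcon
  have hA1 : 0 < A := by
    rcases hA0.lt_or_eq with h | h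
    · exact h
    · have := hstep 0
      rw [← h, mul_zero] at this
      simp only [pow_zero, pow_one] at this
      nlinarith
  set q : ℝ := 4 * ct φ (1 / 2) / A with hq
  have hq1 : 1 < q := by
    rw [hq, lt_div_iff₀ hA1]
    linarith
  have hlow : ∀ n : ℕ, A * (q / 4) ^ 2 ^ n ≤ ct φ ((1 / 2) ^ 2 ^ n) := by
    intro n
    induction n with
    | zero =>
      simp only [pow_zero, pow_one]
      rw [hq]
      field_simp
      exact le_rfl
    | succ n ih =>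
      have h3 := hstep n
      have h4 : (A * (q / 4) ^ 2 ^ n) ^ 2 ≤ ct φ ((1 / 2) ^ 2 ^ n) ^ 2 :=
        pow_le_pow_left₀ (by positivity) ih 2
      have h5 := h4.trans h3
      rw [mul_pow, ← pow_mul, ← pow_succ, sq, mul_assoc, mul_comm (ct φ _)] at h5
      exact le_of_mul_le_mul_left h5 hA1
  obtain ⟨n, hn⟩ := pow_unbounded_of_one_lt (D / A) hq1
  set m := n + 2 with hm
  have hm1 : n ≤ 2 ^ m := by
    have : m < 2 ^ m := Nat.lt_two_pow_self
    omega
  have hm2 : ((1 : ℝ) / 2) ^ 2 ^ m ≤ 1 / 16 := by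
    have h3 : 4 ≤ 2 ^ m := by
      calc 4 = 2 ^ 2 := by norm_num
        _ ≤ 2 ^ m := Nat.pow_le_pow_right (by norm_num) (by omega)
    calc ((1 : ℝ) / 2) ^ 2 ^ m ≤ (1 / 2) ^ 4 :=
          pow_le_pow_of_le_one (by norm_num) (by norm_num) h3
      _ = 1 / 16 := by norm_num
  have h3 := (hlow m).trans (hD _ (hr0 m) hm2)
  have h4 : q ^ n ≤ q ^ 2 ^ m := pow_le_pow_right₀ hq1.le hm1
  have h5 : A * q ^ 2 ^ m ≤ D := by
    have e : (((1 : ℝ) / 2) ^ 2 ^ m) ^ 2 = (1 / 4) ^ 2 ^ m := by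
      rw [← pow_mul, mul_comm, pow_mul]
      norm_num
    rw [e, show q / 4 = q * (1 / 4) by ring, mul_pow, ← mul_assoc] at h3
    exact le_of_mul_le_mul_right h3 (by positivity)
  rw [div_lt_iff₀ hA1] at hn
  nlinarith

end R3

theorem ou_ineq {ι : Type*} [Fintype ι] (b : OrthonormalBasis ι ℝ E) (φ : E → ℝ)
    (hm : Measurable φ) (B : ℝ) (hB : ∀ z, |φ z| ≤ B) (h0 : ∫ z, φ z ∂stdGaussian E = 0) :
    ∫ z, (∫ z', φ ((√2)⁻¹ • (z + z')) ∂stdGaussian E) ^ 2 ∂stdGaussian E ≤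
      1 / 4 * ∫ z, φ z ^ 2 ∂stdGaussian E +
      1 / 4 * ∑ i, (∫ z, ⟪z, b i⟫ * φ z ∂stdGaussian E) ^ 2 := by
  have h2 : (0 : ℝ) ≤ (√2)⁻¹ := by positivity
  have hsq : ((√2)⁻¹ : ℝ) ^ 2 = 1 / 2 := by
    rw [inv_pow, Real.sq_sqrt (by norm_num)]
    norm_num
  have h3 : ((√2)⁻¹ : ℝ) < 1 := by
    rw [inv_lt_one₀ (by positivity)]
    exact Real.lt_sqrt_of_sq_lt (by norm_num)
  have hs : √(1 - ((√2)⁻¹ : ℝ) ^ 2) = (√2)⁻¹ := by
    rw [hsq, show (1 : ℝ) - 1 / 2 = (√2)⁻¹ ^ 2 by rw [hsq]; norm_num, Real.sqrt_sq h2]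
  have e1 := R3.S_sq h2 h3 hm hB
  rw [hs, hsq] at e1
  have e2 : ∫ z, (∫ z', φ ((√2)⁻¹ • (z + z')) ∂stdGaussian E) ^ 2 ∂stdGaussian E =
      ∫ x, R3.S (√2)⁻¹ (√2)⁻¹ φ x ^ 2 ∂stdGaussian E := by
    simp only [R3.S, smul_add]
  rw [e2, e1]
  have e3 := R3.ct_half hm hB h0
  rw [R3.ct] at e3
  have e4 : ∑ i, (∫ z, ⟪z, b i⟫ * φ z ∂stdGaussian E) ^ 2 = ‖R3.lin φ‖ ^ 2 := by
    rw [← b.sum_sq_inner_left (R3.lin φ)]
    refine Finset.sum_congr rfl fun i _ => ?_
    rw [← R3.inner_lin hm hB]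
    simp only [mul_comm]
  rw [e4]
  linarith

/-- rotation: `(z₁, z₁ + z₂)` against `(z + z') / √2`. -/
theorem ou_rot (f g : E → ℝ) (hf : Measurable f) (hg : Measurable g) (B : ℝ)
    (hfB : ∀ z, |f z| ≤ B) (hgB : ∀ z, |g z| ≤ B) :
    ∫ z, (∫ z', f z * g (z + z') ∂stdGaussian E) ∂stdGaussian E =
      ∫ z, g (√2 • z) * (∫ z', f ((√2)⁻¹ • (z + z')) ∂stdGaussian E) ∂stdGaussian E := by
  have hBC : ∀ x y, |f x * g y| ≤ B * B := fun x y => by
    rw [abs_mul]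
    exact mul_le_mul (hfB _) (hgB _) (abs_nonneg _) ((abs_nonneg _).trans (hfB x))
  have hm1 : Measurable (fun p : E × E => f p.1 * g (p.1 + p.2)) := by fun_prop
  have hm2 : Measurable (fun p : E × E => g (√2 • p.1) * f ((√2)⁻¹ • (p.1 + p.2))) := by fun_prop
  have e1 := integral_prod (μ := stdGaussian E) (ν := stdGaussian E) _ (R3.bint hm1 fun p => hBC _ _)
  have e2 := integral_prod (μ := stdGaussian E) (ν := stdGaussian E) _
    (R3.bint hm2 fun p => by rw [mul_comm]; exact hBC _ _)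
  simp only [integral_const_mul] at e2
  rw [← e1, ← e2]
  have hmp := rot_mp (E := E)
  conv_lhs => rw [← hmp.map_eq]
  rw [integral_map hmp.measurable.aemeasurable hm1.aestronglyMeasurable]
  congr 1
  ext p
  simp only
  rw [mul_comm]
  congr 2
  rw [← smul_add, show p.1 + p.2 + (p.1 - p.2) = (2 : ℝ) • p.1 by rw [two_smul]; abel, smul_smul]
  congr 1
  rw [inv_mul_eq_div, Real.div_sqrt]

end R3

end Pool.Agent.BCD
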