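import Pool.Agent.Work.MP_bc8e1e_an.D.Defs

/-!
# The standard Gaussian measure: density, rotations, a correlation inequality of second order
-/

set_option autoImplicit false

open MeasureTheory ProbabilityTheory
open scoped RealInnerProductSpace

namespace Pool.Agent.BCD

section R3

variable {E : Type*} [NormedAddCommGroup E] [InnerProductSpace ℝ E] [FiniteDimensional ℝ E]
  [MeasurableSpace E] [BorelSpace E]

namespace R3

/-- The density of the standard Gaussian. -/
noncomputable def den (z : E) : ℝ :=
  (2 * Real.pi) ^ (-(Module.finrank ℝ E : ℝ) / 2) * Real.exp (-(‖z‖ ^ 2 / 2))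

omit [FiniteDimensional ℝ E] [MeasurableSpace E] [BorelSpace E] in
theorem den_pos (z : E) : 0 < den z := by
  unfold den
  have := Real.pi_pos
  positivity

omit [FiniteDimensional ℝ E] [MeasurableSpace E] [BorelSpace E] in
theorem den_continuous : Continuous (den : E → ℝ) := by
  unfold den
  fun_prop

theorem integrable_exp_sq {c : ℝ} (hc : 0 < c) :
    Integrable (fun z : E => Real.exp (-(c * ‖z‖ ^ 2))) := by
  have h := GaussianFourier.integrable_cexp_neg_mul_sq_norm_add (V := E) (b := (c : ℂ))
    (by simpa using hc) 0 0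
  refine (h.norm).congr (Filter.Eventually.of_forall fun z => ?_)
  simp only [Complex.norm_exp]
  congr 1
  simp [← Complex.ofReal_pow]

theorem den_integrable : Integrable (den : E → ℝ) := by
  have h := (integrable_exp_sq (E := E) (c := 1 / 2) (by norm_num)).const_mul
    ((2 * Real.pi) ^ (-(Module.finrank ℝ E : ℝ) / 2))
  refine h.congr (Filter.Eventually.of_forall fun z => ?_)
  simp only [den]
  congr 2
  ring

theorem stdGaussian_eq :
    stdGaussian E = (volume : Measure E).withDensity fun z => ENNReal.ofReal (den z) := by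
  have hfin : IsFiniteMeasure ((volume : Measure E).withDensity fun z => ENNReal.ofReal (den z)) :=
    isFiniteMeasure_withDensity_ofReal den_integrable.2
  apply Measure.ext_of_charFun
  ext t
  rw [charFun_stdGaussian, charFun_apply]
  rw [integral_withDensity_eq_integral_toReal_smul]
  · have h := GaussianFourier.integral_cexp_neg_mul_sq_norm_add (V := E) (b := (1 / 2 : ℂ))
      (by norm_num) Complex.I t
    have e : ∀ x : E, (ENNReal.ofReal (den x)).toReal • Complex.exp (⟪x, t⟫ * Complex.I) =
        (((2 * Real.pi) ^ (-(Module.finrank ℝ E : ℝ) / 2) : ℝ) : ℂ) *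
        Complex.exp (-(1 / 2) * ‖x‖ ^ 2 + Complex.I * ⟪t, x⟫) := by
      intro x
      rw [ENNReal.toReal_ofReal (den_pos x).le, den, Complex.real_smul, Complex.ofReal_mul,
        mul_assoc, Complex.ofReal_exp, ← Complex.exp_add, real_inner_comm]
      congr 2
      push_cast
      ring
    simp_rw [e]
    rw [integral_const_mul, h]
    rw [Complex.I_sq, ← mul_assoc]
    have e2 : (((2 * Real.pi) ^ (-(Module.finrank ℝ E : ℝ) / 2) : ℝ) : ℂ) *
        (Real.pi / (1 / 2 : ℂ)) ^ ((Module.finrank ℝ E : ℂ) / 2) = 1 := by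
      have e3 : (Real.pi / (1 / 2 : ℂ)) ^ ((Module.finrank ℝ E : ℂ) / 2) =
          (((2 * Real.pi) ^ ((Module.finrank ℝ E : ℝ) / 2) : ℝ) : ℂ) := by
        rw [Complex.ofReal_cpow (by positivity)]
        push_cast
        congr 1
        ring
      rw [e3, ← Complex.ofReal_mul, ← Real.rpow_add (by positivity)]
      simp [neg_div]
    rw [e2, one_mul]
    congr 1
    ring
  · exact (den_continuous.measurable.ennreal_ofReal)
  · exact Filter.Eventually.of_forall fun z => ENNReal.ofReal_lt_top

end R3

/-- density of the standard Gaussian -/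
theorem integral_stdG (f : E → ℝ) :
    ∫ z, f z ∂stdGaussian E =
      ∫ z, (2 * Real.pi) ^ (-(Module.finrank ℝ E : ℝ) / 2) * Real.exp (-(‖z‖ ^ 2 / 2)) * f z := by
  rw [R3.stdGaussian_eq, integral_withDensity_eq_integral_toReal_smul
    (R3.den_continuous.measurable.ennreal_ofReal)
    (Filter.Eventually.of_forall fun z => ENNReal.ofReal_lt_top)]
  refine integral_congr_ae (Filter.Eventually.of_forall fun z => ?_)
  simp only [ENNReal.toReal_ofReal (R3.den_pos z).le, smul_eq_mul]
  rfl

namespace R3

theorem integrable_stdG {F : Type*} [NormedAddCommGroup F] [NormedSpace ℝ F] (f : E → F) :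
    Integrable f (stdGaussian E) ↔ Integrable fun z => den z • f z := by
  rw [stdGaussian_eq, integrable_withDensity_iff_integrable_smul'
    (den_continuous.measurable.ennreal_ofReal)
    (Filter.Eventually.of_forall fun z => ENNReal.ofReal_lt_top)]
  simp only [ENNReal.toReal_ofReal (den_pos _).le]

/-- Rotations of the plane preserve the law of a pair of independent standard Gaussians. -/
theorem rot_mp_general {c s : ℝ} (h : c ^ 2 + s ^ 2 = 1) :
    MeasurePreserving (fun p : E × E => (c • p.1 + s • p.2, s • p.1 - c • p.2))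
      ((stdGaussian E).prod (stdGaussian E)) ((stdGaussian E).prod (stdGaussian E)) := by
  have hm : Measurable (fun p : E × E => (c • p.1 + s • p.2, s • p.1 - c • p.2)) := by fun_prop
  refine ⟨hm, ?_⟩
  have hfin : IsFiniteMeasure (Measure.map (fun p : E × E => (c • p.1 + s • p.2, s • p.1 - c • p.2))
      ((stdGaussian E).prod (stdGaussian E))) := by
    have := Measure.isProbabilityMeasure_map (μ := (stdGaussian E).prod (stdGaussian E))
      hm.aemeasurable
    infer_instance
  refine charFun_eq_prod_iff.1 fun t => ?_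
  rw [charFun_apply, ← MeasurableEquiv.coe_toLp, integral_map_equiv, integral_map hm.aemeasurable
    (by fun_prop)]
  have e : ∀ p : E × E, Complex.exp (⟪(MeasurableEquiv.toLp 2 (E × E))
      (c • p.1 + s • p.2, s • p.1 - c • p.2), t⟫ * Complex.I) =
      Complex.exp (⟪p.1, c • (WithLp.ofLp t).1 + s • (WithLp.ofLp t).2⟫ * Complex.I) *
      Complex.exp (⟪p.2, s • (WithLp.ofLp t).1 - c • (WithLp.ofLp t).2⟫ * Complex.I) := by
    intro p
    rw [← Complex.exp_add]
    congr 1
    rw [WithLp.prod_inner_apply]
    simp only [MeasurableEquiv.coe_toLp, inner_add_left, inner_sub_left, inner_add_right,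
      inner_sub_right, real_inner_smul_left, real_inner_smul_right]
    push_cast
    ring
  simp_rw [e]
  rw [integral_prod_mul (fun x : E => Complex.exp (⟪x, c • (WithLp.ofLp t).1 +
    s • (WithLp.ofLp t).2⟫ * Complex.I)) (fun x : E => Complex.exp (⟪x, s • (WithLp.ofLp t).1 -
    c • (WithLp.ofLp t).2⟫ * Complex.I)), ← charFun_apply, ← charFun_apply]
  simp only [charFun_stdGaussian]
  rw [← Complex.exp_add, ← Complex.exp_add]
  congr 1
  have key : ‖c • (WithLp.ofLp t).1 + s • (WithLp.ofLp t).2‖ ^ 2 +
      ‖s • (WithLp.ofLp t).1 - c • (WithLp.ofLp t).2‖ ^ 2 =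
      ‖(WithLp.ofLp t).1‖ ^ 2 + ‖(WithLp.ofLp t).2‖ ^ 2 := by
    rw [norm_add_sq_real, norm_sub_sq_real]
    simp only [norm_smul, real_inner_smul_left, real_inner_smul_right, mul_pow, Real.norm_eq_abs,
      sq_abs]
    linear_combination (‖(WithLp.ofLp t).1‖ ^ 2 + ‖(WithLp.ofLp t).2‖ ^ 2) * h
  have key2 : ((‖c • (WithLp.ofLp t).1 + s • (WithLp.ofLp t).2‖ : ℂ)) ^ 2 +
      (‖s • (WithLp.ofLp t).1 - c • (WithLp.ofLp t).2‖ : ℂ) ^ 2 =
      (‖(WithLp.ofLp t).1‖ : ℂ) ^ 2 + (‖(WithLp.ofLp t).2‖ : ℂ) ^ 2 := by
    exact_mod_cast key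
  linear_combination (-1 / 2 : ℂ) * key2

end R3

/-- The rotation by `45` degrees (followed by a reflection). -/
theorem rot_mp : MeasurePreserving
    (fun p : E × E => ((√2)⁻¹ • (p.1 + p.2), (√2)⁻¹ • (p.1 - p.2)))
    ((stdGaussian E).prod (stdGaussian E)) ((stdGaussian E).prod (stdGaussian E)) := by
  have h := R3.rot_mp_general (E := E) (c := (√2)⁻¹) (s := (√2)⁻¹) (by
    rw [inv_pow, Real.sq_sqrt (by norm_num)]; norm_num)
  simpa only [smul_add, smul_sub] using h

end R3

end Pool.Agent.BCD
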