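import Pool.Agent.Work.MP_bc8e1e_an.D.R4a
import Pool.Agent.Work.MP_bc8e1e_an.D.R3

/-!
# R4: doubling
-/

set_option autoImplicit false

open MeasureTheory ProbabilityTheory Filter Topology
open scoped RealInnerProductSpace ENNReal

namespace Pool.Agent.BCD

open R4

variable {E : Type*} [NormedAddCommGroup E] [InnerProductSpace ℝ E] [FiniteDimensional ℝ E]
  [MeasurableSpace E] [BorelSpace E] {L : AddSubgroup E} {s : ℝ}

/-- one coordinate of the doubling inequality -/
theorem doubling_aux (hL : Lat L) (hs : 0 < s) {ι : Type*} [Fintype ι]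
    (b : OrthonormalBasis ι ℝ E) (i : ι) :
    3 / 2 * Pm L s (b i) (b i) - 1 / 2 * ∑ j, Pm L s (b j) (b i) ^ 2 ≤
      Pm L (s / √2) (b i) (b i) := by
  classical
  set γ := stdGaussian E with hγ
  have h2 : (0 : ℝ) < √2 := by positivity
  have h2m : (√2 : ℝ)⁻¹ * √2 = 1 := inv_mul_cancel₀ h2.ne'
  have h2s : (√2 : ℝ) * √2 = 2 := Real.mul_self_sqrt (by norm_num)
  set s' := s / √2 with hs'
  have hs0 : 0 < s' := by positivity
  set a := b i with ha
  have hna : ‖a‖ = 1 := b.norm_eq_one i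
  obtain ⟨B, hB0, hB⟩ := Mv_sub_le hL hs
  obtain ⟨B', hB0', hB'⟩ := Mv_sub_le hL hs0
  set u : E → ℝ := fun z => ⟪z - Mv L s' z, a⟫ with hu
  set v : E → ℝ := fun z => ⟪z - Mv L s z, a⟫ with hv
  have huc : Continuous u := (continuous_id.sub (Mv_continuous hL hs0)).inner continuous_const
  have hvc : Continuous v := (continuous_id.sub (Mv_continuous hL hs)).inner continuous_const
  have hub : ∀ z, |u z| ≤ B' := fun z => by
    have := abs_real_inner_le_norm (z - Mv L s' z) a
    rw [hna, mul_one] at this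
    exact this.trans (hB' z)
  have hvb : ∀ z, |v z| ≤ B := fun z => by
    have := abs_real_inner_le_norm (z - Mv L s z) a
    rw [hna, mul_one] at this
    exact this.trans (hB z)
  have huper : ∀ z, ∀ y ∈ L, u (z + s' • y) = u z := by
    intro z y hy
    simp only [hu]
    rw [Mv_add hL hs0 z hy]
    congr 1
    abel
  set g : E → ℝ := fun x => u ((√2 : ℝ)⁻¹ • x) with hg
  have hgc : Continuous g := huc.comp (continuous_const_smul _)
  have hgb : ∀ z, |g z| ≤ B' := fun z => hub _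
  have hgper : ∀ z, ∀ y ∈ L, g (z + s • y) = g z := by
    intro z y hy
    simp only [hg]
    rw [smul_add, smul_smul, show (√2 : ℝ)⁻¹ * s = s' by rw [hs', div_eq_inv_mul]]
    exact huper _ y hy
  have hgu : ∀ z, g ((√2 : ℝ) • z) = u z := by
    intro z
    simp only [hg]
    rw [smul_smul, h2m, one_smul]
  -- (1)
  have iuz : Integrable (fun z => u z * ⟪z, a⟫) γ := by
    refine integrable_of_growth (huc.mul (continuous_id.inner continuous_const)).aestronglyMeasurable
      B' fun z => ?_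
    rw [abs_mul]
    have e1 := inner_growth a z
    rw [hna, one_mul] at e1
    have e3 : (1 + ‖z‖) ≤ (1 + ‖z‖) ^ 2 := by nlinarith [norm_nonneg z]
    exact mul_le_mul (hub z) (e1.trans e3) (abs_nonneg _) hB0'
  have iuM : Integrable (fun z => u z * ⟪Mv L s' z, a⟫) γ := by
    refine int_Mv_mul hL hs0 u huc.measurable B' (fun z => (hub z).trans ?_) a
    exact le_mul_of_one_le_right hB0' (by linarith [norm_nonneg z])
  have e1 : ∫ z, u z ^ 2 ∂γ = ∫ z, u z * ⟪z, a⟫ ∂γ := by
    have := orth hL hs0 u huc.measurable B' hub huper a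
    rw [← sub_zero (∫ z, u z * ⟪z, a⟫ ∂γ), ← this, ← integral_sub iuz iuM]
    refine integral_congr_ae (ae_of_all _ fun z => ?_)
    simp only [hu, inner_sub_left]
    ring
  -- (2) rotation
  have ilin : Integrable (fun z : E => ⟪z, a⟫) γ := by
    refine integrable_of_growth (continuous_id.inner continuous_const).aestronglyMeasurable 1
      fun z => ?_
    have e1 := inner_growth a z
    rw [hna, one_mul] at e1
    have e3 : (1 + ‖z‖) ≤ (1 + ‖z‖) ^ 2 := by nlinarith [norm_nonneg z]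
    linarith
  have iM : Integrable (fun z : E => ⟪Mv L s z, a⟫) γ := by
    have := int_Mv_mul hL hs (fun _ => 1) measurable_const 1 (fun z => by
      rw [abs_one, one_mul]
      linarith [norm_nonneg z]) a
    simpa using this
  have bddmul : ∀ {G F : E × E → ℝ}, Continuous G → (∀ p, |G p| ≤ B') →
      Integrable F (γ.prod γ) → Integrable (fun p => G p * F p) (γ.prod γ) := by
    intro G F hG hGB hF
    exact hF.bdd_mul hG.aestronglyMeasurable (ae_of_all _ fun p => hGB p)
  have i1 : Integrable (fun p : E × E => g (p.1 + p.2) * ⟪p.1, a⟫) (γ.prod γ) :=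
    bddmul (hgc.comp (continuous_fst.add continuous_snd)) (fun p => hgb _) (ilin.comp_fst γ)
  have i2 : Integrable (fun p : E × E => g (p.1 + p.2) * ⟪Mv L s p.1, a⟫) (γ.prod γ) :=
    bddmul (hgc.comp (continuous_fst.add continuous_snd)) (fun p => hgb _) (iM.comp_fst γ)
  have i3 : Integrable (fun p : E × E => g ((√2 : ℝ) • p.1) * ⟪p.1, a⟫) (γ.prod γ) :=
    bddmul (hgc.comp (continuous_fst.const_smul _)) (fun p => hgb _) (ilin.comp_fst γ)
  have i4 : Integrable (fun p : E × E => g ((√2 : ℝ) • p.1) * ⟪p.2, a⟫) (γ.prod γ) :=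
    bddmul (hgc.comp (continuous_fst.const_smul _)) (fun p => hgb _) (ilin.comp_snd γ)
  have hmean : ∫ z : E, ⟪z, a⟫ ∂γ = 0 := by
    have := integral_strongDual_stdGaussian (innerSL ℝ a)
    rw [← this]
    refine integral_congr_ae (ae_of_all _ fun z => ?_)
    simp only [innerSL_apply_apply]
    exact real_inner_comm _ _
  have e2 : ∫ p, g (p.1 + p.2) * ⟪p.1, a⟫ ∂(γ.prod γ) =
      (√2 : ℝ)⁻¹ * ∫ z, u z * ⟪z, a⟫ ∂γ := by
    have hR := rot_mp (E := E)
    have h3 : ∫ p, g ((√2 : ℝ) • p.1) * ((√2 : ℝ)⁻¹ * (⟪p.1, a⟫ + ⟪p.2, a⟫)) ∂(γ.prod γ) =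
        ∫ p, g (p.1 + p.2) * ⟪p.1, a⟫ ∂(γ.prod γ) := by
      conv_lhs => rw [← hR.map_eq]
      rw [integral_map hR.measurable.aemeasurable]
      · refine integral_congr_ae (ae_of_all _ fun p => ?_)
        simp only
        rw [smul_smul, mul_comm (√2 : ℝ), h2m, one_smul, ← inner_add_left]
        congr 1
        have : (√2 : ℝ)⁻¹ • (p.1 + p.2) + (√2 : ℝ)⁻¹ • (p.1 - p.2) = ((√2 : ℝ)⁻¹ * 2) • p.1 := by
          module
        rw [this, real_inner_smul_left, ← mul_assoc]
        have h4 : (√2 : ℝ)⁻¹ * ((√2 : ℝ)⁻¹ * 2) = 1 := by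
          have h4' : ((√2 : ℝ)⁻¹ * √2) * ((√2 : ℝ)⁻¹ * √2) = 1 := by rw [h2m, one_mul]
          linear_combination h4' - (√2 : ℝ)⁻¹ * (√2 : ℝ)⁻¹ * h2s
        rw [h4, one_mul]
      · refine Continuous.aestronglyMeasurable ?_
        refine (hgc.comp (continuous_fst.const_smul _)).mul (continuous_const.mul ?_)
        exact (continuous_fst.inner continuous_const).add (continuous_snd.inner continuous_const)
    rw [← h3]
    have h5 : ∫ p, g ((√2 : ℝ) • p.1) * ((√2 : ℝ)⁻¹ * (⟪p.1, a⟫ + ⟪p.2, a⟫)) ∂(γ.prod γ) =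
        (√2 : ℝ)⁻¹ * (∫ p, g ((√2 : ℝ) • p.1) * ⟪p.1, a⟫ ∂(γ.prod γ) +
          ∫ p, g ((√2 : ℝ) • p.1) * ⟪p.2, a⟫ ∂(γ.prod γ)) := by
      rw [← integral_add i3 i4, ← integral_const_mul]
      refine integral_congr_ae (ae_of_all _ fun p => ?_)
      simp only
      ring
    rw [h5, integral_prod _ i3, integral_prod _ i4]
    congr 1
    simp only [hgu, integral_const_mul, hmean, mul_zero, integral_zero, add_zero]
    refine integral_congr_ae (ae_of_all _ fun z => ?_)
    simp
  -- (3)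
  have e3 : ∫ p, g (p.1 + p.2) * ⟪Mv L s p.1, a⟫ ∂(γ.prod γ) = 0 := by
    rw [integral_prod_symm _ i2]
    have : ∀ z' : E, ∫ z, g (z + z') * ⟪Mv L s z, a⟫ ∂γ = 0 := by
      intro z'
      refine orth hL hs (fun z => g (z + z')) (hgc.comp (continuous_id.add continuous_const)).measurable
        B' (fun z => hgb _) (fun z y hy => ?_) a
      have := hgper (z + z') y hy
      rw [← this]
      congr 1
      abel
    simp only [this, integral_zero]
  set w : E → ℝ := fun z => ∫ z', v ((√2 : ℝ)⁻¹ • (z + z')) ∂γ with hw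
  have e4 : ∫ p, g (p.1 + p.2) * ⟪p.1, a⟫ ∂(γ.prod γ) = ∫ z, u z * w z ∂γ := by
    have h6 := ou_rot v g hvc.measurable hgc.measurable (max B B')
      (fun z => (hvb z).trans (le_max_left _ _)) (fun z => (hgb z).trans (le_max_right _ _))
    simp only [hgu] at h6
    rw [← hγ] at h6
    rw [hw, ← h6]
    have i5 : Integrable (fun p : E × E => v p.1 * g (p.1 + p.2)) (γ.prod γ) := by
      refine (i1.sub i2).congr (ae_of_all _ fun p => ?_)
      simp only [Pi.sub_apply, hv, inner_sub_left]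
      ring
    rw [← integral_prod _ i5, ← sub_zero (∫ p, g (p.1 + p.2) * ⟪p.1, a⟫ ∂(γ.prod γ)), ← e3,
      ← integral_sub i1 i2]
    refine integral_congr_ae (ae_of_all _ fun p => ?_)
    simp only [hv, inner_sub_left]
    ring
  -- (4)
  have hwm : Measurable w := by
    have : StronglyMeasurable fun p : E × E => v ((√2 : ℝ)⁻¹ • (p.1 + p.2)) :=
      (hvc.comp ((continuous_fst.add continuous_snd).const_smul _)).stronglyMeasurable
    exact this.integral_prod_right'.measurable
  have hwb : ∀ z, |w z| ≤ B := by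
    intro z
    have := norm_integral_le_of_norm_le_const (μ := γ) (f := fun z' => v ((√2 : ℝ)⁻¹ • (z + z')))
      (ae_of_all _ fun z' => hvb _)
    rwa [probReal_univ, mul_one] at this
  have iu2 : Integrable (fun z => u z ^ 2) γ := by
    refine integrable_of_growth (huc.pow 2).aestronglyMeasurable (B' ^ 2) fun z => ?_
    rw [abs_pow]
    have h7 := pow_le_pow_left₀ (abs_nonneg _) (hub z) 2
    have h8 : 1 ≤ (1 + ‖z‖) ^ 2 := one_le_pow₀ (by linarith [norm_nonneg z])
    exact h7.trans (le_mul_of_one_le_right (by positivity) h8)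
  have iw2 : Integrable (fun z => w z ^ 2) γ := by
    refine integrable_of_growth (hwm.pow_const 2).aestronglyMeasurable (B ^ 2) fun z => ?_
    rw [abs_pow]
    have h7 := pow_le_pow_left₀ (abs_nonneg _) (hwb z) 2
    have h8 : 1 ≤ (1 + ‖z‖) ^ 2 := one_le_pow₀ (by linarith [norm_nonneg z])
    exact h7.trans (le_mul_of_one_le_right (by positivity) h8)
  have iuw : Integrable (fun z => u z * w z) γ := by
    refine integrable_of_growth (huc.measurable.mul hwm).aestronglyMeasurable (B' * B) fun z => ?_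
    rw [abs_mul]
    have h7 := mul_le_mul (hub z) (hwb z) (abs_nonneg _) hB0'
    have h8 : 1 ≤ (1 + ‖z‖) ^ 2 := one_le_pow₀ (by linarith [norm_nonneg z])
    exact h7.trans (le_mul_of_one_le_right (by positivity) h8)
  have e5 : ∫ z, u z ^ 2 ∂γ = √2 * ∫ z, u z * w z ∂γ := by
    rw [e1, ← e4, e2, ← mul_assoc, mul_inv_cancel₀ h2.ne', one_mul]
  have e6 : ∫ z, u z ^ 2 ∂γ ≤ 2 * ∫ z, w z ^ 2 ∂γ := by
    have h9 : √2 * ∫ z, u z * w z ∂γ ≤ 1 / 2 * ∫ z, u z ^ 2 ∂γ + ∫ z, w z ^ 2 ∂γ := by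
      rw [← integral_const_mul, ← integral_const_mul, ← integral_add (iu2.const_mul _) iw2]
      refine integral_mono (iuw.const_mul _) ((iu2.const_mul _).add iw2) fun z => ?_
      simp only
      nlinarith [sq_nonneg (u z - √2 * w z)]
    rw [← e5] at h9
    linarith
  -- (5)
  have hv0 : ∫ z, v z ∂γ = 0 := by
    have h10 := orth hL hs (fun _ => 1) measurable_const 1 (fun z => by simp) (fun _ _ _ => rfl) a
    simp only [one_mul] at h10
    have h11 : ∫ z, v z ∂γ = ∫ z : E, ⟪z, a⟫ ∂γ - ∫ z, ⟪Mv L s z, a⟫ ∂γ := by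
      rw [← integral_sub ilin iM]
      refine integral_congr_ae (ae_of_all _ fun z => ?_)
      simp only [hv, inner_sub_left]
    rw [h11, hmean, h10, sub_zero]
  have e7 := ou_ineq b v hvc.measurable B hvb hv0
  rw [← hγ] at e7
  have e8 : ∫ z, v z ^ 2 ∂γ = 1 - Pm L s a a := by
    have := integral_mm hL hs a a
    rw [real_inner_self_eq_norm_sq, hna, one_pow] at this
    rw [← this]
    exact integral_congr_ae (ae_of_all _ fun z => pow_two _)
  have e9 : ∫ z, u z ^ 2 ∂γ = 1 - Pm L s' a a := by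
    have := integral_mm hL hs0 a a
    rw [real_inner_self_eq_norm_sq, hna, one_pow] at this
    rw [← this]
    exact integral_congr_ae (ae_of_all _ fun z => pow_two _)
  have e10 : ∀ j, ∫ z, ⟪z, b j⟫ * v z ∂γ = (if j = i then 1 else 0) - Pm L s (b j) a := by
    intro j
    rw [← P_eq hL hs (b j) a, ← b.inner_eq_ite j i, ← integral_zz (b j) (b i), ← ha,
      ← integral_sub (int_zz _ _) (int_zM hL hs _ _)]
    refine integral_congr_ae (ae_of_all _ fun z => ?_)
    simp only [hv, inner_sub_left]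
    ring
  have e11 : ∑ j, (∫ z, ⟪z, b j⟫ * v z ∂γ) ^ 2 =
      1 - 2 * Pm L s a a + ∑ j, Pm L s (b j) a ^ 2 := by
    simp only [e10]
    have h12 : ∀ j, ((if j = i then (1 : ℝ) else 0) - Pm L s (b j) a) ^ 2 =
        (if j = i then 1 - 2 * Pm L s (b j) a else 0) + Pm L s (b j) a ^ 2 := by
      intro j
      split_ifs <;> ring
    simp only [h12]
    rw [Finset.sum_add_distrib, Finset.sum_ite_eq' Finset.univ i, if_pos (Finset.mem_univ i)]
  rw [e8, e11] at e7
  rw [e9] at e6
  have e12 : ∫ z, w z ^ 2 ∂γ ≤ 1 / 4 * (1 - Pm L s a a) +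
      1 / 4 * (1 - 2 * Pm L s a a + ∑ j, Pm L s (b j) a ^ 2) := e7
  linarith

theorem doubling (hL : Lat L) (hs : 0 < s) {ι : Type*} [Fintype ι]
    (b : OrthonormalBasis ι ℝ E) :
    1 / 2 * (tP L s - ∑ i, ∑ j, Pm L s (b i) (b j) ^ 2) ≤ tP L (s / √2) - tP L s := by
  have hs0 : 0 < s / √2 := by positivity
  have h1 := Finset.sum_le_sum fun i (_ : i ∈ Finset.univ) => doubling_aux hL hs b i
  rw [← tP_eq hL hs0 b, Finset.sum_sub_distrib, ← Finset.mul_sum, ← Finset.mul_sum,
    ← tP_eq hL hs b, Finset.sum_comm] at h1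
  linarith

end Pool.Agent.BCD
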