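import Pool.Agent.Work.MP_bc8e1e_an.D.R1
import Pool.Agent.Work.MP_bc8e1e_an.D.R2
import Pool.Agent.Work.MP_bc8e1e_an.D.R3a

/-!
# R4: transport identities, the matrix `P`
-/

set_option autoImplicit false

open MeasureTheory ProbabilityTheory Filter Topology
open scoped RealInnerProductSpace ENNReal

namespace Pool.Agent.BCD

namespace R4

section Moments

variable {E : Type*} [NormedAddCommGroup E] [InnerProductSpace ℝ E] {L : AddSubgroup E} {s : ℝ}

theorem norm_sq_ge (x z : E) : ‖x‖ ^ 2 / 2 - ‖z‖ ^ 2 ≤ ‖x - z‖ ^ 2 := by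
  have h1 : ‖x‖ ≤ ‖x - z‖ + ‖z‖ := by
    have := norm_add_le (x - z) z
    rwa [sub_add_cancel] at this
  have h2 := norm_nonneg x
  have h3 := norm_nonneg (x - z)
  have h4 := norm_nonneg z
  nlinarith [sq_nonneg (‖x - z‖ - ‖z‖)]

theorem pow_mul_exp_le (t : ℝ) : (1 + t ^ 2) * Real.exp (-(t ^ 2 / 2)) ≤
    4 * Real.exp (-(t ^ 2 / 4)) := by
  have h1 : t ^ 2 / 4 + 1 ≤ Real.exp (t ^ 2 / 4) := Real.add_one_le_exp _
  have h2 : Real.exp (-(t ^ 2 / 4)) = Real.exp (t ^ 2 / 4) * Real.exp (-(t ^ 2 / 2)) := by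
    rw [← Real.exp_add]
    congr 1
    ring
  rw [h2, ← mul_assoc]
  refine mul_le_mul_of_nonneg_right ?_ (Real.exp_pos _).le
  linarith

/-- the summable majorant -/
noncomputable def gs (s : ℝ) (y : E) : ℝ := Real.exp (-(s ^ 2 / 8 * ‖y‖ ^ 2))

theorem gs_summable (hL : Lat L) (hs : 0 < s) : Summable fun y : L => gs s (y : E) :=
  hL.summ (s ^ 2 / 8) (by positivity)

theorem term_le (y : E) (z : E) :
    (1 + ‖s • y - z‖ ^ 2) * Real.exp (-(‖s • y - z‖ ^ 2 / 2)) ≤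
      4 * Real.exp (‖z‖ ^ 2 / 4) * gs s y := by
  refine (pow_mul_exp_le _).trans ?_
  rw [mul_assoc, gs, ← Real.exp_add]
  refine mul_le_mul_of_nonneg_left (Real.exp_le_exp.2 ?_) (by norm_num)
  have h1 := norm_sq_ge (s • y) z
  have h2 : ‖s • y‖ ^ 2 = s ^ 2 * ‖y‖ ^ 2 := by
    rw [norm_smul, mul_pow, Real.norm_eq_abs, sq_abs]
  rw [h2] at h1
  linarith

theorem summable_two (hL : Lat L) (hs : 0 < s) (z : E) :
    Summable fun y : L => (1 + ‖s • (y : E) - z‖ ^ 2) *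
      Real.exp (-(‖s • (y : E) - z‖ ^ 2 / 2)) :=
  Summable.of_nonneg_of_le (fun y => by positivity) (fun y => term_le _ z)
    ((gs_summable hL hs).mul_left _)

/-- translation by a lattice vector -/
theorem tsum_shift {F : Type*} [AddCommGroup F] [TopologicalSpace F] (f : E → E → F) (z : E)
    {y₀ : E} (hy₀ : y₀ ∈ L) :
    ∑' y : L, f (y : E) (s • (y : E) - (z + s • y₀)) =
      ∑' y : L, f ((y : E) + y₀) (s • (y : E) - z) := by
  rw [← (Equiv.addRight (⟨y₀, hy₀⟩ : L)).tsum_eq]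
  refine tsum_congr fun y => ?_
  simp only [Equiv.coe_addRight, AddSubgroup.coe_add]
  congr 1
  rw [smul_add]
  abel

theorem exists_rep (hL : Lat L) (hs : 0 < s) : ∃ R : ℝ, 0 ≤ R ∧ ∀ z : E, ∃ z₀ : E, ∃ y₀ ∈ L,
    z = z₀ + s • y₀ ∧ ‖z₀‖ ≤ R := by
  obtain ⟨R, hR⟩ := hL.cov
  refine ⟨s * max R 0, by positivity, fun z => ?_⟩
  obtain ⟨y, hy, hyR⟩ := hR (s⁻¹ • z)
  refine ⟨z - s • y, y, hy, by abel, ?_⟩
  have : z - s • y = s • (s⁻¹ • z - y) := by
    rw [smul_sub, smul_smul, mul_inv_cancel₀ hs.ne', one_smul]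
  rw [this, norm_smul, Real.norm_of_nonneg hs.le]
  exact mul_le_mul_of_nonneg_left (hyR.trans (le_max_left _ _)) hs.le

/-- second centred moment, not normalized -/
theorem moment_bdd (hL : Lat L) (hs : 0 < s) : ∃ C : ℝ, 0 < C ∧ ∀ z : E,
    ∑' y : L, (1 + ‖s • (y : E) - z‖ ^ 2) * Real.exp (-(‖s • (y : E) - z‖ ^ 2 / 2)) ≤ C := by
  obtain ⟨R, hR0, hR⟩ := exists_rep hL hs
  have hg0 : 0 ≤ ∑' y : L, gs s (y : E) := tsum_nonneg fun y => (Real.exp_pos _).le
  refine ⟨4 * Real.exp (R ^ 2 / 4) * ∑' y : L, gs s (y : E) + 1, by positivity, fun z => ?_⟩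
  obtain ⟨z₀, y₀, hy₀, rfl, hz₀⟩ := hR z
  rw [tsum_shift (fun _ x => (1 + ‖x‖ ^ 2) * Real.exp (-(‖x‖ ^ 2 / 2))) z₀ hy₀]
  have h1 := Summable.tsum_le_tsum (fun y : L => term_le (s := s) (y : E) z₀)
    (summable_two hL hs z₀) ((gs_summable hL hs).mul_left _)
  rw [tsum_mul_left] at h1
  refine h1.trans ?_
  have h2 : Real.exp (‖z₀‖ ^ 2 / 4) ≤ Real.exp (R ^ 2 / 4) := by
    refine Real.exp_le_exp.2 ?_
    have := pow_le_pow_left₀ (norm_nonneg _) hz₀ 2
    linarith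
  nlinarith [mul_le_mul_of_nonneg_right h2 hg0]

theorem Th_lower (hL : Lat L) (hs : 0 < s) : ∃ c : ℝ, 0 < c ∧ ∀ z : E, c ≤ Th L s z := by
  obtain ⟨R, hR0, hR⟩ := exists_rep hL hs
  refine ⟨Real.exp (-(R ^ 2 / 2)), Real.exp_pos _, fun z => ?_⟩
  obtain ⟨z₀, y₀, hy₀, rfl, hz₀⟩ := hR z
  rw [Th_add z₀ hy₀]
  have h1 := (Th_summable hL hs z₀).le_tsum 0 (fun y _ => (Real.exp_pos _).le)
  refine le_trans ?_ h1
  simp only [ZeroMemClass.coe_zero, smul_zero, zero_sub, norm_neg]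
  refine Real.exp_le_exp.2 ?_
  have := pow_le_pow_left₀ (norm_nonneg _) hz₀ 2
  linarith

/-- the weight -/
noncomputable def wt (s : ℝ) (y z : E) : ℝ := Real.exp (-(‖s • y - z‖ ^ 2 / 2))

theorem wt_pos (y z : E) : 0 < wt s y z := Real.exp_pos _

theorem wt_continuous (y : E) : Continuous (wt s y) := by
  unfold wt
  fun_prop

theorem wt_summable (hL : Lat L) (hs : 0 < s) (z : E) : Summable fun y : L => wt s (y : E) z :=
  Th_summable hL hs z

theorem one_add_wt_summable (hL : Lat L) (hs : 0 < s) (z : E) :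
    Summable fun y : L => (1 + ‖s • (y : E) - z‖ ^ 2) * wt s (y : E) z :=
  summable_two hL hs z

theorem norm_cen_le (y z : E) : ‖wt s y z • (s • y - z)‖ ≤ (1 + ‖s • y - z‖ ^ 2) * wt s y z := by
  rw [norm_smul, Real.norm_of_nonneg (wt_pos _ _).le, mul_comm]
  refine mul_le_mul_of_nonneg_right ?_ (wt_pos _ _).le
  nlinarith [sq_nonneg (‖s • y - z‖ - 1), norm_nonneg (s • y - z)]

theorem cen_norm_summable (hL : Lat L) (hs : 0 < s) (z : E) :
    Summable fun y : L => ‖wt s (y : E) z • (s • (y : E) - z)‖ :=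
  Summable.of_nonneg_of_le (fun _ => norm_nonneg _) (fun _ => norm_cen_le _ _)
    (one_add_wt_summable hL hs z)

/-- the centred first moments are summable -/
theorem cen_summable [CompleteSpace E] (hL : Lat L) (hs : 0 < s) (z : E) :
    Summable fun y : L => wt s (y : E) z • (s • (y : E) - z) :=
  (cen_norm_summable hL hs z).of_norm

theorem num_summable [CompleteSpace E] (hL : Lat L) (hs : 0 < s) (z : E) :
    Summable fun y : L => wt s (y : E) z • (s • (y : E)) := by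
  have h1 := (cen_summable hL hs z).add ((wt_summable hL hs z).smul_const z)
  refine h1.congr fun y => ?_
  rw [← smul_add, sub_add_cancel]

theorem Mv_eq (L : AddSubgroup E) (s : ℝ) (z : E) :
    Mv L s z = (Th L s z)⁻¹ • ∑' y : L, wt s (y : E) z • (s • (y : E)) := rfl

theorem Th_eq (L : AddSubgroup E) (s : ℝ) (z : E) : Th L s z = ∑' y : L, wt s (y : E) z := rfl

theorem sub_Mv [CompleteSpace E] (hL : Lat L) (hs : 0 < s) (z : E) :
    Mv L s z - z = (Th L s z)⁻¹ • ∑' y : L, wt s (y : E) z • (s • (y : E) - z) := by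
  have h0 := Th_pos hL hs z
  have h1 : ∑' y : L, wt s (y : E) z • (s • (y : E) - z) =
      ∑' y : L, wt s (y : E) z • (s • (y : E)) - Th L s z • z := by
    rw [Th_eq, ← (wt_summable hL hs z).tsum_smul_const,
      ← (num_summable hL hs z).tsum_sub ((wt_summable hL hs z).smul_const z)]
    exact tsum_congr fun y => by rw [smul_sub]
  rw [h1, smul_sub, smul_smul, inv_mul_cancel₀ h0.ne', one_smul]
  rfl

theorem Mv_sub_le [CompleteSpace E] (hL : Lat L) (hs : 0 < s) : ∃ B, 0 ≤ B ∧ ∀ z : E,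
    ‖z - Mv L s z‖ ≤ B := by
  obtain ⟨C, hC, hCz⟩ := moment_bdd hL hs
  obtain ⟨c, hc, hcz⟩ := Th_lower hL hs
  refine ⟨c⁻¹ * C, by positivity, fun z => ?_⟩
  have h0 := Th_pos hL hs z
  rw [norm_sub_rev, sub_Mv hL hs, norm_smul, norm_inv, Real.norm_of_nonneg h0.le]
  refine mul_le_mul (inv_anti₀ hc (hcz z)) ?_ (norm_nonneg _) (by positivity)
  refine (norm_tsum_le_tsum_norm (cen_norm_summable hL hs z)).trans (le_trans ?_ (hCz z))
  exact Summable.tsum_le_tsum (fun y => norm_cen_le _ _) (cen_norm_summable hL hs z)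
    (one_add_wt_summable hL hs z)

/-- continuity of Gaussian sums -/
theorem continuous_sum {F : Type*} [NormedAddCommGroup F] [CompleteSpace F] (hL : Lat L)
    (hs : 0 < s) (f : E → E → F) (hf : ∀ y ∈ L, Continuous (f y)) (D : ℝ)
    (hD : ∀ y z, ‖f y z‖ ≤ D * (1 + ‖z‖) ^ 2 * ((1 + ‖s • y - z‖ ^ 2) * wt s y z)) :
    Continuous fun z => ∑' y : L, f (y : E) z := by
  rw [continuous_iff_continuousAt]
  intro z₀
  set ρ := ‖z₀‖ + 1 with hρ
  have hρ0 : 0 ≤ ρ := by positivity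
  have hcont : ContinuousOn (fun z => ∑' y : L, f (y : E) z) (Metric.ball 0 ρ) := by
    refine continuousOn_tsum (u := fun y : L => |D| * (1 + ρ) ^ 2 * (4 * Real.exp (ρ ^ 2 / 4) *
      gs s (y : E))) (fun y => (hf y y.2).continuousOn)
      (((gs_summable hL hs).mul_left _).mul_left _) ?_
    intro y z hz
    rw [Metric.mem_ball, dist_zero_right] at hz
    refine (hD y z).trans ?_
    have h1 := term_le (s := s) (y : E) z
    have h2 : Real.exp (‖z‖ ^ 2 / 4) ≤ Real.exp (ρ ^ 2 / 4) := by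
      refine Real.exp_le_exp.2 ?_
      have := pow_le_pow_left₀ (norm_nonneg _) hz.le 2
      linarith
    have h3 : (1 + ‖z‖) ^ 2 ≤ (1 + ρ) ^ 2 :=
      pow_le_pow_left₀ (by positivity) (by linarith) 2
    have h4 : 0 ≤ gs s (y : E) := (Real.exp_pos _).le
    have h5 : (1 + ‖s • (y : E) - z‖ ^ 2) * wt s (y : E) z ≤
        4 * Real.exp (ρ ^ 2 / 4) * gs s (y : E) :=
      h1.trans (mul_le_mul_of_nonneg_right (mul_le_mul_of_nonneg_left h2 (by norm_num)) h4)
    have h6 : 0 ≤ (1 + ‖s • (y : E) - z‖ ^ 2) * wt s (y : E) z :=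
      mul_nonneg (by positivity) (wt_pos _ _).le
    calc D * (1 + ‖z‖) ^ 2 * ((1 + ‖s • (y : E) - z‖ ^ 2) * wt s (y : E) z)
        ≤ |D| * (1 + ρ) ^ 2 * ((1 + ‖s • (y : E) - z‖ ^ 2) * wt s (y : E) z) := by
          refine mul_le_mul_of_nonneg_right ?_ h6
          exact mul_le_mul (le_abs_self D) h3 (by positivity) (abs_nonneg D)
      _ ≤ _ := mul_le_mul_of_nonneg_left h5 (by positivity)
  refine hcont.continuousAt (Metric.isOpen_ball.mem_nhds ?_)
  rw [Metric.mem_ball, dist_zero_right, hρ]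
  linarith

theorem Th_continuous (hL : Lat L) (hs : 0 < s) : Continuous (Th L s) := by
  refine continuous_sum hL hs (fun y z => wt s y z) (fun y _ => wt_continuous y) 1 fun y z => ?_
  rw [Real.norm_of_nonneg (wt_pos _ _).le, one_mul]
  have h1 := wt_pos (s := s) y z
  have h2 : 1 ≤ (1 + ‖z‖) ^ 2 := one_le_pow₀ (by linarith [norm_nonneg z])
  have h3 : wt s y z ≤ (1 + ‖s • y - z‖ ^ 2) * wt s y z := by
    nlinarith [sq_nonneg ‖s • y - z‖]
  exact h3.trans (le_mul_of_one_le_left (by positivity) h2)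

theorem norm_smul_le (y z : E) : ‖s • y‖ ≤ (1 + ‖z‖) * (1 + ‖s • y - z‖ ^ 2) := by
  have h1 : ‖s • y‖ ≤ ‖s • y - z‖ + ‖z‖ := by
    have := norm_add_le (s • y - z) z
    rwa [sub_add_cancel] at this
  have h2 := norm_nonneg (s • y - z)
  have h3 := norm_nonneg z
  nlinarith [sq_nonneg (‖s • y - z‖ - 1), mul_nonneg h3 (sq_nonneg ‖s • y - z‖)]

theorem Mv_cont [CompleteSpace E] (hL : Lat L) (hs : 0 < s) : Continuous (Mv L s) := by
  have h1 : Continuous fun z => ∑' y : L, wt s (y : E) z • (s • (y : E)) := by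
    refine continuous_sum hL hs (fun y z => wt s y z • (s • y))
      (fun y _ => (wt_continuous y).smul continuous_const) 1 fun y z => ?_
    rw [norm_smul, Real.norm_of_nonneg (wt_pos _ _).le, one_mul]
    have h2 := norm_smul_le (s := s) y z
    have h3 : (1 + ‖z‖) ≤ (1 + ‖z‖) ^ 2 := by nlinarith [norm_nonneg z]
    have h4 := wt_pos (s := s) y z
    calc wt s y z * ‖s • y‖ ≤ wt s y z * ((1 + ‖z‖) * (1 + ‖s • y - z‖ ^ 2)) :=
          mul_le_mul_of_nonneg_left h2 h4.le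
      _ = (1 + ‖z‖) * ((1 + ‖s • y - z‖ ^ 2) * wt s y z) := by ring
      _ ≤ _ := mul_le_mul_of_nonneg_right h3 (by positivity)
  exact ((Th_continuous hL hs).inv₀ fun z => (Th_pos hL hs z).ne').smul h1

theorem Mv_shift [CompleteSpace E] (hL : Lat L) (hs : 0 < s) (z : E) {y₀ : E} (hy : y₀ ∈ L) :
    Mv L s (z + s • y₀) = Mv L s z + s • y₀ := by
  have h0 := Th_pos hL hs z
  rw [Mv_eq, Mv_eq, Th_add z hy]
  have h1 : ∑' y : L, wt s (y : E) (z + s • y₀) • (s • (y : E)) =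
      ∑' y : L, wt s (y : E) z • (s • (y : E)) + Th L s z • (s • y₀) := by
    have h2 := tsum_shift (L := L) (s := s)
      (fun y x => Real.exp (-(‖x‖ ^ 2 / 2)) • (s • y)) z hy
    have h3 : ∑' y : L, wt s (y : E) (z + s • y₀) • (s • (y : E)) =
        ∑' y : L, wt s (y : E) z • (s • ((y : E) + y₀)) := h2
    rw [h3, Th_eq, ← (wt_summable hL hs z).tsum_smul_const,
      ← (num_summable hL hs z).tsum_add ((wt_summable hL hs z).smul_const _)]
    exact tsum_congr fun y => by rw [smul_add, smul_add]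
  rw [h1, smul_add, smul_smul, inv_mul_cancel₀ h0.ne', one_smul]

end Moments

section Meas

variable {E : Type*} [NormedAddCommGroup E] [InnerProductSpace ℝ E] [FiniteDimensional ℝ E]
  [MeasurableSpace E] [BorelSpace E] {L : AddSubgroup E} {s : ℝ}

theorem countable_L (hL : Lat L) : Countable L := by
  have h1 := (hL.summ 1 one_pos).countable_support
  have h2 : Function.support (fun y : L => Real.exp (-(1 * ‖(y : E)‖ ^ 2))) = Set.univ := by
    ext y
    simp [Real.exp_ne_zero]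
  rw [h2] at h1
  exact Set.countable_univ_iff.mp h1

theorem integrable_sq : Integrable (fun z : E => (1 + ‖z‖) ^ 2) (stdGaussian E) := by
  have h1 : MemLp (fun z : E => 1 + ‖z‖) 2 (stdGaussian E) := by
    have h2 : MemLp (fun z : E => z) 2 (stdGaussian E) := IsGaussian.memLp_two_id
    exact (memLp_const (1 : ℝ)).add h2.norm
  exact h1.integrable_sq

theorem integrable_of_growth {f : E → ℝ} (hf : AEStronglyMeasurable f (stdGaussian E)) (D : ℝ)
    (hD : ∀ z, |f z| ≤ D * (1 + ‖z‖) ^ 2) : Integrable f (stdGaussian E) :=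
  (integrable_sq.const_mul D).mono' hf (ae_of_all _ fun z => hD z)

/-- exchange of the sum over the lattice and the Gaussian integral -/
theorem fub (hL : Lat L) (hs : 0 < s) (h : E → E → ℝ) (hm : ∀ y ∈ L, Measurable (h y)) (D : ℝ)
    (hD : ∀ y z, |h y z| ≤ D * (1 + ‖z‖) ^ 2 * (1 + ‖s • y - z‖ ^ 2)) :
    ∫ z, (∑' y : L, h y z * wt s (y : E) z) / Th L s z ∂stdGaussian E =
      ∑' y : L, ∫ z, h y z * wt s (y : E) z / Th L s z ∂stdGaussian E := by
  have := countable_L hL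
  obtain ⟨C, hC, hCz⟩ := moment_bdd hL hs
  obtain ⟨c, hc, hcz⟩ := Th_lower hL hs
  have hTm : Measurable (Th L s) := (Th_continuous hL hs).measurable
  have hmeas : ∀ y : L, Measurable fun z => h y z * wt s (y : E) z / Th L s z := fun y =>
    ((hm y y.2).mul (wt_continuous (y : E)).measurable).div hTm
  have h1 : ∀ z : E, ∑' y : L, ‖h y z * wt s (y : E) z / Th L s z‖ₑ ≤
      ENNReal.ofReal (|D| * c⁻¹ * C * (1 + ‖z‖) ^ 2) := by
    intro z
    have h2 : ∀ y : L, ‖h y z * wt s (y : E) z / Th L s z‖ ≤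
        |D| * (1 + ‖z‖) ^ 2 * c⁻¹ * ((1 + ‖s • (y : E) - z‖ ^ 2) * wt s (y : E) z) := by
      intro y
      rw [norm_div, norm_mul, Real.norm_of_nonneg (wt_pos _ _).le,
        Real.norm_of_nonneg (Th_pos hL hs z).le, div_eq_mul_inv, Real.norm_eq_abs]
      have e1 : |h y z| ≤ |D| * (1 + ‖z‖) ^ 2 * (1 + ‖s • (y : E) - z‖ ^ 2) := by
        refine (hD y z).trans ?_
        refine mul_le_mul_of_nonneg_right ?_ (by positivity)
        exact mul_le_mul_of_nonneg_right (le_abs_self D) (by positivity)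
      have e2 : (Th L s z)⁻¹ ≤ c⁻¹ := inv_anti₀ hc (hcz z)
      calc |h y z| * wt s (y : E) z * (Th L s z)⁻¹
          ≤ (|D| * (1 + ‖z‖) ^ 2 * (1 + ‖s • (y : E) - z‖ ^ 2)) * wt s (y : E) z * c⁻¹ := by
            refine mul_le_mul ?_ e2 (inv_nonneg.2 (Th_pos hL hs z).le)
              (mul_nonneg (by positivity) (wt_pos _ _).le)
            exact mul_le_mul_of_nonneg_right e1 (wt_pos _ _).le
        _ = _ := by ring
    have hsum := (one_add_wt_summable hL hs z).mul_left (|D| * (1 + ‖z‖) ^ 2 * c⁻¹)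
    have hsn : Summable fun y : L => ‖h y z * wt s (y : E) z / Th L s z‖ :=
      Summable.of_nonneg_of_le (fun _ => norm_nonneg _) h2 hsum
    have h3 : ∑' y : L, ‖h y z * wt s (y : E) z / Th L s z‖ₑ =
        ENNReal.ofReal (∑' y : L, ‖h y z * wt s (y : E) z / Th L s z‖) := by
      rw [ENNReal.ofReal_tsum_of_nonneg (fun _ => norm_nonneg _) hsn]
      exact tsum_congr fun y => (ofReal_norm _).symm
    rw [h3]
    refine ENNReal.ofReal_le_ofReal ?_
    refine (Summable.tsum_le_tsum h2 hsn hsum).trans ?_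
    rw [tsum_mul_left]
    calc |D| * (1 + ‖z‖) ^ 2 * c⁻¹ *
          ∑' y : L, (1 + ‖s • (y : E) - z‖ ^ 2) * wt s (y : E) z
        ≤ |D| * (1 + ‖z‖) ^ 2 * c⁻¹ * C :=
          mul_le_mul_of_nonneg_left (hCz z) (by positivity)
      _ = _ := by ring
  have h4 : ∑' y : L, ∫⁻ z, ‖h y z * wt s (y : E) z / Th L s z‖ₑ ∂stdGaussian E ≠ ⊤ := by
    rw [← lintegral_tsum fun y => (hmeas y).enorm.aemeasurable]
    refine ne_top_of_le_ne_top ?_ (lintegral_mono h1)
    have h5 := (integrable_sq (E := E)).const_mul (|D| * c⁻¹ * C)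
    exact (h5.lintegral_lt_top).ne
  rw [← integral_tsum (fun y => (hmeas y).aestronglyMeasurable) h4]
  refine integral_congr_ae (ae_of_all _ fun z => ?_)
  simp only [div_eq_mul_inv]
  rw [tsum_mul_right]

/-- the change of variables `z ↦ z + s y` for periodic functions -/
theorem transport (φ : E → ℝ)
    (hper : ∀ z, ∀ y ∈ L, φ (z + s • y) = φ z) {y : E} (hy : y ∈ L) :
    ∫ z, φ z * wt s (-y) z / Th L s z ∂stdGaussian E =
      ∫ z, φ z * wt s y z / Th L s z ∂stdGaussian E := by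
  rw [integral_stdG, integral_stdG]
  have h1 := integral_add_right_eq_self (μ := (volume : Measure E)) (fun z =>
    (2 * Real.pi) ^ (-(Module.finrank ℝ E : ℝ) / 2) * Real.exp (-(‖z‖ ^ 2 / 2)) *
      (φ z * wt s y z / Th L s z)) (s • y)
  rw [← h1]
  refine integral_congr_ae (ae_of_all _ fun z => ?_)
  simp only
  rw [hper z y hy, Th_add z hy]
  have e1 : wt s y (z + s • y) = Real.exp (-(‖z‖ ^ 2 / 2)) := by
    rw [wt, show s • y - (z + s • y) = -z by abel, norm_neg]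
  have e2 : wt s (-y) z = Real.exp (-(‖z + s • y‖ ^ 2 / 2)) := by
    rw [wt, show s • -y - z = -(z + s • y) by rw [smul_neg]; abel, norm_neg]
  rw [e1, e2]
  ring

/-- the change of variables `z ↦ s y - z` -/
theorem reflect (f : E → ℝ) {y : E} (hy : y ∈ L) :
    ∫ z, f (s • y - z) * wt s y z / Th L s z ∂stdGaussian E =
      ∫ z, f z * wt s y z / Th L s z ∂stdGaussian E := by
  rw [integral_stdG, integral_stdG]
  have h1 := integral_sub_left_eq_self (μ := (volume : Measure E)) (fun z =>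
    (2 * Real.pi) ^ (-(Module.finrank ℝ E : ℝ) / 2) * Real.exp (-(‖z‖ ^ 2 / 2)) *
      (f z * wt s y z / Th L s z)) (s • y)
  rw [← h1]
  refine integral_congr_ae (ae_of_all _ fun z => ?_)
  simp only
  have e0 : Th L s (s • y - z) = Th L s z := by
    rw [show s • y - z = -z + s • y by abel, Th_add _ hy, Th_neg]
  have e1 : wt s y (s • y - z) = Real.exp (-(‖z‖ ^ 2 / 2)) := by
    rw [wt, sub_sub_cancel]
  rw [e0, e1, wt]
  ring

end Meas

end R4

open R4

variable {E : Type*} [NormedAddCommGroup E] [InnerProductSpace ℝ E] [FiniteDimensional ℝ E]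
  [MeasurableSpace E] [BorelSpace E] {L : AddSubgroup E} {s : ℝ}

omit [MeasurableSpace E] [BorelSpace E] in
theorem Mv_inner (hL : Lat L) (hs : 0 < s) (z a : E) :
    ⟪Mv L s z, a⟫ = Ex L s z (fun y => ⟪y, a⟫) := by
  rw [Mv_eq, Ex, real_inner_smul_left, div_eq_inv_mul]
  congr 1
  have h1 := (innerSL ℝ a).map_tsum (num_summable hL hs z)
  rw [innerSL_apply_apply, real_inner_comm] at h1
  rw [h1]
  refine tsum_congr fun y => ?_
  rw [innerSL_apply_apply, real_inner_comm, real_inner_smul_left, mul_comm]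
  rfl

omit [MeasurableSpace E] [BorelSpace E] in
theorem Mv_continuous (hL : Lat L) (hs : 0 < s) : Continuous (Mv L s) := Mv_cont hL hs

omit [MeasurableSpace E] [BorelSpace E] in
theorem Mv_bdd (hL : Lat L) (hs : 0 < s) : ∃ B, ∀ z, ‖z - Mv L s z‖ ≤ B := by
  obtain ⟨B, -, hB⟩ := Mv_sub_le hL hs
  exact ⟨B, hB⟩

omit [MeasurableSpace E] [BorelSpace E] in
theorem Mv_add (hL : Lat L) (hs : 0 < s) (z : E) {y : E} (hy : y ∈ L) :
    Mv L s (z + s • y) = Mv L s z + s • y := Mv_shift hL hs z hy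

theorem orth (hL : Lat L) (hs : 0 < s) (φ : E → ℝ) (hm : Measurable φ) (B : ℝ)
    (hB : ∀ z, |φ z| ≤ B) (hper : ∀ z, ∀ y ∈ L, φ (z + s • y) = φ z) (a : E) :
    ∫ z, φ z * ⟪Mv L s z, a⟫ ∂stdGaussian E = 0 := by
  have hB0 : 0 ≤ B := (abs_nonneg _).trans (hB 0)
  have h1 : ∫ z, φ z * ⟪Mv L s z, a⟫ ∂stdGaussian E =
      ∑' y : L, ∫ z, φ z * ⟪s • (y : E), a⟫ * wt s (y : E) z / Th L s z ∂stdGaussian E := by
    rw [← fub hL hs (fun y z => φ z * ⟪s • y, a⟫) (fun y _ => hm.mul_const _) (B * ‖a‖) ?_]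
    · refine integral_congr_ae (ae_of_all _ fun z => ?_)
      simp only
      rw [Mv_inner hL hs, Ex]
      have : ∀ y : L, φ z * ⟪s • (y : E), a⟫ * wt s (y : E) z =
          φ z * (⟪s • (y : E), a⟫ * wt s (y : E) z) := fun y => by ring
      simp only [this, tsum_mul_left]
      rw [mul_div_assoc]
      rfl
    · intro y z
      rw [abs_mul]
      have e1 : |⟪s • y, a⟫| ≤ ‖s • y‖ * ‖a‖ := abs_real_inner_le_norm _ _
      have e2 := norm_smul_le (s := s) y z
      have e3 : (1 + ‖z‖) ≤ (1 + ‖z‖) ^ 2 := by nlinarith [norm_nonneg z]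
      calc |φ z| * |⟪s • y, a⟫| ≤ B * (‖s • y‖ * ‖a‖) :=
            mul_le_mul (hB z) e1 (abs_nonneg _) hB0
        _ ≤ B * ((1 + ‖z‖) * (1 + ‖s • y - z‖ ^ 2) * ‖a‖) := by gcongr
        _ ≤ B * ((1 + ‖z‖) ^ 2 * (1 + ‖s • y - z‖ ^ 2) * ‖a‖) := by gcongr
        _ = _ := by ring
  have h2 : ∀ y : L, ∫ z, φ z * ⟪s • (y : E), a⟫ * wt s (y : E) z / Th L s z ∂stdGaussian E =
      ⟪s • (y : E), a⟫ * ∫ z, φ z * wt s (y : E) z / Th L s z ∂stdGaussian E := by
    intro y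
    rw [← integral_const_mul]
    refine integral_congr_ae (ae_of_all _ fun z => ?_)
    simp only
    ring
  simp only [h2] at h1
  have h3 : ∑' y : L, ⟪s • (y : E), a⟫ * ∫ z, φ z * wt s (y : E) z / Th L s z ∂stdGaussian E =
      -∑' y : L, ⟪s • (y : E), a⟫ * ∫ z, φ z * wt s (y : E) z / Th L s z ∂stdGaussian E := by
    conv_lhs => rw [← (Equiv.neg L).tsum_eq]
    rw [← tsum_neg]
    refine tsum_congr fun y => ?_
    simp only [Equiv.neg_apply, NegMemClass.coe_neg]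
    rw [transport φ hper y.2, smul_neg, inner_neg_left]
    ring
  rw [h1]
  linarith

theorem int_Mv_mul (hL : Lat L) (hs : 0 < s) (f : E → ℝ) (hf : Measurable f) (D : ℝ)
    (hD : ∀ z, |f z| ≤ D * (1 + ‖z‖)) (a : E) :
    Integrable (fun z => f z * ⟪Mv L s z, a⟫) (stdGaussian E) := by
  obtain ⟨B, hB0, hB⟩ := Mv_sub_le hL hs
  have hD0 : 0 ≤ D := by
    have := (abs_nonneg _).trans (hD 0)
    rwa [norm_zero, add_zero, mul_one] at this
  refine integrable_of_growth (hf.mul ((Mv_continuous hL hs).inner continuous_const).measurable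
    |>.aestronglyMeasurable) (D * ((1 + B) * ‖a‖)) fun z => ?_
  rw [abs_mul]
  have e1 : |⟪Mv L s z, a⟫| ≤ ‖Mv L s z‖ * ‖a‖ := abs_real_inner_le_norm _ _
  have e2 : ‖Mv L s z‖ ≤ (1 + B) * (1 + ‖z‖) := by
    have h1 : ‖Mv L s z‖ ≤ ‖z‖ + ‖z - Mv L s z‖ := by
      have := norm_sub_le z (z - Mv L s z)
      rwa [sub_sub_cancel] at this
    nlinarith [hB z, norm_nonneg z, mul_nonneg hB0 (norm_nonneg z)]
  calc |f z| * |⟪Mv L s z, a⟫| ≤ (D * (1 + ‖z‖)) * (((1 + B) * (1 + ‖z‖)) * ‖a‖) :=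
        mul_le_mul (hD z) (e1.trans (mul_le_mul_of_nonneg_right e2 (norm_nonneg _)))
          (abs_nonneg _) (by positivity)
    _ = _ := by ring

omit [MeasurableSpace E] [BorelSpace E] in
theorem Mv_growth (hL : Lat L) (hs : 0 < s) (b : E) : ∃ D, ∀ z, |⟪Mv L s z, b⟫| ≤
    D * (1 + ‖z‖) := by
  obtain ⟨B, hB0, hB⟩ := Mv_sub_le hL hs
  refine ⟨(1 + B) * ‖b‖, fun z => ?_⟩
  have e1 : |⟪Mv L s z, b⟫| ≤ ‖Mv L s z‖ * ‖b‖ := abs_real_inner_le_norm _ _
  have h1 : ‖Mv L s z‖ ≤ ‖z‖ + ‖z - Mv L s z‖ := by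
    have := norm_sub_le z (z - Mv L s z)
    rwa [sub_sub_cancel] at this
  have e2 : ‖Mv L s z‖ ≤ (1 + B) * (1 + ‖z‖) := by
    nlinarith [hB z, norm_nonneg z, mul_nonneg hB0 (norm_nonneg z)]
  calc |⟪Mv L s z, b⟫| ≤ ((1 + B) * (1 + ‖z‖)) * ‖b‖ :=
        e1.trans (mul_le_mul_of_nonneg_right e2 (norm_nonneg _))
    _ = _ := by ring

omit [FiniteDimensional ℝ E] [MeasurableSpace E] [BorelSpace E] in
theorem inner_growth (a : E) : ∀ z : E, |⟪z, a⟫| ≤ ‖a‖ * (1 + ‖z‖) := fun z => by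
  have := abs_real_inner_le_norm z a
  nlinarith [norm_nonneg a, norm_nonneg z]

theorem int_MM (hL : Lat L) (hs : 0 < s) (a b : E) :
    Integrable (fun z => ⟪Mv L s z, a⟫ * ⟪Mv L s z, b⟫) (stdGaussian E) := by
  obtain ⟨D, hD⟩ := Mv_growth hL hs a
  exact int_Mv_mul hL hs _ ((Mv_continuous hL hs).inner continuous_const).measurable D hD b

theorem int_zM (hL : Lat L) (hs : 0 < s) (a b : E) :
    Integrable (fun z => ⟪z, a⟫ * ⟪Mv L s z, b⟫) (stdGaussian E) :=
  int_Mv_mul hL hs _ (continuous_id.inner continuous_const).measurable _ (inner_growth a) b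

theorem P_eq (hL : Lat L) (hs : 0 < s) (a b : E) :
    ∫ z, ⟪z, a⟫ * ⟪Mv L s z, b⟫ ∂stdGaussian E = Pm L s a b := by
  obtain ⟨B, hB0, hB⟩ := Mv_sub_le hL hs
  have h1 := orth hL hs (fun z => ⟪z - Mv L s z, a⟫)
    ((continuous_id.sub (Mv_continuous hL hs)).inner continuous_const).measurable (B * ‖a‖)
    (fun z => (abs_real_inner_le_norm _ _).trans
      (mul_le_mul_of_nonneg_right (hB z) (norm_nonneg _)))
    (fun z y hy => by
      rw [Mv_add hL hs z hy]
      congr 1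
      abel) b
  have h2 : ∫ z, ⟪z - Mv L s z, a⟫ * ⟪Mv L s z, b⟫ ∂stdGaussian E =
      ∫ z, ⟪z, a⟫ * ⟪Mv L s z, b⟫ ∂stdGaussian E - Pm L s a b := by
    rw [Pm, ← integral_sub (int_zM hL hs a b) (int_MM hL hs a b)]
    refine integral_congr_ae (ae_of_all _ fun z => ?_)
    simp only [inner_sub_left]
    ring
  rw [h2] at h1
  linarith

omit [FiniteDimensional ℝ E] [MeasurableSpace E] [BorelSpace E] in
theorem prod_growth (a b : E) (y z : E) : |⟪s • y, a⟫ * ⟪s • y, b⟫| ≤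
    2 * (‖a‖ * ‖b‖) * (1 + ‖z‖) ^ 2 * (1 + ‖s • y - z‖ ^ 2) := by
  rw [abs_mul]
  have e1 : |⟪s • y, a⟫| ≤ ‖s • y‖ * ‖a‖ := abs_real_inner_le_norm _ _
  have e2 : |⟪s • y, b⟫| ≤ ‖s • y‖ * ‖b‖ := abs_real_inner_le_norm _ _
  have h1 : ‖s • y‖ ^ 2 ≤ 2 * (1 + ‖z‖) ^ 2 * (1 + ‖s • y - z‖ ^ 2) := by
    have := norm_sq_ge (s • y) z
    have h2 := norm_nonneg z
    nlinarith [sq_nonneg ‖s • y - z‖, mul_nonneg h2 (sq_nonneg ‖s • y - z‖),
      mul_nonneg (sq_nonneg ‖z‖) (sq_nonneg ‖s • y - z‖)]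
  calc |⟪s • y, a⟫| * |⟪s • y, b⟫| ≤ (‖s • y‖ * ‖a‖) * (‖s • y‖ * ‖b‖) :=
        mul_le_mul e1 e2 (abs_nonneg _) (by positivity)
    _ = ‖s • y‖ ^ 2 * (‖a‖ * ‖b‖) := by ring
    _ ≤ (2 * (1 + ‖z‖) ^ 2 * (1 + ‖s • y - z‖ ^ 2)) * (‖a‖ * ‖b‖) :=
        mul_le_mul_of_nonneg_right h1 (by positivity)
    _ = _ := by ring

theorem P_second (hL : Lat L) (hs : 0 < s) (a b : E) :
    ∫ z, Ex L s z (fun y => ⟪y, a⟫ * ⟪y, b⟫) ∂stdGaussian E = 2 * Pm L s a b := by
  have h1 : ∫ z, Ex L s z (fun y => ⟪y, a⟫ * ⟪y, b⟫) ∂stdGaussian E =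
      ∑' y : L, ∫ z, ⟪s • (y : E), a⟫ * ⟪s • (y : E), b⟫ * wt s (y : E) z / Th L s z
        ∂stdGaussian E := by
    rw [← fub hL hs (fun y _ => ⟪s • y, a⟫ * ⟪s • y, b⟫) (fun y _ => measurable_const)
      (2 * (‖a‖ * ‖b‖)) (fun y z => prod_growth a b y z)]
    rfl
  have h2 : Pm L s a b = ∑' y : L, ∫ z, ⟪z, a⟫ * ⟪s • (y : E), b⟫ * wt s (y : E) z / Th L s z
        ∂stdGaussian E := by
    rw [← P_eq hL hs, ← fub hL hs (fun y z => ⟪z, a⟫ * ⟪s • y, b⟫)
      (fun y _ => (continuous_id.inner continuous_const).measurable.mul_const _)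
      (‖a‖ * ‖b‖) ?_]
    · refine integral_congr_ae (ae_of_all _ fun z => ?_)
      simp only
      rw [Mv_inner hL hs, Ex]
      have : ∀ y : L, ⟪z, a⟫ * ⟪s • (y : E), b⟫ * wt s (y : E) z =
          ⟪z, a⟫ * (⟪s • (y : E), b⟫ * wt s (y : E) z) := fun y => by ring
      simp only [this, tsum_mul_left]
      rw [mul_div_assoc]
      rfl
    · intro y z
      rw [abs_mul]
      have e1 : |⟪s • y, b⟫| ≤ ‖s • y‖ * ‖b‖ := abs_real_inner_le_norm _ _
      have e2 := norm_smul_le (s := s) y z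
      calc |⟪z, a⟫| * |⟪s • y, b⟫| ≤ (‖a‖ * (1 + ‖z‖)) * (‖s • y‖ * ‖b‖) :=
            mul_le_mul (inner_growth a z) e1 (abs_nonneg _) (by positivity)
        _ ≤ (‖a‖ * (1 + ‖z‖)) * ((1 + ‖z‖) * (1 + ‖s • y - z‖ ^ 2) * ‖b‖) := by gcongr
        _ = _ := by ring
  rw [h1, h2, ← tsum_mul_left]
  refine tsum_congr fun y => ?_
  have h3 := reflect (s := s) (fun z => ⟪z, a⟫) y.2
  have hint : Integrable (fun z => ⟪z, a⟫ * wt s (y : E) z / Th L s z) (stdGaussian E) := by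
    obtain ⟨c, hc, hcz⟩ := Th_lower hL hs
    refine integrable_of_growth (((continuous_id.inner continuous_const).mul
      (wt_continuous (y : E))).div (Th_continuous hL hs)
      (fun z => (Th_pos hL hs z).ne')).aestronglyMeasurable (‖a‖ * c⁻¹) fun z => ?_
    rw [abs_div, abs_mul, abs_of_pos (wt_pos _ _), abs_of_pos (Th_pos hL hs z), div_eq_mul_inv]
    have e1 : wt s (y : E) z ≤ 1 := by
      rw [wt, Real.exp_le_one_iff]
      have := sq_nonneg ‖s • (y : E) - z‖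
      linarith
    have e2 : (Th L s z)⁻¹ ≤ c⁻¹ := inv_anti₀ hc (hcz z)
    have e3 : (1 + ‖z‖) ≤ (1 + ‖z‖) ^ 2 := by nlinarith [norm_nonneg z]
    calc |⟪z, a⟫| * wt s (y : E) z * (Th L s z)⁻¹ ≤ (‖a‖ * (1 + ‖z‖)) * 1 * c⁻¹ := by
          refine mul_le_mul ?_ e2 (inv_nonneg.2 (Th_pos hL hs z).le) (by positivity)
          exact mul_le_mul (inner_growth a z) e1 (wt_pos _ _).le (by positivity)
      _ = ‖a‖ * c⁻¹ * (1 + ‖z‖) := by ring
      _ ≤ _ := mul_le_mul_of_nonneg_left e3 (by positivity)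
  have hint1 : Integrable (fun z => wt s (y : E) z / Th L s z) (stdGaussian E) := by
    obtain ⟨c, hc, hcz⟩ := Th_lower hL hs
    refine integrable_of_growth ((wt_continuous (y : E)).div (Th_continuous hL hs)
      (fun z => (Th_pos hL hs z).ne')).aestronglyMeasurable c⁻¹ fun z => ?_
    rw [abs_div, abs_of_pos (wt_pos _ _), abs_of_pos (Th_pos hL hs z), div_eq_mul_inv]
    have e1 : wt s (y : E) z ≤ 1 := by
      rw [wt, Real.exp_le_one_iff]
      have := sq_nonneg ‖s • (y : E) - z‖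
      linarith
    have e2 : (Th L s z)⁻¹ ≤ c⁻¹ := inv_anti₀ hc (hcz z)
    have e3 : 1 ≤ (1 + ‖z‖) ^ 2 := one_le_pow₀ (by linarith [norm_nonneg z])
    calc wt s (y : E) z * (Th L s z)⁻¹ ≤ 1 * c⁻¹ :=
          mul_le_mul e1 e2 (inv_nonneg.2 (Th_pos hL hs z).le) zero_le_one
      _ ≤ _ := by
          rw [one_mul]
          exact le_mul_of_one_le_right (by positivity) e3
  have h4 : ∫ z, ⟪s • (y : E) - z, a⟫ * wt s (y : E) z / Th L s z ∂stdGaussian E =
      ⟪s • (y : E), a⟫ * ∫ z, wt s (y : E) z / Th L s z ∂stdGaussian E -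
        ∫ z, ⟪z, a⟫ * wt s (y : E) z / Th L s z ∂stdGaussian E := by
    rw [← integral_const_mul, ← integral_sub (hint1.const_mul _) hint]
    refine integral_congr_ae (ae_of_all _ fun z => ?_)
    simp only [inner_sub_left]
    ring
  have h5 : ⟪s • (y : E), a⟫ * ∫ z, wt s (y : E) z / Th L s z ∂stdGaussian E =
      2 * ∫ z, ⟪z, a⟫ * wt s (y : E) z / Th L s z ∂stdGaussian E := by
    linarith
  have h6 : ∫ z, ⟪s • (y : E), a⟫ * ⟪s • (y : E), b⟫ * wt s (y : E) z / Th L s z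
      ∂stdGaussian E = ⟪s • (y : E), b⟫ * (⟪s • (y : E), a⟫ *
        ∫ z, wt s (y : E) z / Th L s z ∂stdGaussian E) := by
    rw [← integral_const_mul, ← integral_const_mul]
    refine integral_congr_ae (ae_of_all _ fun z => ?_)
    simp only
    ring
  have h7 : ∫ z, ⟪z, a⟫ * ⟪s • (y : E), b⟫ * wt s (y : E) z / Th L s z ∂stdGaussian E =
      ⟪s • (y : E), b⟫ * ∫ z, ⟪z, a⟫ * wt s (y : E) z / Th L s z ∂stdGaussian E := by
    rw [← integral_const_mul]
    refine integral_congr_ae (ae_of_all _ fun z => ?_)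
    simp only
    ring
  rw [h6, h7, h5]
  ring

theorem int_Ex (hL : Lat L) (hs : 0 < s) (a : E) :
    Integrable (fun z => Ex L s z (fun y => ⟪y, a⟫ ^ 2)) (stdGaussian E) := by
  obtain ⟨C, hC, hCz⟩ := moment_bdd hL hs
  obtain ⟨c, hc, hcz⟩ := Th_lower hL hs
  have hcont : Continuous fun z => ∑' y : L, ⟪s • (y : E), a⟫ ^ 2 * wt s (y : E) z := by
    refine continuous_sum hL hs (fun y z => ⟪s • y, a⟫ ^ 2 * wt s y z)
      (fun y _ => continuous_const.mul (wt_continuous y)) (2 * (‖a‖ * ‖a‖)) fun y z => ?_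
    rw [norm_mul, Real.norm_of_nonneg (wt_pos _ _).le, pow_two, Real.norm_eq_abs]
    have := mul_le_mul_of_nonneg_right (prod_growth (s := s) a a y z) (wt_pos (s := s) y z).le
    linarith
  refine integrable_of_growth (hcont.div (Th_continuous hL hs)
    (fun z => (Th_pos hL hs z).ne')).aestronglyMeasurable (2 * (‖a‖ * ‖a‖) * C * c⁻¹) fun z => ?_
  rw [Ex, abs_div, abs_of_pos (Th_pos hL hs z), div_eq_mul_inv]
  have hb : ∀ y : L, ‖⟪s • (y : E), a⟫ ^ 2 * wt s (y : E) z‖ ≤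
      2 * (‖a‖ * ‖a‖) * (1 + ‖z‖) ^ 2 * ((1 + ‖s • (y : E) - z‖ ^ 2) * wt s (y : E) z) := by
    intro y
    rw [norm_mul, Real.norm_of_nonneg (wt_pos _ _).le, pow_two, Real.norm_eq_abs]
    have := mul_le_mul_of_nonneg_right (prod_growth (s := s) a a (y : E) z)
      (wt_pos (s := s) (y : E) z).le
    linarith
  have hsum := (one_add_wt_summable hL hs z).mul_left (2 * (‖a‖ * ‖a‖) * (1 + ‖z‖) ^ 2)
  have h1 : |∑' y : L, ⟪s • (y : E), a⟫ ^ 2 * wt s (y : E) z| ≤
      2 * (‖a‖ * ‖a‖) * (1 + ‖z‖) ^ 2 * C := by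
    have hsn := Summable.of_nonneg_of_le (fun y : L => norm_nonneg _) hb hsum
    refine (norm_tsum_le_tsum_norm hsn).trans ((Summable.tsum_le_tsum hb hsn hsum).trans ?_)
    rw [tsum_mul_left]
    exact mul_le_mul_of_nonneg_left (hCz z) (by positivity)
  calc _ ≤ (2 * (‖a‖ * ‖a‖) * (1 + ‖z‖) ^ 2 * C) * c⁻¹ :=
        mul_le_mul h1 (inv_anti₀ hc (hcz z)) (inv_nonneg.2 (Th_pos hL hs z).le) (by positivity)
    _ = _ := by ring

theorem sig_le_P (hL : Lat L) (hs : 0 < s) (a : E) :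
    Ex L s 0 (fun y => ⟪y, a⟫ ^ 2) ≤ Pm L s a a := by
  have h1 : ∫ z, Ex L s z (fun y => ⟪y, a⟫ ^ 2) ∂stdGaussian E = 2 * Pm L s a a := by
    rw [← P_second hL hs]
    refine integral_congr_ae (ae_of_all _ fun z => ?_)
    simp only [pow_two]
  have h2 : ∫ z, (Ex L s z (fun y => ⟪y, a⟫ ^ 2) - ⟪Mv L s z, a⟫ * ⟪Mv L s z, a⟫)
      ∂stdGaussian E = Pm L s a a := by
    rw [integral_sub (int_Ex hL hs a) (int_MM hL hs a a), h1, Pm]
    ring
  rw [← h2]
  have h3 : ∫ _z : E, Ex L s 0 (fun y => ⟪y, a⟫ ^ 2) ∂stdGaussian E =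
      Ex L s 0 (fun y => ⟪y, a⟫ ^ 2) := by simp
  rw [← h3]
  refine integral_mono (integrable_const _) ((int_Ex hL hs a).sub (int_MM hL hs a a)) fun z => ?_
  have := sig_le_var hL hs z a
  rw [← Mv_inner hL hs, pow_two (⟪Mv L s z, a⟫)] at this
  exact this

theorem int_zz (a b : E) : Integrable (fun z : E => ⟪z, a⟫ * ⟪z, b⟫) (stdGaussian E) := by
  refine integrable_of_growth (((continuous_id.inner continuous_const).mul
    (continuous_id.inner continuous_const)).aestronglyMeasurable) (‖a‖ * ‖b‖) fun z => ?_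
  rw [abs_mul]
  calc |⟪z, a⟫| * |⟪z, b⟫| ≤ (‖a‖ * (1 + ‖z‖)) * (‖b‖ * (1 + ‖z‖)) :=
        mul_le_mul (inner_growth a z) (inner_growth b z) (abs_nonneg _) (by positivity)
    _ = _ := by ring

theorem integral_zz (a b : E) : ∫ z : E, ⟪z, a⟫ * ⟪z, b⟫ ∂stdGaussian E = ⟪a, b⟫ := by
  have h1 := covarianceBilin_apply_eq_cov (μ := stdGaussian E) IsGaussian.memLp_two_id a b
  rw [covarianceBilin_stdGaussian, innerSL_apply_apply] at h1
  have h2 : ∀ c : E, ∫ z : E, ⟪c, z⟫ ∂stdGaussian E = 0 := by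
    intro c
    exact integral_strongDual_stdGaussian (innerSL ℝ c)
  rw [h1, covariance, h2, h2]
  refine integral_congr_ae (ae_of_all _ fun z => ?_)
  simp only [sub_zero]
  rw [real_inner_comm, real_inner_comm z b]

/-- variance of `z - M(z)` -/
theorem integral_mm (hL : Lat L) (hs : 0 < s) (a b : E) :
    ∫ z, ⟪z - Mv L s z, a⟫ * ⟪z - Mv L s z, b⟫ ∂stdGaussian E = ⟪a, b⟫ - Pm L s a b := by
  have i1 := integral_sub (int_zz a b) (int_zM hL hs a b)
  have i2 := integral_sub ((int_zz a b).sub (int_zM hL hs a b)) (int_zM hL hs b a)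
  have i3 := integral_add (((int_zz a b).sub (int_zM hL hs a b)).sub (int_zM hL hs b a))
    (int_MM hL hs a b)
  simp only [Pi.sub_apply] at i1 i2 i3
  have h1 : ∫ z, ⟪z - Mv L s z, a⟫ * ⟪z - Mv L s z, b⟫ ∂stdGaussian E =
      ∫ z : E, ⟪z, a⟫ * ⟪z, b⟫ ∂stdGaussian E - ∫ z, ⟪z, a⟫ * ⟪Mv L s z, b⟫ ∂stdGaussian E -
        ∫ z, ⟪z, b⟫ * ⟪Mv L s z, a⟫ ∂stdGaussian E +
        ∫ z, ⟪Mv L s z, a⟫ * ⟪Mv L s z, b⟫ ∂stdGaussian E := by
    rw [← i1, ← i2, ← i3]
    refine integral_congr_ae (ae_of_all _ fun z => ?_)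
    simp only [inner_sub_left]
    ring
  have h2 : Pm L s b a = Pm L s a b := by
    unfold Pm
    exact integral_congr_ae (ae_of_all _ fun z => mul_comm _ _)
  rw [h1, integral_zz, P_eq hL hs, P_eq hL hs, h2, ← Pm]
  ring

theorem P_le (hL : Lat L) (hs : 0 < s) (a : E) : Pm L s a a ≤ ‖a‖ ^ 2 := by
  have h1 := integral_mm hL hs a a
  have h2 : 0 ≤ ∫ z, ⟪z - Mv L s z, a⟫ * ⟪z - Mv L s z, a⟫ ∂stdGaussian E :=
    integral_nonneg fun z => mul_self_nonneg _
  rw [h1, real_inner_self_eq_norm_sq] at h2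
  linarith

theorem tP_eq (hL : Lat L) (hs : 0 < s) {ι : Type*} [Fintype ι] (b : OrthonormalBasis ι ℝ E) :
    tP L s = ∑ i, Pm L s (b i) (b i) := by
  unfold tP Pm
  rw [← integral_finsetSum _ fun i _ => int_MM hL hs (b i) (b i)]
  refine integral_congr_ae (ae_of_all _ fun z => ?_)
  simp only
  rw [← b.sum_sq_inner_left]
  exact Finset.sum_congr rfl fun i _ => pow_two _

theorem Pm_comm (L : AddSubgroup E) (s : ℝ) (a b : E) : Pm L s a b = Pm L s b a := by
  unfold Pm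
  exact integral_congr_ae (ae_of_all _ fun z => mul_comm _ _)

/-- the operator of the form `P` -/
noncomputable def Pop (hL : Lat L) (hs : 0 < s) : E →ₗ[ℝ] E where
  toFun a := ∑ i, Pm L s a (stdOrthonormalBasis ℝ E i) • stdOrthonormalBasis ℝ E i
  map_add' a a' := by
    rw [← Finset.sum_add_distrib]
    refine Finset.sum_congr rfl fun i _ => ?_
    rw [← add_smul]
    congr 1
    unfold Pm
    rw [← integral_add (int_MM hL hs a _) (int_MM hL hs a' _)]
    refine integral_congr_ae (ae_of_all _ fun z => ?_)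
    simp only [inner_add_right]
    ring
  map_smul' r a := by
    rw [RingHom.id_apply, Finset.smul_sum]
    refine Finset.sum_congr rfl fun i _ => ?_
    rw [smul_smul]
    congr 1
    unfold Pm
    rw [← integral_const_mul]
    refine integral_congr_ae (ae_of_all _ fun z => ?_)
    simp only [real_inner_smul_right]
    ring

theorem inner_Pop (hL : Lat L) (hs : 0 < s) (a c : E) : ⟪Pop hL hs a, c⟫ = Pm L s a c := by
  show ⟪∑ i, Pm L s a (stdOrthonormalBasis ℝ E i) • stdOrthonormalBasis ℝ E i, c⟫ = _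
  rw [sum_inner]
  simp only [real_inner_smul_left]
  unfold Pm
  simp only [← integral_mul_const]
  rw [← integral_finsetSum _ fun i _ => (int_MM hL hs a _).mul_const _]
  refine integral_congr_ae (ae_of_all _ fun z => ?_)
  simp only [mul_assoc]
  rw [← Finset.mul_sum, OrthonormalBasis.sum_inner_mul_inner]

theorem exists_diag (hL : Lat L) (hs : 0 < s) :
    ∃ b : OrthonormalBasis (Fin (Module.finrank ℝ E)) ℝ E,
      ∀ i j, i ≠ j → Pm L s (b i) (b j) = 0 := by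
  have hT : (Pop hL hs).IsSymmetric := by
    intro x y
    rw [inner_Pop, real_inner_comm, inner_Pop, Pm_comm]
  refine ⟨hT.eigenvectorBasis rfl, fun i j hij => ?_⟩
  rw [← inner_Pop hL hs, hT.apply_eigenvectorBasis, RCLike.ofReal_real_eq_id, id,
    real_inner_smul_left, (hT.eigenvectorBasis rfl).inner_eq_ite, if_neg hij, mul_zero]

end Pool.Agent.BCD
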