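import Pool.Agent.Work.MP_bc8e1e_an.D.R4a

/-!
# R5: derivatives in `s` of `F(s) = log Θ(s,0)` and of `A(s) = E log Θ(s,z)`
-/

set_option autoImplicit false

open MeasureTheory ProbabilityTheory Filter
open scoped RealInnerProductSpace Topology

namespace Pool.Agent.BCD

namespace R5

section Basic

variable {E : Type*} [NormedAddCommGroup E] [InnerProductSpace ℝ E]
  {L : AddSubgroup E} {s : ℝ}

lemma summable_pow (hL : Lat L) (n : ℕ) {c : ℝ} (hc : 0 < c) :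
    Summable fun y : L => ‖(y : E)‖ ^ n * Real.exp (-(c * ‖(y : E)‖ ^ 2)) := by
  have h := Th_summable_pow hL (s := √(2 * c)) (by positivity) (0 : E) n
  refine h.congr fun y => ?_
  rw [sub_zero, norm_smul, mul_pow, Real.norm_eq_abs, sq_abs, Real.sq_sqrt (by positivity)]
  congr 2
  ring

/-- lower bound of the exponent, locally uniform in the scale. -/
lemma exp_bd {t : ℝ} (hs : 0 < s) (ht : s / 2 < t) (z y : E) :
    Real.exp (-(‖t • y - z‖ ^ 2 / 2)) ≤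
      Real.exp (‖z‖ ^ 2 / 2) * Real.exp (-(s ^ 2 / 16 * ‖y‖ ^ 2)) := by
  rw [← Real.exp_add]
  apply Real.exp_le_exp.2
  have h1 := R1.norm_sq_le (t • y) z
  have h2 : ‖t • y‖ ^ 2 = t ^ 2 * ‖y‖ ^ 2 := by
    rw [norm_smul, mul_pow, Real.norm_eq_abs, sq_abs]
  have h3 : (s / 2) ^ 2 ≤ t ^ 2 := pow_le_pow_left₀ (by positivity) ht.le 2
  have h4 : (s / 2) ^ 2 * ‖y‖ ^ 2 ≤ t ^ 2 * ‖y‖ ^ 2 :=
    mul_le_mul_of_nonneg_right h3 (by positivity)
  rw [h2] at h1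
  nlinarith

/-- the numerator of the logarithmic derivative -/
noncomputable def Nu (L : AddSubgroup E) (t : ℝ) (z : E) : ℝ :=
  ∑' y : L, -(⟪t • (y : E) - z, (y : E)⟫) * Real.exp (-(‖t • (y : E) - z‖ ^ 2 / 2))

lemma hasDerivAt_term (t : ℝ) (z y : E) :
    HasDerivAt (fun t : ℝ => Real.exp (-(‖t • y - z‖ ^ 2 / 2)))
      (-(⟪t • y - z, y⟫) * Real.exp (-(‖t • y - z‖ ^ 2 / 2))) t := by
  have h1 : HasDerivAt (fun t : ℝ => t • y - z) y t := by
    simpa using ((hasDerivAt_id t).smul_const y).sub_const z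
  have h2 := h1.norm_sq
  have h3 := ((h2.div_const 2).fun_neg).exp
  exact h3.congr_deriv (by ring)

lemma hasDerivAt_Th (hL : Lat L) (hs : 0 < s) (z : E) {t : ℝ} (h1 : s / 2 < t) (h2 : t < 2 * s) :
    HasDerivAt (fun t => Th L t z) (Nu L t z) t := by
  have hsum : Summable fun y : L => Real.exp (‖z‖ ^ 2 / 2) *
      ((2 * s) * (‖(y : E)‖ ^ 2 * Real.exp (-(s ^ 2 / 16 * ‖(y : E)‖ ^ 2))) +
        ‖z‖ * (‖(y : E)‖ ^ 1 * Real.exp (-(s ^ 2 / 16 * ‖(y : E)‖ ^ 2)))) :=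
    (((summable_pow hL 2 (by positivity)).mul_left _).add
      ((summable_pow hL 1 (by positivity)).mul_left _)).mul_left _
  unfold Th Nu
  refine hasDerivAt_tsum_of_isPreconnected (t := Set.Ioo (s / 2) (2 * s)) (y₀ := s)
    (g := fun (y : L) (t : ℝ) => Real.exp (-(‖t • (y : E) - z‖ ^ 2 / 2)))
    (g' := fun (y : L) (t : ℝ) => -(⟪t • (y : E) - z, (y : E)⟫) *
      Real.exp (-(‖t • (y : E) - z‖ ^ 2 / 2)))
    hsum isOpen_Ioo
    isPreconnected_Ioo (fun y t _ => hasDerivAt_term t z (y : E)) ?_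
    (by constructor <;> linarith) (Th_summable hL hs z) ⟨h1, h2⟩
  rintro y t ⟨ht1, ht2⟩
  rw [norm_mul, norm_neg, Real.norm_eq_abs, Real.norm_eq_abs, abs_of_pos (Real.exp_pos _)]
  have h3 : |⟪t • (y : E) - z, (y : E)⟫| ≤ (2 * s * ‖(y : E)‖ + ‖z‖) * ‖(y : E)‖ := by
    refine (abs_real_inner_le_norm _ _).trans ?_
    apply mul_le_mul_of_nonneg_right _ (norm_nonneg _)
    refine (norm_sub_le _ _).trans ?_
    rw [norm_smul, Real.norm_eq_abs, abs_of_pos (by linarith)]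
    have : t * ‖(y : E)‖ ≤ 2 * s * ‖(y : E)‖ :=
      mul_le_mul_of_nonneg_right ht2.le (norm_nonneg _)
    linarith
  have h4 := exp_bd hs ht1 z (y : E)
  calc |⟪t • (y : E) - z, (y : E)⟫| * Real.exp (-(‖t • (y : E) - z‖ ^ 2 / 2))
      ≤ ((2 * s * ‖(y : E)‖ + ‖z‖) * ‖(y : E)‖) *
        (Real.exp (‖z‖ ^ 2 / 2) * Real.exp (-(s ^ 2 / 16 * ‖(y : E)‖ ^ 2))) :=
        mul_le_mul h3 h4 (Real.exp_pos _).le (by positivity)
    _ = _ := by ring

lemma Th_lower (hL : Lat L) {R : ℝ} (hR : ∀ z : E, ∃ y ∈ L, ‖z - y‖ ≤ R) {t : ℝ} (ht : 0 < t)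
    (z : E) : Real.exp (-((t * R) ^ 2 / 2)) ≤ Th L t z := by
  obtain ⟨y, hy, hyR⟩ := hR (t⁻¹ • z)
  have h1 : ‖t • y - z‖ ≤ t * R := by
    have : t • y - z = -(t • (t⁻¹ • z - y)) := by
      rw [smul_sub, smul_inv_smul₀ ht.ne']; abel
    rw [this, norm_neg, norm_smul, Real.norm_eq_abs, abs_of_pos ht]
    exact mul_le_mul_of_nonneg_left hyR ht.le
  have h2 : Real.exp (-(‖t • y - z‖ ^ 2 / 2)) ≤ Th L t z :=
    (Th_summable hL ht z).le_tsum (⟨y, hy⟩ : L) (fun _ _ => (Real.exp_pos _).le)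
  refine le_trans (Real.exp_le_exp.2 ?_) h2
  have := pow_le_pow_left₀ (norm_nonneg _) h1 2
  linarith

lemma Th_anti (hL : Lat L) {s t : ℝ} (hs : 0 < s) (hst : s ≤ t) : Th L t 0 ≤ Th L s 0 := by
  refine (Th_summable hL (by linarith) 0).tsum_le_tsum ?_ (Th_summable hL hs 0)
  intro y
  apply Real.exp_le_exp.2
  rw [sub_zero, sub_zero, norm_smul, norm_smul, mul_pow, mul_pow, Real.norm_eq_abs,
    Real.norm_eq_abs, sq_abs, sq_abs]
  have h1 : s ^ 2 ≤ t ^ 2 := pow_le_pow_left₀ hs.le hst 2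
  have h2 := mul_le_mul_of_nonneg_right h1 (sq_nonneg ‖(y : E)‖)
  linarith

lemma term_bound {t : ℝ} (ht : 0 < t) (z y : E) :
    |⟪t • y - z, y⟫| * Real.exp (-(‖t • y - z‖ ^ 2 / 2)) ≤
      4 / t * (1 + ‖z‖) * Real.exp (-(‖(t / √2) • y - (√2)⁻¹ • z‖ ^ 2 / 2)) := by
  set x := ‖t • y - z‖ with hx
  have hx0 : 0 ≤ x := norm_nonneg _
  have h1 : ‖y‖ ≤ (x + ‖z‖) / t := by
    rw [le_div_iff₀ ht]
    have h2 : ‖t • y‖ ≤ ‖t • y - z‖ + ‖z‖ := by
      have := norm_add_le (t • y - z) z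
      simpa using this
    rw [norm_smul, Real.norm_eq_abs, abs_of_pos ht] at h2
    linarith
  have h3 : |⟪t • y - z, y⟫| ≤ x * ((x + ‖z‖) / t) :=
    (abs_real_inner_le_norm _ _).trans (mul_le_mul_of_nonneg_left h1 hx0)
  have h4 : ‖(t / √2) • y - (√2)⁻¹ • z‖ ^ 2 / 2 = x ^ 2 / 4 := by
    have : (t / √2) • y - (√2)⁻¹ • z = (√2)⁻¹ • (t • y - z) := by
      rw [smul_sub, smul_smul]; congr 2; ring
    rw [this, norm_smul, mul_pow, Real.norm_eq_abs, sq_abs, inv_pow,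
      Real.sq_sqrt (by norm_num), ← hx]
    ring
  rw [h4]
  have h5 : x ^ 2 / 4 + 1 ≤ Real.exp (x ^ 2 / 4) := Real.add_one_le_exp _
  have h6 : Real.exp (-(x ^ 2 / 2)) = Real.exp (-(x ^ 2 / 4)) * Real.exp (-(x ^ 2 / 4)) := by
    rw [← Real.exp_add]; ring_nf
  have h7 : x * (x + ‖z‖) * Real.exp (-(x ^ 2 / 4)) ≤ 4 * (1 + ‖z‖) := by
    have h8 : Real.exp (-(x ^ 2 / 4)) * Real.exp (x ^ 2 / 4) = 1 := by
      rw [← Real.exp_add]; simp
    have h9 : x * (x + ‖z‖) ≤ 4 * (1 + ‖z‖) * Real.exp (x ^ 2 / 4) := by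
      have hz := norm_nonneg z
      nlinarith [mul_nonneg hz (sq_nonneg (x - 2)), mul_nonneg hz hx0]
    calc x * (x + ‖z‖) * Real.exp (-(x ^ 2 / 4))
        ≤ 4 * (1 + ‖z‖) * Real.exp (x ^ 2 / 4) * Real.exp (-(x ^ 2 / 4)) :=
          mul_le_mul_of_nonneg_right h9 (Real.exp_pos _).le
      _ = 4 * (1 + ‖z‖) * (Real.exp (-(x ^ 2 / 4)) * Real.exp (x ^ 2 / 4)) := by ring
      _ = 4 * (1 + ‖z‖) := by rw [h8, mul_one]
  calc |⟪t • y - z, y⟫| * Real.exp (-(x ^ 2 / 2))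
      ≤ x * ((x + ‖z‖) / t) * Real.exp (-(x ^ 2 / 2)) :=
        mul_le_mul_of_nonneg_right h3 (Real.exp_pos _).le
    _ = (x * (x + ‖z‖) * Real.exp (-(x ^ 2 / 4))) / t * Real.exp (-(x ^ 2 / 4)) := by
        rw [h6]; ring
    _ ≤ (4 * (1 + ‖z‖)) / t * Real.exp (-(x ^ 2 / 4)) := by
        apply mul_le_mul_of_nonneg_right _ (Real.exp_pos _).le
        exact div_le_div_of_nonneg_right h7 ht.le
    _ = _ := by ring

lemma Nu_bound (hL : Lat L) {t : ℝ} (hs : 0 < s) (ht : s / 2 < t) (z : E) :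
    |Nu L t z| ≤ 8 / s * (1 + ‖z‖) * Th L (s / 2 / √2) 0 := by
  have ht0 : 0 < t := by linarith
  have hr : (0 : ℝ) < √2 := by positivity
  have h1 := Th_summable hL (s := t / √2) (by positivity) ((√2)⁻¹ • z)
  have hn : Summable fun y : L => ‖-(⟪t • (y : E) - z, (y : E)⟫) *
      Real.exp (-(‖t • (y : E) - z‖ ^ 2 / 2))‖ := by
    refine Summable.of_nonneg_of_le (fun y => norm_nonneg _) (fun y => ?_)
      (h1.mul_left (4 / t * (1 + ‖z‖)))
    rw [norm_mul, norm_neg, Real.norm_eq_abs, Real.norm_eq_abs, abs_of_pos (Real.exp_pos _)]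
    exact term_bound ht0 z (y : E)
  unfold Nu
  have h2 := norm_tsum_le_tsum_norm hn
  rw [← Real.norm_eq_abs]
  refine h2.trans ?_
  have h3 : ∑' y : L, ‖-(⟪t • (y : E) - z, (y : E)⟫) *
      Real.exp (-(‖t • (y : E) - z‖ ^ 2 / 2))‖ ≤
      ∑' y : L, 4 / t * (1 + ‖z‖) *
        Real.exp (-(‖(t / √2) • (y : E) - (√2)⁻¹ • z‖ ^ 2 / 2)) := by
    refine hn.tsum_le_tsum (fun y => ?_) (h1.mul_left _)
    rw [norm_mul, norm_neg, Real.norm_eq_abs, Real.norm_eq_abs, abs_of_pos (Real.exp_pos _)]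
    exact term_bound ht0 z (y : E)
  refine h3.trans ?_
  rw [tsum_mul_left]
  have h4 : Th L (t / √2) ((√2)⁻¹ • z) ≤ Th L (s / 2 / √2) 0 :=
    (Th_le_zero hL (by positivity) _).trans (Th_anti hL (by positivity)
      (div_le_div_of_nonneg_right ht.le hr.le))
  have h5 : 4 / t ≤ 8 / s := by
    rw [div_le_div_iff₀ ht0 hs]; linarith
  have h6 := Th_pos hL (s := t / √2) (by positivity) ((√2)⁻¹ • z)
  calc 4 / t * (1 + ‖z‖) * Th L (t / √2) ((√2)⁻¹ • z)
      ≤ 8 / s * (1 + ‖z‖) * Th L (s / 2 / √2) 0 := by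
        apply mul_le_mul _ h4 h6.le (by positivity)
        exact mul_le_mul_of_nonneg_right h5 (by positivity)

lemma Th_cont (hL : Lat L) (hs : 0 < s) : Continuous (Th L s) := by
  rw [continuous_iff_continuousAt]
  intro z₀
  have hball : Metric.ball (0 : E) (‖z₀‖ + 1) ∈ nhds z₀ := by
    apply Metric.isOpen_ball.mem_nhds
    rw [mem_ball_zero_iff]; linarith
  have hsum : Summable fun y : L =>
      Real.exp ((‖z₀‖ + 1) ^ 2 / 2) * Real.exp (-(s ^ 2 / 4 * ‖(y : E)‖ ^ 2)) :=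
    (hL.summ (s ^ 2 / 4) (by positivity)).mul_left _
  have hc : ContinuousOn (fun z => ∑' y : L, Real.exp (-(‖s • (y : E) - z‖ ^ 2 / 2)))
      (Metric.ball (0 : E) (‖z₀‖ + 1)) := by
    apply continuousOn_tsum (u := fun y : L =>
      Real.exp ((‖z₀‖ + 1) ^ 2 / 2) * Real.exp (-(s ^ 2 / 4 * ‖(y : E)‖ ^ 2)))
    · intro y
      fun_prop
    · exact hsum
    · intro y z hz
      rw [mem_ball_zero_iff] at hz
      rw [Real.norm_eq_abs, abs_of_pos (Real.exp_pos _), ← Real.exp_add]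
      apply Real.exp_le_exp.2
      have h1 := R1.norm_sq_le (s • (y : E)) z
      have h2 : ‖s • (y : E)‖ ^ 2 = s ^ 2 * ‖(y : E)‖ ^ 2 := by
        rw [norm_smul, mul_pow, Real.norm_eq_abs, sq_abs]
      rw [h2] at h1
      have h4 : ‖z‖ ^ 2 ≤ (‖z₀‖ + 1) ^ 2 := pow_le_pow_left₀ (norm_nonneg _) hz.le 2
      nlinarith
  exact hc.continuousAt hball

end Basic

section Fin

variable {E : Type*} [NormedAddCommGroup E] [InnerProductSpace ℝ E] [FiniteDimensional ℝ E]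
  [MeasurableSpace E] [BorelSpace E] {L : AddSubgroup E} {s : ℝ}

lemma summable_inner (hL : Lat L) (hs : 0 < s) (z a : E) :
    Summable fun y : L => ⟪s • (y : E), a⟫ * Real.exp (-(‖s • (y : E) - z‖ ^ 2 / 2)) := by
  refine Summable.of_norm_bounded ((Th_summable_pow hL hs z 1).mul_left (s * ‖a‖)) fun y => ?_
  rw [norm_mul, Real.norm_eq_abs, Real.norm_eq_abs, abs_of_pos (Real.exp_pos _), pow_one]
  have e1 : |⟪s • (y : E), a⟫| ≤ s * ‖(y : E)‖ * ‖a‖ := by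
    refine (abs_real_inner_le_norm _ _).trans (le_of_eq ?_)
    rw [norm_smul, Real.norm_eq_abs, abs_of_pos hs]
  calc _ ≤ s * ‖(y : E)‖ * ‖a‖ * Real.exp (-(‖s • (y : E) - z‖ ^ 2 / 2)) :=
        mul_le_mul_of_nonneg_right e1 (Real.exp_pos _).le
    _ = _ := by ring

lemma summable_inner_sq (hL : Lat L) (hs : 0 < s) (z a : E) :
    Summable fun y : L => ⟪s • (y : E), a⟫ ^ 2 * Real.exp (-(‖s • (y : E) - z‖ ^ 2 / 2)) := by
  refine Summable.of_norm_bounded ((Th_summable_pow hL hs z 2).mul_left ((s * ‖a‖) ^ 2))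
    fun y => ?_
  rw [norm_mul, norm_pow, Real.norm_eq_abs, Real.norm_eq_abs, abs_of_pos (Real.exp_pos _)]
  have e1 : |⟪s • (y : E), a⟫| ≤ s * ‖(y : E)‖ * ‖a‖ := by
    refine (abs_real_inner_le_norm _ _).trans (le_of_eq ?_)
    rw [norm_smul, Real.norm_eq_abs, abs_of_pos hs]
  calc _ ≤ (s * ‖(y : E)‖ * ‖a‖) ^ 2 * Real.exp (-(‖s • (y : E) - z‖ ^ 2 / 2)) :=
        mul_le_mul_of_nonneg_right (pow_le_pow_left₀ (abs_nonneg _) e1 2) (Real.exp_pos _).le
    _ = _ := by ring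

lemma Nu_div (hL : Lat L) (hs : 0 < s) {ι : Type*} [Fintype ι] (b : OrthonormalBasis ι ℝ E)
    (z : E) : Nu L s z / Th L s z =
      s⁻¹ * ∑ i, (⟪z, b i⟫ * ⟪Mv L s z, b i⟫ - Ex L s z (fun y => ⟪y, b i⟫ ^ 2)) := by
  have hT := Th_pos hL hs z
  have h1 : ∀ i, ⟪z, b i⟫ * ⟪Mv L s z, b i⟫ - Ex L s z (fun y => ⟪y, b i⟫ ^ 2) =
      (∑' y : L, (⟪z, b i⟫ * ⟪s • (y : E), b i⟫ - ⟪s • (y : E), b i⟫ ^ 2) *
        Real.exp (-(‖s • (y : E) - z‖ ^ 2 / 2))) / Th L s z := by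
    intro i
    rw [Mv_inner hL hs]
    unfold Ex
    rw [← mul_div_assoc, ← sub_div, ← tsum_mul_left,
      ← ((summable_inner hL hs z (b i)).mul_left _).tsum_sub (summable_inner_sq hL hs z (b i))]
    congr 1
    exact tsum_congr fun y => by ring
  simp only [h1]
  rw [← Finset.sum_div, ← Summable.tsum_finsetSum, ← mul_div_assoc, ← tsum_mul_left]
  · congr 1
    unfold Nu
    refine tsum_congr fun y => ?_
    rw [← Finset.sum_mul, Finset.sum_sub_distrib, ← mul_assoc]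
    congr 1
    have h2 : ∑ i, ⟪z, b i⟫ * ⟪s • (y : E), b i⟫ = ⟪z, s • (y : E)⟫ := by
      rw [← b.sum_inner_mul_inner z (s • (y : E))]
      exact Finset.sum_congr rfl fun i _ => by rw [real_inner_comm (b i) (s • (y : E))]
    have h3 : ∑ i, ⟪s • (y : E), b i⟫ ^ 2 = ‖s • (y : E)‖ ^ 2 := b.sum_sq_inner_left _
    rw [h2, h3, ← real_inner_self_eq_norm_sq, ← inner_sub_left, inner_smul_right,
      inv_mul_cancel_left₀ hs.ne', ← inner_neg_left, neg_sub]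
  · intro i _
    have := ((summable_inner hL hs z (b i)).mul_left (⟪z, b i⟫)).sub
      (summable_inner_sq hL hs z (b i))
    refine this.congr fun y => ?_
    ring

lemma Nu_div_bound (hL : Lat L) (hs : 0 < s) : ∃ C, ∀ z : E, ∀ t ∈ Set.Ioo (s / 2) (2 * s),
    ‖Nu L t z / Th L t z‖ ≤ C * (1 + ‖z‖) ^ 2 := by
  obtain ⟨R, hR⟩ := hL.cov
  have hR0 : 0 ≤ R := by
    obtain ⟨y, _, h⟩ := hR 0
    exact (norm_nonneg _).trans h
  set c := Real.exp (-((2 * s * R) ^ 2 / 2)) with hc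
  have hc0 : 0 < c := Real.exp_pos _
  have hT0 := Th_pos hL (s := s / 2 / √2) (by positivity) (0 : E)
  refine ⟨8 / s * Th L (s / 2 / √2) 0 * c⁻¹, ?_⟩
  rintro z t ⟨h1, h2⟩
  have ht : 0 < t := by linarith
  have h3 : c ≤ Th L t z := by
    refine le_trans (Real.exp_le_exp.2 ?_) (Th_lower hL hR ht z)
    have : (t * R) ^ 2 ≤ (2 * s * R) ^ 2 :=
      pow_le_pow_left₀ (by positivity) (mul_le_mul_of_nonneg_right h2.le hR0) 2
    linarith
  rw [Real.norm_eq_abs, abs_div, abs_of_pos (Th_pos hL ht z), div_eq_mul_inv]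
  have h4 := Nu_bound hL hs h1 z
  have hz := norm_nonneg z
  calc |Nu L t z| * (Th L t z)⁻¹ ≤ (8 / s * (1 + ‖z‖) * Th L (s / 2 / √2) 0) * c⁻¹ :=
        mul_le_mul h4 (inv_anti₀ hc0 h3) (inv_nonneg.2 (Th_pos hL ht z).le) (by positivity)
    _ = 8 / s * Th L (s / 2 / √2) 0 * c⁻¹ * (1 + ‖z‖) := by ring
    _ ≤ 8 / s * Th L (s / 2 / √2) 0 * c⁻¹ * (1 + ‖z‖) ^ 2 := by
        apply mul_le_mul_of_nonneg_left _ (by positivity)
        nlinarith

lemma integrable_log (hL : Lat L) (hs : 0 < s) :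
    Integrable (fun z => Real.log (Th L s z)) (stdGaussian E) := by
  obtain ⟨c, hc, hcz⟩ := R4.Th_lower hL hs
  refine Integrable.of_bound
    ((Th_cont hL hs).log fun z => (Th_pos hL hs z).ne').aestronglyMeasurable
    (|Real.log c| + |Real.log (Th L s 0)|) (ae_of_all _ fun z => ?_)
  rw [Real.norm_eq_abs, abs_le]
  have h1 := Real.log_le_log hc (hcz z)
  have h2 := Real.log_le_log (Th_pos hL hs z) (Th_le_zero hL hs z)
  have h3 := neg_abs_le (Real.log c)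
  have h4 := le_abs_self (Real.log (Th L s 0))
  have h5 := abs_nonneg (Real.log c)
  have h6 := abs_nonneg (Real.log (Th L s 0))
  constructor <;> linarith

end Fin

end R5

section R5

variable {E : Type*} [NormedAddCommGroup E] [InnerProductSpace ℝ E] [FiniteDimensional ℝ E]
  [MeasurableSpace E] [BorelSpace E] {L : AddSubgroup E} {s : ℝ}

theorem hasDerivAt_F (hL : Lat L) (hs : 0 < s) :
    HasDerivAt (fun s => Real.log (Th L s 0)) (-(Ex L s 0 (fun y => ‖y‖ ^ 2)) / s) s := by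
  have h1 := (R5.hasDerivAt_Th hL hs (0 : E) (t := s) (by linarith) (by linarith)).log
    (Th_pos hL hs 0).ne'
  refine h1.congr_deriv ?_
  unfold Ex
  have h2 : R5.Nu L s 0 = -(∑' y : L, ‖s • (y : E)‖ ^ 2 *
      Real.exp (-(‖s • (y : E) - 0‖ ^ 2 / 2))) / s := by
    unfold R5.Nu
    rw [← tsum_neg, ← tsum_div_const]
    refine tsum_congr fun y => ?_
    have h3 : ⟪s • (y : E) - 0, (y : E)⟫ = ‖s • (y : E)‖ ^ 2 / s := by
      rw [sub_zero, norm_smul, mul_pow, Real.norm_eq_abs, sq_abs, real_inner_smul_left,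
        real_inner_self_eq_norm_sq]
      field_simp
    rw [h3]
    ring
  rw [h2]
  ring

theorem hasDerivAt_A (hL : Lat L) (hs : 0 < s) :
    HasDerivAt (Af L) (-(tP L s) / s) s := by
  set b := stdOrthonormalBasis ℝ E with hb
  obtain ⟨C, hC⟩ := R5.Nu_div_bound hL hs (L := L)
  have hI : ∀ i, Integrable (fun z => ⟪z, b i⟫ * ⟪Mv L s z, b i⟫ -
      Ex L s z (fun y => ⟪y, b i⟫ ^ 2)) (stdGaussian E) := fun i =>
    (int_zM hL hs (b i) (b i)).sub (int_Ex hL hs (b i))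
  have hform : (fun z => R5.Nu L s z / Th L s z) =
      fun z => s⁻¹ * ∑ i, (⟪z, b i⟫ * ⟪Mv L s z, b i⟫ - Ex L s z (fun y => ⟪y, b i⟫ ^ 2)) :=
    funext fun z => R5.Nu_div hL hs b z
  have hInt : Integrable (fun z => R5.Nu L s z / Th L s z) (stdGaussian E) := by
    rw [hform]
    exact (integrable_finsetSum _ fun i _ => hI i).const_mul _
  have key := hasDerivAt_integral_of_dominated_loc_of_deriv_le
    (μ := stdGaussian E) (F := fun t z => Real.log (Th L t z))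
    (F' := fun t z => R5.Nu L t z / Th L t z) (x₀ := s)
    (s := Set.Ioo (s / 2) (2 * s)) (bound := fun z => C * (1 + ‖z‖) ^ 2)
    (Ioo_mem_nhds (by linarith) (by linarith))
    (by
      filter_upwards [Ioo_mem_nhds (show s / 2 < s by linarith) (show s < 2 * s by linarith)]
        with t ht
      have ht0 : 0 < t := by linarith [ht.1]
      exact ((R5.Th_cont hL ht0).log fun z => (Th_pos hL ht0 z).ne').aestronglyMeasurable)
    (R5.integrable_log hL hs) hInt.aestronglyMeasurable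
    (ae_of_all _ fun z t ht => hC z t ht)
    (R4.integrable_sq.const_mul C)
    (ae_of_all _ fun z t ht => (R5.hasDerivAt_Th hL hs z ht.1 ht.2).log
      (Th_pos hL (by linarith [ht.1]) z).ne')
  refine key.2.congr_deriv ?_
  simp only [hform]
  rw [integral_const_mul, integral_finsetSum _ fun i _ => hI i, tP_eq hL hs b]
  have h2 : ∀ i, ∫ z, (⟪z, b i⟫ * ⟪Mv L s z, b i⟫ - Ex L s z (fun y => ⟪y, b i⟫ ^ 2))
      ∂stdGaussian E = -Pm L s (b i) (b i) := by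
    intro i
    rw [integral_sub (int_zM hL hs (b i) (b i)) (int_Ex hL hs (b i)), P_eq hL hs]
    have h3 := P_second hL hs (b i) (b i)
    have h4 : ∫ z, Ex L s z (fun y => ⟪y, b i⟫ ^ 2) ∂stdGaussian E = 2 * Pm L s (b i) (b i) := by
      rw [← h3]
      refine integral_congr_ae (ae_of_all _ fun z => ?_)
      simp only [pow_two]
    rw [h4]; ring
  simp only [h2]
  rw [Finset.sum_neg_distrib]
  ring

end R5

end Pool.Agent.BCD
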