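import Pool.Agent.Work.MP_bc8e1e_an.D.R4
import Pool.Agent.Work.MP_bc8e1e_an.D.R5

set_option autoImplicit false

open MeasureTheory ProbabilityTheory Filter
open scoped RealInnerProductSpace

namespace Pool.Agent.BCD

namespace R6

/-! ### An abstract lemma about four real functions -/

/-- The data extracted from the lattice. -/
structure Dat (F A tS tP : ℝ → ℝ) (k : ℝ) : Prop where
  dF : ∀ s, 0 < s → HasDerivAt F (-(tS s) / s) s
  dA : ∀ s, 0 < s → HasDerivAt A (-(tP s) / s) s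
  S0 : ∀ s, 0 < s → 0 ≤ tS s
  SP : ∀ s, 0 < s → tS s ≤ tP s
  Pk : ∀ s, 0 < s → tP s ≤ k
  K0 : ∀ s, 0 < s → A s ≤ F s
  Kk : ∀ s, 0 < s → F s ≤ A s + k / 2

section Abs

variable {F A tS tP : ℝ → ℝ} {k : ℝ}

/-- monotonicity from the sign of `s * derivative`. -/
lemma mono_of {G g : ℝ → ℝ} {a b : ℝ} (ha : 0 < a) (hab : a ≤ b)
    (hG : ∀ s, a ≤ s → s ≤ b → HasDerivAt G (g s / s) s)
    (hg : ∀ s, a ≤ s → s ≤ b → 0 ≤ g s) : G a ≤ G b := by
  have hm : MonotoneOn G (Set.Icc a b) := by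
    apply monotoneOn_of_deriv_nonneg (convex_Icc a b)
    · intro s hs
      exact (hG s hs.1 hs.2).continuousAt.continuousWithinAt
    · intro s hs
      rw [interior_Icc] at hs
      exact (hG s hs.1.le hs.2.le).differentiableAt.differentiableWithinAt
    · intro s hs
      rw [interior_Icc] at hs
      rw [(hG s hs.1.le hs.2.le).deriv]
      exact div_nonneg (hg s hs.1.le hs.2.le) (by linarith [hs.1])
  exact hm (Set.left_mem_Icc.2 hab) (Set.right_mem_Icc.2 hab) hab

lemma Dat.K_mono (h : Dat F A tS tP k) {a b : ℝ} (ha : 0 < a) (hab : a ≤ b) :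
    F a - A a ≤ F b - A b := by
  apply mono_of (G := fun s => F s - A s) (g := fun s => tP s - tS s) ha hab
  · intro s h1 _
    have hs : 0 < s := by linarith
    exact ((h.dF s hs).fun_sub (h.dA s hs)).congr_deriv (by ring)
  · intro s h1 _
    linarith [h.SP s (by linarith)]

lemma Dat.A_anti (h : Dat F A tS tP k) {a b : ℝ} (ha : 0 < a) (hab : a ≤ b) : A b ≤ A a := by
  have := mono_of (G := fun s => -A s) (g := fun s => tP s) ha hab
    (by
      intro s h1 _
      have hs : 0 < s := by linarith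
      exact (h.dA s hs).fun_neg.congr_deriv (by ring))
    (by
      intro s h1 _
      have hs : 0 < s := by linarith
      linarith [h.SP s hs, h.S0 s hs])
  linarith

lemma Dat.A_log (h : Dat F A tS tP k) {a b : ℝ} (ha : 0 < a) (hab : a ≤ b) :
    A a - A b ≤ k * (Real.log b - Real.log a) := by
  have := mono_of (G := fun s => A s + k * Real.log s) (g := fun s => k - tP s) ha hab
    (by
      intro s h1 _
      have hs : 0 < s := by linarith
      exact ((h.dA s hs).fun_add ((Real.hasDerivAt_log hs.ne').const_mul k)).congr_deriv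
        (by field_simp; ring))
    (by
      intro s h1 _
      have hs : 0 < s := by linarith
      linarith [h.Pk s hs])
  linarith

lemma Dat.F_log (h : Dat F A tS tP k) {a b : ℝ} (ha : 0 < a) (hab : a ≤ b) :
    F a + k * Real.log a ≤ F b + k * Real.log b := by
  exact mono_of (G := fun s => F s + k * Real.log s) (g := fun s => k - tS s) ha hab
    (by
      intro s h1 _
      have hs : 0 < s := by linarith
      exact ((h.dF s hs).fun_add ((Real.hasDerivAt_log hs.ne').const_mul k)).congr_deriv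
        (by field_simp; ring))
    (by
      intro s h1 _
      have hs : 0 < s := by linarith
      linarith [h.Pk s hs, h.SP s hs])

lemma dA_scale (h : Dat F A tS tP k) {c s : ℝ} (hc : 0 < c) (hs : 0 < s) :
    HasDerivAt (fun s => A (s * c)) (-(tP (s * c)) / s) s := by
  have h1 := (h.dA (s * c) (by positivity)).comp s ((hasDerivAt_id s).mul_const c)
  have h2 : s ≠ 0 := hs.ne'
  exact h1.congr_deriv (by field_simp)

lemma dF_scale (h : Dat F A tS tP k) {c s : ℝ} (hc : 0 < c) (hs : 0 < s) :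
    HasDerivAt (fun s => F (s * c)) (-(tS (s * c)) / s) s := by
  have h1 := (h.dF (s * c) (by positivity)).comp s ((hasDerivAt_id s).mul_const c)
  have h2 : s ≠ 0 := hs.ne'
  exact h1.congr_deriv (by field_simp)

/-- The small side, abstractly. `u = 2^{1/4}`, `w = u^2 = √2`. -/
theorem abs_small (h : Dat F A tS tP k) {u : ℝ} (hu1 : 1 < u) (hu4 : u ^ 4 = 2) {s₀ : ℝ}
    (hs₀ : 0 < s₀) (hk : 0 ≤ k)
    (hscale : ∀ s, 0 < s → tS (s * u) ≤ u ^ 2 * tS s)
    (hkey : ∀ (j : ℕ) (s : ℝ), s₀ * (u ^ 2) ^ j ≤ s → s ≤ s₀ * (u ^ 2) ^ j * u →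
      2785 / 10000 * tP s ≤ tP s - tS s + 2 * (tP (s * (u ^ 2)⁻¹) - tP s))
    (hlim : Tendsto F atTop (nhds 0)) : F s₀ ≤ 8 * k := by
  have hu0 : 0 < u := by linarith
  set w := u ^ 2 with hw
  have hw0 : 0 < w := by positivity
  have hw1 : 1 < w := by rw [hw]; nlinarith
  have hw2 : w ^ 2 = 2 := by rw [hw, ← pow_mul]; exact hu4
  -- scales
  set σ : ℕ → ℝ := fun j => s₀ * w ^ j with hσ
  have hσ0 : ∀ j, 0 < σ j := fun j => by positivity
  have hσs : ∀ j, σ (j + 1) = σ j * u * u := by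
    intro j; simp only [hσ]; rw [pow_succ, hw]; ring
  have hσs' : ∀ j, σ (j + 1) * w⁻¹ = σ j := by
    intro j; simp only [hσ]; rw [pow_succ]; field_simp
  set a : ℕ → ℝ := fun j => A (σ j * w⁻¹) - A (σ j * u * w⁻¹) with ha
  -- `a j` is the quantity `a_{j-1}`
  have ha' : ∀ j, a (j + 1) = A (σ j) - A (σ j * u) := by
    intro j
    simp only [ha]
    rw [hσs' j]
    congr 2
    rw [mul_right_comm, hσs' j]
  have ha0 : ∀ j, 0 ≤ a j := by
    intro j
    simp only [ha]
    have : 0 < σ j * w⁻¹ := mul_pos (hσ0 j) (inv_pos.2 hw0)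
    have := h.A_anti this (by
      rw [mul_right_comm]
      nlinarith : σ j * w⁻¹ ≤ σ j * u * w⁻¹)
    linarith
  -- key step
  have step : ∀ j, 2785 / 10000 * a (j + 1) ≤
      (F (σ (j + 1)) - A (σ (j + 1))) - (F (σ j) - A (σ j)) + 2 * (a j - a (j + 1)) := by
    intro j
    have hmono := mono_of
      (G := fun s => F s - A s - 2 * A (s * w⁻¹) + (2 + 2785 / 10000) * A s)
      (g := fun s => tP s - tS s + 2 * (tP (s * w⁻¹) - tP s) - 2785 / 10000 * tP s)
      (hσ0 j) (by nlinarith [hσ0 j] : σ j ≤ σ j * u)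
      (by
        intro s h1 _
        have hs : 0 < s := lt_of_lt_of_le (hσ0 j) h1
        have e1 := ((h.dF s hs).fun_sub (h.dA s hs)).fun_sub
          ((dA_scale h (inv_pos.2 hw0) hs).const_mul 2)
        have e2 := e1.fun_add ((h.dA s hs).const_mul (2 + 2785 / 10000))
        exact e2.congr_deriv (by field_simp; ring))
      (by
        intro s h1 h2
        have := hkey j s h1 h2
        linarith)
    have hK : F (σ j * u) - A (σ j * u) ≤ F (σ (j + 1)) - A (σ (j + 1)) := by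
      apply h.K_mono (by positivity)
      rw [hσs j]
      have : 0 < σ j * u := by positivity
      nlinarith
    rw [ha' j]
    simp only [ha]
    linarith
  -- `F` differences
  have fstep : ∀ j, F (σ j) - F (σ (j + 1)) ≤ (1 + w) * a (j + 1) := by
    intro j
    have hmono := mono_of (G := fun s => F (s * u) - w * F s)
      (g := fun s => w * tS s - tS (s * u))
      (hσ0 j) (by nlinarith [hσ0 j] : σ j ≤ σ j * u)
      (by
        intro s h1 _
        have hs : 0 < s := lt_of_lt_of_le (hσ0 j) h1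
        have e1 := (dF_scale h hu0 hs).fun_sub ((h.dF s hs).const_mul w)
        exact e1.congr_deriv (by field_simp; ring))
      (by
        intro s h1 _
        have hs : 0 < s := lt_of_lt_of_le (hσ0 j) h1
        linarith [hscale s hs])
    rw [← hσs j] at hmono
    have hK := h.K_mono (hσ0 j) (by nlinarith [hσ0 j] : σ j ≤ σ j * u)
    rw [ha' j]
    nlinarith
  -- sums
  have hsum : ∀ J : ℕ, F s₀ - F (σ J) ≤ (1 + w) * ∑ j ∈ Finset.range J, a (j + 1) := by
    intro J
    induction J with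
    | zero => simp [hσ]
    | succ J ih =>
      rw [Finset.sum_range_succ, mul_add]
      linarith [fstep J]
  have hsum2 : ∀ J : ℕ, 2785 / 10000 * ∑ j ∈ Finset.range J, a (j + 1) ≤
      (F (σ J) - A (σ J)) - (F s₀ - A s₀) + 2 * (a 0 - a J) := by
    intro J
    induction J with
    | zero => simp [hσ]
    | succ J ih =>
      rw [Finset.sum_range_succ, mul_add]
      linarith [step J]
  have ha0k : a 0 ≤ k * (Real.log 2 / 4) := by
    simp only [ha]
    have h1 := h.A_log (a := σ 0 * w⁻¹) (b := σ 0 * u * w⁻¹)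
      (mul_pos (hσ0 0) (inv_pos.2 hw0))
      (by rw [mul_right_comm]; nlinarith [mul_pos (hσ0 0) (inv_pos.2 hw0)])
    have h2 : Real.log (σ 0 * u * w⁻¹) - Real.log (σ 0 * w⁻¹) = Real.log 2 / 4 := by
      have h3 : σ 0 * u * w⁻¹ = σ 0 * w⁻¹ * u := by ring
      rw [h3, Real.log_mul (mul_pos (hσ0 0) (inv_pos.2 hw0)).ne' hu0.ne', ← hu4, Real.log_pow]
      push_cast
      ring
    rw [h2] at h1
    exact h1
  have hlog2 : Real.log 2 < 0.6931471808 := Real.log_two_lt_d9
  have hwle : w ≤ 1.4143 := by nlinarith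
  have hbound : ∀ J : ℕ, F s₀ ≤ 8 * k + F (σ J) := by
    intro J
    have h1 := hsum2 J
    have h2 := h.Kk (σ J) (hσ0 J)
    have h3 := h.K0 s₀ hs₀
    have h4 := ha0 J
    set S := ∑ j ∈ Finset.range J, a (j + 1) with hS
    have hS0 : 0 ≤ S := Finset.sum_nonneg fun j _ => ha0 _
    have h5 : 2785 / 10000 * S ≤ k / 2 + 2 * (k * (Real.log 2 / 4)) := by linarith
    have h6 : k * (Real.log 2 / 4) ≤ k * (0.6931471808 / 4) := by
      apply mul_le_mul_of_nonneg_left _ hk
      linarith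
    have h7 : 2785 / 10000 * S ≤ 0.8465735904 * k := by linarith
    have h8 : S ≤ 3.0398 * k := by linarith
    have h9 := hsum J
    have h10 : (1 + w) * S ≤ 2.4143 * (3.0398 * k) := by
      apply mul_le_mul _ h8 hS0 (by norm_num)
      linarith
    linarith
  have hσt : Tendsto σ atTop atTop := by
    have := tendsto_pow_atTop_atTop_of_one_lt hw1
    exact this.const_mul_atTop hs₀
  have ht : Tendsto (fun J => 8 * k + F (σ J)) atTop (nhds (8 * k + 0)) :=
    (hlim.comp hσt).const_add _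
  rw [add_zero] at ht
  exact ge_of_tendsto ht (Eventually.of_forall hbound)

/-- The large side, abstractly. -/
theorem abs_large (h : Dat F A tS tP k) {w : ℝ} (hw1 : 1 < w) (hw2 : w ^ 2 = 2) {s₀ : ℝ}
    (hk : 0 ≤ k)
    (hkey : ∀ s : ℝ, 0 < s → s ≤ s₀ →
      k - tP s ≤ 2 / (245 / 1000) * (tP (s * w⁻¹) - tP s))
    {σ : ℝ} (hσ : 0 < σ) (hσs : σ ≤ s₀) :
    F s₀ + k * Real.log s₀ ≤ F σ + k * Real.log σ + 4 * k := by
  have hs₀ : 0 < s₀ := by linarith
  have hw0 : 0 < w := by linarith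
  set c : ℝ := 2 / (245 / 1000) with hc
  have hmono := mono_of
    (G := fun s => c * (A s - A (s * w⁻¹)) + (F s - A s) - (F s + k * Real.log s))
    (g := fun s => c * (tP (s * w⁻¹) - tP s) - (k - tP s))
    hσ hσs
    (by
      intro s h1 _
      have hs : 0 < s := lt_of_lt_of_le hσ h1
      have e1 := ((((h.dA s hs).fun_sub (dA_scale h (inv_pos.2 hw0) hs)).const_mul c).fun_add
        ((h.dF s hs).fun_sub (h.dA s hs))).fun_sub
        ((h.dF s hs).fun_add ((Real.hasDerivAt_log hs.ne').const_mul k))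
      exact e1.congr_deriv (by field_simp; ring))
    (by
      intro s h1 h2
      have := hkey s (lt_of_lt_of_le hσ h1) h2
      linarith)
  have h1 : A s₀ ≤ A (s₀ * w⁻¹) := h.A_anti (mul_pos hs₀ (inv_pos.2 hw0)) (by
    have : w⁻¹ ≤ 1 := inv_le_one_of_one_le₀ hw1.le
    nlinarith)
  have h2 : A (σ * w⁻¹) - A σ ≤ k * (Real.log 2 / 2) := by
    have h3 := h.A_log (a := σ * w⁻¹) (b := σ) (mul_pos hσ (inv_pos.2 hw0)) (by
      have : w⁻¹ ≤ 1 := inv_le_one_of_one_le₀ hw1.le
      nlinarith)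
    have h4 : Real.log σ - Real.log (σ * w⁻¹) = Real.log 2 / 2 := by
      have hl : Real.log 2 = 2 * Real.log w := by
        have := Real.log_pow w 2
        rw [hw2] at this
        exact_mod_cast this
      rw [Real.log_mul hσ.ne' (inv_pos.2 hw0).ne', Real.log_inv, hl]
      ring
    rw [h4] at h3
    exact h3
  have h5 := h.Kk s₀ hs₀
  have h6 := h.K0 σ hσ
  have hlog2 : Real.log 2 < 0.6931471808 := Real.log_two_lt_d9
  have h7 : k * (Real.log 2 / 2) ≤ k * (0.6931471808 / 2) := by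
    apply mul_le_mul_of_nonneg_left _ hk
    linarith
  have hcv : c = 400 / 49 := by rw [hc]; norm_num
  rw [hcv] at hmono
  linarith

end Abs

/-! ### The lattice data -/

section Lattice

variable {E : Type*} [NormedAddCommGroup E] [InnerProductSpace ℝ E]
  {L : AddSubgroup E} {s : ℝ}

lemma Th_cont (hL : Lat L) (hs : 0 < s) : Continuous (Th L s) := by
  rw [continuous_iff_continuousAt]
  intro z₀
  have hball : Metric.ball (0 : E) (‖z₀‖ + 1) ∈ nhds z₀ := by
    apply Metric.isOpen_ball.mem_nhds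
    rw [mem_ball_zero_iff]; linarith
  have hsum : Summable fun y : L =>
      Real.exp ((‖z₀‖ + 1) ^ 2 / 2) * Real.exp (-(s ^ 2 / 4 * ‖(y : E)‖ ^ 2)) :=
    (hL.summ (s ^ 2 / 4) (by positivity)).mul_left _
  have hc : ContinuousOn (fun z => ∑' y : L, Real.exp (-(‖s • (y : E) - z‖ ^ 2 / 2)))
      (Metric.ball (0 : E) (‖z₀‖ + 1)) := by
    apply continuousOn_tsum (u := fun y : L =>
      Real.exp ((‖z₀‖ + 1) ^ 2 / 2) * Real.exp (-(s ^ 2 / 4 * ‖(y : E)‖ ^ 2)))
    · intro y
      fun_prop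
    · exact hsum
    · intro y z hz
      rw [mem_ball_zero_iff] at hz
      rw [Real.norm_eq_abs, abs_of_pos (Real.exp_pos _), ← Real.exp_add]
      apply Real.exp_le_exp.2
      have h1 : ‖s • (y : E)‖ ≤ ‖s • (y : E) - z‖ + ‖z‖ := by
        have := norm_add_le (s • (y : E) - z) z
        simpa using this
      have h2 : ‖s • (y : E)‖ = s * ‖(y : E)‖ := by
        rw [norm_smul, Real.norm_eq_abs, abs_of_pos hs]
      rw [h2] at h1
      have h3 : (s * ‖(y : E)‖) ^ 2 ≤ (‖s • (y : E) - z‖ + ‖z‖) ^ 2 :=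
        pow_le_pow_left₀ (by positivity) h1 2
      have h4 : ‖z‖ ^ 2 ≤ (‖z₀‖ + 1) ^ 2 := pow_le_pow_left₀ (norm_nonneg _) hz.le 2
      nlinarith [sq_nonneg (‖s • (y : E) - z‖ - ‖z‖)]
  exact hc.continuousAt hball

variable [FiniteDimensional ℝ E]

lemma Ex_norm_sq (hL : Lat L) (hs : 0 < s) {ι : Type*} [Fintype ι] (b : OrthonormalBasis ι ℝ E) :
    Ex L s 0 (fun y => ‖y‖ ^ 2) = ∑ i, Ex L s 0 (fun y => ⟪y, b i⟫ ^ 2) := by
  unfold Ex
  rw [← Finset.sum_div]
  congr 1
  rw [← Summable.tsum_finsetSum]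
  · congr 1
    ext y
    rw [← Finset.sum_mul]
    congr 1
    show ‖s • (y : E)‖ ^ 2 = ∑ i, ⟪s • (y : E), b i⟫ ^ 2
    rw [← b.sum_sq_norm_inner_left (s • (y : E))]
    refine Finset.sum_congr rfl fun i _ => ?_
    rw [Real.norm_eq_abs, sq_abs]
  · intro i _
    have h1 := (Th_summable_pow hL hs (0 : E) 2).mul_left (s ^ 2)
    refine Summable.of_nonneg_of_le (fun y => by positivity) (fun y => ?_) h1
    have h2 : |⟪s • (y : E), b i⟫| ≤ ‖s • (y : E)‖ * ‖b i‖ := abs_real_inner_le_norm _ _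
    rw [b.norm_eq_one, mul_one, norm_smul, Real.norm_eq_abs, abs_of_pos hs] at h2
    have h3 : ⟪s • (y : E), b i⟫ ^ 2 ≤ (s * ‖(y : E)‖) ^ 2 := by
      rw [← sq_abs]
      exact pow_le_pow_left₀ (abs_nonneg _) h2 2
    calc ⟪s • (y : E), b i⟫ ^ 2 * Real.exp (-(‖s • (y : E) - 0‖ ^ 2 / 2))
        ≤ (s * ‖(y : E)‖) ^ 2 * Real.exp (-(‖s • (y : E) - 0‖ ^ 2 / 2)) :=
          mul_le_mul_of_nonneg_right h3 (Real.exp_pos _).le
      _ = s ^ 2 * (‖(y : E)‖ ^ 2 * Real.exp (-(‖s • (y : E) - 0‖ ^ 2 / 2))) := by ring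

omit [FiniteDimensional ℝ E] in
lemma Ex_nonneg (hL : Lat L) (hs : 0 < s) (z : E) (f : E → ℝ) (hf : ∀ y, 0 ≤ f y) :
    0 ≤ Ex L s z f :=
  div_nonneg (tsum_nonneg fun _ => mul_nonneg (hf _) (Real.exp_pos _).le) (Th_pos hL hs z).le

variable [MeasurableSpace E] [BorelSpace E]

lemma int_inner_sq (a : E) : ∫ z, ⟪a, z⟫ ^ 2 ∂stdGaussian E = ‖a‖ ^ 2 := by
  have h1 := variance_dual_stdGaussian (E := E) (innerSL ℝ a)
  have h2 := integral_strongDual_stdGaussian (E := E) (innerSL ℝ a)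
  rw [ProbabilityTheory.variance_eq_sub (IsGaussian.memLp_dual _ _ 2 (by simp))] at h1
  rw [h2] at h1
  simpa using h1

lemma integrable_inner_sq (a : E) : Integrable (fun z => ⟪a, z⟫ ^ 2) (stdGaussian E) := by
  have h1 : MemLp (innerSL ℝ a) 2 (stdGaussian E) := IsGaussian.memLp_dual _ _ 2 (by simp)
  have h2 := h1.integrable_sq
  simpa using h2

lemma norm_sq_eq (b : OrthonormalBasis (Fin (Module.finrank ℝ E)) ℝ E) (z : E) :
    ‖z‖ ^ 2 = ∑ i, ⟪b i, z⟫ ^ 2 := by
  rw [← b.sum_sq_norm_inner_right z]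
  refine Finset.sum_congr rfl fun i _ => ?_
  rw [Real.norm_eq_abs, sq_abs]

lemma integrable_norm_sq : Integrable (fun z : E => ‖z‖ ^ 2) (stdGaussian E) := by
  have b := stdOrthonormalBasis ℝ E
  simp_rw [norm_sq_eq b]
  exact integrable_finsetSum _ fun i _ => integrable_inner_sq _

lemma int_norm_sq : ∫ z, ‖z‖ ^ 2 ∂stdGaussian E = Module.finrank ℝ E := by
  have b := stdOrthonormalBasis ℝ E
  simp_rw [norm_sq_eq b]
  rw [integral_finsetSum _ fun i _ => integrable_inner_sq _]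
  simp [int_inner_sq, b.norm_eq_one]

lemma integrable_log_Th (hL : Lat L) (hs : 0 < s) :
    Integrable (fun z => Real.log (Th L s z)) (stdGaussian E) := by
  have hb : Integrable (fun z : E => |Real.log (Th L s 0)| + ‖z‖ ^ 2 / 2) (stdGaussian E) :=
    (integrable_const _).add (integrable_norm_sq.div_const 2)
  refine hb.mono' ?_ (Eventually.of_forall fun z => ?_)
  · exact ((Th_cont hL hs).log fun z => (Th_pos hL hs z).ne').aestronglyMeasurable
  · rw [Real.norm_eq_abs, abs_le]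
    have h1 : Real.log (Th L s z) ≤ Real.log (Th L s 0) :=
      Real.log_le_log (Th_pos hL hs z) (Th_le_zero hL hs z)
    have h2 : Real.log (Th L s 0) - ‖z‖ ^ 2 / 2 ≤ Real.log (Th L s z) := by
      have := Real.log_le_log (by have := Th_pos hL hs (0 : E); positivity) (Th_ge hL hs z)
      rw [Real.log_mul (Real.exp_pos _).ne' (Th_pos hL hs 0).ne', Real.log_exp] at this
      linarith
    constructor
    · linarith [neg_abs_le (Real.log (Th L s 0))]
    · linarith [le_abs_self (Real.log (Th L s 0)), sq_nonneg ‖z‖]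

lemma Af_le (hL : Lat L) (hs : 0 < s) : Af L s ≤ Real.log (Th L s 0) := by
  unfold Af
  have h1 := integral_mono (integrable_log_Th hL hs)
    (integrable_const (μ := stdGaussian E) (Real.log (Th L s 0)))
    (fun z => Real.log_le_log (Th_pos hL hs z) (Th_le_zero hL hs z))
  simpa using h1

lemma le_Af (hL : Lat L) (hs : 0 < s) :
    Real.log (Th L s 0) ≤ Af L s + Module.finrank ℝ E / 2 := by
  unfold Af
  have hi : Integrable (fun z : E => Real.log (Th L s 0) - ‖z‖ ^ 2 / 2) (stdGaussian E) :=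
    (integrable_const _).sub (integrable_norm_sq.div_const 2)
  have h1 := integral_mono hi (integrable_log_Th hL hs) (fun z => by
      have := Real.log_le_log (by have := Th_pos hL hs (0 : E); positivity) (Th_ge hL hs z)
      rw [Real.log_mul (Real.exp_pos _).ne' (Th_pos hL hs 0).ne', Real.log_exp] at this
      show Real.log (Th L s 0) - ‖z‖ ^ 2 / 2 ≤ Real.log (Th L s z)
      linarith)
  rw [integral_sub (integrable_const _) (integrable_norm_sq.div_const 2), integral_div,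
    int_norm_sq] at h1
  simp only [integral_const, probReal_univ, smul_eq_mul, one_mul] at h1
  linarith

/-- The data of a lattice. -/
theorem dat (hL : Lat L) : Dat (fun s => Real.log (Th L s 0)) (Af L)
    (fun s => Ex L s 0 (fun y => ‖y‖ ^ 2)) (tP L) (Module.finrank ℝ E) where
  dF s hs := hasDerivAt_F hL hs
  dA s hs := hasDerivAt_A hL hs
  S0 s hs := Ex_nonneg hL hs _ _ fun y => by positivity
  SP s hs := by
    have b := stdOrthonormalBasis ℝ E
    rw [Ex_norm_sq hL hs b, tP_eq hL hs b]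
    exact Finset.sum_le_sum fun i _ => sig_le_P hL hs (b i)
  Pk s hs := by
    have b := stdOrthonormalBasis ℝ E
    rw [tP_eq hL hs b]
    calc ∑ i, Pm L s (b i) (b i) ≤ ∑ _i : Fin (Module.finrank ℝ E), (1 : ℝ) := by
          refine Finset.sum_le_sum fun i _ => ?_
          have := P_le hL hs (b i)
          rwa [b.norm_eq_one, one_pow] at this
      _ = Module.finrank ℝ E := by simp
  K0 s hs := Af_le hL hs
  Kk s hs := le_Af hL hs

/-- key inequality, small side -/
lemma key_small (hL : Lat L) (hs : 0 < s) {c : ℝ} (hc1 : c ≤ 1)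
    (h : ∀ a : E, Ex L s 0 (fun y => ⟪y, a⟫ ^ 2) ≤ c * ‖a‖ ^ 2) :
    (1 - c) * tP L s ≤ tP L s - Ex L s 0 (fun y => ‖y‖ ^ 2) +
      2 * (tP L (s / √2) - tP L s) := by
  obtain ⟨b, hb⟩ := exists_diag (L := L) (s := s) hL hs
  have hd := doubling hL hs b
  have h1 : ∑ i, ∑ j, Pm L s (b i) (b j) ^ 2 = ∑ i, Pm L s (b i) (b i) ^ 2 := by
    refine Finset.sum_congr rfl fun i _ => ?_
    rw [Finset.sum_eq_single i]
    · intro j _ hj
      rw [hb i j (Ne.symm hj)]; ring
    · intro hi; exact absurd (Finset.mem_univ i) hi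
  rw [h1] at hd
  have h2 : Ex L s 0 (fun y => ‖y‖ ^ 2) ≤
      c * tP L s + (tP L s - ∑ i, Pm L s (b i) (b i) ^ 2) := by
    rw [Ex_norm_sq hL hs b, tP_eq hL hs b, Finset.mul_sum, ← Finset.sum_sub_distrib,
      ← Finset.sum_add_distrib]
    refine Finset.sum_le_sum fun i _ => ?_
    have a1 := sig_le_P hL hs (b i)
    have a2 := P_le hL hs (b i)
    have a3 := h (b i)
    have a4 : 0 ≤ Ex L s 0 (fun y => ⟪y, b i⟫ ^ 2) := Ex_nonneg hL hs _ _ fun y => by positivity
    rw [b.norm_eq_one, one_pow] at a2 a3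
    rw [mul_one] at a3
    set p := Pm L s (b i) (b i)
    set σ := Ex L s 0 (fun y => ⟪y, b i⟫ ^ 2)
    by_cases hpc : p ≤ c
    · nlinarith
    · push Not at hpc
      nlinarith
  linarith

/-- key inequality, large side -/
lemma key_large (hL : Lat L) (hs : 0 < s) {c : ℝ} (hc : 0 < c)
    (h : ∀ a : E, c * ‖a‖ ^ 2 ≤ Ex L s 0 (fun y => ⟪y, a⟫ ^ 2)) :
    Module.finrank ℝ E - tP L s ≤ 2 / c * (tP L (s / √2) - tP L s) := by
  obtain ⟨b, hb⟩ := exists_diag (L := L) (s := s) hL hs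
  have hd := doubling hL hs b
  have h1 : ∑ i, ∑ j, Pm L s (b i) (b j) ^ 2 = ∑ i, Pm L s (b i) (b i) ^ 2 := by
    refine Finset.sum_congr rfl fun i _ => ?_
    rw [Finset.sum_eq_single i]
    · intro j _ hj
      rw [hb i j (Ne.symm hj)]; ring
    · intro hi; exact absurd (Finset.mem_univ i) hi
  rw [h1] at hd
  have h2 : c * (Module.finrank ℝ E - tP L s) ≤ tP L s - ∑ i, Pm L s (b i) (b i) ^ 2 := by
    have h3 : (Module.finrank ℝ E : ℝ) = ∑ _i : Fin (Module.finrank ℝ E), (1 : ℝ) := by simp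
    rw [h3, tP_eq hL hs b, ← Finset.sum_sub_distrib, ← Finset.sum_sub_distrib, Finset.mul_sum]
    refine Finset.sum_le_sum fun i _ => ?_
    have a1 := sig_le_P hL hs (b i)
    have a2 := P_le hL hs (b i)
    have a3 := h (b i)
    rw [b.norm_eq_one, one_pow] at a2 a3
    rw [mul_one] at a3
    nlinarith
  have h4 : c * (Module.finrank ℝ E - tP L s) ≤ 2 * (tP L (s / √2) - tP L s) := by linarith
  rw [div_mul_eq_mul_div, le_div_iff₀ hc]
  linarith

end Lattice

section Final

variable {E : Type*} [NormedAddCommGroup E] [InnerProductSpace ℝ E]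
  {L : AddSubgroup E} {s : ℝ}

lemma tendsto_log_Th (hL : Lat L) :
    Tendsto (fun s => Real.log (Th L s 0)) atTop (nhds 0) := by
  classical
  have h1 : Tendsto (fun s => Th L s 0) atTop (nhds 1) := by
    have h2 : ∑' y : L, (if y = 0 then (1 : ℝ) else 0) = 1 := tsum_ite_eq _ _
    rw [← h2]
    unfold Th
    apply tendsto_tsum_of_dominated_convergence
      (bound := fun y : L => Real.exp (-(1 / 2 * ‖(y : E)‖ ^ 2)))
    · exact hL.summ (1 / 2) (by norm_num)
    · intro y
      by_cases hy : y = 0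
      · simp [hy]
      · rw [if_neg hy]
        have hy0 : 0 < ‖(y : E)‖ := by
          rw [norm_pos_iff]
          intro h
          exact hy (Subtype.ext h)
        have h3 : Tendsto (fun s : ℝ => ‖s • (y : E) - 0‖ ^ 2 / 2) atTop atTop := by
          have h4 : Tendsto (fun s : ℝ => s ^ 2 * (‖(y : E)‖ ^ 2 / 2)) atTop atTop :=
            (tendsto_pow_atTop (by norm_num)).atTop_mul_const (by positivity)
          refine h4.congr fun s => ?_
          rw [sub_zero, norm_smul, mul_pow, Real.norm_eq_abs, sq_abs]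
          ring
        exact Real.tendsto_exp_neg_atTop_nhds_zero.comp h3
    · filter_upwards [eventually_ge_atTop 1] with s hs y
      rw [Real.norm_eq_abs, abs_of_pos (Real.exp_pos _)]
      apply Real.exp_le_exp.2
      rw [sub_zero, norm_smul, mul_pow, Real.norm_eq_abs, sq_abs]
      have : 1 ≤ s ^ 2 := by nlinarith
      nlinarith [sq_nonneg ‖(y : E)‖]
  have := h1.log one_ne_zero
  rwa [Real.log_one] at this

lemma sig_pow (hL : Lat L) (hs : 0 < s) {c : ℝ}
    (h : ∀ a : E, Ex L s 0 (fun y => ⟪y, a⟫ ^ 2) ≤ c * ‖a‖ ^ 2) (j : ℕ) :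
    ∀ a : E, Ex L (s * √2 ^ j) 0 (fun y => ⟪y, a⟫ ^ 2) ≤ c * ‖a‖ ^ 2 := by
  induction j with
  | zero => simpa using h
  | succ j ih =>
    intro a
    have h1 : s * √2 ^ (j + 1) = √2 * (s * √2 ^ j) := by ring
    rw [h1]
    exact (sig_sqrt_two hL (by positivity) a).trans (ih a)

lemma sig_down (hL : Lat L) {s₀ : ℝ} {c : ℝ}
    (h : ∀ a : E, c * ‖a‖ ^ 2 ≤ Ex L s₀ 0 (fun y => ⟪y, a⟫ ^ 2)) (hc : 0 ≤ c) (n : ℕ) :
    ∀ s : ℝ, 0 < s → s ≤ s₀ → s₀ ≤ √2 ^ n * s → ∀ a : E,
      c / 2 * ‖a‖ ^ 2 ≤ Ex L s 0 (fun y => ⟪y, a⟫ ^ 2) := by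
  induction n with
  | zero =>
    intro s hs h1 h2 a
    have : s = s₀ := le_antisymm h1 (by simpa using h2)
    rw [this]
    have := h a
    have h3 : 0 ≤ c * ‖a‖ ^ 2 := by positivity
    linarith
  | succ n ih =>
    intro s hs h1 h2 a
    have h0 : 0 < √(2 : ℝ) := by positivity
    by_cases h3 : √2 * s ≤ s₀
    · have h4 := ih (√2 * s) (by positivity) h3 (by rw [pow_succ] at h2; linarith) a
      exact h4.trans (sig_sqrt_two hL hs a)
    · push Not at h3
      have h4 := sig_scale hL hs h1 a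
      have h5 := h a
      have h6 : s₀ ^ 2 ≤ 2 * s ^ 2 := by
        have h7 : s₀ ^ 2 ≤ (√2 * s) ^ 2 := pow_le_pow_left₀ (by linarith) h3.le 2
        rw [mul_pow, Real.sq_sqrt (by norm_num)] at h7
        exact h7
      have hX : 0 ≤ Ex L s 0 (fun y => ⟪y, a⟫ ^ 2) := Ex_nonneg hL hs _ _ fun y => by positivity
      have h8 : s ^ 2 * (c * ‖a‖ ^ 2) ≤ 2 * s ^ 2 * Ex L s 0 (fun y => ⟪y, a⟫ ^ 2) := by
        calc s ^ 2 * (c * ‖a‖ ^ 2) ≤ s ^ 2 * Ex L s₀ 0 (fun y => ⟪y, a⟫ ^ 2) :=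
              mul_le_mul_of_nonneg_left h5 (by positivity)
          _ ≤ s₀ ^ 2 * Ex L s 0 (fun y => ⟪y, a⟫ ^ 2) := h4
          _ ≤ 2 * s ^ 2 * Ex L s 0 (fun y => ⟪y, a⟫ ^ 2) := mul_le_mul_of_nonneg_right h6 hX
      have hs2 : 0 < s ^ 2 := by positivity
      have h9 : s ^ 2 * (c * ‖a‖ ^ 2) ≤ s ^ 2 * (2 * Ex L s 0 (fun y => ⟪y, a⟫ ^ 2)) := by
        linarith
      have := le_of_mul_le_mul_left h9 hs2
      linarith

end Final

end R6

section R6thms

variable {E : Type*} [NormedAddCommGroup E] [InnerProductSpace ℝ E] [FiniteDimensional ℝ E]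
  [MeasurableSpace E] [BorelSpace E] {L : AddSubgroup E} {s : ℝ}

open R6

/-- `s ^ k * Θ(s,0)` is nondecreasing. -/
theorem F_mono (hL : Lat L) {s' : ℝ} (hs : 0 < s) (hss : s ≤ s') :
    s ^ (Module.finrank ℝ E) * Th L s 0 ≤ s' ^ (Module.finrank ℝ E) * Th L s' 0 := by
  have hs' : 0 < s' := by linarith
  have h := (dat hL).F_log hs hss
  have h1 := Th_pos hL hs (0 : E)
  have h2 := Th_pos hL hs' (0 : E)
  have e1 : Real.log (s ^ (Module.finrank ℝ E) * Th L s 0) =
      Real.log (Th L s 0) + Module.finrank ℝ E * Real.log s := by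
    rw [Real.log_mul (by positivity) h1.ne', Real.log_pow]; ring
  have e2 : Real.log (s' ^ (Module.finrank ℝ E) * Th L s' 0) =
      Real.log (Th L s' 0) + Module.finrank ℝ E * Real.log s' := by
    rw [Real.log_mul (by positivity) h2.ne', Real.log_pow]; ring
  rw [← Real.log_le_log_iff (by positivity) (by positivity), e1, e2]
  exact h

theorem small_side (hL : Lat L) (hs : 0 < s)
    (h : ∀ a : E, Ex L s 0 (fun y => ⟪y, a⟫ ^ 2) ≤ 51 / 100 * ‖a‖ ^ 2) :
    Th L s 0 ≤ Real.exp (8 * Module.finrank ℝ E) := by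
  have hr2 : (0 : ℝ) < √2 := by positivity
  have hr2' : √(2 : ℝ) ^ 2 = 2 := Real.sq_sqrt (by norm_num)
  have hr1 : 1 < √(2 : ℝ) := by
    rw [Real.lt_sqrt (by norm_num)]; norm_num
  have hr3 : √(2 : ℝ) ≤ 1.41422 := by
    rw [Real.sqrt_le_left (by norm_num)]; norm_num
  set u := √(√(2 : ℝ)) with hu
  have hu0 : 0 < u := by positivity
  have hu2 : u ^ 2 = √2 := Real.sq_sqrt hr2.le
  have hu4 : u ^ 4 = 2 := by
    have : u ^ 4 = (u ^ 2) ^ 2 := by ring
    rw [this, hu2, hr2']
  have hu1 : 1 < u := by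
    rw [hu, Real.lt_sqrt (by norm_num)]; simpa using hr1
  have hmain := abs_small (dat hL) hu1 hu4 hs (by positivity) ?_ ?_ (tendsto_log_Th hL)
  · rw [← Real.log_le_iff_le_exp (Th_pos hL hs 0)]
    exact hmain
  · -- scaling of the trace
    intro s hs
    have b := stdOrthonormalBasis ℝ E
    rw [Ex_norm_sq hL (by positivity) b, Ex_norm_sq hL hs b, Finset.mul_sum]
    refine Finset.sum_le_sum fun i _ => ?_
    have h1 := sig_scale hL hs (by nlinarith : s ≤ s * u) (b i)
    have h2 : s ^ 2 * Ex L (s * u) 0 (fun y => ⟪y, b i⟫ ^ 2) ≤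
        s ^ 2 * (u ^ 2 * Ex L s 0 (fun y => ⟪y, b i⟫ ^ 2)) := by
      calc _ ≤ (s * u) ^ 2 * Ex L s 0 (fun y => ⟪y, b i⟫ ^ 2) := h1
        _ = _ := by ring
    exact le_of_mul_le_mul_left h2 (by positivity)
  · intro j t h1 h2
    rw [hu2] at h1 h2 ⊢
    set σ := s * √2 ^ j with hσ
    have hσ0 : 0 < σ := by positivity
    have ht : 0 < t := by linarith
    have hσs := sig_pow hL hs h j
    rw [← hσ] at hσs
    have hk := key_small hL ht (c := 7215 / 10000) (by norm_num) (by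
      intro a
      have h3 := sig_scale hL hσ0 h1 a
      have h4 : σ ^ 2 * Ex L t 0 (fun y => ⟪y, a⟫ ^ 2) ≤
          σ ^ 2 * (7215 / 10000 * ‖a‖ ^ 2) := by
        calc _ ≤ t ^ 2 * Ex L σ 0 (fun y => ⟪y, a⟫ ^ 2) := h3
          _ ≤ t ^ 2 * (51 / 100 * ‖a‖ ^ 2) :=
              mul_le_mul_of_nonneg_left (hσs a) (by positivity)
          _ ≤ (σ * u) ^ 2 * (51 / 100 * ‖a‖ ^ 2) := by
              apply mul_le_mul_of_nonneg_right _ (by positivity)
              exact pow_le_pow_left₀ ht.le h2 2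
          _ = σ ^ 2 * (√2 * (51 / 100) * ‖a‖ ^ 2) := by rw [mul_pow, hu2]; ring
          _ ≤ σ ^ 2 * (7215 / 10000 * ‖a‖ ^ 2) := by
              apply mul_le_mul_of_nonneg_left _ (by positivity)
              apply mul_le_mul_of_nonneg_right _ (by positivity)
              linarith
      exact le_of_mul_le_mul_left h4 (by positivity))
    have e : t * (√2)⁻¹ = t / √2 := by ring
    rw [e]
    norm_num at hk ⊢
    linarith

theorem large_side (hL : Lat L) (hs : 0 < s)
    (h : ∀ a : E, 49 / 100 * ‖a‖ ^ 2 ≤ Ex L s 0 (fun y => ⟪y, a⟫ ^ 2))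
    (hlim : ∀ δ : ℝ, 0 < δ → ∃ σ, 0 < σ ∧ σ ≤ s ∧
      σ ^ (Module.finrank ℝ E) * Th L σ 0 ≤ Real.exp δ * s ^ (Module.finrank ℝ E)) :
    Th L s 0 ≤ Real.exp (8 * Module.finrank ℝ E) := by
  have hr2 : (0 : ℝ) < √2 := by positivity
  have hr2' : √(2 : ℝ) ^ 2 = 2 := Real.sq_sqrt (by norm_num)
  have hr1 : 1 < √(2 : ℝ) := by
    rw [Real.lt_sqrt (by norm_num)]; norm_num
  set k := Module.finrank ℝ E with hk
  have hT := Th_pos hL hs (0 : E)
  have key : ∀ δ : ℝ, 0 < δ → Real.log (Th L s 0) ≤ 4 * k + δ := by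
    intro δ hδ
    obtain ⟨σ, hσ, hσs, hσ2⟩ := hlim δ hδ
    have h1 := abs_large (dat hL) hr1 hr2' (s₀ := s) (by positivity) (by
      intro t ht hts
      obtain ⟨n, hn⟩ : ∃ n : ℕ, s ≤ √2 ^ n * t := by
        obtain ⟨n, hn⟩ := pow_unbounded_of_one_lt (s / t) hr1
        refine ⟨n, ?_⟩
        rw [div_lt_iff₀ ht] at hn
        exact hn.le
      have h2 := sig_down hL h (by norm_num) n t ht hts hn
      have h3 := key_large hL ht (c := 245 / 1000) (by norm_num) (by
        intro a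
        have := h2 a
        norm_num at this ⊢
        linarith)
      have e : t * (√2)⁻¹ = t / √2 := by ring
      rw [e]
      exact h3) hσ hσs
    have hTσ := Th_pos hL hσ (0 : E)
    have h4 : Real.log (Th L σ 0) + k * Real.log σ ≤ δ + k * Real.log s := by
      have h5 := Real.log_le_log (by positivity) hσ2
      rw [Real.log_mul (by positivity) hTσ.ne', Real.log_mul (Real.exp_pos _).ne' (by positivity),
        Real.log_pow, Real.log_pow, Real.log_exp] at h5
      linarith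
    rw [← hk] at h1
    linarith
  rw [← Real.log_le_iff_le_exp hT]
  have h6 : Real.log (Th L s 0) ≤ 4 * k := le_of_forall_pos_le_add key
  have : (0 : ℝ) ≤ k := by positivity
  linarith

end R6thms

end Pool.Agent.BCD
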