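import Pool.Agent.Work.MP_bc8e1e_an.D.C4c

/-!
# `count` and `ac_of_good` with explicit constants
-/

set_option autoImplicit false

open MeasureTheory Filter

namespace Pool.Agent.BCD

open C4b in
/-- `count` with all the constants explicit. -/
theorem count_U (c₄ : ℝ) (hc₄ : 0 < c₄) (ε : ℝ) (hε : 0 < ε) (hε1 : ε ≤ 1)
    (lam : ℝ) (hlam1 : lam < 1) (huε : 1 - lam ≤ ε / 50)
    (hlogε : Real.log (800 / ε) ≤ √(c₄ * ε / 1000) / √(1 - lam))
    (C₁ : ℕ) (hC : 1 ≤ C₁) (hCle : (C₁ : ℝ) ≤ Real.exp (√(c₄ * ε / 1000) / √(1 - lam))) :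
      ∃ q : ℕ, 2 ≤ q ∧ ((∃ n₀ : ℕ, ∀ n : ℕ, n₀ ≤ n →
        Jc lam (q ^ n) ((2 : ℝ) ^ (-((C₁ : ℝ) * (q ^ n : ℕ)))) ≤
          (2 : ℝ) ^ (-(ε * (q ^ n : ℕ)))) →
        ∃ r : ℕ, lam⁻¹ ^ r ≤ 3 ∧ ∃ K₀ : ℕ, ∀ K : ℕ, K₀ ≤ K →
          ∃ (ι : Type) (_ : Fintype ι) (_ : DecidableEq ι) (pos len : ι → ℕ),
            (∀ b b', b ≠ b' → Disjoint (Finset.Ico (pos b) (pos b + len b))
              (Finset.Ico (pos b') (pos b' + len b'))) ∧
            2 * Real.log K ≤ c₄ * ∑ b, Gs (Xs lam (len b)) (lam⁻¹ ^ r)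
              (lam⁻¹ ^ pos b / (96 * 2 ^ K))) := by
  have hl2 : 0.6931471803 < Real.log 2 := Real.log_two_gt_d9
  have hl2' : Real.log 2 < 0.6931471808 := Real.log_two_lt_d9
  set c : ℝ := √(c₄ * ε / 1000) with hc
  have hc0 : 0 < c := Real.sqrt_pos.2 (by positivity)
  have hcsq : c ^ 2 = c₄ * ε / 1000 := Real.sq_sqrt (by positivity)
  set u := 1 - lam with hu
  have hupos : 0 < u := by linarith
  have hlam23 : 2 / 3 < lam := by linarith
  have hlam0 : 0 < lam := by linarith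
  set θ := Real.log (1 / lam) with hθ
  have hθ0 : 0 < θ := Real.log_pos (by rw [lt_div_iff₀ hlam0]; linarith)
  have hθu : θ ≤ 2 * u := by
    have h1 : Real.log (1 / lam) ≤ 1 / lam - 1 := Real.log_le_sub_one_of_pos (by positivity)
    have h2 : 1 / lam - 1 ≤ 2 * u := by
      rw [div_sub_one hlam0.ne', div_le_iff₀ hlam0]
      nlinarith
    exact h1.trans h2
  have hθε : θ ≤ ε * Real.log 2 / 16 := by nlinarith
  set Np : ℝ := Real.log 2 / θ with hNp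
  have hNpθ : θ * Np = Real.log 2 := by rw [hNp]; field_simp
  have hNpu : 3465 / 10000 / u ≤ Np := by
    rw [hNp, div_le_div_iff₀ hupos hθ0]
    nlinarith
  have hNp6 : 6 ≤ Np := by
    rw [hNp, le_div_iff₀ hθ0]
    nlinarith
  have hC' : (1 : ℝ) ≤ C₁ := by exact_mod_cast hC
  set q : ℕ := ⌈64 * (C₁ : ℝ) / ε⌉₊ with hq
  have hq1 : 64 * (C₁ : ℝ) / ε ≤ q := Nat.le_ceil _
  have hq2 : (q : ℝ) < 64 * (C₁ : ℝ) / ε + 1 := Nat.ceil_lt_add_one (by positivity)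
  have hCε : 1 ≤ (C₁ : ℝ) / ε := by rw [le_div_iff₀ hε]; linarith
  have hq64 : (64 : ℝ) ≤ q := by
    refine le_trans ?_ hq1
    rw [mul_div_assoc]; linarith
  have hq800 : (q : ℝ) ≤ 800 * C₁ / ε := by
    rw [mul_div_assoc] at hq2 ⊢
    linarith
  have hqn : 64 ≤ q := by exact_mod_cast hq64
  refine ⟨q, by omega, ?_⟩
  rintro ⟨n₀, hn₀⟩
  set Λ := Real.log (800 * C₁ / ε) with hΛ
  have hΛpos : 0 < Λ := by
    apply Real.log_pos
    rw [mul_div_assoc]; linarith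
  have hlogq : Real.log q ≤ Λ := Real.log_le_log (by linarith) hq800
  have hlogqpos : 0 < Real.log q := Real.log_pos (by linarith)
  have hsu : 0 < √u := Real.sqrt_pos.2 hupos
  have hΛle : Λ ≤ 2 * (c / √u) := by
    have h1 : Λ = Real.log C₁ + Real.log (800 / ε) := by
      rw [hΛ, ← Real.log_mul (by linarith) (by positivity)]
      congr 1; ring
    have h2 : Real.log C₁ ≤ c / √u := by
      have := Real.log_le_log (by linarith) hCle
      rwa [Real.log_exp] at this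
    have h3 : Real.log (800 / ε) ≤ c / √u := hlogε
    rw [h1]; linarith
  have hΛsq : Λ ^ 2 ≤ 4 * (c₄ * ε / 1000) / u := by
    calc Λ ^ 2 ≤ (2 * (c / √u)) ^ 2 := pow_le_pow_left₀ hΛpos.le hΛle 2
      _ = 4 * c ^ 2 / (√u) ^ 2 := by ring
      _ = 4 * (c₄ * ε / 1000) / u := by rw [hcsq, Real.sq_sqrt hupos.le]
  set r : ℕ := ⌈Np⌉₊ with hr
  have hr1 : Np ≤ r := Nat.le_ceil _
  have hr2 : (r : ℝ) < Np + 1 := Nat.ceil_lt_add_one (by linarith)
  have hexp : ∀ p : ℕ, lam⁻¹ ^ p = Real.exp (θ * p) := by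
    intro p
    rw [hθ, one_div, mul_comm, ← Real.log_pow, Real.exp_log (by positivity)]
  have hr3 : lam⁻¹ ^ r ≤ 3 := by
    rw [hexp]
    have h1 : θ * r ≤ Real.log 2 + Real.log (1 / lam) := by
      rw [← hNpθ, ← hθ]; nlinarith
    calc Real.exp (θ * r) ≤ Real.exp (Real.log 2 + Real.log (1 / lam)) := Real.exp_le_exp.2 h1
      _ = 2 * (1 / lam) := by
          rw [Real.exp_add, Real.exp_log (by norm_num), Real.exp_log (by positivity)]
      _ ≤ 3 := by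
          rw [mul_one_div, div_le_iff₀ hlam0]; linarith
  refine ⟨r, hr3, ?_⟩
  -- the first scale
  obtain ⟨n₁, hn₁⟩ : ∃ n₁ : ℕ, ∀ n, n₁ ≤ n → n₀ ≤ n ∧ 1 ≤ n ∧ 4 ≤ q ^ n ∧
      Real.log (194 / (1 - lam)) ≤ ε / 8 * (q ^ n : ℕ) * Real.log 2 := by
    have ht : Tendsto (fun n : ℕ => q ^ n) atTop atTop :=
      tendsto_pow_atTop_atTop_of_one_lt (by omega)
    have ht' : Tendsto (fun n : ℕ => ε / 8 * Real.log 2 * (q ^ n : ℕ)) atTop atTop := by
      apply Tendsto.const_mul_atTop (by positivity)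
      exact tendsto_natCast_atTop_atTop.comp ht
    obtain ⟨n₁, h⟩ := ((eventually_ge_atTop n₀).and ((eventually_ge_atTop 1).and
      ((ht.eventually (eventually_ge_atTop 4)).and
        (ht'.eventually (eventually_ge_atTop _))))).exists_forall_of_atTop
    refine ⟨n₁, fun n hn => ?_⟩
    obtain ⟨h1, h2, h3, h4⟩ := h n hn
    refine ⟨h1, h2, h3, h4.trans (le_of_eq (by ring))⟩
  obtain ⟨K₀, hK₀⟩ : ∃ K₀ : ℕ, ∀ K : ℕ, K₀ ≤ K → C₁ ≤ K ∧
      3 * (Real.log C₁ + n₁ * Real.log q) ≤ Real.log K := by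
    have ht : Tendsto (fun K : ℕ => Real.log K) atTop atTop :=
      Real.tendsto_log_atTop.comp tendsto_natCast_atTop_atTop
    obtain ⟨K₀, h⟩ := ((eventually_ge_atTop C₁).and
      (ht.eventually (eventually_ge_atTop
        (3 * (Real.log C₁ + n₁ * Real.log q))))).exists_forall_of_atTop
    exact ⟨K₀, fun K hK => h K hK⟩
  refine ⟨K₀, fun K hK => ?_⟩
  obtain ⟨hCK, hKlog⟩ := hK₀ K hK
  set n₂ := Nat.log q (K / C₁) with hn₂
  have hdivpos : K / C₁ ≠ 0 := by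
    rw [Nat.div_ne_zero_iff]; omega
  have hpow : ∀ n, n ≤ n₂ → C₁ * q ^ n ≤ K := by
    intro n hn
    have h1 : q ^ n ≤ K / C₁ :=
      (Nat.pow_le_pow_right (by omega) hn).trans (Nat.pow_log_le_self q hdivpos)
    calc C₁ * q ^ n ≤ C₁ * (K / C₁) := Nat.mul_le_mul_left _ h1
      _ ≤ K := Nat.mul_div_le K C₁
  have hKup : Real.log K ≤ Real.log C₁ + (n₂ + 1) * Real.log q := by
    have h1 : K / C₁ < q ^ (n₂ + 1) := Nat.lt_pow_succ_log_self (by omega) _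
    have h2 : K < C₁ * q ^ (n₂ + 1) := by
      have h3 := Nat.lt_mul_div_succ K (by omega : 0 < C₁)
      calc K < C₁ * (K / C₁ + 1) := h3
        _ ≤ C₁ * q ^ (n₂ + 1) := Nat.mul_le_mul_left _ h1
    have h4 : (K : ℝ) ≤ C₁ * (q : ℝ) ^ (n₂ + 1) := by exact_mod_cast h2.le
    have hKpos : (0 : ℝ) < K := by
      have : (C₁ : ℝ) ≤ K := by exact_mod_cast hCK
      linarith
    have h5 := Real.log_le_log hKpos h4
    rw [Real.log_mul (by linarith) (by positivity), Real.log_pow] at h5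
    push_cast at h5
    exact h5
  -- the regions
  set A : ℕ → ℕ := fun n => ⌊Np * (K - C₁ * (q ^ n : ℕ))⌋₊ with hA
  have hAanti : ∀ n n', n ≤ n' → A n' ≤ A n := by
    intro n n' hnn
    apply Nat.floor_le_floor
    apply mul_le_mul_of_nonneg_left _ (by linarith)
    have : (C₁ : ℝ) * (q ^ n : ℕ) ≤ C₁ * (q ^ n' : ℕ) := by
      apply mul_le_mul_of_nonneg_left _ (by linarith)
      exact_mod_cast Nat.pow_le_pow_right (by omega) hnn
    linarith
  have hres : ∀ n : ℕ, ∃ ρ : ℕ, n₁ ≤ n → n ≤ n₂ →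
      3 / 10 * (r * ε) ≤ 4 * Λ * ∑ p ∈ (Finset.Ico (A n) (A (n - 1) - q ^ n)).filter
        (fun p => p % q ^ n = ρ), Gs (Xs lam (q ^ n)) (lam⁻¹ ^ r) (lam⁻¹ ^ p / (96 * 2 ^ K)) := by
    intro n
    obtain ⟨ρ, hρ⟩ := residue
      (fun p => Gs (Xs lam (q ^ n)) (lam⁻¹ ^ r) (lam⁻¹ ^ p / (96 * 2 ^ K)))
      (Finset.Ico (A n) (A (n - 1) - q ^ n)) (m := q ^ n) (by positivity)
    refine ⟨ρ, fun h1 h2 => ?_⟩
    obtain ⟨e1, e2, e3, e4⟩ := hn₁ n h1
    have hps := per_scale (m := q ^ n) (m' := q ^ (n - 1)) hlam23 hlam1 hε hε1 hθ hθε hC hq1 hr1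
      hr3 (by rw [← pow_succ']; congr 1; omega) (hpow n h2) e3 hNp6 hr2.le e4 (hn₀ n e1)
    have hm0 : (0 : ℝ) < (q ^ n : ℕ) := by positivity
    have h3 : 3 / 10 * (r * ε * (q ^ n : ℕ)) ≤ 4 * Λ * ((q ^ n : ℕ) *
        ∑ p ∈ (Finset.Ico (A n) (A (n - 1) - q ^ n)).filter
        (fun p => p % q ^ n = ρ), Gs (Xs lam (q ^ n)) (lam⁻¹ ^ r) (lam⁻¹ ^ p / (96 * 2 ^ K))) :=
      hps.trans (mul_le_mul_of_nonneg_left hρ (by positivity))
    have h4 : (3 / 10 * (r * ε)) * (q ^ n : ℕ) ≤ (4 * Λ *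
        ∑ p ∈ (Finset.Ico (A n) (A (n - 1) - q ^ n)).filter
        (fun p => p % q ^ n = ρ), Gs (Xs lam (q ^ n)) (lam⁻¹ ^ r)
          (lam⁻¹ ^ p / (96 * 2 ^ K))) * (q ^ n : ℕ) := by
      calc _ = 3 / 10 * (r * ε * (q ^ n : ℕ)) := by ring
        _ ≤ _ := h3
        _ = _ := by ring
    exact le_of_mul_le_mul_right h4 hm0
  choose ρ hρ using hres
  set S : Finset (Σ _ : ℕ, ℕ) := (Finset.Icc n₁ n₂).sigma fun n =>
    (Finset.Ico (A n) (A (n - 1) - q ^ n)).filter (fun p => p % q ^ n = ρ n) with hS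
  refine ⟨↥S, inferInstance, Classical.decEq _, fun x => x.1.2, fun x => q ^ x.1.1, ?_, ?_⟩
  · rintro ⟨⟨n, p⟩, hx⟩ ⟨⟨n', p'⟩, hx'⟩ hne
    simp only [hS, Finset.mem_sigma, Finset.mem_Icc, Finset.mem_filter, Finset.mem_Ico] at hx hx'
    rw [Finset.disjoint_left]
    intro t ht ht'
    simp only [Finset.mem_Ico] at ht ht'
    obtain ⟨⟨g1, g2⟩, ⟨g3, g4⟩, g5⟩ := hx
    obtain ⟨⟨g1', g2'⟩, ⟨g3', g4'⟩, g5'⟩ := hx'
    rcases lt_trichotomy n n' with hlt | heq | hgt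
    · have h1 : A (n' - 1) ≤ A n := hAanti n (n' - 1) (by omega)
      have h2 : p' + q ^ n' < A (n' - 1) := by omega
      omega
    · subst heq
      apply hne
      have h1 : p = p' := by
        have h2 : p % q ^ n = p' % q ^ n := by rw [g5, g5']
        rcases le_total p p' with hle | hle
        · have h3 := (Nat.modEq_iff_dvd' hle).1 h2
          obtain ⟨k, hk⟩ := h3
          rcases Nat.eq_zero_or_pos k with h0 | h0
          · subst h0; omega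
          · have : q ^ n ≤ q ^ n * k := Nat.le_mul_of_pos_right _ h0
            omega
        · have h3 := (Nat.modEq_iff_dvd' hle).1 h2.symm
          obtain ⟨k, hk⟩ := h3
          rcases Nat.eq_zero_or_pos k with h0 | h0
          · subst h0; omega
          · have : q ^ n ≤ q ^ n * k := Nat.le_mul_of_pos_right _ h0
            omega
      subst h1
      rfl
    · have h1 : A (n - 1) ≤ A n' := hAanti n' (n - 1) (by omega)
      have h2 : p + q ^ n < A (n - 1) := by omega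
      omega
  · have hsum : (∑ b : ↥S, Gs (Xs lam (q ^ b.1.1)) (lam⁻¹ ^ r) (lam⁻¹ ^ b.1.2 / (96 * 2 ^ K))) =
        ∑ n ∈ Finset.Icc n₁ n₂, ∑ p ∈ (Finset.Ico (A n) (A (n - 1) - q ^ n)).filter
          (fun p => p % q ^ n = ρ n), Gs (Xs lam (q ^ n)) (lam⁻¹ ^ r)
            (lam⁻¹ ^ p / (96 * 2 ^ K)) := by
      rw [← Finset.sum_sigma (Finset.Icc n₁ n₂) (fun n =>
        (Finset.Ico (A n) (A (n - 1) - q ^ n)).filter (fun p => p % q ^ n = ρ n))
        (fun x : (Σ _ : ℕ, ℕ) => Gs (Xs lam (q ^ x.1)) (lam⁻¹ ^ r)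
          (lam⁻¹ ^ x.2 / (96 * 2 ^ K)))]
      exact Finset.sum_coe_sort S (fun x : (Σ _ : ℕ, ℕ) => Gs (Xs lam (q ^ x.1)) (lam⁻¹ ^ r)
          (lam⁻¹ ^ x.2 / (96 * 2 ^ K)))
    have hgoal : 2 * Real.log K ≤ c₄ * ∑ n ∈ Finset.Icc n₁ n₂,
        ∑ p ∈ (Finset.Ico (A n) (A (n - 1) - q ^ n)).filter
          (fun p => p % q ^ n = ρ n), Gs (Xs lam (q ^ n)) (lam⁻¹ ^ r)
            (lam⁻¹ ^ p / (96 * 2 ^ K)) := by
      have hn12 : (n₁ : ℝ) ≤ n₂ + 1 := by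
        have h0 : 0 ≤ Real.log C₁ := Real.log_nonneg hC'
        have h1 : 0 ≤ n₁ * Real.log q := by positivity
        have h2 : n₁ * Real.log q ≤ (n₂ + 1) * Real.log q := by linarith
        exact le_of_mul_le_mul_right h2 hlogqpos
      have hn12' : n₁ ≤ n₂ + 1 := by exact_mod_cast hn12
      set g : ℝ := 3 / 10 * (r * ε) / (4 * Λ) with hg
      have hlow : ((n₂ : ℝ) + 1 - n₁) * g ≤ ∑ n ∈ Finset.Icc n₁ n₂,
        ∑ p ∈ (Finset.Ico (A n) (A (n - 1) - q ^ n)).filter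
          (fun p => p % q ^ n = ρ n), Gs (Xs lam (q ^ n)) (lam⁻¹ ^ r)
            (lam⁻¹ ^ p / (96 * 2 ^ K)) := by
        have h1 : ∑ _n ∈ Finset.Icc n₁ n₂, g = ((n₂ : ℝ) + 1 - n₁) * g := by
          rw [Finset.sum_const, Nat.card_Icc, nsmul_eq_mul, Nat.cast_sub hn12']
          push_cast; ring
        rw [← h1]
        refine Finset.sum_le_sum fun n hn => ?_
        rw [Finset.mem_Icc] at hn
        have := hρ n hn.1 hn.2
        rw [hg, div_le_iff₀ (by positivity)]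
        linarith
      have hcg : 3 * Real.log q ≤ c₄ * g := by
        have h1 : 3 * Λ * Λ ≤ c₄ * (3 / 10 * (r * ε) / 4) := by
          have h2 : 3 * Λ * Λ ≤ 3 * (4 * (c₄ * ε / 1000) / u) := by nlinarith
          have h3 : 3 * (4 * (c₄ * ε / 1000) / u) ≤ c₄ * (3 / 10 * (3465 / 10000 / u * ε) / 4) := by
            have : c₄ * (3 / 10 * (3465 / 10000 / u * ε) / 4) -
              3 * (4 * (c₄ * ε / 1000) / u) = (c₄ * ε / u) * (3 / 40 * (3465 / 10000) - 12 / 1000) := by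
              ring
            have h4 : 0 ≤ c₄ * ε / u := by positivity
            nlinarith
          have h5 : c₄ * (3 / 10 * (3465 / 10000 / u * ε) / 4) ≤ c₄ * (3 / 10 * (r * ε) / 4) := by
            apply mul_le_mul_of_nonneg_left _ hc₄.le
            have : 3465 / 10000 / u * ε ≤ r * ε :=
              mul_le_mul_of_nonneg_right (hNpu.trans hr1) hε.le
            linarith
          linarith
        have h6 : c₄ * g = c₄ * (3 / 10 * (r * ε) / 4) / Λ := by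
          rw [hg]; field_simp
        rw [h6, le_div_iff₀ hΛpos]
        have h7 : 3 * Real.log q * Λ ≤ 3 * Λ * Λ := by nlinarith
        linarith
      have hfin : 3 * Real.log q * ((n₂ : ℝ) + 1 - n₁) ≤ c₄ * g * ((n₂ : ℝ) + 1 - n₁) :=
        mul_le_mul_of_nonneg_right hcg (by linarith)
      have h8 : c₄ * (((n₂ : ℝ) + 1 - n₁) * g) ≤ c₄ * ∑ n ∈ Finset.Icc n₁ n₂,
        ∑ p ∈ (Finset.Ico (A n) (A (n - 1) - q ^ n)).filter
          (fun p => p % q ^ n = ρ n), Gs (Xs lam (q ^ n)) (lam⁻¹ ^ r)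
            (lam⁻¹ ^ p / (96 * 2 ^ K)) := mul_le_mul_of_nonneg_left hlow hc₄.le
      linarith
    refine hgoal.trans (le_of_eq ?_)
    rw [← hsum]

/-- `ac_of_good` with explicit dependence on the parameters. -/
theorem ac_of_good_U : ∃ c₀ : ℝ, 0 < c₀ ∧ ∀ ε : ℝ, 0 < ε → ε ≤ 1 →
    ∀ lam : ℝ, lam < 1 → 1 - lam ≤ ε / 50 →
      Real.log (800 / ε) ≤ c₀ * √(ε / (1 - lam)) →
      ∀ C₁ : ℕ, 1 ≤ C₁ → (C₁ : ℝ) ≤ Real.exp (c₀ * √(ε / (1 - lam))) → ∃ q : ℕ, 2 ≤ q ∧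
        ((∃ n₀ : ℕ, ∀ n : ℕ, n₀ ≤ n →
          Jc lam (q ^ n) ((2 : ℝ) ^ (-((C₁ : ℝ) * (q ^ n : ℕ)))) ≤
            (2 : ℝ) ^ (-(ε * (q ^ n : ℕ)))) →
          ∀ μ : Measure ℝ, IsProbabilityMeasure μ →
            μ = (1/2 : ENNReal) • μ.map (fun x : ℝ => lam * x + 1)
              + (1/2 : ENNReal) • μ.map (fun x : ℝ => lam * x - 1) →
            μ ≪ (volume : Measure ℝ)) := by
  obtain ⟨C, hC, c₄, hc₄, hbb⟩ := block_bound
  obtain ⟨C', hC'⟩ := conv_fK_le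
  refine ⟨√(c₄ / 1000), Real.sqrt_pos.2 (by positivity), ?_⟩
  intro ε hε hε1 lam hlam1 huε hlogε C₁ hC₁ hC₁le
  have hu : 0 < 1 - lam := by linarith
  have hsq : √(c₄ * ε / 1000) / √(1 - lam) = √(c₄ / 1000) * √(ε / (1 - lam)) := by
    rw [← Real.sqrt_div (by positivity), ← Real.sqrt_mul (by positivity)]
    congr 1
    ring
  have h0 : 0 < lam := by linarith
  obtain ⟨q, hq, hgood⟩ := count_U c₄ hc₄ ε hε hε1 lam hlam1 huε (by rw [hsq]; exact hlogε) C₁ hC₁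
    (by rw [hsq]; exact hC₁le)
  refine ⟨q, hq, fun hn μ hμp hμ => ?_⟩
  obtain ⟨r, hr, K₀, hK⟩ := hgood hn
  have hr1 : 1 ≤ lam⁻¹ ^ r := one_le_pow₀ ((one_le_inv₀ h0).2 hlam1.le)
  set b : ℕ → ℝ := fun K => if K < max K₀ 1 then C' else C * ((K : ℝ) ^ 2)⁻¹ with hb
  refine ac_criterion μ b ?_ ?_
  · have h2 : Summable fun K : ℕ => C * ((K : ℝ) ^ 2)⁻¹ :=
      (Real.summable_nat_pow_inv.2 one_lt_two).mul_left C
    have h3 : Summable fun K : ℕ => b K - C * ((K : ℝ) ^ 2)⁻¹ := by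
      refine summable_of_ne_finset_zero (s := Finset.range (max K₀ 1)) fun K hK => ?_
      rw [Finset.mem_range, not_lt] at hK
      simp only [hb]
      rw [if_neg (by omega), sub_self]
    simpa using h3.add h2
  · intro K
    by_cases hKK : K < max K₀ 1
    · simp only [hb]
      rw [if_pos hKK]
      exact hC' _ (by positivity) μ hμp
    · simp only [hb]
      rw [if_neg hKK]
      obtain ⟨ι, i1, i2, pos, len, hdisj, hsum⟩ := hK K (by omega)
      refine (hbb lam h0 hlam1 μ hμp hμ (2 ^ K) (lam⁻¹ ^ r) (by positivity) hr1 hr ι pos len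
        hdisj).trans ?_
      refine mul_le_mul_of_nonneg_left ?_ hC.le
      have hKp : (0 : ℝ) < K := by
        have : 1 ≤ K := by omega
        exact_mod_cast this
      calc Real.exp (-(c₄ * ∑ b, Gs (Xs lam (len b)) (lam⁻¹ ^ r) (lam⁻¹ ^ pos b / (96 * 2 ^ K))))
          ≤ Real.exp (-(2 * Real.log K)) := Real.exp_le_exp.2 (by linarith)
        _ = ((K : ℝ) ^ 2)⁻¹ := by
          rw [Real.exp_neg, mul_comm, Real.exp_mul, Real.exp_log hKp]
          norm_num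

end Pool.Agent.BCD
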