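import Pool.Agent.Work.MP_bc8e1e_an.D.UH
import Pool.Agent.Work.MP_bc8e1e_an.D.H4Root
import Pool.Agent.Work.MP_bc8e1e_an.D.UC
import Pool.Agent.Work.MP_bc8e1e_an.D.Liou

/-!
# Bernoulli convolutions near 1: the two-parameter dichotomy and its consequences
-/

set_option autoImplicit false

open MeasureTheory ProbabilityTheory Polynomial Filter

namespace Pool.Agent.BCD

/-- The two-parameter dichotomy theorem. -/
theorem dichotomy_U' : ∃ c : ℝ, 0 < c ∧ ∃ l0 : ℝ, 1 / 2 ≤ l0 ∧ l0 < 1 ∧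
    ∀ l : ℝ, l0 < l → l < 1 → ∀ ε₁ : ℝ, 0 < ε₁ → ε₁ ≤ 1 →
      (1 - l) * Real.log (1 / (1 - l)) ^ 2 ≤ c * ε₁ →
      ∀ μ : Measure ℝ, IsProbabilityMeasure μ →
        μ = (1/2 : ENNReal) • μ.map (fun x : ℝ => l * x + 1)
            + (1/2 : ENNReal) • μ.map (fun x : ℝ => l * x - 1) →
        μ ≪ (volume : Measure ℝ) ∨
        ∀ D₀ : ℕ, ∃ D : ℕ, D₀ ≤ D ∧ ∃ f : ℤ[X], f ≠ 0 ∧ f.natDegree ≤ D ∧
          (f.map (Int.castRingHom ℂ)).mahlerMeasure ≤ 1 + ε₁ ∧
          ∃ η : ℂ, (f.map (Int.castRingHom ℂ)).eval η = 0 ∧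
            ‖(l : ℂ) - η‖ ≤ Real.exp (-(D * Real.exp (c * √(ε₁ / (1 - l))))) := by
  obtain ⟨c', hc', hc'1, C₀, hinv⟩ := inverse_U
  obtain ⟨c₀, hc₀, hac⟩ := ac_of_good_U
  set c : ℝ := min (c' / 50) (min (c₀ ^ 2 * c' / 16) (c₀ * √c' / 2)) with hc
  have hsc' : 0 < √c' := Real.sqrt_pos.2 hc'
  have hcpos : 0 < c := lt_min (by positivity) (lt_min (by positivity) (by positivity))
  have hca : c ≤ c' / 50 := min_le_left _ _
  have hcb : c ≤ c₀ ^ 2 * c' / 16 := (min_le_right _ _).trans (min_le_left _ _)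
  have hcc : c ≤ c₀ * √c' / 2 := (min_le_right _ _).trans (min_le_right _ _)
  set L₀ : ℝ := max 7 (2 * |C₀| + 2) with hL₀
  have hL7 : 7 ≤ L₀ := le_max_left _ _
  have hLC : 2 * |C₀| + 2 ≤ L₀ := le_max_right _ _
  refine ⟨c, hcpos, 1 - Real.exp (-L₀), ?_, ?_, ?_⟩
  · have h1 : Real.exp (-L₀) ≤ Real.exp (-1) := Real.exp_le_exp.2 (by linarith)
    have h2 : Real.exp (-1) ≤ 1 / 2 := by
      rw [Real.exp_neg]
      have := Real.add_one_le_exp (1 : ℝ)
      rw [inv_eq_one_div]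
      exact one_div_le_one_div_of_le (by norm_num) (by linarith)
    linarith
  · linarith [Real.exp_pos (-L₀)]
  intro l hl hl1 ε₁ hε₁ hε₁1 hcond μ hμ hself
  set u := 1 - l with hu
  have hupos : 0 < u := by linarith
  have huL : u < Real.exp (-L₀) := by linarith
  set L := Real.log (1 / u) with hL
  have huexp : u = Real.exp (-L) := by
    rw [hL, Real.log_div one_ne_zero hupos.ne', Real.log_one, zero_sub, neg_neg,
      Real.exp_log hupos]
  have hLL : L₀ < L := by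
    rw [huexp] at huL
    have := Real.exp_lt_exp.1 huL
    linarith
  have hL7' : 7 < L := by linarith
  set ε : ℝ := c' * ε₁ with hε
  have hεpos : 0 < ε := by positivity
  have hε1 : ε ≤ 1 := by
    calc c' * ε₁ ≤ 1 * 1 := mul_le_mul hc'1 hε₁1 hε₁.le zero_le_one
      _ = 1 := one_mul 1
  -- (a)
  have huc : u ≤ c * ε₁ := by
    have h1 : u * 1 ≤ u * L ^ 2 := mul_le_mul_of_nonneg_left (by nlinarith) hupos.le
    linarith
  have huε : u ≤ ε / 50 := by
    have h1 : c * ε₁ ≤ c' / 50 * ε₁ := mul_le_mul_of_nonneg_right hca hε₁.le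
    rw [hε]; linarith
  -- the main exponent
  set y : ℝ := c₀ * √(ε / u) with hy
  have hy4 : 4 * L ≤ y := by
    have h1 : (4 * L / c₀) ^ 2 ≤ ε / u := by
      rw [le_div_iff₀ hupos, div_pow, div_mul_eq_mul_div, div_le_iff₀ (by positivity)]
      have h2 : u * L ^ 2 ≤ c₀ ^ 2 * c' / 16 * ε₁ :=
        hcond.trans (mul_le_mul_of_nonneg_right hcb hε₁.le)
      rw [hε]
      nlinarith
    have h3 : 4 * L / c₀ ≤ √(ε / u) := Real.le_sqrt_of_sq_le h1
    rw [div_le_iff₀ hc₀] at h3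
    rw [hy]; linarith
  have hlogε : Real.log (800 / ε) ≤ c₀ * √(ε / (1 - l)) := by
    rw [← hu, ← hy]
    have h1 : 800 / ε ≤ 800 / u := by
      apply div_le_div_of_nonneg_left (by norm_num) hupos
      linarith
    have h2 : Real.log (800 / ε) ≤ Real.log (800 / u) := Real.log_le_log (by positivity) h1
    have h3 : Real.log (800 / u) = Real.log 800 + L := by
      rw [hL, Real.log_div (by norm_num) hupos.ne', Real.log_div one_ne_zero hupos.ne',
        Real.log_one]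
      ring
    have h4 : Real.log 800 ≤ 7 := by
      rw [Real.log_le_iff_le_exp (by norm_num)]
      have h5 : Real.exp 7 = Real.exp 1 ^ 7 := by rw [← Real.exp_nat_mul]; norm_num
      have h6 := Real.exp_one_gt_d9
      rw [h5]
      calc (800 : ℝ) ≤ 2.7182818283 ^ 7 := by norm_num
        _ ≤ Real.exp 1 ^ 7 := pow_le_pow_left₀ (by norm_num) h6.le 7
    linarith
  have hexp4 : Real.exp (4 * L) ≤ Real.exp y := Real.exp_le_exp.2 hy4
  have hquad : 1 + 4 * L + 8 * L ^ 2 ≤ Real.exp (4 * L) := by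
    have := Real.quadratic_le_exp_of_nonneg (show (0 : ℝ) ≤ 4 * L by linarith)
    nlinarith
  set C₁ : ℕ := ⌊Real.exp y⌋₊ with hC₁
  have hC₁le : (C₁ : ℝ) ≤ Real.exp y := Nat.floor_le (Real.exp_pos _).le
  have hC₁ge : Real.exp y / 2 ≤ C₁ := by
    have h1 := Nat.lt_floor_add_one (Real.exp y)
    rw [← hC₁] at h1
    have h2 : (2 : ℝ) ≤ Real.exp y := by nlinarith
    linarith
  have hC₁1 : 1 ≤ C₁ := by
    have h2 : (2 : ℝ) ≤ Real.exp y := by nlinarith
    have : (1 : ℝ) ≤ C₁ := by linarith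
    exact_mod_cast this
  obtain ⟨q, hq2, hq⟩ := hac ε hεpos hε1 l hl1 huε hlogε C₁ hC₁1 hC₁le
  by_cases hgood : ∃ n₀ : ℕ, ∀ n : ℕ, n₀ ≤ n →
          Jc l (q ^ n) ((2 : ℝ) ^ (-((C₁ : ℝ) * (q ^ n : ℕ)))) ≤
            (2 : ℝ) ^ (-(ε * (q ^ n : ℕ)))
  · exact Or.inl (hq hgood μ hμ hself)
  right
  push Not at hgood
  have hlhalf : 1 / 2 < l := by linarith
  have hC₀ : C₀ ≤ C₁ := by
    have h1 : C₀ ≤ |C₀| := le_abs_self _
    have h2 : |C₀| ≤ L := by linarith [abs_nonneg C₀]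
    nlinarith
  obtain ⟨m₀, hm₀⟩ := hinv ε₁ hε₁ hε₁1 l hlhalf hl1 C₁ hC₀
  intro D₀
  obtain ⟨n₁, hn₁⟩ : ∃ n₁ : ℕ, ∀ n, n₁ ≤ n → m₀ ≤ q ^ n ∧ D₀ ≤ q ^ n ∧
      Real.pi / 4 ≤ ε * Real.log 2 * (q ^ n : ℕ) ∧ 0 < q ^ n := by
    have ht : Tendsto (fun n : ℕ => q ^ n) atTop atTop :=
      tendsto_pow_atTop_atTop_of_one_lt (by omega)
    have hlog2 : 0 < Real.log 2 := Real.log_pos (by norm_num)
    have ht' : Tendsto (fun n : ℕ => ε * Real.log 2 * (q ^ n : ℕ)) atTop atTop := by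
      apply Tendsto.const_mul_atTop (by positivity)
      exact tendsto_natCast_atTop_atTop.comp ht
    obtain ⟨n₁, h⟩ := ((ht.eventually (eventually_ge_atTop m₀)).and
      ((ht.eventually (eventually_ge_atTop D₀)).and
        (ht'.eventually (eventually_ge_atTop (Real.pi / 4))))).exists_forall_of_atTop
    exact ⟨n₁, fun n hn => ⟨(h n hn).1, (h n hn).2.1, (h n hn).2.2, by positivity⟩⟩
  obtain ⟨n, hn, hbad⟩ := hgood n₁
  obtain ⟨c1, c2, c3, c4⟩ := hn₁ n hn
  set m := q ^ n with hm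
  have hIc : (2 : ℝ) ^ (-(2 * (c' * ε₁) * m)) ≤ Ic l m ((2 : ℝ) ^ (-((C₁ : ℝ) * m))) := by
    rw [← hε]
    have h1 := Jc_le_Ic (lam := l) m (a := (2 : ℝ) ^ (-((C₁ : ℝ) * m))) (by positivity)
    have h2 : (2 : ℝ) ^ (-(ε * m)) ≤ Real.exp (Real.pi / 4) *
        Ic l m ((2 : ℝ) ^ (-((C₁ : ℝ) * m))) := le_trans hbad.le h1
    have h3 : (2 : ℝ) ^ (-(2 * ε * m)) * Real.exp (Real.pi / 4) ≤ (2 : ℝ) ^ (-(ε * m)) := by
      rw [Real.rpow_def_of_pos (by norm_num), Real.rpow_def_of_pos (by norm_num), ← Real.exp_add]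
      apply Real.exp_le_exp.2
      nlinarith [c3]
    have hE : 0 < Real.exp (Real.pi / 4) := Real.exp_pos _
    have h4 := le_trans h3 h2
    rw [mul_comm] at h4
    exact le_of_mul_le_mul_left h4 hE
  obtain ⟨f, hf0, hfdeg, hfM, hfv⟩ := hm₀ m c1 hIc
  have hlog4 : 8 * Real.log (4 / (1 - l)) ≤ C₁ := by
    rw [← hu]
    have h1 : Real.log (4 / u) = Real.log 4 + L := by
      rw [hL, Real.log_div (by norm_num) hupos.ne', Real.log_div one_ne_zero hupos.ne',
        Real.log_one]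
      ring
    have h2 : Real.log 4 ≤ 3 := by
      have := Real.log_le_sub_one_of_pos (show (0 : ℝ) < 4 by norm_num)
      linarith
    rw [h1]
    nlinarith
  obtain ⟨η, hη, hdist⟩ := near_root hlhalf hl1 hf0 c4 hfdeg (by linarith : Mah f ≤ 2) hlog4 hfv
  refine ⟨m, c2, f, hf0, hfdeg, hfM, η, hη, hdist.trans ?_⟩
  apply Real.exp_le_exp.2
  rw [neg_le_neg_iff]
  have hyc : c * √(ε₁ / u) ≤ y / 2 := by
    have h1 : √(ε / u) = √c' * √(ε₁ / u) := by
      rw [← Real.sqrt_mul hc'.le, hε]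
      congr 1; ring
    rw [hy, h1]
    calc c * √(ε₁ / u) ≤ (c₀ * √c' / 2) * √(ε₁ / u) :=
          mul_le_mul_of_nonneg_right hcc (Real.sqrt_nonneg _)
      _ = _ := by ring
  have h5 : Real.exp (c * √(ε₁ / u)) ≤ C₁ * u / 16 := by
    have hE2 : Real.exp y = Real.exp (y / 2) * Real.exp (y / 2) := by
      rw [← Real.exp_add]; ring_nf
    have h6 : 32 ≤ Real.exp (y / 2) * u := by
      rw [huexp, ← Real.exp_add]
      have h7 : L ≤ y / 2 + -L := by linarith
      have h8 : Real.exp 7 ≤ Real.exp (y / 2 + -L) := Real.exp_le_exp.2 (by linarith)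
      have h9 : (32 : ℝ) ≤ Real.exp 7 := by
        have h10 : Real.exp 7 = Real.exp 1 ^ 7 := by rw [← Real.exp_nat_mul]; norm_num
        have h11 := Real.exp_one_gt_d9
        rw [h10]
        calc (32 : ℝ) ≤ 2.7182818283 ^ 7 := by norm_num
          _ ≤ Real.exp 1 ^ 7 := pow_le_pow_left₀ (by norm_num) h11.le 7
      linarith
    have hpos := Real.exp_pos (y / 2)
    have h12 : Real.exp (y / 2) * 32 ≤ Real.exp (y / 2) * (Real.exp (y / 2) * u) :=
      mul_le_mul_of_nonneg_left h6 hpos.le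
    have h13 : Real.exp y / 2 * u ≤ C₁ * u := mul_le_mul_of_nonneg_right hC₁ge hupos.le
    have h14 : Real.exp (c * √(ε₁ / u)) ≤ Real.exp (y / 2) := Real.exp_le_exp.2 hyc
    rw [le_div_iff₀ (by norm_num)]
    have h15 : Real.exp y / 2 * u = Real.exp (y / 2) * (Real.exp (y / 2) * u) / 2 := by
      rw [hE2]; ring
    linarith
  calc (m : ℝ) * Real.exp (c * √(ε₁ / u)) ≤ m * (C₁ * u / 16) := by
        apply mul_le_mul_of_nonneg_left h5; positivity
    _ = C₁ * u / 16 * m := by ring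

/-- The two-parameter dichotomy theorem. -/
theorem dichotomy_U : ∃ c : ℝ, 0 < c ∧ ∃ l0 : ℝ, l0 < 1 ∧
    ∀ l : ℝ, l0 < l → l < 1 → ∀ ε₁ : ℝ, 0 < ε₁ → ε₁ ≤ 1 →
      (1 - l) * Real.log (1 / (1 - l)) ^ 2 ≤ c * ε₁ →
      ∀ μ : Measure ℝ, IsProbabilityMeasure μ →
        μ = (1/2 : ENNReal) • μ.map (fun x : ℝ => l * x + 1)
            + (1/2 : ENNReal) • μ.map (fun x : ℝ => l * x - 1) →
        μ ≪ (volume : Measure ℝ) ∨
        ∀ D₀ : ℕ, ∃ D : ℕ, D₀ ≤ D ∧ ∃ f : ℤ[X], f ≠ 0 ∧ f.natDegree ≤ D ∧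
          (f.map (Int.castRingHom ℂ)).mahlerMeasure ≤ 1 + ε₁ ∧
          ∃ η : ℂ, (f.map (Int.castRingHom ℂ)).eval η = 0 ∧
            ‖(l : ℂ) - η‖ ≤ Real.exp (-(D * Real.exp (c * √(ε₁ / (1 - l))))) := by
  obtain ⟨c, hc, l0, _, hl0, h⟩ := dichotomy_U'
  exact ⟨c, hc, l0, hl0, h⟩

/-- All algebraic parameters near `1` whose Mahler measure is not extremely close to `1`, and
whose degree and Mahler measure are not astronomically large. -/
theorem algebraic_U : ∃ c : ℝ, 0 < c ∧ ∃ l0 : ℝ, 1 / 2 ≤ l0 ∧ l0 < 1 ∧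
    ∀ l : ℝ, l0 < l → l < 1 → ∀ g : ℤ[X], Irreducible g → Polynomial.aeval l g = 0 →
      (1 - l) * Real.log (1 / (1 - l)) ^ 2 ≤
        c * min 1 ((g.map (Int.castRingHom ℂ)).mahlerMeasure - 1) →
      (g.natDegree : ℝ) + Real.log (g.map (Int.castRingHom ℂ)).mahlerMeasure ≤
        Real.exp (c * √(min 1 ((g.map (Int.castRingHom ℂ)).mahlerMeasure - 1) / (1 - l))) →
      ∀ μ : Measure ℝ, IsProbabilityMeasure μ →
        μ = (1/2 : ENNReal) • μ.map (fun x : ℝ => l * x + 1)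
            + (1/2 : ENNReal) • μ.map (fun x : ℝ => l * x - 1) →
        μ ≪ (volume : Measure ℝ) := by
  obtain ⟨c, hc, l0, hl0, hl01, h⟩ := dichotomy_U'
  refine ⟨c / 2, by positivity, l0, hl0, hl01, ?_⟩
  intro l hl hl1 g hg hgl hcond hdeg μ hμ hself
  set M := (g.map (Int.castRingHom ℂ)).mahlerMeasure with hM
  set t := min 1 (M - 1) with ht
  have hu : 0 < 1 - l := by linarith
  have hLpos : 0 < Real.log (1 / (1 - l)) := by
    apply Real.log_pos
    rw [lt_div_iff₀ hu]; linarith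
  have htpos : 0 < t := by
    have h1 : 0 < (1 - l) * Real.log (1 / (1 - l)) ^ 2 := by positivity
    have h2 : 0 < c / 2 * t := lt_of_lt_of_le h1 hcond
    exact (mul_pos_iff_of_pos_left (by positivity)).1 h2
  have ht1 : t ≤ 1 := min_le_left _ _
  have htM : t ≤ M - 1 := min_le_right _ _
  rcases h l hl hl1 (t / 2) (by positivity) (by linarith) (by linarith) μ hμ hself with h1 | h2
  · exact h1
  exfalso
  refine Liou.no_approx (by linarith) hl1 hg hgl (ε₁ := t / 2) (by linarith) ?_ ?_ h2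
  · change 1 + t / 2 < M
    linarith
  · refine hdeg.trans (Real.exp_le_exp.2 ?_)
    have h3 : c / 2 * √(t / (1 - l)) ≤ c * √(t / 2 / (1 - l)) := by
      have h4 : √(t / 2 / (1 - l)) = √(1 / 2) * √(t / (1 - l)) := by
        rw [← Real.sqrt_mul (by norm_num)]
        congr 1; ring
      have h5 : (1 / 2 : ℝ) ≤ √(1 / 2) := Real.le_sqrt_of_sq_le (by norm_num)
      rw [h4]
      have h6 := Real.sqrt_nonneg (t / (1 - l))
      have h7 : 1 / 2 * √(t / (1 - l)) ≤ √(1 / 2) * √(t / (1 - l)) :=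
        mul_le_mul_of_nonneg_right h5 h6
      nlinarith
    exact h3

/-- A bound for the Mahler measures of polynomials with a root near `1`, which beats the trivial
bound by a factor `log ^ 2` only, implies absolute continuity for all parameters near `1`. -/
theorem weak_lehmer_U : ∃ C : ℝ, 0 < C ∧ ∀ δ : ℝ, 0 < δ →
    (∀ (f : ℤ[X]) (η : ℂ), f ≠ 0 → (f.map (Int.castRingHom ℂ)).eval η = 0 → ‖1 - η‖ < δ →
      ‖η‖ < 1 → 1 + C * (1 - ‖η‖) * Real.log (1 / (1 - ‖η‖)) ^ 2 <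
        (f.map (Int.castRingHom ℂ)).mahlerMeasure) →
    ∃ l0 : ℝ, l0 < 1 ∧ ∀ l : ℝ, l0 < l → l < 1 →
      ∀ μ : Measure ℝ, IsProbabilityMeasure μ →
        μ = (1/2 : ENNReal) • μ.map (fun x : ℝ => l * x + 1)
            + (1/2 : ENNReal) • μ.map (fun x : ℝ => l * x - 1) →
        μ ≪ (volume : Measure ℝ) := by
  obtain ⟨c, hc, l0, hl0, hl01, h⟩ := dichotomy_U'
  refine ⟨8 / c, by positivity, fun δ hδ hyp => ?_⟩
  -- `u log² (1/u) ≤ c` for small `u`
  obtain ⟨u₀, hu₀, hsmall⟩ : ∃ u₀ : ℝ, 0 < u₀ ∧ ∀ u : ℝ, 0 < u → u < u₀ →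
      u * Real.log (1 / u) ^ 2 ≤ c := by
    have h1 : Tendsto (fun x : ℝ => Real.log x ^ 2 / x) atTop (nhds 0) := by
      have := Real.tendsto_pow_log_div_mul_add_atTop 1 0 2 one_ne_zero
      simpa using this
    have h2 : ∀ᶠ x : ℝ in atTop, Real.log x ^ 2 / x < c := h1.eventually (gt_mem_nhds hc)
    obtain ⟨X, hX⟩ := (h2.and (eventually_gt_atTop 0)).exists_forall_of_atTop
    refine ⟨1 / (|X| + 1), by positivity, fun u hu huu => ?_⟩
    have h3 : X ≤ 1 / u := by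
      have h4 : |X| + 1 < 1 / u := by
        rw [lt_div_iff₀ hu]
        rw [lt_div_iff₀ (by positivity)] at huu
        linarith
      linarith [le_abs_self X]
    have h5 := (hX (1 / u) h3).1
    rw [div_div_eq_mul_div, div_one] at h5
    linarith
  refine ⟨max l0 (max (1 - u₀) (max (1 - δ / 2) (99 / 100))), ?_, ?_⟩
  · refine max_lt hl01 (max_lt (by linarith) (max_lt (by linarith) (by norm_num)))
  intro l hl hl1 μ hμ hself
  have hla : l0 < l := lt_of_le_of_lt (le_max_left _ _) hl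
  have hlb : max (1 - u₀) (max (1 - δ / 2) (99 / 100)) < l :=
    lt_of_le_of_lt (le_max_right _ _) hl
  have hlc : 1 - u₀ < l := lt_of_le_of_lt (le_max_left _ _) hlb
  have hld : max (1 - δ / 2) (99 / 100) < l := lt_of_le_of_lt (le_max_right _ _) hlb
  have hle : 1 - δ / 2 < l := lt_of_le_of_lt (le_max_left _ _) hld
  have hlf : 99 / 100 < l := lt_of_le_of_lt (le_max_right _ _) hld
  set u := 1 - l with hu
  have hupos : 0 < u := by linarith
  have hL4 : 4 ≤ Real.log (1 / u) := by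
    rw [Real.le_log_iff_exp_le (by positivity), le_div_iff₀ hupos]
    have h1 : Real.exp 4 = Real.exp 1 ^ 4 := by rw [← Real.exp_nat_mul]; norm_num
    have h2 := Real.exp_one_lt_d9
    have h3 : Real.exp 1 ^ 4 ≤ 2.7182818286 ^ 4 :=
      pow_le_pow_left₀ (Real.exp_pos _).le h2.le 4
    have h4 : Real.exp 4 ≤ 100 := by rw [h1]; refine h3.trans (by norm_num)
    nlinarith
  set L := Real.log (1 / u) with hL
  set ε₁ : ℝ := u * L ^ 2 / c with hε₁
  have hε₁pos : 0 < ε₁ := by positivity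
  have hε₁1 : ε₁ ≤ 1 := by
    rw [hε₁, div_le_one hc]
    exact hsmall u hupos (by linarith)
  have hcond : (1 - l) * Real.log (1 / (1 - l)) ^ 2 ≤ c * ε₁ := by
    rw [← hu, ← hL, hε₁]
    apply le_of_eq
    field_simp
  rcases h l hla hl1 ε₁ hε₁pos hε₁1 hcond μ hμ hself with h1 | h2
  · exact h1
  exfalso
  obtain ⟨D₀, hD₀⟩ := exists_nat_gt (Real.log (2 / u))
  obtain ⟨D, hD, f, hf0, hdeg, hM, η, hη, hdist⟩ := h2 D₀
  have hlt : ‖(l : ℂ) - η‖ < u / 2 := by
    refine hdist.trans_lt ?_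
    have h3 : Real.log (2 / u) < D * Real.exp (c * √(ε₁ / (1 - l))) := by
      have : (D₀ : ℝ) ≤ D := by exact_mod_cast hD
      have h4 : (1 : ℝ) ≤ Real.exp (c * √(ε₁ / (1 - l))) := Real.one_le_exp (by positivity)
      have hD0 : (0 : ℝ) ≤ D := Nat.cast_nonneg _
      nlinarith
    have h5 : Real.log (2 / u) = -Real.log (u / 2) := by
      rw [← Real.log_inv]; congr 1; field_simp
    calc Real.exp (-(D * Real.exp (c * √(ε₁ / (1 - l))))) < Real.exp (Real.log (u / 2)) :=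
          Real.exp_lt_exp.2 (by linarith)
      _ = u / 2 := Real.exp_log (by positivity)
  have hlnorm : ‖(l : ℂ)‖ = l := by
    rw [Complex.norm_real, Real.norm_of_nonneg (by linarith)]
  have hup : ‖η‖ < 1 - u / 2 := by
    have h3 : ‖η‖ - ‖(l : ℂ)‖ ≤ ‖(l : ℂ) - η‖ := by
      rw [norm_sub_rev]; exact norm_sub_norm_le _ _
    linarith
  have hlow : 1 - 3 * u / 2 < ‖η‖ := by
    have h3 : ‖(l : ℂ)‖ - ‖η‖ ≤ ‖(l : ℂ) - η‖ := norm_sub_norm_le _ _
    linarith
  have hnear : ‖1 - η‖ < δ := by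
    have h3 : (1 : ℂ) - η = ((u : ℝ) : ℂ) + ((l : ℂ) - η) := by
      rw [hu]; push_cast; ring
    rw [h3]
    refine (norm_add_le _ _).trans_lt ?_
    rw [Complex.norm_real, Real.norm_of_nonneg hupos.le]
    linarith
  have hmain := hyp f η hf0 hη hnear (by linarith)
  set t := 1 - ‖η‖ with ht
  have ht1 : u / 2 < t := by linarith
  have ht2 : t < 3 * u / 2 := by linarith
  have hlogt : L / 2 ≤ Real.log (1 / t) := by
    have h3 : 1 / (3 * u / 2) ≤ 1 / t := one_div_le_one_div_of_le (by linarith) ht2.le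
    have h4 : Real.log (1 / (3 * u / 2)) ≤ Real.log (1 / t) :=
      Real.log_le_log (by positivity) h3
    have h5 : Real.log (1 / (3 * u / 2)) = L - Real.log (3 / 2) := by
      rw [hL, ← Real.log_div (by positivity) (by norm_num)]
      congr 1; field_simp
    have h6 : Real.log (3 / 2) ≤ 1 / 2 := by
      have := Real.log_le_sub_one_of_pos (show (0 : ℝ) < 3 / 2 by norm_num)
      linarith
    linarith
  have hfin : ε₁ ≤ 8 / c * t * Real.log (1 / t) ^ 2 := by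
    have h3 : (L / 2) ^ 2 ≤ Real.log (1 / t) ^ 2 := pow_le_pow_left₀ (by linarith) hlogt 2
    have h4 : u / 2 * (L / 2) ^ 2 ≤ t * Real.log (1 / t) ^ 2 :=
      mul_le_mul ht1.le h3 (by positivity) (by linarith)
    have h5 : ε₁ = 8 / c * (u / 2 * (L / 2) ^ 2) := by rw [hε₁]; ring
    rw [h5, mul_assoc]
    exact mul_le_mul_of_nonneg_left h4 (by positivity)
  linarith

end Pool.Agent.BCD
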