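import Pool.Agent.Work.MP_bc8e1e_an.D.H3e

/-!
# Lower bound for the Gaussian mass, with the exact theta constant
-/

set_option autoImplicit false

open MeasureTheory Polynomial
open scoped RealInnerProductSpace

namespace Pool.Agent.BCD

open H3c H3e

namespace UH

lemma theta_ge {k : ℕ} (hk : 0 < k) (u : ℝ) :
    (∑' j : ℤ, Real.exp (-(Real.pi * (j : ℝ) ^ 2 / √(Real.pi * k) ^ 2))) *
      (Real.cos (Real.pi * u) ^ 2) ^ k ≤
      ∑' n : ℤ, Real.exp (-(Real.pi * (n : ℝ) ^ 2 / √(Real.pi * k) ^ 2)) *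
        Real.cos (2 * Real.pi * n * u) := by
  have hpi := Real.pi_pos
  have hk' : (0 : ℝ) < k := by exact_mod_cast hk
  have hT : 0 < √(Real.pi * k) := Real.sqrt_pos.2 (by positivity)
  have hT2 : √(Real.pi * k) ^ 2 = Real.pi * k := Real.sq_sqrt (by positivity)
  set T := √(Real.pi * k) with hTdef
  -- reduction modulo one
  set v := u - round u with hv
  have hva : |v| ≤ 1 / 2 := abs_sub_round u
  have hper : ∀ n : ℤ, Real.cos (2 * Real.pi * n * u) = Real.cos (2 * Real.pi * n * v) := by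
    intro n
    have : 2 * Real.pi * n * u = 2 * Real.pi * n * v + (n * round u : ℤ) * (2 * Real.pi) := by
      rw [hv]
      push_cast
      ring
    rw [this, Real.cos_add_int_mul_two_pi]
  have hcos : Real.cos (Real.pi * u) ^ 2 = Real.cos (Real.pi * v) ^ 2 := by
    have : Real.pi * u = Real.pi * v + round u * Real.pi := by rw [hv]; ring
    rw [this, Real.cos_add_int_mul_pi, mul_pow]
    have : ((-1 : ℝ) ^ (round u)) ^ 2 = 1 := by
      rw [← zpow_natCast, ← zpow_mul, mul_comm, zpow_mul]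
      norm_num
    rw [this, one_mul]
  simp only [hper]
  rw [hcos]
  obtain ⟨h1, h2⟩ := H3d.jacobi hT v
  obtain ⟨h3, h4⟩ := H3d.jacobi hT 0
  simp only [mul_zero, Real.cos_zero, mul_one, sub_zero] at h3 h4
  rw [h2, h4, mul_assoc]
  refine mul_le_mul_of_nonneg_left ?_ hT.le
  -- symmetrize
  have h5 : ∑' n : ℤ, Real.exp (-(Real.pi * T ^ 2 * ((n : ℝ) - v) ^ 2)) =
      ∑' n : ℤ, Real.exp (-(Real.pi * T ^ 2 * ((n : ℝ) + v) ^ 2)) := by
    rw [← (Equiv.neg ℤ).tsum_eq]
    refine tsum_congr fun n => ?_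
    simp only [Equiv.neg_apply]
    congr 1
    push_cast
    ring
  have h6 : Summable fun n : ℤ => Real.exp (-(Real.pi * T ^ 2 * ((n : ℝ) + v) ^ 2)) :=
    summ_sq_add (c := Real.pi * T ^ 2) (by positivity) v
  have h7 : Real.exp (-(Real.pi * T ^ 2 * v ^ 2)) *
      ∑' n : ℤ, Real.exp (-(Real.pi * T ^ 2 * (n : ℝ) ^ 2)) ≤
      ∑' n : ℤ, Real.exp (-(Real.pi * T ^ 2 * ((n : ℝ) - v) ^ 2)) := by
    have h8 : 2 * (Real.exp (-(Real.pi * T ^ 2 * v ^ 2)) *
        ∑' n : ℤ, Real.exp (-(Real.pi * T ^ 2 * (n : ℝ) ^ 2))) ≤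
        ∑' n : ℤ, (Real.exp (-(Real.pi * T ^ 2 * ((n : ℝ) - v) ^ 2)) +
          Real.exp (-(Real.pi * T ^ 2 * ((n : ℝ) + v) ^ 2))) := by
      rw [← mul_assoc, ← tsum_mul_left]
      refine Summable.tsum_le_tsum (fun n => ?_) (h3.mul_left _) (h1.add h6)
      set x := Real.exp (-(Real.pi * T ^ 2 * ((n : ℝ) - v) ^ 2) / 2) with hx
      set y := Real.exp (-(Real.pi * T ^ 2 * ((n : ℝ) + v) ^ 2) / 2) with hy
      have e1 : Real.exp (-(Real.pi * T ^ 2 * ((n : ℝ) - v) ^ 2)) = x * x := by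
        rw [hx, ← Real.exp_add]
        congr 1
        ring
      have e2 : Real.exp (-(Real.pi * T ^ 2 * ((n : ℝ) + v) ^ 2)) = y * y := by
        rw [hy, ← Real.exp_add]
        congr 1
        ring
      have e3 : Real.exp (-(Real.pi * T ^ 2 * v ^ 2)) *
          Real.exp (-(Real.pi * T ^ 2 * (n : ℝ) ^ 2)) = x * y := by
        rw [hx, hy, ← Real.exp_add, ← Real.exp_add]
        congr 1
        ring
      rw [e1, e2, mul_assoc, e3]
      nlinarith [sq_nonneg (x - y)]
    rw [h1.tsum_add h6, ← h5] at h8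
    linarith
  refine le_trans ?_ h7
  rw [mul_comm]
  refine mul_le_mul_of_nonneg_right ?_ (tsum_nonneg fun _ => (Real.exp_pos _).le)
  set x := Real.pi * v with hx
  have hxa : |x| ≤ Real.pi / 2 := by
    rw [hx, abs_mul, abs_of_pos hpi]
    nlinarith
  have hc0 : 0 ≤ Real.cos x := Real.cos_nonneg_of_mem_Icc (abs_le.1 hxa)
  have h8 : Real.cos x ^ 2 ≤ Real.exp (-x ^ 2) := by
    calc Real.cos x ^ 2 ≤ Real.exp (-(x ^ 2 / 2)) ^ 2 :=
          pow_le_pow_left₀ hc0 (H3d.cos_le_exp hxa) 2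
      _ = Real.exp (-x ^ 2) := by
        rw [← Real.exp_nat_mul]
        congr 1
        push_cast
        ring
  calc (Real.cos x ^ 2) ^ k ≤ Real.exp (-x ^ 2) ^ k := pow_le_pow_left₀ (sq_nonneg _) h8 k
    _ = _ := by
      rw [← Real.exp_nat_mul, hT2, hx]
      congr 1
      ring

end UH

variable {lam W T : ℝ}

theorem rho_lower_U (_h0 : 0 < lam) (_h1 : lam < 1) (hW : 0 < W) (k n : ℕ) (hk : 0 < k) :
    (∑' j : ℤ, Real.exp (-(Real.pi * (j : ℝ) ^ 2 / √(Real.pi * k) ^ 2))) ^ n *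
      Ic lam n (√(Real.pi * k) / W) ^ k ≤
      rhoU lam W (√(Real.pi * k)) (degreeLT ℚ n) := by
  have hpi := Real.pi_pos
  have hk' : (0 : ℝ) < k := by exact_mod_cast hk
  have hT : 0 < √(Real.pi * k) := Real.sqrt_pos.2 (by positivity)
  have hTge := fun u => UH.theta_ge hk u
  set T := √(Real.pi * k) with hTdef
  set κ := ∑' j : ℤ, Real.exp (-(Real.pi * (j : ℝ) ^ 2 / T ^ 2)) with hκ
  have hκ0 : 0 ≤ κ := tsum_nonneg fun _ => (Real.exp_pos _).le
  set a := T / W with ha
  have ha0 : 0 < a := by positivity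
  have hid : idU 1 n = degreeLT ℚ n := by
    unfold idU
    rw [Polynomial.map_one]
    have : LinearMap.mulLeft ℚ (1 : ℚ[X]) = LinearMap.id := by ext; simp
    rw [this, Submodule.map_id]
  set w : ℝ → ℝ := fun t => a * Real.exp (-(Real.pi * a ^ 2 * t ^ 2)) with hw
  have hw0 : ∀ t, 0 ≤ w t := fun t => by simp only [hw]; positivity
  have hwi : Integrable w := by
    have := (C3.gauss_cos ha0 0).1
    simpa [hw] using this
  have hw1 : ∫ t, w t = 1 := by
    have := (C3.gauss_cos ha0 0).2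
    simpa [hw] using this
  -- the sum over `ℤ^n`
  have hrho : rhoU lam W T (degreeLT ℚ n) = ∑' c : Fin n → ℤ,
      ∫ t, (∏ i, gw T (c i)) * (w t * Real.cos (2 * Real.pi * ∑ i, (c i : ℝ) * (lam ^ (i : ℕ) * t))) := by
    rw [← hid, rhoU_eq (bas_idU Polynomial.isPrimitive_one n)]
    refine tsum_congr fun c => ?_
    rw [H3e.norm_sum, integral_const_mul]
    have h2 := (C3.gauss_cos ha0 (2 * ∑ i, (c i : ℝ) * lam ^ (i : ℕ))).2
    have h3 : ∀ t : ℝ, 2 * Real.pi * ∑ i, (c i : ℝ) * (lam ^ (i : ℕ) * t) =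
        Real.pi * t * (2 * ∑ i, (c i : ℝ) * lam ^ (i : ℕ)) := by
      intro t
      rw [Finset.mul_sum, Finset.mul_sum, Finset.mul_sum]
      exact Finset.sum_congr rfl fun i _ => by ring
    simp only [h3, hw]
    rw [h2]
    have h4 : ∏ i, gw T (c i) = Real.exp (∑ i, -(Real.pi * (c i : ℝ) ^ 2 / T ^ 2)) := by
      rw [Real.exp_sum]
      rfl
    rw [h4, ← Real.exp_add]
    congr 1
    rw [Finset.sum_neg_distrib, ← Finset.sum_div, ← Finset.mul_sum, ha]
    field_simp
    ring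
  have hF0 : ∀ t : ℝ, 0 ≤ ∏ j ∈ Finset.range n, Real.cos (Real.pi * lam ^ j * t) ^ 2 :=
    fun t => Finset.prod_nonneg fun _ _ => sq_nonneg _
  have hF1 : ∀ t : ℝ, ∏ j ∈ Finset.range n, Real.cos (Real.pi * lam ^ j * t) ^ 2 ≤ 1 :=
    fun t => Finset.prod_le_one (fun _ _ => sq_nonneg _) fun _ _ => Real.cos_sq_le_one _
  have hFc : Continuous fun t : ℝ => ∏ j ∈ Finset.range n, Real.cos (Real.pi * lam ^ j * t) ^ 2 :=
    continuous_finsetProd _ fun _ _ => by fun_prop
  set F : ℝ → ℝ := fun t => ∏ j ∈ Finset.range n, Real.cos (Real.pi * lam ^ j * t) ^ 2 with hF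
  have hwF : ∀ j : ℕ, Integrable fun t => w t * F t ^ j := by
    intro j
    refine (hwi.bdd_mul (c := 1) (f := fun t => F t ^ j)
      (hFc.pow j).aestronglyMeasurable (Filter.Eventually.of_forall fun t => ?_)).congr
      (Filter.Eventually.of_forall fun t => mul_comm _ _)
    rw [norm_pow, Real.norm_of_nonneg (hF0 t)]
    exact pow_le_one₀ (hF0 t) (hF1 t)
  -- interchange
  have hint : ∀ c : Fin n → ℤ, Integrable fun t => (∏ i, gw T (c i)) *
      (w t * Real.cos (2 * Real.pi * ∑ i, (c i : ℝ) * (lam ^ (i : ℕ) * t))) := by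
    intro c
    refine Integrable.const_mul ?_ _
    refine (hwi.bdd_mul (c := 1) (f := fun t =>
      Real.cos (2 * Real.pi * ∑ i, (c i : ℝ) * (lam ^ (i : ℕ) * t)))
      (Continuous.aestronglyMeasurable ?_) (Filter.Eventually.of_forall fun t =>
        Real.abs_cos_le_one _)).congr (Filter.Eventually.of_forall fun t => mul_comm _ _)
    fun_prop
  have hgs : Summable fun c : Fin n → ℤ => ∏ i, gw T (c i) :=
    (H3x.prod_sum (n := n) (fun _ => gw T) (fun _ => (gw_summ hT).norm)).1.of_norm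
  have hsum : Summable fun c : Fin n → ℤ => ∫ t, ‖(∏ i, gw T (c i)) *
      (w t * Real.cos (2 * Real.pi * ∑ i, (c i : ℝ) * (lam ^ (i : ℕ) * t)))‖ := by
    refine Summable.of_nonneg_of_le (fun c => integral_nonneg fun t => norm_nonneg _)
      (fun c => ?_) hgs
    have hp : 0 ≤ ∏ i, gw T (c i) := Finset.prod_nonneg fun i _ => (gw_pos T _).le
    calc ∫ t, ‖(∏ i, gw T (c i)) * (w t * Real.cos (2 * Real.pi * ∑ i, (c i : ℝ) *
          (lam ^ (i : ℕ) * t)))‖ ≤ ∫ t, (∏ i, gw T (c i)) * w t := by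
          refine integral_mono (hint c).norm (hwi.const_mul _) fun t => ?_
          simp only
          rw [norm_mul, norm_mul, Real.norm_of_nonneg hp, Real.norm_of_nonneg (hw0 t)]
          exact mul_le_mul_of_nonneg_left (mul_le_of_le_one_right (hw0 t)
            (Real.abs_cos_le_one _)) hp
      _ = _ := by rw [integral_const_mul, hw1, mul_one]
  have hswap := (hasSum_integral_of_summable_integral_norm hint hsum).tsum_eq
  have hinner : ∀ t : ℝ, ∑' c : Fin n → ℤ, (∏ i, gw T (c i)) *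
      (w t * Real.cos (2 * Real.pi * ∑ i, (c i : ℝ) * (lam ^ (i : ℕ) * t))) =
      w t * ∏ i : Fin n, vt T (lam ^ (i : ℕ) * t) := by
    intro t
    rw [← sum_cos hT, ← tsum_mul_left]
    exact tsum_congr fun c => by ring
  simp only [hinner] at hswap
  rw [hrho, hswap]
  -- lower bound
  have hlow : ∀ t : ℝ, κ ^ n * (w t * F t ^ k) ≤ w t * ∏ i : Fin n, vt T (lam ^ (i : ℕ) * t) := by
    intro t
    have h2 : κ ^ n * F t ^ k ≤ ∏ i : Fin n, vt T (lam ^ (i : ℕ) * t) := by
      have h3 : κ ^ n * F t ^ k = ∏ i : Fin n,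
          (κ * (Real.cos (Real.pi * (lam ^ (i : ℕ) * t)) ^ 2) ^ k) := by
        rw [Finset.prod_mul_distrib, Finset.prod_const, Finset.card_univ, Fintype.card_fin,
          Finset.prod_pow, hF]
        simp only
        rw [Finset.prod_range]
        congr 2
        exact Finset.prod_congr rfl fun i _ => by rw [mul_assoc]
      rw [h3]
      exact Finset.prod_le_prod (fun i _ => by positivity) fun i _ => hTge _
    calc κ ^ n * (w t * F t ^ k) = w t * (κ ^ n * F t ^ k) := by ring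
      _ ≤ _ := mul_le_mul_of_nonneg_left h2 (hw0 t)
  have hrint : Integrable fun t => w t * ∏ i : Fin n, vt T (lam ^ (i : ℕ) * t) := by
    refine (hwi.bdd_mul (c := (∑' z, gw T z) ^ n)
      (f := fun t => ∏ i : Fin n, vt T (lam ^ (i : ℕ) * t)) ?_
      (Filter.Eventually.of_forall fun t => ?_)).congr
      (Filter.Eventually.of_forall fun t => mul_comm _ _)
    · exact (continuous_finsetProd _ fun i _ =>
        (vt_cont hT).comp (by fun_prop)).aestronglyMeasurable
    · rw [norm_prod]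
      calc ∏ i : Fin n, ‖vt T (lam ^ (i : ℕ) * t)‖ ≤ ∏ _i : Fin n, ∑' z, gw T z :=
            Finset.prod_le_prod (fun _ _ => norm_nonneg _) fun i _ => vt_bdd hT _
        _ = _ := by rw [Finset.prod_const, Finset.card_univ, Fintype.card_fin]
  calc κ ^ n * Ic lam n a ^ k = κ ^ n * (∫ t, w t * F t) ^ k := rfl
    _ ≤ κ ^ n * ∫ t, w t * F t ^ k := by
        refine mul_le_mul_of_nonneg_left ?_ (by positivity)
        exact jensen hw0 hwi hw1 hF0 (by simpa using hwF 1) hk (hwF k)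
    _ = ∫ t, κ ^ n * (w t * F t ^ k) := by rw [integral_const_mul]
    _ ≤ _ := integral_mono ((hwF k).const_mul _) hrint hlow

end Pool.Agent.BCD
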