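import Pool.Agent.Work.MP_bc8e1e_an.D.H4
import Pool.Agent.Work.MP_bc8e1e_an.D.UHa

/-!
# The inverse theorem, uniform form
-/

set_option autoImplicit false

open MeasureTheory Polynomial

namespace Pool.Agent.BCD

namespace UH

/-- theta sums -/
noncomputable def th (T M : ℝ) : ℝ := ∑' j : ℤ, Real.exp (-(Real.pi * (M * (j : ℝ)) ^ 2 / T ^ 2))

theorem th_summable {T M : ℝ} (hT : 0 < T) (hM : 0 < M) :
    Summable fun j : ℤ => Real.exp (-(Real.pi * (M * (j : ℝ)) ^ 2 / T ^ 2)) := by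
  have hπ := Real.pi_pos
  refine (H3c.summ_sq (c := Real.pi * M ^ 2 / T ^ 2) (by positivity)).congr fun j => ?_
  congr 1
  ring

theorem th_pos {T M : ℝ} (hT : 0 < T) (hM : 0 < M) : 0 < th T M := by
  unfold th
  exact (th_summable hT hM).tsum_pos (fun _ => (Real.exp_pos _).le) 0 (Real.exp_pos _)

theorem th_one (T : ℝ) : th T 1 = ∑' j : ℤ, Real.exp (-(Real.pi * (j : ℝ) ^ 2 / T ^ 2)) := by
  unfold th
  simp only [one_mul]

theorem le_th {k : ℕ} (hk : 0 < k) : √(Real.pi * k) ≤ th √(Real.pi * k) 1 := by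
  have h := H3d.theta_ge hk 0
  rw [th_one]
  simpa using h

/-- the gap between two theta sums -/
theorem th_gap {T M ε₁ : ℝ} (hT : 0 < T) (h0 : 0 < ε₁) (h1 : ε₁ ≤ 1) (hM : 1 + ε₁ ≤ M) :
    th T M ≤ th T 1 - 2 * (Real.pi / T ^ 2) * Real.exp (-(4 * (Real.pi / T ^ 2))) * ε₁ := by
  have hπ := Real.pi_pos
  set x := Real.pi / T ^ 2 with hx
  have hx0 : 0 < x := by positivity
  have hM0 : 0 < M := by linarith
  have hs1 := th_summable hT one_pos
  have hsM := th_summable hT hM0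
  have hterm : ∀ j : ℤ, ∀ M : ℝ, Real.exp (-(Real.pi * (M * (j : ℝ)) ^ 2 / T ^ 2)) =
      Real.exp (-(x * M ^ 2 * (j : ℝ) ^ 2)) := by
    intro j M
    congr 1
    rw [hx]
    ring
  have hsub : th T 1 - th T M = ∑' j : ℤ, (Real.exp (-(Real.pi * (1 * (j : ℝ)) ^ 2 / T ^ 2)) -
      Real.exp (-(Real.pi * (M * (j : ℝ)) ^ 2 / T ^ 2))) := by
    rw [hs1.tsum_sub hsM]
    rfl
  have hnn : ∀ j : ℤ, 0 ≤ Real.exp (-(Real.pi * (1 * (j : ℝ)) ^ 2 / T ^ 2)) -
      Real.exp (-(Real.pi * (M * (j : ℝ)) ^ 2 / T ^ 2)) := by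
    intro j
    rw [sub_nonneg, hterm, hterm]
    apply Real.exp_le_exp.2
    have h2 : (1 : ℝ) ^ 2 ≤ M ^ 2 := pow_le_pow_left₀ (by norm_num) (by linarith) 2
    have h3 : x * 1 ^ 2 * (j : ℝ) ^ 2 ≤ x * M ^ 2 * (j : ℝ) ^ 2 := by gcongr
    linarith
  have h2 : Real.exp (-(Real.pi * (1 * ((1 : ℤ) : ℝ)) ^ 2 / T ^ 2)) -
      Real.exp (-(Real.pi * (M * ((1 : ℤ) : ℝ)) ^ 2 / T ^ 2)) ≤ th T 1 - th T M := by
    rw [hsub]
    exact (hs1.sub hsM).le_tsum 1 fun j _ => hnn j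
  rw [hterm, hterm] at h2
  have h3 : Real.exp (-(x * M ^ 2 * ((1 : ℤ) : ℝ) ^ 2)) ≤ Real.exp (-(x * (1 + ε₁) ^ 2)) := by
    apply Real.exp_le_exp.2
    have h4 : (1 + ε₁) ^ 2 ≤ M ^ 2 := pow_le_pow_left₀ (by linarith) hM 2
    push_cast
    nlinarith
  have h4 : Real.exp (-(x * (1 : ℝ) ^ 2 * ((1 : ℤ) : ℝ) ^ 2)) =
      Real.exp (-(x * (1 + ε₁) ^ 2)) * Real.exp (x * (2 * ε₁ + ε₁ ^ 2)) := by
    rw [← Real.exp_add]
    congr 1
    push_cast
    ring
  have h5 : x * (2 * ε₁) + 1 ≤ Real.exp (x * (2 * ε₁ + ε₁ ^ 2)) := by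
    have h6 := Real.add_one_le_exp (x * (2 * ε₁ + ε₁ ^ 2))
    have h7 : 0 ≤ x * ε₁ ^ 2 := by positivity
    linarith
  have h6 : Real.exp (-(4 * x)) ≤ Real.exp (-(x * (1 + ε₁) ^ 2)) := by
    apply Real.exp_le_exp.2
    have : (1 + ε₁) ^ 2 ≤ 4 := by nlinarith
    nlinarith
  have h7 : Real.exp (-(x * (1 + ε₁) ^ 2)) * (x * (2 * ε₁)) ≤
      Real.exp (-(x * (1 : ℝ) ^ 2 * ((1 : ℤ) : ℝ) ^ 2)) - Real.exp (-(x * (1 + ε₁) ^ 2)) := by
    rw [h4]
    have h8 := mul_le_mul_of_nonneg_left h5 (Real.exp_pos (-(x * (1 + ε₁) ^ 2))).le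
    linarith
  have h8 : Real.exp (-(4 * x)) * (x * (2 * ε₁)) ≤
      Real.exp (-(x * (1 + ε₁) ^ 2)) * (x * (2 * ε₁)) :=
    mul_le_mul_of_nonneg_right h6 (by positivity)
  have h9 : 2 * x * Real.exp (-(4 * x)) * ε₁ = Real.exp (-(4 * x)) * (x * (2 * ε₁)) := by ring
  linarith

/-- The comparison of masses, in logarithmic form. -/
theorem core {ε lam W : ℝ} (h0 : 0 < lam) (h1 : lam < 1) (hW : 0 < W) {k : ℕ} (hk : 0 < k)
    (hT : 1 ≤ √(Real.pi * k)) {m i : ℕ} (him : i ≤ m)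
    (hI : (2 : ℝ) ^ (-(2 * ε * m)) ≤ Ic lam m (√(Real.pi * k) / W))
    {D : Submodule ℚ ℚ[X]} (hD : D ≤ degreeLT ℚ i)
    (hmax : ∀ U : Submodule ℚ ℚ[X], D ≤ U → U ≤ degreeLT ℚ i →
      gT lam W √(Real.pi * k) U ≤ gT lam W √(Real.pi * k) D)
    {B : ℝ} (hB : 0 < B) (hrho : rhoU lam W √(Real.pi * k) D ≤ B ^ Module.finrank ℚ D) :
    (i : ℝ) * Real.log (th √(Real.pi * k) 1) - 2 * ε * k * m * Real.log 2 ≤
      Module.finrank ℚ D * Real.log B + 8 * ((i : ℝ) - Module.finrank ℚ D) := by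
  set T := √(Real.pi * k) with hTdef
  have hT0 : 0 < T := by linarith
  have hk' : (0 : ℝ) < k := by exact_mod_cast hk
  have ha : 0 < T / W := by positivity
  have hth : 0 < th T 1 := th_pos hT0 one_pos
  have hfin : Module.Finite ℚ (degreeLT ℚ i) := H4.finite_of_le le_rfl
  have e1 := rho_lower_U h0 h1 hW k i hk
  rw [← hTdef, ← th_one] at e1
  have e2 := rho_quot (lam := lam) (W := W) (T := T) hT hD hmax
  rw [H4.finrank_degreeLT] at e2
  have e3 : (2 : ℝ) ^ (-(2 * ε * m)) ≤ Ic lam i (T / W) :=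
    hI.trans (H4.Ic_anti lam him ha)
  have e4 : th T 1 ^ i * ((2 : ℝ) ^ (-(2 * ε * m))) ^ k ≤
      B ^ Module.finrank ℚ D * Real.exp (8 * ((i : ℝ) - Module.finrank ℚ D)) := by
    calc th T 1 ^ i * ((2 : ℝ) ^ (-(2 * ε * m))) ^ k
        ≤ th T 1 ^ i * Ic lam i (T / W) ^ k := by
          apply mul_le_mul_of_nonneg_left _ (by positivity)
          exact pow_le_pow_left₀ (by positivity) e3 k
      _ ≤ rhoU lam W T (degreeLT ℚ i) := e1
      _ ≤ rhoU lam W T D * Real.exp (8 * ((i : ℝ) - Module.finrank ℚ D)) := e2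
      _ ≤ _ := mul_le_mul_of_nonneg_right hrho (Real.exp_pos _).le
  have e5 := Real.log_le_log (by positivity) e4
  rw [Real.log_mul (by positivity) (by positivity), Real.log_mul (by positivity)
    (Real.exp_pos _).ne', Real.log_pow, Real.log_pow, Real.log_pow, Real.log_exp,
    Real.log_rpow (by norm_num)] at e5
  have e6 : (k : ℝ) * (-(2 * ε * m) * Real.log 2) = -(2 * ε * k * m * Real.log 2) := by
    ring
  rw [e6] at e5
  linarith

/-- a large integer `k` -/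
theorem exists_k : ∃ k : ℕ, 0 < k ∧ 9 ≤ Real.log √(Real.pi * k) := by
  obtain ⟨k, hk, h, -⟩ := H4.exists_k 1 one_pos
  exact ⟨k, hk, h⟩

end UH

open UH in
/-- **The inverse theorem**, with constants that do not depend on `ε₁`. -/
theorem inverse_U : ∃ c₀ : ℝ, 0 < c₀ ∧ c₀ ≤ 1 ∧ ∃ C₀ : ℝ, ∀ ε₁ : ℝ, 0 < ε₁ → ε₁ ≤ 1 →
    ∀ lam : ℝ, 1 / 2 < lam → lam < 1 → ∀ C₁ : ℝ, C₀ ≤ C₁ → ∃ m₀ : ℕ, ∀ m : ℕ, m₀ ≤ m →
      (2 : ℝ) ^ (-(2 * (c₀ * ε₁) * m)) ≤ Ic lam m ((2 : ℝ) ^ (-(C₁ * m))) →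
      ∃ f : ℤ[X], f ≠ 0 ∧ f.natDegree ≤ m ∧ Mah f ≤ 1 + ε₁ ∧
        |Polynomial.aeval lam f| ≤ (2 : ℝ) ^ (-(C₁ * m / 2)) := by
  obtain ⟨k, hk, hL9⟩ := exists_k
  have hk' : (1 : ℝ) ≤ k := by exact_mod_cast hk
  set T := √(Real.pi * k) with hTdef
  have hπ := Real.pi_pos
  have hlog2 := Real.log_two_gt_d9
  have hlog2' := Real.log_two_lt_d9
  have hT1 : 1 ≤ T := by
    by_contra hc
    push Not at hc
    have := Real.log_nonpos (Real.sqrt_nonneg _) hc.le
    linarith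
  have hT1' : 1 < T := by
    by_contra hc
    push Not at hc
    have := Real.log_nonpos (Real.sqrt_nonneg _) hc
    linarith
  have hT0 : 0 < T := by linarith
  set L := Real.log T with hLdef
  set θ := th T 1 with hθ
  have hθ0 : 0 < θ := th_pos hT0 one_pos
  have hLθ : 9 ≤ Real.log θ := hL9.trans (Real.log_le_log hT0 (le_th hk))
  set cT : ℝ := 2 * (Real.pi / T ^ 2) * Real.exp (-(4 * (Real.pi / T ^ 2))) / θ with hcT
  have hcT0 : 0 < cT := by positivity
  set c₀ : ℝ := min (1 / (12 * k)) (cT / (4 * k)) with hc₀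
  have hc₀0 : 0 < c₀ := lt_min (by positivity) (by positivity)
  have hc₀k : c₀ * k ≤ 1 / 12 := by
    calc c₀ * k ≤ 1 / (12 * k) * k := mul_le_mul_of_nonneg_right (min_le_left _ _) (by linarith)
      _ = 1 / 12 := by field_simp
  have hc₀T : c₀ * k ≤ cT / 4 := by
    calc c₀ * k ≤ cT / (4 * k) * k := mul_le_mul_of_nonneg_right (min_le_right _ _) (by linarith)
      _ = cT / 4 := by field_simp
  refine ⟨c₀, hc₀0, by nlinarith, 4 * L / Real.log 2 + 4, ?_⟩
  intro ε₁ h0 h1 lam hl0 hl1 C₁ hC₁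
  refine ⟨1, fun m hm hI => ?_⟩
  have hlam0 : 0 < lam := by linarith
  have hm' : (1 : ℝ) ≤ m := by exact_mod_cast hm
  set W : ℝ := T * 2 ^ (C₁ * m) with hW
  have hW0 : 0 < W := by positivity
  have hTW : (2 : ℝ) ^ (-(C₁ * m)) = T / W := by
    rw [hW, Real.rpow_neg (by norm_num)]
    field_simp
  rw [hTW] at hI
  have hlogW : Real.log W = L + C₁ * m * Real.log 2 := by
    rw [hW, Real.log_mul hT0.ne' (by positivity), Real.log_rpow (by norm_num)]
  have hC₁L : 4 * L + 4 * Real.log 2 ≤ C₁ * Real.log 2 := by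
    have h2 : 0 < Real.log 2 := by linarith
    have h3 := mul_le_mul_of_nonneg_right hC₁ h2.le
    have h4 : (4 * L / Real.log 2 + 4) * Real.log 2 = 4 * L + 4 * Real.log 2 := by
      field_simp
    linarith
  have hCm : (4 * L + 4 * Real.log 2) * m ≤ C₁ * m * Real.log 2 := by
    nlinarith
  -- the canonical subspaces
  choose D hD1 hD2 hD3 hD4 using fun n => exists_max lam W T n
  have hDfin : ∀ n, Module.Finite ℚ (D n) := fun n => H4.finite_of_le (hD1 n)
  have hgbot : gT lam W T ⊥ = 0 := by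
    unfold gT
    rw [cov_bot, finrank_bot]
    simp
  have hg0 : ∀ n, 0 ≤ gT lam W T (D n) := by
    intro n
    rw [← hgbot]
    exact hD2 n ⊥ bot_le
  -- they are proper
  have hne : ∀ n, 0 < n → n ≤ m → D n ≠ degreeLT ℚ n := by
    intro n hn hnm he
    have e1 := hg0 n
    rw [he] at e1
    unfold gT at e1
    rw [H4.finrank_degreeLT] at e1
    have e2 : Real.log (W ^ 2) ≤ Real.log (cov lam W (degreeLT ℚ n)) :=
      Real.log_le_log (by positivity) (cov_degreeLT hn)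
    rw [Real.log_pow, hlogW] at e2
    have hnm' : (n : ℝ) ≤ m := by exact_mod_cast hnm
    push_cast at e2
    have e3 : 2 * L * n ≤ 2 * L * m := by nlinarith
    nlinarith
  -- the deficiency
  have hεk : c₀ * ε₁ * k ≤ 1 / 12 := by
    have : c₀ * ε₁ * k = c₀ * k * ε₁ := by ring
    rw [this]
    have h2 : 0 ≤ c₀ * k := by positivity
    nlinarith
  have hdef : ∀ i, m ≤ 2 * i → i ≤ m → (3 : ℝ) / 4 * i ≤ Module.finrank ℚ (D i) := by
    intro i hmi him
    have hfr : (Module.finrank ℚ (D i) : ℝ) ≤ i := by exact_mod_cast H4.finrank_le (hD1 i)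
    have hrho : rhoU lam W T (D i) ≤ θ ^ Module.finrank ℚ (D i) := by
      have := hDfin i
      rw [hθ, th_one]
      exact rho_upper hT0 (D i)
    have e1 := core hlam0 hl1 hW0 hk hT1 him hI (hD1 i) (hD4 i) hθ0 hrho
    rw [← hTdef, ← hθ] at e1
    have hi0 : (0 : ℝ) ≤ i := Nat.cast_nonneg i
    have hmi' : (m : ℝ) ≤ 2 * i := by exact_mod_cast hmi
    have e4 : 2 * (c₀ * ε₁) * k * m * Real.log 2 ≤ i * (1 / 4) := by
      have e5 : 2 * (c₀ * ε₁) * k * m * Real.log 2 = 2 * (c₀ * ε₁ * k) * (m * Real.log 2) := by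
        ring
      rw [e5]
      have e6 : (m : ℝ) * Real.log 2 ≤ 2 * i * (3 / 4) := by nlinarith
      calc 2 * (c₀ * ε₁ * k) * (m * Real.log 2) ≤ 2 * (1 / 12) * (2 * i * (3 / 4)) := by
            apply mul_le_mul _ e6 (by positivity) (by norm_num)
            linarith
        _ = i * (1 / 4) := by ring
    have e5 : ((i : ℝ) - Module.finrank ℚ (D i)) * (Real.log θ - 8) ≤ i * (1 / 4) := by
      nlinarith
    have e6 : ((i : ℝ) - Module.finrank ℚ (D i)) ≤
        ((i : ℝ) - Module.finrank ℚ (D i)) * (Real.log θ - 8) := by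
      nlinarith
    linarith
  -- the scale with an ideal
  obtain ⟨i, hi0, him, hDbot, f, hf, hDf⟩ := exists_ideal hlam0 hl1 hT1' m ((m + 1) / 2) D
    (fun n => ⟨hD1 n, hD2 n, hD3 n⟩) hne (by
      have e1 := hdef ((m + 1) / 2) (by omega) (by omega)
      have e2 : (0 : ℝ) < ((m + 1) / 2 : ℕ) := by
        have : 0 < (m + 1) / 2 := by omega
        exact_mod_cast this
      have e3 : (0 : ℝ) < Module.finrank ℚ (D ((m + 1) / 2)) := by linarith
      have e4 : 0 < Module.finrank ℚ (D ((m + 1) / 2)) := by exact_mod_cast e3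
      exact ⟨e4.ne', by omega⟩)
  have hf0 : f ≠ 0 := hf.ne_zero
  set n := Module.finrank ℚ (D i) with hn
  have hi1 : 0 < i := by omega
  have hi1' : (0 : ℝ) < i := by exact_mod_cast hi1
  have hni : (3 : ℝ) / 4 * i ≤ n := hdef i (by omega) him.le
  have hn0' : (0 : ℝ) < n := by linarith
  have hn0 : 0 < n := by exact_mod_cast hn0'
  have hnle : n ≤ i := H4.finrank_le (hD1 i)
  have hnle' : (n : ℝ) ≤ i := by exact_mod_cast hnle
  set M := Mah f with hM
  have hM1 : 1 ≤ M := Polynomial.one_le_mahlerMeasure_of_ne_zero hf0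
  have hM0 : 0 < M := by linarith
  have hcovpos : 0 < cov lam W (D i) := by
    rw [hDf]
    exact lt_of_lt_of_le (by positivity) (cov_ideal hf n)
  have hcov : Real.log (cov lam W (D i)) ≤ 2 * L * n := by
    have := hg0 i
    unfold gT at this
    linarith
  refine ⟨f, hf0, ?_, ?_, ?_⟩
  · have := H4.natDegree_lt_of_idU hf0 hn0 (i := i) (by rw [← hDf]; exact hD1 i)
    omega
  · -- the Mahler measure
    by_contra hcon
    push Not at hcon
    have hrho : rhoU lam W T (D i) ≤ th T M ^ Module.finrank ℚ (D i) := by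
      conv_lhs => rw [hDf]
      exact rho_ideal hT0 hf n
    have e1 := core hlam0 hl1 hW0 hk hT1 him.le hI (hD1 i) (hD4 i) (th_pos hT0 hM0) hrho
    rw [← hTdef, ← hθ, ← hn] at e1
    have e2 : Real.log (th T M) ≤ Real.log θ - cT * ε₁ := by
      have h5 := th_gap hT0 h0 h1 hcon.le
      have h6 : th T M ≤ θ * (1 - cT * ε₁) := by
        have h7 : θ * (1 - cT * ε₁) = θ - 2 * (Real.pi / T ^ 2) *
            Real.exp (-(4 * (Real.pi / T ^ 2))) * ε₁ := by
          rw [hcT]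
          field_simp
        rw [h7]
        exact h5
      have h7 : 0 < 1 - cT * ε₁ := by
        have h8 := (th_pos hT0 hM0).trans_le h6
        exact (pos_iff_pos_of_mul_pos h8).1 hθ0
      have h8 := Real.log_le_log (th_pos hT0 hM0) h6
      rw [Real.log_mul hθ0.ne' h7.ne'] at h8
      have h9 := Real.log_le_sub_one_of_pos h7
      linarith
    have e3 : (n : ℝ) * (cT * ε₁) ≤ 2 * (c₀ * ε₁) * k * m * Real.log 2 := by
      have h5 : 0 ≤ ((i : ℝ) - n) * (Real.log θ - 8) := by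
        apply mul_nonneg <;> linarith
      have h6 : (n : ℝ) * Real.log (th T M) ≤ n * (Real.log θ - cT * ε₁) :=
        mul_le_mul_of_nonneg_left e2 hn0'.le
      nlinarith
    have hmi : (m : ℝ) ≤ 2 * i := by
      have : m ≤ 2 * i := by omega
      exact_mod_cast this
    have e4 : 2 * (c₀ * ε₁) * k * m * Real.log 2 ≤ 2 * (cT / 4 * ε₁) * (m * (7 / 10)) := by
      have h5 : 2 * (c₀ * ε₁) * k * m * Real.log 2 = 2 * (c₀ * k * ε₁) * (m * Real.log 2) := by
        ring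
      rw [h5]
      apply mul_le_mul _ _ (by positivity) (by positivity)
      · have := mul_le_mul_of_nonneg_right hc₀T h0.le
        linarith
      · exact mul_le_mul_of_nonneg_left (by linarith) (by linarith)
    have e5 : (3 : ℝ) / 8 * m ≤ n := by linarith
    have e6 : (3 : ℝ) / 8 * m * (cT * ε₁) ≤ n * (cT * ε₁) :=
      mul_le_mul_of_nonneg_right e5 (by positivity)
    have e7 : 0 < cT * ε₁ * m := by positivity
    nlinarith
  · -- the value
    have e1 : (W * |Polynomial.aeval lam f|) ^ 2 ≤ (T ^ n) ^ 2 := by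
      have h5 : (W * Polynomial.aeval lam f) ^ 2 ≤ cov lam W (D i) := by
        rw [hDf]
        exact cov_ideal' hf hn0
      have h6 : cov lam W (D i) ≤ (T ^ n) ^ 2 := by
        rw [← Real.log_le_log_iff hcovpos (by positivity), ← pow_mul, Real.log_pow]
        push_cast
        linarith
      calc (W * |Polynomial.aeval lam f|) ^ 2 = (W * Polynomial.aeval lam f) ^ 2 := by
            rw [mul_pow W, sq_abs, ← mul_pow W]
        _ ≤ _ := h5.trans h6
    have e2 : W * |Polynomial.aeval lam f| ≤ T ^ n :=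
      (pow_le_pow_iff_left₀ (by positivity) (by positivity) two_ne_zero).1 e1
    have e3 : T ^ n ≤ W * (2 : ℝ) ^ (-(C₁ * m / 2)) := by
      rw [← Real.log_le_log_iff (by positivity) (by positivity), Real.log_pow,
        Real.log_mul hW0.ne' (by positivity), Real.log_rpow (by norm_num), hlogW, ← hLdef]
      have him' : (i : ℝ) ≤ m := by exact_mod_cast him.le
      have h5 : (n : ℝ) * L ≤ m * L := by nlinarith
      nlinarith
    exact le_of_mul_le_mul_left (e2.trans e3) hW0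

end Pool.Agent.BCD
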