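import Pool.Agent.Work.MP_bc8e1e_an.D.Count
import Pool.Agent.Work.MP_bc8e1e_an.D.C4c

/-!
# Absolute continuity from two kinds of good scales
-/

set_option autoImplicit false

open MeasureTheory Filter

namespace Pool.Agent.BCD

namespace VC

open C4b

/-- the entropy sum at one scale, blocks of length `M`, depth `C₁ m`. -/
lemma per_scale' {lam ε θ : ℝ} {C₁ q r K m m' M : ℕ} (hlam : 2 / 3 < lam) (hlam1 : lam < 1)
    (hε : 0 < ε) (hε1 : ε ≤ 1) (hθ : θ = Real.log (1 / lam)) (hθε : θ * (1 + M) ≤ ε * Real.log 2 / 8 * m)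
    (hC : 1 ≤ C₁) (hq : 64 * C₁ / ε ≤ q) (hr : Real.log 2 / θ ≤ r)
    (hr' : lam⁻¹ ^ r ≤ 3) (hm : m = q * m')
    (hmK : C₁ * m ≤ K) (hm4 : 4 ≤ m) (hN6 : 6 ≤ Real.log 2 / θ)
    (hrN : (r : ℝ) ≤ Real.log 2 / θ + 1)
    (hm0 : Real.log (194 / (1 - lam)) ≤ ε / 8 * m * Real.log 2)
    (hJ : Jc lam M ((2 : ℝ) ^ (-((C₁ : ℝ) * m))) ≤ (2 : ℝ) ^ (-(ε * m))) :
    3 / 10 * (r * ε * m) ≤ 4 * Real.log (800 * C₁ / ε) *
      ∑ p ∈ Finset.Ico ⌊Real.log 2 / θ * (K - C₁ * m)⌋₊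
          (⌊Real.log 2 / θ * (K - C₁ * m')⌋₊ - M),
        Gs (Xs lam M) (lam⁻¹ ^ r) (lam⁻¹ ^ p / (96 * 2 ^ K)) := by
  have hlam0 : 0 < lam := by linarith
  have hl2 : 0.6931471803 < Real.log 2 := Real.log_two_gt_d9
  have hl2' : Real.log 2 < 0.6931471808 := Real.log_two_lt_d9
  have hl20 : 0 < Real.log 2 := by linarith
  have hθ0 : 0 < θ := by
    rw [hθ]; exact Real.log_pos (by rw [lt_div_iff₀ hlam0]; linarith)
  set Np : ℝ := Real.log 2 / θ with hNp
  have hNpθ : Np * θ = Real.log 2 := by rw [hNp]; field_simp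
  have hC' : (1 : ℝ) ≤ C₁ := by exact_mod_cast hC
  have hm4' : (4 : ℝ) ≤ m := by exact_mod_cast hm4
  have hm' : (m : ℝ) = q * m' := by rw [hm]; push_cast; ring
  have hK' : (C₁ : ℝ) * m ≤ K := by exact_mod_cast hmK
  have hm'0 : (0 : ℝ) ≤ m' := Nat.cast_nonneg _
  have hCm' : (C₁ : ℝ) * m' ≤ ε * m / 64 := by
    have h1 : 64 * (C₁ : ℝ) ≤ q * ε := by
      rwa [div_le_iff₀ hε] at hq
    have h2 : 64 * (C₁ : ℝ) * m' ≤ q * ε * m' := mul_le_mul_of_nonneg_right h1 hm'0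
    rw [hm']
    linarith
  have hCm'2 : (C₁ : ℝ) * m' ≤ C₁ * m / 64 := by
    have : ε * m ≤ C₁ * m := mul_le_mul_of_nonneg_right (hε1.trans hC') (by linarith)
    linarith
  have hpos1 : 0 ≤ Np * (K - C₁ * m) := mul_nonneg (by linarith) (by linarith)
  have hpos2 : 0 ≤ Np * (K - C₁ * m') := mul_nonneg (by linarith)
    (by linarith [mul_nonneg (by linarith : (0:ℝ) ≤ C₁) (by linarith : (0:ℝ) ≤ m)])
  set a := ⌊Np * (K - C₁ * m)⌋₊ with ha
  set a' := ⌊Np * (K - C₁ * m')⌋₊ with ha'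
  have a1 : (a : ℝ) ≤ Np * (K - C₁ * m) := Nat.floor_le hpos1
  have a2 : Np * (K - C₁ * m) < a + 1 := Nat.lt_floor_add_one _
  have a3 : (a' : ℝ) ≤ Np * (K - C₁ * m') := Nat.floor_le hpos2
  have a4 : Np * (K - C₁ * m') < a' + 1 := Nat.lt_floor_add_one _
  have hdiff : Np * (K - C₁ * m') - Np * (K - C₁ * m) = Np * (C₁ * m - C₁ * m') := by ring
  have hgap : (a : ℝ) + r + M ≤ a' := by
    have h1 : Np * (C₁ * m * (63 / 64)) ≤ Np * (C₁ * m - C₁ * m') :=
      mul_le_mul_of_nonneg_left (by linarith) (by linarith)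
    have h2 : (m : ℝ) ≤ C₁ * m := by nlinarith
    have h3 : Np * (m * (63 / 64)) ≤ Np * (C₁ * m * (63 / 64)) :=
      mul_le_mul_of_nonneg_left (by linarith) (by linarith)
    have h4 : 0 ≤ (Np - 6) * (m - 4) := mul_nonneg (by linarith) (by linarith)
    have h5 : Np * (m * (63 / 64)) = 63 / 64 * (Np * m) := by ring
    have h6 : (Np - 6) * (m - 4) = Np * m - 4 * Np - 6 * m + 24 := by ring
    have h7 : (1 + M : ℝ) ≤ Np * m / 8 := by
      have h8 : θ * (1 + M) ≤ θ * (Np * m / 8) := by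
        calc θ * (1 + M) ≤ ε * Real.log 2 / 8 * m := hθε
          _ ≤ 1 * Real.log 2 / 8 * m := by
            apply mul_le_mul_of_nonneg_right _ (by linarith)
            apply div_le_div_of_nonneg_right _ (by norm_num)
            exact mul_le_mul_of_nonneg_right hε1 hl20.le
          _ = θ * (Np * m / 8) := by rw [← hNpθ]; ring
      exact le_of_mul_le_mul_left h8 hθ0
    have h9 : 0 ≤ (Np - 6) * m := mul_nonneg (by linarith) (by linarith)
    have h10 : (Np - 6) * m = Np * m - 6 * m := by ring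
    linarith
  have hgap' : a + r + M ≤ a' := by exact_mod_cast hgap
  set b := a' - M with hb
  have hbR : (b : ℝ) = a' - M := by
    rw [hb, Nat.cast_sub (by omega)]
  have hab : a + r ≤ b := by omega
  -- exponentials
  have hexp : ∀ p : ℕ, lam⁻¹ ^ p = Real.exp (θ * p) := by
    intro p
    rw [hθ, one_div, mul_comm, ← Real.log_pow, Real.exp_log (by positivity)]
  have h2K : (2 : ℝ) ^ K = Real.exp (Real.log 2 * K) := by
    rw [mul_comm, ← Real.log_pow, Real.exp_log (by positivity)]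
  set σ : ℝ := 1 / (96 * 2 ^ K) with hσ
  have hσ0 : 0 < σ := by positivity
  have hδ : σ * lam⁻¹ ^ (a + r) ≤ (2 : ℝ) ^ (-((C₁ : ℝ) * m)) := by
    rw [pow_add, Real.rpow_def_of_pos (by norm_num), hexp a]
    have h1 : Real.exp (θ * a) ≤ Real.exp (Real.log 2 * K) *
        Real.exp (Real.log 2 * -((C₁ : ℝ) * m)) := by
      rw [← Real.exp_add]
      apply Real.exp_le_exp.2
      calc θ * a ≤ θ * (Np * (K - C₁ * m)) := mul_le_mul_of_nonneg_left a1 hθ0.le
        _ = (Np * θ) * (K - C₁ * m) := by ring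
        _ = _ := by rw [hNpθ]; ring
    rw [hσ, h2K]
    have hE := Real.exp_pos (Real.log 2 * K)
    have hE2 := Real.exp_pos (Real.log 2 * -((C₁ : ℝ) * m))
    have h3 : Real.exp (θ * a) * lam⁻¹ ^ r ≤
        Real.exp (Real.log 2 * K) * Real.exp (Real.log 2 * -((C₁ : ℝ) * m)) * 3 :=
      mul_le_mul h1 hr' (by positivity) (by positivity)
    calc 1 / (96 * Real.exp (Real.log 2 * K)) * (Real.exp (θ * a) * lam⁻¹ ^ r)
        ≤ 1 / (96 * Real.exp (Real.log 2 * K)) * (Real.exp (Real.log 2 * K) *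
          Real.exp (Real.log 2 * -((C₁ : ℝ) * m)) * 3) :=
          mul_le_mul_of_nonneg_left h3 (by positivity)
      _ = Real.exp (Real.log 2 * -((C₁ : ℝ) * m)) / 32 := by field_simp; norm_num
      _ ≤ Real.exp (Real.log 2 * -((C₁ : ℝ) * m)) := by linarith
  set x : ℝ := ε / (800 * C₁) with hx
  have hx0 : 0 < x := by positivity
  have hx1 : x ≤ 1 / 800 := by
    rw [hx, div_le_div_iff₀ (by positivity) (by norm_num)]
    nlinarith
  have hκlog : Real.log (1 / x ^ 2) = 2 * Real.log (800 * C₁ / ε) := by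
    have : (1 : ℝ) / x ^ 2 = (800 * C₁ / ε) ^ 2 := by
      rw [hx]; field_simp
    rw [this, Real.log_pow]; push_cast; ring
  have hJ2 : (∑ w, nb (Xs lam M) ((2 : ℝ) ^ (-((C₁ : ℝ) * m))) w) /
      (Fintype.card (Fin M → Bool) : ℝ) ^ 2 ≤ Real.exp (-(ε * m * Real.log 2)) := by
    rw [← Jc_eq]
    refine hJ.trans (le_of_eq ?_)
    rw [Real.rpow_def_of_pos (by norm_num)]
    congr 1; ring
  have hmain := entropy_sum (Xs lam M) (N := 1 / (1 - lam))
    (by rw [le_div_iff₀ (by linarith)]; linarith) (Xs_abs_le hlam0 hlam1 M)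
    hlam0 hlam1 r a b hr' hσ0 hab hδ hJ2 (κ := x ^ 2) (by positivity) (by nlinarith)
  rw [hκlog] at hmain
  -- the logarithm
  have hN0 : 1 ≤ 1 / (1 - lam) := by rw [le_div_iff₀ (by linarith)]; linarith
  have hlogle : Real.log (2 * (1 / (1 - lam)) / (σ * lam⁻¹ ^ b) + 2) ≤
      3 / 10 * (ε * m * Real.log 2) := by
    have h1 : Real.exp (Real.log 2 * K) * Real.exp (-(Real.log 2 * (C₁ * m') + θ * (1 + M))) ≤
        Real.exp (θ * b) := by
      rw [← Real.exp_add]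
      apply Real.exp_le_exp.2
      have h2 : θ * (Np * (K - C₁ * m') - 1 - M) ≤ θ * b := by
        apply mul_le_mul_of_nonneg_left _ hθ0.le
        rw [hbR]; linarith
      have h3 : θ * (Np * (K - C₁ * m') - 1 - M) =
          (Np * θ) * (K - C₁ * m') - θ * (1 + M) := by ring
      rw [h3, hNpθ] at h2
      linarith
    set y := Real.log 2 * (C₁ * m') + θ * (1 + M) with hy
    have hy0 : 0 ≤ y := by positivity
    have h4 : Real.exp (-y) / 96 ≤ σ * lam⁻¹ ^ b := by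
      rw [hσ, hexp b, h2K]
      calc Real.exp (-y) / 96 = 1 / (96 * Real.exp (Real.log 2 * K)) *
            (Real.exp (Real.log 2 * K) * Real.exp (-y)) := by field_simp
        _ ≤ _ := mul_le_mul_of_nonneg_left h1 (by positivity)
    have h5 : 2 * (1 / (1 - lam)) / (σ * lam⁻¹ ^ b) ≤ 192 * (1 / (1 - lam)) * Real.exp y := by
      calc 2 * (1 / (1 - lam)) / (σ * lam⁻¹ ^ b) ≤ 2 * (1 / (1 - lam)) / (Real.exp (-y) / 96) :=
            div_le_div_of_nonneg_left (by linarith) (by positivity) h4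
        _ = _ := by rw [Real.exp_neg]; field_simp; norm_num
    have h6 : 2 * (1 / (1 - lam)) / (σ * lam⁻¹ ^ b) + 2 ≤ 194 / (1 - lam) * Real.exp y := by
      have h7 : 1 ≤ Real.exp y := Real.one_le_exp hy0
      have h8 : (1 : ℝ) ≤ 1 / (1 - lam) * Real.exp y := by nlinarith
      have h9 : 194 / (1 - lam) * Real.exp y = 192 * (1 / (1 - lam)) * Real.exp y +
        2 * (1 / (1 - lam) * Real.exp y) := by ring
      rw [h9]; linarith
    have h10 : Real.log (2 * (1 / (1 - lam)) / (σ * lam⁻¹ ^ b) + 2) ≤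
        Real.log (194 / (1 - lam)) + y := by
      have h11 := Real.log_le_log (by positivity) h6
      rw [Real.log_mul (by
        have : 0 < 1 - lam := by linarith
        positivity) (Real.exp_pos _).ne', Real.log_exp] at h11
      exact h11
    refine h10.trans ?_
    have h12 : θ * (1 + M) ≤ ε * Real.log 2 / 16 * (2 * m) := by linarith
    have h13 : Real.log 2 * (C₁ * m') ≤ Real.log 2 * (ε * m / 64) :=
      mul_le_mul_of_nonneg_left hCm' hl20.le
    have h14 : 0 ≤ ε * m * Real.log 2 := by positivity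
    rw [hy]
    linarith
  have hba : ((b : ℝ) - a) ≤ 2 * (r * (C₁ * m)) := by
    have h1 : (b : ℝ) - a ≤ Np * (C₁ * m - C₁ * m') + 1 := by
      rw [hbR]; linarith
    have h2 : Np * (C₁ * m - C₁ * m') ≤ r * (C₁ * m) := by
      apply mul_le_mul hr _ _ (by linarith)
      · have : 0 ≤ (C₁ : ℝ) * m' := by positivity
        linarith
      · have : (C₁ : ℝ) * m' ≤ C₁ * m / 64 := hCm'2
        have : 0 ≤ (C₁ : ℝ) * m := by positivity
        linarith
    have h3 : (1 : ℝ) ≤ r * (C₁ * m) := by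
      have h4 : (6 : ℝ) ≤ r := by linarith
      have h5 : (4 : ℝ) ≤ C₁ * m := by nlinarith
      nlinarith
    linarith
  have hkl : 14 * x ^ 2 * (2 * Real.log (800 * C₁ / ε)) ≤ 14 * x := by
    have := mul_log_le hx0
    rw [hκlog] at this
    linarith
  have herr : ((b : ℝ) - a) * (14 * x ^ 2 * (2 * Real.log (800 * C₁ / ε))) ≤
      35 / 1000 * (r * ε * m) := by
    have h0 : 0 ≤ (b : ℝ) - a := by
      have : (a : ℝ) ≤ b := by exact_mod_cast (by omega : a ≤ b)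
      linarith
    calc ((b : ℝ) - a) * (14 * x ^ 2 * (2 * Real.log (800 * C₁ / ε)))
        ≤ ((b : ℝ) - a) * (14 * x) := mul_le_mul_of_nonneg_left hkl h0
      _ ≤ 2 * (r * (C₁ * m)) * (14 * x) := mul_le_mul_of_nonneg_right hba (by positivity)
      _ = 35 / 1000 * (r * ε * m) := by rw [hx]; field_simp; ring
  have hfirst : 48 / 100 * (r * ε * m) ≤ r * (ε * m * Real.log 2 -
      Real.log (2 * (1 / (1 - lam)) / (σ * lam⁻¹ ^ b) + 2)) := by
    have h1 : 48 / 100 * (ε * m) ≤ ε * m * Real.log 2 -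
      Real.log (2 * (1 / (1 - lam)) / (σ * lam⁻¹ ^ b) + 2) := by
      have : 0 ≤ ε * m := by positivity
      have h3 : 0.6931471803 * (ε * m) ≤ Real.log 2 * (ε * m) :=
        mul_le_mul_of_nonneg_right hl2.le this
      linarith
    have h2 := mul_le_mul_of_nonneg_left h1 (Nat.cast_nonneg (α := ℝ) r)
    linarith
  have hcongr : ∑ p ∈ Finset.Ico a b, Gs (Xs lam M) (lam⁻¹ ^ r) (lam⁻¹ ^ p / (96 * 2 ^ K)) =
      ∑ p ∈ Finset.Ico a b, Gs (Xs lam M) (lam⁻¹ ^ r) (σ * lam⁻¹ ^ p) := by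
    refine Finset.sum_congr rfl fun p _ => ?_
    congr 1
    rw [hσ]; ring
  rw [hcongr]
  have h0 : 0 ≤ (r : ℝ) * ε * m := by positivity
  linarith


/-- choice of disjoint blocks. -/
lemma assemble {lam g : ℝ} {n₁ n₂ K r : ℕ} (len A : ℕ → ℕ) (hlen : ∀ n, 0 < len n)
    (hAanti : ∀ n n', n ≤ n' → A n' ≤ A n)
    (hsum : ∀ n : ℕ, n₁ ≤ n → n ≤ n₂ → g * len n ≤ ∑ p ∈ Finset.Ico (A n) (A (n - 1) - len n),
        Gs (Xs lam (len n)) (lam⁻¹ ^ r) (lam⁻¹ ^ p / (96 * 2 ^ K))) (hn12 : n₁ ≤ n₂ + 1) :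
    ∃ (ι : Type) (_ : Fintype ι) (_ : DecidableEq ι) (pos len' : ι → ℕ),
      (∀ b b', b ≠ b' → Disjoint (Finset.Ico (pos b) (pos b + len' b))
        (Finset.Ico (pos b') (pos b' + len' b'))) ∧
      ((n₂ : ℝ) + 1 - n₁) * g ≤ ∑ b, Gs (Xs lam (len' b)) (lam⁻¹ ^ r)
        (lam⁻¹ ^ pos b / (96 * 2 ^ K)) := by
  have hres : ∀ n : ℕ, ∃ ρ : ℕ, n₁ ≤ n → n ≤ n₂ →
      g ≤ ∑ p ∈ (Finset.Ico (A n) (A (n - 1) - len n)).filter
        (fun p => p % len n = ρ), Gs (Xs lam (len n)) (lam⁻¹ ^ r) (lam⁻¹ ^ p / (96 * 2 ^ K)) := by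
    intro n
    obtain ⟨ρ, hρ⟩ := residue
      (fun p => Gs (Xs lam (len n)) (lam⁻¹ ^ r) (lam⁻¹ ^ p / (96 * 2 ^ K)))
      (Finset.Ico (A n) (A (n - 1) - len n)) (m := len n) (hlen n)
    refine ⟨ρ, fun h1 h2 => ?_⟩
    have hm0 : (0 : ℝ) < (len n : ℕ) := by exact_mod_cast hlen n
    have h3 := (hsum n h1 h2).trans hρ
    rw [mul_comm] at h3
    exact le_of_mul_le_mul_left h3 hm0
  choose ρ hρ using hres
  set S : Finset (Σ _ : ℕ, ℕ) := (Finset.Icc n₁ n₂).sigma fun n =>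
    (Finset.Ico (A n) (A (n - 1) - len n)).filter (fun p => p % len n = ρ n) with hS
  refine ⟨↥S, inferInstance, Classical.decEq _, fun x => x.1.2, fun x => len x.1.1, ?_, ?_⟩
  · rintro ⟨⟨n, p⟩, hx⟩ ⟨⟨n', p'⟩, hx'⟩ hne
    simp only [hS, Finset.mem_sigma, Finset.mem_Icc, Finset.mem_filter, Finset.mem_Ico] at hx hx'
    rw [Finset.disjoint_left]
    intro t ht ht'
    simp only [Finset.mem_Ico] at ht ht'
    obtain ⟨⟨g1, g2⟩, ⟨g3, g4⟩, g5⟩ := hx
    obtain ⟨⟨g1', g2'⟩, ⟨g3', g4'⟩, g5'⟩ := hx'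
    rcases lt_trichotomy n n' with hlt | heq | hgt
    · have h1 : A (n' - 1) ≤ A n := hAanti n (n' - 1) (by omega)
      have h2 : p' + len n' < A (n' - 1) := by omega
      omega
    · subst heq
      apply hne
      have h1 : p = p' := by
        have h2 : p % len n = p' % len n := by rw [g5, g5']
        rcases le_total p p' with hle | hle
        · have h3 := (Nat.modEq_iff_dvd' hle).1 h2
          obtain ⟨k, hk⟩ := h3
          rcases Nat.eq_zero_or_pos k with h0 | h0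
          · subst h0; omega
          · have : len n ≤ len n * k := Nat.le_mul_of_pos_right _ h0
            omega
        · have h3 := (Nat.modEq_iff_dvd' hle).1 h2.symm
          obtain ⟨k, hk⟩ := h3
          rcases Nat.eq_zero_or_pos k with h0 | h0
          · subst h0; omega
          · have : len n ≤ len n * k := Nat.le_mul_of_pos_right _ h0
            omega
      subst h1
      rfl
    · have h1 : A (n - 1) ≤ A n' := hAanti n' (n - 1) (by omega)
      have h2 : p + len n < A (n - 1) := by omega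
      omega
  · have hsum : (∑ b : ↥S, Gs (Xs lam (len b.1.1)) (lam⁻¹ ^ r) (lam⁻¹ ^ b.1.2 / (96 * 2 ^ K))) =
        ∑ n ∈ Finset.Icc n₁ n₂, ∑ p ∈ (Finset.Ico (A n) (A (n - 1) - len n)).filter
          (fun p => p % len n = ρ n), Gs (Xs lam (len n)) (lam⁻¹ ^ r)
            (lam⁻¹ ^ p / (96 * 2 ^ K)) := by
      rw [← Finset.sum_sigma (Finset.Icc n₁ n₂) (fun n =>
        (Finset.Ico (A n) (A (n - 1) - len n)).filter (fun p => p % len n = ρ n))
        (fun x : (Σ _ : ℕ, ℕ) => Gs (Xs lam (len x.1)) (lam⁻¹ ^ r)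
          (lam⁻¹ ^ x.2 / (96 * 2 ^ K)))]
      exact Finset.sum_coe_sort S (fun x : (Σ _ : ℕ, ℕ) => Gs (Xs lam (len x.1)) (lam⁻¹ ^ r)
          (lam⁻¹ ^ x.2 / (96 * 2 ^ K)))
    rw [hsum]
    have h1 : ∑ _n ∈ Finset.Icc n₁ n₂, g = ((n₂ : ℝ) + 1 - n₁) * g := by
      rw [Finset.sum_const, Nat.card_Icc, nsmul_eq_mul, Nat.cast_sub hn12]
      push_cast; ring
    rw [← h1]
    refine Finset.sum_le_sum fun n hn => ?_
    rw [Finset.mem_Icc] at hn
    exact hρ n hn.1 hn.2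

end VC

open C4b VC in
theorem count_V (c₄ : ℝ) (hc₄ : 0 < c₄) (C₁ : ℕ) (hC : 1 ≤ C₁) (c₁ : ℝ) (hc₁ : 0 < c₁)
    (hc₁1 : c₁ ≤ 1) :
    ∃ C₅ : ℝ, 1 ≤ C₅ ∧ ∀ ε : ℝ, 0 < ε → ε ≤ c₁ → ε ≤ 1 / 2 → ∀ lam : ℝ, lam < 1 →
      C₅ * (1 - lam) * Real.log (1 / ε) ^ 2 ≤ ε → ∀ ν : ℕ, 1 ≤ ν →
      C₅ * Real.log (1 / ε) * (1 - lam) * ν ≤ 1 → ∃ q : ℕ, 2 ≤ q ∧
      ((∃ n₀ : ℕ, ∀ n : ℕ, n₀ ≤ n →
        Jc lam (q ^ n) ((2 : ℝ) ^ (-((C₁ : ℝ) * (q ^ n : ℕ)))) ≤
            (2 : ℝ) ^ (-(ε * (q ^ n : ℕ))) ∨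
        Jc lam (ν * q ^ n) ((2 : ℝ) ^ (-((C₁ : ℝ) * (q ^ n : ℕ)))) ≤
            (2 : ℝ) ^ (-(c₁ * (q ^ n : ℕ)))) →
        ∃ r : ℕ, lam⁻¹ ^ r ≤ 3 ∧ ∃ K₀ : ℕ, ∀ K : ℕ, K₀ ≤ K →
          ∃ (ι : Type) (_ : Fintype ι) (_ : DecidableEq ι) (pos len : ι → ℕ),
            (∀ b b', b ≠ b' → Disjoint (Finset.Ico (pos b) (pos b + len b))
              (Finset.Ico (pos b') (pos b' + len b'))) ∧
            2 * Real.log K ≤ c₄ * ∑ b, Gs (Xs lam (len b)) (lam⁻¹ ^ r)
              (lam⁻¹ ^ pos b / (96 * 2 ^ K))) := by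
  have hl2 : 0.6931471803 < Real.log 2 := Real.log_two_gt_d9
  have hl2' : Real.log 2 < 0.6931471808 := Real.log_two_lt_d9
  have hC' : (1 : ℝ) ≤ C₁ := by exact_mod_cast hC
  set L₁ := Real.log (800 * C₁ / c₁) with hL₁
  have hL₁0 : 0 < L₁ := by
    apply Real.log_pos
    rw [lt_div_iff₀ hc₁]; linarith
  set β : ℝ := Real.log (800 * C₁) / Real.log 2 + 1 with hβ
  have hβ1 : 1 ≤ β := by
    have : 0 ≤ Real.log (800 * C₁) / Real.log 2 :=
      div_nonneg (Real.log_nonneg (by linarith)) (by linarith)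
    linarith
  have hβ0 : 0 < β := by linarith
  set C₅ : ℝ := 110 + β ^ 2 * 125 / c₄ + 120 * β * L₁ / (c₄ * c₁) + 100 / c₁ with hC₅
  have hC₅a : 0 ≤ β ^ 2 * 125 / c₄ := by positivity
  have hC₅b : 0 ≤ 120 * β * L₁ / (c₄ * c₁) := by positivity
  have hC₅c : 0 ≤ 100 / c₁ := by positivity
  have hC₅110 : 110 ≤ C₅ := by linarith
  refine ⟨C₅, by linarith, ?_⟩
  intro ε hε hεc hε2 lam hlam1 hu1 ν hν hu2
  set u := 1 - lam with hu
  have hupos : 0 < u := by linarith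
  set L := Real.log (1 / ε) with hL
  have hL2 : Real.log 2 ≤ L := by
    apply Real.log_le_log (by norm_num)
    rw [le_div_iff₀ hε]; linarith
  have hL0 : 0 < L := by linarith
  have hε1 : ε ≤ 1 := by linarith
  have hLsq : 0.48 ≤ L ^ 2 := by nlinarith
  have huε : u ≤ ε / 50 := by
    have h1 : 110 * u * 0.48 ≤ C₅ * u * L ^ 2 := by
      apply mul_le_mul _ hLsq (by norm_num) (by positivity)
      exact mul_le_mul_of_nonneg_right hC₅110 hupos.le
    linarith
  have hlam23 : 2 / 3 < lam := by linarith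
  have hlam0 : 0 < lam := by linarith
  set θ := Real.log (1 / lam) with hθ
  have hθ0 : 0 < θ := Real.log_pos (by rw [lt_div_iff₀ hlam0]; linarith)
  have hθu : θ ≤ 2 * u := by
    have h1 : Real.log (1 / lam) ≤ 1 / lam - 1 := Real.log_le_sub_one_of_pos (by positivity)
    have h2 : 1 / lam - 1 ≤ 2 * u := by
      rw [div_sub_one hlam0.ne', div_le_iff₀ hlam0]
      nlinarith
    exact h1.trans h2
  have hθε : θ ≤ ε * Real.log 2 / 16 := by nlinarith
  set Np : ℝ := Real.log 2 / θ with hNp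
  have hNpθ : θ * Np = Real.log 2 := by rw [hNp]; field_simp
  have hNpu : 3465 / 10000 / u ≤ Np := by
    rw [hNp, div_le_div_iff₀ hupos hθ0]
    nlinarith
  have hNp6 : 6 ≤ Np := by
    rw [hNp, le_div_iff₀ hθ0]
    nlinarith
  set q : ℕ := ⌈64 * (C₁ : ℝ) / ε⌉₊ with hq
  have hq1 : 64 * (C₁ : ℝ) / ε ≤ q := Nat.le_ceil _
  have hq1' : 64 * (C₁ : ℝ) / c₁ ≤ q := by
    refine le_trans ?_ hq1
    exact div_le_div_of_nonneg_left (by linarith) hε hεc
  have hq2 : (q : ℝ) < 64 * (C₁ : ℝ) / ε + 1 := Nat.ceil_lt_add_one (by positivity)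
  have hCε : 1 ≤ (C₁ : ℝ) / ε := by rw [le_div_iff₀ hε]; linarith
  have hq64 : (64 : ℝ) ≤ q := by
    refine le_trans ?_ hq1
    rw [mul_div_assoc]; linarith
  have hq800 : (q : ℝ) ≤ 800 * C₁ / ε := by
    rw [mul_div_assoc] at hq2 ⊢
    linarith
  have hqn : 64 ≤ q := by exact_mod_cast hq64
  refine ⟨q, by omega, ?_⟩
  rintro ⟨n₀, hn₀⟩
  set Λ := Real.log (800 * C₁ / ε) with hΛ
  have hΛpos : 0 < Λ := by
    apply Real.log_pos
    rw [mul_div_assoc]; linarith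
  have hlogq : Real.log q ≤ Λ := Real.log_le_log (by linarith) hq800
  have hlogqpos : 0 < Real.log q := Real.log_pos (by linarith)
  have hΛle : Λ ≤ β * L := by
    have h1 : Λ = Real.log (800 * C₁) + L := by
      rw [hΛ, hL, ← Real.log_mul (by linarith) (by positivity)]
      congr 1; ring
    have h2 : Real.log (800 * C₁) ≤ Real.log (800 * C₁) / Real.log 2 * L := by
      have h3 : 0 ≤ Real.log (800 * C₁) / Real.log 2 :=
        div_nonneg (Real.log_nonneg (by linarith)) (by linarith)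
      calc Real.log (800 * C₁) = Real.log (800 * C₁) / Real.log 2 * Real.log 2 := by
            rw [div_mul_cancel₀]; linarith
        _ ≤ _ := mul_le_mul_of_nonneg_left hL2 h3
    rw [h1, hβ]; linarith
  set r : ℕ := ⌈Np⌉₊ with hr
  have hr1 : Np ≤ r := Nat.le_ceil _
  have hr2 : (r : ℝ) < Np + 1 := Nat.ceil_lt_add_one (by linarith)
  have hexp : ∀ p : ℕ, lam⁻¹ ^ p = Real.exp (θ * p) := by
    intro p
    rw [hθ, one_div, mul_comm, ← Real.log_pow, Real.exp_log (by positivity)]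
  have hr3 : lam⁻¹ ^ r ≤ 3 := by
    rw [hexp]
    have h1 : θ * r ≤ Real.log 2 + Real.log (1 / lam) := by
      rw [← hNpθ, ← hθ]; nlinarith
    calc Real.exp (θ * r) ≤ Real.exp (Real.log 2 + Real.log (1 / lam)) := Real.exp_le_exp.2 h1
      _ = 2 * (1 / lam) := by
          rw [Real.exp_add, Real.exp_log (by norm_num), Real.exp_log (by positivity)]
      _ ≤ 3 := by
          rw [mul_one_div, div_le_iff₀ hlam0]; linarith
  refine ⟨r, hr3, ?_⟩
  -- the first scale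
  obtain ⟨n₁, hn₁⟩ : ∃ n₁ : ℕ, ∀ n, n₁ ≤ n → n₀ ≤ n ∧ 1 ≤ n ∧ 4 ≤ q ^ n ∧
      Real.log (194 / (1 - lam)) ≤ ε / 8 * (q ^ n : ℕ) * Real.log 2 := by
    have ht : Tendsto (fun n : ℕ => q ^ n) atTop atTop :=
      tendsto_pow_atTop_atTop_of_one_lt (by omega)
    have ht' : Tendsto (fun n : ℕ => ε / 8 * Real.log 2 * (q ^ n : ℕ)) atTop atTop := by
      apply Tendsto.const_mul_atTop (by positivity)
      exact tendsto_natCast_atTop_atTop.comp ht
    obtain ⟨n₁, h⟩ := ((eventually_ge_atTop n₀).and ((eventually_ge_atTop 1).and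
      ((ht.eventually (eventually_ge_atTop 4)).and
        (ht'.eventually (eventually_ge_atTop _))))).exists_forall_of_atTop
    refine ⟨n₁, fun n hn => ?_⟩
    obtain ⟨h1, h2, h3, h4⟩ := h n hn
    refine ⟨h1, h2, h3, h4.trans (le_of_eq (by ring))⟩
  obtain ⟨K₀, hK₀⟩ : ∃ K₀ : ℕ, ∀ K : ℕ, K₀ ≤ K → C₁ ≤ K ∧
      3 * (Real.log C₁ + n₁ * Real.log q) ≤ Real.log K := by
    have ht : Tendsto (fun K : ℕ => Real.log K) atTop atTop :=
      Real.tendsto_log_atTop.comp tendsto_natCast_atTop_atTop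
    obtain ⟨K₀, h⟩ := ((eventually_ge_atTop C₁).and
      (ht.eventually (eventually_ge_atTop
        (3 * (Real.log C₁ + n₁ * Real.log q))))).exists_forall_of_atTop
    exact ⟨K₀, fun K hK => h K hK⟩
  refine ⟨K₀, fun K hK => ?_⟩
  obtain ⟨hCK, hKlog⟩ := hK₀ K hK
  set n₂ := Nat.log q (K / C₁) with hn₂
  have hdivpos : K / C₁ ≠ 0 := by
    rw [Nat.div_ne_zero_iff]; omega
  have hpow : ∀ n, n ≤ n₂ → C₁ * q ^ n ≤ K := by
    intro n hn
    have h1 : q ^ n ≤ K / C₁ :=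
      (Nat.pow_le_pow_right (by omega) hn).trans (Nat.pow_log_le_self q hdivpos)
    calc C₁ * q ^ n ≤ C₁ * (K / C₁) := Nat.mul_le_mul_left _ h1
      _ ≤ K := Nat.mul_div_le K C₁
  have hKup : Real.log K ≤ Real.log C₁ + (n₂ + 1) * Real.log q := by
    have h1 : K / C₁ < q ^ (n₂ + 1) := Nat.lt_pow_succ_log_self (by omega) _
    have h2 : K < C₁ * q ^ (n₂ + 1) := by
      have h3 := Nat.lt_mul_div_succ K (by omega : 0 < C₁)
      calc K < C₁ * (K / C₁ + 1) := h3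
        _ ≤ C₁ * q ^ (n₂ + 1) := Nat.mul_le_mul_left _ h1
    have h4 : (K : ℝ) ≤ C₁ * (q : ℝ) ^ (n₂ + 1) := by exact_mod_cast h2.le
    have hKpos : (0 : ℝ) < K := by
      have : (C₁ : ℝ) ≤ K := by exact_mod_cast hCK
      linarith
    have h5 := Real.log_le_log hKpos h4
    rw [Real.log_mul (by linarith) (by positivity), Real.log_pow] at h5
    push_cast at h5
    exact h5
  -- the regions
  set A : ℕ → ℕ := fun n => ⌊Np * (K - C₁ * (q ^ n : ℕ))⌋₊ with hA
  have hAanti : ∀ n n', n ≤ n' → A n' ≤ A n := by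
    intro n n' hnn
    apply Nat.floor_le_floor
    apply mul_le_mul_of_nonneg_left _ (by linarith)
    have : (C₁ : ℝ) * (q ^ n : ℕ) ≤ C₁ * (q ^ n' : ℕ) := by
      apply mul_le_mul_of_nonneg_left _ (by linarith)
      exact_mod_cast Nat.pow_le_pow_right (by omega) hnn
    linarith
  have hn12 : (n₁ : ℝ) ≤ n₂ + 1 := by
    have h0 : 0 ≤ Real.log C₁ := Real.log_nonneg hC'
    have h1 : 0 ≤ n₁ * Real.log q := by positivity
    have h2 : n₁ * Real.log q ≤ (n₂ + 1) * Real.log q := by linarith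
    exact le_of_mul_le_mul_right h2 hlogqpos
  have hn12' : n₁ ≤ n₂ + 1 := by exact_mod_cast hn12
  classical
  set good : ℕ → Prop := fun n => Jc lam (q ^ n) ((2 : ℝ) ^ (-((C₁ : ℝ) * (q ^ n : ℕ)))) ≤
            (2 : ℝ) ^ (-(ε * (q ^ n : ℕ))) with hgood
  set len : ℕ → ℕ := fun n => if good n then q ^ n else ν * q ^ n with hlen
  have hqpos : ∀ n, 0 < q ^ n := fun n => by positivity
  have hlen0 : ∀ n, 0 < len n := by
    intro n
    simp only [hlen]
    split_ifs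
    · exact hqpos n
    · exact Nat.mul_pos hν (hqpos n)
  set g : ℝ := 3 * Λ / c₄ with hg
  have hr0 : 0 < (r : ℝ) := by linarith
  have hν' : (1 : ℝ) ≤ ν := by exact_mod_cast hν
  -- short blocks
  have hgi : g * (4 * Λ) ≤ 3 / 10 * (r * ε) := by
    have h1 : u * Λ ^ 2 ≤ c₄ * ε / 125 := by
      have h2 : Λ ^ 2 ≤ β ^ 2 * L ^ 2 := by
        rw [← mul_pow]; exact pow_le_pow_left₀ hΛpos.le hΛle 2
      have h3 : β ^ 2 * 125 / c₄ * (u * L ^ 2) ≤ ε := by
        calc β ^ 2 * 125 / c₄ * (u * L ^ 2) ≤ C₅ * (u * L ^ 2) :=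
              mul_le_mul_of_nonneg_right (by linarith) (by positivity)
          _ = C₅ * u * L ^ 2 := by ring
          _ ≤ ε := hu1
      have h4 : u * (β ^ 2 * L ^ 2) ≤ c₄ * ε / 125 := by
        have h5 : u * (β ^ 2 * L ^ 2) = (β ^ 2 * 125 / c₄ * (u * L ^ 2)) * c₄ / 125 := by
          field_simp
        rw [h5]
        have := mul_le_mul_of_nonneg_right h3 hc₄.le
        linarith
      exact (mul_le_mul_of_nonneg_left h2 hupos.le).trans h4
    have h2 : 3465 / 10000 / u * ε ≤ r * ε :=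
      mul_le_mul_of_nonneg_right (hNpu.trans hr1) hε.le
    have h3 : Λ ^ 2 ≤ c₄ * ε / 125 / u := by
      rw [le_div_iff₀ hupos]; linarith
    calc g * (4 * Λ) = 12 * Λ ^ 2 / c₄ := by rw [hg]; ring
      _ ≤ 12 * (c₄ * ε / 125 / u) / c₄ := by
          apply div_le_div_of_nonneg_right _ hc₄.le; linarith
      _ = 3 / 10 * (32 / 100 / u * ε) := by field_simp; norm_num
      _ ≤ 3 / 10 * (3465 / 10000 / u * ε) := by
          have : 0 ≤ ε / u := by positivity
          have h5 : 3465 / 10000 / u * ε = 3465 / 10000 * (ε / u) := by ring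
          have h6 : 32 / 100 / u * ε = 32 / 100 * (ε / u) := by ring
          rw [h5, h6]; linarith
      _ ≤ 3 / 10 * (r * ε) := by linarith
  -- long blocks
  have hgii : g * (4 * L₁) * ν ≤ 3 / 10 * (r * c₁) := by
    have h1 : (ν : ℝ) * u * L ≤ 1 / C₅ := by
      rw [le_div_iff₀ (by linarith)]; linarith
    have h2 : 120 * β * L₁ / (c₄ * c₁) * (ν * u * L) ≤ 1 := by
      calc 120 * β * L₁ / (c₄ * c₁) * (ν * u * L) ≤ C₅ * (ν * u * L) :=
            mul_le_mul_of_nonneg_right (by linarith) (by positivity)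
        _ ≤ C₅ * (1 / C₅) := mul_le_mul_of_nonneg_left h1 (by linarith)
        _ = 1 := by field_simp
    have h3 : 120 * β * L₁ * (ν * u * L) ≤ c₄ * c₁ := by
      have h4 : 120 * β * L₁ * (ν * u * L) =
          (120 * β * L₁ / (c₄ * c₁) * (ν * u * L)) * (c₄ * c₁) := by field_simp
      rw [h4]
      calc _ ≤ 1 * (c₄ * c₁) := mul_le_mul_of_nonneg_right h2 (by positivity)
        _ = _ := one_mul _
    have h5 : 120 * Λ * L₁ * ν * u ≤ c₄ * c₁ := by
      refine le_trans ?_ h3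
      have : Λ * (120 * L₁ * ν * u) ≤ β * L * (120 * L₁ * ν * u) :=
        mul_le_mul_of_nonneg_right hΛle (by positivity)
      linarith
    have h6 : 120 * Λ * L₁ * ν ≤ c₄ * c₁ / u := by
      rw [le_div_iff₀ hupos]; exact h5
    calc g * (4 * L₁) * ν = (120 * Λ * L₁ * ν) / (10 * c₄) := by
          rw [hg]; field_simp; ring
      _ ≤ (c₄ * c₁ / u) / (10 * c₄) := div_le_div_of_nonneg_right h6 (by positivity)
      _ = 1 / 10 * (1 / u * c₁) := by field_simp
      _ ≤ 3 / 10 * (3465 / 10000 / u * c₁) := by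
          have : 0 ≤ c₁ / u := by positivity
          have h7 : 3465 / 10000 / u * c₁ = 3465 / 10000 * (c₁ / u) := by ring
          have h8 : 1 / u * c₁ = c₁ / u := by ring
          rw [h7, h8]; linarith
      _ ≤ 3 / 10 * (r * c₁) := by
          have := mul_le_mul_of_nonneg_right (hNpu.trans hr1) hc₁.le
          linarith
  have hlev : ∀ n : ℕ, n₁ ≤ n → n ≤ n₂ →
      g * len n ≤ ∑ p ∈ Finset.Ico (A n) (A (n - 1) - len n),
        Gs (Xs lam (len n)) (lam⁻¹ ^ r) (lam⁻¹ ^ p / (96 * 2 ^ K)) := by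
    intro n h1 h2
    obtain ⟨e1, e2, e3, e4⟩ := hn₁ n h1
    have hm4 : (4 : ℝ) ≤ (q ^ n : ℕ) := by exact_mod_cast e3
    have hm0 : (0 : ℝ) < (q ^ n : ℕ) := by linarith
    by_cases hgn : good n
    · have hl : len n = q ^ n := by simp only [hlen]; rw [if_pos hgn]
      rw [hl]
      have hps := per_scale' (m := q ^ n) (m' := q ^ (n - 1)) (M := q ^ n) hlam23 hlam1 hε hε1 hθ
        (by
          calc θ * (1 + (q ^ n : ℕ)) ≤ ε * Real.log 2 / 16 * (2 * (q ^ n : ℕ)) := by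
                apply mul_le_mul hθε (by linarith) (by linarith) (by positivity)
            _ = _ := by ring)
        hC hq1 hr1 hr3 (by rw [← pow_succ']; congr 1; omega) (hpow n h2) e3 hNp6 hr2.le e4 hgn
      have h3 : (4 * Λ) * (g * (q ^ n : ℕ)) ≤ (4 * Λ) *
          ∑ p ∈ Finset.Ico (A n) (A (n - 1) - q ^ n), Gs (Xs lam (q ^ n)) (lam⁻¹ ^ r)
            (lam⁻¹ ^ p / (96 * 2 ^ K)) := by
        refine le_trans ?_ hps
        calc (4 * Λ) * (g * (q ^ n : ℕ)) = g * (4 * Λ) * (q ^ n : ℕ) := by ring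
          _ ≤ 3 / 10 * (r * ε) * (q ^ n : ℕ) := mul_le_mul_of_nonneg_right hgi hm0.le
          _ = _ := by ring
      exact le_of_mul_le_mul_left h3 (by linarith)
    · have hl : len n = ν * q ^ n := by simp only [hlen]; rw [if_neg hgn]
      rw [hl]
      have hJ := (hn₀ n e1).resolve_left hgn
      have hps := per_scale' (m := q ^ n) (m' := q ^ (n - 1)) (M := ν * q ^ n) hlam23 hlam1 hc₁ hc₁1
        hθ
        (by
          have h3 : θ ≤ c₁ * Real.log 2 / 16 := by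
            refine hθε.trans ?_
            apply div_le_div_of_nonneg_right _ (by norm_num)
            exact mul_le_mul_of_nonneg_right hεc (by linarith)
          have h4 : θ * ν ≤ c₁ * Real.log 2 / 16 := by
            have h5 : (ν : ℝ) * u * L ≤ c₁ / 100 := by
              have h6 : 100 / c₁ * (ν * u * L) ≤ 1 := by
                calc 100 / c₁ * (ν * u * L) ≤ C₅ * (ν * u * L) :=
                      mul_le_mul_of_nonneg_right (by linarith) (by positivity)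
                  _ = C₅ * L * u * ν := by ring
                  _ ≤ 1 := hu2
              rw [div_mul_eq_mul_div, div_le_iff₀ hc₁] at h6
              linarith
            have h7 : (ν : ℝ) * u * 0.69 ≤ ν * u * L :=
              mul_le_mul_of_nonneg_left (by linarith) (by positivity)
            have h8 : θ * ν ≤ 2 * u * ν := mul_le_mul_of_nonneg_right hθu (by linarith)
            nlinarith
          push_cast
          have h9 : θ * (1 + ν * (q : ℝ) ^ n) = θ + θ * ν * (q : ℝ) ^ n := by ring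
          have hm0' : (0 : ℝ) < (q : ℝ) ^ n := by exact_mod_cast hm0
          have hm4' : (4 : ℝ) ≤ (q : ℝ) ^ n := by exact_mod_cast hm4
          have h10 : θ * ν * (q : ℝ) ^ n ≤ c₁ * Real.log 2 / 16 * (q : ℝ) ^ n :=
            mul_le_mul_of_nonneg_right h4 hm0'.le
          have h11 : c₁ * Real.log 2 / 16 * 1 ≤ c₁ * Real.log 2 / 16 * (q : ℝ) ^ n :=
            mul_le_mul_of_nonneg_left (by linarith) (by positivity)
          rw [h9]
          linarith)
        hC hq1' hr1 hr3 (by rw [← pow_succ']; congr 1; omega) (hpow n h2) e3 hNp6 hr2.le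
        (e4.trans (by
          apply mul_le_mul_of_nonneg_right _ (by linarith)
          apply mul_le_mul_of_nonneg_right _ hm0.le
          linarith)) hJ
      have h3 : (4 * L₁) * (g * (ν * q ^ n : ℕ)) ≤ (4 * L₁) *
          ∑ p ∈ Finset.Ico (A n) (A (n - 1) - ν * q ^ n), Gs (Xs lam (ν * q ^ n)) (lam⁻¹ ^ r)
            (lam⁻¹ ^ p / (96 * 2 ^ K)) := by
        refine le_trans ?_ hps
        calc (4 * L₁) * (g * (ν * q ^ n : ℕ)) = g * (4 * L₁) * ν * (q ^ n : ℕ) := by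
              push_cast; ring
          _ ≤ 3 / 10 * (r * c₁) * (q ^ n : ℕ) := mul_le_mul_of_nonneg_right hgii hm0.le
          _ = _ := by ring
      exact le_of_mul_le_mul_left h3 (by linarith)
  obtain ⟨ι, i1, i2, pos, len', hdisj, hsum⟩ := assemble len A hlen0 hAanti hlev hn12'
  refine ⟨ι, i1, i2, pos, len', hdisj, ?_⟩
  have hcg : c₄ * g = 3 * Λ := by rw [hg]; field_simp
  have h8 := mul_le_mul_of_nonneg_left hsum hc₄.le
  have h9 : c₄ * (((n₂ : ℝ) + 1 - n₁) * g) = 3 * Λ * ((n₂ : ℝ) + 1 - n₁) := by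
    rw [← hcg]; ring
  have h10 : 3 * Real.log q * ((n₂ : ℝ) + 1 - n₁) ≤ 3 * Λ * ((n₂ : ℝ) + 1 - n₁) :=
    mul_le_mul_of_nonneg_right (by linarith) (by linarith)
  linarith

/-- absolute continuity from two kinds of good scales. -/
theorem ac_of_good_V (C₂ : ℕ) (hC₂ : 1 ≤ C₂) (c₁ : ℝ) (hc₁ : 0 < c₁) (hc₁' : c₁ ≤ 1) :
    ∃ C₅ : ℝ, 1 ≤ C₅ ∧ ∀ ε : ℝ, 0 < ε → ε ≤ c₁ → ε ≤ 1 / 2 → ∀ lam : ℝ, lam < 1 →
      C₅ * (1 - lam) * Real.log (1 / ε) ^ 2 ≤ ε → ∀ ν : ℕ, 1 ≤ ν →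
      C₅ * Real.log (1 / ε) * (1 - lam) * ν ≤ 1 → ∃ q : ℕ, 2 ≤ q ∧
      ((∃ n₀ : ℕ, ∀ n : ℕ, n₀ ≤ n →
        Jc lam (q ^ n) ((2 : ℝ) ^ (-((C₂ : ℝ) * (q ^ n : ℕ)))) ≤
            (2 : ℝ) ^ (-(ε * (q ^ n : ℕ))) ∨
        Jc lam (ν * q ^ n) ((2 : ℝ) ^ (-((C₂ : ℝ) * (q ^ n : ℕ)))) ≤
            (2 : ℝ) ^ (-(c₁ * (q ^ n : ℕ)))) →
        ∀ μ : Measure ℝ, IsProbabilityMeasure μ →
          μ = (1/2 : ENNReal) • μ.map (fun x : ℝ => lam * x + 1)
            + (1/2 : ENNReal) • μ.map (fun x : ℝ => lam * x - 1) →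
          μ ≪ (volume : Measure ℝ)) := by
  obtain ⟨C, hC, c₄, hc₄, hbb⟩ := block_bound
  obtain ⟨C', hC'⟩ := conv_fK_le
  obtain ⟨C₅, hC₅, hcount⟩ := count_V c₄ hc₄ C₂ hC₂ c₁ hc₁ hc₁'
  refine ⟨max C₅ 100, le_trans hC₅ (le_max_left _ _), ?_⟩
  intro ε hε hεc hε2 lam hlam1 hu1 ν hν hu2
  have hu : 0 < 1 - lam := by linarith
  have hL : 0 < Real.log (1 / ε) := Real.log_pos (by rw [lt_div_iff₀ hε]; linarith)
  have h0 : 0 < lam := by
    have hl2 : 0.6931471803 < Real.log 2 := Real.log_two_gt_d9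
    have hL2 : Real.log 2 ≤ Real.log (1 / ε) := by
      apply Real.log_le_log (by norm_num)
      rw [le_div_iff₀ hε]; linarith
    have hLsq : 0.48 ≤ Real.log (1 / ε) ^ 2 := by nlinarith
    have h1 : 100 * (1 - lam) * 0.48 ≤ max C₅ 100 * (1 - lam) * Real.log (1 / ε) ^ 2 := by
      apply mul_le_mul _ hLsq (by norm_num) (by positivity)
      exact mul_le_mul_of_nonneg_right (le_max_right _ _) hu.le
    linarith
  obtain ⟨q, hq, hgood⟩ := hcount ε hε hεc hε2 lam hlam1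
    (le_trans (by
      apply mul_le_mul_of_nonneg_right _ (by positivity)
      exact mul_le_mul_of_nonneg_right (le_max_left _ _) hu.le) hu1) ν hν
    (le_trans (by
      apply mul_le_mul_of_nonneg_right _ (by positivity)
      apply mul_le_mul_of_nonneg_right _ hu.le
      exact mul_le_mul_of_nonneg_right (le_max_left _ _) hL.le) hu2)
  refine ⟨q, hq, fun hn μ hμp hμ => ?_⟩
  obtain ⟨r, hr, K₀, hK⟩ := hgood hn
  have hr1 : 1 ≤ lam⁻¹ ^ r := one_le_pow₀ ((one_le_inv₀ h0).2 hlam1.le)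
  set b : ℕ → ℝ := fun K => if K < max K₀ 1 then C' else C * ((K : ℝ) ^ 2)⁻¹ with hb
  refine ac_criterion μ b ?_ ?_
  · have h2 : Summable fun K : ℕ => C * ((K : ℝ) ^ 2)⁻¹ :=
      (Real.summable_nat_pow_inv.2 one_lt_two).mul_left C
    have h3 : Summable fun K : ℕ => b K - C * ((K : ℝ) ^ 2)⁻¹ := by
      refine summable_of_ne_finset_zero (s := Finset.range (max K₀ 1)) fun K hK => ?_
      rw [Finset.mem_range, not_lt] at hK
      simp only [hb]
      rw [if_neg (by omega), sub_self]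
    simpa using h3.add h2
  · intro K
    by_cases hKK : K < max K₀ 1
    · simp only [hb]
      rw [if_pos hKK]
      exact hC' _ (by positivity) μ hμp
    · simp only [hb]
      rw [if_neg hKK]
      obtain ⟨ι, i1, i2, pos, len, hdisj, hsum⟩ := hK K (by omega)
      refine (hbb lam h0 hlam1 μ hμp hμ (2 ^ K) (lam⁻¹ ^ r) (by positivity) hr1 hr ι pos len
        hdisj).trans ?_
      refine mul_le_mul_of_nonneg_left ?_ hC.le
      have hKp : (0 : ℝ) < K := by
        have : 1 ≤ K := by omega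
        exact_mod_cast this
      calc Real.exp (-(c₄ * ∑ b, Gs (Xs lam (len b)) (lam⁻¹ ^ r) (lam⁻¹ ^ pos b / (96 * 2 ^ K))))
          ≤ Real.exp (-(2 * Real.log K)) := Real.exp_le_exp.2 (by linarith)
        _ = ((K : ℝ) ^ 2)⁻¹ := by
          rw [Real.exp_neg, mul_comm, Real.exp_mul, Real.exp_log hKp]
          norm_num

end Pool.Agent.BCD
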