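import Pool.Agent.Work.MP_bc8e1e_an.D.VSpec

/-!
# Theorem V, module VH2b: a good multiple of `g`

`H = ∏_{special} (X - α) ∏_{other roots} (X^k - α^k) · ∑_{j<k} lam^j X^j` over `ℂ`, then its real or
imaginary part.
-/

set_option autoImplicit false

open Polynomial

namespace Pool.Agent.BCD

namespace VH2b

/-! ### the truncated `ℓ²` norm -/

/-- the first `n` coefficients. -/
noncomputable def F (n : ℕ) : ℂ[X] →ₗ[ℂ] EuclideanSpace ℂ (Fin n) where
  toFun q := WithLp.toLp 2 fun j : Fin n => q.coeff j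
  map_add' p q := by ext j; simp
  map_smul' c q := by ext j; simp

theorem F_sq (n : ℕ) (q : ℂ[X]) : ‖F n q‖ ^ 2 = ∑ j ∈ Finset.range n, ‖q.coeff j‖ ^ 2 := by
  rw [EuclideanSpace.norm_sq_eq, Finset.sum_range]
  rfl

theorem F_X_mul (n : ℕ) (q : ℂ[X]) : ‖F n (X * q)‖ ≤ ‖F n q‖ := by
  refine abs_le_of_sq_le_sq' ?_ (norm_nonneg _) |>.2
  rw [F_sq, F_sq]
  cases n with
  | zero => simp
  | succ n =>
    rw [Finset.sum_range_succ']
    simp only [coeff_X_mul, mul_coeff_zero, coeff_X_zero, zero_mul, norm_zero]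
    rw [Finset.sum_range_succ]
    have := sq_nonneg ‖q.coeff n‖
    simp only [ne_eq, OfNat.ofNat_ne_zero, not_false_eq_true, zero_pow, add_zero]
    linarith

theorem F_X_pow_mul (n m : ℕ) (q : ℂ[X]) : ‖F n (X ^ m * q)‖ ≤ ‖F n q‖ := by
  induction m with
  | zero => simp
  | succ m ih =>
    rw [pow_succ', mul_assoc]
    exact (F_X_mul n _).trans ih

theorem F_factor (n m : ℕ) (c : ℂ) (q : ℂ[X]) :
    ‖F n ((X ^ m - C c) * q)‖ ≤ (1 + ‖c‖) * ‖F n q‖ := by
  have h1 : (X ^ m - C c) * q = X ^ m * q - c • q := by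
    rw [sub_mul, smul_eq_C_mul]
  rw [h1, map_sub, map_smul]
  refine (norm_sub_le _ _).trans ?_
  rw [norm_smul, add_mul, one_mul]
  exact add_le_add (F_X_pow_mul n m q) le_rfl

theorem F_prod (n : ℕ) (R : Multiset ℂ) (m : ℂ → ℕ) (q : ℂ[X]) :
    ‖F n ((R.map fun α => X ^ m α - C (α ^ m α)).prod * q)‖ ≤
      (R.map fun α => 1 + ‖α‖ ^ m α).prod * ‖F n q‖ := by
  induction R using Multiset.induction_on with
  | empty => simp
  | cons a s ih =>
    rw [Multiset.map_cons, Multiset.prod_cons, Multiset.map_cons, Multiset.prod_cons, mul_assoc]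
    refine (F_factor n _ _ _).trans ?_
    rw [norm_pow, mul_assoc]
    exact mul_le_mul_of_nonneg_left ih (by positivity)

/-! ### real and imaginary parts -/

/-- the polynomial with coefficients `φ (H.coeff i)`. -/
noncomputable def part (φ : ℂ →ₗ[ℝ] ℝ) (H : ℂ[X]) : ℝ[X] :=
  ∑ i ∈ Finset.range (H.natDegree + 1), monomial i (φ (H.coeff i))

theorem coeff_part (φ : ℂ →ₗ[ℝ] ℝ) (H : ℂ[X]) (i : ℕ) : (part φ H).coeff i = φ (H.coeff i) := by
  unfold part
  rw [finsetSum_coeff]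
  simp only [coeff_monomial]
  rw [Finset.sum_ite_eq' (Finset.range (H.natDegree + 1)) i]
  split_ifs with h
  · rfl
  · rw [Finset.mem_range, not_lt] at h
    rw [coeff_eq_zero_of_natDegree_lt h, map_zero]

theorem natDegree_part (φ : ℂ →ₗ[ℝ] ℝ) (H : ℂ[X]) : (part φ H).natDegree ≤ H.natDegree := by
  rw [natDegree_le_iff_coeff_eq_zero]
  intro i hi
  rw [coeff_part, coeff_eq_zero_of_natDegree_lt hi, map_zero]

theorem part_mul (φ : ℂ →ₗ[ℝ] ℝ) (g : ℤ[X]) (Q : ℂ[X]) :
    part φ (g.map (Int.castRingHom ℂ) * Q) = g.map (Int.castRingHom ℝ) * part φ Q := by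
  ext i
  rw [coeff_part, coeff_mul, coeff_mul, map_sum]
  refine Finset.sum_congr rfl fun x _ => ?_
  rw [coeff_part, coeff_map, coeff_map]
  have h1 : (Int.castRingHom ℂ) (g.coeff x.1) * Q.coeff x.2 =
      ((g.coeff x.1 : ℤ) : ℝ) • Q.coeff x.2 := by
    rw [Complex.real_smul]
    simp
  rw [h1, map_smul, smul_eq_mul]
  rfl

theorem eval_part (φ : ℂ →ₗ[ℝ] ℝ) (H : ℂ[X]) (x : ℝ) :
    (part φ H).eval x = φ (H.eval (x : ℂ)) := by
  rw [eval_eq_sum_range' (Nat.lt_succ_of_le (natDegree_part φ H)), eval_eq_sum_range, map_sum]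
  refine Finset.sum_congr rfl fun i _ => ?_
  rw [coeff_part]
  have h1 : H.coeff i * (x : ℂ) ^ i = (x ^ i : ℝ) • H.coeff i := by
    rw [Complex.real_smul]
    push_cast
    ring
  rw [h1, map_smul, smul_eq_mul, mul_comm]

/-! ### the factors -/

/-- the exponent of the factor of a root. -/
noncomputable def ex (lam : ℝ) (k : ℕ) (α : ℂ) : ℕ :=
  if α ≠ 0 ∧ ‖α‖ < 1 - (1 - lam) / 10 then 1 else k

/-- the lower bound for the factor of a root. -/
noncomputable def wt (lam : ℝ) (α : ℂ) : ℝ :=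
  if α ≠ 0 ∧ ‖α‖ < 1 - (1 - lam) / 10 then ‖(lam : ℂ) - α‖ / 2 else 1 / 4

theorem wt_nonneg (lam : ℝ) (α : ℂ) : 0 ≤ wt lam α := by
  unfold wt; split_ifs <;> positivity

section num

variable {lam : ℝ} {k : ℕ}

theorem k_mul_ge (h1 : lam < 1) (hk : 1 / (1 - lam) ≤ k) : 1 ≤ k * (1 - lam) := by
  rw [div_le_iff₀ (by linarith)] at hk
  exact hk

theorem k_mul_le (h1 : lam < 1) (hk' : (k : ℝ) ≤ 1 / (1 - lam) + 1) :
    k * (1 - lam) ≤ 2 - lam := by
  have h2 : 0 < 1 - lam := by linarith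
  have h3 : (1 / (1 - lam) + 1) * (1 - lam) = 2 - lam := by
    field_simp
    ring
  rw [← h3]
  exact mul_le_mul_of_nonneg_right hk' h2.le

theorem one_le_k (h1 : lam < 1) (hk : 1 / (1 - lam) ≤ k) : 1 ≤ k := by
  by_contra hcon
  have h2 : k = 0 := by omega
  have := k_mul_ge h1 hk
  rw [h2] at this
  norm_num at this

theorem pow_le (h0 : 9 / 10 < lam) (h1 : lam < 1) (hk : 1 / (1 - lam) ≤ k) :
    lam ^ k ≤ 368 / 1000 := by
  have h2 : lam ≤ Real.exp (lam - 1) := by
    have := Real.add_one_le_exp (lam - 1)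
    linarith
  have h3 : lam ^ k ≤ Real.exp (lam - 1) ^ k := pow_le_pow_left₀ (by linarith) h2 k
  rw [← Real.exp_nat_mul] at h3
  have h4 : Real.exp (k * (lam - 1)) ≤ Real.exp (-1) := by
    apply Real.exp_le_exp.2
    have := k_mul_ge h1 hk
    linarith
  have h5 := Real.exp_neg_one_lt_d9
  linarith

theorem pow_ge (h0 : 9 / 10 < lam) (h1 : lam < 1) (hk' : (k : ℝ) ≤ 1 / (1 - lam) + 1) :
    1 / 4 ≤ lam ^ k := by
  have hl : 0 < lam := by linarith
  have h2 : Real.exp (-((1 - lam) / lam)) ≤ lam := by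
    have h3 := Real.add_one_le_exp ((1 - lam) / lam)
    have h4 : (1 - lam) / lam + 1 = 1 / lam := by field_simp; ring
    rw [h4] at h3
    rw [Real.exp_neg, inv_le_comm₀ (Real.exp_pos _) hl, ← one_div]
    exact h3
  have h3 : Real.exp (-((1 - lam) / lam)) ^ k ≤ lam ^ k := pow_le_pow_left₀ (Real.exp_pos _).le h2 k
  rw [← Real.exp_nat_mul] at h3
  have h4 : Real.exp (-(11 / 9)) ≤ Real.exp (k * -((1 - lam) / lam)) := by
    apply Real.exp_le_exp.2
    have h5 := k_mul_le h1 hk'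
    have h6 : k * ((1 - lam) / lam) ≤ 11 / 9 := by
      rw [← mul_div_assoc, div_le_iff₀ hl]
      nlinarith
    linarith
  have h5 : (1 : ℝ) / 4 ≤ Real.exp (-(11 / 9)) := by
    rw [Real.exp_neg, one_div, inv_le_inv₀ (by norm_num) (Real.exp_pos _)]
    have h6 : Real.exp (11 / 9) = Real.exp 1 * Real.exp (2 / 9) := by
      rw [← Real.exp_add]; norm_num
    have h7 := Real.exp_one_lt_d9
    have h8 : Real.exp (2 / 9) ≤ 9 / 7 := by
      have h9 := Real.add_one_le_exp (-(2 / 9) : ℝ)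
      rw [Real.exp_neg] at h9
      have h10 : (0 : ℝ) < 7 / 9 := by norm_num
      have h11 : (7 : ℝ) / 9 ≤ (Real.exp (2 / 9))⁻¹ := by linarith
      rw [le_inv_comm₀ h10 (Real.exp_pos _)] at h11
      linarith [h11]
    rw [h6]
    have h9 : 0 < Real.exp 1 := Real.exp_pos _
    nlinarith
  linarith

theorem pow_root_ge (h0 : 9 / 10 < lam) (h1 : lam < 1) (hk' : (k : ℝ) ≤ 1 / (1 - lam) + 1)
    {x : ℝ} (hx : 1 - (1 - lam) / 10 ≤ x) : 89 / 100 ≤ x ^ k := by
  have h2 := one_add_mul_le_pow (a := -((1 - lam) / 10)) (by linarith) k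
  have h3 : (1 + -((1 - lam) / 10)) ^ k ≤ x ^ k := pow_le_pow_left₀ (by linarith) (by linarith) k
  have h4 := k_mul_le h1 hk'
  linarith

theorem factor_ge (h0 : 9 / 10 < lam) (h1 : lam < 1) (hk : 1 / (1 - lam) ≤ k)
    (hk' : (k : ℝ) ≤ 1 / (1 - lam) + 1) (α : ℂ) :
    wt lam α * (1 + ‖α‖ ^ ex lam k α) ≤ ‖(lam : ℂ) ^ ex lam k α - α ^ ex lam k α‖ := by
  unfold wt ex
  split_ifs with h
  · rw [pow_one, pow_one, pow_one]
    have h2 : ‖α‖ ≤ 1 := by linarith [h.2]
    have h3 := norm_nonneg ((lam : ℂ) - α)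
    nlinarith
  · by_cases ha : α = 0
    · subst ha
      have hk1 : k ≠ 0 := by have := one_le_k h1 hk; omega
      rw [norm_zero, zero_pow hk1, zero_pow hk1, sub_zero, add_zero, mul_one, norm_pow,
        Complex.norm_real, Real.norm_of_nonneg (by linarith : (0 : ℝ) ≤ lam)]
      exact pow_ge h0 h1 hk'
    · have h2 : 1 - (1 - lam) / 10 ≤ ‖α‖ := by
        by_contra hcon
        exact h ⟨ha, not_le.1 hcon⟩
      have h3 := pow_root_ge h0 h1 hk' h2
      have h4 := pow_le h0 h1 hk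
      have h5 : ‖α ^ k‖ - ‖(lam : ℂ) ^ k‖ ≤ ‖(lam : ℂ) ^ k - α ^ k‖ := by
        rw [norm_sub_rev]
        exact norm_sub_norm_le _ _
      rw [norm_pow, norm_pow, Complex.norm_real,
        Real.norm_of_nonneg (by linarith : (0 : ℝ) ≤ lam)] at h5
      linarith

theorem prod_ge (h0 : 9 / 10 < lam) (h1 : lam < 1) (hk : 1 / (1 - lam) ≤ k)
    (hk' : (k : ℝ) ≤ 1 / (1 - lam) + 1) (R : Multiset ℂ) :
    (R.map (wt lam)).prod * (R.map fun α => 1 + ‖α‖ ^ ex lam k α).prod ≤
      (R.map fun α => ‖(lam : ℂ) ^ ex lam k α - α ^ ex lam k α‖).prod := by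
  induction R using Multiset.induction_on with
  | empty => simp
  | cons a s ih =>
    simp only [Multiset.map_cons, Multiset.prod_cons]
    have h2 := factor_ge h0 h1 hk hk' a
    have h3 : 0 ≤ (s.map (wt lam)).prod := by
      apply Multiset.prod_nonneg
      intro x hx
      obtain ⟨y, -, rfl⟩ := Multiset.mem_map.1 hx
      exact wt_nonneg lam y
    have h4 : 0 ≤ (s.map fun α => 1 + ‖α‖ ^ ex lam k α).prod := by
      apply Multiset.prod_nonneg
      intro x hx
      obtain ⟨y, -, rfl⟩ := Multiset.mem_map.1 hx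
      positivity
    calc wt lam a * (s.map (wt lam)).prod *
          ((1 + ‖a‖ ^ ex lam k a) * (s.map fun α => 1 + ‖α‖ ^ ex lam k α).prod)
        = (wt lam a * (1 + ‖a‖ ^ ex lam k a)) *
          ((s.map (wt lam)).prod * (s.map fun α => 1 + ‖α‖ ^ ex lam k α).prod) := by ring
      _ ≤ _ := mul_le_mul h2 ih (mul_nonneg h3 h4) (norm_nonneg _)

/-- the product of the lower bounds. -/
theorem wt_prod_ge (lam : ℝ) (R : Multiset ℂ) :
    (1 / 4) ^ (Multiset.card R) * ((R.filter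
      (fun α => α ≠ 0 ∧ ‖α‖ < 1 - (1 - lam) / 10)).map fun α => ‖(lam : ℂ) - α‖ / 2).prod ≤
      (R.map (wt lam)).prod := by
  induction R using Multiset.induction_on with
  | empty => simp
  | cons a s ih =>
    have h3 : 0 ≤ ((s.filter (fun α => α ≠ 0 ∧ ‖α‖ < 1 - (1 - lam) / 10)).map
        fun α => ‖(lam : ℂ) - α‖ / 2).prod := by
      apply Multiset.prod_nonneg
      intro x hx
      obtain ⟨y, -, rfl⟩ := Multiset.mem_map.1 hx
      positivity
    have h4 : 0 ≤ (1 / 4 : ℝ) ^ (Multiset.card s) := by positivity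
    by_cases h : a ≠ 0 ∧ ‖a‖ < 1 - (1 - lam) / 10
    · rw [Multiset.filter_cons_of_pos (p := fun α : ℂ => α ≠ 0 ∧ ‖α‖ < 1 - (1 - lam) / 10) s h,
        Multiset.map_cons, Multiset.prod_cons, Multiset.map_cons, Multiset.prod_cons, Multiset.card_cons]
      have h5 : wt lam a = ‖(lam : ℂ) - a‖ / 2 := by unfold wt; rw [if_pos h]
      rw [h5, pow_succ]
      have h6 : 0 ≤ ‖(lam : ℂ) - a‖ / 2 := by positivity
      calc (1 / 4 : ℝ) ^ (Multiset.card s) * (1 / 4) * (‖(lam : ℂ) - a‖ / 2 *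
            ((s.filter (fun α => α ≠ 0 ∧ ‖α‖ < 1 - (1 - lam) / 10)).map
              fun α => ‖(lam : ℂ) - α‖ / 2).prod)
          = (1 / 4) * (‖(lam : ℂ) - a‖ / 2 * ((1 / 4 : ℝ) ^ (Multiset.card s) *
            ((s.filter (fun α => α ≠ 0 ∧ ‖α‖ < 1 - (1 - lam) / 10)).map
              fun α => ‖(lam : ℂ) - α‖ / 2).prod)) := by ring
        _ ≤ 1 * (‖(lam : ℂ) - a‖ / 2 * ((1 / 4 : ℝ) ^ (Multiset.card s) *
            ((s.filter (fun α => α ≠ 0 ∧ ‖α‖ < 1 - (1 - lam) / 10)).map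
              fun α => ‖(lam : ℂ) - α‖ / 2).prod)) := by
            apply mul_le_mul_of_nonneg_right (by norm_num)
            exact mul_nonneg h6 (mul_nonneg h4 h3)
        _ ≤ _ := by
            rw [one_mul]
            exact mul_le_mul_of_nonneg_left ih h6
    · rw [Multiset.filter_cons_of_neg (p := fun α : ℂ => α ≠ 0 ∧ ‖α‖ < 1 - (1 - lam) / 10) s h,
        Multiset.map_cons, Multiset.prod_cons, Multiset.card_cons]
      have h5 : wt lam a = 1 / 4 := by unfold wt; rw [if_neg h]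
      rw [h5, pow_succ]
      calc (1 / 4 : ℝ) ^ (Multiset.card s) * (1 / 4) *
            ((s.filter (fun α => α ≠ 0 ∧ ‖α‖ < 1 - (1 - lam) / 10)).map
              fun α => ‖(lam : ℂ) - α‖ / 2).prod
          = (1 / 4) * ((1 / 4 : ℝ) ^ (Multiset.card s) *
            ((s.filter (fun α => α ≠ 0 ∧ ‖α‖ < 1 - (1 - lam) / 10)).map
              fun α => ‖(lam : ℂ) - α‖ / 2).prod) := by ring
        _ ≤ _ := mul_le_mul_of_nonneg_left ih (by norm_num)

end num

/-! ### the kernel -/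

/-- `∑_{j<k} lam^j X^j` -/
noncomputable def kap (lam : ℝ) (k : ℕ) : ℂ[X] := ∑ j ∈ Finset.range k, monomial j ((lam : ℂ) ^ j)

theorem coeff_kap (lam : ℝ) (k j : ℕ) :
    (kap lam k).coeff j = if j < k then (lam : ℂ) ^ j else 0 := by
  unfold kap
  rw [finsetSum_coeff]
  simp only [coeff_monomial]
  rw [Finset.sum_ite_eq' (Finset.range k) j]
  simp only [Finset.mem_range]

theorem natDegree_kap (lam : ℝ) {k : ℕ} (hk : 1 ≤ k) : (kap lam k).natDegree ≤ k - 1 := by
  rw [natDegree_le_iff_coeff_eq_zero]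
  intro i hi
  rw [coeff_kap, if_neg (by omega)]

theorem eval_kap (lam : ℝ) (k : ℕ) :
    (kap lam k).eval (lam : ℂ) = ((∑ j ∈ Finset.range k, (lam ^ 2) ^ j : ℝ) : ℂ) := by
  unfold kap
  rw [eval_finsetSum]
  push_cast
  refine Finset.sum_congr rfl fun j _ => ?_
  rw [eval_monomial]
  ring

theorem F_kap (lam : ℝ) (n k : ℕ) :
    ‖F n (kap lam k)‖ ^ 2 ≤ ∑ j ∈ Finset.range k, (lam ^ 2) ^ j := by
  rw [F_sq]
  have h1 : ∀ j ∈ Finset.range n, ‖(kap lam k).coeff j‖ ^ 2 =
      if j ∈ Finset.range k then (lam ^ 2) ^ j else 0 := by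
    intro j _
    simp only [coeff_kap, Finset.mem_range]
    split_ifs
    · rw [norm_pow, Complex.norm_real, ← pow_mul, mul_comm j 2, pow_mul, Real.norm_eq_abs, sq_abs]
    · simp
  rw [Finset.sum_congr rfl h1, ← Finset.sum_filter, Finset.filter_mem_eq_inter]
  exact Finset.sum_le_sum_of_subset_of_nonneg Finset.inter_subset_right
    fun j _ _ => by positivity

theorem sum_ge {lam : ℝ} {k : ℕ} (h0 : 9 / 10 < lam) (h1 : lam < 1) (hk : 1 / (1 - lam) ≤ k) :
    1 / (2 * (1 - lam ^ 2)) ≤ ∑ j ∈ Finset.range k, (lam ^ 2) ^ j := by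
  have h2 : lam ^ 2 < 1 := by nlinarith
  have h3 : 0 < 1 - lam ^ 2 := by linarith
  have h4 := geom_sum_eq (x := lam ^ 2) h2.ne k
  rw [h4]
  have h5 : ((lam ^ 2) ^ k - 1) / (lam ^ 2 - 1) = (1 - (lam ^ 2) ^ k) / (1 - lam ^ 2) := by
    rw [← neg_div_neg_eq]
    ring
  rw [h5, div_le_div_iff₀ (by positivity) h3]
  have h6 : (lam ^ 2) ^ k ≤ 1 / 2 := by
    rw [← pow_mul, mul_comm 2 k, pow_mul]
    have h7 := pow_le h0 h1 hk
    have h8 : 0 ≤ lam ^ k := by positivity
    nlinarith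
  nlinarith

end VH2b

open VH2b in
theorem exists_mult {lam : ℝ} (h0 : 9 / 10 < lam) (h1 : lam < 1) {g : ℤ[X]} (hg : g ≠ 0) {k : ℕ}
    (hk : 1 / (1 - lam) ≤ k) (hk' : (k : ℝ) ≤ 1 / (1 - lam) + 1) :
    ∃ h : ℝ[X], h ≠ 0 ∧ g.map (Int.castRingHom ℝ) ∣ h ∧ h.natDegree ≤ k * (g.natDegree + 1) ∧
      1 / (2 * (1 - lam ^ 2)) *
          ((1 / 4) ^ g.natDegree * ((spec lam g).map fun α => ‖(lam : ℂ) - α‖ / 2).prod) ^ 2 ≤
        h.eval lam ^ 2 / ∑ j ∈ Finset.range (h.natDegree + 1), h.coeff j ^ 2 := by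
  have hk1 : 1 ≤ k := one_le_k h1 hk
  set G : ℂ[X] := g.map (Int.castRingHom ℂ) with hG
  have hG0 : G ≠ 0 := (Polynomial.map_ne_zero_iff (RingHom.injective_int _)).2 hg
  have hGd : G.natDegree = g.natDegree := natDegree_map_eq_of_injective (RingHom.injective_int _) g
  have hcard : Multiset.card G.roots = G.natDegree := IsAlgClosed.card_roots_eq_natDegree
  set R := G.roots with hR
  set H : ℂ[X] := (R.map fun α => X ^ ex lam k α - C (α ^ ex lam k α)).prod * kap lam k with hH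
  have hex1 : ∀ α, ex lam k α ≠ 0 := by
    intro α; unfold ex; split_ifs <;> omega
  have hexk : ∀ α, ex lam k α ≤ k := by
    intro α; unfold ex; split_ifs <;> omega
  -- divisibility
  obtain ⟨Q, hQ⟩ : G ∣ H := by
    have h2 : C G.leadingCoeff * (R.map fun a => X - C a).prod = G :=
      C_leadingCoeff_mul_prod_multiset_X_sub_C hcard
    have h3 : (R.map fun a => X - C a).prod ∣
        (R.map fun α => X ^ ex lam k α - C (α ^ ex lam k α)).prod := by
      refine Multiset.prod_dvd_prod_of_dvd _ _ fun a _ => ?_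
      rw [C_pow]
      exact sub_dvd_pow_sub_pow _ _ _
    have h4 : G ∣ (R.map fun a => X - C a).prod := by
      have h5 : G.leadingCoeff ≠ 0 := leadingCoeff_ne_zero.2 hG0
      refine ⟨C (G.leadingCoeff)⁻¹, ?_⟩
      have h6 : C G.leadingCoeff * (R.map fun a => X - C a).prod * C (G.leadingCoeff)⁻¹ =
          G * C (G.leadingCoeff)⁻¹ := congrArg (fun q => q * C (G.leadingCoeff)⁻¹) h2
      rw [← h6, mul_comm (C G.leadingCoeff), mul_assoc, ← C_mul, mul_inv_cancel₀ h5, C_1, mul_one]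
    exact (h4.trans h3).mul_right _
  -- degree
  have hdegH : H.natDegree ≤ k * (g.natDegree + 1) := by
    refine natDegree_mul_le.trans ?_
    have h2 := natDegree_kap lam hk1
    have h3 : (R.map fun α => X ^ ex lam k α - C (α ^ ex lam k α)).prod.natDegree ≤
        k * Multiset.card R := by
      refine (natDegree_multiset_prod_le _).trans ?_
      rw [Multiset.map_map]
      refine (Multiset.sum_le_card_nsmul _ k ?_).trans ?_
      · intro x hx
        obtain ⟨α, -, rfl⟩ := Multiset.mem_map.1 hx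
        exact (natDegree_X_pow_sub_C).le.trans (hexk α)
      · rw [Multiset.card_map, smul_eq_mul, mul_comm]
    rw [hcard, hGd] at h3
    have h4 : k * (g.natDegree + 1) = k * g.natDegree + k := by ring
    omega
  -- not zero
  have hH0 : H ≠ 0 := by
    refine mul_ne_zero ?_ ?_
    · refine Multiset.prod_ne_zero ?_
      intro hcon
      obtain ⟨α, -, hα⟩ := Multiset.mem_map.1 hcon
      exact (X_pow_sub_C_ne_zero (Nat.pos_of_ne_zero (hex1 α)) _) hα
    · intro hcon
      have h2 := coeff_kap lam k 0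
      rw [hcon, coeff_zero, if_pos (by omega), pow_zero] at h2
      exact zero_ne_one h2
  set n := H.natDegree + 1 with hn
  set s : ℝ := ∑ j ∈ Finset.range k, (lam ^ 2) ^ j with hs
  have hs0 : 0 ≤ s := Finset.sum_nonneg fun j _ => by positivity
  set Pi : ℝ := (R.map fun α => 1 + ‖α‖ ^ ex lam k α).prod with hPi
  have hPi0 : 0 ≤ Pi := by
    apply Multiset.prod_nonneg
    intro x hx
    obtain ⟨y, -, rfl⟩ := Multiset.mem_map.1 hx
    positivity
  set w : ℝ := (1 / 4) ^ g.natDegree * ((spec lam g).map fun α => ‖(lam : ℂ) - α‖ / 2).prod with hw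
  have hw0 : 0 ≤ w := by
    refine mul_nonneg (by positivity) (Multiset.prod_nonneg ?_)
    intro x hx
    obtain ⟨y, -, rfl⟩ := Multiset.mem_map.1 hx
    positivity
  have hF : ‖F n H‖ ^ 2 ≤ Pi ^ 2 * s := by
    have h2 := F_prod n R (ex lam k) (kap lam k)
    have h3 : ‖F n H‖ ^ 2 ≤ (Pi * ‖F n (kap lam k)‖) ^ 2 := pow_le_pow_left₀ (norm_nonneg _) h2 2
    rw [mul_pow] at h3
    exact h3.trans (mul_le_mul_of_nonneg_left (F_kap lam n k) (sq_nonneg _))
  have hev : w * Pi * s ≤ ‖H.eval (lam : ℂ)‖ := by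
    rw [hH, eval_mul, norm_mul, eval_kap, Complex.norm_real, Real.norm_of_nonneg hs0,
      eval_multiset_prod, Multiset.map_map]
    refine mul_le_mul_of_nonneg_right ?_ hs0
    have h2 : ‖(R.map ((eval (lam : ℂ)) ∘ fun α => X ^ ex lam k α - C (α ^ ex lam k α))).prod‖ =
        (R.map fun α => ‖(lam : ℂ) ^ ex lam k α - α ^ ex lam k α‖).prod := by
      generalize R = S
      induction S using Multiset.induction_on with
      | empty => simp
      | cons a t ih =>
        rw [Multiset.map_cons, Multiset.prod_cons, norm_mul, ih, Multiset.map_cons,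
          Multiset.prod_cons]
        congr 2
        simp
    rw [h2]
    refine le_trans ?_ (prod_ge h0 h1 hk hk' R)
    refine mul_le_mul_of_nonneg_right ?_ hPi0
    have h3 := wt_prod_ge lam R
    rw [hcard, hGd] at h3
    exact h3
  have hK : 1 / (2 * (1 - lam ^ 2)) * w ^ 2 * ‖F n H‖ ^ 2 ≤ ‖H.eval (lam : ℂ)‖ ^ 2 := by
    have h2 := sum_ge h0 h1 hk
    have h3 : 0 ≤ 1 / (2 * (1 - lam ^ 2)) := by
      have : 0 < 1 - lam ^ 2 := by nlinarith
      positivity
    calc 1 / (2 * (1 - lam ^ 2)) * w ^ 2 * ‖F n H‖ ^ 2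
        ≤ s * w ^ 2 * (Pi ^ 2 * s) := by gcongr
      _ = (w * Pi * s) ^ 2 := by ring
      _ ≤ ‖H.eval (lam : ℂ)‖ ^ 2 := pow_le_pow_left₀ (by positivity) hev 2
  set K : ℝ := 1 / (2 * (1 - lam ^ 2)) * w ^ 2 with hKdef
  have hK0 : 0 ≤ K := by
    have : 0 < 1 - lam ^ 2 := by nlinarith
    positivity
  -- reduction to a part
  have key : ∀ φ : ℂ →ₗ[ℝ] ℝ, part φ H ≠ 0 →
      K * ∑ j ∈ Finset.range n, (φ (H.coeff j)) ^ 2 ≤ (φ (H.eval (lam : ℂ))) ^ 2 →
      ∃ h : ℝ[X], h ≠ 0 ∧ g.map (Int.castRingHom ℝ) ∣ h ∧ h.natDegree ≤ k * (g.natDegree + 1) ∧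
      K ≤ h.eval lam ^ 2 / ∑ j ∈ Finset.range (h.natDegree + 1), h.coeff j ^ 2 := by
    intro φ hne hle
    refine ⟨part φ H, hne, ?_, (natDegree_part φ H).trans hdegH, ?_⟩
    · rw [hQ, part_mul]
      exact dvd_mul_right _ _
    · have h2 : 0 < ∑ j ∈ Finset.range ((part φ H).natDegree + 1), (part φ H).coeff j ^ 2 := by
        refine Finset.sum_pos' (fun j _ => sq_nonneg _)
          ⟨(part φ H).natDegree, Finset.self_mem_range_succ _, ?_⟩
        exact sq_pos_of_ne_zero (leadingCoeff_ne_zero.2 hne)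
      rw [le_div_iff₀ h2, eval_part]
      refine le_trans (mul_le_mul_of_nonneg_left ?_ hK0) hle
      simp only [coeff_part]
      exact Finset.sum_le_sum_of_subset_of_nonneg
        (Finset.range_subset_range.2 (by have := natDegree_part φ H; omega))
        fun j _ _ => sq_nonneg _
  -- the two parts
  have hsq : ‖F n H‖ ^ 2 = ∑ j ∈ Finset.range n, (Complex.reLm (H.coeff j)) ^ 2 +
      ∑ j ∈ Finset.range n, (Complex.imLm (H.coeff j)) ^ 2 := by
    rw [F_sq, ← Finset.sum_add_distrib]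
    refine Finset.sum_congr rfl fun j _ => ?_
    rw [← Complex.normSq_eq_norm_sq, Complex.normSq_apply]
    simp only [Complex.reLm_coe, Complex.imLm_coe]
    ring
  have hsqe : ‖H.eval (lam : ℂ)‖ ^ 2 = (Complex.reLm (H.eval (lam : ℂ))) ^ 2 +
      (Complex.imLm (H.eval (lam : ℂ))) ^ 2 := by
    rw [← Complex.normSq_eq_norm_sq, Complex.normSq_apply]
    simp only [Complex.reLm_coe, Complex.imLm_coe]
    ring
  rw [hsq, hsqe] at hK
  by_cases hre : part Complex.reLm H = 0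
  · have him : part Complex.imLm H ≠ 0 := by
      intro him
      apply hH0
      ext j
      rw [coeff_zero]
      apply Complex.ext
      · have := coeff_part Complex.reLm H j
        rw [hre, coeff_zero] at this
        exact this.symm
      · have := coeff_part Complex.imLm H j
        rw [him, coeff_zero] at this
        exact this.symm
    refine key Complex.imLm him ?_
    have h2 := eval_part Complex.reLm H lam
    rw [hre, eval_zero] at h2
    rw [← h2] at hK
    have h3 : 0 ≤ ∑ j ∈ Finset.range n, (Complex.reLm (H.coeff j)) ^ 2 :=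
      Finset.sum_nonneg fun j _ => sq_nonneg _
    nlinarith [mul_nonneg hK0 h3]
  · by_cases him : part Complex.imLm H = 0
    · refine key Complex.reLm hre ?_
      have h2 := eval_part Complex.imLm H lam
      rw [him, eval_zero] at h2
      rw [← h2] at hK
      have h3 : 0 ≤ ∑ j ∈ Finset.range n, (Complex.imLm (H.coeff j)) ^ 2 :=
        Finset.sum_nonneg fun j _ => sq_nonneg _
      nlinarith [mul_nonneg hK0 h3]
    · rw [mul_add] at hK
      rcases le_or_gt (K * ∑ j ∈ Finset.range n, (Complex.reLm (H.coeff j)) ^ 2)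
        ((Complex.reLm (H.eval (lam : ℂ))) ^ 2) with h2 | h2
      · exact key Complex.reLm hre h2
      · exact key Complex.imLm him (by linarith)

end Pool.Agent.BCD
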