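import Pool.Agent.Work.MP_bc8e1e_an.D.VSCard

/-!
# Module VH2c of Theorem V: the root
-/

set_option autoImplicit false

open Polynomial

namespace Pool.Agent.BCD

/-- The numerical part of `close_root`. -/
theorem close_root_of {lam W T : ℝ} (h0 : 9 / 10 < lam) (h1 : lam < 1) (hW : 1 ≤ W) (hT : 16 ≤ T)
    {g : ℤ[X]} (hg : g ≠ 0) {m r : ℕ} (hr : 1 ≤ r) (hdeg : g.natDegree ≤ r) {cU cE R : ℝ}
    (hlow : Mah g ^ (2 * m) * (1 + W ^ 2 * R) ≤ cU)
    (hR : 1 / (2 * (1 - lam ^ 2)) *
          ((1 / 4) ^ g.natDegree * ((spec lam g).map fun α => ‖(lam : ℂ) - α‖ / 2).prod) ^ 2 ≤ R)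
    (hcov : cU * T ^ (2 * r) ≤ cE) (hE : cE ≤ 1 + W ^ 2 / (1 - lam ^ 2)) :
    Mah g ^ m ≤ W / (1 - lam) ∧
    ∃ η : ℂ, (g.map (Int.castRingHom ℂ)).eval η = 0 ∧
      ‖(lam : ℂ) - η‖ ≤ 2 * Real.exp (-((m : ℝ) * (1 - lam) / 10)) := by
  classical
  have hM1 : 1 ≤ Mah g := one_le_Mah hg
  set M := Mah g with hMdef
  set D : ℝ := 1 - lam ^ 2 with hD
  have hD0 : 0 < D := by rw [hD]; nlinarith
  have hD1 : D ≤ 1 := by rw [hD]; nlinarith
  set Q : ℝ := ((spec lam g).map fun α => ‖(lam : ℂ) - α‖ / 2).prod with hQ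
  have hQ0 : 0 ≤ Q := by
    rw [hQ]
    apply Multiset.prod_nonneg
    intro a ha
    obtain ⟨b, _, rfl⟩ := Multiset.mem_map.1 ha
    positivity
  have hMm : 1 ≤ M ^ (2 * m) := one_le_pow₀ hM1
  have hTr : (256 : ℝ) ^ r ≤ T ^ (2 * r) := by
    rw [pow_mul]
    apply pow_le_pow_left₀ (by norm_num)
    nlinarith
  have h256 : (1 : ℝ) ≤ 256 ^ r := one_le_pow₀ (by norm_num)
  have hT1 : (1 : ℝ) ≤ T ^ (2 * r) := h256.trans hTr
  have hR0 : 0 ≤ R := le_trans (by positivity) hR
  have hall : M ^ (2 * m) * (1 + W ^ 2 * R) * T ^ (2 * r) ≤ 1 + W ^ 2 / D :=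
    (mul_le_mul_of_nonneg_right hlow (by positivity)).trans (hcov.trans hE)
  have hW2 : 1 ≤ W ^ 2 := one_le_pow₀ hW
  constructor
  · have e1 : M ^ (2 * m) ≤ 1 + W ^ 2 / D := by
      have : M ^ (2 * m) * 1 * 1 ≤ M ^ (2 * m) * (1 + W ^ 2 * R) * T ^ (2 * r) := by
        apply mul_le_mul _ hT1 (by norm_num) (by positivity)
        apply mul_le_mul_of_nonneg_left _ (by positivity)
        nlinarith [mul_nonneg (sq_nonneg W) hR0]
      linarith
    have hl : 0 < 1 - lam := by linarith
    have e2 : 1 + W ^ 2 / D ≤ (W / (1 - lam)) ^ 2 := by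
      rw [div_pow, hD]
      have hD' : (1 : ℝ) - lam ^ 2 = (1 - lam) * (1 + lam) := by ring
      rw [hD', le_div_iff₀ (by positivity)]
      have : (1 + W ^ 2 / ((1 - lam) * (1 + lam))) * (1 - lam) ^ 2 =
          (1 - lam) ^ 2 + W ^ 2 * ((1 - lam) / (1 + lam)) := by
        have : (1 + lam) ≠ 0 := by positivity
        field_simp
      rw [this]
      have e3 : (1 - lam) / (1 + lam) ≤ 1 / 2 := by
        rw [div_le_iff₀ (by linarith)]
        linarith
      have e4 : (1 - lam) ^ 2 ≤ 1 / 2 := by nlinarith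
      nlinarith
    have e5 : (M ^ m) ^ 2 ≤ (W / (1 - lam)) ^ 2 := by
      rw [← pow_mul, mul_comm m 2]
      exact e1.trans e2
    exact le_of_sq_le_sq e5 (by positivity)
  · by_contra hcon
    push Not at hcon
    set e : ℝ := Real.exp (-((m : ℝ) * (1 - lam) / 10)) with he
    have he0 : 0 < e := Real.exp_pos _
    -- lower bound for `Q`
    have hQl : e ^ (Multiset.card (spec lam g)) ≤ Q := by
      rw [hQ]
      have : ((spec lam g).map fun _ : ℂ => e).prod ≤
          ((spec lam g).map fun α => ‖(lam : ℂ) - α‖ / 2).prod := by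
        apply Multiset.prod_map_le_prod_map₀
        · intro _ _
          exact he0.le
        · intro α hα
          have hα' : α ∈ (g.map (Int.castRingHom ℂ)).roots := (Multiset.mem_filter.1 hα).1
          have hroot : (g.map (Int.castRingHom ℂ)).eval α = 0 := by
            have hne : g.map (Int.castRingHom ℂ) ≠ 0 := by
              rw [Ne, Polynomial.map_eq_zero_iff (RingHom.injective_int _)]
              exact hg
            exact (mem_roots hne).1 hα'
          have := hcon α hroot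
          linarith
      rw [Multiset.map_const', Multiset.prod_replicate] at this
      exact this
    have hMQ : 1 ≤ M ^ m * Q := by
      have e1 : Real.log (M ^ m) = m * Real.log M := Real.log_pow _ _
      have e2 : M ^ m * e ^ (Multiset.card (spec lam g)) ≥ 1 := by
        have hMpos : 0 < M := by linarith
        have e3 : M ^ m = Real.exp (m * Real.log M) := by
          rw [← e1, Real.exp_log (by positivity)]
        rw [e3, he, ← Real.exp_nat_mul, ← Real.exp_add]
        apply Real.one_le_exp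
        have e4 := spec_card h1 (by linarith) hg
        have e5 := mul_le_mul_of_nonneg_left e4 (Nat.cast_nonneg (α := ℝ) m)
        rw [← hMdef] at e5
        linarith
      exact e2.le.trans (mul_le_mul_of_nonneg_left hQl (by positivity))
    -- upper bound
    have hup : (M ^ m * Q) ^ 2 ≤ 1 / 4 := by
      have e1 : M ^ (2 * m) * (W ^ 2 * (1 / (2 * D) * ((1 / 4) ^ g.natDegree * Q) ^ 2)) *
          T ^ (2 * r) ≤ 1 + W ^ 2 / D := by
        refine le_trans ?_ hall
        apply mul_le_mul_of_nonneg_right _ (by positivity)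
        apply mul_le_mul_of_nonneg_left _ (by positivity)
        have := mul_le_mul_of_nonneg_left hR (sq_nonneg W)
        linarith
      have e2 : 1 + W ^ 2 / D ≤ 2 * W ^ 2 / D := by
        have : 1 ≤ W ^ 2 / D := by
          rw [le_div_iff₀ hD0]
          linarith
        have h3 : 2 * W ^ 2 / D = W ^ 2 / D + W ^ 2 / D := by ring
        rw [h3]
        linarith
      have e3 : ((1 : ℝ) / 4) ^ r ≤ (1 / 4) ^ g.natDegree :=
        pow_le_pow_of_le_one (by norm_num) (by norm_num) hdeg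
      have e4 : (((1 : ℝ) / 4) ^ r * Q) ^ 2 ≤ ((1 / 4) ^ g.natDegree * Q) ^ 2 := by
        apply pow_le_pow_left₀ (by positivity)
        exact mul_le_mul_of_nonneg_right e3 hQ0
      have e5 : M ^ (2 * m) * (W ^ 2 * (1 / (2 * D) * (((1 : ℝ) / 4) ^ r * Q) ^ 2)) * 256 ^ r ≤
          2 * W ^ 2 / D := by
        refine le_trans ?_ (e1.trans e2)
        apply mul_le_mul _ hTr (by positivity) (by positivity)
        apply mul_le_mul_of_nonneg_left _ (by positivity)
        apply mul_le_mul_of_nonneg_left _ (by positivity)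
        exact mul_le_mul_of_nonneg_left e4 (by positivity)
      have e6 : M ^ (2 * m) * (W ^ 2 * (1 / (2 * D) * (((1 : ℝ) / 4) ^ r * Q) ^ 2)) * 256 ^ r =
          (W ^ 2 / D) * ((M ^ m * Q) ^ 2 * (16 ^ r / 2)) := by
        have h1 : (256 : ℝ) ^ r = 16 ^ r * 16 ^ r := by rw [← mul_pow]; norm_num
        have h2 : (((1 : ℝ) / 4) ^ r) ^ 2 * 16 ^ r = 1 := by
          rw [← pow_mul, mul_comm r 2, pow_mul, ← mul_pow]; norm_num
        have h3 : M ^ (2 * m) = (M ^ m) ^ 2 := by rw [← pow_mul, mul_comm]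
        rw [h1, h3]
        calc _ = (W ^ 2 / D) * ((M ^ m * Q) ^ 2 * (16 ^ r / 2)) *
              ((((1 : ℝ) / 4) ^ r) ^ 2 * 16 ^ r) := by
              field_simp
          _ = _ := by rw [h2, mul_one]
      rw [e6] at e5
      have hWD : 0 < W ^ 2 / D := by positivity
      have e7 : (M ^ m * Q) ^ 2 * (16 ^ r / 2) ≤ 2 := by
        have : (W ^ 2 / D) * ((M ^ m * Q) ^ 2 * (16 ^ r / 2)) ≤ (W ^ 2 / D) * 2 := by
          calc _ ≤ 2 * W ^ 2 / D := e5
            _ = _ := by ring
        exact le_of_mul_le_mul_left this hWD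
      have e8 : (16 : ℝ) ≤ 16 ^ r := by
        calc (16 : ℝ) = 16 ^ 1 := (pow_one _).symm
          _ ≤ 16 ^ r := pow_le_pow_right₀ (by norm_num) hr
      nlinarith [sq_nonneg (M ^ m * Q)]
    have : 1 ≤ (M ^ m * Q) ^ 2 := one_le_pow₀ hMQ
    linarith

end Pool.Agent.BCD
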