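import Pool.Agent.Work.MP_bc8e1e_an.D.VH2a
import Pool.Agent.Work.MP_bc8e1e_an.D.VH2b
import Pool.Agent.Work.MP_bc8e1e_an.D.VH2c

/-!
# Module VH2c of Theorem V: the root, assembled
-/

set_option autoImplicit false

open Polynomial

namespace Pool.Agent.BCD

theorem close_root {lam W T : ℝ} (h0 : 9 / 10 < lam) (h1 : lam < 1) (hW : 1 ≤ W) (hT : 16 ≤ T)
    {g : ℤ[X]}
    (hg : g.IsPrimitive) {N₁ r : ℕ} (hr : 1 ≤ r) (hdeg : g.natDegree ≤ r)
    (hlen : (1 / (1 - lam) + 2) * (r + 2) ≤ N₁)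
    (hcov : cov lam W (idU g (N₁ - r)) * T ^ (2 * r) ≤ cov lam W (degreeLT ℚ N₁)) :
    Mah g ^ (N₁ - r) ≤ W / (1 - lam) ∧
    ∃ η : ℂ, (g.map (Int.castRingHom ℂ)).eval η = 0 ∧
      ‖(lam : ℂ) - η‖ ≤ 2 * Real.exp (-(((N₁ - r : ℕ) : ℝ) * (1 - lam) / 10)) := by
  have hg0 : g ≠ 0 := hg.ne_zero
  have hl : 0 < 1 - lam := by linarith
  have hinv : 0 < 1 / (1 - lam) := by positivity
  obtain ⟨h, hh, hdvd, hhd, hR⟩ := exists_mult (lam := lam) h0 h1 hg0
    (k := ⌈1 / (1 - lam)⌉₊) (Nat.le_ceil _) (Nat.ceil_lt_add_one hinv.le).le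
  have hrN : r ≤ N₁ := by
    have : (r : ℝ) ≤ N₁ := by
      refine le_trans ?_ hlen
      have : (0 : ℝ) ≤ r := Nat.cast_nonneg r
      nlinarith
    exact_mod_cast this
  have hhd' : h.natDegree < g.natDegree + (N₁ - r) := by
    have e1 : (h.natDegree : ℝ) ≤ (1 / (1 - lam) + 1) * (r + 1) := by
      have e2 : (h.natDegree : ℝ) ≤ (⌈1 / (1 - lam)⌉₊ : ℝ) * (g.natDegree + 1) := by
        exact_mod_cast hhd
      refine e2.trans ?_
      apply mul_le_mul (Nat.ceil_lt_add_one hinv.le).le _ (by positivity) (by positivity)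
      have : (g.natDegree : ℝ) ≤ r := by exact_mod_cast hdeg
      linarith
    have e3 : (h.natDegree : ℝ) < g.natDegree + ((N₁ - r : ℕ) : ℝ) := by
      rw [Nat.cast_sub hrN]
      have hgn : (0 : ℝ) ≤ g.natDegree := Nat.cast_nonneg _
      have hrn : (0 : ℝ) ≤ r := Nat.cast_nonneg _
      nlinarith
    exact_mod_cast e3
  have hlow := cov_lower (lam := lam) (W := W) hg hh hdvd hhd'
  exact close_root_of h0 h1 hW hT hg0 hr hdeg hlow hR hcov
    (cov_degreeLT_le (by linarith) h1 N₁)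

end Pool.Agent.BCD
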