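import Pool.Agent.Work.MP_bc8e1e_an.D.VH1c
import Pool.Agent.Work.MP_bc8e1e_an.D.VRoot
import Pool.Agent.Work.MP_bc8e1e_an.D.VC
import Pool.Agent.Work.MP_bc8e1e_an.D.UFin

/-!
# Theorem V: final assembly
-/

set_option autoImplicit false

open MeasureTheory ProbabilityTheory Polynomial Filter

namespace Pool.Agent.BCD

namespace VFin

lemma tendsto_mul_exp (a b : ℝ) (hb : 0 < b) :
    Tendsto (fun y : ℝ => a * (y * Real.exp (-(b * y)))) atTop (nhds 0) := by
  have h := tendsto_rpow_mul_exp_neg_mul_atTop_nhds_zero 1 b hb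
  have h2 : Tendsto (fun y : ℝ => y * Real.exp (-(b * y))) atTop (nhds 0) := by
    refine h.congr fun y => ?_
    rw [Real.rpow_one, neg_mul]
  simpa using h2.const_mul a

lemma tendsto_sq_mul_exp (a b : ℝ) (hb : 0 < b) :
    Tendsto (fun y : ℝ => a * (y ^ 2 * Real.exp (-(b * y)))) atTop (nhds 0) := by
  have h := tendsto_rpow_mul_exp_neg_mul_atTop_nhds_zero 2 b hb
  have h2 : Tendsto (fun y : ℝ => y ^ 2 * Real.exp (-(b * y))) atTop (nhds 0) := by
    refine h.congr fun y => ?_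
    rw [neg_mul]; norm_num
  simpa using h2.const_mul a

lemma tendsto_exp_neg (b : ℝ) (hb : 0 < b) :
    Tendsto (fun y : ℝ => Real.exp (-(b * y))) atTop (nhds 0) := by
  apply Real.tendsto_exp_neg_atTop_nhds_zero.comp
  exact tendsto_id.const_mul_atTop hb

/-- conditions on `A`. -/
lemma largeA {B C₅ Lc e₀ c₁ : ℝ} (hB : 0 < B) (hC₅ : 0 < C₅) (he₀ : 0 < e₀) (hc₁ : 0 < c₁) :
    ∃ A₀ : ℝ, 1 ≤ A₀ ∧ ∀ A : ℝ, A₀ ≤ A → Lc ≤ A / B ∧ Real.exp (-(A / B)) ≤ e₀ ∧
      Real.exp (-(A / B)) ≤ c₁ ∧ Real.exp (-(A / B)) ≤ 1 / 2 ∧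
      32 * C₅ * (A / B) * Real.exp (-(A / B)) ≤ 1 ∧
      Real.exp (-(A / (2 * B))) * (640 * C₅ * A) ≤ B := by
  have t1 : Tendsto (fun A : ℝ => A / B) atTop atTop := tendsto_id.atTop_div_const hB
  have t2 : Tendsto (fun A : ℝ => Real.exp (-(A / B))) atTop (nhds 0) :=
    Real.tendsto_exp_neg_atTop_nhds_zero.comp t1
  have t3 : Tendsto (fun A : ℝ => 32 * C₅ * (A / B) * Real.exp (-(A / B))) atTop (nhds 0) := by
    refine ((tendsto_mul_exp (32 * C₅) 1 one_pos).comp t1).congr fun A => ?_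
    simp only [Function.comp]
    rw [one_mul]; ring
  have t4 : Tendsto (fun A : ℝ => Real.exp (-(A / (2 * B))) * (640 * C₅ * A)) atTop (nhds 0) := by
    refine (tendsto_mul_exp (640 * C₅) (1 / (2 * B)) (by positivity)).congr fun A => ?_
    rw [show 1 / (2 * B) * A = A / (2 * B) by ring]; ring
  obtain ⟨A₀, h⟩ := ((t1.eventually (eventually_ge_atTop Lc)).and
    ((t2.eventually (ge_mem_nhds he₀)).and ((t2.eventually (ge_mem_nhds hc₁)).and
      ((t2.eventually (ge_mem_nhds (by norm_num : (0 : ℝ) < 1 / 2))).and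
        ((t3.eventually (ge_mem_nhds one_pos)).and
          (t4.eventually (ge_mem_nhds hB))))))).exists_forall_of_atTop
  exact ⟨max A₀ 1, le_max_right _ _, fun A hA => h A ((le_max_left _ _).trans hA)⟩

/-- conditions on `y = log (1/(1-l))`. -/
lemma largeY {B C₅ c₀ : ℝ} (hB : 0 < B) (hC₅ : 0 < C₅) (hc₀ : 0 < c₀) :
    ∃ Y₀ : ℝ, 1 ≤ Y₀ ∧ ∀ y : ℝ, Y₀ ≤ y → C₅ * (y ^ 2 * Real.exp (-(1 / 2 * y))) ≤ c₀ ∧
      C₅ * (y * Real.exp (-(1 * y))) ≤ 1 / 16 ∧ B / 2 * (y * Real.exp (-(1 * y))) ≤ 1 ∧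
      Real.exp (-(1 * y)) ≤ 1 / 20 := by
  obtain ⟨Y₀, h⟩ := (((tendsto_sq_mul_exp C₅ (1 / 2) (by norm_num)).eventually
    (ge_mem_nhds hc₀)).and (((tendsto_mul_exp C₅ 1 one_pos).eventually
      (ge_mem_nhds (by norm_num : (0 : ℝ) < 1 / 16))).and
      (((tendsto_mul_exp (B / 2) 1 one_pos).eventually (ge_mem_nhds one_pos)).and
        ((tendsto_exp_neg 1 one_pos).eventually
          (ge_mem_nhds (by norm_num : (0 : ℝ) < 1 / 20)))))).exists_forall_of_atTop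
  exact ⟨max Y₀ 1, le_max_right _ _, fun y hy => h y ((le_max_left _ _).trans hy)⟩

/-- from `Jc` to `Ic`. -/
lemma Ic_of_Jc {lam ε : ℝ} {m M C : ℕ} (hbig : Real.pi / 4 ≤ ε * Real.log 2 * m)
    (h : (2 : ℝ) ^ (-(ε * m)) < Jc lam M ((2 : ℝ) ^ (-((C : ℝ) * m)))) :
    (2 : ℝ) ^ (-(2 * ε * m)) ≤ Ic lam M ((2 : ℝ) ^ (-((C : ℝ) * m))) := by
  have h1 := Jc_le_Ic (lam := lam) M (a := (2 : ℝ) ^ (-((C : ℝ) * m))) (by positivity)
  have h2 : (2 : ℝ) ^ (-(ε * m)) ≤ Real.exp (Real.pi / 4) *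
      Ic lam M ((2 : ℝ) ^ (-((C : ℝ) * m))) := le_trans h.le h1
  have h3 : (2 : ℝ) ^ (-(2 * ε * m)) * Real.exp (Real.pi / 4) ≤ (2 : ℝ) ^ (-(ε * m)) := by
    rw [Real.rpow_def_of_pos (by norm_num), Real.rpow_def_of_pos (by norm_num), ← Real.exp_add]
    apply Real.exp_le_exp.2
    linarith
  have hE : 0 < Real.exp (Real.pi / 4) := Real.exp_pos _
  have h4 := le_trans h3 h2
  rw [mul_comm] at h4
  exact le_of_mul_le_mul_left h4 hE

end VFin

open VFin in
theorem core_V : ∃ A₀ c₂ c₃ : ℝ, 1 ≤ A₀ ∧ 0 < c₂ ∧ 0 < c₃ ∧ ∃ l0 : ℝ, l0 < 1 ∧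
    ∀ l : ℝ, l0 < l → l < 1 → ∀ A : ℝ, A₀ ≤ A → A ≤ c₂ * Real.log (1 / (1 - l)) →
      ∀ μ : Measure ℝ, IsProbabilityMeasure μ →
        μ = (1/2 : ENNReal) • μ.map (fun x : ℝ => l * x + 1)
            + (1/2 : ENNReal) • μ.map (fun x : ℝ => l * x - 1) →
        μ ≪ (volume : Measure ℝ) ∨
        ∀ D₀ : ℕ, ∃ D : ℕ, D₀ ≤ D ∧ ∃ f : ℤ[X], f ≠ 0 ∧ f.natDegree ≤ D ∧
          (f.map (Int.castRingHom ℂ)).mahlerMeasure ≤ 1 + A * (1 - l) ∧
          ∃ η : ℂ, (f.map (Int.castRingHom ℂ)).eval η = 0 ∧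
            ‖(l : ℂ) - η‖ ≤ Real.exp (-(D * Real.exp (c₃ * A))) := by
  obtain ⟨T, C₂, c₀, c₁, e₀, hT, hC₂, hc₀, hc₀1, hc₁, hc₁1, he₀, he₀1, hinv⟩ := long_inverse
  obtain ⟨C₅, hC₅, hac⟩ := ac_of_good_V C₂ hC₂ c₁ hc₁ hc₁1
  have hC₂' : (1 : ℝ) ≤ C₂ := by exact_mod_cast hC₂
  have hC₅0 : 0 < C₅ := by linarith
  set B : ℝ := 64 * C₂ * C₅ with hB
  have hB64 : 64 ≤ B := by
    have h1 : 1 ≤ (C₂ : ℝ) * C₅ := one_le_mul_of_one_le_of_one_le hC₂' hC₅
    rw [hB, mul_assoc]; linarith only [h1]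
  have hB0 : 0 < B := by linarith
  set Lc : ℝ := Real.log (1 / c₀) with hLc
  have hLc0 : 0 ≤ Lc := Real.log_nonneg (by rw [le_div_iff₀ hc₀]; linarith)
  obtain ⟨A₀, hA₀, hA⟩ := largeA (Lc := Lc) hB0 hC₅0 he₀ hc₁
  obtain ⟨Y₀, hY₀, hY⟩ := largeY (B := B) hB0 hC₅0 hc₀
  refine ⟨A₀, B / 2, 1 / (2 * B), hA₀, by positivity, by positivity, 1 - Real.exp (-Y₀),
    by linarith [Real.exp_pos (-Y₀)], ?_⟩
  intro l hl hl1 A hAA hAc μ hμ hself
  obtain ⟨a1, a2, a3, a4, a5, a6⟩ := hA A hAA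
  set u := 1 - l with hu
  have hu0 : 0 < u := by linarith
  set y := Real.log (1 / u) with hy
  have huy : u = Real.exp (-y) := by
    rw [hy, one_div, Real.log_inv, neg_neg, Real.exp_log hu0]
  have hyY : Y₀ ≤ y := by
    have h1 : u < Real.exp (-Y₀) := by linarith
    rw [huy] at h1
    have := Real.exp_lt_exp.1 h1
    linarith
  have hy1 : 1 ≤ y := hY₀.trans hyY
  obtain ⟨b1, b2, b3, b4⟩ := hY y hyY
  rw [one_mul] at b2 b3 b4
  rw [← huy] at b2 b3 b4
  have hA0 : 0 < A := by linarith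
  have hA1 : 1 ≤ A := by linarith
  -- parameters
  set ε₁ := Real.exp (-(A / B)) with hε₁
  have hε₁0 : 0 < ε₁ := Real.exp_pos _
  set ε := c₀ * ε₁ with hε
  have hε0 : 0 < ε := by positivity
  have hεε₁ : ε ≤ ε₁ := mul_le_of_le_one_left hε₁0.le hc₀1
  set L := Real.log (1 / ε) with hL
  have hLeq : L = A / B + Lc := by
    rw [hL, hLc, hε, one_div, Real.log_inv, Real.log_mul hc₀.ne' hε₁0.ne', hε₁, Real.log_exp,
      one_div, Real.log_inv]
    ring
  have hAB0 : 0 < A / B := by positivity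
  have hL0 : 0 < L := by rw [hLeq]; linarith
  have hL2 : L ≤ 2 * (A / B) := by rw [hLeq]; linarith
  have hABy : 2 * (A / B) ≤ y := by
    have : A / B ≤ y / 2 := by
      rw [div_le_iff₀ hB0]; linarith
    linarith
  have hLy : L ≤ y := hL2.trans hABy
  have hCLu : C₅ * L * u ≤ 1 / 16 := by
    refine le_trans ?_ b2
    have : C₅ * L * u = C₅ * (L * u) := by ring
    rw [this]
    apply mul_le_mul_of_nonneg_left _ hC₅0.le
    exact mul_le_mul_of_nonneg_right hLy hu0.le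
  have hCLu0 : 0 < C₅ * L * u := by positivity
  set ν : ℕ := ⌊1 / (C₅ * L * u)⌋₊ with hν
  have hνle : (ν : ℝ) ≤ 1 / (C₅ * L * u) := Nat.floor_le (by positivity)
  have h16 : 16 ≤ 1 / (C₅ * L * u) := by
    rw [le_div_iff₀ hCLu0]; linarith
  have hνge : 1 / (C₅ * L * u) / 2 ≤ ν := by
    have := Nat.lt_floor_add_one (1 / (C₅ * L * u))
    rw [← hν] at this
    linarith
  have hν8 : (8 : ℝ) ≤ ν := by linarith
  have hν8' : 8 ≤ ν := by exact_mod_cast hν8
  have hVC : C₅ * (1 - l) * Real.log (1 / ε) ^ 2 ≤ ε := by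
    rw [← hu, ← hL]
    have h1 : L ^ 2 ≤ y ^ 2 := pow_le_pow_left₀ hL0.le hLy 2
    have h2 : Real.exp (-(1 / 2 * y)) ≤ ε₁ := by
      rw [hε₁]; apply Real.exp_le_exp.2; linarith
    have h3 : u = Real.exp (-(1 / 2 * y)) * Real.exp (-(1 / 2 * y)) := by
      rw [huy, ← Real.exp_add]; ring_nf
    have hE := Real.exp_pos (-(1 / 2 * y))
    calc C₅ * u * L ^ 2 ≤ C₅ * u * y ^ 2 := mul_le_mul_of_nonneg_left h1 (by positivity)
      _ = (C₅ * (y ^ 2 * Real.exp (-(1 / 2 * y)))) * Real.exp (-(1 / 2 * y)) := by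
          rw [h3]; ring
      _ ≤ c₀ * Real.exp (-(1 / 2 * y)) := mul_le_mul_of_nonneg_right b1 hE.le
      _ ≤ c₀ * ε₁ := mul_le_mul_of_nonneg_left h2 hc₀.le
      _ = ε := rfl
  have hVCν : C₅ * Real.log (1 / ε) * (1 - l) * ν ≤ 1 := by
    rw [← hu, ← hL]
    calc C₅ * L * u * ν ≤ C₅ * L * u * (1 / (C₅ * L * u)) :=
          mul_le_mul_of_nonneg_left hνle hCLu0.le
      _ = 1 := by field_simp
  obtain ⟨q, hq2, hq⟩ := hac ε hε0 (hεε₁.trans a3) (hεε₁.trans a4) l hl1 hVC ν (by omega) hVCν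
  by_cases hgood : ∃ n₀ : ℕ, ∀ n : ℕ, n₀ ≤ n →
        Jc l (q ^ n) ((2 : ℝ) ^ (-((C₂ : ℝ) * (q ^ n : ℕ)))) ≤
            (2 : ℝ) ^ (-(ε * (q ^ n : ℕ))) ∨
        Jc l (ν * q ^ n) ((2 : ℝ) ^ (-((C₂ : ℝ) * (q ^ n : ℕ)))) ≤
            (2 : ℝ) ^ (-(c₁ * (q ^ n : ℕ)))
  · exact Or.inl (hq hgood μ hμ hself)
  right
  push Not at hgood
  have hl9 : 9 / 10 < l := by linarith
  obtain ⟨m₀, hm₀⟩ := hinv ε₁ hε₁0 a2 l (by linarith) hl1
  intro D₀
  have hlog2 : 0 < Real.log 2 := Real.log_pos (by norm_num)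
  have hl2' : Real.log 2 < 0.6931471808 := Real.log_two_lt_d9
  -- choose `n` large
  obtain ⟨n₁, hn₁⟩ : ∃ n₁ : ℕ, ∀ n, n₁ ≤ n → m₀ ≤ q ^ n ∧
      Real.pi / 4 ≤ ε * Real.log 2 * (q ^ n : ℕ) ∧
      Real.pi / 4 ≤ c₁ * Real.log 2 * (q ^ n : ℕ) ∧
      (D₀ : ℝ) ≤ ε₁ * (q ^ n : ℕ) ∧ 2 ≤ ε₁ * (q ^ n : ℕ) ∧
      Real.log T + y ≤ 1 * (q ^ n : ℕ) ∧
      Real.log 2 ≤ B / (320 * C₅ * A) * (q ^ n : ℕ) := by
    have ht : Tendsto (fun n : ℕ => q ^ n) atTop atTop :=
      tendsto_pow_atTop_atTop_of_one_lt (by omega)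
    have ht' : ∀ c : ℝ, 0 < c → Tendsto (fun n : ℕ => c * (q ^ n : ℕ)) atTop atTop := by
      intro c hc
      apply Tendsto.const_mul_atTop hc
      exact tendsto_natCast_atTop_atTop.comp ht
    obtain ⟨n₁, h⟩ := ((ht.eventually (eventually_ge_atTop m₀)).and
      (((ht' (ε * Real.log 2) (by positivity)).eventually (eventually_ge_atTop (Real.pi / 4))).and
      (((ht' (c₁ * Real.log 2) (by positivity)).eventually (eventually_ge_atTop (Real.pi / 4))).and
      (((ht' ε₁ hε₁0).eventually (eventually_ge_atTop (D₀ : ℝ))).and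
      (((ht' ε₁ hε₁0).eventually (eventually_ge_atTop 2)).and
      (((ht' 1 one_pos).eventually (eventually_ge_atTop (Real.log T + y))).and
      ((ht' (B / (320 * C₅ * A)) (by positivity)).eventually
        (eventually_ge_atTop (Real.log 2))))))))).exists_forall_of_atTop
    exact ⟨n₁, h⟩
  obtain ⟨n, hn, hbad1, hbad2⟩ := hgood n₁
  obtain ⟨d1, d2, d3, d4, d5, d6, d7⟩ := hn₁ n hn
  set m := q ^ n with hm
  have hm0 : (0 : ℝ) < m := by
    have h1 : 0 < ε₁ * (m : ℝ) := lt_of_lt_of_le two_pos d5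
    exact (mul_pos_iff_of_pos_left hε₁0).1 h1
  have hI1 := Ic_of_Jc (M := m) (C := C₂) d2 hbad1
  have hI2 := Ic_of_Jc (M := ν * m) (C := C₂) d3 hbad2
  obtain ⟨g, N₁, r, hg, hN1, hN2, hr, hrε, hdeg, hcov⟩ := hm₀ m (ν * m) d1
    (Nat.mul_le_mul_right m (by omega)) hI1 hI2
  set W := T * (2 : ℝ) ^ ((C₂ : ℝ) * m) with hW
  have h2m : 1 ≤ (2 : ℝ) ^ ((C₂ : ℝ) * m) := Real.one_le_rpow (by norm_num) (by positivity)
  have hW1 : 1 ≤ W := one_le_mul_of_one_le_of_one_le (by linarith only [hT]) h2m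
  have hN1' : (ν : ℝ) * m ≤ 2 * N₁ := by exact_mod_cast hN1
  have hνm : m / (4 * (C₅ * L * u)) ≤ N₁ := by
    have h1 : 1 / (C₅ * L * u) / 2 * m ≤ ν * m := mul_le_mul_of_nonneg_right hνge hm0.le
    have h2 : 1 / (C₅ * L * u) / 2 * m = 2 * (m / (4 * (C₅ * L * u))) := by
      field_simp; ring
    linarith
  have h16L : 16 * C₅ * L * ε₁ ≤ 1 := by
    calc 16 * C₅ * L * ε₁ ≤ 16 * C₅ * (2 * (A / B)) * ε₁ := by
          apply mul_le_mul_of_nonneg_right _ hε₁0.le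
          exact mul_le_mul_of_nonneg_left hL2 (by positivity)
      _ = 32 * C₅ * (A / B) * ε₁ := by ring
      _ ≤ 1 := a5
  have hr2 : ((r : ℝ) + 2) ≤ 2 * (ε₁ * m) := by linarith
  have hlen : (1 / (1 - l) + 2) * (r + 2) ≤ N₁ := by
    rw [← hu]
    have h1 : 1 / u + 2 ≤ 2 / u := by
      have : 2 ≤ 1 / u := by rw [le_div_iff₀ hu0]; linarith
      have h2 : 2 / u = 1 / u + 1 / u := by ring
      rw [h2]; linarith
    calc (1 / u + 2) * (r + 2) ≤ (2 / u) * (2 * (ε₁ * m)) :=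
          mul_le_mul h1 hr2 (by positivity) (by positivity)
      _ = (16 * C₅ * L * ε₁) * (m / (4 * (C₅ * L * u))) := by field_simp; ring
      _ ≤ 1 * (m / (4 * (C₅ * L * u))) := mul_le_mul_of_nonneg_right h16L (by positivity)
      _ ≤ N₁ := by rw [one_mul]; exact hνm
  obtain ⟨hMah, η, hη, hdist⟩ := close_root hl9 hl1 hW1 hT hg hr hdeg hlen hcov
  have hrN : 2 * (r : ℝ) ≤ N₁ := by
    have h1 : (2 : ℝ) * (r + 2) ≤ (1 / (1 - l) + 2) * (r + 2) := by
      apply mul_le_mul_of_nonneg_right _ (by positivity)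
      have : 0 ≤ 1 / (1 - l) := by rw [← hu]; positivity
      linarith
    linarith
  have hrN' : r ≤ N₁ := by
    have : (r : ℝ) ≤ N₁ := by linarith [Nat.cast_nonneg (α := ℝ) r]
    exact_mod_cast this
  set k := N₁ - r with hk
  have hkR : (k : ℝ) = N₁ - r := by rw [hk, Nat.cast_sub hrN']
  have hkm : m / (8 * (C₅ * L * u)) ≤ k := by
    have h1 : m / (8 * (C₅ * L * u)) = (m / (4 * (C₅ * L * u))) / 2 := by ring
    rw [h1, hkR]; linarith
  have hg0 : g ≠ 0 := hg.ne_zero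
  have hMah1 : 1 ≤ Mah g := H3c.one_le_Mah hg0
  have hlogM : Real.log (Mah g) ≤ A / 2 * u := by
    have h1 : k * Real.log (Mah g) ≤ Real.log (W / (1 - l)) := by
      rw [← Real.log_pow]
      exact Real.log_le_log (by positivity) hMah
    have h2 : Real.log (W / (1 - l)) ≤ 2 * C₂ * m := by
      rw [← hu, div_eq_mul_one_div, Real.log_mul (by positivity) (by positivity), ← hy, hW,
        Real.log_mul (by positivity) (by positivity), Real.log_rpow (by norm_num)]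
      have h3 : (C₂ : ℝ) * m * Real.log 2 ≤ C₂ * m * 1 :=
        mul_le_mul_of_nonneg_left (by linarith) (by positivity)
      have h4 : (m : ℝ) ≤ C₂ * m := le_mul_of_one_le_left hm0.le hC₂'
      linarith
    have hlM0 : 0 ≤ Real.log (Mah g) := Real.log_nonneg hMah1
    have h5 : m / (8 * (C₅ * L * u)) * Real.log (Mah g) ≤ 2 * C₂ * m :=
      (mul_le_mul_of_nonneg_right hkm hlM0).trans (h1.trans h2)
    have h6 : Real.log (Mah g) ≤ 16 * C₂ * C₅ * L * u := by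
      have h7 : m / (8 * (C₅ * L * u)) * Real.log (Mah g) ≤
          m / (8 * (C₅ * L * u)) * (16 * C₂ * C₅ * L * u) := by
        refine h5.trans (le_of_eq ?_)
        field_simp; ring
      exact le_of_mul_le_mul_left h7 (by positivity)
    refine h6.trans ?_
    calc 16 * C₂ * C₅ * L * u ≤ 16 * C₂ * C₅ * (2 * (A / B)) * u := by
          apply mul_le_mul_of_nonneg_right _ hu0.le
          exact mul_le_mul_of_nonneg_left hL2 (by positivity)
      _ = A / 2 * u := by rw [hB]; field_simp; ring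
  have hAu : A * u ≤ 1 := by
    refine le_trans ?_ b3
    have : B / 2 * (y * u) = (B / 2 * y) * u := by ring
    rw [this]
    exact mul_le_mul_of_nonneg_right hAc hu0.le
  have hMfin : Mah g ≤ 1 + A * u := by
    have h1 : Mah g ≤ Real.exp (A / 2 * u) := by
      rw [← Real.exp_log (by linarith : 0 < Mah g)]
      exact Real.exp_le_exp.2 hlogM
    refine h1.trans ?_
    have h2 : A / 2 * u ≤ 1 := by
      have h6 : A / 2 * u = A * u / 2 := by ring
      have h7 : 0 < A * u := by positivity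
      rw [h6]; linarith only [h7, hAu]
    have h3 : 0 ≤ A / 2 * u := by positivity
    have h4 := Real.abs_exp_sub_one_sub_id_le (x := A / 2 * u) (by rw [abs_of_nonneg h3]; exact h2)
    have h5 := (abs_le.1 h4).2
    have h6 : (A / 2 * u) ^ 2 ≤ A / 2 * u := by
      rw [sq]; exact mul_le_of_le_one_left h3 h2
    linarith only [h5, h6]
  refine ⟨⌈ε₁ * m⌉₊, ?_, g, hg0, ?_, hMfin, η, hη, hdist.trans ?_⟩
  · have : (D₀ : ℝ) ≤ ⌈ε₁ * m⌉₊ := d4.trans (Nat.le_ceil _)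
    exact_mod_cast this
  · have : (g.natDegree : ℝ) ≤ ⌈ε₁ * m⌉₊ := by
      have h1 : (g.natDegree : ℝ) ≤ r := by exact_mod_cast hdeg
      exact (h1.trans hrε).trans (Nat.le_ceil _)
    exact_mod_cast this
  · have hD : (⌈ε₁ * m⌉₊ : ℝ) ≤ 2 * (ε₁ * m) := by
      have := Nat.ceil_lt_add_one (a := ε₁ * m) (by positivity)
      linarith
    have h1 : m * B / (160 * C₅ * A) ≤ k * u / 10 := by
      have h2 : m / (8 * (C₅ * L * u)) * u / 10 ≤ k * u / 10 := by
        apply div_le_div_of_nonneg_right _ (by norm_num)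
        exact mul_le_mul_of_nonneg_right hkm hu0.le
      refine le_trans ?_ h2
      have h3 : m / (8 * (C₅ * L * u)) * u / 10 = m / (80 * C₅ * L) := by
        field_simp; ring
      have h4 : m * B / (160 * C₅ * A) = m / (80 * C₅ * (2 * (A / B))) := by
        field_simp; ring
      rw [h3, h4]
      apply div_le_div_of_nonneg_left hm0.le (by positivity)
      exact mul_le_mul_of_nonneg_left hL2 (by positivity)
    have h5 : (2 : ℝ) = Real.exp (Real.log 2) := (Real.exp_log (by norm_num)).symm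
    calc 2 * Real.exp (-(k * (1 - l) / 10)) = Real.exp (Real.log 2 + -(k * u / 10)) := by
          rw [Real.exp_add, ← h5]
      _ ≤ Real.exp (-((⌈ε₁ * m⌉₊ : ℝ) * Real.exp (1 / (2 * B) * A))) := by
          apply Real.exp_le_exp.2
          have h6 : ε₁ * Real.exp (1 / (2 * B) * A) = Real.exp (-(A / (2 * B))) := by
            rw [hε₁, ← Real.exp_add]
            congr 1
            field_simp
            ring
          have h7 : (⌈ε₁ * m⌉₊ : ℝ) * Real.exp (1 / (2 * B) * A) ≤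
              2 * m * Real.exp (-(A / (2 * B))) := by
            calc (⌈ε₁ * m⌉₊ : ℝ) * Real.exp (1 / (2 * B) * A) ≤
                2 * (ε₁ * m) * Real.exp (1 / (2 * B) * A) :=
                  mul_le_mul_of_nonneg_right hD (Real.exp_pos _).le
              _ = 2 * m * (ε₁ * Real.exp (1 / (2 * B) * A)) := by ring
              _ = _ := by rw [h6]
          have h8 : Real.exp (-(A / (2 * B))) ≤ B / (640 * C₅ * A) := by
            rw [le_div_iff₀ (by positivity)]; exact a6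
          have h9 : 2 * m * Real.exp (-(A / (2 * B))) ≤ m * B / (320 * C₅ * A) := by
            calc 2 * m * Real.exp (-(A / (2 * B))) ≤ 2 * m * (B / (640 * C₅ * A)) :=
                  mul_le_mul_of_nonneg_left h8 (by positivity)
              _ = _ := by field_simp; ring
          have h10 : m * B / (160 * C₅ * A) = m * B / (320 * C₅ * A) + B / (320 * C₅ * A) * m := by
            field_simp; ring
          linarith
      _ = _ := rfl

/-- THEOREM V. -/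
theorem dichotomy_V : ∃ A₀ c : ℝ, 1 ≤ A₀ ∧ 0 < c ∧ ∃ l0 : ℝ, l0 < 1 ∧
    ∀ l : ℝ, l0 < l → l < 1 → ∀ A : ℝ, A₀ ≤ A → A * (1 - l) ≤ 1 →
      ∀ μ : Measure ℝ, IsProbabilityMeasure μ →
        μ = (1/2 : ENNReal) • μ.map (fun x : ℝ => l * x + 1)
            + (1/2 : ENNReal) • μ.map (fun x : ℝ => l * x - 1) →
        μ ≪ (volume : Measure ℝ) ∨
        ∀ D₀ : ℕ, ∃ D : ℕ, D₀ ≤ D ∧ ∃ f : ℤ[X], f ≠ 0 ∧ f.natDegree ≤ D ∧
          (f.map (Int.castRingHom ℂ)).mahlerMeasure ≤ 1 + A * (1 - l) ∧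
          ∃ η : ℂ, (f.map (Int.castRingHom ℂ)).eval η = 0 ∧
            ‖(l : ℂ) - η‖ ≤ Real.exp (-(D * Real.exp
              (c * max (√A) (min A (Real.log (1 / (1 - l))))))) := by
  obtain ⟨A₀, c₂, c₃, hA₀, hc₂, hc₃, l1, hl1, hV⟩ := core_V
  obtain ⟨c₄, hc₄, l2, hl2, hU⟩ := dichotomy_U
  -- the logarithm is large near `1`
  obtain ⟨K, hK0, hK⟩ : ∃ K : ℝ, 0 < K ∧ K = A₀ / c₂ := ⟨A₀ / c₂, by positivity, rfl⟩
  set s : ℝ := √c₄ with hs
  have hs0 : 0 < s := Real.sqrt_pos.2 hc₄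
  have hs2 : s ^ 2 = c₄ := Real.sq_sqrt hc₄.le
  set c : ℝ := min c₃ (min (min (c₃ * c₂) (c₃ * c₂ * s)) (min c₄ s)) with hc
  have hcpos : 0 < c := by
    simp only [hc, lt_min_iff]
    exact ⟨hc₃, ⟨by positivity, by positivity⟩, hc₄, hs0⟩
  have hca : c ≤ c₃ := min_le_left _ _
  have hcb : c ≤ c₃ * c₂ := (min_le_right _ _).trans ((min_le_left _ _).trans (min_le_left _ _))
  have hcc : c ≤ c₃ * c₂ * s :=
    (min_le_right _ _).trans ((min_le_left _ _).trans (min_le_right _ _))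
  have hcd : c ≤ c₄ := (min_le_right _ _).trans ((min_le_right _ _).trans (min_le_left _ _))
  have hce : c ≤ s := (min_le_right _ _).trans ((min_le_right _ _).trans (min_le_right _ _))
  refine ⟨A₀, c, hA₀, hcpos, max (max l1 l2) (1 - Real.exp (-K)), ?_, ?_⟩
  · rw [max_lt_iff, max_lt_iff]
    exact ⟨⟨hl1, hl2⟩, by linarith [Real.exp_pos (-K)]⟩
  intro l hl hl' A hA hA1 μ hμ hμeq
  have hll1 : l1 < l := (le_max_left l1 l2).trans_lt ((le_max_left _ _).trans_lt hl)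
  have hll2 : l2 < l := (le_max_right l1 l2).trans_lt ((le_max_left _ _).trans_lt hl)
  have hll3 : 1 - Real.exp (-K) < l := (le_max_right _ _).trans_lt hl
  have hu : 0 < 1 - l := by linarith
  set L : ℝ := Real.log (1 / (1 - l)) with hL
  have hLK : K ≤ L := by
    rw [hL, Real.le_log_iff_exp_le (by positivity), le_div_iff₀ hu]
    calc Real.exp K * (1 - l) ≤ Real.exp K * Real.exp (-K) :=
          mul_le_mul_of_nonneg_left (by linarith) (Real.exp_pos _).le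
      _ = 1 := by rw [← Real.exp_add]; simp
  have hL0 : 0 < L := hK0.trans_le hLK
  have hA0 : 1 ≤ A := hA₀.trans hA
  have hsA : √A ≤ A := by
    rw [Real.sqrt_le_left (by linarith)]
    nlinarith
  have hsA0 : 0 ≤ √A := Real.sqrt_nonneg A
  have hsAA : √A * √A = A := Real.mul_self_sqrt (by linarith)
  -- comparison of the rates
  have rate : ∀ (R x : ℝ) (D : ℕ), c * max (√A) (min A L) ≤ R → x ≤ Real.exp (-(D * Real.exp R)) →
      x ≤ Real.exp (-(D * Real.exp (c * max (√A) (min A L)))) := by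
    intro R x D hR hx
    refine hx.trans (Real.exp_le_exp.2 (neg_le_neg ?_))
    exact mul_le_mul_of_nonneg_left (Real.exp_le_exp.2 hR) (Nat.cast_nonneg D)
  rcases le_or_gt A (c₂ * L) with h1 | h1
  · -- small `A`
    refine (hV l hll1 hl' A hA h1 μ hμ hμeq).imp_right fun h D₀ => ?_
    obtain ⟨D, hD, f, hf, hfD, hM, η, hη, hd⟩ := h D₀
    refine ⟨D, hD, f, hf, hfD, hM, η, hη, rate _ _ D ?_ hd⟩
    exact mul_le_mul hca (max_le hsA (min_le_left _ _)) (le_max_of_le_left hsA0) hc₃.le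
  rcases le_or_gt (c₄ * A) (L ^ 2) with h2 | h2
  · -- the middle range
    have hA' : A₀ ≤ c₂ * L := by
      rw [hK, div_le_iff₀ hc₂] at hLK
      linarith
    refine (hV l hll1 hl' (c₂ * L) hA' le_rfl μ hμ hμeq).imp_right fun h D₀ => ?_
    obtain ⟨D, hD, f, hf, hfD, hM, η, hη, hd⟩ := h D₀
    refine ⟨D, hD, f, hf, hfD, hM.trans ?_, η, hη, rate _ _ D ?_ hd⟩
    · have := mul_le_mul_of_nonneg_right h1.le hu.le
      linarith
    · have h3 : s * √A ≤ L := by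
        refine le_of_sq_le_sq ?_ hL0.le
        calc (s * √A) ^ 2 = s ^ 2 * (√A * √A) := by ring
          _ = c₄ * A := by rw [hs2, hsAA]
          _ ≤ L ^ 2 := h2
      rcases le_total (√A) (min A L) with h4 | h4
      · rw [max_eq_right h4]
        calc c * min A L ≤ c₃ * c₂ * L :=
              mul_le_mul hcb (min_le_right _ _) (hsA0.trans h4) (by positivity)
          _ = c₃ * (c₂ * L) := by ring
      · rw [max_eq_left h4]
        calc c * √A ≤ c₃ * c₂ * s * √A := mul_le_mul_of_nonneg_right hcc hsA0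
          _ = c₃ * c₂ * (s * √A) := by ring
          _ ≤ c₃ * c₂ * L := mul_le_mul_of_nonneg_left h3 (by positivity)
          _ = c₃ * (c₂ * L) := by ring
  · -- large `A`: Theorem U
    have h3 : (1 - l) * Real.log (1 / (1 - l)) ^ 2 ≤ c₄ * (A * (1 - l)) := by
      have := mul_le_mul_of_nonneg_right h2.le hu.le
      rw [← hL]
      linarith
    refine (hU l hll2 hl' (A * (1 - l)) (by positivity) hA1 h3 μ hμ hμeq).imp_right
      fun h D₀ => ?_
    obtain ⟨D, hD, f, hf, hfD, hM, η, hη, hd⟩ := h D₀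
    refine ⟨D, hD, f, hf, hfD, hM, η, hη, rate _ _ D ?_ hd⟩
    rw [mul_div_assoc, div_self hu.ne', mul_one]
    have h5 : L ≤ s * √A := by
      refine le_of_sq_le_sq ?_ (by positivity)
      calc L ^ 2 ≤ c₄ * A := h2.le
        _ = s ^ 2 * (√A * √A) := by rw [hs2, hsAA]
        _ = (s * √A) ^ 2 := by ring
    rcases le_total (√A) (min A L) with h4 | h4
    · rw [max_eq_right h4]
      calc c * min A L ≤ s * (s * √A) :=
            mul_le_mul hce ((min_le_right _ _).trans h5) (hsA0.trans h4) hs0.le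
        _ = s ^ 2 * √A := by ring
        _ = c₄ * √A := by rw [hs2]
    · rw [max_eq_left h4]
      exact mul_le_mul_of_nonneg_right hcd hsA0

end Pool.Agent.BCD
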