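import Pool.Agent.Work.MP_bc8e1e_an.D.H3c

/-!
# Mass steps between nested spaces
-/

set_option autoImplicit false

open MeasureTheory Polynomial
open scoped RealInnerProductSpace

namespace Pool.Agent.BCD

namespace H3c

variable {lam W T : ℝ}

/-- The quotient lattice of the integer polynomials in `U` by those in `D`. -/
theorem quot_core2 {E : Type} [NormedAddCommGroup E] [InnerProductSpace ℝ E]
    [FiniteDimensional ℝ E] {D U : Submodule ℚ ℚ[X]} [Module.Finite ℚ U]
    {ι : E →ₗᵢ[ℝ] PW lam W} {L : AddSubgroup E} (hRU : LRep U ι L)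
    (hspan0 : Submodule.span ℝ (L : Set E) = ⊤)
    (hfrE : Module.finrank ℝ E = Module.finrank ℚ U) (hT0 : 0 < T) (hDU : D ≤ U)
    {t : ℝ} (ht : 0 < t)
    (hmin : ∀ V : Submodule ℚ ℚ[X], D ≤ V → V ≤ U →
      t ^ (2 * (Module.finrank ℚ V - Module.finrank ℚ D)) * cov lam W D ≤ cov lam W V) :
    ∃ (K : Type) (_ : NormedAddCommGroup K) (_ : InnerProductSpace ℝ K)
      (_ : FiniteDimensional ℝ K) (LQ : AddSubgroup K),
      Submodule.span ℝ (LQ : Set K) = ⊤ ∧ Sp t LQ ∧
      Module.finrank ℝ K = Module.finrank ℚ U - Module.finrank ℚ D ∧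
      rhoU lam W T U ≤ rhoU lam W T D * Th LQ (√(2 * Real.pi) / T) 0 ∧
      (Module.finrank ℚ U = Module.finrank ℚ D + 1 → ∃ q : K, LQ = AddSubgroup.zmultiples q ∧
        cov lam W U = cov lam W D * ‖q‖ ^ 2) := by
  classical
  have : Module.Finite ℚ D := Submodule.finiteDimensional_of_le hDU
  obtain ⟨m, hm, d, hd⟩ : ∃ m : ℕ, m = Module.finrank ℚ D ∧ ∃ d : Fin m → ℤ[X], IsBas D d :=
    ⟨_, rfl, exists_bas D⟩
  obtain ⟨k, c, hbc⟩ := hd.extend hDU
  have hmk : m + k = Module.finrank ℚ U := hbc.card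
  have hliR : LinearIndependent ℝ fun i => io lam W (Fin.append d c i) := li_io hbc.li
  have hdU : ∀ i, d i ∈ MU U := fun i => hDU (hd.mem i)
  -- the subspace of `D`
  choose dE hdE using fun i => hRU.ex (d i) (hdU i)
  set S : Submodule ℝ E := Submodule.span ℝ (Set.range dE) with hS
  set LU : AddSubgroup S := L.comap S.subtype.toAddMonoidHom with hLU
  have memLU : ∀ u : S, u ∈ LU ↔ (u : E) ∈ L := fun u => Iff.rfl
  have hdli : LinearIndependent ℝ dE := by
    have h1 : LinearIndependent ℝ fun i => io lam W (d i) := li_io hd.li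
    refine LinearIndependent.of_comp ι.toLinearMap ?_
    have h2 : (⇑ι.toLinearMap ∘ dE) = fun i => io lam W (d i) := funext fun i => hdE i
    rw [h2]
    exact h1
  have hmemS : ∀ P ∈ MU D, ∃ u : S, ι (u : E) = io lam W P := by
    intro P hP
    obtain ⟨a, rfl⟩ := hd.span P hP
    refine ⟨⟨∑ i, (a i : ℝ) • dE i, Submodule.sum_mem _ fun i _ => Submodule.smul_mem _ _
      (Submodule.subset_span ⟨i, rfl⟩)⟩, ?_⟩
    simp only [map_sum, map_smul, hdE, io_sum]
  have hsat : ∀ P ∈ MU U, ∀ u : S, io lam W P = ι (u : E) → P ∈ MU D := by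
    intro P hP u hu
    obtain ⟨a, ha⟩ := hbc.span P hP
    obtain ⟨r, hr⟩ := (Submodule.mem_span_range_iff_exists_fun ℝ).1 u.2
    have h1 : ∑ i, r i • io lam W (d i) = io lam W P := by
      rw [hu, ← hr]
      simp only [map_sum, map_smul, hdE]
    have h2 : ∑ i, ((a i : ℝ) - Fin.append r (fun _ : Fin k => 0) i) •
        io lam W (Fin.append d c i) = 0 := by
      simp only [sub_smul, Finset.sum_sub_distrib]
      rw [← io_sum, ← ha, sub_eq_zero, Fin.sum_univ_add]
      simp only [Fin.append_left, Fin.append_right, zero_smul, Finset.sum_const_zero,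
        add_zero]
      exact h1.symm
    have h3 := Fintype.linearIndependent_iff.1 hliR _ h2
    have h4 : ∀ i : Fin k, a (Fin.natAdd m i) = 0 := by
      intro i
      have := h3 (Fin.natAdd m i)
      simp only [Fin.append_right, sub_zero] at this
      exact_mod_cast this
    rw [ha, Fin.sum_univ_add]
    simp only [Fin.append_left, Fin.append_right, h4, zero_smul, Finset.sum_const_zero,
        add_zero]
    exact AddSubgroup.sum_mem _ fun i _ => AddSubgroup.zsmul_mem _ (hd.mem i) _
  have hRD : LRep D (ι.comp S.subtypeₗᵢ) LU := by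
    refine ⟨fun y => ⟨fun hy => ?_, ?_⟩, fun P hP => ?_⟩
    · obtain ⟨P, hP, hPy⟩ := (hRU.mem _).1 ((memLU y).1 hy)
      exact ⟨P, hsat P hP y hPy, hPy⟩
    · rintro ⟨P, hP, hPy⟩
      exact (memLU y).2 ((hRU.mem _).2 ⟨P, hDU hP, hPy⟩)
    · obtain ⟨u, hu⟩ := hmemS P hP
      exact ⟨u, hu⟩
  -- the quotient
  set pr : E →ₗ[ℝ] Sᗮ := (Sᗮ.orthogonalProjectionOnto).toLinearMap with hpr
  have hpr_coe : ∀ y, ((pr y : Sᗮ) : E) = y - S.starProjection y := by
    intro y
    have h1 : ((pr y : Sᗮ) : E) = Sᗮ.starProjection y := rfl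
    rw [h1]
    exact Submodule.starProjection_orthogonal_val y
  set LQ : AddSubgroup Sᗮ := L.map pr.toAddMonoidHom with hLQ
  have memLQ : ∀ q : Sᗮ, q ∈ LQ ↔ ∃ y ∈ L, (q : E) = y - S.starProjection y := by
    intro q
    rw [hLQ, AddSubgroup.mem_map]
    constructor
    · rintro ⟨y, hy, rfl⟩
      exact ⟨y, hy, hpr_coe y⟩
    · rintro ⟨y, hy, h⟩
      exact ⟨y, hy, Subtype.ext ((hpr_coe y).trans h.symm)⟩
  -- spanning
  have hspanS : Submodule.span ℝ (LU : Set S) = ⊤ := by
    rw [eq_top_iff, ← Submodule.span_span_coe_preimage (R := ℝ) (s := Set.range dE)]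
    refine Submodule.span_mono ?_
    rintro y ⟨i, hi⟩
    refine (memLU y).2 ((hRU.mem _).2 ⟨d i, hdU i, ?_⟩)
    rw [← hi, hdE]
  have hspanQ : Submodule.span ℝ (LQ : Set Sᗮ) = ⊤ := by
    have h1 : (LQ : Set Sᗮ) = pr '' (L : Set E) := rfl
    rw [h1, Submodule.span_image, hspan0, Submodule.map_top, LinearMap.range_eq_top]
    intro q
    refine ⟨(q : E), ?_⟩
    exact Submodule.orthogonalProjectionOnto_mem_subspace_eq_self q
  -- separation of the quotient
  have hcovD : cov lam W D = (Matrix.gram ℝ dE).det := by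
    rw [hd.cov_eq]
    congr 1
    ext a b
    simp only [Matrix.gram_apply, ← hdE, ι.inner_map_map]
  have hcD : 1 ≤ cov lam W D := one_le_cov D
  have hSpQ : Sp t LQ := by
    intro j v hv hli
    choose y hy hyv using fun i => (memLQ (v i)).1 (hv i)
    choose w hw hwy using fun i => (hRU.mem (y i)).1 (hy i)
    have hga := gram_append dE y S rfl
    have h1 : (Matrix.gram ℝ fun i => y i - S.starProjection (y i)) = Matrix.gram ℝ v := by
      ext a b
      simp only [Matrix.gram_apply, ← hyv]
      rfl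
    have h2 : (Matrix.gram ℝ fun i => io lam W (Fin.append d w i)) =
        Matrix.gram ℝ (Fin.append dE y) := by
      have h3 : ∀ i, io lam W (Fin.append d w i) = ι (Fin.append dE y i) := by
        intro i
        refine Fin.addCases (fun i => ?_) (fun i => ?_) i
        · simp only [Fin.append_left, hdE]
        · simp only [Fin.append_right, hwy]
      ext a b
      simp only [Matrix.gram_apply, h3, ι.inner_map_map]
    have hliZ : LinearIndependent ℤ (Fin.append d w) := by
      refine Fintype.linearIndependent_iff.2 fun g hg => ?_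
      have h3 : ∑ i, (g (Fin.castAdd j i) : ℝ) • dE i +
          ∑ i, (g (Fin.natAdd m i) : ℝ) • y i = 0 := by
        apply ι.injective
        have h4 := congrArg (io lam W) hg
        rw [io_sum, Fin.sum_univ_add] at h4
        simp only [Fin.append_left, Fin.append_right] at h4
        rw [← ioHom_apply 0, map_zero] at h4
        simpa only [map_add, map_sum, map_smul, hdE, ← hwy, map_zero] using h4
      have h5 : ∑ i, (g (Fin.natAdd m i) : ℝ) • v i = 0 := by
        have h6 := congrArg pr h3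
        rw [map_add, map_sum, map_sum, map_zero] at h6
        simp only [map_smul] at h6
        have h7 : ∀ i, pr (dE i) = 0 := by
          intro i
          apply Subtype.ext
          have h9 : dE i ∈ S := Submodule.subset_span ⟨i, rfl⟩
          rw [hpr_coe, Submodule.starProjection_eq_self_iff.2 h9, sub_self]
          rfl
        have h8 : ∀ i, pr (y i) = v i := fun i => Subtype.ext ((hpr_coe _).trans (hyv i).symm)
        simpa only [h7, h8, smul_zero, Finset.sum_const_zero, zero_add] using h6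
      have h6 : ∀ i : Fin j, g (Fin.natAdd m i) = 0 := by
        intro i
        have := Fintype.linearIndependent_iff.1 hli _ h5 i
        exact_mod_cast this
      rw [Fin.sum_univ_add] at hg
      simp only [Fin.append_left, Fin.append_right, h6, zero_smul, Finset.sum_const_zero,
        add_zero] at hg
      have h7 := Fintype.linearIndependent_iff.1 hd.li _ hg
      intro i
      exact Fin.addCases h7 h6 i
    have hDV : D ≤ sp (Fin.append d w) := by
      refine (IsBas.le_sp hd).trans (sp_le fun i => ?_)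
      have := mem_sp (Fin.append d w) (Fin.castAdd j i)
      rwa [Fin.append_left] at this
    have hVU : sp (Fin.append d w) ≤ U := by
      refine sp_le fun i => ?_
      refine Fin.addCases (fun i => ?_) (fun i => ?_) i
      · rw [Fin.append_left]; exact hdU i
      · rw [Fin.append_right]; exact hw i
    have hg := hmin _ hDV hVU
    rw [finrank_sp hliZ, ← hm, Nat.add_sub_cancel_left] at hg
    have hcV' := cov_sp_le (lam := lam) (W := W) hliZ
    rw [h2, hga, h1, ← hcovD] at hcV'
    have hcD0 : 0 < cov lam W D := by linarith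
    have h9 := hg.trans hcV'
    rw [mul_comm] at h9
    exact le_of_mul_le_mul_left h9 hcD0
  -- conclusion
  have hLatL : Lat L := lat_of_sp one_pos hspan0 hRU.sp
  have hLatU : Lat LU := lat_of_sp one_pos hspanS hRD.sp
  have hLatQ : Lat LQ := lat_of_sp ht hspanQ hSpQ
  have hs : 0 < √(2 * Real.pi) / T := by have := Real.pi_pos; positivity
  have hq := mass_quot hLatL hs S memLU memLQ hLatU hLatQ
  rw [hRU.Th_eq, hRD.Th_eq] at hq
  have hfr : Module.finrank ℝ Sᗮ = k := by
    have h1 := S.finrank_add_finrank_orthogonal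
    have h3 : Module.finrank ℝ S = m := by
      rw [hS, finrank_span_eq_card hdli, Fintype.card_fin]
    omega
  refine ⟨Sᗮ, inferInstance, inferInstance, inferInstance, LQ, hspanQ, hSpQ, by omega, hq,
    fun hdim => ?_⟩
  obtain rfl : k = 1 := by omega
  obtain ⟨y, hy⟩ := hRU.ex (c 0) (by
    have := hbc.mem (Fin.natAdd m 0)
    rwa [Fin.append_right] at this)
  have hyL : y ∈ L := (hRU.mem _).2 ⟨c 0, by
    have := hbc.mem (Fin.natAdd m 0)
    rwa [Fin.append_right] at this, hy.symm⟩
  have hprd : ∀ i, pr (dE i) = 0 := by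
    intro i
    apply Subtype.ext
    have h9 : dE i ∈ S := Submodule.subset_span ⟨i, rfl⟩
    rw [hpr_coe, Submodule.starProjection_eq_self_iff.2 h9, sub_self]
    rfl
  have hpry : pr y ∈ LQ := (memLQ _).2 ⟨y, hyL, hpr_coe y⟩
  refine ⟨pr y, ?_, ?_⟩
  · apply le_antisymm
    · intro q hq
      obtain ⟨x, hx, hqx⟩ := (memLQ q).1 hq
      obtain ⟨P, hP, hPx⟩ := (hRU.mem x).1 hx
      obtain ⟨a, ha⟩ := hbc.span P hP
      have h1 : x = ∑ i, (a (Fin.castAdd 1 i) : ℝ) • dE i + (a (Fin.natAdd m 0) : ℝ) • y := by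
        apply ι.injective
        rw [← hPx, ha, io_sum, Fin.sum_univ_add]
        simp only [Fin.append_left, Fin.append_right, map_add, map_sum, map_smul, hdE, hy,
          Fin.sum_univ_one]
      have h2 : q = (a (Fin.natAdd m 0)) • pr y := by
        have h3 : q = pr x := Subtype.ext (hqx.trans (hpr_coe x).symm)
        rw [h3, h1, map_add, map_sum]
        simp only [map_smul, hprd, smul_zero, Finset.sum_const_zero, zero_add]
        rw [Int.cast_smul_eq_zsmul]
      rw [h2]
      exact AddSubgroup.zsmul_mem _ (AddSubgroup.mem_zmultiples _) _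
    · rw [AddSubgroup.zmultiples_le]
      exact hpry
  · have hga := gram_append dE (fun _ : Fin 1 => y) S rfl
    have h1 : (Matrix.gram ℝ fun i => io lam W (Fin.append d c i)) =
        Matrix.gram ℝ (Fin.append dE (fun _ : Fin 1 => y)) := by
      have h3 : ∀ i, io lam W (Fin.append d c i) = ι (Fin.append dE (fun _ : Fin 1 => y) i) := by
        intro i
        refine Fin.addCases (fun i => ?_) (fun i => ?_) i
        · simp only [Fin.append_left, hdE]
        · obtain rfl : i = 0 := Subsingleton.elim _ _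
          simp only [Fin.append_right, hy]
      ext a b
      simp only [Matrix.gram_apply, h3, ι.inner_map_map]
    rw [hbc.cov_eq, h1, hga, ← hcovD]
    congr 1
    rw [Matrix.det_fin_one, Matrix.gram_apply, real_inner_self_eq_norm_sq, ← hpr_coe y]
    rfl

/-- The data of `quot_core2` from the spaces. -/
theorem quot_data (hT0 : 0 < T) {D U : Submodule ℚ ℚ[X]} [Module.Finite ℚ U] (hDU : D ≤ U)
    {t : ℝ} (ht : 0 < t)
    (hmin : ∀ V : Submodule ℚ ℚ[X], D ≤ V → V ≤ U →
      t ^ (2 * (Module.finrank ℚ V - Module.finrank ℚ D)) * cov lam W D ≤ cov lam W V) :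
    ∃ (K : Type) (_ : NormedAddCommGroup K) (_ : InnerProductSpace ℝ K)
      (_ : FiniteDimensional ℝ K) (LQ : AddSubgroup K),
      Submodule.span ℝ (LQ : Set K) = ⊤ ∧ Sp t LQ ∧
      Module.finrank ℝ K = Module.finrank ℚ U - Module.finrank ℚ D ∧
      rhoU lam W T U ≤ rhoU lam W T D * Th LQ (√(2 * Real.pi) / T) 0 ∧
      (Module.finrank ℚ U = Module.finrank ℚ D + 1 → ∃ q : K, LQ = AddSubgroup.zmultiples q ∧
        cov lam W U = cov lam W D * ‖q‖ ^ 2) := by
  obtain ⟨n, hn, b, hb⟩ : ∃ n : ℕ, n = Module.finrank ℚ U ∧ ∃ b : Fin n → ℤ[X], IsBas U b :=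
    ⟨_, rfl, exists_bas U⟩
  have hliR : LinearIndependent ℝ fun i => io lam W (b i) := li_io hb.li
  set S₀ : Submodule ℝ (PW lam W) := Submodule.span ℝ (Set.range fun i => io lam W (b i))
    with hS₀
  have hfd : FiniteDimensional ℝ S₀ := FiniteDimensional.span_of_finite ℝ (Set.finite_range _)
  have hmem : ∀ P ∈ MU U, io lam W P ∈ S₀ := by
    intro P hP
    obtain ⟨a, rfl⟩ := hb.span P hP
    rw [io_sum]
    exact Submodule.sum_mem _ fun i _ => Submodule.smul_mem _ _
      (Submodule.subset_span ⟨i, rfl⟩)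
  set L : AddSubgroup S₀ := ((MU U).map (ioHom lam W)).comap S₀.subtype.toAddMonoidHom with hL
  have memL : ∀ y : S₀, y ∈ L ↔ ∃ P ∈ MU U, io lam W P = (y : PW lam W) := fun y => Iff.rfl
  have hRU : LRep U S₀.subtypeₗᵢ L := ⟨memL, fun P hP => ⟨⟨_, hmem P hP⟩, rfl⟩⟩
  have hspan0 : Submodule.span ℝ (L : Set S₀) = ⊤ := by
    rw [eq_top_iff, ← Submodule.span_span_coe_preimage (R := ℝ)
      (s := Set.range fun i => io lam W (b i))]
    refine Submodule.span_mono ?_
    rintro y ⟨i, hi⟩
    exact (memL y).2 ⟨_, hb.mem i, hi⟩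
  have hfr : Module.finrank ℝ S₀ = Module.finrank ℚ U := by
    rw [hS₀, finrank_span_eq_card hliR, Fintype.card_fin, hn]
  exact quot_core2 hRU hspan0 hfr hT0 hDU ht hmin

end H3c

variable {lam W T : ℝ}

theorem rho_step (hT : 1 ≤ T) {D U : Submodule ℚ ℚ[X]} [Module.Finite ℚ U] (hDU : D ≤ U)
    (hmin : ∀ V : Submodule ℚ ℚ[X], D ≤ V → V ≤ U → cov lam W D ≤ cov lam W V) :
    rhoU lam W T U ≤ rhoU lam W T D *
      (T * Real.exp 8) ^ (Module.finrank ℚ U - Module.finrank ℚ D) := by
  have hT0 : 0 < T := zero_lt_one.trans_le hT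
  obtain ⟨K, _, _, _, LQ, hspan, hSp, hfr, hrho, -⟩ :=
    H3c.quot_data (lam := lam) (W := W) hT0 hDU one_pos
      (fun V h1 h2 => by rw [one_pow, one_mul]; exact hmin V h1 h2)
  have hπ := Real.pi_pos
  refine hrho.trans (mul_le_mul_of_nonneg_left ?_ (tsum_nonneg fun P => (Real.exp_pos _).le))
  have hLat : Lat LQ := lat_of_sp one_pos hspan hSp
  have h1 := rev_mink K LQ 1 one_pos hspan hSp
  rw [div_one] at h1
  let _ : MeasurableSpace K := borel K
  have _ : BorelSpace K := ⟨rfl⟩
  have hs : 0 < √(2 * Real.pi) := by positivity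
  have h2 := F_mono hLat (s := √(2 * Real.pi) / T) (s' := √(2 * Real.pi)) (by positivity)
    (div_le_self hs.le hT)
  rw [← hfr]
  set n := Module.finrank ℝ K with hn
  have h3 : Th LQ (√(2 * Real.pi) / T) 0 ≤ T ^ n * Th LQ √(2 * Real.pi) 0 := by
    rw [div_pow, div_mul_eq_mul_div, div_le_iff₀ (by positivity)] at h2
    have h4 : 0 < √(2 * Real.pi) ^ n := by positivity
    refine le_of_mul_le_mul_left (h2.trans_eq ?_) h4
    ring
  refine h3.trans ?_
  rw [mul_pow, ← Real.exp_nat_mul, mul_comm (n : ℝ) 8]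
  exact mul_le_mul_of_nonneg_left h1 (by positivity)

theorem rho_step_one (hT : 0 < T) {D U : Submodule ℚ ℚ[X]} [Module.Finite ℚ U] (hDU : D ≤ U)
    (hdim : Module.finrank ℚ U = Module.finrank ℚ D + 1) :
    rhoU lam W T U ≤ rhoU lam W T D *
      ∑' j : ℤ, Real.exp (-(Real.pi * (cov lam W U / cov lam W D) * (j : ℝ) ^ 2 / T ^ 2)) := by
  have : Module.Finite ℚ D := Submodule.finiteDimensional_of_le hDU
  have hcD : 1 ≤ cov lam W D := one_le_cov D
  have hcU : 1 ≤ cov lam W U := one_le_cov U
  have hcD0 : 0 < cov lam W D := by linarith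
  have hcU0 : 0 < cov lam W U := by linarith
  set t : ℝ := √(min 1 (cov lam W U / cov lam W D)) with ht
  have ht2 : t ^ 2 = min 1 (cov lam W U / cov lam W D) := Real.sq_sqrt (by positivity)
  have ht0 : 0 < t := by positivity
  obtain ⟨K, _, _, _, LQ, hspan, hSp, hfr, hrho, hone⟩ :=
    H3c.quot_data (lam := lam) (W := W) hT hDU ht0 (fun V h1 h2 => by
      have hfV : Module.Finite ℚ V := Submodule.finiteDimensional_of_le h2
      have h3 := Submodule.finrank_mono h1
      have h4 := Submodule.finrank_mono h2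
      rcases (show Module.finrank ℚ V = Module.finrank ℚ D ∨
        Module.finrank ℚ V = Module.finrank ℚ U by omega) with h5 | h5
      · have h6 := Submodule.eq_of_le_of_finrank_eq h1 h5.symm
        subst h6
        simp
      · have h6 := Submodule.eq_of_le_of_finrank_eq h2 h5
        subst h6
        rw [hdim, Nat.add_sub_cancel_left, mul_one, ht2]
        calc min 1 (cov lam W V / cov lam W D) * cov lam W D
            ≤ cov lam W V / cov lam W D * cov lam W D :=
              mul_le_mul_of_nonneg_right (min_le_right _ _) hcD0.le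
          _ = cov lam W V := by field_simp)
  obtain ⟨q, hq, hcov⟩ := hone hdim
  refine hrho.trans_eq ?_
  congr 1
  have hq0 : q ≠ 0 := by
    rintro rfl
    rw [norm_zero] at hcov
    simp at hcov
    linarith
  have hbij : Function.Bijective fun j : ℤ => (⟨j • q, by
      rw [hq]; exact AddSubgroup.zsmul_mem _ (AddSubgroup.mem_zmultiples _) _⟩ : LQ) := by
    constructor
    · intro a b hab
      have h1 : a • q = b • q := congrArg Subtype.val hab
      rw [← Int.cast_smul_eq_zsmul ℝ, ← Int.cast_smul_eq_zsmul ℝ] at h1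
      have h2 := smul_left_injective ℝ hq0 h1
      exact_mod_cast h2
    · rintro ⟨y, hy⟩
      have hy' := hy
      rw [hq, AddSubgroup.mem_zmultiples_iff] at hy'
      obtain ⟨a, ha⟩ := hy'
      exact ⟨a, Subtype.ext ha⟩
  unfold Th
  rw [← (Equiv.ofBijective _ hbij).tsum_eq]
  refine tsum_congr fun j => ?_
  simp only [Equiv.ofBijective_apply]
  congr 1
  have h1 : cov lam W U / cov lam W D = ‖q‖ ^ 2 := by
    rw [hcov]
    field_simp
  rw [sub_zero, norm_smul, mul_pow, ← Int.cast_smul_eq_zsmul ℝ, norm_smul, mul_pow,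
    Real.norm_eq_abs, sq_abs, Real.norm_eq_abs, sq_abs, H3c.scale_sq, h1]
  ring

end Pool.Agent.BCD
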