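import Pool.Agent.Work.MP_bc8e1e_an.D.H1
import Pool.Agent.Work.MP_bc8e1e_an.D.H3cA

/-!
# Bernoulli convolutions near 1: two elementary lemmas for THEOREM V
-/

set_option autoImplicit false

open MeasureTheory ProbabilityTheory Polynomial Filter
open scoped RealInnerProductSpace

namespace Pool.Agent.BCD

section VTop
variable {lam W T : ℝ}

theorem theta_decay (hT : 1 ≤ T) : ∃ c : ℝ, 0 < c ∧ ∀ g : ℝ, 1 ≤ g → g ≤ T ^ 2 →
    (∑' j : ℤ, Real.exp (-(Real.pi * g * (j : ℝ) ^ 2 / T ^ 2))) * g ^ c ≤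
      ∑' j : ℤ, Real.exp (-(Real.pi * (j : ℝ) ^ 2 / T ^ 2)) := by
  have hT0 : 0 < T ^ 2 := by positivity
  have hpi := Real.pi_pos
  have hs : ∀ g : ℝ, 0 < g →
      Summable fun j : ℤ => Real.exp (-(Real.pi * g * (j : ℝ) ^ 2 / T ^ 2)) := by
    intro g hg
    have h := H3c.summ_sq (c := Real.pi * g / T ^ 2) (by positivity)
    refine h.congr fun j => ?_
    congr 1
    ring
  have hs1 : Summable fun j : ℤ => Real.exp (-(Real.pi * (j : ℝ) ^ 2 / T ^ 2)) := by
    have h := hs 1 one_pos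
    refine h.congr fun j => ?_
    congr 1
    ring
  set Θ : ℝ := ∑' j : ℤ, Real.exp (-(Real.pi * (j : ℝ) ^ 2 / T ^ 2)) with hΘ
  have hΘ1 : 0 < Θ := hs1.tsum_pos (fun j => (Real.exp_pos _).le) 0 (Real.exp_pos _)
  set κ : ℝ := Real.pi / T ^ 2 * Real.exp (-Real.pi) with hκ
  have hκ0 : 0 < κ := by positivity
  refine ⟨min (κ / Θ) 1, lt_min (by positivity) one_pos, ?_⟩
  intro g hg1 hgT
  have hg0 : 0 < g := by linarith
  set S : ℝ := ∑' j : ℤ, Real.exp (-(Real.pi * g * (j : ℝ) ^ 2 / T ^ 2)) with hS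
  have hS0 : 0 ≤ S := tsum_nonneg fun j => (Real.exp_pos _).le
  -- termwise monotonicity
  have hle : ∀ j : ℤ, Real.exp (-(Real.pi * g * (j : ℝ) ^ 2 / T ^ 2)) ≤
      Real.exp (-(Real.pi * (j : ℝ) ^ 2 / T ^ 2)) := by
    intro j
    apply Real.exp_le_exp.2
    have h1 : Real.pi * (j : ℝ) ^ 2 / T ^ 2 ≤ Real.pi * g * (j : ℝ) ^ 2 / T ^ 2 := by
      gcongr
      nlinarith
    linarith
  have h1 : S + κ * (g - 1) ≤ Θ := by
    have h2 : Real.exp (-(Real.pi * (1 : ℤ) ^ 2 / T ^ 2)) -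
        Real.exp (-(Real.pi * g * (1 : ℤ) ^ 2 / T ^ 2)) ≤ Θ - S := by
      rw [hΘ, hS, ← (hs1.tsum_sub (hs g hg0))]
      exact (hs1.sub (hs g hg0)).le_tsum 1 fun j _ => sub_nonneg.2 (hle j)
    have h3 : κ * (g - 1) ≤ Real.exp (-(Real.pi * (1 : ℤ) ^ 2 / T ^ 2)) -
        Real.exp (-(Real.pi * g * (1 : ℤ) ^ 2 / T ^ 2)) := by
      simp only [Int.cast_one, one_pow, mul_one]
      have h4 : Real.exp (-(Real.pi / T ^ 2)) =
          Real.exp (-(Real.pi * g / T ^ 2)) * Real.exp (Real.pi / T ^ 2 * (g - 1)) := by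
        rw [← Real.exp_add]
        congr 1
        ring
      have h5 := Real.add_one_le_exp (Real.pi / T ^ 2 * (g - 1))
      have h6 : Real.exp (-Real.pi) ≤ Real.exp (-(Real.pi * g / T ^ 2)) := by
        apply Real.exp_le_exp.2
        have : Real.pi * g / T ^ 2 ≤ Real.pi := by
          rw [div_le_iff₀ hT0]
          exact mul_le_mul_of_nonneg_left hgT hpi.le
        linarith
      have h7 : 0 ≤ Real.pi / T ^ 2 * (g - 1) := by
        have : 0 ≤ g - 1 := by linarith
        positivity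
      rw [h4]
      have h8 := Real.exp_pos (-(Real.pi * g / T ^ 2))
      calc κ * (g - 1) = Real.exp (-Real.pi) * (Real.pi / T ^ 2 * (g - 1)) := by rw [hκ]; ring
        _ ≤ Real.exp (-(Real.pi * g / T ^ 2)) * (Real.pi / T ^ 2 * (g - 1)) :=
            mul_le_mul_of_nonneg_right h6 h7
        _ ≤ Real.exp (-(Real.pi * g / T ^ 2)) *
            (Real.exp (Real.pi / T ^ 2 * (g - 1)) - 1) :=
            mul_le_mul_of_nonneg_left (by linarith) h8.le
        _ = _ := by ring
    linarith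
  have hSΘ : S ≤ Θ := by
    have : 0 ≤ κ * (g - 1) := mul_nonneg hκ0.le (by linarith)
    linarith
  set c := min (κ / Θ) 1 with hc
  have hc0 : 0 ≤ c := (lt_min (by positivity) one_pos).le
  have h9 : g ^ c ≤ 1 + c * (g - 1) := by
    have := rpow_one_add_le_one_add_mul_self (s := g - 1) (by linarith) hc0 (min_le_right _ _)
    simpa using this
  calc S * g ^ c ≤ S * (1 + c * (g - 1)) := mul_le_mul_of_nonneg_left h9 hS0
    _ = S + (S * c) * (g - 1) := by ring
    _ ≤ S + κ * (g - 1) := by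
        have : S * c ≤ κ := by
          calc S * c ≤ Θ * (κ / Θ) := mul_le_mul hSΘ (min_le_left _ _) hc0 hΘ1.le
            _ = κ := by field_simp
        have h10 := mul_le_mul_of_nonneg_right this (show (0 : ℝ) ≤ g - 1 by linarith)
        linarith
    _ ≤ Θ := h1

theorem cov_top {V : Submodule ℚ ℚ[X]} {n : ℕ} (hV : V ≤ degreeLT ℚ (n + 1)) :
    cov lam W (V ⊓ degreeLT ℚ n : Submodule ℚ ℚ[X]) ≤ cov lam W V := by
  have hfin0 : Module.Finite ℚ (degreeLT ℚ (n + 1)) := inferInstance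
  have hfin : Module.Finite ℚ V := H2.finite_of_le hV
  by_cases hle : V ≤ degreeLT ℚ n
  · rw [inf_eq_left.2 hle]
  have hfin1 : Module.Finite ℚ (V ⊓ degreeLT ℚ n : Submodule ℚ ℚ[X]) :=
    H2.finite_of_le inf_le_left
  -- membership in `degreeLT n`
  have hmem : ∀ p : ℚ[X], p ∈ V → p.coeff n = 0 → p ∈ degreeLT ℚ n := by
    intro p hp h0
    rw [mem_degreeLT, degree_lt_iff_coeff_zero]
    intro j hj
    rcases eq_or_lt_of_le hj with h | h
    · rw [← h]; exact h0
    · have h2 := mem_degreeLT.1 (hV hp)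
      rw [degree_lt_iff_coeff_zero] at h2
      exact h2 j (by omega)
  have hmem' : ∀ p : ℚ[X], p ∈ degreeLT ℚ n → p.coeff n = 0 := by
    intro p hp
    have h2 := mem_degreeLT.1 hp
    rw [degree_lt_iff_coeff_zero] at h2
    exact h2 n le_rfl
  obtain ⟨m, u, hu⟩ := H1.exists_bas' (V ⊓ degreeLT ℚ n)
  obtain ⟨k, v, hv⟩ := hu.extend (U := V) inf_le_left
  have hk : k = 1 := by
    let φ : V →ₗ[ℚ] ℚ := (lcoeff ℚ n) ∘ₗ V.subtype
    have h1 := LinearMap.finrank_range_add_finrank_ker φ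
    have h2 : LinearMap.range φ = ⊤ := by
      rw [LinearMap.range_eq_top]
      obtain ⟨p, hp, hp'⟩ := Set.not_subset.1 hle
      have hc : p.coeff n ≠ 0 := fun h => hp' (hmem p hp h)
      intro y
      refine ⟨(y / p.coeff n) • ⟨p, hp⟩, ?_⟩
      simp [φ, hc]
    have h3 : (LinearMap.ker φ).map V.subtype = V ⊓ degreeLT ℚ n := by
      ext p
      simp only [Submodule.mem_map, LinearMap.mem_ker, Submodule.subtype_apply, Subtype.exists,
        exists_and_right, exists_eq_right, Submodule.mem_inf]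
      constructor
      · rintro ⟨hp, h⟩
        exact ⟨hp, hmem p hp h⟩
      · rintro ⟨hp, h⟩
        exact ⟨hp, hmem' p h⟩
    have h4 := Submodule.finrank_map_subtype_eq V (LinearMap.ker φ)
    rw [h3] at h4
    rw [h2, finrank_top, Module.finrank_self] at h1
    have h5 := hu.card
    have h6 := hv.card
    omega
  subst hk
  rw [hu.cov_eq, hv.cov_eq, H1.io_append]
  set U1 := Submodule.span ℝ (Set.range fun i => io lam W (u i)) with hU1
  have f1 : FiniteDimensional ℝ U1 :=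
    FiniteDimensional.span_of_finite ℝ (Set.finite_range _)
  rw [gram_append _ _ U1 hU1]
  have hnn := H1.gram_det_nonneg (fun i => io lam W (u i))
  refine le_mul_of_one_le_right hnn ?_
  rw [Matrix.det_fin_one, Matrix.gram_apply, real_inner_self_eq_norm_sq]
  -- the leading coefficient
  have hv0 : (v 0).map (Int.castRingHom ℚ) ∈ V := by
    have := hv.mem (Fin.natAdd m 0)
    rwa [Fin.append_right] at this
  have hc : (v 0).coeff n ≠ 0 := by
    intro h0
    have h1 : v 0 ∈ MU (V ⊓ degreeLT ℚ n) := by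
      rw [mem_MU]
      exact ⟨hv0, hmem _ hv0 (by rw [coeff_map, h0, map_zero])⟩
    obtain ⟨a, ha⟩ := hu.span _ h1
    have h2 := hv.li
    rw [Fintype.linearIndependent_iff] at h2
    have h3 := h2 (Fin.append a (fun _ : Fin 1 => -1)) (by
      rw [Fin.sum_univ_add]
      simp only [Fin.append_left, Fin.append_right]
      rw [← ha]
      simp) (Fin.natAdd m 0)
    rw [Fin.append_right] at h3
    omega
  -- elements of the span have no term of degree `n`
  let ψ : PW lam W →ₗ[ℝ] ℝ := (lcoeff ℝ n) ∘ₗ (PW.of lam W).symm.toLinearMap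
  have hψ : U1 ≤ LinearMap.ker ψ := by
    rw [hU1, Submodule.span_le]
    rintro _ ⟨i, rfl⟩
    have h1 : ((u i).map (Int.castRingHom ℚ)).coeff n = 0 := hmem' _ (hu.mem i).2
    simp only [SetLike.mem_coe, LinearMap.mem_ker, ψ, io, LinearMap.comp_apply,
      LinearEquiv.coe_coe, LinearEquiv.symm_apply_apply, lcoeff_apply, coeff_map]
    rw [coeff_map] at h1
    have h2 : (u i).coeff n = 0 := by simpa using h1
    rw [h2, map_zero]
  set x := io lam W (v 0) - U1.starProjection (io lam W (v 0)) with hx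
  have hψx : ψ x = ((v 0).coeff n : ℝ) := by
    have h1 : ψ (U1.starProjection (io lam W (v 0))) = 0 :=
      hψ (Submodule.starProjection_apply_mem _ _)
    rw [hx, map_sub, h1, sub_zero]
    simp [ψ, io]
  obtain ⟨P, hP⟩ := (PW.of lam W).surjective x
  have hPc : P.coeff n = ((v 0).coeff n : ℝ) := by
    rw [← hψx, ← hP]
    simp [ψ]
  have h1 : (1 : ℝ) ≤ P.coeff n ^ 2 := by
    rw [hPc]
    have : (1 : ℤ) ≤ (v 0).coeff n ^ 2 := by
      have := pow_ne_zero 2 hc
      have := sq_nonneg ((v 0).coeff n)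
      omega
    exact_mod_cast this
  have h2 : ‖x‖ ^ 2 = PW.ip lam W P P := by rw [← hP, H1.norm_of_sq]
  have hlt : P.natDegree < max (P.natDegree + 1) (n + 1) := by
    exact lt_of_lt_of_le (Nat.lt_succ_self _) (le_max_left _ _)
  change 1 ≤ ‖x‖ ^ 2
  rw [h2, PW.ip_self _ _ P _ hlt]
  have h3 : P.coeff n ^ 2 ≤ ∑ j ∈ Finset.range (max (P.natDegree + 1) (n + 1)), P.coeff j ^ 2 :=
    Finset.single_le_sum (f := fun j => P.coeff j ^ 2) (fun j _ => sq_nonneg _)
      (Finset.mem_range.2 (lt_of_lt_of_le (Nat.lt_succ_self n) (le_max_right _ _)))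
  have h4 : 0 ≤ W ^ 2 * (P.eval lam) ^ 2 := by positivity
  linarith

end VTop

end Pool.Agent.BCD
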