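import Pool.Agent.Work.MP_bc8e1e_an.D.UH
import Pool.Agent.Work.MP_bc8e1e_an.D.VH1a
import Pool.Agent.Work.MP_bc8e1e_an.D.VH1b

/-!
# The long window inverse theorem
-/

set_option autoImplicit false

open MeasureTheory Polynomial

namespace Pool.Agent.BCD

namespace VH1

open UH

variable {lam W T : ℝ}

/-- the canonical subspaces -/
structure Can (lam W T : ℝ) (D : ℕ → Submodule ℚ ℚ[X]) : Prop where
  le : ∀ n, D n ≤ degreeLT ℚ n
  cl : ∀ n, Cl lam W T (D n)
  top : ∀ n, ∀ U : Submodule ℚ ℚ[X], U ≤ degreeLT ℚ n → Cl lam W T U → U ≤ D n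
  max : ∀ n, ∀ U : Submodule ℚ ℚ[X], D n ≤ U → U ≤ degreeLT ℚ n →
    gT lam W T U ≤ gT lam W T (D n)

theorem exists_can (lam W T : ℝ) : ∃ D : ℕ → Submodule ℚ ℚ[X], Can lam W T D := by
  choose D hD1 hD2 hD3 hD4 using fun n => exists_max lam W T n
  exact ⟨D, hD1, hD2, hD3, hD4⟩

variable {D : ℕ → Submodule ℚ ℚ[X]}

theorem Can.fin (h : Can lam W T D) (n : ℕ) : Module.Finite ℚ (D n) := H4.finite_of_le (h.le n)

theorem Can.step (h : Can lam W T D) (h0 : 0 < lam) (h1 : lam < 1) (n : ℕ) :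
    D n ⊔ shU (D n) ≤ D (n + 1) := by
  have := h.fin n
  refine sup_le ?_ ?_
  · exact h.top _ _ ((h.le n).trans (degreeLT_mono (Nat.le_succ n))) (h.cl n)
  · refine h.top _ _ ?_ (Cl_shift h0 h1 (h.cl n))
    intro p hp
    obtain ⟨q, hq, rfl⟩ := H2.mem_shU.1 hp
    have hq' := mem_degreeLT.1 (h.le n hq)
    rw [mem_degreeLT]
    by_cases hq0 : q = 0
    · simp [hq0]
    · rw [degree_mul, degree_X]
      rw [degree_eq_natDegree hq0] at hq' ⊢
      have h2 : q.natDegree < n := by exact_mod_cast hq'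
      have h3 : 1 + q.natDegree < n + 1 := by omega
      exact_mod_cast h3

theorem Can.le_succ (h : Can lam W T D) (h0 : 0 < lam) (h1 : lam < 1) (n : ℕ) :
    D n ≤ D (n + 1) := le_sup_left.trans (h.step h0 h1 n)

theorem Can.mono (h : Can lam W T D) (h0 : 0 < lam) (h1 : lam < 1) : Monotone D :=
  monotone_nat_of_le_succ (h.le_succ h0 h1)

theorem Can.one_le (h : Can lam W T D) (n : ℕ) : 1 ≤ cov lam W (D n) := by
  have := h.fin n
  exact one_le_cov _

/-- minimality of the covolume -/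
theorem Can.cov_min (h : Can lam W T D) (hT : 1 ≤ T) {n : ℕ} {V : Submodule ℚ ℚ[X]}
    (hV : D n ≤ V) (hV' : V ≤ D (n + 1)) : cov lam W (D n) ≤ cov lam W V := by
  have hVd : V ≤ degreeLT ℚ (n + 1) := hV'.trans (h.le _)
  refine le_trans ?_ (cov_top hVd)
  have hle : D n ≤ V ⊓ degreeLT ℚ n := le_inf hV (h.le n)
  have hfin : Module.Finite ℚ (V ⊓ degreeLT ℚ n : Submodule ℚ ℚ[X]) :=
    H4.finite_of_le inf_le_right
  have h2 := h.max n _ hle inf_le_right
  have h3 := Submodule.finrank_mono hle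
  have h4 : (Module.finrank ℚ (D n) : ℝ) ≤
      Module.finrank ℚ (V ⊓ degreeLT ℚ n : Submodule ℚ ℚ[X]) := by exact_mod_cast h3
  have h5 := h.one_le n
  have h6 : 1 ≤ cov lam W (V ⊓ degreeLT ℚ n : Submodule ℚ ℚ[X]) := one_le_cov _
  have hL : 0 ≤ Real.log T := Real.log_nonneg hT
  rw [← Real.log_le_log_iff (by linarith) (by linarith)]
  unfold gT at h2
  nlinarith

theorem Can.log_cov (h : Can lam W T D) (h0 : 0 < lam) (h1 : lam < 1) (n : ℕ) :
    Real.log (cov lam W (D (n + 1))) ≤ Real.log (cov lam W (D n)) +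
      2 * Real.log T * ((Module.finrank ℚ (D (n + 1)) : ℝ) - Module.finrank ℚ (D n)) := by
  have h2 := h.cl (n + 1) _ (h.le_succ h0 h1 n)
  unfold gT at h2
  linarith

theorem Can.cov_ratio (h : Can lam W T D) (h0 : 0 < lam) (h1 : lam < 1) (hT : 0 < T) {n : ℕ}
    (hd : Module.finrank ℚ (D n) ≤ Module.finrank ℚ (D (n + 1))) :
    cov lam W (D (n + 1)) ≤ cov lam W (D n) *
      (T ^ 2) ^ (Module.finrank ℚ (D (n + 1)) - Module.finrank ℚ (D n)) := by
  have h2 := h.log_cov h0 h1 n
  have h3 := h.one_le n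
  have h4 := h.one_le (n + 1)
  rw [← Real.log_le_log_iff (by linarith) (by positivity), Real.log_mul (by positivity)
    (by positivity), ← pow_mul, Real.log_pow]
  push_cast [Nat.cast_sub hd]
  linarith

/-- the quantity `ρ cov ^ c` -/
noncomputable def AA (lam W T c : ℝ) (U : Submodule ℚ ℚ[X]) : ℝ :=
  rhoU lam W T U * cov lam W U ^ c

theorem rhoU_nonneg (U : Submodule ℚ ℚ[X]) : 0 ≤ rhoU lam W T U :=
  tsum_nonneg fun _ => (Real.exp_pos _).le

theorem AA_nonneg (h : Can lam W T D) (c : ℝ) (n : ℕ) : 0 ≤ AA lam W T c (D n) :=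
  mul_nonneg (rhoU_nonneg _) (Real.rpow_nonneg (by linarith [h.one_le n]) _)

/-- one step -/
theorem Can.mass (h : Can lam W T D) (h0 : 0 < lam) (h1 : lam < 1) (hT : 1 ≤ T) {c θ : ℝ}
    (hc : 0 < c) (h1θ : 1 ≤ θ) (hθ : ∀ g : ℝ, 1 ≤ g → g ≤ T ^ 2 →
      (∑' j : ℤ, Real.exp (-(Real.pi * g * (j : ℝ) ^ 2 / T ^ 2))) * g ^ c ≤ θ) {n : ℕ}
    (hd : Module.finrank ℚ (D n) + 1 ≤ Module.finrank ℚ (D (n + 1))) :
    AA lam W T c (D (n + 1)) ≤ AA lam W T c (D n) *
      (θ * ((T * Real.exp 8 * T ^ (2 * c)) ^ 2) ^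
        (Module.finrank ℚ (D (n + 1)) - Module.finrank ℚ (D n) - 1)) := by
  have hT0 : 0 < T := by linarith
  have hfin := h.fin (n + 1)
  have hle := h.le_succ h0 h1 n
  have hn1 := h.one_le n
  have hn2 := h.one_le (n + 1)
  have hrho := rhoU_nonneg (lam := lam) (W := W) (T := T) (D n)
  have hAA := AA_nonneg h c n
  rcases Nat.lt_or_ge (Module.finrank ℚ (D n) + 1) (Module.finrank ℚ (D (n + 1))) with hlt | hge
  · -- several dimensions
    set m := Module.finrank ℚ (D (n + 1)) - Module.finrank ℚ (D n) with hm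
    have hm2 : 2 ≤ m := by omega
    have e1 := rho_step (lam := lam) (W := W) (T := T) hT hle (fun V hV hV' => h.cov_min hT hV hV')
    rw [← hm] at e1
    have e2 := h.cov_ratio h0 h1 hT0 (n := n) (by omega)
    rw [← hm] at e2
    have e3 : cov lam W (D (n + 1)) ^ c ≤ cov lam W (D n) ^ c * (T ^ (2 * c)) ^ m := by
      calc cov lam W (D (n + 1)) ^ c ≤ (cov lam W (D n) * (T ^ 2) ^ m) ^ c :=
            Real.rpow_le_rpow (by linarith) e2 hc.le
        _ = cov lam W (D n) ^ c * (T ^ (2 * c)) ^ m := by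
          rw [Real.mul_rpow (by linarith) (by positivity)]
          congr 1
          rw [← Real.rpow_natCast, ← Real.rpow_natCast (T ^ (2 * c)), ← Real.rpow_natCast T 2,
            ← Real.rpow_mul hT0.le, ← Real.rpow_mul hT0.le, ← Real.rpow_mul hT0.le]
          congr 1
          push_cast
          ring
    have e4 : 1 ≤ T * Real.exp 8 * T ^ (2 * c) := by
      have e5 : 1 ≤ Real.exp 8 := Real.one_le_exp (by norm_num)
      have e6 : 1 ≤ T ^ (2 * c) := Real.one_le_rpow hT (by positivity)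
      exact one_le_mul_of_one_le_of_one_le (one_le_mul_of_one_le_of_one_le hT e5) e6
    calc AA lam W T c (D (n + 1)) = rhoU lam W T (D (n + 1)) * cov lam W (D (n + 1)) ^ c := rfl
      _ ≤ (rhoU lam W T (D n) * (T * Real.exp 8) ^ m) *
          (cov lam W (D n) ^ c * (T ^ (2 * c)) ^ m) := by
          apply mul_le_mul e1 e3 (Real.rpow_nonneg (by linarith) _)
          positivity
      _ = AA lam W T c (D n) * (T * Real.exp 8 * T ^ (2 * c)) ^ m := by
          unfold AA
          rw [mul_pow _ (T ^ (2 * c))]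
          ring
      _ ≤ AA lam W T c (D n) * (1 * (T * Real.exp 8 * T ^ (2 * c)) ^ (2 * (m - 1))) := by
          refine mul_le_mul_of_nonneg_left ?_ hAA
          rw [one_mul]
          exact pow_le_pow_right₀ e4 (by omega)
      _ ≤ AA lam W T c (D n) * (θ * ((T * Real.exp 8 * T ^ (2 * c)) ^ 2) ^ (m - 1)) := by
          refine mul_le_mul_of_nonneg_left ?_ hAA
          rw [pow_mul]
          refine mul_le_mul_of_nonneg_right h1θ (by positivity)
  · -- one dimension
    have hdim : Module.finrank ℚ (D (n + 1)) = Module.finrank ℚ (D n) + 1 := le_antisymm hge hd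
    have e1 := rho_step_one (lam := lam) (W := W) (T := T) hT0 hle hdim
    set g := cov lam W (D (n + 1)) / cov lam W (D n) with hg
    have hg1 : 1 ≤ g := by
      rw [hg, one_le_div (by linarith)]
      exact h.cov_min hT hle le_rfl
    have hg2 : g ≤ T ^ 2 := by
      have e2 := h.cov_ratio h0 h1 hT0 (n := n) (by omega)
      rw [hdim] at e2
      have e3 : Module.finrank ℚ (D n) + 1 - Module.finrank ℚ (D n) = 1 := by omega
      rw [e3, pow_one] at e2
      rw [hg, div_le_iff₀ (by linarith), mul_comm]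
      exact e2
    have e2 : cov lam W (D (n + 1)) ^ c = cov lam W (D n) ^ c * g ^ c := by
      rw [← Real.mul_rpow (by linarith) (by linarith)]
      congr 1
      rw [hg]
      field_simp
    have e3 : Module.finrank ℚ (D (n + 1)) - Module.finrank ℚ (D n) - 1 = 0 := by omega
    rw [e3, pow_zero, mul_one]
    calc AA lam W T c (D (n + 1)) = rhoU lam W T (D (n + 1)) * cov lam W (D (n + 1)) ^ c := rfl
      _ ≤ (rhoU lam W T (D n) *
          ∑' j : ℤ, Real.exp (-(Real.pi * g * (j : ℝ) ^ 2 / T ^ 2))) *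
          cov lam W (D (n + 1)) ^ c :=
          mul_le_mul_of_nonneg_right e1 (Real.rpow_nonneg (by linarith) _)
      _ = AA lam W T c (D n) *
          ((∑' j : ℤ, Real.exp (-(Real.pi * g * (j : ℝ) ^ 2 / T ^ 2))) * g ^ c) := by
          rw [e2]
          unfold AA
          ring
      _ ≤ AA lam W T c (D n) * θ := mul_le_mul_of_nonneg_left (hθ g hg1 hg2) hAA

theorem Can.dim_succ (h : Can lam W T D) (h0 : 0 < lam) (h1 : lam < 1) {n : ℕ}
    (hn : D n ≠ ⊥) : Module.finrank ℚ (D n) + 1 ≤ Module.finrank ℚ (D (n + 1)) := by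
  have := h.fin n
  have := h.fin (n + 1)
  exact (finrank_sup_shU hn).trans (Submodule.finrank_mono (h.step h0 h1 n))

/-- the chain -/
theorem Can.chain (h : Can lam W T D) (h0 : 0 < lam) (h1 : lam < 1) (hT : 1 ≤ T) {c θ : ℝ}
    (hc : 0 < c) (h1θ : 1 ≤ θ) (hθ : ∀ g : ℝ, 1 ≤ g → g ≤ T ^ 2 →
      (∑' j : ℤ, Real.exp (-(Real.pi * g * (j : ℝ) ^ 2 / T ^ 2))) * g ^ c ≤ θ) {n : ℕ}
    (hn : D n ≠ ⊥) : ∀ k : ℕ, Module.finrank ℚ (D n) + k ≤ Module.finrank ℚ (D (n + k)) ∧
    AA lam W T c (D (n + k)) ≤ AA lam W T c (D n) *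
      (θ ^ k * ((T * Real.exp 8 * T ^ (2 * c)) ^ 2) ^
        (Module.finrank ℚ (D (n + k)) - Module.finrank ℚ (D n) - k)) := by
  intro k
  induction k with
  | zero => simp
  | succ k ih =>
    obtain ⟨ih1, ih2⟩ := ih
    have hne : D (n + k) ≠ ⊥ := by
      intro hbot
      apply hn
      rw [eq_bot_iff, ← hbot]
      exact h.mono h0 h1 (by omega)
    have h2 := h.dim_succ h0 h1 hne
    have h3 := h.mass h0 h1 hT hc h1θ hθ h2
    have e0 : n + (k + 1) = n + k + 1 := by omega
    rw [e0]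
    refine ⟨by omega, ?_⟩
    have hK : 0 ≤ (T * Real.exp 8 * T ^ (2 * c)) ^ 2 := sq_nonneg _
    have hAA := AA_nonneg h c n
    refine h3.trans ?_
    refine (mul_le_mul_of_nonneg_right ih2 (by positivity)).trans (le_of_eq ?_)
    have e1 : Module.finrank ℚ (D (n + k + 1)) - Module.finrank ℚ (D n) - (k + 1) =
        (Module.finrank ℚ (D (n + k)) - Module.finrank ℚ (D n) - k) +
        (Module.finrank ℚ (D (n + k + 1)) - Module.finrank ℚ (D (n + k)) - 1) := by omega
    rw [e1, pow_add _ _ (Module.finrank ℚ (D (n + k + 1)) - Module.finrank ℚ (D (n + k)) - 1),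
      pow_succ θ]
    ring

theorem Can.gT_nonneg (h : Can lam W T D) (n : ℕ) : 0 ≤ gT lam W T (D n) := by
  have hgbot : gT lam W T ⊥ = 0 := by
    unfold gT
    rw [cov_bot, finrank_bot]
    simp
  rw [← hgbot]
  exact h.cl n ⊥ bot_le

theorem Can.cov_le (h : Can lam W T D) (hT : 1 ≤ T) (n : ℕ) :
    cov lam W (D n) ≤ T ^ (2 * n) := by
  have h1 := h.gT_nonneg n
  have h2 := h.one_le n
  have h3 : (Module.finrank ℚ (D n) : ℝ) ≤ n := by exact_mod_cast H4.finrank_le (h.le n)
  have hL : 0 ≤ Real.log T := Real.log_nonneg hT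
  rw [← Real.log_le_log_iff (by linarith) (by positivity), Real.log_pow]
  unfold gT at h1
  push_cast
  nlinarith

end VH1

open VH1 UH in
theorem long_inverse : ∃ (T : ℝ) (C₂ : ℕ) (c₀ c₁ e₀ : ℝ), 16 ≤ T ∧ 1 ≤ C₂ ∧ 0 < c₀ ∧ c₀ ≤ 1 ∧
    0 < c₁ ∧ c₁ ≤ 1 ∧ 0 < e₀ ∧ e₀ ≤ 1 ∧
    ∀ ε₁ : ℝ, 0 < ε₁ → ε₁ ≤ e₀ → ∀ lam : ℝ, 1 / 2 < lam → lam < 1 → ∃ n₀ : ℕ, ∀ n N : ℕ,
      n₀ ≤ n → 4 * n ≤ N →
      (2 : ℝ) ^ (-(2 * (c₀ * ε₁) * n)) ≤ Ic lam n ((2 : ℝ) ^ (-((C₂ : ℝ) * n))) →
      (2 : ℝ) ^ (-(2 * c₁ * n)) ≤ Ic lam N ((2 : ℝ) ^ (-((C₂ : ℝ) * n))) →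
      ∃ (g : ℤ[X]) (N₁ r : ℕ), g.IsPrimitive ∧ N ≤ 2 * N₁ ∧ N₁ ≤ N ∧ 1 ≤ r ∧
        (r : ℝ) ≤ ε₁ * n ∧ g.natDegree ≤ r ∧
        cov lam (T * (2 : ℝ) ^ ((C₂ : ℝ) * n)) (idU g (N₁ - r)) * T ^ (2 * r) ≤
          cov lam (T * (2 : ℝ) ^ ((C₂ : ℝ) * n)) (degreeLT ℚ N₁) := by
  obtain ⟨k, hk, hL9⟩ := UH.exists_k
  have hk' : (1 : ℝ) ≤ k := by exact_mod_cast hk
  set T := √(Real.pi * k) with hTdef
  have hπ := Real.pi_pos
  have hlog2 := Real.log_two_gt_d9
  have hlog2' := Real.log_two_lt_d9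
  have hl2 : 0 < Real.log 2 := by linarith
  have hT1' : 1 < T := by
    by_contra hc
    push Not at hc
    have := Real.log_nonpos (Real.sqrt_nonneg _) hc
    linarith
  have hT1 : 1 ≤ T := hT1'.le
  have hT0 : 0 < T := by linarith
  set L := Real.log T with hLdef
  have hT16 : 16 ≤ T := by
    have h1 : T = Real.exp L := by rw [hLdef, Real.exp_log hT0]
    have h2 : Real.exp 9 ≤ Real.exp L := Real.exp_le_exp.2 hL9
    have h3 : Real.exp 9 = Real.exp 1 ^ 9 := by
      rw [← Real.exp_nat_mul]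
      norm_num
    have h4 := Real.exp_one_gt_d9
    have h5 : (16 : ℝ) ≤ Real.exp 1 ^ 9 := by
      calc (16 : ℝ) ≤ 2 ^ 9 := by norm_num
        _ ≤ Real.exp 1 ^ 9 := pow_le_pow_left₀ (by norm_num) (by linarith) 9
    rw [h1]
    linarith
  set θ := th T 1 with hθ
  have hθ0 : 0 < θ := th_pos hT0 one_pos
  have hTθ : T ≤ θ := le_th hk
  have h1θ : 1 ≤ θ := hT1.trans hTθ
  have hLθ : 9 ≤ Real.log θ := hL9.trans (Real.log_le_log hT0 hTθ)
  obtain ⟨c, hc, hcθ⟩ := theta_decay hT1
  rw [← th_one, ← hθ] at hcθ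
  set K : ℝ := (T * Real.exp 8 * T ^ (2 * c)) ^ 2 with hK
  have hTc : 1 ≤ T ^ (2 * c) := Real.one_le_rpow hT1 (by positivity)
  have hK0 : 0 < K := by positivity
  have hlogK : Real.log K = 2 * (L + 8 + 2 * c * L) := by
    rw [hK, Real.log_pow, Real.log_mul (by positivity) (by positivity),
      Real.log_mul (by positivity) (by positivity), Real.log_exp, Real.log_rpow hT0]
    push_cast
    ring
  have hlogK0 : 0 < Real.log K := by
    rw [hlogK]
    positivity
  obtain ⟨C₂, hC₂⟩ := exists_nat_ge (4 * L / Real.log 2 + 1)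
  have hC₂L : 4 * L ≤ C₂ * Real.log 2 := by
    have h1 : 4 * L / Real.log 2 ≤ C₂ := by linarith
    rwa [div_le_iff₀ hl2] at h1
  have hC₂1 : (1 : ℝ) ≤ C₂ := by
    have : 0 ≤ 4 * L / Real.log 2 := by positivity
    linarith
  have hC₂0 : (0 : ℝ) < C₂ := by linarith
  have hcC : 0 < c * C₂ := by positivity
  refine ⟨T, C₂, 1 / (2 * k), min 1 (c * C₂ / (4 * k)), min 1 (c * C₂ * Real.log 2 /
    (2 * Real.log K)), hT16, by exact_mod_cast hC₂1, by positivity, ?_, by positivity,
    min_le_left _ _, by positivity, min_le_left _ _, ?_⟩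
  · rw [div_le_one (by positivity)]
    linarith
  intro ε₁ h0 hε lam hl0 hl1
  refine ⟨1, fun n N hn hN hIn hIN => ?_⟩
  have hlam0 : 0 < lam := by linarith
  have hn' : (1 : ℝ) ≤ n := by exact_mod_cast hn
  have hε1 : ε₁ ≤ 1 := hε.trans (min_le_left _ _)
  have hεK : ε₁ * Real.log K ≤ c * C₂ * Real.log 2 / 2 := by
    have h1 := hε.trans (min_le_right _ _)
    rw [le_div_iff₀ (by positivity)] at h1
    linarith
  set W : ℝ := T * 2 ^ ((C₂ : ℝ) * n) with hW
  have hW0 : 0 < W := by positivity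
  have hTW : (2 : ℝ) ^ (-((C₂ : ℝ) * n)) = T / W := by
    rw [hW, Real.rpow_neg (by norm_num)]
    field_simp
  rw [hTW] at hIn hIN
  have hlogW : Real.log W = L + C₂ * n * Real.log 2 := by
    rw [hW, Real.log_mul hT0.ne' (by positivity), Real.log_rpow (by norm_num)]
  obtain ⟨D, hD⟩ := exists_can lam W T
  have hDfin := hD.fin
  -- the short window
  have hcork : ((n : ℝ) - Module.finrank ℚ (D n)) ≤ ε₁ * n * (3 / 4) := by
    have hrho : rhoU lam W T (D n) ≤ θ ^ Module.finrank ℚ (D n) := by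
      have := hDfin n
      rw [hθ, th_one]
      exact rho_upper hT0 (D n)
    have e1 := UH.core hlam0 hl1 hW0 hk hT1 (le_refl n) hIn (hD.le n) (hD.max n) hθ0 hrho
    rw [← hTdef, ← hθ] at e1
    have e2 : 2 * (1 / (2 * (k : ℝ)) * ε₁) * k * n * Real.log 2 = ε₁ * n * Real.log 2 := by
      field_simp
    rw [e2] at e1
    have hfr : (Module.finrank ℚ (D n) : ℝ) ≤ n := by exact_mod_cast H4.finrank_le (hD.le n)
    have e5 : ((n : ℝ) - Module.finrank ℚ (D n)) * (Real.log θ - 8) ≤ ε₁ * n * Real.log 2 := by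
      nlinarith
    have e6 : ((n : ℝ) - Module.finrank ℚ (D n)) ≤
        ((n : ℝ) - Module.finrank ℚ (D n)) * (Real.log θ - 8) := by
      nlinarith
    have e7 : ε₁ * n * Real.log 2 ≤ ε₁ * n * (3 / 4) := by
      apply mul_le_mul_of_nonneg_left _ (by positivity)
      linarith
    linarith
  have hDn0 : D n ≠ ⊥ := by
    intro hbot
    rw [hbot, finrank_bot] at hcork
    push_cast at hcork
    have : ε₁ * n ≤ 1 * n := mul_le_mul_of_nonneg_right hε1 (by positivity)
    linarith
  have hrn : ((n - Module.finrank ℚ (D n) : ℕ) : ℝ) ≤ ε₁ * n := by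
    rw [Nat.cast_sub (H4.finrank_le (hD.le n))]
    have : 0 < ε₁ * n := by positivity
    linarith
  -- no full subspace
  have hne : ∀ i, 0 < i → i ≤ N → D i ≠ degreeLT ℚ i := by
    intro i hi hiN he
    have hcovW : W ^ 2 ≤ cov lam W (D i) := by
      rw [he]
      exact cov_degreeLT hi
    rcases Nat.lt_or_ge n i with hni | hni
    swap
    · -- short
      have e1 := hD.cov_le hT1 i
      have e2 : Real.log (W ^ 2) ≤ Real.log (T ^ (2 * i)) :=
        Real.log_le_log (by positivity) (hcovW.trans e1)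
      rw [Real.log_pow, Real.log_pow, hlogW] at e2
      have hni' : (i : ℝ) ≤ n := by exact_mod_cast hni
      push_cast at e2
      have e3 : (i : ℝ) * L ≤ n * L := by nlinarith
      have e4 : 4 * L * n ≤ C₂ * Real.log 2 * n := by nlinarith
      nlinarith
    · -- long
      obtain ⟨j, rfl⟩ : ∃ j, i = n + j := ⟨i - n, by omega⟩
      obtain ⟨e1, e2⟩ := hD.chain hlam0 hl1 hT1 hc h1θ hcθ hDn0 j
      have e3 : Module.finrank ℚ (D (n + j)) = n + j := by rw [he, H4.finrank_degreeLT]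
      rw [← hK] at e2
      have hfn := H4.finrank_le (hD.le n)
      have e4 : Module.finrank ℚ (D (n + j)) - Module.finrank ℚ (D n) - j =
          n - Module.finrank ℚ (D n) := by omega
      rw [e4] at e2
      set r := n - Module.finrank ℚ (D n) with hr
      -- the upper bound at `n`
      have e5 : AA lam W T c (D n) ≤ θ ^ Module.finrank ℚ (D n) * T ^ (2 * c * n) := by
        have := hDfin n
        unfold AA
        refine mul_le_mul ?_ ?_ (Real.rpow_nonneg (by linarith [hD.one_le n]) _) (by positivity)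
        · rw [hθ, th_one]
          exact rho_upper hT0 (D n)
        · calc cov lam W (D n) ^ c ≤ (T ^ (2 * n)) ^ c :=
                Real.rpow_le_rpow (by linarith [hD.one_le n]) (hD.cov_le hT1 n) hc.le
            _ = T ^ (2 * c * n) := by
              rw [← Real.rpow_natCast, ← Real.rpow_mul hT0.le]
              congr 1
              push_cast
              ring
      -- the lower bound at `n + j`
      have e6 : θ ^ (n + j) * ((2 : ℝ) ^ (-(2 * min 1 (c * C₂ / (4 * k)) * n))) ^ k *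
          W ^ (2 * c) ≤ AA lam W T c (D (n + j)) := by
        unfold AA
        refine mul_le_mul ?_ ?_ (by positivity) (rhoU_nonneg _)
        · rw [he]
          refine le_trans ?_ (rho_lower_U hlam0 hl1 hW0 k (n + j) hk)
          rw [← hTdef, ← th_one, ← hθ]
          apply mul_le_mul_of_nonneg_left _ (by positivity)
          refine pow_le_pow_left₀ (by positivity) ?_ k
          exact hIN.trans (H4.Ic_anti lam hiN (by positivity))
        · calc W ^ (2 * c) = (W ^ 2) ^ c := by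
                rw [← Real.rpow_natCast, ← Real.rpow_mul hW0.le]
                congr 1
            _ ≤ _ := Real.rpow_le_rpow (by positivity) hcovW hc.le
      have e7 : θ ^ (n + j) * ((2 : ℝ) ^ (-(2 * min 1 (c * C₂ / (4 * k)) * n))) ^ k *
          W ^ (2 * c) ≤ θ ^ Module.finrank ℚ (D n) * T ^ (2 * c * n) * (θ ^ j * K ^ r) :=
        (e6.trans e2).trans (mul_le_mul_of_nonneg_right e5 (by positivity))
      have e8 := Real.log_le_log (by positivity) e7
      rw [Real.log_mul (by positivity) (by positivity), Real.log_mul (by positivity)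
        (by positivity), Real.log_mul (by positivity) (by positivity), Real.log_mul
        (by positivity) (by positivity), Real.log_mul (by positivity) (by positivity),
        Real.log_pow, Real.log_pow, Real.log_pow, Real.log_pow, Real.log_pow,
        Real.log_rpow (by norm_num), Real.log_rpow hW0, Real.log_rpow hT0, hlogW, ← hLdef] at e8
      have e9 : (Module.finrank ℚ (D n) : ℝ) ≤ n := by exact_mod_cast hfn
      push_cast at e8
      have e10 : (Module.finrank ℚ (D n) : ℝ) * Real.log θ ≤ n * Real.log θ := by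
        apply mul_le_mul_of_nonneg_right e9
        linarith
      have e11 : (r : ℝ) * Real.log K ≤ n * (c * C₂ * Real.log 2 / 2) := by
        calc (r : ℝ) * Real.log K ≤ ε₁ * n * Real.log K :=
              mul_le_mul_of_nonneg_right hrn hlogK0.le
          _ = n * (ε₁ * Real.log K) := by ring
          _ ≤ _ := mul_le_mul_of_nonneg_left hεK (by positivity)
      have e12 : (k : ℝ) * (2 * min 1 (c * C₂ / (4 * k)) * n * Real.log 2) ≤
          c * C₂ / 2 * n * Real.log 2 := by
        have h5 : (k : ℝ) * min 1 (c * C₂ / (4 * k)) ≤ c * C₂ / 4 := by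
          calc (k : ℝ) * min 1 (c * C₂ / (4 * k)) ≤ k * (c * C₂ / (4 * k)) :=
                mul_le_mul_of_nonneg_left (min_le_right _ _) (by linarith)
            _ = c * C₂ / 4 := by field_simp
        calc (k : ℝ) * (2 * min 1 (c * C₂ / (4 * k)) * n * Real.log 2) =
              ((k : ℝ) * min 1 (c * C₂ / (4 * k))) * (2 * n * Real.log 2) := by ring
          _ ≤ c * C₂ / 4 * (2 * n * Real.log 2) :=
              mul_le_mul_of_nonneg_right h5 (by positivity)
          _ = _ := by ring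
      have e13 : 4 * L * (c * n) ≤ C₂ * Real.log 2 * (c * n) :=
        mul_le_mul_of_nonneg_right hC₂L (by positivity)
      have e14 : 0 < c * C₂ * n * Real.log 2 := by positivity
      have e15 : 0 < c * L := by positivity
      nlinarith
  -- the scale with an ideal
  have hmono := hD.mono hlam0 hl1
  have hi0n : n ≤ (N + 1) / 2 := by omega
  obtain ⟨N₁, hi0, hiN, hDbot, g, hg, hDg⟩ := exists_ideal hlam0 hl1 hT1' N ((N + 1) / 2) D
    (fun n => ⟨hD.le n, hD.cl n, hD.top n⟩) hne (by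
      have hfin := hDfin ((N + 1) / 2)
      have h5 := Submodule.finrank_mono (hmono hi0n)
      have h6 : 0 < Module.finrank ℚ (D n) := by
        have := hDfin n
        rw [Nat.pos_iff_ne_zero]
        intro h7
        exact hDn0 (Submodule.finrank_eq_zero.1 h7)
      omega)
  have hfinN := hDfin N₁
  have hle : Module.finrank ℚ (D N₁) ≤ N₁ := H4.finrank_le (hD.le N₁)
  have hlt : Module.finrank ℚ (D N₁) < N₁ := by
    refine lt_of_le_of_ne hle fun h7 => ?_
    refine hne N₁ (by omega) hiN.le (Submodule.eq_of_le_of_finrank_eq (hD.le N₁) ?_)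
    rw [h7, H4.finrank_degreeLT]
  have hpos : 0 < Module.finrank ℚ (D N₁) := by
    rw [Nat.pos_iff_ne_zero]
    intro h7
    exact hDbot (Submodule.finrank_eq_zero.1 h7)
  have hr : N₁ - (N₁ - Module.finrank ℚ (D N₁)) = Module.finrank ℚ (D N₁) := by omega
  refine ⟨g, N₁, N₁ - Module.finrank ℚ (D N₁), hg, by omega, hiN.le, by omega, ?_, ?_, ?_⟩
  · -- the corank
    refine le_trans ?_ hrn
    obtain ⟨j, rfl⟩ : ∃ j, N₁ = n + j := ⟨N₁ - n, by omega⟩
    obtain ⟨e1, -⟩ := hD.chain hlam0 hl1 hT1 hc h1θ hcθ hDn0 j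
    exact_mod_cast (show n + j - Module.finrank ℚ (D (n + j)) ≤
      n - Module.finrank ℚ (D n) by omega)
  · -- the degree
    have hg0 : g ≠ 0 := hg.ne_zero
    have h1 : X ^ (Module.finrank ℚ (D N₁) - 1) * g.map (Int.castRingHom ℚ) ∈
        idU g (Module.finrank ℚ (D N₁)) := by
      unfold idU
      refine Submodule.mem_map.2 ⟨X ^ (Module.finrank ℚ (D N₁) - 1), ?_, ?_⟩
      · rw [mem_degreeLT, degree_X_pow]
        have : Module.finrank ℚ (D N₁) - 1 < Module.finrank ℚ (D N₁) := by omega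
        exact_mod_cast this
      · simp [mul_comm]
    rw [← hDg] at h1
    have h2 := (hD.le N₁) h1
    rw [mem_degreeLT] at h2
    have h3 : g.map (Int.castRingHom ℚ) ≠ 0 := by
      rw [Ne, Polynomial.map_eq_zero_iff (RingHom.injective_int _)]
      exact hg0
    rw [degree_mul, degree_X_pow, degree_eq_natDegree h3,
      natDegree_map_eq_of_injective (RingHom.injective_int _)] at h2
    have h4 : Module.finrank ℚ (D N₁) - 1 + g.natDegree < N₁ := by exact_mod_cast h2
    omega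
  · -- the covolumes
    rw [hr, ← hDg]
    have h5 := hD.max N₁ (degreeLT ℚ N₁) (hD.le N₁) le_rfl
    unfold gT at h5
    rw [H4.finrank_degreeLT] at h5
    have h6 := hD.one_le N₁
    have hfinE : Module.Finite ℚ (degreeLT ℚ N₁) := H4.finite_of_le le_rfl
    have h7 : 1 ≤ cov lam W (degreeLT ℚ N₁) := one_le_cov _
    rw [← Real.log_le_log_iff (by positivity) (by linarith), Real.log_mul (by positivity)
      (by positivity), Real.log_pow]
    push_cast [Nat.cast_sub hle]
    linarith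

end Pool.Agent.BCD
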