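import Pool.Agent.Work.MP_bc8e1e_an.D.H3b

/-!
# Module VH2a: covolumes against a test polynomial
-/

set_option autoImplicit false

open MeasureTheory Polynomial
open scoped RealInnerProductSpace Matrix

namespace Pool.Agent.BCD

variable {lam W T : ℝ}

namespace VH2a

open Matrix

lemma det_rank_one {m : ℕ} {A : Matrix (Fin m) (Fin m) ℝ} (hA : IsUnit A.det) (e : Fin m → ℝ)
    (W : ℝ) : (A + Matrix.of fun i j => W ^ 2 * (e i * e j)).det =
      A.det * (1 + W ^ 2 * (e ⬝ᵥ (A⁻¹ *ᵥ e))) := by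
  have h1 : (Matrix.of fun i j => W ^ 2 * (e i * e j)) =
      replicateCol Unit (W ^ 2 • e) * replicateRow Unit e := by
    ext i j
    simp [Matrix.mul_apply, mul_assoc]
  rw [h1, det_add_replicateCol_mul_replicateRow hA]
  congr 1
  rw [det_unique, Matrix.add_apply, Matrix.one_apply_eq, Matrix.mul_assoc]
  congr 1
  have h2 : A⁻¹ * replicateCol Unit (W ^ 2 • e) = replicateCol Unit (A⁻¹ *ᵥ (W ^ 2 • e)) := by
    ext i j
    simp [Matrix.mul_apply, Matrix.mulVec, dotProduct]
  rw [h2, replicateRow_mul_replicateCol_apply, Matrix.mulVec_smul, dotProduct_smul, smul_eq_mul]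

lemma det_rank_one_ge {m : ℕ} {A : Matrix (Fin m) (Fin m) ℝ} (hA : A.PosDef) (e c : Fin m → ℝ)
    (W : ℝ) {q : ℝ} (hq : q = c ⬝ᵥ (A *ᵥ c)) (hq0 : 0 < q) :
    A.det * (1 + W ^ 2 * ((e ⬝ᵥ c) ^ 2 / q)) ≤
      (A + Matrix.of fun i j => W ^ 2 * (e i * e j)).det := by
  have hd : 0 < A.det := hA.det_pos
  have hu : IsUnit A.det := isUnit_iff_ne_zero.2 hd.ne'
  rw [det_rank_one hu]
  set x := A⁻¹ *ᵥ e with hx
  have hAx : A *ᵥ x = e := by
    rw [hx, mulVec_mulVec, mul_nonsing_inv A hu, one_mulVec]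
  have hsym : A.transpose = A := by
    have := hA.isHermitian
    rwa [Matrix.IsHermitian, conjTranspose_eq_transpose_of_trivial] at this
  have h1 : e ⬝ᵥ c = x ⬝ᵥ (A *ᵥ c) := by
    rw [← hAx, dotProduct_mulVec, ← hsym, vecMul_transpose, hsym]
  have h1' : c ⬝ᵥ (A *ᵥ x) = x ⬝ᵥ (A *ᵥ c) := by
    rw [hAx, dotProduct_comm, h1]
  have h2 : e ⬝ᵥ x = x ⬝ᵥ (A *ᵥ x) := by
    rw [hAx, dotProduct_comm]
  have h3 : ∀ y : Fin m → ℝ, 0 ≤ y ⬝ᵥ (A *ᵥ y) := by
    intro y
    have := hA.posSemidef.dotProduct_mulVec_nonneg y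
    simpa using this
  set s := x ⬝ᵥ (A *ᵥ c) with hs
  have h4 := h3 (x - (s / q) • c)
  rw [mulVec_sub, mulVec_smul, sub_dotProduct, dotProduct_sub, dotProduct_sub, smul_dotProduct,
    smul_dotProduct, dotProduct_smul, dotProduct_smul, h1', ← hq, ← hs, smul_eq_mul,
    smul_eq_mul, smul_eq_mul] at h4
  have h5 : (e ⬝ᵥ c) ^ 2 / q ≤ e ⬝ᵥ x := by
    rw [h2, h1]
    have h6 : s / q * q = s := by field_simp
    have h7 : s ^ 2 / q = s / q * s := by ring
    rw [h7]
    rw [h6] at h4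
    linarith
  gcongr

/-- entries of the Gram matrix. -/
lemma gram_io {n : ℕ} (b : Fin n → ℤ[X]) :
    (Matrix.gram ℝ fun i => io lam W (b i)) = (Matrix.gram ℝ fun i => io lam 0 (b i)) +
      Matrix.of fun i j => W ^ 2 * (((b i).map (Int.castRingHom ℝ)).eval lam *
        ((b j).map (Int.castRingHom ℝ)).eval lam) := by
  ext i j
  rw [Matrix.add_apply, Matrix.gram_apply, Matrix.gram_apply, Matrix.of_apply]
  unfold io
  rw [PW.inner_def, PW.inner_def]
  unfold PW.ip
  ring

end VH2a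

open VH2a H3c

theorem cov_lower {g : ℤ[X]} (hg : g.IsPrimitive) {m : ℕ} {h : ℝ[X]} (hh : h ≠ 0)
    (hdvd : g.map (Int.castRingHom ℝ) ∣ h) (hdeg : h.natDegree < g.natDegree + m) :
    Mah g ^ (2 * m) *
        (1 + W ^ 2 * (h.eval lam ^ 2 / ∑ j ∈ Finset.range (h.natDegree + 1), h.coeff j ^ 2))
      ≤ cov lam W (idU g m) := by
  obtain ⟨q, rfl⟩ := hdvd
  set G := g.map (Int.castRingHom ℝ) with hG
  have hG0 : G ≠ 0 := left_ne_zero_of_mul hh
  have hq0 : q ≠ 0 := right_ne_zero_of_mul hh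
  have hGd : G.natDegree = g.natDegree := natDegree_map_eq_of_injective (RingHom.injective_int _) g
  have hqm : q.natDegree < m := by
    rw [natDegree_mul hG0 hq0, hGd] at hdeg
    omega
  have hcov0 := cov_ideal (lam := lam) (W := 0) hg m
  rw [(bas_idU hg m).cov_eq] at hcov0 ⊢
  rw [gram_io]
  set b : Fin m → ℤ[X] := fun j => g * X ^ (j : ℕ) with hb
  set A := Matrix.gram ℝ fun i => io lam 0 (b i) with hA
  have hMah : 0 < Mah g := zero_lt_one.trans_le (one_le_Mah (H3c.prim_ne hg))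
  have hAd : 0 < A.det := lt_of_lt_of_le (by positivity) hcov0
  have hApd : A.PosDef := by
    refine ((Matrix.posSemidef_gram ℝ _).posDef_iff_det_ne_zero).2 hAd.ne'
  have hsum : G * q = ∑ j : Fin m, q.coeff j • (b j).map (Int.castRingHom ℝ) := by
    have h6 := q.sum_fin (fun i a => monomial i a) (by simp)
      ((degree_lt_iff_coeff_zero _ _).2 fun k hk => coeff_eq_zero_of_natDegree_lt (by omega) :
        q.degree < m)
    rw [sum_monomial_eq] at h6
    conv_lhs => rw [← h6]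
    rw [Finset.mul_sum]
    refine Finset.sum_congr rfl fun j _ => ?_
    rw [hb]
    simp only [Polynomial.map_mul, Polynomial.map_pow, map_X]
    rw [← hG, ← mul_smul_comm, smul_X_eq_monomial]
  have hev : (G * q).eval lam = (fun j : Fin m => ((b j).map (Int.castRingHom ℝ)).eval lam) ⬝ᵥ
      fun j : Fin m => q.coeff j := by
    rw [hsum, eval_finsetSum]
    unfold dotProduct
    refine Finset.sum_congr rfl fun j _ => ?_
    rw [eval_smul, smul_eq_mul, mul_comm]
  have hn : ∑ j ∈ Finset.range ((G * q).natDegree + 1), (G * q).coeff j ^ 2 =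
      (fun j : Fin m => q.coeff j) ⬝ᵥ (A *ᵥ fun j : Fin m => q.coeff j) := by
    have e1 : ∑ j ∈ Finset.range ((G * q).natDegree + 1), (G * q).coeff j ^ 2 =
        ⟪PW.of lam 0 (G * q), PW.of lam 0 (G * q)⟫ := by
      rw [PW.inner_def, PW.ip_self lam 0 _ _ (Nat.lt_succ_self _)]
      ring
    have e2 : PW.of lam 0 (G * q) = ∑ j : Fin m, q.coeff j • io lam 0 (b j) := by
      rw [hsum, map_sum]
      refine Finset.sum_congr rfl fun j _ => ?_
      rw [map_smul]
      rfl
    rw [e1, e2, sum_inner]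
    unfold dotProduct Matrix.mulVec dotProduct
    refine Finset.sum_congr rfl fun i _ => ?_
    rw [inner_sum, Finset.mul_sum]
    refine Finset.sum_congr rfl fun j _ => ?_
    rw [real_inner_smul_left, real_inner_smul_right]
    show q.coeff i * (q.coeff j * ⟪io lam 0 (b i), io lam 0 (b j)⟫) =
      q.coeff i * (⟪io lam 0 (b i), io lam 0 (b j)⟫ * q.coeff j)
    ring
  have hpos : 0 < ∑ j ∈ Finset.range ((G * q).natDegree + 1), (G * q).coeff j ^ 2 := by
    refine Finset.sum_pos' (fun _ _ => sq_nonneg _) ⟨(G * q).natDegree, by simp, ?_⟩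
    have : (G * q).leadingCoeff ≠ 0 := leadingCoeff_ne_zero.2 hh
    positivity
  refine le_trans ?_ (det_rank_one_ge hApd _ _ W hn hpos)
  rw [← hev]
  gcongr

theorem cov_degreeLT_le (h0 : 0 < lam) (h1 : lam < 1) (n : ℕ) :
    cov lam W (degreeLT ℚ n) ≤ 1 + W ^ 2 / (1 - lam ^ 2) := by
  have hid : idU 1 n = degreeLT ℚ n := by
    unfold idU
    rw [Polynomial.map_one]
    have : LinearMap.mulLeft ℚ (1 : ℚ[X]) = LinearMap.id := by ext; simp
    rw [this, Submodule.map_id]
  rw [← hid, (bas_idU (f := 1) Polynomial.isPrimitive_one n).cov_eq, gram_io]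
  have hG : (Matrix.gram ℝ fun i : Fin n => io lam 0 (1 * X ^ (i : ℕ))) = 1 := by
    ext i j
    rw [Matrix.gram_apply]
    unfold io
    rw [PW.inner_def, PW.ip_eq lam 0 _ _ n]
    · simp only [one_mul, Polynomial.map_pow, map_X, coeff_X_pow]
      rw [Matrix.one_apply]
      by_cases hij : i = j
      · subst hij
        rw [Finset.sum_eq_single (i : ℕ)]
        · simp
        · intro k _ hk
          simp [hk]
        · intro hi
          exact absurd (Finset.mem_range.2 i.2) hi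
      · rw [if_neg hij, Finset.sum_eq_zero]
        · simp
        · intro k _
          by_cases hk : k = i
          · have : (k : ℕ) ≠ j := fun h => hij (Fin.ext (hk ▸ h))
            simp [this]
          · simp [hk]
    · simp
  rw [hG, det_rank_one (by simp)]
  rw [Matrix.det_one, one_mul, inv_one, Matrix.one_mulVec]
  have h2 : (0 : ℝ) < 1 - lam ^ 2 := by nlinarith
  have hs : (fun i : Fin n => ((1 * X ^ (i : ℕ) : ℤ[X]).map (Int.castRingHom ℝ)).eval lam) ⬝ᵥ
      (fun i : Fin n => ((1 * X ^ (i : ℕ) : ℤ[X]).map (Int.castRingHom ℝ)).eval lam) ≤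
      1 / (1 - lam ^ 2) := by
    unfold dotProduct
    have e1 : ∀ i : Fin n, ((1 * X ^ (i : ℕ) : ℤ[X]).map (Int.castRingHom ℝ)).eval lam *
        ((1 * X ^ (i : ℕ) : ℤ[X]).map (Int.castRingHom ℝ)).eval lam = (lam ^ 2) ^ (i : ℕ) := by
      intro i
      simp
      ring
    rw [Finset.sum_congr rfl fun i _ => e1 i, Fin.sum_univ_eq_sum_range (fun i => (lam ^ 2) ^ i) n,
      geom_sum_eq (by linarith [h2]), ← neg_div_neg_eq, neg_sub, neg_sub]
    rw [div_le_div_iff_of_pos_right h2]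
    have : 0 ≤ (lam ^ 2) ^ n := by positivity
    linarith
  rw [div_eq_mul_one_div (W ^ 2)]
  gcongr

end Pool.Agent.BCD
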