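import Mathlib

/-!
# Theorem V: the roots of `g` well inside the unit disc
-/

set_option autoImplicit false

open Polynomial

namespace Pool.Agent.BCD

/-- Nonzero roots of `g` well inside the disc. -/
noncomputable def spec (lam : ℝ) (g : ℤ[X]) : Multiset ℂ :=
  ((g.map (Int.castRingHom ℂ)).roots).filter
    (fun α => α ≠ 0 ∧ ‖α‖ < 1 - (1 - lam) / 10)

end Pool.Agent.BCD
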