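import Pool.Agent.Work.MP_bc8e1e_an.D.H4Root
import Pool.Agent.Work.MP_bc8e1e_an.D.VSpec

/-!
# Module VH2b of Theorem V: the roots well inside the disc
-/

set_option autoImplicit false

open Polynomial

namespace Pool.Agent.BCD

theorem one_le_Mah {g : ℤ[X]} (hg : g ≠ 0) : 1 ≤ Mah g := by
  classical
  have e1 : Mah g = ‖(g.map (Int.castRingHom ℂ)).leadingCoeff‖ *
      ((g.map (Int.castRingHom ℂ)).roots.map fun a => max 1 ‖a‖).prod :=
    mahlerMeasure_eq_leadingCoeff_mul_prod_roots _
  rw [e1]
  have e3 := H4.one_le_prod_roots g.natDegree g hg le_rfl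
  refine e3.trans (mul_le_mul_of_nonneg_left ?_ (norm_nonneg _))
  apply Multiset.prod_map_le_prod_map₀
  · intro η _
    split_ifs <;> positivity
  · intro η _
    split_ifs
    · exact le_max_left _ _
    · exact le_max_right _ _

theorem spec_card {lam : ℝ} (h1 : lam < 1) (h0 : 1 / 2 < lam) {g : ℤ[X]} (hg : g ≠ 0) :
    (Multiset.card (spec lam g)) * ((1 - lam) / 10) ≤ Real.log (Mah g) := by
  classical
  set p := g.map (Int.castRingHom ℂ) with hp
  set q : ℝ := 1 - (1 - lam) / 10 with hq
  have hq0 : 0 < q := by rw [hq]; linarith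
  have hq1 : q < 1 := by rw [hq]; linarith
  have hc : Multiset.card (spec lam g) =
      p.roots.countP (fun α => α ≠ 0 ∧ ‖α‖ < q) := by
    rw [Multiset.countP_eq_card_filter, spec]
  rw [hc]
  set K := p.roots.countP (fun α => α ≠ 0 ∧ ‖α‖ < q) with hK
  have hM1 : q⁻¹ ^ K ≤ Mah g := by
    have e1 : Mah g = ‖p.leadingCoeff‖ * (p.roots.map fun a => max 1 ‖a‖).prod :=
      mahlerMeasure_eq_leadingCoeff_mul_prod_roots p
    have e2 : (p.roots.map fun η => (if η = 0 then (1 : ℝ) else ‖η‖) *
        (if η ≠ 0 ∧ ‖η‖ < q then q⁻¹ else 1)).prod ≤ (p.roots.map fun a => max 1 ‖a‖).prod := by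
      apply Multiset.prod_map_le_prod_map₀
      · intro η _
        apply mul_nonneg
        · split_ifs <;> positivity
        · split_ifs <;> positivity
      · intro η _
        by_cases hη : η = 0
        · subst hη
          rw [if_pos rfl, if_neg (by simp)]
          simp
        · rw [if_neg hη]
          by_cases hn : ‖η‖ < q
          · rw [if_pos ⟨hη, hn⟩]
            refine le_max_of_le_left ?_
            rw [← div_eq_mul_inv, div_le_one hq0]
            exact hn.le
          · rw [if_neg (fun h => hn h.2), mul_one]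
            exact le_max_right _ _
    rw [Multiset.prod_map_mul, H4.prod_ite] at e2
    have e3 := H4.one_le_prod_roots g.natDegree g hg le_rfl
    rw [← hp] at e3
    rw [e1]
    have e4 : (0 : ℝ) ≤ q⁻¹ ^ K := by positivity
    calc q⁻¹ ^ K = 1 * q⁻¹ ^ K := (one_mul _).symm
      _ ≤ (‖p.leadingCoeff‖ * (p.roots.map fun η => if η = 0 then (1 : ℝ) else ‖η‖).prod) *
          q⁻¹ ^ K := mul_le_mul_of_nonneg_right e3 e4
      _ = ‖p.leadingCoeff‖ * ((p.roots.map fun η => if η = 0 then (1 : ℝ) else ‖η‖).prod *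
          q⁻¹ ^ K) := by ring
      _ ≤ _ := mul_le_mul_of_nonneg_left e2 (norm_nonneg _)
  have e2 : (K : ℝ) * Real.log q⁻¹ ≤ Real.log (Mah g) := by
    rw [← Real.log_pow]
    exact Real.log_le_log (by positivity) hM1
  have e3 : (1 - lam) / 10 ≤ Real.log q⁻¹ := by
    rw [Real.log_inv]
    have := Real.log_le_sub_one_of_pos hq0
    linarith
  exact (mul_le_mul_of_nonneg_left e3 (Nat.cast_nonneg K)).trans e2

end Pool.Agent.BCD
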